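import Mathlib
import Pool.Agent.Lib.SV.Defs3
import Pool.Agent.Lib.MP_663568_nul.Base

/-!
# Theorem VQ (MP_663568_nt): polynomial phases with few changes.  Definitions and row statements.

`Q n` is a polynomial of degree at most `t`, `Q (n + 1) ≠ Q n` for at most `H ^ A` of the `n` of a
dyadic block; the mean over `n` (logarithmic, windows `[x, x H]`, `x ≥ H ^ B`) of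
`|∑_{h ≤ H} μ(n + h) e(Q_n(n + h))| / H` is small.  Induction on `t`; the case `t = 1` is Theorem V.
The paper proof is the note vq_MP_663568_nt_h28.  (helper28)
-/

set_option autoImplicit false
open Finset MeasureTheory Polynomial

namespace Pool.Agent.VQ

open Pool.Agent.Lib.MP_663568_nt Pool.Agent.Lib.MP_663568_nt.Katai
  Pool.Agent.Lib.MP_663568_nt.Nul Pool.Agent.SV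

noncomputable section

/-! ### Windows -/

/-- The mean of the window `(m, m + l]` with the phase `P`. -/
def Wp (l m : ℕ) (P : ℝ[X]) : ℝ :=
  ‖∑ h ∈ Icc 1 l, muC (m + h) * ee (P.eval ((m : ℝ) + h))‖ / l

/-- The mean of a phase over the window. -/
def Kp (l m : ℕ) (D : ℝ[X]) : ℝ := ‖∑ h ∈ Icc 1 l, ee (D.eval ((m : ℝ) + h))‖ / l

/-- The family changes at most `K` times in each dyadic block. -/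
def SlowP (Q : ℕ → ℝ[X]) (K : ℝ) : Prop := ∀ j : ℕ, (by
  classical
  exact (#((Ico (2 ^ j) (2 ^ (j + 1))).filter fun n => Q (n + 1) ≠ Q n) : ℝ)) ≤ K

/-- **The statement for the degree `t`.** -/
def VW (t : ℕ) : Prop := ∀ A ε : ℝ, 0 ≤ A → 0 < ε → ∃ (B : ℝ) (H₀ : ℕ), 0 ≤ B ∧
  ∀ H : ℕ, H₀ ≤ H → ∀ xa xb : ℝ, (H : ℝ) ^ B ≤ xa → xa * H ≤ xb → ∀ Q : ℕ → ℝ[X],
  (∀ n, (Q n).natDegree ≤ t) → SlowP Q ((H : ℝ) ^ A) →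
  ∑ n ∈ Ioc ⌊xa⌋₊ ⌊xb⌋₊, (1 / (n : ℝ)) * Wp H n (Q n) ≤ ε * (Real.log xb - Real.log xa)

/-- Row BAS: the degree 1 (the proof of `SV.fin_v` from the row RA on, one window). -/
def BAS_stmt : Prop := RA_stmt → RB_stmt → RB2_stmt → RC_stmt → CORE_stmt → MuT_stmt → RD_stmt →
  VW 1

/-- Row WIN: choice of a window. -/
def WIN_stmt : Prop := ∀ (ε xa xb Λ : ℝ) (f : ℕ → ℝ), 1 ≤ xa → 0 < Λ → xa * Real.exp Λ ≤ xb →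
  ε * (Real.log xb - Real.log xa) < ∑ n ∈ Ioc ⌊xa⌋₊ ⌊xb⌋₊, (1 / (n : ℝ)) * f n →
  ∃ ya yb : ℝ, xa ≤ ya ∧ yb ≤ xb ∧ Λ ≤ Real.log yb - Real.log ya ∧
    Real.log yb - Real.log ya ≤ 2 * Λ ∧ ya < yb ∧
    ε * (Real.log yb - Real.log ya) < ∑ n ∈ Ioc ⌊ya⌋₊ ⌊yb⌋₊, (1 / (n : ℝ)) * f n

/-! ### Turán–Kubilius -/

/-- The mean of the window `(y, y + l]` with the bounded weights `g`. -/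
def zg (l y : ℕ) (g : ℕ → ℂ) : ℂ := (∑ m ∈ Ioc y (y + l), muC m * g m) / l

/-- Row TKG: `SV.T1_stmt` with the weights `g` (see the proof of `SV.t1`). -/
def TKG_stmt : Prop := ∀ ε : ℝ, 0 < ε → ∃ K η : ℝ, 1 ≤ K ∧ 0 < η ∧ η ≤ 1 ∧
  ∀ (PP : Finset ℕ) (Z : ℝ), (∀ p ∈ PP, p.Prime ∧ K ≤ p ∧ (p : ℝ) ≤ Z) → K ≤ Ls PP →
  ∀ X l : ℕ, K * Z ^ 2 ≤ X → 1 ≤ l → l * Z ≤ η * X → ∀ (n : ℕ) (g : ℕ → ℂ), (∀ m, ‖g m‖ ≤ 1) →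
    ‖zg X n g + ∑ p ∈ PP, (wt PP p : ℂ) *
      (((1 / X : ℝ) : ℂ) * ∫ t in (n : ℝ)..(n + X), zg l ⌊t / p⌋₊ (fun m => g (p * m)))‖ ≤ ε

/-- The phase at the lower level: `x ↦ Q_{⌊p e^v⌋}(p x)`. -/
def Pp (Q : ℕ → ℝ[X]) (p : ℕ) (v : ℝ) : ℝ[X] :=
  (Q ⌊(p : ℝ) * Real.exp v⌋₊).comp (C (p : ℝ) * X)

/-- Row DIL: passage to the lower level. -/
def DIL_stmt : Prop := TKG_stmt → ∀ A ε κ₂ : ℝ, 0 ≤ A → 0 < ε → ε ≤ 1 → 0 < κ₂ → κ₂ ≤ 1 / 4 →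
  ∃ κ₁ η B : ℝ, 0 < κ₁ ∧ κ₁ ≤ κ₂ ∧ 0 < η ∧ η ≤ 1 ∧ 0 ≤ B ∧ ∃ H₀ : ℕ, ∀ H : ℕ, H₀ ≤ H →
  1 ≤ Ls (PPs H κ₁ κ₂) ∧ ∀ xa xb : ℝ, (H : ℝ) ^ B ≤ xa → xa * H ≤ xb → ∀ Q : ℕ → ℝ[X],
  SlowP Q ((H : ℝ) ^ A) →
  ε * (Real.log xb - Real.log xa) ≤ ∑ n ∈ Ioc ⌊xa⌋₊ ⌊xb⌋₊, (1 / (n : ℝ)) * Wp H n (Q n) →
  ε / 2 * (Real.log xb - Real.log xa) ≤ ∑ p ∈ PPs H κ₁ κ₂, wt (PPs H κ₁ κ₂) p *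
    ∫ v in (Real.log xa - Real.log p)..(Real.log xb - Real.log p),
      Wp ⌊η * (H : ℝ) ^ (1 - κ₂)⌋₊ ⌊Real.exp v⌋₊ (Pp Q p v)

/-! ### Polynomials near integers -/

open Classical in
/-- Row REC: a polynomial which is near an integer on a positive proportion of an interval. -/
def REC_stmt : Prop := ∀ t : ℕ, 1 ≤ t → ∃ E : ℕ, 1 ≤ E ∧ ∀ (δ ρ : ℝ) (L : ℕ) (P : ℝ[X]),
  0 < δ → δ ≤ 1 / 2 → (1 / δ) ^ E ≤ (L : ℝ) → ρ ≤ δ / 100 → P.natDegree ≤ t →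
  δ * L ≤ (#((Icc 1 L).filter fun m : ℕ => nd (P.eval (m : ℝ)) ≤ ρ) : ℝ) →
  ∃ q : ℕ, 1 ≤ q ∧ (q : ℝ) ≤ (1 / δ) ^ E ∧
    ∀ j, 1 ≤ j → j ≤ t → nd ((q : ℝ) * P.coeff j) ≤ (1 / δ) ^ E / (L : ℝ) ^ j

open Classical in
/-- Many windows on which the phase does not cancel: the top coefficient. -/
def PREC' : Prop := ∀ (t : ℕ) (c : ℝ), 2 ≤ t → 0 < c → c ≤ 1 →
  ∃ (Q₂ n₀ : ℕ) (E : ℝ), 1 ≤ Q₂ ∧ 0 < E ∧ ∀ l L a : ℕ, n₀ ≤ l → n₀ ≤ L → ∀ D : ℝ[X],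
  D.natDegree ≤ t →
  c * L ≤ (#((Ico a (a + L)).filter fun m : ℕ => c ≤ Kp l m D) : ℝ) →
  nd ((Q₂ : ℝ) * D.coeff t) ≤ E / (L : ℝ) ^ (t - 1)

/-- Row PREC (from REC and `TU.weyl_all`). -/
def PREC_stmt : Prop := REC_stmt → PREC'

/-- Row PAIR: Cauchy's inequality. -/
def PAIR_stmt : Prop := ∀ (l m : ℕ) (GG : Finset ℕ) (w : ℕ → ℝ) (P : ℕ → ℝ[X]) (ε : ℝ), 1 ≤ l →
  (∀ p ∈ GG, 0 ≤ w p) → 0 ≤ ε → (∀ p ∈ GG, ε ≤ Wp l m (P p)) →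
  ε ^ 2 * (∑ p ∈ GG, w p) ^ 2 ≤ ∑ p ∈ GG, ∑ p' ∈ GG, w p * w p' * Kp l m (P p - P p')

/-! ### The system -/

/-- The number of the cell of `v` (cells of relative length `1 / K`). -/
def cl (K : ℕ) (v : ℝ) : ℕ := ⌊(K : ℝ) * Real.log (⌊Real.exp v⌋₊ : ℝ)⌋₊

/-- `Q_{⌊p e^v⌋}` is constant on the cell of `v`. -/
def Cst (Q : ℕ → ℝ[X]) (K p : ℕ) (v : ℝ) : Prop :=
  ∀ v' : ℝ, cl K v' = cl K v → Q ⌊(p : ℝ) * Real.exp v'⌋₊ = Q ⌊(p : ℝ) * Real.exp v⌋₊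

/-- `p` and `p'` are good at `v` and their phases correlate. -/
def Np (Q : ℕ → ℝ[X]) (K l : ℕ) (xa xb e c : ℝ) (p p' : ℕ) : Set ℝ :=
  {v | (Real.log xa - Real.log p ≤ v ∧ v ≤ Real.log xb - Real.log p ∧ Cst Q K p v ∧
      e ≤ Wp l ⌊Real.exp v⌋₊ (Pp Q p v)) ∧
    (Real.log xa - Real.log p' ≤ v ∧ v ≤ Real.log xb - Real.log p' ∧ Cst Q K p' v ∧
      e ≤ Wp l ⌊Real.exp v⌋₊ (Pp Q p' v)) ∧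
    c ≤ Kp l ⌊Real.exp v⌋₊ (Pp Q p v - Pp Q p' v)}

/-- Row SYA: many pairs. -/
def SYA_stmt : Prop := PAIR_stmt → ∀ A ε κ₁ κ₂ : ℝ, 0 ≤ A → 0 < ε → ε ≤ 1 → 0 < κ₁ → κ₁ ≤ κ₂ →
  κ₂ ≤ 1 / 4 → ∃ (c B : ℝ) (H₀ : ℕ), 0 < c ∧ c ≤ 1 ∧ 0 ≤ B ∧ ∀ H : ℕ, H₀ ≤ H →
  1 ≤ Ls (PPs H κ₁ κ₂) → ∀ xa xb : ℝ, (H : ℝ) ^ B ≤ xa → xa * H ≤ xb → xb ≤ xa * (H : ℝ) ^ 2 →
  ∀ Q : ℕ → ℝ[X], SlowP Q ((H : ℝ) ^ A) → ∀ l : ℕ, 1 ≤ l → l ≤ H →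
  ε * (Real.log xb - Real.log xa) ≤ ∑ p ∈ PPs H κ₁ κ₂, wt (PPs H κ₁ κ₂) p *
    ∫ v in (Real.log xa - Real.log p)..(Real.log xb - Real.log p),
      Wp l ⌊Real.exp v⌋₊ (Pp Q p v) →
  (∀ p p', MeasurableSet (Np Q ⌈(H : ℝ) ^ (A + 1)⌉₊ l xa xb (ε / 4) c p p')) ∧
  c * (Real.log xb - Real.log xa) ≤ ∑ p ∈ PPs H κ₁ κ₂, ∑ p' ∈ PPs H κ₁ κ₂,
    wt (PPs H κ₁ κ₂) p * wt (PPs H κ₁ κ₂) p' *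
      (volume (Np Q ⌈(H : ℝ) ^ (A + 1)⌉₊ l xa xb (ε / 4) c p p')).toReal

/-- Row SYB: choice of a reference prime in each cell; the relation for the top coefficients. -/
def SYB_stmt : Prop := PREC' → ∀ (t : ℕ) (A κ₁ κ₂ e c : ℝ), 2 ≤ t → 0 ≤ A → 0 < κ₁ → κ₁ ≤ κ₂ →
  κ₂ ≤ 1 / 4 → 0 < e → 0 < c → c ≤ 1 →
  ∃ (δ B : ℝ) (Q₂ H₀ : ℕ), 0 < δ ∧ δ ≤ 1 ∧ 0 ≤ B ∧ 1 ≤ Q₂ ∧ ∀ H : ℕ, H₀ ≤ H →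
  1 ≤ Ls (PPs H κ₁ κ₂) → ∀ xa xb : ℝ, (H : ℝ) ^ B ≤ xa → xa * H ≤ xb → xb ≤ xa * (H : ℝ) ^ 2 →
  ∀ Q : ℕ → ℝ[X], (∀ n, (Q n).natDegree ≤ t) → ∀ l K : ℕ, (H : ℝ) ^ (1 / 2 : ℝ) ≤ l → l ≤ H →
  K = ⌈(H : ℝ) ^ (A + 1)⌉₊ →
  (∀ p p', MeasurableSet (Np Q K l xa xb e c p p')) →
  c * (Real.log xb - Real.log xa) ≤ ∑ p ∈ PPs H κ₁ κ₂, ∑ p' ∈ PPs H κ₁ κ₂,
    wt (PPs H κ₁ κ₂) p * wt (PPs H κ₁ κ₂) p' * (volume (Np Q K l xa xb e c p p')).toReal →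
  ∃ (b : ℝ → ℝ) (G : ℕ → Set ℝ), (∀ p, MeasurableSet (G p)) ∧
    (∀ p, ∀ u ∈ G p, p ∈ PPs H κ₁ κ₂ ∧ Real.log xa - Real.log p ≤ u ∧
      u ≤ Real.log xb - Real.log p ∧ Cst Q K p u ∧ e ≤ Wp l ⌊Real.exp u⌋₊ (Pp Q p u) ∧
      ∃ k : ℤ, |(p : ℝ) ^ t * ((Q₂ : ℝ) * (Q ⌊(p : ℝ) * Real.exp u⌋₊).coeff t) - b u - k| ≤
        (H : ℝ) ^ B / xa ^ (t - 1)) ∧
    δ * (Real.log xb - Real.log xa) ≤ ∑ p ∈ PPs H κ₁ κ₂, wt (PPs H κ₁ κ₂) p *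
      (volume (G p)).toReal

/-! ### Systems of degree `t` -/

/-- The system without frequencies: the rows J1, J2, K0–K3 of `SV` apply to it. -/
def dum (s : Sys) : Sys := { s with al := fun _ => 0, b := fun _ => 0, tau := 0 }

/-- The properties of a system of degree `t`. -/
structure OKT (s : Sys) (t : ℕ) (P1 P2 R : ℝ) : Prop where
  dm : (dum s).OK P1 P2 R
  const : ∀ u v : ℝ, s.st u = s.st v → s.al u = s.al v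
  good : ∀ p, ∀ u ∈ s.G p, ∃ k : ℤ, |(p : ℝ) ^ t * s.al (u + Real.log p) - s.b u - k| ≤ s.tau
  tau0 : 0 ≤ s.tau

/-- The number of the changes before `e ^ u`. -/
def stq (Q : ℕ → ℝ[X]) (u : ℝ) : ℤ := by
  classical
  exact ((#((range ⌊Real.exp u⌋₊).filter fun i => Q (i + 1) ≠ Q i) : ℕ) : ℤ)

/-- The system of a family. -/
def mkS (H : ℕ) (κ₁ κ₂ : ℝ) (Q : ℕ → ℝ[X]) (t Q₂ : ℕ) (b : ℝ → ℝ) (G : ℕ → Set ℝ)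
    (tau xa xb : ℝ) : Sys :=
  ⟨PPs H κ₁ κ₂, fun u => (Q₂ : ℝ) * (Q ⌊Real.exp u⌋₊).coeff t, b, stq Q, G, tau,
    Real.log xa - Real.log ((H : ℝ) ^ κ₂), Real.log xb⟩

/-- Row OKQ: the system of a family is a system. -/
def OKQ_stmt : Prop := ∀ A κ₁ κ₂ : ℝ, 0 ≤ A → 0 < κ₁ → κ₁ ≤ κ₂ → κ₂ ≤ 1 / 4 → ∃ H₀ : ℕ,
  ∀ H : ℕ, H₀ ≤ H → 1 ≤ Ls (PPs H κ₁ κ₂) → ∀ (t Q₂ : ℕ) (Q : ℕ → ℝ[X]) (b : ℝ → ℝ)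
  (G : ℕ → Set ℝ) (tau xa xb : ℝ), 1 ≤ xa → xa ≤ xb → 0 ≤ tau → SlowP Q ((H : ℝ) ^ A) →
  (∀ p, MeasurableSet (G p)) →
  (∀ p, ∀ u ∈ G p, p ∈ PPs H κ₁ κ₂ ∧ Real.log xa - Real.log p ≤ u ∧
    u ≤ Real.log xb - Real.log p ∧
    ∃ k : ℤ, |(p : ℝ) ^ t * ((Q₂ : ℝ) * (Q ⌊(p : ℝ) * Real.exp u⌋₊).coeff t) - b u - k| ≤ tau) →
  OKT (mkS H κ₁ κ₂ Q t Q₂ b G tau xa xb) t ((H : ℝ) ^ κ₁) ((H : ℝ) ^ κ₂) ((H : ℝ) ^ (A + 1))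

/-- `β` is a lift of `b` modulo the `t`-th power of the product of the `q i`. -/
def IsLiftT (s : Sys) (t : ℕ) {m : ℕ} (q : Fin m → ℕ) (β : ℝ → ℝ) : Prop :=
  ∀ u : ℝ, (∀ i, u ∈ s.G (q i)) → (∃ k : ℤ, β u = s.b u + k) ∧
    ∀ i, ∃ k : ℤ, |β u - (q i : ℝ) ^ t * s.al (u + Real.log (q i)) - (q i : ℝ) ^ t * k| ≤ s.tau

/-- Row P0T: existence of the lift (see `SV.p0`). -/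
def P0T_stmt : Prop := ∀ (s : Sys) (t : ℕ) (P1 P2 R : ℝ), OKT s t P1 P2 R → ∀ (m : ℕ)
  (q : Fin m → ℕ), Function.Injective q → (∀ i, q i ∈ s.PP) → ∃ β : ℝ → ℝ, IsLiftT s t q β

/-- Row P1T: the relation along an edge (see `SV.p1`). -/
def P1T_stmt : Prop := ∀ (s : Sys) (t : ℕ) (P1 P2 R : ℝ), 1 ≤ t → OKT s t P1 P2 R →
  8 * P2 ^ t * s.tau < 1 →
  ∀ (m : ℕ) (q : Fin m → ℕ), 1 ≤ m → Function.Injective q → (∀ i, q i ∈ s.PP) →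
  ∀ β : ℝ → ℝ, IsLiftT s t q β → ∀ cell : ℕ → ℕ, ∀ p ∈ s.PP, ∀ p' ∈ s.PP,
  ∀ z ∈ Edge s cell q p p', ∃ k : ℤ,
    |(p : ℝ) ^ t * β (z + Real.log p) - (p' : ℝ) ^ t * β (z + Real.log p') -
      k * ((∏ i, q i : ℕ) : ℝ) ^ t| ≤ 4 * P2 ^ t * s.tau

/-- Row P2T: the same step (see `SV.p2`). -/
def P2T_stmt : Prop := ∀ (s : Sys) (t : ℕ) (P1 P2 R : ℝ), 1 ≤ t → OKT s t P1 P2 R →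
  8 * P2 ^ t * s.tau < 1 →
  ∀ (m : ℕ) (q : Fin m → ℕ), 1 ≤ m → Function.Injective q → (∀ i, q i ∈ s.PP) →
  ∀ β : ℝ → ℝ, IsLiftT s t q β → ∀ u v : ℝ, (∀ i, u ∈ s.G (q i)) → (∀ i, v ∈ s.G (q i)) →
  (∀ i, s.al (u + Real.log (q i)) = s.al (v + Real.log (q i))) → ∃ k : ℤ,
    |β u - β v - k * ((∏ i, q i : ℕ) : ℝ) ^ t| ≤ 2 * s.tau

/-- The relation along a path. -/
def P3T' : Prop := ∀ (s : Sys) (t : ℕ) (P1 P2 R g : ℝ), 1 ≤ t →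
  OKT s t P1 P2 R → 8 * P2 ^ t * s.tau < 1 → 1 ≤ g →
  ∀ (m : ℕ) (q : Fin m → ℕ), 1 ≤ m → Function.Injective q → (∀ i, q i ∈ s.PP) →
  ∀ β : ℝ → ℝ, IsLiftT s t q β → ∀ cell : ℕ → ℕ,
  (∀ p ∈ s.PP, ∀ p' ∈ s.PP, cell p = cell p' → (p : ℝ) ≤ g * p') →
  ∀ (k : ℕ), ∀ l ∈ paths (Mv s cell) k, ∀ v : ℝ, OkL sg (Ed s cell q) l v →
    |(l.map sg).sum| ≤ k * Real.log g ∧
    (l.map sg).sum = Real.log (N1 l) - Real.log (N2 l) ∧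
    ∃ j : ℤ, |(N1 l : ℝ) ^ t * β (v + (l.map sg).sum) - (N2 l : ℝ) ^ t * β v -
      j * ((∏ i, q i : ℕ) : ℝ) ^ t|
      ≤ (N2 l : ℝ) ^ t * (k * g ^ (t * k) * (4 * P2 ^ t * s.tau) / P1 ^ t)

/-- Row P3T (see `SV.p3`). -/
def P3T_stmt : Prop := P1T_stmt → P3T'

/-- The properties of the pairs `(n₁, n₂)` of the closed paths. -/
structure CloseT (t : ℕ) (P1 P2 R β M E2 : ℝ) (k : ℕ) (x : ℕ × ℕ) : Prop where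
  rough : ∀ r : ℕ, r.Prime → r ∣ x.1 * x.2 → P1 ≤ r
  l1 : P1 ^ (2 * k) ≤ x.1
  u1 : (x.1 : ℝ) ≤ P2 ^ (2 * k)
  l2 : P1 ^ (2 * k) ≤ x.2
  u2 : (x.2 : ℝ) ≤ P2 ^ (2 * k)
  near : |Real.log x.1 - Real.log x.2| ≤ 1 / R
  rel : ∃ j : ℤ, |((x.1 : ℝ) ^ t - (x.2 : ℝ) ^ t) * β - j * M| ≤
    2 * ((x.1 : ℝ) ^ t + (x.2 : ℝ) ^ t) * E2

/-- Closed paths from a rich point. -/
def E1T' : Prop := ∀ (s : Sys) (t : ℕ) (P1 P2 R g : ℝ), 1 ≤ t →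
  OKT s t P1 P2 R → 8 * P2 ^ t * s.tau < 1 → 1 ≤ g →
  ∀ (m : ℕ) (q : Fin m → ℕ), 1 ≤ m → Function.Injective q → (∀ i, q i ∈ s.PP) →
  ∀ β : ℝ → ℝ, IsLiftT s t q β → ∀ cell : ℕ → ℕ,
  (∀ p ∈ s.PP, ∀ p' ∈ s.PP, cell p = cell p' → (p : ℝ) ≤ g * p') →
  ∀ (k : ℕ) (δ v : ℝ), 1 ≤ k → 0 < δ →
  δ ≤ (Op (Mv s cell) (om s) sg (Ed s cell q))^[k] (fun _ => 1) v →
  ∃ Nn : Finset (ℕ × ℕ),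
    (∀ x ∈ Nn, CloseT t P1 P2 R (β v) (((∏ i, q i : ℕ) : ℝ) ^ t)
      (k * g ^ (t * k) * (4 * P2 ^ t * s.tau) / P1 ^ t) k x) ∧
    δ ^ 2 / (((2 * (k * Real.log g) + 1) * (m * R) + 2 * (k * Real.log g) * R + 2) *
      ((2 * k).factorial : ℝ) ^ 2) ≤ ∑ x ∈ Nn, 1 / ((x.1 : ℝ) * x.2)

/-- Row E1T (see `SV.e1`). -/
def E1T_stmt : Prop := P3T' → P2T_stmt → K2_stmt → E1T'

/-! ### Number theory -/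

open Classical in
/-- Row SVQ: rough numbers in short intervals in a progression (see `SV.sv1`). -/
def SVQ_stmt : Prop := ∃ E : ℝ, 0 < E ∧ ∀ (P x y : ℝ) (q r : ℕ), 2 ≤ P → 0 ≤ x → 1 ≤ q →
  q * P ≤ y →
  (#((Ioc ⌊x⌋₊ ⌊x + y⌋₊).filter fun n : ℕ => n ≡ r [MOD q] ∧
    ∀ s : ℕ, s.Prime → s ∣ n → P ≤ s) : ℝ) ≤ E * y / ((Nat.totient q : ℝ) * Real.log P)

open Classical in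
/-- Row NRT: the number of the solutions of `r ^ t ≡ a` modulo `q` (Vandermonde). -/
def NRT_stmt : Prop := ∀ t : ℕ, 1 ≤ t → ∃ E : ℝ, 0 < E ∧ ∀ q a : ℕ, 1 ≤ q →
  (#((range q).filter fun r : ℕ => r ^ t ≡ a [MOD q]) : ℝ) ≤
    E * (q : ℝ) ^ (1 - 2 / ((t : ℝ) * (t + 1)))

/-- Row PHQ: a lower bound for `φ(q)`. -/
def PHQ_stmt : Prop := ∀ η : ℝ, 0 < η → ∃ E : ℝ, 0 < E ∧ ∀ q : ℕ, 1 ≤ q →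
  (q : ℝ) ^ (1 - η) ≤ E * (Nat.totient q : ℝ)

/-- Row NTA: the closed paths of one size: `β / M` is rational up to a small error, with
denominator a power of `log H`, and the pairs are congruent. -/
def NTA_stmt : Prop := REC_stmt → ∀ (t k : ℕ) (κ₁ κ₂ A c : ℝ), 1 ≤ t → 1 ≤ k → 0 < κ₁ →
  κ₁ ≤ κ₂ → 0 < c → 0 ≤ A → t * A + 1 ≤ 2 * k * κ₁ →
  ∃ (c' E H₀ : ℝ), 0 < c' ∧ 0 ≤ E ∧ ∀ H : ℝ, H₀ ≤ H →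
  ∀ R β M E2 : ℝ, 1 ≤ R → R ≤ H ^ A → 0 < M → 0 ≤ E2 → H ^ (2 * k * κ₂ * t + 2) * E2 ≤ M →
  ∀ Nn : Finset (ℕ × ℕ), (∀ x ∈ Nn, CloseT t (H ^ κ₁) (H ^ κ₂) R β M E2 k x) →
  c / (R * Real.log H) ≤ ∑ x ∈ Nn, 1 / ((x.1 : ℝ) * x.2) →
  ∃ (q : ℕ) (a : ℤ) (Y : ℝ) (N' : Finset (ℕ × ℕ)), N' ⊆ Nn ∧ 1 ≤ q ∧
    (q : ℝ) ≤ (Real.log H) ^ E ∧ |(q : ℝ) * β - a * M| ≤ H * R * E2 ∧
    (∀ x ∈ N', Y ≤ x.2 ∧ (x.2 : ℝ) < 2 * Y ∧ (q : ℤ) ∣ (x.1 : ℤ) ^ t - (x.2 : ℤ) ^ t) ∧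
    c' * Y ^ 2 / (R * (Real.log H) ^ 2) ≤ (#N' : ℝ) ∧ 1 ≤ Y

/-- Row NTB: the denominator is bounded. -/
def NTB_stmt : Prop := SV1_stmt → SVQ_stmt → NRT_stmt → PHQ_stmt →
  ∀ (t k : ℕ) (κ₁ A c E : ℝ), 1 ≤ t → 1 ≤ k → 0 < κ₁ → κ₁ ≤ 1 / 2 → 0 < c → 0 ≤ A →
  A + 1 ≤ 2 * k * κ₁ → 0 ≤ E →
  ∃ (Q₁ : ℕ) (H₀ : ℝ), 1 ≤ Q₁ ∧ ∀ H : ℝ, H₀ ≤ H → ∀ (R Y : ℝ) (q : ℕ) (N' : Finset (ℕ × ℕ)),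
  1 ≤ R → R ≤ H ^ A → 1 ≤ q → (q : ℝ) ≤ (Real.log H) ^ E → 1 ≤ Y →
  (∀ x ∈ N', (∀ r : ℕ, r.Prime → r ∣ x.1 * x.2 → H ^ κ₁ ≤ r) ∧ (H ^ κ₁) ^ (2 * k) ≤ x.2 ∧
    |Real.log x.1 - Real.log x.2| ≤ 1 / R ∧ 1 ≤ x.1 ∧
    Y ≤ x.2 ∧ (x.2 : ℝ) < 2 * Y ∧ (q : ℤ) ∣ (x.1 : ℤ) ^ t - (x.2 : ℤ) ^ t) →
  c * Y ^ 2 / (R * (Real.log H) ^ 2) ≤ (#N' : ℝ) → q ≤ Q₁

/-- The lift at a rich point: conclusion of NTA and NTB. -/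
def NTT' : Prop := ∀ (t k : ℕ) (κ₁ κ₂ A c : ℝ), 1 ≤ t → 1 ≤ k → 0 < κ₁ →
  κ₁ ≤ κ₂ → κ₁ ≤ 1 / 2 → 0 < c → 0 ≤ A → t * A + 1 ≤ 2 * k * κ₁ →
  ∃ (Q₁ : ℕ) (H₀ : ℝ), 1 ≤ Q₁ ∧ ∀ H : ℝ, H₀ ≤ H →
  ∀ R β M E2 : ℝ, 1 ≤ R → R ≤ H ^ A → 0 < M → 0 ≤ E2 → H ^ (2 * k * κ₂ * t + 2) * E2 ≤ M →
  ∀ Nn : Finset (ℕ × ℕ), (∀ x ∈ Nn, CloseT t (H ^ κ₁) (H ^ κ₂) R β M E2 k x) →
  c / (R * Real.log H) ≤ ∑ x ∈ Nn, 1 / ((x.1 : ℝ) * x.2) →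
  ∃ q : ℕ, 1 ≤ q ∧ q ≤ Q₁ ∧ ∃ a : ℤ, |(q : ℝ) * β - a * M| ≤ H * R * E2

/-- Row RICH: a positive proportion of the window has `b` near a rational number with bounded
denominator (see the proof of `SV.core` up to the choice of `θ`). -/
def RICH' : Prop := ∀ (t : ℕ) (A κ₁ κ₂ δ : ℝ), 1 ≤ t → 0 ≤ A → 0 < κ₁ → κ₁ ≤ κ₂ → κ₂ ≤ 1 / 4 →
  0 < δ → δ ≤ 1 →
  ∃ (c B : ℝ) (Q₀ : ℕ) (H₀ : ℝ), 0 < c ∧ 0 ≤ B ∧ 1 ≤ Q₀ ∧ ∀ H : ℝ, H₀ ≤ H → ∀ (s : Sys) (R : ℝ),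
  OKT s t (H ^ κ₁) (H ^ κ₂) R → R ≤ H ^ A → s.tau ≤ H ^ (-B) → δ * (s.hi - s.lo) ≤ mass s →
  ∃ q ∈ s.PP, ∃ S : Set ℝ, MeasurableSet S ∧ S ⊆ s.G q ∧
    c * (s.hi - s.lo) ≤ (volume S).toReal ∧
    ∀ u ∈ S, ∃ j : ℤ, |s.b u - j / Q₀| ≤ H ^ B * s.tau
def RICH_stmt : Prop := J1_stmt → J2_stmt → K1_stmt → K3_stmt → P0T_stmt → E1T' → NTT' → RICH'

/-! ### Reduction of the degree -/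

/-- Row DESC: the family at the lower level. -/
def DESC_stmt : Prop := ∀ (t Q₀ Q₂ q l K : ℕ) (xa xb e τ : ℝ) (Q : ℕ → ℝ[X]) (S : Set ℝ),
  1 ≤ t → 1 ≤ Q₀ → 1 ≤ Q₂ → 1 ≤ q → 1 ≤ l → 1 ≤ K → 1 ≤ xa → 0 ≤ e → 0 ≤ τ →
  (∀ n, (Q n).natDegree ≤ t) → MeasurableSet S →
  (∀ u ∈ S, xa < (⌊Real.exp u⌋₊ : ℝ) ∧ (⌊Real.exp u⌋₊ : ℝ) ≤ xb ∧ Cst Q K q u ∧
    e ≤ Wp l ⌊Real.exp u⌋₊ (Pp Q q u) ∧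
    ∃ j : ℤ, |(q : ℝ) ^ t * ((Q₂ : ℝ) * (Q ⌊(q : ℝ) * Real.exp u⌋₊).coeff t) - j / Q₀| ≤ τ) →
  ∃ Q' : ℕ → ℝ[X], (∀ m, (Q' m).natDegree ≤ t) ∧ SlowP Q' (K + 2) ∧
    (∀ m, ∃ j : ℤ, |(Q' m).coeff t - j / ((Q₀ * Q₂ : ℕ) : ℝ)| ≤ τ) ∧
    e * (volume S).toReal ≤ ∑ m ∈ Ioc ⌊xa⌋₊ ⌊xb⌋₊, (1 / (m : ℝ)) * Wp l m (Q' m)

/-- Row RED: a family whose top coefficient is almost rational. -/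
def RED_stmt : Prop := ∀ (t Qs : ℕ) (A B ε : ℝ), 2 ≤ t → 1 ≤ Qs → 0 ≤ A → 0 ≤ B → 0 < ε →
  ∃ (A' B' : ℝ) (l₀ : ℕ), 0 ≤ A' ∧ 0 ≤ B' ∧ ∀ l : ℕ, l₀ ≤ l → ∀ xa xb : ℝ, (l : ℝ) ^ B' ≤ xa →
  xa ≤ xb → ∀ Q : ℕ → ℝ[X], (∀ m, (Q m).natDegree ≤ t) → SlowP Q ((l : ℝ) ^ A) →
  (∀ m : ℕ, xa < m → (m : ℝ) ≤ xb →
    ∃ j : ℤ, |(Q m).coeff t - j / Qs| ≤ (l : ℝ) ^ B / (m : ℝ) ^ (t - 1)) →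
  ∃ R : ℕ → ℝ[X], (∀ m, (R m).natDegree ≤ t - 1) ∧ SlowP R ((l : ℝ) ^ A') ∧
    ∑ m ∈ Ioc ⌊xa⌋₊ ⌊xb⌋₊, (1 / (m : ℝ)) * Wp l m (Q m) ≤
      Qs * ∑ m ∈ Ioc ⌊xa⌋₊ ⌊xb⌋₊, (1 / (m : ℝ)) * Wp l m (R m) +
        ε * (Real.log xb - Real.log xa + 1)

/-- Row STEP: the induction step. -/
def STEP_stmt : Prop := WIN_stmt → TKG_stmt → DIL_stmt → PAIR_stmt → SYA_stmt → PREC' → SYB_stmt →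
  OKQ_stmt → RICH' → DESC_stmt → RED_stmt → ∀ t : ℕ, 2 ≤ t → VW (t - 1) → VW t

end

end Pool.Agent.VQ
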