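import Mathlib
import Pool.Agent.Lib.VQ.Defs
import Pool.Agent.Lib.SV.TFDefs2
import Pool.Agent.Lib.SV.TFFin

/-!
# Theorem W (MP_663568_nt): only the linear coefficient is prescribed.  Row statements.

`Q n` as in Theorem VQ; `P n` is ANY polynomial of degree at most `t` with `P_n'(n) = Q_n'(n)`.  The
text is the note w_MP_663568_nt_h19.  (helper19)
-/

set_option autoImplicit false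
open Finset MeasureTheory Polynomial Filter

namespace Pool.Agent.VQ

open Pool.Agent.Lib.MP_663568_nt Pool.Agent.Lib.MP_663568_nt.Katai
  Pool.Agent.Lib.MP_663568_nt.Nul Pool.Agent.SV

noncomputable section

/-- **Theorem W**, one window. -/
def WW (s t : ℕ) : Prop := ∀ A ε : ℝ, 0 ≤ A → 0 < ε → ∃ (B : ℝ) (H₀ : ℕ), 0 ≤ B ∧
  ∀ H : ℕ, H₀ ≤ H → ∀ xa xb : ℝ, (H : ℝ) ^ B ≤ xa → xa * H ≤ xb → ∀ Q : ℕ → ℝ[X],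
  (∀ n, (Q n).natDegree ≤ s) → SlowP Q ((H : ℝ) ^ A) → ∀ P : ℕ → ℝ[X],
  (∀ n, (P n).natDegree ≤ t) →
  (∀ n : ℕ, (P n).derivative.eval (n : ℝ) = (Q n).derivative.eval (n : ℝ)) →
  ∑ n ∈ Ioc ⌊xa⌋₊ ⌊xb⌋₊, (1 / (n : ℝ)) * Wp H n (P n) ≤ ε * (Real.log xb - Real.log xa)

open Classical in
/-- Row CLU: in a region one polynomial is related to a positive proportion of the others. -/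
def CLU' : Prop := ∀ (t : ℕ) (ε : ℝ), 1 ≤ t → 0 < ε → ε ≤ 1 →
  ∃ (c₁ E : ℝ) (qs H₀ : ℕ), 0 < c₁ ∧ c₁ ≤ 1 ∧ 0 < E ∧ 1 ≤ qs ∧ ∀ H L m₀ : ℕ, H₀ ≤ H →
  L = ⌊ε / 16 * (H : ℝ)⌋₊ → ∀ (J : Finset ℕ) (Q : ℕ → ℝ[X]), (∀ j ∈ J, j < L) →
  ε / 8 * (L : ℝ) ≤ (#J : ℝ) → (∀ j ∈ J, (Q j).natDegree ≤ t) →
  (∀ j ∈ J, ε / 2 ≤ Wp H (m₀ + j) (Q j)) →
  ∃ P : ℝ[X], P.natDegree ≤ t ∧ ε / 4 ≤ Wp (H - L) (m₀ + L) P ∧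
    c₁ * (L : ℝ) ≤ (#(J.filter fun j : ℕ => nd ((qs : ℝ) *
      (P.derivative.eval ((m₀ : ℝ) + j) - (Q j).derivative.eval ((m₀ : ℝ) + j))) ≤ E / H) : ℝ)
def CLU_stmt : Prop := PAIR_stmt → CLU'

open Classical in
/-- Row LAG: a polynomial which is small on a positive proportion of an interval is small. -/
def LAG_stmt : Prop := ∀ (t : ℕ) (c : ℝ), 0 < c → c ≤ 1 → ∃ (E : ℝ) (L₀ : ℕ), 1 ≤ E ∧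
  ∀ (L : ℕ) (f : ℝ[X]) (lam : ℝ), L₀ ≤ L → f.natDegree ≤ t → 0 ≤ lam →
  c * (L : ℝ) ≤ (#((range L).filter fun j : ℕ => |f.eval (j : ℝ)| ≤ lam) : ℝ) →
  ∀ i ≤ t, |f.coeff i| * (L : ℝ) ^ i ≤ E * lam

open Classical in
/-- Row STR: the difference to the prescribed polynomial is rational up to a small error. -/
def STR' : Prop := ∀ (t qs : ℕ) (c₁ E : ℝ), 1 ≤ t → 1 ≤ qs → 0 < c₁ →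
  c₁ ≤ 1 → 0 < E → ∃ (E' : ℝ) (Q₃ L₀ : ℕ), 0 < E' ∧ 1 ≤ Q₃ ∧ ∀ (H L : ℕ) (m₀ : ℝ), L₀ ≤ L →
  L ≤ H → ∀ D : ℝ[X], D.natDegree ≤ t →
  c₁ * (L : ℝ) ≤ (#((range L).filter fun j : ℕ =>
    nd ((qs : ℝ) * D.derivative.eval (m₀ + j)) ≤ E / H) : ℝ) →
  ∀ i, 1 ≤ i → i ≤ t → nd ((Q₃ : ℝ) * (taylor m₀ D).coeff i) ≤ E' / (L : ℝ) ^ i
def STR_stmt : Prop := REC_stmt → LAG_stmt → STR'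

/-- Row SUBQ: from the phase `P` to the phases `Q + b X / Q₃` on shorter windows. -/
def SUBQ_stmt : Prop := ∀ (t Q₃ : ℕ) (ε E' : ℝ), 1 ≤ t → 1 ≤ Q₃ → 0 < ε → ε ≤ 1 → 0 < E' →
  ∃ (η : ℝ) (H₀ : ℕ), 0 < η ∧ η ≤ 1 ∧ ∀ H L m₀ l : ℕ, H₀ ≤ H → L = ⌊ε / 16 * (H : ℝ)⌋₊ →
  l = ⌊η * (H : ℝ)⌋₊ → ∀ P Q : ℝ[X], (P - Q).natDegree ≤ t →
  (∀ i, 1 ≤ i → i ≤ t → nd ((Q₃ : ℝ) * (taylor (m₀ : ℝ) (P - Q)).coeff i) ≤ E' / (L : ℝ) ^ i) →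
  ε / 4 ≤ Wp (H - L) (m₀ + L) P →
  ε / 16 * (H : ℝ) ≤ ∑ x ∈ Ioc m₀ (m₀ + H), ∑ b ∈ range Q₃, Wp l x (Q + C ((b : ℝ) / Q₃) * X)

open Classical in
/-- Row REG: from regions to logarithmic averages (`bad` is the set of the changes). -/
def REG_stmt : Prop := ∀ (A ε c : ℝ), 0 ≤ A → 0 < ε → ε ≤ 1 → 0 < c → ∃ (B : ℝ) (H₀ : ℕ), 0 ≤ B ∧
  ∀ H : ℕ, H₀ ≤ H → ∀ xa xb : ℝ, (H : ℝ) ^ B ≤ xa → xa * H ≤ xb → ∀ bad : Set ℕ,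
  (∀ j : ℕ, (#((Ico (2 ^ j) (2 ^ (j + 1))).filter fun n => n ∈ bad) : ℝ) ≤ (H : ℝ) ^ A) →
  ∀ F G : ℕ → ℝ, (∀ n, 0 ≤ F n) → (∀ n, F n ≤ 1) → (∀ n, 0 ≤ G n) →
  (∀ m₀ : ℕ, xa / 2 ≤ m₀ → (∀ n, m₀ ≤ n → n ≤ m₀ + 2 * H → n ∉ bad) →
    ε / 8 * (⌊ε / 16 * (H : ℝ)⌋₊ : ℝ) ≤
      (#((range ⌊ε / 16 * (H : ℝ)⌋₊).filter fun j => ε / 2 ≤ F (m₀ + j)) : ℝ) →
    c * H ≤ ∑ x ∈ Ioc m₀ (m₀ + H), G x) →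
  ε * (Real.log xb - Real.log xa) < ∑ n ∈ Ioc ⌊xa⌋₊ ⌊xb⌋₊, (1 / (n : ℝ)) * F n →
  c * ε / 8 * (Real.log xb - Real.log xa) ≤ ∑ x ∈ Ioc ⌊xa / 2⌋₊ ⌊2 * xb⌋₊, (1 / (x : ℝ)) * G x

/-- Row WFIN: assembly. -/
def WFIN_stmt : Prop := CLU' → STR' → SUBQ_stmt → REG_stmt → ∀ s t : ℕ, 1 ≤ t →
  VW (max s 1) → WW s t

/-! ### Sets: the linear coefficient in a slow family of uniformly null sets -/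

/-- The points near `S + ℤ / Q`. -/
def Nr (S : Set ℝ) (Q : ℕ) (ρ : ℝ) : Set ℝ := {y | ∃ z ∈ S, ∃ k : ℤ, |y - z - k / Q| ≤ ρ}

/-- Row MEAS: the measure of `Nr`. -/
def MEAS_stmt : Prop := ∀ (S : Set ℝ) (Q : ℕ) (R ρ : ℝ), 1 ≤ Q → 1 ≤ R → 0 ≤ ρ → ρ + 1 / R ≤ 1 →
  TFx.outer (TFx.Sym (Nr S Q ρ)) R ≤ 2 * Q * TFx.outer S (1 / (ρ + 1 / R))

open Classical in
/-- Row EQP: a polynomial which is often in a small periodic set has rational coefficients. -/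
def EQP' : Prop := ∀ (t : ℕ) (c₁ R₁ : ℝ), 1 ≤ t → 0 < c₁ → c₁ ≤ 1 → 1 ≤ R₁ →
  ∃ (E : ℝ) (q₁ L₀ : ℕ), 0 < E ∧ 1 ≤ q₁ ∧ ∀ L : ℕ, L₀ ≤ L → ∀ (M : Set ℝ) (p : ℝ[X]),
  MeasurableSet M → (∀ x : ℝ, x + 1 ∈ M ↔ x ∈ M) →
  (volume (M ∩ Set.Icc 0 1)).toReal ≤ c₁ / 4 → p.natDegree ≤ t →
  c₁ * (L : ℝ) ≤ (#((range L).filter fun j : ℕ =>
    ∀ z : ℝ, |z - p.eval (j : ℝ)| ≤ 1 / R₁ → z ∈ M) : ℝ) →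
  ∀ i, 1 ≤ i → i ≤ t → nd ((q₁ : ℝ) * p.coeff i) ≤ E / (L : ℝ) ^ i
def EQP_stmt : Prop := T15_stmt → EQP'

open Classical in
/-- Row RNG: a bounded polynomial which is often in few cells of the circle has a small range. -/
def RNG' : Prop := ∀ (t : ℕ) (c₁ E ρ : ℝ), 1 ≤ t → 0 < c₁ → c₁ ≤ 1 → 1 ≤ E →
  0 < ρ → ∃ v : ℝ, 0 < v ∧ ∀ R₂ : ℕ, 1 ≤ R₂ → ∃ L₀ : ℕ, ∀ L : ℕ, L₀ ≤ L →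
  ∀ (I : Finset ℕ) (f : ℝ[X]), I ⊆ range R₂ → (#I : ℝ) ≤ v * R₂ → f.natDegree ≤ t →
  (∀ i, 1 ≤ i → i ≤ t → |f.coeff i| * (L : ℝ) ^ i ≤ E) →
  c₁ * (L : ℝ) ≤ (#((range L).filter fun j : ℕ =>
    ⌊(R₂ : ℝ) * Int.fract (f.eval (j : ℝ))⌋₊ ∈ I) : ℝ) →
  ∀ i, 1 ≤ i → i ≤ t → |f.coeff i| * (L : ℝ) ^ i ≤ ρ
def RNG_stmt : Prop := LAG_stmt → RNG'

/-- Row SUBS: from the phase `P` (slopes near rationals) to linear phases on short windows. -/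
def SUBS_stmt : Prop := ∀ (t q₁ : ℕ) (ε E : ℝ), 1 ≤ t → 1 ≤ q₁ → 0 < ε → ε ≤ 1 → 0 < E →
  ∃ (Q₃ H₀ : ℕ), 1 ≤ Q₃ ∧ ∀ H L m₀ l : ℕ, H₀ ≤ H → L = ⌊ε / 16 * (H : ℝ)⌋₊ →
  l = ⌊(H : ℝ) ^ (1 / 3 : ℝ)⌋₊ → ∀ P : ℝ[X], P.natDegree ≤ t →
  (∀ i, 1 ≤ i → i ≤ t → nd ((q₁ : ℝ) * (taylor (m₀ : ℝ) P.derivative).coeff i) ≤
    E / (L : ℝ) ^ i) →
  ε / 4 ≤ Wp (H - L) (m₀ + L) P →
  ε / 16 * (H : ℝ) ≤ ∑ x ∈ Ioc m₀ (m₀ + H), ∑ b ∈ range Q₃,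
    vv l x (P.derivative.eval (x : ℝ) + (b : ℝ) / Q₃)

open Classical in
/-- Row LOCS: one region. -/
def LOCS' : Prop := ∀ (t : ℕ) (ε : ℝ) (ω : ℝ → ℝ), 1 ≤ t → 0 < ε → ε ≤ 1 →
  Tendsto ω atTop (nhds 0) → ∃ (c : ℝ) (Q₅ : ℕ), 0 < c ∧ 1 ≤ Q₅ ∧ ∀ ρ : ℝ, 0 < ρ → ∃ H₀ : ℕ,
  ∀ H m₀ : ℕ, H₀ ≤ H → ∀ S : Set ℝ, (∀ R : ℝ, 1 ≤ R → TFx.outer S R ≤ ω R) →
  ∀ F : ℕ → ℝ, (∀ n, ε / 2 ≤ F n → ∃ P : ℝ[X], P.natDegree ≤ t ∧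
    P.derivative.eval (n : ℝ) ∈ S ∧ ε / 2 ≤ Wp H n P) →
  ε / 8 * (⌊ε / 16 * (H : ℝ)⌋₊ : ℝ) ≤
    (#((range ⌊ε / 16 * (H : ℝ)⌋₊).filter fun j => ε / 2 ≤ F (m₀ + j)) : ℝ) →
  c * H ≤ ∑ x ∈ Ioc m₀ (m₀ + H), TFx.sB (Nr S Q₅ ρ) ⌊(H : ℝ) ^ (1 / 3 : ℝ)⌋₊ x
def LOCS_stmt : Prop := CLU' → EQP' → RNG' → SUBS_stmt → MEAS_stmt → LOCS'

/-- **The set version of Theorem W**, one window. -/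
def WS (t : ℕ) : Prop := ∀ (A ε : ℝ) (ω : ℝ → ℝ), 0 ≤ A → 0 < ε → Tendsto ω atTop (nhds 0) →
  ∃ (B : ℝ) (H₀ : ℕ), 0 ≤ B ∧ ∀ H : ℕ, H₀ ≤ H → ∀ xa xb : ℝ, (H : ℝ) ^ B ≤ xa → xa ^ B ≤ xb →
  ∀ S : ℕ → Set ℝ, TFx.SlowR S ((H : ℝ) ^ A) → (∀ (n : ℕ) (R : ℝ), 1 ≤ R → TFx.outer (S n) R ≤ ω R) →
  ∀ P : ℕ → ℝ[X], (∀ n, (P n).natDegree ≤ t) →
  (∀ n : ℕ, (P n).derivative.eval (n : ℝ) ∈ S n ∨ Wp H n (P n) = 0) →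
  ∑ n ∈ Ioc ⌊xa⌋₊ ⌊xb⌋₊, (1 / (n : ℝ)) * Wp H n (P n) ≤ ε * (Real.log xb - Real.log xa)

/-- Row WSFIN: assembly (`TFx.fin_i` for the sets `Nr (S n) Q₅ ρ` and the length `H ^ (1 / 3)`). -/
def WSFIN_stmt : Prop := LOCS' → REG_stmt → MEAS_stmt → I' → V_stmt → ∀ t : ℕ, 1 ≤ t → WS t

end

end Pool.Agent.VQ
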