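import Mathlib
import Pool.Agent.Lib.VQ.Defs

/-!
# Theorem VQ (MP_663568_nt), row MET: bounded variation in the metric
`d_n(P, Q) = min(1, ∑_{i ≥ 1} |P_i - Q_i| n ^ (i - 1))`.  (helper28)
-/

set_option autoImplicit false
open Finset MeasureTheory Polynomial

namespace Pool.Agent.VQ

open Pool.Agent.Lib.MP_663568_nt Pool.Agent.Lib.MP_663568_nt.Katai
  Pool.Agent.Lib.MP_663568_nt.Nul Pool.Agent.SV

noncomputable section

/-- The distance of `P` and `Q` at the height `n`. -/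
def dn (t n : ℕ) (P Q : ℝ[X]) : ℝ :=
  min 1 (∑ i ∈ Icc 1 t, |P.coeff i - Q.coeff i| * (n : ℝ) ^ (i - 1))

/-- **The statement for families of bounded variation.** -/
def VM (t : ℕ) : Prop := ∀ A ε : ℝ, 0 ≤ A → 0 < ε → ∃ (B : ℝ) (H₀ : ℕ), 0 ≤ B ∧
  ∀ H : ℕ, H₀ ≤ H → ∀ xa xb : ℝ, (H : ℝ) ^ B ≤ xa → xa * H ≤ xb → ∀ Q : ℕ → ℝ[X],
  (∀ n, (Q n).natDegree ≤ t) →
  (∀ j : ℕ, ∑ n ∈ Ico (2 ^ j) (2 ^ (j + 1)), dn t n (Q (n + 1)) (Q n) ≤ (H : ℝ) ^ A) →
  ∑ n ∈ Ioc ⌊xa⌋₊ ⌊xb⌋₊, (1 / (n : ℝ)) * Wp H n (Q n) ≤ ε * (Real.log xb - Real.log xa)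

theorem dn_nonneg (t n : ℕ) (P Q : ℝ[X]) : 0 ≤ dn t n P Q :=
  le_min zero_le_one (sum_nonneg fun _ _ => by positivity)

theorem norm_ee_sub_one_le' (x : ℝ) : ‖ee x - 1‖ ≤ 2 * Real.pi * |x| := by
  have h1 : ee x = Complex.exp (Complex.I * ((2 * Real.pi * x : ℝ) : ℂ)) := by
    rw [ee]; congr 1; push_cast; ring
  rw [h1]
  refine (Real.norm_exp_I_mul_ofReal_sub_one_le).trans ?_
  rw [Real.norm_eq_abs, abs_mul, abs_of_pos (by positivity : (0 : ℝ) < 2 * Real.pi)]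

theorem norm_ee1 (x : ℝ) : ‖ee x‖ = 1 := by
  have h1 : ee x = Complex.exp (((2 * Real.pi * x : ℝ) : ℂ) * Complex.I) := by
    rw [ee]; congr 1; push_cast; ring
  rw [h1, Complex.norm_exp_ofReal_mul_I]

theorem ee_add1 (x y : ℝ) : ee (x + y) = ee x * ee y := by
  rw [ee, ee, ee, ← Complex.exp_add]
  congr 1
  push_cast
  ring

/-- Two phases whose difference is almost constant on the window. -/
theorem Wp_close (l m : ℕ) (hl : 1 ≤ l) (P Q : ℝ[X]) (ρ : ℝ)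
    (h : ∀ k ∈ Icc 1 l, |(P.eval ((m : ℝ) + k) - Q.eval ((m : ℝ) + k)) -
      (P.eval (m : ℝ) - Q.eval (m : ℝ))| ≤ ρ) :
    Wp l m P ≤ Wp l m Q + 2 * Real.pi * ρ := by
  have hl0 : (0 : ℝ) < l := by exact_mod_cast hl
  obtain ⟨c, hc⟩ : ∃ c : ℝ, c = P.eval (m : ℝ) - Q.eval (m : ℝ) := ⟨_, rfl⟩
  rw [← hc] at h
  have e1 : ∑ k ∈ Icc 1 l, muC (m + k) * ee (P.eval ((m : ℝ) + k)) =
      ee c * (∑ k ∈ Icc 1 l, muC (m + k) * ee (Q.eval ((m : ℝ) + k))) +
      ∑ k ∈ Icc 1 l, muC (m + k) * (ee (Q.eval ((m : ℝ) + k)) * ee c *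
        (ee ((P.eval ((m : ℝ) + k) - Q.eval ((m : ℝ) + k)) - c) - 1)) := by
    rw [mul_sum, ← sum_add_distrib]
    refine sum_congr rfl fun k _ => ?_
    have e2 : ee (P.eval ((m : ℝ) + k)) = ee (Q.eval ((m : ℝ) + k)) * ee c *
        ee ((P.eval ((m : ℝ) + k) - Q.eval ((m : ℝ) + k)) - c) := by
      rw [← ee_add1, ← ee_add1]
      congr 1
      ring
    rw [e2]
    ring
  have e3 : ‖∑ k ∈ Icc 1 l, muC (m + k) * (ee (Q.eval ((m : ℝ) + k)) * ee c *
      (ee ((P.eval ((m : ℝ) + k) - Q.eval ((m : ℝ) + k)) - c) - 1))‖ ≤ l * (2 * Real.pi * ρ) := by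
    refine (norm_sum_le _ _).trans ?_
    calc ∑ k ∈ Icc 1 l, ‖muC (m + k) * (ee (Q.eval ((m : ℝ) + k)) * ee c *
          (ee ((P.eval ((m : ℝ) + k) - Q.eval ((m : ℝ) + k)) - c) - 1))‖
        ≤ ∑ _k ∈ Icc 1 l, 2 * Real.pi * ρ := by
          refine sum_le_sum fun k hk => ?_
          rw [norm_mul, norm_mul, norm_mul, norm_ee1, norm_ee1, one_mul, one_mul]
          have h1 := norm_ee_sub_one_le' ((P.eval ((m : ℝ) + k) - Q.eval ((m : ℝ) + k)) - c)
          have h2 := h k hk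
          have h3 : ‖muC (m + k)‖ ≤ 1 := norm_muC _
          calc ‖muC (m + k)‖ * ‖ee ((P.eval ((m : ℝ) + k) - Q.eval ((m : ℝ) + k)) - c) - 1‖
              ≤ 1 * (2 * Real.pi * ρ) := by
                refine mul_le_mul h3 (h1.trans ?_) (norm_nonneg _) zero_le_one
                exact mul_le_mul_of_nonneg_left h2 (by positivity)
            _ = _ := one_mul _
      _ = l * (2 * Real.pi * ρ) := by
          rw [sum_const, Nat.card_Icc, nsmul_eq_mul]
          simp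
  unfold Wp
  rw [div_add' _ _ _ hl0.ne', div_le_div_iff_of_pos_right hl0, e1]
  refine (norm_add_le _ _).trans ?_
  rw [norm_mul, norm_ee1, one_mul]
  linarith

/-- The difference of two polynomials on a window. -/
theorem eval_diff (t : ℕ) (P Q : ℝ[X]) (hP : P.natDegree ≤ t) (hQ : Q.natDegree ≤ t) (n k : ℕ)
    (Y ρ : ℝ) (hkn : ((n : ℝ) + k) ≤ 4 * Y) (hY : 1 ≤ Y)
    (h : ∑ i ∈ Icc 1 t, |P.coeff i - Q.coeff i| * Y ^ (i - 1) ≤ ρ) :
    |(P.eval ((n : ℝ) + k) - Q.eval ((n : ℝ) + k)) - (P.eval (n : ℝ) - Q.eval (n : ℝ))| ≤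
      t * 4 ^ t * k * ρ := by
  have ev : ∀ (R : ℝ[X]), R.natDegree ≤ t → ∀ x : ℝ, R.eval x = R.coeff 0 +
      ∑ i ∈ Icc 1 t, R.coeff i * x ^ i := by
    intro R hR x
    rw [Polynomial.eval_eq_sum_range' (Nat.lt_succ_of_le hR), sum_range_succ', add_comm]
    simp only [pow_zero, mul_one]
    congr 1
    rw [range_eq_Ico, sum_Ico_add' (fun i => R.coeff i * x ^ i) 0 t 1]
    rfl
  rw [ev P hP, ev Q hQ, ev P hP, ev Q hQ]
  have e1 : (P.coeff 0 + ∑ i ∈ Icc 1 t, P.coeff i * ((n : ℝ) + k) ^ i -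
      (Q.coeff 0 + ∑ i ∈ Icc 1 t, Q.coeff i * ((n : ℝ) + k) ^ i)) -
      (P.coeff 0 + ∑ i ∈ Icc 1 t, P.coeff i * (n : ℝ) ^ i -
      (Q.coeff 0 + ∑ i ∈ Icc 1 t, Q.coeff i * (n : ℝ) ^ i)) =
      ∑ i ∈ Icc 1 t, (P.coeff i - Q.coeff i) * (((n : ℝ) + k) ^ i - (n : ℝ) ^ i) := by
    rw [show ∑ i ∈ Icc 1 t, (P.coeff i - Q.coeff i) * (((n : ℝ) + k) ^ i - (n : ℝ) ^ i) =
      ∑ i ∈ Icc 1 t, ((P.coeff i * ((n : ℝ) + k) ^ i - Q.coeff i * ((n : ℝ) + k) ^ i) -
        (P.coeff i * (n : ℝ) ^ i - Q.coeff i * (n : ℝ) ^ i)) from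
      sum_congr rfl fun i _ => by ring, sum_sub_distrib, sum_sub_distrib, sum_sub_distrib]
    ring
  rw [e1]
  refine (abs_sum_le_sum_abs _ _).trans ?_
  have hn0 : (0 : ℝ) ≤ n := Nat.cast_nonneg n
  have hk0 : (0 : ℝ) ≤ k := Nat.cast_nonneg k
  have hterm : ∀ i ∈ Icc 1 t, |(P.coeff i - Q.coeff i) * (((n : ℝ) + k) ^ i - (n : ℝ) ^ i)| ≤
      t * 4 ^ t * k * (|P.coeff i - Q.coeff i| * Y ^ (i - 1)) := by
    intro i hi
    rw [mem_Icc] at hi
    rw [abs_mul]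
    have h1 : |((n : ℝ) + k) ^ i - (n : ℝ) ^ i| ≤ t * 4 ^ t * k * Y ^ (i - 1) := by
      have h0 : (n : ℝ) ^ i ≤ ((n : ℝ) + k) ^ i := pow_le_pow_left₀ hn0 (by linarith) i
      rw [abs_of_nonneg (by linarith)]
      have h2 : ((n : ℝ) + k) ^ i - (n : ℝ) ^ i ≤ i * k * ((n : ℝ) + k) ^ (i - 1) := by
        have h3 := abs_pow_sub_pow_le ((n : ℝ) + k) (n : ℝ) i
        rw [abs_of_nonneg (by linarith), abs_of_nonneg (by linarith : 0 ≤ (n : ℝ) + k),
          abs_of_nonneg hn0, max_eq_left (by linarith), add_sub_cancel_left, abs_of_nonneg hk0]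
          at h3
        linarith
      refine h2.trans ?_
      have hit : (i : ℝ) ≤ t := by exact_mod_cast hi.2
      calc (i : ℝ) * k * ((n : ℝ) + k) ^ (i - 1) ≤ t * k * (4 * Y) ^ (i - 1) := by gcongr
        _ = t * 4 ^ (i - 1) * k * Y ^ (i - 1) := by rw [mul_pow]; ring
        _ ≤ t * 4 ^ t * k * Y ^ (i - 1) := by
            gcongr
            · norm_num
            · omega
    calc |P.coeff i - Q.coeff i| * |((n : ℝ) + k) ^ i - (n : ℝ) ^ i| ≤
          |P.coeff i - Q.coeff i| * (t * 4 ^ t * k * Y ^ (i - 1)) := by gcongr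
      _ = _ := by ring
  refine (sum_le_sum hterm).trans ?_
  rw [← mul_sum]
  gcongr

theorem count_changes (f : ℕ → ℕ) (a b : ℕ) (hab : a ≤ b) (hf : ∀ n, a ≤ n → f n ≤ f (n + 1)) :
    #((Ico a b).filter fun n => f (n + 1) ≠ f n) + f a ≤ f b := by
  induction b, hab using Nat.le_induction with
  | base => simp
  | succ b hab ih =>
    have e1 : (Ico a (b + 1)).filter (fun n => f (n + 1) ≠ f n) =
        (Ico a b).filter (fun n => f (n + 1) ≠ f n) ∪
          (({b} : Finset ℕ).filter fun n => f (n + 1) ≠ f n) := by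
      rw [← filter_union]
      congr 1
      ext n
      simp only [mem_Ico, mem_union, mem_singleton]
      omega
    rw [e1]
    refine (Nat.add_le_add_right (card_union_le _ _) _).trans ?_
    have h1 := hf b hab
    by_cases h : f (b + 1) ≠ f b
    · have : #(({b} : Finset ℕ).filter fun n => f (n + 1) ≠ f n) ≤ 1 :=
        (card_filter_le _ _).trans (by simp)
      omega
    · have : #(({b} : Finset ℕ).filter fun n => f (n + 1) ≠ f n) = 0 := by
        rw [card_eq_zero, filter_eq_empty_iff]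
        intro x hx
        rw [mem_singleton] at hx
        subst hx
        exact h
      omega

theorem sum_inv_le (xa xb : ℝ) (hxa : 2 ≤ xa) (hab : xa ≤ xb) :
    ∑ n ∈ Ioc ⌊xa⌋₊ ⌊xb⌋₊, (1 / (n : ℝ)) ≤ Real.log xb - Real.log xa + 1 := by
  have h1 : ∀ a b : ℕ, 1 ≤ a → a ≤ b → ∑ n ∈ Ioc a b, (1 / (n : ℝ)) ≤
      Real.log b - Real.log a := by
    intro a b ha hab
    induction b, hab using Nat.le_induction with
    | base => simp
    | succ b hab ih =>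
      rw [← Finset.insert_Ioc_right_eq_Ioc_add_one (by omega), sum_insert (by simp)]
      have hb0 : (0 : ℝ) < b := by
        have : 0 < b := by omega
        exact_mod_cast this
      have h2 : 1 / ((b + 1 : ℕ) : ℝ) ≤ Real.log ((b + 1 : ℕ) : ℝ) - Real.log b := by
        have h3 := Real.log_le_sub_one_of_pos (show 0 < (b : ℝ) / (b + 1) by positivity)
        rw [Real.log_div hb0.ne' (by positivity)] at h3
        have h4 : (b : ℝ) / (b + 1) - 1 = -(1 / (b + 1)) := by field_simp; ring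
        rw [h4] at h3
        push_cast
        linarith
      linarith
  have h0 : 2 ≤ ⌊xa⌋₊ := Nat.le_floor (by exact_mod_cast hxa)
  refine (h1 _ _ (by omega) (Nat.floor_mono hab)).trans ?_
  have h2 : Real.log (⌊xb⌋₊ : ℝ) ≤ Real.log xb := by
    apply Real.log_le_log
    · have : 0 < ⌊xb⌋₊ := lt_of_lt_of_le (by omega) (Nat.floor_mono hab)
      exact_mod_cast this
    · exact Nat.floor_le (by linarith)
  have h3 : Real.log xa - 1 ≤ Real.log (⌊xa⌋₊ : ℝ) := by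
    have h4 : xa / Real.exp 1 ≤ (⌊xa⌋₊ : ℝ) := by
      have h5 := Nat.lt_floor_add_one xa
      have h6 : (2 : ℝ) ≤ Real.exp 1 := by
        have := Real.add_one_le_exp (1 : ℝ)
        linarith
      rw [div_le_iff₀ (by positivity)]
      have h7 : (2 : ℝ) ≤ (⌊xa⌋₊ : ℝ) := by exact_mod_cast h0
      nlinarith
    have h5 := Real.log_le_log (by positivity) h4
    rw [Real.log_div (by positivity) (by positivity), Real.log_exp] at h5
    exact h5
  linarith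

/-- Row MET: from few changes to bounded variation. -/
theorem met (hVW : ∀ t, VW t) : ∀ t, VM t := by
  classical
  intro t A ε hA hε
  obtain ⟨ε', hε'⟩ : ∃ ε' : ℝ, ε' = min 1 (ε / (8 * Real.pi * (t * 4 ^ t + 1))) := ⟨_, rfl⟩
  have hε'0 : 0 < ε' := by rw [hε']; positivity
  have hε'1 : ε' ≤ 1 := by rw [hε']; exact min_le_left _ _
  have hε'2 : 4 * Real.pi * (t * 4 ^ t) * ε' ≤ ε / 2 := by
    have h1 : ε' ≤ ε / (8 * Real.pi * (t * 4 ^ t + 1)) := by rw [hε']; exact min_le_right _ _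
    rw [le_div_iff₀ (by positivity)] at h1
    have h2 : 0 ≤ Real.pi * ε' := by positivity
    nlinarith
  obtain ⟨B, H₀, hB, hV⟩ := hVW t (A + 2) (ε / 2) (by linarith) (by positivity)
  obtain ⟨H₁, hH₁⟩ : ∃ H₁ : ℕ, ∀ H : ℕ, H₁ ≤ H → 3 ≤ (H : ℝ) ∧ 2 / ε' ≤ H := by
    obtain ⟨H₁, hH₁⟩ := exists_nat_ge (max 3 (2 / ε'))
    refine ⟨H₁, fun H hH => ?_⟩
    have : (H₁ : ℝ) ≤ H := by exact_mod_cast hH
    exact ⟨(le_max_left _ _).trans (hH₁.trans this), (le_max_right _ _).trans (hH₁.trans this)⟩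
  refine ⟨B + 1, max H₀ H₁, by linarith, ?_⟩
  intro H hH xa xb hxa hxb Q hQ hvar
  have hHa : H₀ ≤ H := (le_max_left _ _).trans hH
  obtain ⟨hH3, hHε⟩ := hH₁ H ((le_max_right _ _).trans hH)
  have hH0 : (0 : ℝ) < H := by linarith
  have hH1 : (1 : ℝ) ≤ H := by linarith
  have hHN : 1 ≤ H := by exact_mod_cast hH1
  have hxaH : (H : ℝ) ≤ xa := by
    refine le_trans ?_ hxa
    calc (H : ℝ) = (H : ℝ) ^ (1 : ℝ) := (Real.rpow_one _).symm
      _ ≤ (H : ℝ) ^ (B + 1) := Real.rpow_le_rpow_of_exponent_le hH1 (by linarith)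
  have hxa0 : 0 < xa := by linarith
  have hxab : xa ≤ xb := by
    refine le_trans ?_ hxb
    nlinarith
  -- the pieces
  obtain ⟨D, hD⟩ : ∃ D : ℕ → ℝ, D = fun n => dn t n (Q (n + 1)) (Q n) := ⟨_, rfl⟩
  have hD0 : ∀ n, 0 ≤ D n := fun n => by rw [hD]; exact dn_nonneg _ _ _ _
  obtain ⟨R, hR⟩ : ∃ R : ℕ → ℕ → ℕ, R = fun j n => ⌊(∑ m ∈ Ico (2 ^ j) n, D m) * (H / ε')⌋₊ :=
    ⟨_, rfl⟩
  have hHε0 : 0 < (H : ℝ) / ε' := by positivity
  have hRm : ∀ j n, 2 ^ j ≤ n → R j n ≤ R j (n + 1) := by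
    intro j n hn
    rw [hR]
    refine Nat.floor_mono (mul_le_mul_of_nonneg_right ?_ hHε0.le)
    rw [sum_Ico_succ_top hn]
    linarith [hD0 n]
  obtain ⟨key, hkey⟩ : ∃ key : ℕ → ℕ × ℕ, key = fun n => (Nat.log 2 n, R (Nat.log 2 n) n) :=
    ⟨_, rfl⟩
  obtain ⟨σ, hσ⟩ : ∃ σ : ℕ × ℕ → ℕ, σ = fun k => sInf {m | key m = k} := ⟨_, rfl⟩
  have hσn : ∀ n, key (σ (key n)) = key n ∧ σ (key n) ≤ n := by
    intro n
    have hne : {m | key m = key n}.Nonempty := ⟨n, rfl⟩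
    rw [hσ]
    exact ⟨Nat.sInf_mem hne, Nat.sInf_le rfl⟩
  obtain ⟨Q', hQ'⟩ : ∃ Q' : ℕ → ℝ[X], Q' = fun n => Q (σ (key n)) := ⟨_, rfl⟩
  have hslow : SlowP Q' ((H : ℝ) ^ (A + 2)) := by
    intro j
    have h1 : (Ico (2 ^ j) (2 ^ (j + 1))).filter (fun n => Q' (n + 1) ≠ Q' n) ⊆
        ((Ico (2 ^ j) (2 ^ (j + 1))).filter fun n => R j (n + 1) ≠ R j n) ∪
          {2 ^ (j + 1) - 1} := by
      intro n hn
      rw [mem_filter, mem_Ico] at hn
      rw [mem_union, mem_filter, mem_Ico, mem_singleton]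
      by_cases hlast : n = 2 ^ (j + 1) - 1
      · exact Or.inr hlast
      refine Or.inl ⟨hn.1, fun hRR => hn.2 ?_⟩
      have l1 : Nat.log 2 n = j := (Nat.log_eq_iff (Or.inr ⟨by norm_num, by
        have := Nat.two_pow_pos j
        omega⟩)).2 hn.1
      have l2 : Nat.log 2 (n + 1) = j := (Nat.log_eq_iff (Or.inr ⟨by norm_num, by omega⟩)).2
        ⟨by omega, by omega⟩
      rw [hQ']
      simp only
      congr 2
      rw [hkey]
      simp only [l1, l2, hRR]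
    have h2 := card_le_card h1
    have h3 := card_union_le ((Ico (2 ^ j) (2 ^ (j + 1))).filter fun n => R j (n + 1) ≠ R j n)
      {2 ^ (j + 1) - 1}
    have h4 := count_changes (R j) (2 ^ j) (2 ^ (j + 1))
      (Nat.pow_le_pow_right (by norm_num) (by omega)) (hRm j)
    rw [card_singleton] at h3
    have h5 : (R j (2 ^ (j + 1)) : ℝ) ≤ (H : ℝ) ^ A * (H / ε') := by
      rw [hR]
      refine (Nat.floor_le (mul_nonneg (sum_nonneg fun _ _ => hD0 _) hHε0.le)).trans ?_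
      refine mul_le_mul_of_nonneg_right ?_ hHε0.le
      rw [hD]
      exact hvar j
    have h6 : (#((Ico (2 ^ j) (2 ^ (j + 1))).filter fun n => Q' (n + 1) ≠ Q' n) : ℝ) ≤
        (R j (2 ^ (j + 1)) : ℝ) + 1 := by
      have : #((Ico (2 ^ j) (2 ^ (j + 1))).filter fun n => Q' (n + 1) ≠ Q' n) ≤
        R j (2 ^ (j + 1)) + 1 := by omega
      exact_mod_cast this
    have h7 : (H : ℝ) ^ A * (H / ε') + 1 ≤ (H : ℝ) ^ (A + 2) := by
      have e1 : (H : ℝ) ^ (A + 2) = (H : ℝ) ^ A * H * H := by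
        rw [show A + 2 = A + 1 + 1 by ring, Real.rpow_add hH0, Real.rpow_add hH0, Real.rpow_one]
      have e2 : 1 ≤ (H : ℝ) ^ A := Real.one_le_rpow hH1 hA
      have e3 : 1 ≤ (H : ℝ) ^ A * H := one_le_mul_of_one_le_of_one_le e2 hH1
      have e4 : 2 * (1 / ε') ≤ H := by rw [mul_one_div]; exact hHε
      have e5 : (H : ℝ) ^ A * (H / ε') = (H : ℝ) ^ A * H * (1 / ε') := by ring
      have e6 : 1 ≤ 1 / ε' := by rw [le_div_iff₀ hε'0]; linarith
      rw [e1, e5]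
      nlinarith
    have goal' : (#((Ico (2 ^ j) (2 ^ (j + 1))).filter fun n => Q' (n + 1) ≠ Q' n) : ℝ) ≤
        (H : ℝ) ^ (A + 2) := by linarith
    exact goal'
  have hmain := hV H hHa xa xb ((Real.rpow_le_rpow_of_exponent_le hH1 (by linarith)).trans hxa)
    hxb Q' (fun n => by rw [hQ']; exact hQ _) hslow
  -- comparison
  have hcmp : ∀ n ∈ Ioc ⌊xa⌋₊ ⌊xb⌋₊, Wp H n (Q n) ≤ Wp H n (Q' n) +
      2 * Real.pi * (t * 4 ^ t * ε') := by
    intro n hn
    rw [mem_Ioc] at hn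
    have hnxa : xa < n := (Nat.floor_lt hxa0.le).1 hn.1
    have hnH : (H : ℝ) ≤ n := by linarith
    have hn3 : 3 ≤ n := by
      have : (3 : ℝ) ≤ n := by linarith
      exact_mod_cast this
    obtain ⟨j, hj⟩ : ∃ j, j = Nat.log 2 n := ⟨_, rfl⟩
    have hj1 : 2 ^ j ≤ n := by rw [hj]; exact Nat.pow_log_le_self 2 (by omega)
    have hj2 : n < 2 ^ (j + 1) := by rw [hj]; exact Nat.lt_pow_succ_log_self (by norm_num) n
    obtain ⟨s, hs⟩ : ∃ s, s = σ (key n) := ⟨_, rfl⟩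
    obtain ⟨hk1, hk2⟩ := hσn n
    rw [← hs] at hk1 hk2
    have hQs : Q' n = Q s := by rw [hQ', hs]
    rw [hkey] at hk1
    simp only [Prod.mk.injEq] at hk1
    rw [← hj] at hk1
    have hjpos : 1 ≤ j := by
      rw [hj]
      exact Nat.log_pos (by norm_num) (by omega)
    have hs0 : s ≠ 0 := by
      intro h0
      rw [h0, Nat.log_zero_right] at hk1
      omega
    have hs1 : 2 ^ j ≤ s := by
      have := Nat.pow_log_le_self 2 hs0
      rwa [hk1.1] at this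
    have hRs : R j s = R j n := by
      have := hk1.2
      rwa [hk1.1] at this
    have hdiff : ∑ m ∈ Ico s n, D m ≤ ε' / H := by
      have e1 : ∑ m ∈ Ico (2 ^ j) n, D m = ∑ m ∈ Ico (2 ^ j) s, D m + ∑ m ∈ Ico s n, D m :=
        (sum_Ico_consecutive D hs1 hk2).symm
      rw [hR] at hRs
      simp only at hRs
      have e2 := Nat.floor_le (mul_nonneg (sum_nonneg fun m (_ : m ∈ Ico (2 ^ j) s) => hD0 m)
        hHε0.le)
      have e3 := Nat.lt_floor_add_one ((∑ m ∈ Ico (2 ^ j) n, D m) * (H / ε'))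
      rw [← hRs, e1, add_mul] at e3
      have e4 : (∑ m ∈ Ico s n, D m) * (H / ε') ≤ 1 := by linarith
      rw [le_div_iff₀ hH0]
      calc (∑ m ∈ Ico s n, D m) * H = (∑ m ∈ Ico s n, D m) * (H / ε') * ε' := by
            field_simp
        _ ≤ 1 * ε' := by gcongr
        _ = ε' := one_mul _
    have hεH1 : ε' / H < 1 := by
      rw [div_lt_one hH0]; linarith
    have hDm : ∀ m ∈ Ico s n, D m = ∑ i ∈ Icc 1 t, |(Q (m + 1)).coeff i - (Q m).coeff i| *
        (m : ℝ) ^ (i - 1) := by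
      intro m hm
      have h1 : D m ≤ ∑ m ∈ Ico s n, D m := single_le_sum (fun m _ => hD0 m) hm
      have h2 : D m < 1 := by linarith
      rw [hD] at h2 ⊢
      simp only at h2 ⊢
      unfold dn at h2 ⊢
      rcases min_lt_iff.1 h2 with h | h
      · exact absurd h (lt_irrefl _)
      · exact min_eq_right h.le
    have hY : ∑ i ∈ Icc 1 t, |(Q n).coeff i - (Q s).coeff i| * ((2 : ℝ) ^ j) ^ (i - 1) ≤
        ε' / H := by
      refine le_trans ?_ hdiff
      rw [sum_congr rfl hDm, sum_comm]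
      refine sum_le_sum fun i _ => ?_
      have h1 : |(Q n).coeff i - (Q s).coeff i| ≤
          ∑ m ∈ Ico s n, |(Q (m + 1)).coeff i - (Q m).coeff i| := by
        rw [← sum_Ico_sub (fun m => (Q m).coeff i) hk2]
        exact abs_sum_le_sum_abs _ _
      calc |(Q n).coeff i - (Q s).coeff i| * ((2 : ℝ) ^ j) ^ (i - 1)
          ≤ (∑ m ∈ Ico s n, |(Q (m + 1)).coeff i - (Q m).coeff i|) *
            ((2 : ℝ) ^ j) ^ (i - 1) := by gcongr
        _ = ∑ m ∈ Ico s n, |(Q (m + 1)).coeff i - (Q m).coeff i| *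
            ((2 : ℝ) ^ j) ^ (i - 1) := by rw [sum_mul]
        _ ≤ _ := by
            refine sum_le_sum fun m hm => ?_
            rw [mem_Ico] at hm
            gcongr
            have : 2 ^ j ≤ m := hs1.trans hm.1
            exact_mod_cast this
    rw [hQs]
    refine Wp_close H n hHN (Q n) (Q s) _ fun k hk => ?_
    rw [mem_Icc] at hk
    have hkH : (k : ℝ) ≤ H := by exact_mod_cast hk.2
    have h1 := eval_diff t (Q n) (Q s) (hQ n) (hQ s) n k ((2 : ℝ) ^ j) (ε' / H) (by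
      have h2 : (n : ℝ) ≤ 2 * (2 : ℝ) ^ j := by
        have : n ≤ 2 ^ (j + 1) := hj2.le
        have h3 : (n : ℝ) ≤ (2 : ℝ) ^ (j + 1) := by exact_mod_cast this
        rw [pow_succ] at h3
        linarith
      linarith) (one_le_pow₀ (by norm_num)) hY
    refine h1.trans ?_
    calc (t : ℝ) * 4 ^ t * k * (ε' / H) ≤ t * 4 ^ t * H * (ε' / H) := by gcongr
      _ = t * 4 ^ t * ε' := by field_simp
  have hlog : 1 ≤ Real.log xb - Real.log xa := by
    have h1 := Real.log_le_log (by positivity) hxb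
    rw [Real.log_mul hxa0.ne' hH0.ne'] at h1
    have h2 : 1 ≤ Real.log H := by
      rw [Real.le_log_iff_exp_le hH0]
      have := Real.exp_one_lt_d9
      linarith
    linarith
  have hsum := sum_inv_le xa xb (by linarith) hxab
  calc ∑ n ∈ Ioc ⌊xa⌋₊ ⌊xb⌋₊, (1 / (n : ℝ)) * Wp H n (Q n)
      ≤ ∑ n ∈ Ioc ⌊xa⌋₊ ⌊xb⌋₊, (1 / (n : ℝ)) * (Wp H n (Q' n) +
        2 * Real.pi * (t * 4 ^ t * ε')) := by
        refine sum_le_sum fun n hn => ?_
        have := hcmp n hn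
        gcongr
    _ = ∑ n ∈ Ioc ⌊xa⌋₊ ⌊xb⌋₊, (1 / (n : ℝ)) * Wp H n (Q' n) +
        (∑ n ∈ Ioc ⌊xa⌋₊ ⌊xb⌋₊, 1 / (n : ℝ)) * (2 * Real.pi * (t * 4 ^ t * ε')) := by
        rw [sum_mul, ← sum_add_distrib]
        refine sum_congr rfl fun n _ => ?_
        ring
    _ ≤ ε / 2 * (Real.log xb - Real.log xa) +
        (2 * (Real.log xb - Real.log xa)) * (2 * Real.pi * (t * 4 ^ t * ε')) := by
        gcongr
        linarith
    _ = ε / 2 * (Real.log xb - Real.log xa) +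
        (4 * Real.pi * (t * 4 ^ t) * ε') * (Real.log xb - Real.log xa) := by ring
    _ ≤ ε / 2 * (Real.log xb - Real.log xa) + ε / 2 * (Real.log xb - Real.log xa) := by
        gcongr
    _ = ε * (Real.log xb - Real.log xa) := by ring

end

end Pool.Agent.VQ
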