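import Mathlib
import Pool.Agent.Lib.VQ.MET

/-!
# Theorem VQ (MP_663568_nt), row TOR: continuous functions on tori.  (helper28)
-/

set_option autoImplicit false
open Finset MeasureTheory Polynomial

namespace Pool.Agent.VQ

open Pool.Agent.Lib.MP_663568_nt Pool.Agent.Lib.MP_663568_nt.Katai
  Pool.Agent.Lib.MP_663568_nt.Nul Pool.Agent.SV

noncomputable section

/-- The point of the torus with the coordinates `P_j(y)`. -/
def pt {d : ℕ} (P : Fin d → ℝ[X]) (y : ℝ) : UnitAddTorus (Fin d) := fun j =>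
  (((P j).eval y : ℝ) : UnitAddCircle)

/-- The mean of the window for the function `F` on the torus. -/
def WF {d : ℕ} (l m : ℕ) (F : UnitAddTorus (Fin d) → ℂ) (P : Fin d → ℝ[X]) : ℝ :=
  ‖∑ h ∈ Icc 1 l, muC (m + h) * F (pt P ((m : ℝ) + h))‖ / l

/-- The combination `∑ k_j P_j`. -/
def comb {d : ℕ} (k : Fin d → ℤ) (P : Fin d → ℝ[X]) : ℝ[X] := ∑ j, C (k j : ℝ) * P j

theorem mFourier_pt {d : ℕ} (k : Fin d → ℤ) (P : Fin d → ℝ[X]) (y : ℝ) :
    UnitAddTorus.mFourier k (pt P y) = ee ((comb k P).eval y) := by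
  have h1 : ∀ (s : Finset (Fin d)) (a : Fin d → ℝ), ∏ j ∈ s, ee (a j) = ee (∑ j ∈ s, a j) := by
    intro s a
    classical
    induction s using Finset.induction_on with
    | empty => simp [ee]
    | insert j s hj ih => rw [prod_insert hj, sum_insert hj, ih, ee_add1]
  have h2 : (comb k P).eval y = ∑ j, (k j : ℝ) * (P j).eval y := by
    unfold comb
    rw [eval_finsetSum]
    refine sum_congr rfl fun j _ => ?_
    rw [eval_mul, eval_C]
  rw [h2, ← h1]
  show ∏ j, fourier (k j) (pt P y j) = _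
  refine prod_congr rfl fun j _ => ?_
  unfold pt
  rw [fourier_coe_apply, ee]
  congr 1
  push_cast
  ring

theorem comb_coeff {d : ℕ} (k : Fin d → ℤ) (P : Fin d → ℝ[X]) (i : ℕ) :
    (comb k P).coeff i = ∑ j, (k j : ℝ) * (P j).coeff i := by
  unfold comb
  rw [finsetSum_coeff]
  refine sum_congr rfl fun j _ => ?_
  rw [coeff_C_mul]

theorem comb_deg {d : ℕ} (k : Fin d → ℤ) (P : Fin d → ℝ[X]) (t : ℕ)
    (h : ∀ j, (P j).natDegree ≤ t) : (comb k P).natDegree ≤ t := by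
  unfold comb
  refine natDegree_sum_le_of_forall_le _ _ fun j _ => ?_
  exact (natDegree_C_mul_le _ _).trans (h j)

/-- The distance of two families of polynomials. -/
def dt {d : ℕ} (t n : ℕ) (P Q : Fin d → ℝ[X]) : ℝ :=
  min 1 (∑ j, ∑ i ∈ Icc 1 t, |(P j).coeff i - (Q j).coeff i| * (n : ℝ) ^ (i - 1))

theorem dn_comb {d : ℕ} (t n : ℕ) (k : Fin d → ℤ) (P Q : Fin d → ℝ[X]) :
    dn t n (comb k P) (comb k Q) ≤ (1 + ∑ j, |(k j : ℝ)|) * dt t n P Q := by
  have hk : 0 ≤ ∑ j, |(k j : ℝ)| := sum_nonneg fun _ _ => abs_nonneg _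
  obtain ⟨S, hS⟩ : ∃ S : ℝ, S = ∑ j, ∑ i ∈ Icc 1 t, |(P j).coeff i - (Q j).coeff i| *
    (n : ℝ) ^ (i - 1) := ⟨_, rfl⟩
  have hS0 : 0 ≤ S := by
    rw [hS]
    exact sum_nonneg fun _ _ => sum_nonneg fun _ _ => by positivity
  have h1 : ∑ i ∈ Icc 1 t, |(comb k P).coeff i - (comb k Q).coeff i| * (n : ℝ) ^ (i - 1) ≤
      (∑ j, |(k j : ℝ)|) * S := by
    have e1 : ∀ i ∈ Icc 1 t, |(comb k P).coeff i - (comb k Q).coeff i| * (n : ℝ) ^ (i - 1) ≤
        ∑ j, |(k j : ℝ)| * (|(P j).coeff i - (Q j).coeff i| * (n : ℝ) ^ (i - 1)) := by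
      intro i _
      rw [comb_coeff, comb_coeff, ← sum_sub_distrib]
      calc |∑ j, ((k j : ℝ) * (P j).coeff i - (k j : ℝ) * (Q j).coeff i)| * (n : ℝ) ^ (i - 1)
          ≤ (∑ j, |(k j : ℝ) * (P j).coeff i - (k j : ℝ) * (Q j).coeff i|) *
            (n : ℝ) ^ (i - 1) := by
            gcongr
            exact abs_sum_le_sum_abs _ _
        _ = _ := by
            rw [sum_mul]
            refine sum_congr rfl fun j _ => ?_
            rw [← mul_sub, abs_mul]
            ring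
    refine (sum_le_sum e1).trans ?_
    rw [sum_comm, sum_mul]
    refine sum_le_sum fun j _ => ?_
    rw [← mul_sum]
    refine mul_le_mul_of_nonneg_left ?_ (abs_nonneg _)
    rw [hS]
    exact single_le_sum (f := fun j => ∑ i ∈ Icc 1 t, |(P j).coeff i - (Q j).coeff i| *
      (n : ℝ) ^ (i - 1)) (fun _ _ => sum_nonneg fun _ _ => by positivity) (mem_univ j)
  unfold dn dt
  rw [← hS]
  rcases le_total 1 S with h | h
  · rw [min_eq_left h]
    refine (min_le_left _ _).trans ?_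
    linarith
  · rw [min_eq_right h]
    refine (min_le_right _ _).trans (h1.trans ?_)
    nlinarith

theorem WF_norm_le {d : ℕ} (l m : ℕ) (F : C(UnitAddTorus (Fin d), ℂ)) (P : Fin d → ℝ[X]) :
    WF l m F P ≤ ‖F‖ := by
  unfold WF
  refine div_le_of_le_mul₀ (Nat.cast_nonneg _) (norm_nonneg _) ?_
  refine (norm_sum_le _ _).trans ?_
  calc ∑ h ∈ Icc 1 l, ‖muC (m + h) * F (pt P ((m : ℝ) + h))‖ ≤ ∑ _h ∈ Icc 1 l, ‖F‖ := by
        refine sum_le_sum fun h _ => ?_
        rw [norm_mul]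
        calc ‖muC (m + h)‖ * ‖F (pt P ((m : ℝ) + h))‖ ≤ 1 * ‖F‖ :=
              mul_le_mul (norm_muC _) (F.norm_coe_le_norm _) (norm_nonneg _) zero_le_one
          _ = ‖F‖ := one_mul _
    _ = ‖F‖ * l := by
        rw [sum_const, Nat.card_Icc, nsmul_eq_mul]
        simp [mul_comm]

theorem WF_add_le {d : ℕ} (l m : ℕ) (F G : UnitAddTorus (Fin d) → ℂ) (P : Fin d → ℝ[X]) :
    WF l m (fun x => F x + G x) P ≤ WF l m F P + WF l m G P := by
  unfold WF
  rw [← add_div]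
  refine div_le_div_of_nonneg_right ?_ (Nat.cast_nonneg _)
  refine le_trans (le_of_eq ?_) (norm_add_le _ _)
  congr 1
  rw [← sum_add_distrib]
  exact sum_congr rfl fun h _ => by ring

theorem WF_smul {d : ℕ} (l m : ℕ) (c : ℂ) (F : UnitAddTorus (Fin d) → ℂ) (P : Fin d → ℝ[X]) :
    WF l m (fun x => c * F x) P = ‖c‖ * WF l m F P := by
  unfold WF
  rw [mul_div_assoc', ← norm_mul, mul_sum]
  congr 2
  exact sum_congr rfl fun h _ => by ring

theorem WF_mFourier {d : ℕ} (l m : ℕ) (k : Fin d → ℤ) (P : Fin d → ℝ[X]) :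
    WF l m (fun x => UnitAddTorus.mFourier k x) P = Wp l m (comb k P) := by
  unfold WF Wp
  congr 2
  refine sum_congr rfl fun h _ => ?_
  simp only [mFourier_pt]

/-- **The statement for continuous functions on tori.** -/
def VT : Prop := ∀ (d t : ℕ) (F : C(UnitAddTorus (Fin d), ℂ)) (A ε : ℝ), 0 ≤ A → 0 < ε →
  ∃ (B : ℝ) (H₀ : ℕ), 0 ≤ B ∧ ∀ H : ℕ, H₀ ≤ H → ∀ xa xb : ℝ, (H : ℝ) ^ B ≤ xa → xa * H ≤ xb →
  ∀ Q : ℕ → Fin d → ℝ[X], (∀ n j, (Q n j).natDegree ≤ t) →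
  (∀ j : ℕ, ∑ n ∈ Ico (2 ^ j) (2 ^ (j + 1)), dt t n (Q (n + 1)) (Q n) ≤ (H : ℝ) ^ A) →
  ∑ n ∈ Ioc ⌊xa⌋₊ ⌊xb⌋₊, (1 / (n : ℝ)) * WF H n F (Q n) ≤ ε * (Real.log xb - Real.log xa)

theorem tor (hVM : ∀ t, VM t) : VT := by
  classical
  intro d t F A ε hA hε
  -- approximation
  have hden : F ∈ (Submodule.span ℂ
      (Set.range (UnitAddTorus.mFourier (d := Fin d)))).topologicalClosure := by
    rw [UnitAddTorus.span_mFourier_closure_eq_top]
    trivial
  have hden' : F ∈ closure ((Submodule.span ℂ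
      (Set.range (UnitAddTorus.mFourier (d := Fin d)))) : Set C(UnitAddTorus (Fin d), ℂ)) := hden
  obtain ⟨G, hG, hFG⟩ := Metric.mem_closure_iff.1 hden' (ε / 4) (by positivity)
  rw [dist_eq_norm] at hFG
  obtain ⟨c, hc⟩ := (Finsupp.mem_span_range_iff_exists_finsupp).1 hG
  obtain ⟨cs, hcs⟩ : ∃ cs : ℝ, cs = ∑ k ∈ c.support, ‖c k‖ := ⟨_, rfl⟩
  have hcs0 : 0 ≤ cs := by rw [hcs]; exact sum_nonneg fun _ _ => norm_nonneg _
  have hη : 0 < ε / (4 * (cs + 1)) := by positivity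
  choose B H₀ hB hV using fun _k : Fin d → ℤ => hVM t (A + 1) (ε / (4 * (cs + 1)))
    (by linarith) hη
  obtain ⟨H₁, hH₁⟩ : ∃ H₁ : ℕ, ∀ H : ℕ, H₁ ≤ H → 3 ≤ (H : ℝ) ∧
      ∀ k ∈ c.support, 1 + ∑ j, |(k j : ℝ)| ≤ H := by
    obtain ⟨H₁, hH₁⟩ := exists_nat_ge (max 3 (∑ k ∈ c.support, (1 + ∑ j, |(k j : ℝ)|)))
    refine ⟨H₁, fun H hH => ?_⟩
    have hHH : (H₁ : ℝ) ≤ H := by exact_mod_cast hH
    refine ⟨(le_max_left _ _).trans (hH₁.trans hHH), fun k hk => ?_⟩
    refine le_trans ?_ ((le_max_right _ _).trans (hH₁.trans hHH))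
    refine single_le_sum (f := fun k : Fin d → ℤ => (1 : ℝ) + ∑ j, |(k j : ℝ)|) (fun k _ => ?_) hk
    have : 0 ≤ ∑ j, |(k j : ℝ)| := sum_nonneg fun _ _ => abs_nonneg _
    linarith
  refine ⟨∑ k ∈ c.support, B k + 1, max (∑ k ∈ c.support, H₀ k) H₁,
    add_nonneg (sum_nonneg fun k _ => hB k) zero_le_one, ?_⟩
  intro H hH xa xb hxa hxb Q hQ hvar
  have hHa : ∑ k ∈ c.support, H₀ k ≤ H := (le_max_left _ _).trans hH
  obtain ⟨hH3, hHk⟩ := hH₁ H ((le_max_right _ _).trans hH)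
  have hH0 : (0 : ℝ) < H := by linarith
  have hH1 : (1 : ℝ) ≤ H := by linarith
  have hBs : 0 ≤ ∑ k ∈ c.support, B k := sum_nonneg fun k _ => hB k
  have hxaH : (H : ℝ) ≤ xa := by
    refine le_trans ?_ hxa
    calc (H : ℝ) = (H : ℝ) ^ (1 : ℝ) := (Real.rpow_one _).symm
      _ ≤ _ := Real.rpow_le_rpow_of_exponent_le hH1 (by linarith)
  have hxa0 : 0 < xa := by linarith
  have hxab : xa ≤ xb := by
    refine le_trans ?_ hxb
    nlinarith
  have hΛ : 1 ≤ Real.log xb - Real.log xa := by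
    have h1 := Real.log_le_log (by positivity) hxb
    rw [Real.log_mul hxa0.ne' hH0.ne'] at h1
    have h2 : 1 ≤ Real.log H := by
      rw [Real.le_log_iff_exp_le hH0]
      have := Real.exp_one_lt_d9
      linarith
    linarith
  have hsum := sum_inv_le xa xb (by linarith) hxab
  have hmono : ∀ k ∈ c.support, ∑ n ∈ Ioc ⌊xa⌋₊ ⌊xb⌋₊, (1 / (n : ℝ)) * Wp H n (comb k (Q n)) ≤
      ε / (4 * (cs + 1)) * (Real.log xb - Real.log xa) := by
    intro k hk
    refine hV k H ((single_le_sum (f := H₀) (fun _ _ => Nat.zero_le _) hk).trans hHa) xa xb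
      (le_trans (Real.rpow_le_rpow_of_exponent_le hH1 ?_) hxa) hxb (fun n => comb k (Q n))
      (fun n => comb_deg k _ t (hQ n)) fun j => ?_
    · have := single_le_sum (f := B) (fun k _ => hB k) hk
      linarith
    · calc ∑ n ∈ Ico (2 ^ j) (2 ^ (j + 1)), dn t n (comb k (Q (n + 1))) (comb k (Q n))
          ≤ ∑ n ∈ Ico (2 ^ j) (2 ^ (j + 1)), (1 + ∑ j, |(k j : ℝ)|) * dt t n (Q (n + 1)) (Q n) :=
            sum_le_sum fun n _ => dn_comb t n k _ _
        _ = (1 + ∑ j, |(k j : ℝ)|) * ∑ n ∈ Ico (2 ^ j) (2 ^ (j + 1)), dt t n (Q (n + 1)) (Q n) := by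
            rw [mul_sum]
        _ ≤ H * (H : ℝ) ^ A := by
            refine mul_le_mul (hHk k hk) (hvar j) (sum_nonneg fun n _ => ?_) hH0.le
            exact le_min zero_le_one (sum_nonneg fun _ _ => sum_nonneg fun _ _ => by positivity)
        _ = (H : ℝ) ^ (A + 1) := by
            rw [Real.rpow_add hH0, Real.rpow_one, mul_comm]
  -- the window
  have hwin : ∀ n, WF H n F (Q n) ≤ ε / 4 + ∑ k ∈ c.support, ‖c k‖ * Wp H n (comb k (Q n)) := by
    intro n
    have h1 : WF H n F (Q n) ≤ WF H n (F - G) (Q n) + WF H n G (Q n) := by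
      have h2 := WF_add_le H n (⇑(F - G)) (⇑G) (Q n)
      have h3 : (fun x => (F - G) x + G x) = ⇑F := by
        funext x
        rw [ContinuousMap.sub_apply, sub_add_cancel]
      rwa [h3] at h2
    have h2 : WF H n (F - G) (Q n) ≤ ε / 4 := (WF_norm_le H n (F - G) (Q n)).trans hFG.le
    have h3 : ∀ s : Finset (Fin d → ℤ), WF H n
        (fun x => ∑ k ∈ s, c k * UnitAddTorus.mFourier k x) (Q n) ≤
        ∑ k ∈ s, ‖c k‖ * Wp H n (comb k (Q n)) := by
      intro s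
      induction s using Finset.induction_on with
      | empty =>
        simp [WF]
      | insert k s hk ih =>
        rw [sum_insert hk]
        have h4 : (fun x => ∑ k ∈ insert k s, c k * UnitAddTorus.mFourier k x) =
            fun x => (fun x => c k * UnitAddTorus.mFourier k x) x +
              (fun x => ∑ k ∈ s, c k * UnitAddTorus.mFourier k x) x := by
          funext x
          rw [sum_insert hk]
        rw [h4]
        refine (WF_add_le H n _ _ (Q n)).trans (add_le_add (le_of_eq ?_) ih)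
        rw [WF_smul, WF_mFourier]
    have h4 : (⇑G : UnitAddTorus (Fin d) → ℂ) =
        fun x => ∑ k ∈ c.support, c k * UnitAddTorus.mFourier k x := by
      funext x
      rw [← hc, Finsupp.sum, ContinuousMap.sum_apply]
      refine sum_congr rfl fun k _ => ?_
      rw [ContinuousMap.smul_apply, smul_eq_mul]
    have h5 := h3 c.support
    rw [← h4] at h5
    linarith
  calc ∑ n ∈ Ioc ⌊xa⌋₊ ⌊xb⌋₊, (1 / (n : ℝ)) * WF H n F (Q n)
      ≤ ∑ n ∈ Ioc ⌊xa⌋₊ ⌊xb⌋₊, (1 / (n : ℝ)) *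
        (ε / 4 + ∑ k ∈ c.support, ‖c k‖ * Wp H n (comb k (Q n))) := by
        refine sum_le_sum fun n _ => ?_
        have := hwin n
        gcongr
    _ = (∑ n ∈ Ioc ⌊xa⌋₊ ⌊xb⌋₊, (1 / (n : ℝ))) * (ε / 4) +
        ∑ k ∈ c.support, ‖c k‖ * ∑ n ∈ Ioc ⌊xa⌋₊ ⌊xb⌋₊, (1 / (n : ℝ)) *
          Wp H n (comb k (Q n)) := by
        simp only [mul_add, sum_add_distrib, ← sum_mul, mul_sum]
        congr 1
        rw [sum_comm]
        refine sum_congr rfl fun k _ => sum_congr rfl fun n _ => ?_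
        ring
    _ ≤ (2 * (Real.log xb - Real.log xa)) * (ε / 4) +
        ∑ k ∈ c.support, ‖c k‖ * (ε / (4 * (cs + 1)) * (Real.log xb - Real.log xa)) := by
        refine add_le_add ?_ (sum_le_sum fun k hk => ?_)
        · gcongr
          linarith
        · have := hmono k hk
          gcongr
    _ = ε / 2 * (Real.log xb - Real.log xa) +
        cs * (ε / (4 * (cs + 1))) * (Real.log xb - Real.log xa) := by
        rw [← sum_mul, ← hcs]; ring
    _ ≤ ε / 2 * (Real.log xb - Real.log xa) + ε / 4 * (Real.log xb - Real.log xa) := by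
        gcongr
        rw [mul_div_assoc', div_le_div_iff₀ (by positivity) (by norm_num)]
        nlinarith
    _ ≤ ε * (Real.log xb - Real.log xa) := by nlinarith

end

end Pool.Agent.VQ
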