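import Mathlib
import Pool.Agent.Lib.VQ.TOR
import Pool.Agent.Lib.VQ.WDefs

/-!
# Theorem W (MP_663568_nt): families of bounded variation, continuous functions on tori.  (helper28)
-/

set_option autoImplicit false
open Finset MeasureTheory Polynomial

namespace Pool.Agent.VQ

open Pool.Agent.Lib.MP_663568_nt Pool.Agent.Lib.MP_663568_nt.Katai
  Pool.Agent.Lib.MP_663568_nt.Nul Pool.Agent.SV

noncomputable section

/-- A family of bounded variation is close to a family with few changes. -/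
theorem pieces (t : ℕ) (A ε' : ℝ) (hA : 0 ≤ A) (hε'0 : 0 < ε') (hε'1 : ε' ≤ 1) :
    ∃ H₁ : ℕ, ∀ H : ℕ, H₁ ≤ H → 3 ≤ H ∧ ∀ Q : ℕ → ℝ[X], (∀ n, (Q n).natDegree ≤ t) →
    (∀ j : ℕ, ∑ n ∈ Ico (2 ^ j) (2 ^ (j + 1)), dn t n (Q (n + 1)) (Q n) ≤ (H : ℝ) ^ A) →
    ∃ Q' : ℕ → ℝ[X], (∀ n, (Q' n).natDegree ≤ t) ∧ SlowP Q' ((H : ℝ) ^ (A + 2)) ∧
      ∀ n : ℕ, 3 ≤ n → ∃ Y : ℝ, 1 ≤ Y ∧ (n : ℝ) ≤ 2 * Y ∧
        ∑ i ∈ Icc 1 t, |(Q n).coeff i - (Q' n).coeff i| * Y ^ (i - 1) ≤ ε' / H := by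
  classical
  obtain ⟨H₁, hH₁⟩ : ∃ H₁ : ℕ, ∀ H : ℕ, H₁ ≤ H → 3 ≤ (H : ℝ) ∧ 2 / ε' ≤ H := by
    obtain ⟨H₁, hH₁⟩ := exists_nat_ge (max 3 (2 / ε'))
    refine ⟨H₁, fun H hH => ?_⟩
    have : (H₁ : ℝ) ≤ H := by exact_mod_cast hH
    exact ⟨(le_max_left _ _).trans (hH₁.trans this), (le_max_right _ _).trans (hH₁.trans this)⟩
  refine ⟨H₁, ?_⟩
  intro H hH
  obtain ⟨hH3, hHε⟩ := hH₁ H hH
  refine ⟨by exact_mod_cast hH3, ?_⟩
  intro Q hQ hvar
  have hH0 : (0 : ℝ) < H := by linarith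
  have hH1 : (1 : ℝ) ≤ H := by linarith
  -- the pieces
  obtain ⟨D, hD⟩ : ∃ D : ℕ → ℝ, D = fun n => dn t n (Q (n + 1)) (Q n) := ⟨_, rfl⟩
  have hD0 : ∀ n, 0 ≤ D n := fun n => by rw [hD]; exact dn_nonneg _ _ _ _
  obtain ⟨R, hR⟩ : ∃ R : ℕ → ℕ → ℕ, R = fun j n => ⌊(∑ m ∈ Ico (2 ^ j) n, D m) * (H / ε')⌋₊ :=
    ⟨_, rfl⟩
  have hHε0 : 0 < (H : ℝ) / ε' := by positivity
  have hRm : ∀ j n, 2 ^ j ≤ n → R j n ≤ R j (n + 1) := by
    intro j n hn
    rw [hR]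
    refine Nat.floor_mono (mul_le_mul_of_nonneg_right ?_ hHε0.le)
    rw [sum_Ico_succ_top hn]
    linarith [hD0 n]
  obtain ⟨key, hkey⟩ : ∃ key : ℕ → ℕ × ℕ, key = fun n => (Nat.log 2 n, R (Nat.log 2 n) n) :=
    ⟨_, rfl⟩
  obtain ⟨σ, hσ⟩ : ∃ σ : ℕ × ℕ → ℕ, σ = fun k => sInf {m | key m = k} := ⟨_, rfl⟩
  have hσn : ∀ n, key (σ (key n)) = key n ∧ σ (key n) ≤ n := by
    intro n
    have hne : {m | key m = key n}.Nonempty := ⟨n, rfl⟩
    rw [hσ]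
    exact ⟨Nat.sInf_mem hne, Nat.sInf_le rfl⟩
  obtain ⟨Q', hQ'⟩ : ∃ Q' : ℕ → ℝ[X], Q' = fun n => Q (σ (key n)) := ⟨_, rfl⟩
  have hslow : SlowP Q' ((H : ℝ) ^ (A + 2)) := by
    intro j
    have h1 : (Ico (2 ^ j) (2 ^ (j + 1))).filter (fun n => Q' (n + 1) ≠ Q' n) ⊆
        ((Ico (2 ^ j) (2 ^ (j + 1))).filter fun n => R j (n + 1) ≠ R j n) ∪
          {2 ^ (j + 1) - 1} := by
      intro n hn
      rw [mem_filter, mem_Ico] at hn
      rw [mem_union, mem_filter, mem_Ico, mem_singleton]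
      by_cases hlast : n = 2 ^ (j + 1) - 1
      · exact Or.inr hlast
      refine Or.inl ⟨hn.1, fun hRR => hn.2 ?_⟩
      have l1 : Nat.log 2 n = j := (Nat.log_eq_iff (Or.inr ⟨by norm_num, by
        have := Nat.two_pow_pos j
        omega⟩)).2 hn.1
      have l2 : Nat.log 2 (n + 1) = j := (Nat.log_eq_iff (Or.inr ⟨by norm_num, by omega⟩)).2
        ⟨by omega, by omega⟩
      rw [hQ']
      simp only
      congr 2
      rw [hkey]
      simp only [l1, l2, hRR]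
    have h2 := card_le_card h1
    have h3 := card_union_le ((Ico (2 ^ j) (2 ^ (j + 1))).filter fun n => R j (n + 1) ≠ R j n)
      {2 ^ (j + 1) - 1}
    have h4 := count_changes (R j) (2 ^ j) (2 ^ (j + 1))
      (Nat.pow_le_pow_right (by norm_num) (by omega)) (hRm j)
    rw [card_singleton] at h3
    have h5 : (R j (2 ^ (j + 1)) : ℝ) ≤ (H : ℝ) ^ A * (H / ε') := by
      rw [hR]
      refine (Nat.floor_le (mul_nonneg (sum_nonneg fun _ _ => hD0 _) hHε0.le)).trans ?_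
      refine mul_le_mul_of_nonneg_right ?_ hHε0.le
      rw [hD]
      exact hvar j
    have h6 : (#((Ico (2 ^ j) (2 ^ (j + 1))).filter fun n => Q' (n + 1) ≠ Q' n) : ℝ) ≤
        (R j (2 ^ (j + 1)) : ℝ) + 1 := by
      have : #((Ico (2 ^ j) (2 ^ (j + 1))).filter fun n => Q' (n + 1) ≠ Q' n) ≤
        R j (2 ^ (j + 1)) + 1 := by omega
      exact_mod_cast this
    have h7 : (H : ℝ) ^ A * (H / ε') + 1 ≤ (H : ℝ) ^ (A + 2) := by
      have e1 : (H : ℝ) ^ (A + 2) = (H : ℝ) ^ A * H * H := by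
        rw [show A + 2 = A + 1 + 1 by ring, Real.rpow_add hH0, Real.rpow_add hH0, Real.rpow_one]
      have e2 : 1 ≤ (H : ℝ) ^ A := Real.one_le_rpow hH1 hA
      have e3 : 1 ≤ (H : ℝ) ^ A * H := one_le_mul_of_one_le_of_one_le e2 hH1
      have e4 : 2 * (1 / ε') ≤ H := by rw [mul_one_div]; exact hHε
      have e5 : (H : ℝ) ^ A * (H / ε') = (H : ℝ) ^ A * H * (1 / ε') := by ring
      have e6 : 1 ≤ 1 / ε' := by rw [le_div_iff₀ hε'0]; linarith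
      rw [e1, e5]
      nlinarith
    have goal' : (#((Ico (2 ^ j) (2 ^ (j + 1))).filter fun n => Q' (n + 1) ≠ Q' n) : ℝ) ≤
        (H : ℝ) ^ (A + 2) := by linarith
    exact goal'
  refine ⟨Q', fun n => by rw [hQ']; exact hQ _, hslow, ?_⟩
  intro n hn3
  obtain ⟨j, hj⟩ : ∃ j, j = Nat.log 2 n := ⟨_, rfl⟩
  have hj1 : 2 ^ j ≤ n := by rw [hj]; exact Nat.pow_log_le_self 2 (by omega)
  have hj2 : n < 2 ^ (j + 1) := by rw [hj]; exact Nat.lt_pow_succ_log_self (by norm_num) n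
  obtain ⟨s, hs⟩ : ∃ s, s = σ (key n) := ⟨_, rfl⟩
  obtain ⟨hk1, hk2⟩ := hσn n
  rw [← hs] at hk1 hk2
  have hQs : Q' n = Q s := by rw [hQ', hs]
  rw [hkey] at hk1
  simp only [Prod.mk.injEq] at hk1
  rw [← hj] at hk1
  have hjpos : 1 ≤ j := by
    rw [hj]
    exact Nat.log_pos (by norm_num) (by omega)
  have hs0 : s ≠ 0 := by
    intro h0
    rw [h0, Nat.log_zero_right] at hk1
    omega
  have hs1 : 2 ^ j ≤ s := by
    have := Nat.pow_log_le_self 2 hs0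
    rwa [hk1.1] at this
  have hRs : R j s = R j n := by
    have := hk1.2
    rwa [hk1.1] at this
  have hdiff : ∑ m ∈ Ico s n, D m ≤ ε' / H := by
    have e1 : ∑ m ∈ Ico (2 ^ j) n, D m = ∑ m ∈ Ico (2 ^ j) s, D m + ∑ m ∈ Ico s n, D m :=
      (sum_Ico_consecutive D hs1 hk2).symm
    rw [hR] at hRs
    simp only at hRs
    have e2 := Nat.floor_le (mul_nonneg (sum_nonneg fun m (_ : m ∈ Ico (2 ^ j) s) => hD0 m)
      hHε0.le)
    have e3 := Nat.lt_floor_add_one ((∑ m ∈ Ico (2 ^ j) n, D m) * (H / ε'))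
    rw [← hRs, e1, add_mul] at e3
    have e4 : (∑ m ∈ Ico s n, D m) * (H / ε') ≤ 1 := by linarith
    rw [le_div_iff₀ hH0]
    calc (∑ m ∈ Ico s n, D m) * H = (∑ m ∈ Ico s n, D m) * (H / ε') * ε' := by
          field_simp
      _ ≤ 1 * ε' := by gcongr
      _ = ε' := one_mul _
  have hεH1 : ε' / H < 1 := by
    rw [div_lt_one hH0]; linarith
  have hDm : ∀ m ∈ Ico s n, D m = ∑ i ∈ Icc 1 t, |(Q (m + 1)).coeff i - (Q m).coeff i| *
      (m : ℝ) ^ (i - 1) := by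
    intro m hm
    have h1 : D m ≤ ∑ m ∈ Ico s n, D m := single_le_sum (fun m _ => hD0 m) hm
    have h2 : D m < 1 := by linarith
    rw [hD] at h2 ⊢
    simp only at h2 ⊢
    unfold dn at h2 ⊢
    rcases min_lt_iff.1 h2 with h | h
    · exact absurd h (lt_irrefl _)
    · exact min_eq_right h.le
  refine ⟨(2 : ℝ) ^ j, one_le_pow₀ (by norm_num), ?_, ?_⟩
  · have h3 : (n : ℝ) ≤ (2 : ℝ) ^ (j + 1) := by exact_mod_cast hj2.le
    rw [pow_succ] at h3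
    linarith
  refine le_trans ?_ hdiff
  rw [hQs, sum_congr rfl hDm, sum_comm]
  refine sum_le_sum fun i _ => ?_
  have h1 : |(Q n).coeff i - (Q s).coeff i| ≤
      ∑ m ∈ Ico s n, |(Q (m + 1)).coeff i - (Q m).coeff i| := by
    rw [← sum_Ico_sub (fun m => (Q m).coeff i) hk2]
    exact abs_sum_le_sum_abs _ _
  calc |(Q n).coeff i - (Q s).coeff i| * ((2 : ℝ) ^ j) ^ (i - 1)
      ≤ (∑ m ∈ Ico s n, |(Q (m + 1)).coeff i - (Q m).coeff i|) *
        ((2 : ℝ) ^ j) ^ (i - 1) := by gcongr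
    _ = ∑ m ∈ Ico s n, |(Q (m + 1)).coeff i - (Q m).coeff i| *
        ((2 : ℝ) ^ j) ^ (i - 1) := by rw [sum_mul]
    _ ≤ _ := by
        refine sum_le_sum fun m hm => ?_
        rw [mem_Ico] at hm
        gcongr
        have : 2 ^ j ≤ m := hs1.trans hm.1
        exact_mod_cast this

/-- The derivatives are close. -/
theorem deriv_diff (t : ℕ) (P Q : ℝ[X]) (hP : P.natDegree ≤ t) (hQ : Q.natDegree ≤ t) (n : ℕ)
    (Y ρ : ℝ) (hn : (n : ℝ) ≤ 2 * Y) (hY : 1 ≤ Y)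
    (h : ∑ i ∈ Icc 1 t, |P.coeff i - Q.coeff i| * Y ^ (i - 1) ≤ ρ) :
    |P.derivative.eval (n : ℝ) - Q.derivative.eval (n : ℝ)| ≤ t * 2 ^ t * ρ := by
  have ev : ∀ (R : ℝ[X]), R.natDegree ≤ t → ∀ x : ℝ, R.derivative.eval x =
      ∑ i ∈ Icc 1 t, R.coeff i * (i * x ^ (i - 1)) := by
    intro R hR x
    have h1 : R.derivative.natDegree < t ∨ t = 0 := by
      rcases Nat.eq_zero_or_pos t with h0 | h0
      · exact Or.inr h0
      · left
        have := natDegree_derivative_le R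
        omega
    rcases h1 with h1 | h1
    · rw [Polynomial.eval_eq_sum_range' h1, range_eq_Ico,
        show Icc 1 t = Ico (0 + 1) (t + 1) from rfl,
        ← sum_Ico_add' (fun i => R.coeff i * ((i : ℝ) * x ^ (i - 1))) 0 t 1]
      refine sum_congr rfl fun i _ => ?_
      rw [coeff_derivative]
      push_cast
      ring
    · subst h1
      have h2 : R.natDegree = 0 := by omega
      rw [eq_C_of_natDegree_eq_zero h2]
      simp
  rw [ev P hP, ev Q hQ, ← sum_sub_distrib]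
  refine (abs_sum_le_sum_abs _ _).trans ?_
  have hn0 : (0 : ℝ) ≤ n := Nat.cast_nonneg n
  have hterm : ∀ i ∈ Icc 1 t, |P.coeff i * (i * (n : ℝ) ^ (i - 1)) -
      Q.coeff i * (i * (n : ℝ) ^ (i - 1))| ≤
      t * 2 ^ t * (|P.coeff i - Q.coeff i| * Y ^ (i - 1)) := by
    intro i hi
    rw [mem_Icc] at hi
    have hit : (i : ℝ) ≤ t := by exact_mod_cast hi.2
    rw [← sub_mul, abs_mul, abs_of_nonneg (show 0 ≤ (i : ℝ) * (n : ℝ) ^ (i - 1) by positivity)]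
    calc |P.coeff i - Q.coeff i| * ((i : ℝ) * (n : ℝ) ^ (i - 1))
        ≤ |P.coeff i - Q.coeff i| * (t * (2 * Y) ^ (i - 1)) := by gcongr
      _ = |P.coeff i - Q.coeff i| * (t * 2 ^ (i - 1) * Y ^ (i - 1)) := by rw [mul_pow]; ring
      _ ≤ |P.coeff i - Q.coeff i| * (t * 2 ^ t * Y ^ (i - 1)) := by
          gcongr
          · norm_num
          · omega
      _ = _ := by ring
  refine (sum_le_sum hterm).trans ?_
  rw [← mul_sum]
  gcongr

/-- **Theorem W for families of bounded variation.** -/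
def WV (s t : ℕ) : Prop := ∀ A ε : ℝ, 0 ≤ A → 0 < ε → ∃ (B : ℝ) (H₀ : ℕ), 0 ≤ B ∧
  ∀ H : ℕ, H₀ ≤ H → ∀ xa xb : ℝ, (H : ℝ) ^ B ≤ xa → xa * H ≤ xb → ∀ Q : ℕ → ℝ[X],
  (∀ n, (Q n).natDegree ≤ s) →
  (∀ j : ℕ, ∑ n ∈ Ico (2 ^ j) (2 ^ (j + 1)), dn s n (Q (n + 1)) (Q n) ≤ (H : ℝ) ^ A) →
  ∀ P : ℕ → ℝ[X], (∀ n, (P n).natDegree ≤ t) →
  (∀ n : ℕ, (P n).derivative.eval (n : ℝ) = (Q n).derivative.eval (n : ℝ)) →
  ∑ n ∈ Ioc ⌊xa⌋₊ ⌊xb⌋₊, (1 / (n : ℝ)) * Wp H n (P n) ≤ ε * (Real.log xb - Real.log xa)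

theorem wv (s t : ℕ) (ht : 1 ≤ t) (hW : WW s t) : WV s t := by
  intro A ε hA hε
  obtain ⟨ε', hε'⟩ : ∃ ε' : ℝ, ε' = min 1 (ε / (8 * Real.pi * (s * 2 ^ s + 1))) := ⟨_, rfl⟩
  have hε'0 : 0 < ε' := by rw [hε']; positivity
  have hε'1 : ε' ≤ 1 := by rw [hε']; exact min_le_left _ _
  have hε'2 : 4 * Real.pi * (s * 2 ^ s) * ε' ≤ ε / 2 := by
    have h1 : ε' ≤ ε / (8 * Real.pi * (s * 2 ^ s + 1)) := by rw [hε']; exact min_le_right _ _
    rw [le_div_iff₀ (by positivity)] at h1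
    have h2 : 0 ≤ Real.pi * ε' := by positivity
    nlinarith
  obtain ⟨B, H₀, hB, hV⟩ := hW (A + 2) (ε / 2) (by linarith) (by positivity)
  obtain ⟨H₁, hH₁⟩ := pieces s A ε' hA hε'0 hε'1
  refine ⟨B + 1, max H₀ H₁, by linarith, ?_⟩
  intro H hH xa xb hxa hxb Q hQ hvar P hP hPQ
  have hHa : H₀ ≤ H := (le_max_left _ _).trans hH
  obtain ⟨hH3N, hpc⟩ := hH₁ H ((le_max_right _ _).trans hH)
  have hH3 : (3 : ℝ) ≤ H := by exact_mod_cast hH3N
  have hH0 : (0 : ℝ) < H := by linarith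
  have hH1 : (1 : ℝ) ≤ H := by linarith
  have hHN : 1 ≤ H := by omega
  have hxaH : (H : ℝ) ≤ xa := by
    refine le_trans ?_ hxa
    calc (H : ℝ) = (H : ℝ) ^ (1 : ℝ) := (Real.rpow_one _).symm
      _ ≤ (H : ℝ) ^ (B + 1) := Real.rpow_le_rpow_of_exponent_le hH1 (by linarith)
  have hxa0 : 0 < xa := by linarith
  have hxab : xa ≤ xb := by
    refine le_trans ?_ hxb
    nlinarith
  obtain ⟨Q', hQ'd, hQ's, hQ'c⟩ := hpc Q hQ hvar
  obtain ⟨P', hP'⟩ : ∃ P' : ℕ → ℝ[X], P' = fun n => P n +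
    C ((Q' n).derivative.eval (n : ℝ) - (Q n).derivative.eval (n : ℝ)) * X := ⟨_, rfl⟩
  have hmain := hV H hHa xa xb ((Real.rpow_le_rpow_of_exponent_le hH1 (by linarith)).trans hxa)
    hxb Q' hQ'd hQ's P' (fun n => by
      rw [hP']
      refine (natDegree_add_le _ _).trans (max_le (hP n) ?_)
      exact (natDegree_C_mul_le _ _).trans (natDegree_X_le.trans ht)) (fun n => by
      rw [hP']
      simp only [derivative_add, derivative_mul, derivative_C, zero_mul, derivative_X, mul_one,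
        zero_add, eval_add, eval_C]
      rw [hPQ n]
      ring)
  have hcmp : ∀ n ∈ Ioc ⌊xa⌋₊ ⌊xb⌋₊, Wp H n (P n) ≤ Wp H n (P' n) +
      2 * Real.pi * (s * 2 ^ s * ε') := by
    intro n hn
    rw [mem_Ioc] at hn
    have hnxa : xa < n := (Nat.floor_lt hxa0.le).1 hn.1
    have hn3 : 3 ≤ n := by
      have : (3 : ℝ) ≤ n := by linarith
      exact_mod_cast this
    obtain ⟨Y, hY1, hY2, hY3⟩ := hQ'c n hn3
    have h1 := deriv_diff s (Q n) (Q' n) (hQ n) (hQ'd n) n Y (ε' / H) hY2 hY1 hY3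
    refine Wp_close H n hHN (P n) (P' n) _ fun k hk => ?_
    rw [mem_Icc] at hk
    have hkH : (k : ℝ) ≤ H := by exact_mod_cast hk.2
    rw [hP']
    simp only [eval_add, eval_mul, eval_C, eval_X]
    have e1 : (P n).eval ((n : ℝ) + k) - ((P n).eval ((n : ℝ) + k) +
        ((Q' n).derivative.eval (n : ℝ) - (Q n).derivative.eval (n : ℝ)) * ((n : ℝ) + k)) -
        ((P n).eval (n : ℝ) - ((P n).eval (n : ℝ) +
        ((Q' n).derivative.eval (n : ℝ) - (Q n).derivative.eval (n : ℝ)) * (n : ℝ))) =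
        ((Q n).derivative.eval (n : ℝ) - (Q' n).derivative.eval (n : ℝ)) * k := by ring
    rw [e1, abs_mul, Nat.abs_cast]
    calc |(Q n).derivative.eval (n : ℝ) - (Q' n).derivative.eval (n : ℝ)| * (k : ℝ)
        ≤ (s * 2 ^ s * (ε' / H)) * H := by gcongr
      _ = s * 2 ^ s * ε' := by field_simp
  have hlog : 1 ≤ Real.log xb - Real.log xa := by
    have h1 := Real.log_le_log (by positivity) hxb
    rw [Real.log_mul hxa0.ne' hH0.ne'] at h1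
    have h2 : 1 ≤ Real.log H := by
      rw [Real.le_log_iff_exp_le hH0]
      have := Real.exp_one_lt_d9
      linarith
    linarith
  have hsum := sum_inv_le xa xb (by linarith) hxab
  calc ∑ n ∈ Ioc ⌊xa⌋₊ ⌊xb⌋₊, (1 / (n : ℝ)) * Wp H n (P n)
      ≤ ∑ n ∈ Ioc ⌊xa⌋₊ ⌊xb⌋₊, (1 / (n : ℝ)) * (Wp H n (P' n) +
        2 * Real.pi * (s * 2 ^ s * ε')) := by
        refine sum_le_sum fun n hn => ?_
        have := hcmp n hn
        gcongr
    _ = ∑ n ∈ Ioc ⌊xa⌋₊ ⌊xb⌋₊, (1 / (n : ℝ)) * Wp H n (P' n) +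
        (∑ n ∈ Ioc ⌊xa⌋₊ ⌊xb⌋₊, 1 / (n : ℝ)) * (2 * Real.pi * (s * 2 ^ s * ε')) := by
        rw [sum_mul, ← sum_add_distrib]
        refine sum_congr rfl fun n _ => ?_
        ring
    _ ≤ ε / 2 * (Real.log xb - Real.log xa) +
        (2 * (Real.log xb - Real.log xa)) * (2 * Real.pi * (s * 2 ^ s * ε')) := by
        gcongr
        linarith
    _ = ε / 2 * (Real.log xb - Real.log xa) +
        (4 * Real.pi * (s * 2 ^ s) * ε') * (Real.log xb - Real.log xa) := by ring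
    _ ≤ ε / 2 * (Real.log xb - Real.log xa) + ε / 2 * (Real.log xb - Real.log xa) := by
        gcongr
    _ = ε * (Real.log xb - Real.log xa) := by ring

end

end Pool.Agent.VQ
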