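import Pool.Agent.Lib.VQ.WDefs

/-!
# Row LAG (Theorem W, MP_663568_nt): a polynomial small on a positive proportion is small

Lagrange interpolation at `t + 1` well separated points.  (helper58)
-/

set_option autoImplicit false
open Finset MeasureTheory Polynomial Filter

namespace Pool.Agent.VQ

namespace LAGx

/-- The coefficients of a product of linear factors with roots of size at most `L`. -/
lemma coeff_prod {ι : Type*} (s : Finset ι) (a : ι → ℝ) (L : ℝ) (hL : 0 ≤ L)
    (ha : ∀ j ∈ s, |a j| ≤ L) :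
    ∀ i : ℕ, |(∏ j ∈ s, (X - C (a j))).coeff i| * L ^ i ≤ (2 * L) ^ (#s) := by
  classical
  induction s using Finset.induction_on with
  | empty =>
    intro i
    simp only [prod_empty, card_empty, pow_zero]
    rcases i with _ | i
    · simp
    · simp [coeff_one]
  | insert b s hb ih =>
    intro i
    have ih' := ih (fun j hj => ha j (mem_insert_of_mem hj))
    have hab := ha b (mem_insert_self b s)
    rw [prod_insert hb, card_insert_of_notMem hb, pow_succ, sub_mul, coeff_sub, coeff_C_mul]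
    have h2 : |a b * (∏ j ∈ s, (X - C (a j))).coeff i| * L ^ i ≤ L * (2 * L) ^ (#s) := by
      rw [abs_mul, mul_assoc]
      exact mul_le_mul hab (ih' i) (by positivity) hL
    have h1 : |(X * ∏ j ∈ s, (X - C (a j))).coeff i| * L ^ i ≤ L * (2 * L) ^ (#s) := by
      rcases i with _ | i
      · rw [mul_coeff_zero, coeff_X_zero, zero_mul, abs_zero, zero_mul]
        positivity
      · rw [coeff_X_mul, pow_succ]
        have := mul_le_mul_of_nonneg_left (ih' i) hL
        nlinarith
    have h3 := abs_sub ((X * ∏ j ∈ s, (X - C (a j))).coeff i)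
      (a b * (∏ j ∈ s, (X - C (a j))).coeff i)
    have h4 : 0 ≤ L ^ i := by positivity
    nlinarith [mul_le_mul_of_nonneg_right h3 h4]

/-- `t + 1` points of a set of natural numbers with mutual distances at least `k`. -/
lemma spaced (S : Finset ℕ) (t k : ℕ) (h : t * k < #S) :
    ∃ v : Fin (t + 1) → ℕ, (∀ m, v m ∈ S) ∧ ∀ m n, m < n → v m + k ≤ v n := by
  have hlt : ∀ m : Fin (t + 1), (m : ℕ) * k < #S := fun m =>
    lt_of_le_of_lt (Nat.mul_le_mul_right k (Nat.lt_succ_iff.mp m.2)) h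
  refine ⟨fun m => S.orderEmbOfFin rfl ⟨(m : ℕ) * k, hlt m⟩, fun m => orderEmbOfFin_mem _ _ _, ?_⟩
  have key : ∀ (d a : ℕ) (ha : a + d < #S),
      S.orderEmbOfFin rfl ⟨a, by omega⟩ + d ≤ S.orderEmbOfFin rfl ⟨a + d, ha⟩ := by
    intro d
    induction d with
    | zero => intro a ha; simp
    | succ d ih =>
      intro a ha
      have h1 := ih a (by omega)
      have h2 : S.orderEmbOfFin rfl ⟨a + d, by omega⟩ < S.orderEmbOfFin rfl ⟨a + (d + 1), ha⟩ := by
        apply (S.orderEmbOfFin rfl).strictMono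
        simp only [Fin.mk_lt_mk]
        omega
      omega
  intro m n hmn
  have h1 : (m : ℕ) * k + k ≤ (n : ℕ) * k := by
    have : (m : ℕ) + 1 ≤ n := hmn
    calc (m : ℕ) * k + k = ((m : ℕ) + 1) * k := by ring
      _ ≤ (n : ℕ) * k := Nat.mul_le_mul_right k this
  have h2 := key ((n : ℕ) * k - (m : ℕ) * k) ((m : ℕ) * k) (by have := hlt n; omega)
  have h3 : (m : ℕ) * k + ((n : ℕ) * k - (m : ℕ) * k) = (n : ℕ) * k := by omega
  have h4 : S.orderEmbOfFin rfl ⟨(m : ℕ) * k + ((n : ℕ) * k - (m : ℕ) * k),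
      by have := hlt n; omega⟩ = S.orderEmbOfFin rfl ⟨(n : ℕ) * k, hlt n⟩ := by
    congr 1
    exact Fin.ext h3
  rw [h4] at h2
  show S.orderEmbOfFin rfl ⟨(m : ℕ) * k, hlt m⟩ + k ≤ S.orderEmbOfFin rfl ⟨(n : ℕ) * k, hlt n⟩
  omega

end LAGx

open LAGx in
theorem lag : LAG_stmt := by
  classical
  intro t c hc hc1
  set δ : ℝ := c / (2 * (t + 1)) with hδ
  have ht : (0 : ℝ) < t + 1 := by positivity
  have hδ0 : 0 < δ := by positivity
  have hδ1 : δ ≤ 1 := by
    rw [hδ, div_le_one (by positivity)]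
    nlinarith
  refine ⟨(t + 1) * (2 / δ) ^ t, ⌈(t + 1) / c⌉₊ + 1, ?_, ?_⟩
  · have h1 : (1 : ℝ) ≤ 2 / δ := by
      rw [le_div_iff₀ hδ0]
      linarith
    have h2 : (1 : ℝ) ≤ (2 / δ) ^ t := one_le_pow₀ h1
    have h3 : (1 : ℝ) ≤ t + 1 := by
      have : (0 : ℝ) ≤ t := by positivity
      linarith
    nlinarith
  intro L f lam hL hf hlam hS i _
  set S := (range L).filter fun j : ℕ => |f.eval (j : ℝ)| ≤ lam with hSdef
  have hLc : (t + 1) / c ≤ (L : ℝ) := by
    have h1 := Nat.le_ceil (((t : ℝ) + 1) / c)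
    have h2 : ((⌈((t : ℝ) + 1) / c⌉₊ + 1 : ℕ) : ℝ) ≤ L := by exact_mod_cast hL
    push_cast at h2
    linarith
  have hL0 : (0 : ℝ) < L := lt_of_lt_of_le (by positivity) hLc
  have hx1 : 1 ≤ c * L / (t + 1) := by
    rw [le_div_iff₀ ht]
    rw [div_le_iff₀ hc] at hLc
    linarith
  set k : ℕ := ⌊c * L / (t + 1)⌋₊ with hk
  have hk1 : (k : ℝ) ≤ c * L / (t + 1) := Nat.floor_le (by positivity)
  have hk2 : δ * L ≤ k := by
    have h1 : 1 ≤ k := (Nat.one_le_floor_iff _).mpr hx1
    have h2 : c * L / (t + 1) < k + 1 := Nat.lt_floor_add_one _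
    have h3 : (1 : ℝ) ≤ k := by exact_mod_cast h1
    have h4 : δ * L = (c * L / (t + 1)) / 2 := by
      rw [hδ]
      field_simp
    rw [h4]
    linarith
  have htk : t * k < #S := by
    have h1 : (t : ℝ) * k < #S := by
      refine lt_of_lt_of_le ?_ hS
      calc (t : ℝ) * k ≤ t * (c * L / (t + 1)) := by gcongr
        _ = c * L * (t / (t + 1)) := by ring
        _ < c * L * 1 := by
            apply mul_lt_mul_of_pos_left _ (by positivity)
            rw [div_lt_one ht]
            linarith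
        _ = c * L := mul_one _
    exact_mod_cast h1
  obtain ⟨v, hvS, hvd⟩ := spaced S t k htk
  have hdist : ∀ m n : Fin (t + 1), m ≠ n → δ * L ≤ |((v m : ℕ) : ℝ) - v n| := by
    intro m n hmn
    rcases lt_or_gt_of_ne hmn with h | h
    · have h1 : ((v m : ℕ) : ℝ) + k ≤ v n := by exact_mod_cast hvd m n h
      rw [abs_sub_comm]
      exact le_trans (by linarith) (le_abs_self _)
    · have h1 : ((v n : ℕ) : ℝ) + k ≤ v m := by exact_mod_cast hvd n m h
      exact le_trans (by linarith) (le_abs_self _)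
  have hinj : Set.InjOn (fun m : Fin (t + 1) => ((v m : ℕ) : ℝ))
      ((univ : Finset (Fin (t + 1))) : Set (Fin (t + 1))) := by
    intro m _ n _ hmn
    by_contra hne
    have h1 := hdist m n hne
    have h2 : ((v m : ℕ) : ℝ) - v n = 0 := by
      simp only at hmn
      linarith
    rw [h2, abs_zero] at h1
    have : 0 < δ * L := by positivity
    linarith
  have hdeg : f.degree < #(univ : Finset (Fin (t + 1))) := by
    rw [card_univ, Fintype.card_fin]
    refine lt_of_le_of_lt degree_le_natDegree ?_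
    exact_mod_cast Nat.lt_succ_of_le hf
  have hint := Lagrange.eq_interpolate hinj hdeg
  rw [Lagrange.interpolate_apply] at hint
  have hcoef : f.coeff i = ∑ m : Fin (t + 1), f.eval ((v m : ℕ) : ℝ) *
      (Lagrange.basis univ (fun m : Fin (t + 1) => ((v m : ℕ) : ℝ)) m).coeff i := by
    conv_lhs => rw [hint]
    rw [finset_sum_coeff]
    refine sum_congr rfl fun m _ => ?_
    rw [coeff_C_mul]
  have hb : ∀ m : Fin (t + 1),
      |(Lagrange.basis univ (fun m : Fin (t + 1) => ((v m : ℕ) : ℝ)) m).coeff i| * (L : ℝ) ^ i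
        ≤ (2 / δ) ^ t := by
    intro m
    have h1 : Lagrange.basis univ (fun m : Fin (t + 1) => ((v m : ℕ) : ℝ)) m
        = C (∏ j ∈ univ.erase m, (((v m : ℕ) : ℝ) - v j)⁻¹) *
          ∏ j ∈ univ.erase m, (X - C ((v j : ℕ) : ℝ)) := by
      unfold Lagrange.basis Lagrange.basisDivisor
      rw [prod_mul_distrib, map_prod]
    have hcard : #((univ : Finset (Fin (t + 1))).erase m) = t := by
      rw [card_erase_of_mem (mem_univ m), card_univ, Fintype.card_fin]
      omega
    have h2 := coeff_prod ((univ : Finset (Fin (t + 1))).erase m) (fun j => ((v j : ℕ) : ℝ)) L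
      hL0.le (fun j _ => by
        have h3 : v j < L := mem_range.mp (mem_filter.mp (hvS j)).1
        rw [abs_of_nonneg (by positivity)]
        exact_mod_cast h3.le) i
    rw [hcard] at h2
    rw [h1, coeff_C_mul, abs_mul, mul_assoc]
    have h3 : |∏ j ∈ univ.erase m, (((v m : ℕ) : ℝ) - v j)⁻¹| ≤ ((δ * L)⁻¹) ^ t := by
      rw [abs_prod]
      calc ∏ j ∈ univ.erase m, |(((v m : ℕ) : ℝ) - v j)⁻¹|
          ≤ ∏ _j ∈ (univ : Finset (Fin (t + 1))).erase m, (δ * L)⁻¹ := by
            refine prod_le_prod (fun _ _ => abs_nonneg _) fun j hj => ?_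
            rw [abs_inv]
            exact inv_anti₀ (by positivity) (hdist m j (ne_of_mem_erase hj).symm)
        _ = ((δ * L)⁻¹) ^ t := by rw [prod_const, hcard]
    calc |∏ j ∈ univ.erase m, (((v m : ℕ) : ℝ) - v j)⁻¹| *
          (|(∏ j ∈ univ.erase m, (X - C ((v j : ℕ) : ℝ))).coeff i| * (L : ℝ) ^ i)
        ≤ ((δ * L)⁻¹) ^ t * (2 * L) ^ t :=
          mul_le_mul h3 h2 (by positivity) (by positivity)
      _ = (2 / δ) ^ t := by
          rw [← mul_pow]
          congr 1
          field_simp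
  rw [hcoef]
  calc |∑ m : Fin (t + 1), f.eval ((v m : ℕ) : ℝ) *
        (Lagrange.basis univ (fun m : Fin (t + 1) => ((v m : ℕ) : ℝ)) m).coeff i| * (L : ℝ) ^ i
      ≤ (∑ m : Fin (t + 1), |f.eval ((v m : ℕ) : ℝ) *
        (Lagrange.basis univ (fun m : Fin (t + 1) => ((v m : ℕ) : ℝ)) m).coeff i|) * (L : ℝ) ^ i := by
        gcongr
        exact abs_sum_le_sum_abs _ _
    _ = ∑ m : Fin (t + 1), |f.eval ((v m : ℕ) : ℝ)| *
        (|(Lagrange.basis univ (fun m : Fin (t + 1) => ((v m : ℕ) : ℝ)) m).coeff i| *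
          (L : ℝ) ^ i) := by
        rw [sum_mul]
        refine sum_congr rfl fun m _ => ?_
        rw [abs_mul, mul_assoc]
    _ ≤ ∑ _m : Fin (t + 1), lam * (2 / δ) ^ t := by
        refine sum_le_sum fun m _ => ?_
        exact mul_le_mul (mem_filter.mp (hvS m)).2 (hb m) (by positivity) hlam
    _ = (t + 1) * (2 / δ) ^ t * lam := by
        rw [sum_const, card_univ, Fintype.card_fin, nsmul_eq_mul]
        push_cast
        ring

end Pool.Agent.VQ
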