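import Mathlib
import Pool.Agent.Lib.VQ.Defs
import Pool.Agent.Lib.TU.WeylAll

/-!
# Theorem VQ (MP_663568_nt), row PREC: many windows on which a phase does not cancel

helper95.
-/

set_option autoImplicit false
open Finset Polynomial

namespace Pool.Agent.VQ

open Pool.Agent.Lib.MP_663568_nt Pool.Agent.Lib.MP_663568_nt.Katai
  Pool.Agent.Lib.MP_663568_nt.Nul

namespace PRECx

/-- The top coefficient is invariant under translation. -/
lemma top_taylor (n : ℕ) (P : ℝ[X]) (hP : P.natDegree ≤ n) (r : ℝ) :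
    (taylor r P).coeff n = P.coeff n := by
  rw [taylor_coeff]
  have h1 : (hasseDeriv n P).natDegree ≤ 0 := by
    have := natDegree_hasseDeriv_le P n
    omega
  rw [eq_C_of_natDegree_le_zero h1, eval_C, hasseDeriv_coeff, zero_add, Nat.choose_self,
    Nat.cast_one, one_mul]

/-- Passing to a multiple of the denominator. -/
lemma nd_dvd (q n : ℕ) (hq : 1 ≤ q) (h : q ∣ n) (x : ℝ) :
    nd ((n : ℝ) * x) ≤ n * nd ((q : ℝ) * x) := by
  obtain ⟨k, rfl⟩ := h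
  have h1 : ((q * k : ℕ) : ℝ) * x = (k : ℝ) * ((q : ℝ) * x) := by push_cast; ring
  rw [h1]
  refine (nd_nat_mul_le k _).trans ?_
  have h2 : (k : ℝ) ≤ ((q * k : ℕ) : ℝ) := by
    exact_mod_cast Nat.le_mul_of_pos_left k hq
  have h3 := nd_nonneg ((q : ℝ) * x)
  gcongr

lemma dvd_fact (q : ℕ) (hq : 1 ≤ q) (X : ℝ) (h : (q : ℝ) ≤ X) : q ∣ (⌊X⌋₊).factorial :=
  Nat.dvd_factorial hq (Nat.le_floor h)

end PRECx

open Classical in
/-- Row PREC. -/
theorem prec : PREC_stmt := by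
  intro hrec t c ht hc hc1
  obtain ⟨C₀, hC1, hC⟩ := TU.weyl_all t (by omega)
  obtain ⟨E₁, hE1, hE⟩ := hrec (t - 1) (by omega)
  set δ : ℝ := min c (1 / 2) with hδd
  have hδ : 0 < δ := lt_min hc (by norm_num)
  have hδc : δ ≤ c := min_le_left _ _
  have hδ2 : δ ≤ 1 / 2 := min_le_right _ _
  have hd1 : 1 ≤ 1 / δ := by rw [le_div_iff₀ hδ]; linarith
  set q₀ : ℕ := (⌊(1 / δ) ^ C₀⌋₊).factorial with hq₀
  set q₁ : ℕ := (⌊(1 / δ) ^ E₁⌋₊).factorial with hq₁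
  have hq₀1 : 1 ≤ q₀ := Nat.factorial_pos _
  have hq₁1 : 1 ≤ q₁ := Nat.factorial_pos _
  have hq₁r : (0 : ℝ) < q₁ := by exact_mod_cast hq₁1
  refine ⟨q₁ * q₀ * t, ⌈(1 / δ) ^ C₀⌉₊ + ⌈(1 / δ) ^ E₁⌉₊ + ⌈(q₀ : ℝ) * (1 / δ) ^ C₀ * (100 / δ)⌉₊ + 1,
    q₁ * (1 / δ) ^ E₁, Nat.mul_pos (Nat.mul_pos hq₁1 hq₀1) (by omega), by positivity, ?_⟩
  intro l L a hl hL D hD hcount
  have hl0 : (1 : ℝ) ≤ l := by exact_mod_cast (by omega : 1 ≤ l)
  have hl1 : (1 / δ) ^ C₀ ≤ l :=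
    (Nat.le_ceil _).trans (by exact_mod_cast (by omega : ⌈(1 / δ) ^ C₀⌉₊ ≤ l))
  have hL1 : (1 / δ) ^ E₁ ≤ L :=
    (Nat.le_ceil _).trans (by exact_mod_cast (by omega : ⌈(1 / δ) ^ E₁⌉₊ ≤ L))
  have hl2 : (q₀ : ℝ) * (1 / δ) ^ C₀ * (100 / δ) ≤ l :=
    (Nat.le_ceil _).trans
      (by exact_mod_cast (by omega : ⌈(q₀ : ℝ) * (1 / δ) ^ C₀ * (100 / δ)⌉₊ ≤ l))
  -- the derivative is near a rational number
  have hpt : ∀ m : ℕ, c ≤ Kp l m D →
      nd ((q₀ : ℝ) * D.derivative.eval (m : ℝ)) ≤ (q₀ : ℝ) * ((1 / δ) ^ C₀ / l) := by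
    intro m hm
    have h1 : δ * l ≤ ‖∑ h ∈ Icc 1 l, ee ((taylor (m : ℝ) D).eval (h : ℝ))‖ := by
      have h2 : ∀ h ∈ Icc 1 l, ee ((taylor (m : ℝ) D).eval (h : ℝ)) =
          ee (D.eval ((m : ℝ) + h)) := by
        intro h _
        rw [taylor_eval, add_comm]
      rw [sum_congr rfl h2]
      rw [Kp, le_div_iff₀ (by linarith)] at hm
      refine le_trans ?_ hm
      gcongr
    obtain ⟨q, hq1, hq2, hq3⟩ := hC δ l (taylor (m : ℝ) D) hδ hδ2 hl1
      (by rw [natDegree_taylor]; exact hD) h1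
    have h3 := hq3 1 le_rfl (by omega)
    rw [taylor_coeff_one, pow_one] at h3
    refine (PRECx.nd_dvd q q₀ hq1 (PRECx.dvd_fact q hq1 _ hq2) _).trans ?_
    gcongr
  -- apply REC to the derivative
  set P : ℝ[X] := C ((q₀ : ℕ) : ℝ) * taylor ((a : ℝ) - 1) D.derivative with hPd
  have hPdeg : P.natDegree ≤ t - 1 := by
    refine (natDegree_C_mul_le _ _).trans ?_
    rw [natDegree_taylor]
    exact (natDegree_derivative_le D).trans (by omega)
  have hρ : (q₀ : ℝ) * ((1 / δ) ^ C₀ / l) ≤ δ / 100 := by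
    rw [← mul_div_assoc, div_le_iff₀ (by linarith)]
    have h1 : (q₀ : ℝ) * (1 / δ) ^ C₀ = δ / 100 * ((q₀ : ℝ) * (1 / δ) ^ C₀ * (100 / δ)) := by
      field_simp
    rw [h1]
    gcongr
  have hcard : δ * L ≤
      (#((Icc 1 L).filter fun m : ℕ => nd (P.eval (m : ℝ)) ≤ (q₀ : ℝ) * ((1 / δ) ^ C₀ / l)) : ℝ) := by
    have h1 : δ * L ≤ c * L := by gcongr
    refine (h1.trans hcount).trans ?_
    have h2 : #((Ico a (a + L)).filter fun m : ℕ => c ≤ Kp l m D) ≤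
        #((Icc 1 L).filter fun m : ℕ => nd (P.eval (m : ℝ)) ≤ (q₀ : ℝ) * ((1 / δ) ^ C₀ / l)) := by
      refine card_le_card_of_injOn (fun m => m + 1 - a) ?_ ?_
      · intro m hm
        simp only [coe_filter, Set.mem_ofPred_eq, mem_Ico] at hm
        simp only [coe_filter, Set.mem_ofPred_eq, mem_Icc]
        refine ⟨⟨by omega, by omega⟩, ?_⟩
        have h3 : ((m + 1 - a : ℕ) : ℝ) = (m : ℝ) + 1 - a := by
          rw [Nat.cast_sub (by omega)]; push_cast; ring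
        have h4 : P.eval ((m + 1 - a : ℕ) : ℝ) = (q₀ : ℝ) * D.derivative.eval (m : ℝ) := by
          rw [hPd, eval_mul, eval_C, taylor_eval, h3]
          congr 2; ring
        rw [h4]
        exact hpt m hm.2
      · intro m hm m' hm' h
        simp only [coe_filter, Set.mem_ofPred_eq, mem_Ico] at hm hm'
        simp only at h
        omega
    exact_mod_cast h2
  obtain ⟨q', hq1', hq2', hq3'⟩ := hE δ _ L P hδ hδ2 hL1 hρ hPdeg hcard
  have h5 := hq3' (t - 1) (by omega) le_rfl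
  have h6 : P.coeff (t - 1) = (q₀ : ℝ) * (D.coeff t * t) := by
    rw [hPd, coeff_C_mul, PRECx.top_taylor (t - 1) _ ((natDegree_derivative_le D).trans (by omega)),
      coeff_derivative]
    have h7 : t - 1 + 1 = t := by omega
    have h8 : ((t - 1 : ℕ) : ℝ) + 1 = t := by exact_mod_cast h7
    rw [h7, h8]
  have h7 : ((q₁ * q₀ * t : ℕ) : ℝ) * D.coeff t = (q₁ : ℝ) * P.coeff (t - 1) := by
    rw [h6]; push_cast; ring
  rw [h7]
  refine (PRECx.nd_dvd q' q₁ hq1' (PRECx.dvd_fact q' hq1' _ hq2') _).trans ?_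
  rw [mul_div_assoc]
  gcongr

end Pool.Agent.VQ
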