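import Mathlib
import Pool.Agent.Lib.VQ.Defs
import Pool.Agent.Lib.TU.WeylAll
import Pool.Agent.Lib.EXS.PR

/-!
# Theorem VQ (MP_663568_nt), row REC: polynomials near the integers on a positive proportion

helper95.
-/

set_option autoImplicit false
open Finset Polynomial

namespace Pool.Agent.VQ

open Pool.Agent.Lib.MP_663568_nt Pool.Agent.Lib.MP_663568_nt.Katai
  Pool.Agent.Lib.MP_663568_nt.Nul

open Classical in
/-- Row REC. -/
theorem vqrec : REC_stmt := by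
  intro t ht
  obtain ⟨E, hE1, hE⟩ := TU.weyl_all t ht
  refine ⟨6 * E + 4, by omega, ?_⟩
  intro δ ρ L P hδ hδ2 hL hρ hP hcount
  have hd : 0 < 1 / δ := by positivity
  have hd2 : 2 ≤ 1 / δ := by rw [le_div_iff₀ hδ]; linarith
  have hd1 : 1 ≤ 1 / δ := by linarith
  have hL0 : (1 : ℝ) ≤ L := (one_le_pow₀ hd1).trans hL
  set K : ℕ := ⌈5 / δ⌉₊ with hK
  have hK1 : 5 / δ ≤ K := Nat.le_ceil _
  have hK2 : (K : ℝ) < 5 / δ + 1 := Nat.ceil_lt_add_one (by positivity)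
  have hKr : (0 : ℝ) < K := lt_of_lt_of_le (by positivity) hK1
  have hKn : 1 ≤ K := by exact_mod_cast hKr
  have hKu : (K : ℝ) * (δ / 100) ≤ 1 / 16 := by
    have h1 : (K : ℝ) * (δ / 100) ≤ (5 / δ + 1) * (δ / 100) := by gcongr
    have h2 : (5 / δ + 1) * (δ / 100) = 5 / 100 + δ / 100 := by field_simp
    linarith
  -- a large exponential sum
  have hex : ∃ k ∈ Icc 1 K, δ / 25 * L < ‖∑ m ∈ Icc 1 L, ee ((k : ℝ) * P.eval (m : ℝ))‖ := by
    by_contra hcon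
    push Not at hcon
    have h1 := EXS.PRx.kernel_weight (Icc 1 L) (fun _ => (1 : ℝ)) (fun _ _ => zero_le_one)
      (fun m : ℕ => P.eval (m : ℝ)) K hKn (δ / 25) (by positivity)
      (by
        intro k hk
        have h2 := hcon k hk
        simp only [Complex.ofReal_one, one_mul, sum_const, Nat.card_Icc, Nat.add_sub_cancel,
          nsmul_eq_mul, mul_one]
        exact h2) (δ / 100) hKu
    simp only [sum_const, Nat.card_Icc, Nat.add_sub_cancel, nsmul_eq_mul, mul_one] at h1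
    have h3 : (#((Icc 1 L).filter fun m : ℕ => nd (P.eval (m : ℝ)) ≤ ρ) : ℝ) ≤
        #((Icc 1 L).filter fun m : ℕ => nd (P.eval (m : ℝ)) ≤ δ / 100) := by
      have h6 : (Icc 1 L).filter (fun m : ℕ => nd (P.eval (m : ℝ)) ≤ ρ) ⊆
        (Icc 1 L).filter fun m : ℕ => nd (P.eval (m : ℝ)) ≤ δ / 100 := by
        intro m hm
        rw [mem_filter] at hm ⊢
        exact ⟨hm.1, hm.2.trans hρ⟩
      exact_mod_cast card_le_card h6
    have h4 : 4 / (K : ℝ) ≤ 4 / 5 * δ := by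
      rw [div_le_iff₀ hKr]
      calc (4 : ℝ) = 4 / 5 * δ * (5 / δ) := by field_simp
        _ ≤ _ := by gcongr
    have h5 : (4 / (K : ℝ) + 4 * (δ / 25)) * L ≤ (4 / 5 * δ + 4 * (δ / 25)) * L := by gcongr
    nlinarith
  obtain ⟨k, hk, hbig⟩ := hex
  rw [mem_Icc] at hk
  have hkK : (k : ℝ) ≤ K := by exact_mod_cast hk.2
  have hk1 : (1 : ℝ) ≤ k := by exact_mod_cast hk.1
  have hpow : (1 / (δ / 25)) ^ E ≤ (1 / δ) ^ (6 * E) := by
    have h1 : 1 / (δ / 25) ≤ (1 / δ) ^ 6 := by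
      have h2 : 1 / (δ / 25) = 25 * (1 / δ) := by field_simp
      have h3 : (2 : ℝ) ^ 5 ≤ (1 / δ) ^ 5 := by gcongr
      rw [h2, pow_succ]
      have h4 : (25 : ℝ) ≤ (1 / δ) ^ 5 := by linarith [h3]
      gcongr
    calc (1 / (δ / 25)) ^ E ≤ ((1 / δ) ^ 6) ^ E := by gcongr
      _ = _ := by rw [← pow_mul]
  have hK4 : (k : ℝ) ≤ (1 / δ) ^ 4 := by
    have h1 : (K : ℝ) ≤ 5.5 * (1 / δ) := by
      have h2 : 5 / δ = 5 * (1 / δ) := by ring
      rw [h2] at hK2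
      linarith
    have h3 : (2 : ℝ) ^ 3 ≤ (1 / δ) ^ 3 := by gcongr
    have h4 : (1 / δ) ^ 4 = (1 / δ) ^ 3 * (1 / δ) := by ring
    rw [h4]
    nlinarith
  have hdeg : (C ((k : ℕ) : ℝ) * P).natDegree ≤ t := (natDegree_C_mul_le _ _).trans hP
  obtain ⟨q, hq1, hq2, hq3⟩ := hE (δ / 25) L (C ((k : ℕ) : ℝ) * P) (by positivity) (by linarith)
    (hpow.trans ((pow_le_pow_right₀ hd1 (by omega)).trans hL)) hdeg (by
      have h1 : ∀ m ∈ Icc 1 L, ee ((C ((k : ℕ) : ℝ) * P).eval (m : ℝ)) =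
          ee ((k : ℝ) * P.eval (m : ℝ)) := by
        intro m _
        rw [eval_mul, eval_C]
      rw [sum_congr rfl h1]
      exact hbig.le)
  have hqr : (q : ℝ) ≤ (1 / δ) ^ (6 * E) := hq2.trans hpow
  refine ⟨q * k, Nat.mul_pos hq1 hk.1, ?_, ?_⟩
  · push_cast
    calc (q : ℝ) * k ≤ (1 / δ) ^ (6 * E) * (1 / δ) ^ 4 := by gcongr
      _ = _ := by rw [← pow_add]
  · intro j hj1 hj2
    have h1 := hq3 j hj1 hj2
    rw [coeff_C_mul, ← mul_assoc] at h1
    push_cast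
    refine h1.trans ?_
    have h2 : (1 / (δ / 25)) ^ E ≤ (1 / δ) ^ (6 * E + 4) :=
      hpow.trans (pow_le_pow_right₀ hd1 (by omega))
    gcongr

end Pool.Agent.VQ
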