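import Mathlib
import Pool.Agent.Lib.VQ.WDefs

/-!
# Theorem W (MP_663568_nt), row STR: the difference to the prescribed polynomial is rational

helper68.
-/

set_option autoImplicit false
open Finset Polynomial

namespace Pool.Agent.VQ

open Pool.Agent.Lib.MP_663568_nt Pool.Agent.Lib.MP_663568_nt.Katai
  Pool.Agent.Lib.MP_663568_nt.Nul

namespace STRx

theorem eval_split {t : ℕ} {G : ℝ[X]} (hG : G.natDegree ≤ t) (x : ℝ) :
    G.eval x = ∑ k ∈ range (t + 1), G.coeff k * x ^ k :=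
  eval_eq_sum_range' (by omega) x

/-- the polynomial with the given coefficients -/
noncomputable def mk (t : ℕ) (e : ℕ → ℝ) : ℝ[X] := ∑ k ∈ range (t + 1), C (e k) * X ^ k

theorem mk_deg (t : ℕ) (e : ℕ → ℝ) : (mk t e).natDegree ≤ t := by
  unfold mk
  refine natDegree_sum_le_of_forall_le _ _ fun k hk => ?_
  refine (natDegree_C_mul_X_pow_le _ _).trans ?_
  have := mem_range.1 hk
  omega

theorem mk_eval (t : ℕ) (e : ℕ → ℝ) (x : ℝ) :
    (mk t e).eval x = ∑ k ∈ range (t + 1), e k * x ^ k := by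
  unfold mk
  rw [eval_finsetSum]
  exact sum_congr rfl fun k _ => by simp

theorem mk_coeff (t : ℕ) (e : ℕ → ℝ) {k : ℕ} (hk : k ≤ t) : (mk t e).coeff k = e k := by
  unfold mk
  rw [finsetSum_coeff, sum_eq_single k]
  · simp
  · intro b _ hb
    rw [coeff_C_mul_X_pow, if_neg (Ne.symm hb)]
  · intro h
    exact absurd (mem_range.2 (by omega)) h

theorem coeff_G (m₀ q : ℝ) (D : ℝ[X]) (k : ℕ) :
    (C q * derivative (taylor m₀ D)).coeff k = q * ((taylor m₀ D).coeff (k + 1) * (k + 1)) := by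
  rw [coeff_C_mul, coeff_derivative]

theorem eval_G (m₀ q : ℝ) (D : ℝ[X]) (x : ℝ) :
    (C q * derivative (taylor m₀ D)).eval x = q * D.derivative.eval (m₀ + x) := by
  rw [eval_mul, eval_C, taylor_apply, derivative_comp, eval_mul, eval_comp]
  simp [add_comm]

theorem deg_G {t : ℕ} (m₀ q : ℝ) {D : ℝ[X]} (hD : D.natDegree ≤ t) :
    (C q * derivative (taylor m₀ D)).natDegree ≤ t := by
  refine (natDegree_C_mul_le _ _).trans ((natDegree_derivative_le _).trans ?_)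
  rw [natDegree_taylor]
  omega

open Classical in
/-- the pigeonhole principle for integers in an interval -/
theorem pigeon (S : Finset ℕ) (w : ℕ → ℤ) (x K c : ℝ) (hK : 0 ≤ K) (hne : S.Nonempty)
    (hw : ∀ j ∈ S, |x - w j| ≤ K) (hc : (2 * K + 1) * c ≤ (#S : ℝ)) (hc0 : 0 ≤ c) :
    ∃ v : ℤ, c ≤ (#(S.filter fun j => w j = v) : ℝ) := by
  have hmaps : ∀ j ∈ S, w j ∈ Finset.Icc ⌈x - K⌉ ⌊x + K⌋ := by
    intro j hj
    have h := abs_le.1 (hw j hj)
    rw [mem_Icc]
    exact ⟨Int.ceil_le.2 (by linarith), Int.le_floor.2 (by linarith)⟩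
  have hT : (Finset.Icc ⌈x - K⌉ ⌊x + K⌋).Nonempty := by
    obtain ⟨j, hj⟩ := hne
    exact ⟨_, hmaps j hj⟩
  have hcard : (#(Finset.Icc ⌈x - K⌉ ⌊x + K⌋) : ℝ) ≤ 2 * K + 1 := by
    rw [Int.card_Icc]
    have h1 : ((⌊x + K⌋ + 1 - ⌈x - K⌉ : ℤ) : ℝ) ≤ 2 * K + 1 := by
      push_cast
      have := Int.floor_le (x + K)
      have := Int.le_ceil (x - K)
      linarith
    have h2 : (((⌊x + K⌋ + 1 - ⌈x - K⌉).toNat : ℤ) : ℝ) ≤ 2 * K + 1 := by
      rw [Int.toNat_eq_max]
      push_cast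
      refine max_le ?_ (by linarith)
      push_cast at h1
      exact h1
    exact_mod_cast h2
  obtain ⟨v, _, hv⟩ := exists_le_card_fiber_of_nsmul_le_card_of_maps_to hmaps hT (b := c) (by
    rw [nsmul_eq_mul]
    exact (mul_le_mul_of_nonneg_right hcard hc0).trans hc)
  exact ⟨v, hv⟩

end STRx

open STRx

open Classical in
/-- Row STR. -/
theorem str : STR_stmt := by
  intro hREC hLAG t qs c₁ E ht hqs hc0 hc1 hE
  obtain ⟨E0, hE0, hrec⟩ := hREC t ht
  obtain ⟨δ, hδ⟩ : ∃ δ : ℝ, δ = c₁ / 2 := ⟨_, rfl⟩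
  have hδ0 : 0 < δ := by rw [hδ]; linarith
  have hδ1 : δ ≤ 1 / 2 := by rw [hδ]; linarith
  obtain ⟨E1, hE1⟩ : ∃ E1 : ℝ, E1 = (1 / δ) ^ E0 := ⟨_, rfl⟩
  have hE10 : 0 < E1 := by rw [hE1]; positivity
  obtain ⟨K, hK⟩ : ∃ K : ℝ, K = E1 * (t * E1 + E) := ⟨_, rfl⟩
  have hK0 : 0 ≤ K := by rw [hK]; positivity
  obtain ⟨c2, hc2⟩ : ∃ c2 : ℝ, c2 = c₁ / (2 * K + 1) := ⟨_, rfl⟩
  have hc20 : 0 < c2 := by rw [hc2]; positivity
  have hc21 : c2 ≤ 1 := by
    rw [hc2, div_le_one (by positivity)]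
    linarith
  obtain ⟨E2, L1, hE2, hlag⟩ := hLAG t c2 hc20 hc21
  obtain ⟨N, hN⟩ : ∃ N : ℕ, N = ⌊E1⌋₊ := ⟨_, rfl⟩
  have hfac : (0 : ℝ) < t.factorial * N.factorial := by positivity
  refine ⟨t.factorial * N.factorial * (E2 * E), t.factorial * qs * N.factorial,
    max L1 (max (⌈2 / c₁⌉₊ + 1) (max ⌈E1⌉₊ ⌈200 * E / c₁⌉₊)), by positivity,
    Nat.one_le_iff_ne_zero.2 (by positivity), ?_⟩
  intro H L m₀ hL hLH D hD hcount i hi1 hit
  have hL1 : L1 ≤ L := (le_max_left _ _).trans hL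
  have hL2 : ⌈2 / c₁⌉₊ + 1 ≤ L := ((le_max_left _ _).trans (le_max_right _ _)).trans hL
  have hL3 : ⌈E1⌉₊ ≤ L :=
    (((le_max_left _ _).trans (le_max_right _ _)).trans (le_max_right _ _)).trans hL
  have hL4 : ⌈200 * E / c₁⌉₊ ≤ L :=
    (((le_max_right _ _).trans (le_max_right _ _)).trans (le_max_right _ _)).trans hL
  have hLr2 : 2 / c₁ ≤ L := (Nat.le_ceil _).trans (by exact_mod_cast (by omega : ⌈2 / c₁⌉₊ ≤ L))
  have hLr3 : E1 ≤ L := (Nat.le_ceil _).trans (by exact_mod_cast hL3)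
  have hLr4 : 200 * E / c₁ ≤ L := (Nat.le_ceil _).trans (by exact_mod_cast hL4)
  have hL0 : (0 : ℝ) < L := by
    have : 1 ≤ L := by omega
    exact_mod_cast this
  have hHL : (L : ℝ) ≤ H := by exact_mod_cast hLH
  have hH0 : (0 : ℝ) < H := by linarith
  have hH1 : (1 : ℝ) ≤ H := by
    have : 1 ≤ H := by omega
    exact_mod_cast this
  obtain ⟨G, hG⟩ : ∃ G : ℝ[X], G = C (qs : ℝ) * derivative (taylor m₀ D) := ⟨_, rfl⟩
  have hGe : ∀ x : ℝ, G.eval x = qs * D.derivative.eval (m₀ + x) := fun x => by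
    rw [hG, eval_G]
  have hGd : G.natDegree ≤ t := by rw [hG]; exact deg_G m₀ _ hD
  have hGc : ∀ k, G.coeff k = qs * ((taylor m₀ D).coeff (k + 1) * (k + 1)) := fun k => by
    rw [hG, coeff_G]
  obtain ⟨S, hS⟩ : ∃ S : Finset ℕ, S = (range L).filter fun j : ℕ =>
    nd (G.eval (j : ℝ)) ≤ E / H := ⟨_, rfl⟩
  have hScard : c₁ * (L : ℝ) ≤ (#S : ℝ) := by
    rw [hS]
    refine hcount.trans (le_of_eq ?_)
    congr 2
    refine filter_congr fun j _ => ?_
    rw [hGe]
  have hSne : S.Nonempty := by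
    rw [← card_pos]
    have : (0 : ℝ) < #S := lt_of_lt_of_le (by positivity) hScard
    exact_mod_cast this
  -- the rational approximation of the higher coefficients
  obtain ⟨q, hq1, hqE, hq⟩ := hrec δ (E / H) L G hδ0 hδ1 (by rw [← hE1]; exact hLr3) (by
      rw [div_le_iff₀ hH0]
      have h1 : 200 * E ≤ L * c₁ := by rwa [div_le_iff₀ hc0] at hLr4
      have h2 : (L : ℝ) * c₁ ≤ H * c₁ := mul_le_mul_of_nonneg_right hHL hc0.le
      rw [hδ]
      linarith) hGd (by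
      have h1 : S.erase 0 ⊆ (Icc 1 L).filter fun m : ℕ => nd (G.eval (m : ℝ)) ≤ E / H := by
        intro j hj
        rw [mem_erase, hS, mem_filter, mem_range] at hj
        rw [mem_filter, mem_Icc]
        exact ⟨⟨by omega, by omega⟩, hj.2.2⟩
      have h2 : (#S : ℝ) - 1 ≤ #(S.erase 0) := by
        have := pred_card_le_card_erase (s := S) (a := 0)
        have h3 : #S ≤ #(S.erase 0) + 1 := by omega
        have h4 : (#S : ℝ) ≤ #(S.erase 0) + 1 := by exact_mod_cast h3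
        linarith
      have h3 : (#(S.erase 0) : ℝ) ≤
          #((Icc 1 L).filter fun m : ℕ => nd (G.eval (m : ℝ)) ≤ E / H) := by
        exact_mod_cast card_le_card h1
      have h4 : 2 ≤ L * c₁ := by rwa [div_le_iff₀ hc0] at hLr2
      rw [hδ]
      linarith)
  rw [← hE1] at hqE hq
  have hq0 : (0 : ℝ) < q := by exact_mod_cast hq1
  obtain ⟨r, hr⟩ : ∃ r : ℕ → ℤ, r = fun k => round ((q : ℝ) * G.coeff k) := ⟨_, rfl⟩
  have hre : ∀ k, 1 ≤ k → k ≤ t → |G.coeff k - r k / q| ≤ E1 / (L : ℝ) ^ k := by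
    intro k hk1 hkt
    have h1 := hq k hk1 hkt
    have h2 : nd ((q : ℝ) * G.coeff k) = |(q : ℝ) * G.coeff k - r k| := by rw [hr]; rfl
    rw [h2] at h1
    have h3 : G.coeff k - r k / q = ((q : ℝ) * G.coeff k - r k) / q := by field_simp
    rw [h3, abs_div, abs_of_pos hq0]
    refine (div_le_self (abs_nonneg _) ?_).trans h1
    exact_mod_cast hq1
  -- the integers of the good points
  obtain ⟨w, hw⟩ : ∃ w : ℕ → ℤ, w = fun j : ℕ => (q : ℤ) * round (G.eval (j : ℝ)) -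
    ∑ k ∈ Icc 1 t, r k * (j : ℤ) ^ k := ⟨_, rfl⟩
  have hsplit : ∀ f : ℕ → ℝ, ∑ k ∈ range (t + 1), f k = f 0 + ∑ k ∈ Icc 1 t, f k := by
    intro f
    have h : range (t + 1) = insert 0 (Icc 1 t) := by
      ext k
      rw [mem_range, mem_insert, mem_Icc]
      omega
    rw [h, sum_insert (by rw [mem_Icc]; omega)]
  have hwK : ∀ j ∈ S, |(q : ℝ) * G.coeff 0 - w j| ≤ K := by
    intro j hj
    rw [hS, mem_filter, mem_range] at hj
    have hj1 : (j : ℝ) ≤ L := by exact_mod_cast hj.1.le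
    have hj2 : |G.eval (j : ℝ) - round (G.eval (j : ℝ))| ≤ E / H := hj.2
    have h1 : (q : ℝ) * G.coeff 0 - w j = q * (G.eval (j : ℝ) - round (G.eval (j : ℝ))) -
        q * ∑ k ∈ Icc 1 t, (G.coeff k - r k / q) * (j : ℝ) ^ k := by
      have h2 := eval_split hGd (j : ℝ)
      rw [hsplit] at h2
      rw [hw]
      push_cast
      rw [h2]
      simp only [sub_mul, sum_sub_distrib, pow_zero, mul_one]
      have h3 : (q : ℝ) * ∑ k ∈ Icc 1 t, (r k : ℝ) / q * (j : ℝ) ^ k =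
          ∑ k ∈ Icc 1 t, (r k : ℝ) * (j : ℝ) ^ k := by
        rw [mul_sum]
        exact sum_congr rfl fun k _ => by field_simp
      rw [mul_sub (q : ℝ) (∑ k ∈ Icc 1 t, G.coeff k * (j : ℝ) ^ k), h3]
      ring
    have h4 : |∑ k ∈ Icc 1 t, (G.coeff k - r k / q) * (j : ℝ) ^ k| ≤ t * E1 := by
      refine (abs_sum_le_sum_abs _ _).trans ?_
      have h5 : ∀ k ∈ Icc 1 t, |(G.coeff k - r k / q) * (j : ℝ) ^ k| ≤ E1 := by
        intro k hk
        rw [mem_Icc] at hk
        rw [abs_mul, abs_of_nonneg (by positivity : (0 : ℝ) ≤ (j : ℝ) ^ k)]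
        have h6 := hre k hk.1 hk.2
        have h7 : (j : ℝ) ^ k ≤ (L : ℝ) ^ k := pow_le_pow_left₀ (by positivity) hj1 k
        calc |G.coeff k - r k / q| * (j : ℝ) ^ k ≤ E1 / (L : ℝ) ^ k * (L : ℝ) ^ k :=
              mul_le_mul h6 h7 (by positivity) (by positivity)
          _ = E1 := by field_simp
      refine (sum_le_card_nsmul _ _ _ h5).trans (le_of_eq ?_)
      simp
    rw [h1]
    refine (abs_sub _ _).trans ?_
    rw [abs_mul, abs_mul, abs_of_pos hq0, hK]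
    have h8 : E / H ≤ E := div_le_self hE.le hH1
    have h9 : (q : ℝ) * |G.eval (j : ℝ) - round (G.eval (j : ℝ))| ≤ E1 * E :=
      mul_le_mul hqE (hj2.trans h8) (abs_nonneg _) hE10.le
    have h10 : (q : ℝ) * |∑ k ∈ Icc 1 t, (G.coeff k - r k / q) * (j : ℝ) ^ k| ≤
        E1 * (t * E1) := mul_le_mul hqE h4 (abs_nonneg _) hE10.le
    linarith
  obtain ⟨v, hv⟩ := pigeon S w _ K (c2 * L) hK0 hSne hwK (by
    have h1 : (2 * K + 1) * (c2 * L) = c₁ * L := by rw [hc2]; field_simp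
    rw [h1]
    exact hScard) (by positivity)
  -- the small polynomial
  obtain ⟨s, hs⟩ : ∃ s : ℕ → ℤ, s = fun k => if k = 0 then v else r k := ⟨_, rfl⟩
  have hfe : ∀ j : ℕ, w j = v → (mk t fun k => G.coeff k - s k / q).eval (j : ℝ) =
      G.eval (j : ℝ) - round (G.eval (j : ℝ)) := by
    intro j hj
    rw [mk_eval, eval_split hGd (j : ℝ)]
    have h1 : ∑ k ∈ range (t + 1), (G.coeff k - (s k : ℝ) / q) * (j : ℝ) ^ k =
        ∑ k ∈ range (t + 1), G.coeff k * (j : ℝ) ^ k -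
          (∑ k ∈ range (t + 1), (s k : ℝ) * (j : ℝ) ^ k) / q := by
      rw [sum_div, ← sum_sub_distrib]
      exact sum_congr rfl fun k _ => by field_simp
    rw [h1, ← eval_split hGd (j : ℝ)]
    congr 1
    rw [hsplit]
    have h2 : ∑ k ∈ Icc 1 t, (s k : ℝ) * (j : ℝ) ^ k =
        ∑ k ∈ Icc 1 t, (r k : ℝ) * (j : ℝ) ^ k := by
      refine sum_congr rfl fun k hk => ?_
      rw [mem_Icc] at hk
      rw [hs]
      simp only
      rw [if_neg (by omega)]
    have h3 : (s 0 : ℝ) = w j := by rw [hj, hs]; simp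
    rw [h2, h3, hw]
    push_cast
    field_simp
    ring
  have hlam := hlag L (mk t fun k => G.coeff k - s k / q) (E / H) hL1 (mk_deg _ _) (by positivity)
    (by
      refine hv.trans ?_
      have h1 : S.filter (fun j => w j = v) ⊆ (range L).filter fun j : ℕ =>
          |(mk t fun k => G.coeff k - s k / q).eval (j : ℝ)| ≤ E / H := by
        intro j hj
        rw [mem_filter] at hj
        have h2 := hj.1
        rw [hS, mem_filter] at h2
        rw [mem_filter]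
        refine ⟨h2.1, ?_⟩
        rw [hfe j hj.2]
        exact h2.2
      exact_mod_cast card_le_card h1)
  -- the conclusion
  obtain ⟨k, rfl⟩ : ∃ k, i = k + 1 := ⟨i - 1, by omega⟩
  have h1 := hlam k (by omega)
  rw [mk_coeff _ _ (by omega : k ≤ t)] at h1
  have h2 : |G.coeff k - s k / q| ≤ E2 * E / (L : ℝ) ^ (k + 1) := by
    rw [le_div_iff₀ (by positivity), pow_succ, ← mul_assoc]
    calc |G.coeff k - s k / q| * (L : ℝ) ^ k * L ≤ E2 * (E / H) * L :=
          mul_le_mul_of_nonneg_right h1 hL0.le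
      _ = E2 * E * (L / H) := by ring
      _ ≤ E2 * E * 1 := by
          refine mul_le_mul_of_nonneg_left ?_ (by positivity)
          rw [div_le_one hH0]
          exact hHL
      _ = E2 * E := mul_one _
  obtain ⟨a, ha⟩ : (k + 1) ∣ t.factorial := Nat.dvd_factorial (by omega) hit
  obtain ⟨b, hb⟩ : q ∣ N.factorial := Nat.dvd_factorial (by omega) (by
    rw [hN]
    exact Nat.le_floor hqE)
  have h3 : ((t.factorial * qs * N.factorial : ℕ) : ℝ) * (taylor m₀ D).coeff (k + 1) =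
      ((a * b * s k : ℤ) : ℝ) + a * N.factorial * (G.coeff k - s k / q) := by
    rw [hGc k]
    have hb' : (N.factorial : ℝ) = q * b := by exact_mod_cast hb
    have ha' : (t.factorial : ℝ) = (k + 1) * a := by exact_mod_cast ha
    push_cast
    rw [hb', ha']
    field_simp
    ring
  rw [h3, nd_int_add]
  refine (nd_le_abs _).trans ?_
  rw [abs_mul, abs_of_nonneg (by positivity : (0 : ℝ) ≤ a * N.factorial), mul_div_assoc]
  have ha2 : (a : ℝ) ≤ t.factorial := by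
    have : a ≤ t.factorial := Nat.le_of_dvd (Nat.factorial_pos _) ⟨k + 1, by rw [ha]; ring⟩
    exact_mod_cast this
  exact mul_le_mul (mul_le_mul_of_nonneg_right ha2 (by positivity)) h2 (abs_nonneg _)
    (by positivity)

end Pool.Agent.VQ
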