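import Mathlib
import Pool.Agent.Lib.VQ.Defs
import Pool.Agent.Lib.MP_663568_nt.Poly

/-!
# Row RED of Theorem VQ (MP_663568_nt): a family whose top coefficient is almost rational
-/

set_option autoImplicit false
open Finset MeasureTheory Polynomial

namespace Pool.Agent.VQ

open Pool.Agent.Lib.MP_663568_nt Pool.Agent.Lib.MP_663568_nt.Katai
  Pool.Agent.Lib.MP_663568_nt.Nul Pool.Agent.SV

namespace REDx

noncomputable section

lemma ee_nat_mul (b : ℕ) (x : ℝ) : ee (b * x) = ee x ^ b := by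
  induction b with
  | zero => simp [show ee 0 = 1 by simpa using ee_int 0]
  | succ b ih => rw [pow_succ, ← ih, ← ee_add]; congr 1; push_cast; ring

/-- Orthogonality. -/
lemma orth (q : ℕ) (hq : 1 ≤ q) (x y : ℕ) (hy : y < q) :
    ∑ b ∈ range q, ee ((b : ℝ) * (((x : ℝ) - y) / q)) = if x % q = y then (q : ℂ) else 0 := by
  have hq' : (q : ℝ) ≠ 0 := by exact_mod_cast (by omega : q ≠ 0)
  simp_rw [ee_nat_mul]
  split_ifs with h
  · have : ee (((x : ℝ) - y) / q) = 1 := by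
      rw [ee_eq_one_iff]
      refine ⟨((x / q : ℕ) : ℤ), ?_⟩
      have h1 : (x : ℝ) = q * ((x / q : ℕ) : ℝ) + y := by
        have := Nat.div_add_mod x q
        rw [h] at this
        exact_mod_cast this.symm
      rw [h1, add_sub_cancel_right, mul_div_cancel_left₀ _ hq']
      push_cast; rfl
    rw [this]; simp
  · have hne : ee (((x : ℝ) - y) / q) ≠ 1 := by
      intro h1
      rw [ee_eq_one_iff] at h1
      obtain ⟨n, hn⟩ := h1
      have h2 : (x : ℝ) - y = n * q := by rw [← hn]; field_simp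
      have h3 : (x : ℤ) - y = n * q := by exact_mod_cast h2
      apply h
      have h4 : (x : ℤ) % q = y := by
        have : (x : ℤ) = y + q * n := by linarith
        rw [this, Int.add_mul_emod_self_left]
        exact Int.emod_eq_of_lt (by omega) (by omega)
      exact_mod_cast h4
    rw [geom_sum_eq hne, ← ee_nat_mul]
    have : ee ((q : ℝ) * (((x : ℝ) - y) / q)) = 1 := by
      rw [show (q : ℝ) * (((x : ℝ) - y) / q) = (((x : ℤ) - (y : ℤ) : ℤ) : ℝ) by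
        push_cast; field_simp]
      exact ee_int _
    rw [this]; simp

/-- Fourier expansion of a periodic function. -/
lemma fourier (q : ℕ) (hq : 1 ≤ q) (f : ℕ → ℂ) (hf : ∀ x, f (x % q) = f x) (hf1 : ∀ x, ‖f x‖ ≤ 1) :
    ∃ c : ℕ → ℂ, (∀ b, ‖c b‖ ≤ 1) ∧ ∀ x, f x = ∑ b ∈ range q, c b * ee ((b : ℝ) * x / q) := by
  have hq' : (q : ℂ) ≠ 0 := by exact_mod_cast (by omega : q ≠ 0)
  refine ⟨fun b => (1 / (q : ℂ)) * ∑ y ∈ range q, f y * ee (-((b : ℝ) * y / q)), fun b => ?_,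
    fun x => ?_⟩
  · rw [norm_mul]
    have h1 : ‖∑ y ∈ range q, f y * ee (-((b : ℝ) * y / q))‖ ≤ q := by
      refine (norm_sum_le _ _).trans ?_
      refine (sum_le_sum (g := fun _ => (1 : ℝ)) fun y _ => ?_).trans (by simp)
      rw [norm_mul, norm_ee, mul_one]; exact hf1 y
    have h2 : ‖(1 / (q : ℂ))‖ = 1 / (q : ℝ) := by simp
    rw [h2]
    have h3 : (0 : ℝ) < q := by exact_mod_cast hq
    rw [div_mul_eq_mul_div, one_mul, div_le_one h3]; exact h1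
  · have h1 : ∑ b ∈ range q, (1 / (q : ℂ)) * (∑ y ∈ range q, f y * ee (-((b : ℝ) * y / q))) *
        ee ((b : ℝ) * x / q) = (1 / (q : ℂ)) * ∑ y ∈ range q, f y *
          ∑ b ∈ range q, ee ((b : ℝ) * (((x : ℝ) - y) / q)) := by
      rw [mul_sum]
      simp_rw [mul_sum, sum_mul]
      rw [sum_comm]
      refine sum_congr rfl fun y _ => sum_congr rfl fun b _ => ?_
      rw [show (b : ℝ) * (((x : ℝ) - y) / q) = -((b : ℝ) * y / q) + (b : ℝ) * x / q by ring,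
        ee_add]
      ring
    rw [h1]
    have h2 : ∑ y ∈ range q, f y * ∑ b ∈ range q, ee ((b : ℝ) * (((x : ℝ) - y) / q)) =
        ∑ y ∈ range q, if y = x % q then f y * q else 0 := by
      refine sum_congr rfl fun y hy => ?_
      rw [orth q hq x y (mem_range.1 hy)]
      by_cases h : x % q = y
      · rw [if_pos h, if_pos h.symm]
      · rw [if_neg h, if_neg (fun h' => h h'.symm), mul_zero]
    rw [h2, sum_ite_eq' (range q) (x % q) fun y => f y * (q : ℂ),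
      if_pos (mem_range.2 (Nat.mod_lt _ hq)), hf x]
    field_simp

lemma taylor_pow (t : ℕ) (m h : ℝ) (hm : 0 ≤ m) (hh : 0 ≤ h) (hhm : h ≤ m) :
    0 ≤ (m + h) ^ (t + 2) - m ^ (t + 2) - (t + 2) * m ^ (t + 1) * h ∧
      (m + h) ^ (t + 2) - m ^ (t + 2) - (t + 2) * m ^ (t + 1) * h ≤ 4 ^ (t + 2) * (m ^ t * h ^ 2) := by
  induction t with
  | zero =>
    constructor
    · norm_num; nlinarith [sq_nonneg h]
    · norm_num; nlinarith [sq_nonneg h]
  | succ t ih =>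
    have e : (m + h) ^ (t + 1 + 2) - m ^ (t + 1 + 2) - ((t + 1 : ℕ) + 2) * m ^ (t + 1 + 1) * h =
        (m + h) * ((m + h) ^ (t + 2) - m ^ (t + 2) - (t + 2) * m ^ (t + 1) * h) +
          (t + 2) * (m ^ (t + 1) * h ^ 2) := by
      push_cast; ring
    rw [e]
    obtain ⟨h1, h2⟩ := ih
    have hp : 0 ≤ m ^ (t + 1) * h ^ 2 := by positivity
    constructor
    · have := mul_nonneg (add_nonneg hm hh) h1
      positivity
    · have h3 : (m + h) * ((m + h) ^ (t + 2) - m ^ (t + 2) - (t + 2) * m ^ (t + 1) * h) ≤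
          (2 * m) * (4 ^ (t + 2) * (m ^ t * h ^ 2)) :=
        mul_le_mul (by linarith) h2 h1 (by linarith)
      have h4 : (2 * m) * (4 ^ (t + 2) * (m ^ t * h ^ 2)) = 2 * 4 ^ (t + 2) * (m ^ (t + 1) * h ^ 2) := by
        ring
      have h5 : (2 * 4 ^ (t + 2) + ((t : ℝ) + 2)) ≤ 4 ^ (t + 1 + 2) := by
        have : ((t : ℝ) + 2) ≤ 4 ^ (t + 2) := by
          have h6 : t + 2 < 4 ^ (t + 2) := Nat.lt_pow_self (by norm_num)
          exact_mod_cast h6.le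
        have h7 : (4 : ℝ) ^ (t + 1 + 2) = 4 * 4 ^ (t + 2) := by ring
        have h8 : (0 : ℝ) < 4 ^ (t + 2) := by positivity
        rw [h7]; linarith
      calc _ ≤ 2 * 4 ^ (t + 2) * (m ^ (t + 1) * h ^ 2) + (t + 2) * (m ^ (t + 1) * h ^ 2) := by
            rw [← h4]; linarith
        _ = (2 * 4 ^ (t + 2) + ((t : ℝ) + 2)) * (m ^ (t + 1) * h ^ 2) := by ring
        _ ≤ 4 ^ (t + 1 + 2) * (m ^ (t + 1) * h ^ 2) := mul_le_mul_of_nonneg_right h5 hp

/-- The frozen value of `m`. -/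
def y0 (K : ℕ) (m : ℕ) : ℝ := Real.exp ((⌊(K : ℝ) * Real.log m⌋₊ : ℝ) / K)

lemma y0_le (K m : ℕ) (hK : 1 ≤ K) (hm : 1 ≤ m) : y0 K m ≤ m := by
  have hK' : (0 : ℝ) < K := by exact_mod_cast hK
  have hm' : (1 : ℝ) ≤ m := by exact_mod_cast hm
  have h1 : (⌊(K : ℝ) * Real.log m⌋₊ : ℝ) ≤ K * Real.log m :=
    Nat.floor_le (mul_nonneg hK'.le (Real.log_nonneg hm'))
  calc y0 K m ≤ Real.exp (Real.log m) := by
        apply Real.exp_le_exp.2
        rw [div_le_iff₀ hK']; linarith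
    _ = m := Real.exp_log (by linarith)

lemma le_y0 (K m : ℕ) (hK : 1 ≤ K) (hm : 1 ≤ m) : (m : ℝ) * Real.exp (-(1 / K)) ≤ y0 K m := by
  have hK' : (0 : ℝ) < K := by exact_mod_cast hK
  have hm' : (1 : ℝ) ≤ m := by exact_mod_cast hm
  have h1 : (K : ℝ) * Real.log m < ⌊(K : ℝ) * Real.log m⌋₊ + 1 := Nat.lt_floor_add_one _
  have h2 : (m : ℝ) * Real.exp (-(1 / K)) = Real.exp (Real.log m + -(1 / K)) := by
    rw [Real.exp_add, Real.exp_log (by linarith)]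
  rw [h2]
  apply Real.exp_le_exp.2
  rw [le_div_iff₀ hK']
  have : (Real.log m + -(1 / (K : ℝ))) * K = K * Real.log m - 1 := by field_simp; ring
  rw [this]; linarith

lemma pow_y0 (K m s : ℕ) (hK : 1 ≤ K) (hm : 1 ≤ m) :
    |(m : ℝ) ^ s - y0 K m ^ s| ≤ (m : ℝ) ^ s * (s / K) := by
  have hm' : (0 : ℝ) < m := by exact_mod_cast hm
  have hy : 0 < y0 K m := Real.exp_pos _
  have h1 : y0 K m ^ s ≤ (m : ℝ) ^ s := pow_le_pow_left₀ hy.le (y0_le K m hK hm) s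
  rw [abs_of_nonneg (by linarith)]
  have h2 : ((m : ℝ) * Real.exp (-(1 / K))) ^ s ≤ y0 K m ^ s :=
    pow_le_pow_left₀ (by positivity) (le_y0 K m hK hm) s
  rw [mul_pow, ← Real.exp_nat_mul] at h2
  have h3 : 1 - (s : ℝ) / K ≤ Real.exp ((s : ℝ) * -(1 / K)) := by
    have := Real.add_one_le_exp ((s : ℝ) * -(1 / K))
    refine le_trans (le_of_eq ?_) this
    ring
  have h4 := mul_le_mul_of_nonneg_left h3 (by positivity : (0 : ℝ) ≤ (m : ℝ) ^ s)
  nlinarith [h4, h2]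

/-- The rational part of the coefficient. -/
def jj (t Qs : ℕ) (P : ℝ[X]) : ℤ := round ((Qs : ℝ) * P.coeff t)

def th (t Qs : ℕ) (P : ℝ[X]) : ℝ := P.coeff t - jj t Qs P / Qs

lemma th_le (t Qs : ℕ) (hQ : 1 ≤ Qs) (P : ℝ[X]) (j : ℤ) : |th t Qs P| ≤ |P.coeff t - j / Qs| := by
  have hQ' : (0 : ℝ) < Qs := by exact_mod_cast hQ
  have h1 := round_le ((Qs : ℝ) * P.coeff t) j
  have e : ∀ i : ℝ, |P.coeff t - i / Qs| = |(Qs : ℝ) * P.coeff t - i| / Qs := by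
    intro i
    rw [← abs_of_pos hQ', ← abs_div, abs_of_pos hQ']
    congr 1
    field_simp
  rw [th, e, e]
  exact div_le_div_of_nonneg_right h1 hQ'.le

/-- The family of lower degree. -/
def Rb (t Qs : ℕ) (P : ℝ[X]) (y : ℝ) (b : ℕ) : ℝ[X] :=
  (P - C (P.coeff t) * X ^ t) + C ((t : ℝ) * th t Qs P * y ^ (t - 1) + b / Qs) * X

lemma Rb_deg (t Qs : ℕ) (ht : 2 ≤ t) (P : ℝ[X]) (hP : P.natDegree ≤ t) (y : ℝ) (b : ℕ) :
    (Rb t Qs P y b).natDegree ≤ t - 1 := by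
  refine (natDegree_add_le _ _).trans (max_le ?_ ?_)
  · rw [natDegree_le_iff_coeff_eq_zero]
    intro N hN
    rw [coeff_sub, coeff_C_mul, coeff_X_pow]
    rcases eq_or_lt_of_le (show t ≤ N by omega) with h | h
    · rw [← h]; simp
    · rw [coeff_eq_zero_of_natDegree_lt (by omega), if_neg (by omega)]; simp
  · refine (natDegree_C_mul_le _ _).trans ?_
    rw [natDegree_X]; omega

lemma Rb_eval (t Qs : ℕ) (P : ℝ[X]) (y : ℝ) (b : ℕ) (x : ℝ) : (Rb t Qs P y b).eval x =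
    P.eval x - P.coeff t * x ^ t + ((t : ℝ) * th t Qs P * y ^ (t - 1) + b / Qs) * x := by
  simp [Rb]

/-- The main estimate at one `m`. -/
lemma one (t Qs l m K : ℕ) (ht : 2 ≤ t) (hQ : 1 ≤ Qs) (hl : 1 ≤ l) (hm : l ≤ m) (hK : 1 ≤ K)
    (P : ℝ[X]) (Θ : ℝ) (hΘ : |th t Qs P| * (m : ℝ) ^ (t - 1) ≤ Θ) :
    Wp l m P ≤ ∑ b ∈ range Qs, Wp l m (Rb t Qs P (y0 K m) b) +
      2 * Real.pi * (Θ * (4 ^ t * l ^ 2 / m + t ^ 2 * l / K)) := by
  have hl' : (0 : ℝ) < l := by exact_mod_cast hl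
  have hm' : (0 : ℝ) < m := by exact_mod_cast (by omega : 0 < m)
  have hK' : (0 : ℝ) < K := by exact_mod_cast hK
  have hQ' : (0 : ℝ) < Qs := by exact_mod_cast hQ
  have hΘ0 : 0 ≤ Θ := le_trans (by positivity) hΘ
  set θ := th t Qs P with hθ
  set j := jj t Qs P with hj
  have hc : P.coeff t = j / Qs + θ := by rw [hθ, th]; ring
  set τ : ℝ := (t : ℝ) * θ * y0 K m ^ (t - 1) with hτ
  -- the error of the phase
  have herr : ∀ h : ℕ, 1 ≤ h → h ≤ l →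
      |θ * ((m : ℝ) + h) ^ t - (θ * (m : ℝ) ^ t + τ * h)| ≤
        Θ * (4 ^ t * l ^ 2 / m + t ^ 2 * l / K) := by
    intro h h1 h2
    have hh : (h : ℝ) ≤ l := by exact_mod_cast h2
    have hh0 : (0 : ℝ) < h := by exact_mod_cast h1
    obtain ⟨s, rfl⟩ : ∃ s, t = s + 2 := ⟨t - 2, by omega⟩
    have hlm : (l : ℝ) ≤ m := by exact_mod_cast hm
    obtain ⟨a1, a2⟩ := taylor_pow s m h hm'.le hh0.le (hh.trans hlm)
    have e1 : s + 2 - 1 = s + 1 := by omega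
    rw [e1] at hτ hΘ
    have e2 : θ * ((m : ℝ) + h) ^ (s + 2) - (θ * (m : ℝ) ^ (s + 2) + τ * h) =
        θ * (((m : ℝ) + h) ^ (s + 2) - (m : ℝ) ^ (s + 2) - ((s : ℝ) + 2) * (m : ℝ) ^ (s + 1) * h) +
          ((s : ℝ) + 2) * h * (θ * ((m : ℝ) ^ (s + 1) - y0 K m ^ (s + 1))) := by
      rw [hτ]; push_cast; ring
    rw [e2]
    refine (abs_add_le _ _).trans ?_
    have b1 : |θ * (((m : ℝ) + h) ^ (s + 2) - (m : ℝ) ^ (s + 2) -
        ((s : ℝ) + 2) * (m : ℝ) ^ (s + 1) * h)| ≤ Θ * (4 ^ (s + 2) * l ^ 2 / m) := by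
      rw [abs_mul, abs_of_nonneg a1]
      calc |θ| * (((m : ℝ) + h) ^ (s + 2) - (m : ℝ) ^ (s + 2) -
            ((s : ℝ) + 2) * (m : ℝ) ^ (s + 1) * h)
          ≤ |θ| * (4 ^ (s + 2) * ((m : ℝ) ^ s * h ^ 2)) :=
            mul_le_mul_of_nonneg_left a2 (abs_nonneg _)
        _ = (|θ| * (m : ℝ) ^ (s + 1)) * (4 ^ (s + 2) * h ^ 2 / m) := by
            rw [pow_succ (m : ℝ) s]; field_simp
        _ ≤ Θ * (4 ^ (s + 2) * l ^ 2 / m) := by
            apply mul_le_mul hΘ _ (by positivity) hΘ0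
            apply div_le_div_of_nonneg_right _ hm'.le
            apply mul_le_mul_of_nonneg_left _ (by positivity)
            exact pow_le_pow_left₀ hh0.le hh 2
    have b2 : |((s : ℝ) + 2) * h * (θ * ((m : ℝ) ^ (s + 1) - y0 K m ^ (s + 1)))| ≤
        Θ * (((s + 2 : ℕ) : ℝ) ^ 2 * l / K) := by
      rw [abs_mul, abs_of_nonneg (by positivity : (0 : ℝ) ≤ ((s : ℝ) + 2) * h), abs_mul]
      have := pow_y0 K m (s + 1) hK (by omega)
      calc ((s : ℝ) + 2) * h * (|θ| * |(m : ℝ) ^ (s + 1) - y0 K m ^ (s + 1)|)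
          ≤ ((s : ℝ) + 2) * h * (|θ| * ((m : ℝ) ^ (s + 1) * (((s + 1 : ℕ) : ℝ) / K))) := by
            apply mul_le_mul_of_nonneg_left _ (by positivity)
            exact mul_le_mul_of_nonneg_left this (abs_nonneg _)
        _ = (|θ| * (m : ℝ) ^ (s + 1)) * (((s : ℝ) + 2) * ((s + 1 : ℕ) : ℝ) * h / K) := by ring
        _ ≤ Θ * (((s + 2 : ℕ) : ℝ) ^ 2 * l / K) := by
            apply mul_le_mul hΘ _ (by positivity) hΘ0
            apply div_le_div_of_nonneg_right _ hK'.le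
            push_cast
            apply mul_le_mul _ hh hh0.le (by positivity)
            nlinarith [(Nat.cast_nonneg s : (0 : ℝ) ≤ s)]
    rw [mul_add]
    exact add_le_add b1 b2
  -- Fourier expansion
  obtain ⟨c, hc1, hcx⟩ := fourier Qs hQ (fun x : ℕ => ee ((j : ℝ) * (x : ℝ) ^ t / Qs))
    (fun x => by
      have hx : (x : ℝ) = Qs * ((x / Qs : ℕ) : ℝ) + ((x % Qs : ℕ) : ℝ) := by
        exact_mod_cast (Nat.div_add_mod x Qs).symm
      obtain ⟨w, hw⟩ : ∃ w : ℕ, x ^ t = (x % Qs) ^ t + Qs * w := by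
        have h1 : (x % Qs) ^ t ≡ x ^ t [MOD Qs] := (Nat.mod_modEq x Qs).pow t
        have h2 : (x % Qs) ^ t ≤ x ^ t := Nat.pow_le_pow_left (Nat.mod_le _ _) _
        obtain ⟨w, hw⟩ := (Nat.modEq_iff_dvd' h2).1 h1
        exact ⟨w, by omega⟩
      have hw' : (x : ℝ) ^ t = ((x % Qs : ℕ) : ℝ) ^ t + Qs * w := by exact_mod_cast hw
      show ee _ = ee _
      rw [hw', show (j : ℝ) * (((x % Qs : ℕ) : ℝ) ^ t + Qs * w) / Qs =
        (j : ℝ) * ((x % Qs : ℕ) : ℝ) ^ t / Qs + ((j * w : ℤ) : ℝ) by push_cast; field_simp,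
        ee_add, ee_int, mul_one])
    (fun x => by rw [norm_ee])
  -- the sum
  set g : ℝ := θ * (m : ℝ) ^ t - τ * m with hg
  have hdec : ∀ h : ℕ, ee (P.eval ((m : ℝ) + h)) =
      ee g * (∑ b ∈ range Qs, c b * ee ((Rb t Qs P (y0 K m) b).eval ((m : ℝ) + h))) *
        ee (θ * ((m : ℝ) + h) ^ t - (θ * (m : ℝ) ^ t + τ * h)) := by
    intro h
    have h1 : ∑ b ∈ range Qs, c b * ee ((Rb t Qs P (y0 K m) b).eval ((m : ℝ) + h)) =
        ee (P.eval ((m : ℝ) + h) - P.coeff t * ((m : ℝ) + h) ^ t + τ * ((m : ℝ) + h)) *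
          ee ((j : ℝ) * (((m + h : ℕ) : ℝ)) ^ t / Qs) := by
      rw [hcx (m + h), mul_sum]
      refine sum_congr rfl fun b _ => ?_
      rw [Rb_eval, mul_left_comm, ← ee_add]
      congr 2
      push_cast; ring
    rw [h1, ← ee_add, ← ee_add, ← ee_add]
    congr 1
    rw [hc, hg]
    push_cast; ring
  have hmain : ‖∑ h ∈ Icc 1 l, muC (m + h) * ee (P.eval ((m : ℝ) + h))‖ ≤
      ∑ b ∈ range Qs, ‖∑ h ∈ Icc 1 l, muC (m + h) *
        ee ((Rb t Qs P (y0 K m) b).eval ((m : ℝ) + h))‖ +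
        l * (2 * Real.pi * (Θ * (4 ^ t * l ^ 2 / m + t ^ 2 * l / K))) := by
    have h1 : ∑ h ∈ Icc 1 l, muC (m + h) * ee (P.eval ((m : ℝ) + h)) =
        ee g * ∑ b ∈ range Qs, c b * ∑ h ∈ Icc 1 l, muC (m + h) *
          ee ((Rb t Qs P (y0 K m) b).eval ((m : ℝ) + h)) +
        ∑ h ∈ Icc 1 l, muC (m + h) * (ee (P.eval ((m : ℝ) + h)) -
          ee g * ∑ b ∈ range Qs, c b * ee ((Rb t Qs P (y0 K m) b).eval ((m : ℝ) + h))) := by
      simp_rw [mul_sub, sum_sub_distrib]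
      have : ∑ h ∈ Icc 1 l, muC (m + h) * (ee g *
          ∑ b ∈ range Qs, c b * ee ((Rb t Qs P (y0 K m) b).eval ((m : ℝ) + h))) =
          ee g * ∑ b ∈ range Qs, c b * ∑ h ∈ Icc 1 l, muC (m + h) *
          ee ((Rb t Qs P (y0 K m) b).eval ((m : ℝ) + h)) := by
        simp_rw [mul_sum]
        rw [sum_comm]
        refine sum_congr rfl fun b _ => sum_congr rfl fun h _ => ?_
        ring
      rw [this]; ring
    rw [h1]
    refine (norm_add_le _ _).trans (add_le_add ?_ ?_)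
    · rw [norm_mul, norm_ee, one_mul]
      refine (norm_sum_le _ _).trans (sum_le_sum fun b _ => ?_)
      rw [norm_mul]
      exact mul_le_of_le_one_left (norm_nonneg _) (hc1 b)
    · refine (norm_sum_le _ _).trans ?_
      refine (sum_le_sum (g := fun _ => 2 * Real.pi *
        (Θ * (4 ^ t * l ^ 2 / m + t ^ 2 * l / K))) fun h hh => ?_).trans (by simp)
      rw [mem_Icc] at hh
      rw [norm_mul]
      refine (mul_le_of_le_one_left (norm_nonneg _) (norm_muC _)).trans ?_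
      set G := ee g * ∑ b ∈ range Qs, c b * ee ((Rb t Qs P (y0 K m) b).eval ((m : ℝ) + h))
      set D := θ * ((m : ℝ) + h) ^ t - (θ * (m : ℝ) ^ t + τ * h)
      have h2 : ee (P.eval ((m : ℝ) + h)) = G * ee D := hdec h
      have h3 : ‖G‖ = 1 := by
        have := congrArg norm h2
        rw [norm_mul, norm_ee, norm_ee, mul_one] at this
        exact this.symm
      rw [h2, show G * ee D - G = G * (ee D - 1) by ring, norm_mul, h3, one_mul]
      refine (norm_ee_sub_one_le D).trans ?_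
      exact mul_le_mul_of_nonneg_left (herr h hh.1 hh.2) (by positivity)
  unfold Wp
  rw [← sum_div, div_add' _ _ _ hl'.ne']
  apply div_le_div_of_nonneg_right _ hl'.le
  refine hmain.trans (le_of_eq ?_)
  ring

/-- The changes of a monotone function. -/
lemma changes (f : ℕ → ℕ) (hf : Monotone f) (a b : ℕ) (hab : a ≤ b) :
    #((Ico a b).filter fun n => f (n + 1) ≠ f n) + f a ≤ f b := by
  rw [card_filter]
  induction b, hab using Nat.le_induction with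
  | base => simp
  | succ b hab ih =>
    rw [sum_Ico_succ_top hab]
    have := hf (Nat.le_succ b)
    split_ifs with h
    · have h2 : f b < f (b + 1) := lt_of_le_of_ne this (Ne.symm h)
      omega
    · omega

/-- The number of the changes of the family. -/
lemma slow (t Qs K b : ℕ) (Q : ℕ → ℝ[X]) (S : ℝ) (hS : SlowP Q S) :
    SlowP (fun m => Rb t Qs (Q m) (y0 K m) b) (S + K + 1) := by
  intro j
  have h1 := hS j
  have hmono : Monotone (fun m : ℕ => ⌊(K : ℝ) * Real.log m⌋₊) := by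
    intro m m' hmm
    rcases Nat.eq_zero_or_pos m with h | h
    · subst h; simp
    · apply Nat.floor_mono
      apply mul_le_mul_of_nonneg_left _ (Nat.cast_nonneg K)
      exact Real.log_le_log (by exact_mod_cast h) (by exact_mod_cast hmm)
  have h2 := changes _ hmono (2 ^ j) (2 ^ (j + 1)) (Nat.pow_le_pow_right (by norm_num) (by omega))
  have h3 : (⌊(K : ℝ) * Real.log ((2 ^ (j + 1) : ℕ) : ℝ)⌋₊ : ℝ) ≤
      ⌊(K : ℝ) * Real.log ((2 ^ j : ℕ) : ℝ)⌋₊ + K + 1 := by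
    have a1 : (⌊(K : ℝ) * Real.log ((2 ^ (j + 1) : ℕ) : ℝ)⌋₊ : ℝ) ≤
        (K : ℝ) * Real.log ((2 ^ (j + 1) : ℕ) : ℝ) :=
      Nat.floor_le (mul_nonneg (Nat.cast_nonneg K) (Real.log_natCast_nonneg _))
    have a2 : (K : ℝ) * Real.log ((2 ^ j : ℕ) : ℝ) <
        ⌊(K : ℝ) * Real.log ((2 ^ j : ℕ) : ℝ)⌋₊ + 1 := Nat.lt_floor_add_one _
    have a3 : Real.log ((2 ^ (j + 1) : ℕ) : ℝ) = Real.log ((2 ^ j : ℕ) : ℝ) + Real.log 2 := by
      push_cast
      rw [Real.log_pow, Real.log_pow]; push_cast; ring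
    have a4 : (K : ℝ) * Real.log 2 ≤ K := by
      have : Real.log 2 ≤ 1 := by linarith [Real.log_two_lt_d9]
      nlinarith [(Nat.cast_nonneg K : (0 : ℝ) ≤ K)]
    have a5 : (K : ℝ) * Real.log ((2 ^ (j + 1) : ℕ) : ℝ) =
        (K : ℝ) * Real.log ((2 ^ j : ℕ) : ℝ) + K * Real.log 2 := by rw [a3]; ring
    linarith
  classical
  have h4 : ((Ico (2 ^ j) (2 ^ (j + 1))).filter fun n : ℕ =>
      Rb t Qs (Q (n + 1)) (y0 K (n + 1)) b ≠ Rb t Qs (Q n) (y0 K n) b) ⊆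
      ((Ico (2 ^ j) (2 ^ (j + 1))).filter fun n : ℕ => Q (n + 1) ≠ Q n) ∪
      ((Ico (2 ^ j) (2 ^ (j + 1))).filter fun n : ℕ =>
        ⌊(K : ℝ) * Real.log ((n + 1 : ℕ) : ℝ)⌋₊ ≠ ⌊(K : ℝ) * Real.log (n : ℝ)⌋₊) := by
    intro n hn
    rw [mem_filter] at hn
    rw [mem_union, mem_filter, mem_filter]
    by_contra hcon
    push Not at hcon
    have c1 := hcon.1 hn.1
    have c2 := hcon.2 hn.1
    apply hn.2
    rw [c1, y0, y0, c2]
  have h5 := (card_le_card h4).trans (card_union_le _ _)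
  have h6 : (#((Ico (2 ^ j) (2 ^ (j + 1))).filter fun n : ℕ =>
      Rb t Qs (Q (n + 1)) (y0 K (n + 1)) b ≠ Rb t Qs (Q n) (y0 K n) b) : ℝ) ≤
      #((Ico (2 ^ j) (2 ^ (j + 1))).filter fun n : ℕ => Q (n + 1) ≠ Q n) +
      #((Ico (2 ^ j) (2 ^ (j + 1))).filter fun n : ℕ =>
        ⌊(K : ℝ) * Real.log ((n + 1 : ℕ) : ℝ)⌋₊ ≠ ⌊(K : ℝ) * Real.log (n : ℝ)⌋₊) := by
    exact_mod_cast h5
  have h7 : (#((Ico (2 ^ j) (2 ^ (j + 1))).filter fun n : ℕ =>
        ⌊(K : ℝ) * Real.log ((n + 1 : ℕ) : ℝ)⌋₊ ≠ ⌊(K : ℝ) * Real.log (n : ℝ)⌋₊) : ℝ) +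
        (⌊(K : ℝ) * Real.log ((2 ^ j : ℕ) : ℝ)⌋₊ : ℝ) ≤
        (⌊(K : ℝ) * Real.log ((2 ^ (j + 1) : ℕ) : ℝ)⌋₊ : ℝ) := by
    exact_mod_cast h2
  have h8 : (#((Ico (2 ^ j) (2 ^ (j + 1))).filter fun n : ℕ => Q (n + 1) ≠ Q n) : ℝ) ≤ S := by
    convert h1
  have h9 : (#((Ico (2 ^ j) (2 ^ (j + 1))).filter fun n : ℕ =>
      Rb t Qs (Q (n + 1)) (y0 K (n + 1)) b ≠ Rb t Qs (Q n) (y0 K n) b) : ℝ) ≤ S + K + 1 := by
    linarith
  convert h9

lemma harm (a b : ℝ) (ha : 1 ≤ a) (hab : a ≤ b) :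
    ∑ m ∈ Ioc ⌊a⌋₊ ⌊b⌋₊, (1 / (m : ℝ)) ≤ Real.log b - Real.log a + 1 := by
  have key : ∀ n m : ℕ, 1 ≤ n → n ≤ m → ∑ i ∈ Ioc n m, (1 / (i : ℝ)) ≤ Real.log m - Real.log n := by
    intro n m hn hnm
    induction m, hnm using Nat.le_induction with
    | base => simp
    | succ m hm ih =>
      have hm' : (0 : ℝ) < m := by exact_mod_cast (by omega : 0 < m)
      rw [sum_Ioc_succ_top hm]
      have h1 := Real.one_sub_inv_le_log_of_pos (show (0 : ℝ) < ((m + 1 : ℕ) : ℝ) / m by positivity)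
      rw [Real.log_div (by positivity) hm'.ne'] at h1
      have h2 : 1 - (((m + 1 : ℕ) : ℝ) / m)⁻¹ = 1 / ((m + 1 : ℕ) : ℝ) := by
        push_cast; field_simp; ring
      rw [h2] at h1
      linarith
  have h1 : 1 ≤ ⌊a⌋₊ := Nat.one_le_iff_ne_zero.2 (Nat.floor_pos.2 ha).ne'
  have h2 : ⌊a⌋₊ ≤ ⌊b⌋₊ := Nat.floor_mono hab
  have h3 := key _ _ h1 h2
  have h4 : Real.log ⌊b⌋₊ ≤ Real.log b :=
    Real.log_le_log (by exact_mod_cast (by omega : 0 < ⌊b⌋₊)) (Nat.floor_le (by linarith))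
  have h5 : Real.log a ≤ Real.log ⌊a⌋₊ + 1 := by
    have h6 : a ≤ 2 * (⌊a⌋₊ : ℝ) := by
      have := Nat.lt_floor_add_one a
      have h7 : (1 : ℝ) ≤ ⌊a⌋₊ := by exact_mod_cast h1
      linarith
    have h7 : (0 : ℝ) < ⌊a⌋₊ := by exact_mod_cast h1
    have h8 := Real.log_le_log (by linarith) h6
    rw [Real.log_mul (by norm_num) h7.ne'] at h8
    linarith [Real.log_two_lt_d9]
  linarith

end

end REDx

open REDx in
theorem red : RED_stmt := by
  intro t Qs A B ε ht hQ hA hB hε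
  set C₀ : ℝ := 2 * Real.pi * (4 ^ t + t ^ 2) with hC₀
  have hC₀p : 0 < C₀ := by
    rw [hC₀]; have := Real.pi_pos; positivity
  refine ⟨A + B + 4, B + 3, max 4 ⌈C₀ / ε⌉₊, by linarith, by linarith, ?_⟩
  intro l hl xa xb hxa hxb Q hdeg hslow hco
  have hl4 : 4 ≤ l := le_trans (le_max_left _ _) hl
  have hl4' : (4 : ℝ) ≤ l := by exact_mod_cast hl4
  have hl0 : (0 : ℝ) < l := by linarith
  have hl1 : (1 : ℝ) ≤ l := by linarith
  have hlC : C₀ / ε ≤ l := (Nat.le_ceil _).trans (by exact_mod_cast (le_trans (le_max_right _ _) hl))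
  set K : ℕ := ⌈(l : ℝ) ^ (B + 2)⌉₊ with hK
  have hK1 : 1 ≤ K := by
    rw [hK, Nat.one_le_ceil_iff]; positivity
  have hKl : (l : ℝ) ^ (B + 2) ≤ K := Nat.le_ceil _
  have hKu : (K : ℝ) ≤ (l : ℝ) ^ (B + 2) + 1 := (Nat.ceil_lt_add_one (by positivity)).le
  have hxa1 : 1 ≤ xa := le_trans (Real.one_le_rpow hl1 (by linarith)) hxa
  have hlxa : (l : ℝ) ≤ xa := by
    refine le_trans ?_ hxa
    calc (l : ℝ) = (l : ℝ) ^ (1 : ℝ) := (Real.rpow_one _).symm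
      _ ≤ (l : ℝ) ^ (B + 3) := Real.rpow_le_rpow_of_exponent_le hl1 (by linarith)
  -- the error
  have herr : ∀ m ∈ Ioc ⌊xa⌋₊ ⌊xb⌋₊, Wp l m (Q m) ≤
      ∑ b ∈ range Qs, Wp l m (Rb t Qs (Q m) (y0 K m) b) + ε := by
    intro m hm
    rw [mem_Ioc] at hm
    have hm1 : xa < m := Nat.lt_of_floor_lt hm.1
    have hm2 : (m : ℝ) ≤ xb := by
      refine le_trans ?_ (Nat.floor_le (by linarith))
      exact_mod_cast hm.2
    have hm0 : (0 : ℝ) < m := by linarith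
    obtain ⟨j, hj⟩ := hco m hm1 hm2
    have hΘ : |th t Qs (Q m)| * (m : ℝ) ^ (t - 1) ≤ (l : ℝ) ^ B := by
      have := (th_le t Qs hQ (Q m) j).trans hj
      rwa [le_div_iff₀ (by positivity)] at this
    have hlm : l ≤ m := by
      have : (l : ℝ) < m := by linarith
      exact_mod_cast this.le
    refine (one t Qs l m K ht hQ (by omega) hlm hK1 (Q m) _ hΘ).trans ?_
    gcongr
    have e1 : (l : ℝ) ^ B * (4 ^ t * (l : ℝ) ^ 2 / (m : ℝ)) ≤ 4 ^ t / l := by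
      rw [mul_div_assoc', div_le_div_iff₀ hm0 hl0]
      have : (l : ℝ) ^ (B + 3) ≤ m := hxa.trans hm1.le
      rw [Real.rpow_add hl0, show (3 : ℝ) = ((3 : ℕ) : ℝ) by norm_num, Real.rpow_natCast] at this
      calc (l : ℝ) ^ B * (4 ^ t * (l : ℝ) ^ 2) * (l : ℝ) =
            4 ^ t * ((l : ℝ) ^ B * (l : ℝ) ^ 3) := by ring
        _ ≤ (4 : ℝ) ^ t * (m : ℝ) := by gcongr
    have e2 : (l : ℝ) ^ B * ((t : ℝ) ^ 2 * l / K) ≤ t ^ 2 / l := by
      have hK0 : (0 : ℝ) < K := by exact_mod_cast hK1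
      rw [mul_div_assoc', div_le_div_iff₀ hK0 hl0]
      have : (l : ℝ) ^ (B + 2) ≤ K := hKl
      rw [Real.rpow_add hl0, show (2 : ℝ) = ((2 : ℕ) : ℝ) by norm_num, Real.rpow_natCast] at this
      calc (l : ℝ) ^ B * ((t : ℝ) ^ 2 * (l : ℝ)) * (l : ℝ) =
            (t : ℝ) ^ 2 * ((l : ℝ) ^ B * (l : ℝ) ^ 2) := by ring
        _ ≤ (t : ℝ) ^ 2 * (K : ℝ) := by gcongr
    calc 2 * Real.pi * ((l : ℝ) ^ B * (4 ^ t * l ^ 2 / m + t ^ 2 * l / K))
        = 2 * Real.pi * ((l : ℝ) ^ B * (4 ^ t * l ^ 2 / m) + (l : ℝ) ^ B * (t ^ 2 * l / K)) := by ring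
      _ ≤ 2 * Real.pi * (4 ^ t / l + t ^ 2 / l) := by
          apply mul_le_mul_of_nonneg_left (add_le_add e1 e2)
          have := Real.pi_pos; positivity
      _ = C₀ / l := by rw [hC₀]; ring
      _ ≤ ε := by
          rw [div_le_iff₀ hl0]
          rw [div_le_iff₀ hε] at hlC
          linarith
  -- the best b
  set G : ℕ → ℝ := fun b => ∑ m ∈ Ioc ⌊xa⌋₊ ⌊xb⌋₊, (1 / (m : ℝ)) *
    Wp l m (Rb t Qs (Q m) (y0 K m) b) with hG
  obtain ⟨b, hb, hbmax⟩ := exists_max_image (range Qs) G ⟨0, mem_range.2 (by omega)⟩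
  refine ⟨fun m => Rb t Qs (Q m) (y0 K m) b, fun m => Rb_deg t Qs ht _ (hdeg m) _ _, ?_, ?_⟩
  · have h1 := slow t Qs K b Q _ hslow
    intro j
    refine (h1 j).trans ?_
    have h2 : (l : ℝ) ^ A ≤ (l : ℝ) ^ (A + B + 3) :=
      Real.rpow_le_rpow_of_exponent_le hl1 (by linarith)
    have h3 : (l : ℝ) ^ (B + 2) ≤ (l : ℝ) ^ (A + B + 3) :=
      Real.rpow_le_rpow_of_exponent_le hl1 (by linarith)
    have h4 : (1 : ℝ) ≤ (l : ℝ) ^ (A + B + 3) := Real.one_le_rpow hl1 (by linarith)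
    have h5 : (l : ℝ) ^ (A + B + 4) = (l : ℝ) ^ (A + B + 3) * l := by
      rw [show A + B + 4 = (A + B + 3) + 1 by ring, Real.rpow_add hl0, Real.rpow_one]
    rw [h5]
    nlinarith
  · calc ∑ m ∈ Ioc ⌊xa⌋₊ ⌊xb⌋₊, (1 / (m : ℝ)) * Wp l m (Q m)
        ≤ ∑ m ∈ Ioc ⌊xa⌋₊ ⌊xb⌋₊, (1 / (m : ℝ)) *
          (∑ b ∈ range Qs, Wp l m (Rb t Qs (Q m) (y0 K m) b) + ε) :=
          sum_le_sum fun m hm => mul_le_mul_of_nonneg_left (herr m hm) (by positivity)
      _ = ∑ b ∈ range Qs, G b + ε * ∑ m ∈ Ioc ⌊xa⌋₊ ⌊xb⌋₊, (1 / (m : ℝ)) := by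
          simp_rw [mul_add, sum_add_distrib, mul_sum]
          rw [sum_comm]
          congr 1
          exact sum_congr rfl fun m _ => mul_comm _ _
      _ ≤ Qs * G b + ε * (Real.log xb - Real.log xa + 1) := by
          apply add_le_add
          · refine (sum_le_sum fun b' hb' => hbmax b' hb').trans ?_
            simp
          · exact mul_le_mul_of_nonneg_left (harm xa xb hxa1 hxb) hε.le

end Pool.Agent.VQ
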