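import Pool.Agent.Lib.VQ.WDefs

/-!
# Row REG of Theorem W (MP_663568_nt): from regions to logarithmic averages.  (helper9)
-/

set_option autoImplicit false
open Finset

namespace Pool.Agent.VQ

namespace REGx

lemma harm {a b : ℕ} (ha : 1 ≤ a) (hab : a ≤ b) :
    ∑ n ∈ Ioc a b, (1 / (n : ℝ)) ≤ Real.log b - Real.log a := by
  induction b, hab using Nat.le_induction with
  | base => simp
  | succ b hb ih =>
    rw [Finset.sum_Ioc_succ_top hb]
    have hb0 : (0 : ℝ) < b := by exact_mod_cast (by omega : 0 < b)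
    have h1 : (1 : ℝ) / ((b + 1 : ℕ) : ℝ) ≤ Real.log ((b + 1 : ℕ) : ℝ) - Real.log b := by
      rw [← Real.log_div (by positivity) (by positivity)]
      have h2 := Real.one_sub_inv_le_log_of_pos (x := ((b + 1 : ℕ) : ℝ) / b) (by positivity)
      have h3 : (1 : ℝ) - (((b + 1 : ℕ) : ℝ) / b)⁻¹ = 1 / ((b + 1 : ℕ) : ℝ) := by
        push_cast
        field_simp
        ring
      rw [h3] at h2
      exact h2
    linarith

open Classical in
/-- The sum over a sparse set. -/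
lemma geo (bad : Set ℕ) (W : ℝ)
    (hW : ∀ j : ℕ, (#((Ico (2 ^ j) (2 ^ (j + 1))).filter fun n => n ∈ bad) : ℝ) ≤ W)
    {J K : ℕ} (hJK : J ≤ K) :
    ∑ n ∈ (Ico (2 ^ J) (2 ^ K)).filter (fun n => n ∈ bad), (1 / (n : ℝ)) ≤
      W * (2 / 2 ^ J - 2 / 2 ^ K) := by
  induction K, hJK using Nat.le_induction with
  | base => simp
  | succ K hK ih =>
    have h1 : (Ico (2 ^ J) (2 ^ (K + 1))).filter (fun n => n ∈ bad) =
        (Ico (2 ^ J) (2 ^ K)).filter (fun n => n ∈ bad) ∪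
          (Ico (2 ^ K) (2 ^ (K + 1))).filter (fun n => n ∈ bad) := by
      rw [← Finset.filter_union, Finset.Ico_union_Ico_eq_Ico]
      · exact Nat.pow_le_pow_right (by norm_num) hK
      · exact Nat.pow_le_pow_right (by norm_num) (by omega)
    have hd : Disjoint ((Ico (2 ^ J) (2 ^ K)).filter (fun n => n ∈ bad))
          ((Ico (2 ^ K) (2 ^ (K + 1))).filter (fun n => n ∈ bad)) := by
      rw [Finset.disjoint_left]
      intro x hx hy
      simp only [Finset.mem_filter, Finset.mem_Ico] at hx hy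
      omega
    rw [h1, Finset.sum_union hd]
    have h2 : ∑ n ∈ (Ico (2 ^ K) (2 ^ (K + 1))).filter (fun n => n ∈ bad), (1 / (n : ℝ)) ≤
        W * (1 / 2 ^ K) := by
      calc ∑ n ∈ (Ico (2 ^ K) (2 ^ (K + 1))).filter (fun n => n ∈ bad), (1 / (n : ℝ))
          ≤ ∑ n ∈ (Ico (2 ^ K) (2 ^ (K + 1))).filter (fun n => n ∈ bad), (1 / (2 : ℝ) ^ K) := by
            apply Finset.sum_le_sum
            intro n hn
            simp only [Finset.mem_filter, Finset.mem_Ico] at hn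
            apply one_div_le_one_div_of_le (by positivity)
            exact_mod_cast hn.1.1
        _ = (#((Ico (2 ^ K) (2 ^ (K + 1))).filter fun n => n ∈ bad) : ℝ) * (1 / 2 ^ K) := by
            rw [Finset.sum_const, nsmul_eq_mul]
        _ ≤ W * (1 / 2 ^ K) := mul_le_mul_of_nonneg_right (hW K) (by positivity)
    have h3 : W * (2 / 2 ^ J - 2 / 2 ^ (K + 1)) =
        W * (2 / 2 ^ J - 2 / 2 ^ K) + W * (1 / 2 ^ K) := by
      rw [pow_succ]
      field_simp
      ring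
    rw [h3]
    linarith

open Classical in
/-- Double counting for the regions. -/
lemma dbl (a b L : ℕ) (hL : L ≤ a) (N : Finset ℕ) (hN : N ⊆ Ioc a b) :
    (L : ℝ) * ∑ n ∈ N, (1 / (n : ℝ)) ≤
      ∑ m ∈ Ioc (a - L) b, (1 / (m : ℝ)) * (#((range L).filter fun j => m + j ∈ N) : ℝ) := by
  have h1 : (L : ℝ) * ∑ n ∈ N, (1 / (n : ℝ)) = ∑ j ∈ range L, ∑ n ∈ N, (1 / (n : ℝ)) := by
    rw [Finset.sum_const, Finset.card_range, nsmul_eq_mul]
  have h2 : ∀ j ∈ range L, ∑ n ∈ N, (1 / (n : ℝ)) ≤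
      ∑ m ∈ (Ioc (a - L) b).filter (fun m => m + j ∈ N), (1 / (m : ℝ)) := by
    intro j hj
    rw [Finset.mem_range] at hj
    calc ∑ n ∈ N, (1 / (n : ℝ)) ≤ ∑ n ∈ N, (1 / ((n - j : ℕ) : ℝ)) := by
          apply Finset.sum_le_sum
          intro n hn
          have hn' := Finset.mem_Ioc.1 (hN hn)
          apply one_div_le_one_div_of_le
          · exact_mod_cast (by omega : 0 < n - j)
          · exact_mod_cast (by omega : n - j ≤ n)
      _ = ∑ m ∈ (Ioc (a - L) b).filter (fun m => m + j ∈ N), (1 / (m : ℝ)) := by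
          apply Finset.sum_nbij' (fun n => n - j) (fun m => m + j)
          · intro n hn
            have hn' := Finset.mem_Ioc.1 (hN hn)
            simp only [Finset.mem_filter, Finset.mem_Ioc]
            refine ⟨⟨by omega, by omega⟩, ?_⟩
            have : n - j + j = n := by omega
            rw [this]; exact hn
          · intro m hm
            exact (Finset.mem_filter.1 hm).2
          · intro n hn
            have hn' := Finset.mem_Ioc.1 (hN hn)
            omega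
          · intro m hm
            omega
          · intro n hn
            rfl
  have h3 : ∑ j ∈ range L, ∑ m ∈ (Ioc (a - L) b).filter (fun m => m + j ∈ N), (1 / (m : ℝ)) =
      ∑ m ∈ Ioc (a - L) b, (1 / (m : ℝ)) * (#((range L).filter fun j => m + j ∈ N) : ℝ) := by
    simp only [Finset.sum_filter]
    rw [Finset.sum_comm]
    apply Finset.sum_congr rfl
    intro m _
    rw [← Finset.sum_filter, Finset.sum_const, nsmul_eq_mul, mul_comm]
  rw [h1]
  calc ∑ j ∈ range L, ∑ n ∈ N, (1 / (n : ℝ)) ≤ _ := Finset.sum_le_sum h2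
    _ = _ := h3

open Classical in
/-- Exchange for the good regions. -/
lemma exch (H : ℕ) (Gd X : Finset ℕ) (G : ℕ → ℝ) (hG : ∀ n, 0 ≤ G n)
    (hX : ∀ m ∈ Gd, Ioc m (m + H) ⊆ X) (hX2 : ∀ x ∈ X, 2 * H ≤ x) (hH : 1 ≤ H) :
    ∑ m ∈ Gd, (1 / (m : ℝ)) * ∑ x ∈ Ioc m (m + H), G x ≤
      2 * H * ∑ x ∈ X, (1 / (x : ℝ)) * G x := by
  have h1 : ∀ m ∈ Gd, (1 / (m : ℝ)) * ∑ x ∈ Ioc m (m + H), G x =
      ∑ x ∈ X, if x ∈ Ioc m (m + H) then (1 / (m : ℝ)) * G x else 0 := by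
    intro m hm
    rw [← Finset.sum_filter, Finset.mul_sum]
    apply Finset.sum_congr _ (fun _ _ => rfl)
    ext x
    simp only [Finset.mem_filter]
    exact ⟨fun h => ⟨hX m hm h, h⟩, fun h => h.2⟩
  rw [Finset.sum_congr rfl h1, Finset.sum_comm, Finset.mul_sum]
  apply Finset.sum_le_sum
  intro x hx
  have hx2 := hX2 x hx
  have hxpos : (0 : ℝ) < x := by exact_mod_cast (by omega : 0 < x)
  rw [← Finset.sum_filter]
  have h2 : ∑ m ∈ Gd.filter (fun m => x ∈ Ioc m (m + H)), (1 / (m : ℝ)) * G x ≤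
      ∑ m ∈ Gd.filter (fun m => x ∈ Ioc m (m + H)), (2 / (x : ℝ)) * G x := by
    apply Finset.sum_le_sum
    intro m hm
    simp only [Finset.mem_filter, Finset.mem_Ioc] at hm
    apply mul_le_mul_of_nonneg_right _ (hG x)
    have hm0 : (0 : ℝ) < m := by exact_mod_cast (by omega : 0 < m)
    rw [div_le_div_iff₀ hm0 hxpos]
    have : (x : ℝ) ≤ 2 * m := by exact_mod_cast (by omega : x ≤ 2 * m)
    linarith
  have h3 : (#(Gd.filter (fun m => x ∈ Ioc m (m + H))) : ℝ) ≤ H := by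
    have : Gd.filter (fun m => x ∈ Ioc m (m + H)) ⊆ Ico (x - H) x := by
      intro m hm
      simp only [Finset.mem_filter, Finset.mem_Ioc] at hm
      simp only [Finset.mem_Ico]
      omega
    have h4 := Finset.card_le_card this
    rw [Nat.card_Ico] at h4
    exact_mod_cast (by omega : #(Gd.filter (fun m => x ∈ Ioc m (m + H))) ≤ H)
  calc ∑ m ∈ Gd.filter (fun m => x ∈ Ioc m (m + H)), (1 / (m : ℝ)) * G x
      ≤ _ := h2
    _ = (#(Gd.filter (fun m => x ∈ Ioc m (m + H))) : ℝ) * ((2 / (x : ℝ)) * G x) := by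
        rw [Finset.sum_const, nsmul_eq_mul]
    _ ≤ H * ((2 / (x : ℝ)) * G x) :=
        mul_le_mul_of_nonneg_right h3 (mul_nonneg (by positivity) (hG x))
    _ = 2 * H * ((1 / (x : ℝ)) * G x) := by ring

open Classical in
/-- The regions near a change. -/
lemma badsum (H : ℕ) (M : Finset ℕ) (bad : Set ℕ) (W : ℝ)
    (hW : ∀ j : ℕ, (#((Ico (2 ^ j) (2 ^ (j + 1))).filter fun n => n ∈ bad) : ℝ) ≤ W)
    (J K : ℕ) (hJK : J ≤ K) (hM1 : ∀ m ∈ M, 2 ^ J ≤ m) (hM2 : ∀ m ∈ M, m + 2 * H < 2 ^ K)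
    (hM3 : ∀ m ∈ M, 2 * H ≤ m) (hM0 : ∀ m ∈ M, 1 ≤ m) (hW0 : 0 ≤ W) :
    ∑ m ∈ M.filter (fun m => ∃ n, m ≤ n ∧ n ≤ m + 2 * H ∧ n ∈ bad), (1 / (m : ℝ)) ≤
      (2 * H + 1) * 2 * (W * (2 / 2 ^ J)) := by
  set Bf := (Ico (2 ^ J) (2 ^ K)).filter (fun n => n ∈ bad) with hBf
  have h1 : ∑ m ∈ M.filter (fun m => ∃ n, m ≤ n ∧ n ≤ m + 2 * H ∧ n ∈ bad), (1 / (m : ℝ)) ≤
      ∑ m ∈ M, ∑ n ∈ Bf, (if m ≤ n ∧ n ≤ m + 2 * H then 2 / (n : ℝ) else 0) := by
    rw [Finset.sum_filter]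
    apply Finset.sum_le_sum
    intro m hm
    split_ifs with h
    · obtain ⟨n, hn1, hn2, hn3⟩ := h
      have hnB : n ∈ Bf := by
        simp only [hBf, Finset.mem_filter, Finset.mem_Ico]
        have := hM1 m hm
        have := hM2 m hm
        exact ⟨⟨by omega, by omega⟩, hn3⟩
      have hge : (if m ≤ n ∧ n ≤ m + 2 * H then 2 / (n : ℝ) else 0) ≤
          ∑ n ∈ Bf, (if m ≤ n ∧ n ≤ m + 2 * H then 2 / (n : ℝ) else 0) := by
        apply Finset.single_le_sum (f := fun n : ℕ => (if m ≤ n ∧ n ≤ m + 2 * H then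
          2 / (n : ℝ) else 0)) _ hnB
        intro i _
        split_ifs <;> positivity
      rw [if_pos ⟨hn1, hn2⟩] at hge
      refine le_trans ?_ hge
      have hm0 : (0 : ℝ) < m := by exact_mod_cast hM0 m hm
      have hn0 : (0 : ℝ) < n := by
        have : (m : ℝ) ≤ n := by exact_mod_cast hn1
        linarith
      rw [div_le_div_iff₀ hm0 hn0]
      have h5 := hM3 m hm
      have : (n : ℝ) ≤ 2 * m := by exact_mod_cast (by omega : n ≤ 2 * m)
      linarith
    · apply Finset.sum_nonneg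
      intro i _
      split_ifs <;> positivity
  have h2 : ∑ m ∈ M, ∑ n ∈ Bf, (if m ≤ n ∧ n ≤ m + 2 * H then 2 / (n : ℝ) else 0) ≤
      ∑ n ∈ Bf, (2 * H + 1) * (2 / (n : ℝ)) := by
    rw [Finset.sum_comm]
    apply Finset.sum_le_sum
    intro n _
    rw [← Finset.sum_filter, Finset.sum_const, nsmul_eq_mul]
    apply mul_le_mul_of_nonneg_right _ (by positivity)
    have : M.filter (fun m => m ≤ n ∧ n ≤ m + 2 * H) ⊆ Icc (n - 2 * H) n := by
      intro m hm
      simp only [Finset.mem_filter] at hm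
      simp only [Finset.mem_Icc]
      omega
    have h4 := Finset.card_le_card this
    rw [Nat.card_Icc] at h4
    exact_mod_cast (by omega : #(M.filter (fun m => m ≤ n ∧ n ≤ m + 2 * H)) ≤ 2 * H + 1)
  have h3 : ∑ n ∈ Bf, (2 * (H : ℝ) + 1) * (2 / (n : ℝ)) =
      (2 * H + 1) * 2 * ∑ n ∈ Bf, (1 / (n : ℝ)) := by
    rw [Finset.mul_sum]
    apply Finset.sum_congr rfl
    intro n _
    ring
  have h4 := geo bad W hW hJK
  have h5 : W * (2 / 2 ^ J - 2 / 2 ^ K) ≤ W * (2 / 2 ^ J) := by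
    apply mul_le_mul_of_nonneg_left _ hW0
    have : (0 : ℝ) ≤ 2 / 2 ^ K := by positivity
    linarith
  calc _ ≤ _ := h1
    _ ≤ _ := h2
    _ = _ := h3
    _ ≤ (2 * H + 1) * 2 * (W * (2 / 2 ^ J)) := by
      apply mul_le_mul_of_nonneg_left (le_trans h4 h5) (by positivity)

open Classical in
/-- The mass of the regions with many large values. -/
lemma mass (M : Finset ℕ) (L : ℕ) (hL : 1 ≤ L) (ε : ℝ) (hε : 0 < ε) (F : ℕ → ℝ)
    (P : ℕ → Prop) (N : Finset ℕ) (hN : ∀ n ∈ N, ε / 2 ≤ F n)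
    (h : (L : ℝ) * ∑ n ∈ N, (1 / (n : ℝ)) ≤
      ∑ m ∈ M, (1 / (m : ℝ)) * (#((range L).filter fun j => m + j ∈ N) : ℝ)) :
    ∑ n ∈ N, (1 / (n : ℝ)) ≤
      ∑ m ∈ M.filter (fun m => ¬ P m ∧ ε / 8 * (L : ℝ) ≤
        (#((range L).filter fun j => ε / 2 ≤ F (m + j)) : ℝ)), (1 / (m : ℝ)) +
      ∑ m ∈ M.filter P, (1 / (m : ℝ)) + ε / 8 * ∑ m ∈ M, (1 / (m : ℝ)) := by
  have hL0 : (0 : ℝ) < L := by exact_mod_cast hL
  have h1 : ∑ m ∈ M, (1 / (m : ℝ)) * (#((range L).filter fun j => m + j ∈ N) : ℝ) ≤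
      (L : ℝ) * (∑ m ∈ M.filter (fun m => ¬ P m ∧ ε / 8 * (L : ℝ) ≤
        (#((range L).filter fun j => ε / 2 ≤ F (m + j)) : ℝ)), (1 / (m : ℝ)) +
      ∑ m ∈ M.filter P, (1 / (m : ℝ)) + ε / 8 * ∑ m ∈ M, (1 / (m : ℝ))) := by
    rw [Finset.sum_filter, Finset.sum_filter, Finset.mul_sum (s := M) (a := ε / 8),
      ← Finset.sum_add_distrib, ← Finset.sum_add_distrib, Finset.mul_sum]
    apply Finset.sum_le_sum
    intro m _
    have hc1 : (#((range L).filter fun j => m + j ∈ N) : ℝ) ≤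
        (#((range L).filter fun j => ε / 2 ≤ F (m + j)) : ℝ) := by
      exact_mod_cast Finset.card_le_card (by
        intro j hj
        simp only [Finset.mem_filter] at hj ⊢
        exact ⟨hj.1, hN _ hj.2⟩)
    have hc2 : (#((range L).filter fun j => ε / 2 ≤ F (m + j)) : ℝ) ≤ L := by
      have := Finset.card_filter_le (range L) (fun j => ε / 2 ≤ F (m + j))
      rw [Finset.card_range] at this
      exact_mod_cast this
    have hm : (0 : ℝ) ≤ 1 / (m : ℝ) := by positivity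
    by_cases hP : P m
    · simp only [hP, not_true_eq_false, false_and, if_false, if_true]
      have : (1 / (m : ℝ)) * (#((range L).filter fun j => m + j ∈ N) : ℝ) ≤
        (1 / (m : ℝ)) * L := mul_le_mul_of_nonneg_left (hc1.trans hc2) hm
      have h6 : 0 ≤ (L : ℝ) * (ε / 8 * (1 / (m : ℝ))) := by positivity
      nlinarith
    · by_cases hQ : ε / 8 * (L : ℝ) ≤ (#((range L).filter fun j => ε / 2 ≤ F (m + j)) : ℝ)
      · simp only [hP, not_false_eq_true, hQ, and_self, if_true, if_false]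
        have : (1 / (m : ℝ)) * (#((range L).filter fun j => m + j ∈ N) : ℝ) ≤
          (1 / (m : ℝ)) * L := mul_le_mul_of_nonneg_left (hc1.trans hc2) hm
        have h6 : 0 ≤ (L : ℝ) * (ε / 8 * (1 / (m : ℝ))) := by positivity
        nlinarith
      · simp only [hP, not_false_eq_true, hQ, and_false, if_false]
        push Not at hQ
        have : (1 / (m : ℝ)) * (#((range L).filter fun j => m + j ∈ N) : ℝ) ≤
          (1 / (m : ℝ)) * (ε / 8 * L) := mul_le_mul_of_nonneg_left (hc1.trans hQ.le) hm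
        nlinarith
  have h2 := h.trans h1
  exact le_of_mul_le_mul_left h2 hL0

end REGx

open REGx in
open Classical in
theorem reg : REG_stmt := by
  intro A ε c hA hε hε1 hc
  refine ⟨A + 2, max 768 (max ⌈16 / ε⌉₊ ⌈Real.exp (8 / ε)⌉₊), by linarith, ?_⟩
  intro H hH xa xb hxa hxb bad hbad F G hF0 hF1 hG0 hloc hbig
  have hH768 : 768 ≤ H := le_trans (le_max_left _ _) hH
  have hH768' : (768 : ℝ) ≤ H := by exact_mod_cast hH768
  have hHpos : (0 : ℝ) < H := by linarith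
  have hH16 : 16 / ε ≤ H :=
    le_trans (Nat.le_ceil _) (by exact_mod_cast le_trans (le_max_left _ _) (le_trans (le_max_right _ _) hH))
  have hHexp : Real.exp (8 / ε) ≤ H :=
    le_trans (Nat.le_ceil _) (by exact_mod_cast le_trans (le_max_right _ _) (le_trans (le_max_right _ _) hH))
  have hlogH : 8 / ε ≤ Real.log H := by
    have := Real.log_le_log (Real.exp_pos _) hHexp
    rwa [Real.log_exp] at this
  -- sizes
  have hpow : (H : ℝ) ^ (A + 2) = (H : ℝ) ^ A * (H : ℝ) ^ 2 := by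
    rw [Real.rpow_add hHpos]
    norm_num
  have hHA1 : (1 : ℝ) ≤ (H : ℝ) ^ A := Real.one_le_rpow (by linarith) hA
  have hxaH2 : (H : ℝ) ^ 2 ≤ xa := by
    refine le_trans ?_ hxa
    rw [hpow]
    nlinarith [sq_nonneg (H : ℝ)]
  have hxa768 : 768 * (H : ℝ) ≤ xa := by nlinarith
  have hxapos : 0 < xa := by linarith
  have hxb' : xa ≤ xb := by nlinarith
  have hxbpos : 0 < xb := by linarith
  set Λ := Real.log xb - Real.log xa with hΛ
  have hΛlog : Real.log H ≤ Λ := by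
    have h1 : Real.log (xa * H) ≤ Real.log xb := Real.log_le_log (by positivity) hxb
    rw [Real.log_mul (by positivity) (by positivity)] at h1
    rw [hΛ]; linarith
  have hΛ8 : 8 / ε ≤ Λ := hlogH.trans hΛlog
  have hΛε : 8 ≤ ε * Λ := by
    rw [div_le_iff₀ hε] at hΛ8
    linarith
  set a := ⌊xa⌋₊ with ha
  set b := ⌊xb⌋₊ with hb
  set L := ⌊ε / 16 * (H : ℝ)⌋₊ with hL
  have haxa : (a : ℝ) ≤ xa := Nat.floor_le hxapos.le
  have haxa' : xa < a + 1 := Nat.lt_floor_add_one xa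
  have hbxb : (b : ℝ) ≤ xb := Nat.floor_le hxbpos.le
  have hLle : (L : ℝ) ≤ ε / 16 * H := Nat.floor_le (by positivity)
  have hL1 : 1 ≤ L := by
    rw [hL, Nat.one_le_floor_iff]
    rw [div_le_iff₀ hε] at hH16
    linarith
  have hLH : (L : ℝ) ≤ H / 16 := by nlinarith
  have hLH' : L ≤ H := by
    have : (L : ℝ) ≤ H := by linarith
    exact_mod_cast this
  have haH : (767 : ℝ) * H ≤ a := by linarith
  have haH' : 767 * H ≤ a := by exact_mod_cast haH
  have hab : a ≤ b := Nat.floor_mono hxb'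
  have haL : ((a - L : ℕ) : ℝ) = a - L := Nat.cast_sub (by omega)
  have haL2 : xa / 2 ≤ ((a - L : ℕ) : ℝ) := by
    rw [haL]; linarith
  -- the sum over M
  set M := Ioc (a - L) b with hM
  have hsumM : ∑ m ∈ M, (1 / (m : ℝ)) ≤ Λ + 1 := by
    have h1 := harm (a := a - L) (b := b) (by omega) (by omega)
    have h2 : Real.log b ≤ Real.log xb := Real.log_le_log (by exact_mod_cast (by omega : 0 < b)) hbxb
    have h3 : Real.log (xa / 2) ≤ Real.log ((a - L : ℕ) : ℝ) := Real.log_le_log (by positivity) haL2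
    rw [Real.log_div (by positivity) (by norm_num)] at h3
    have h4 : Real.log 2 ≤ 1 := by
      have := Real.log_two_lt_d9
      linarith
    rw [hΛ]
    linarith
  have hsub : Ioc a b ⊆ M := by
    intro m hm
    simp only [hM, Finset.mem_Ioc] at hm ⊢
    omega
  have hsumI : ∑ m ∈ Ioc a b, (1 / (m : ℝ)) ≤ Λ + 1 :=
    le_trans (Finset.sum_le_sum_of_subset_of_nonneg hsub (fun i _ _ => by positivity)) hsumM
  -- step 1
  set N := (Ioc a b).filter (fun n => ε / 2 ≤ F n) with hN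
  have hstep1 : ε / 2 * Λ - 1 / 2 ≤ ∑ n ∈ N, (1 / (n : ℝ)) := by
    have h1 : ∑ n ∈ Ioc a b, (1 / (n : ℝ)) * F n ≤
        ∑ n ∈ N, (1 / (n : ℝ)) + ε / 2 * ∑ n ∈ Ioc a b, (1 / (n : ℝ)) := by
      rw [hN, Finset.sum_filter, Finset.mul_sum, ← Finset.sum_add_distrib]
      apply Finset.sum_le_sum
      intro n _
      have hn : (0 : ℝ) ≤ 1 / (n : ℝ) := by positivity
      split_ifs with h
      · have := mul_le_mul_of_nonneg_left (hF1 n) hn
        have h6 : 0 ≤ ε / 2 * (1 / (n : ℝ)) := by positivity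
        linarith
      · push Not at h
        have := mul_le_mul_of_nonneg_left h.le hn
        linarith
    have h2 : ε / 2 * ∑ n ∈ Ioc a b, (1 / (n : ℝ)) ≤ ε / 2 * (Λ + 1) :=
      mul_le_mul_of_nonneg_left hsumI (by positivity)
    nlinarith
  -- step 2
  have hdbl := dbl a b L (by omega) N (Finset.filter_subset _ _)
  have hmass := mass M L hL1 ε hε F (fun m => ∃ n, m ≤ n ∧ n ≤ m + 2 * H ∧ n ∈ bad) N
    (fun n hn => (Finset.mem_filter.1 hn).2) hdbl
  -- step 4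
  have hbadsum : ∑ m ∈ M.filter (fun m => ∃ n, m ≤ n ∧ n ≤ m + 2 * H ∧ n ∈ bad), (1 / (m : ℝ)) ≤
      1 / 8 := by
    set J := Nat.log 2 ⌊xa / 2⌋₊ with hJ
    have hfl0 : ⌊xa / 2⌋₊ ≠ 0 := by
      have : 1 ≤ ⌊xa / 2⌋₊ := by
        rw [Nat.one_le_floor_iff]; linarith
      omega
    have hJ1 : 2 ^ J ≤ ⌊xa / 2⌋₊ := Nat.pow_log_le_self 2 hfl0
    have hJ2 : ⌊xa / 2⌋₊ < 2 ^ (J + 1) := Nat.lt_pow_succ_log_self (by norm_num) _
    have hJ3 : xa / 8 ≤ (2 : ℝ) ^ J := by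
      have h1 : ((⌊xa / 2⌋₊ + 1 : ℕ) : ℝ) ≤ ((2 ^ (J + 1) : ℕ) : ℝ) := by exact_mod_cast hJ2
      push_cast at h1
      have h2 := Nat.lt_floor_add_one (xa / 2)
      rw [pow_succ] at h1
      linarith
    have hfl : ⌊xa / 2⌋₊ ≤ a - L := by
      have h1 : (⌊xa / 2⌋₊ : ℝ) ≤ xa / 2 := Nat.floor_le (by positivity)
      have h2 : (⌊xa / 2⌋₊ : ℝ) ≤ ((a - L : ℕ) : ℝ) := h1.trans haL2
      exact_mod_cast h2
    have hb1 := badsum H M bad ((H : ℝ) ^ A) hbad J (J + (b + 2 * H)) (by omega)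
      (by
        intro m hm
        simp only [hM, Finset.mem_Ioc] at hm
        omega)
      (by
        intro m hm
        simp only [hM, Finset.mem_Ioc] at hm
        have h1 : b + 2 * H < 2 ^ (b + 2 * H) := Nat.lt_two_pow_self
        have h2 : 2 ^ (b + 2 * H) ≤ 2 ^ (J + (b + 2 * H)) :=
          Nat.pow_le_pow_right (by norm_num) (by omega)
        omega)
      (by
        intro m hm
        simp only [hM, Finset.mem_Ioc] at hm
        omega)
      (by
        intro m hm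
        simp only [hM, Finset.mem_Ioc] at hm
        omega) (by linarith)
    refine hb1.trans ?_
    have h2J : (0 : ℝ) < 2 ^ J := by positivity
    have h3 : (2 * (H : ℝ) + 1) * 2 * ((H : ℝ) ^ A * (2 / 2 ^ J)) =
        (8 * H + 4) * (H : ℝ) ^ A / 2 ^ J := by
      field_simp
      ring
    rw [h3, div_le_iff₀ h2J]
    have h4 : (H : ℝ) ^ A * (H : ℝ) ^ 2 ≤ xa := by rw [← hpow]; exact hxa
    have h5 : 0 < (H : ℝ) ^ A := by linarith
    have h6 : (H : ℝ) ^ A * (768 * (H : ℝ)) ≤ (H : ℝ) ^ A * (H : ℝ) ^ 2 := by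
      apply mul_le_mul_of_nonneg_left _ h5.le
      nlinarith
    have h7 : (H : ℝ) ^ A * 1 ≤ (H : ℝ) ^ A * H := mul_le_mul_of_nonneg_left (by linarith) h5.le
    nlinarith
  -- good regions
  set Gd := M.filter (fun m => ¬ (∃ n, m ≤ n ∧ n ≤ m + 2 * H ∧ n ∈ bad) ∧ ε / 8 * (L : ℝ) ≤
        (#((range L).filter fun j => ε / 2 ≤ F (m + j)) : ℝ)) with hGd
  have hgood : ε / 4 * Λ ≤ ∑ m ∈ Gd, (1 / (m : ℝ)) := by
    have h1 : ε / 8 * ∑ m ∈ M, (1 / (m : ℝ)) ≤ ε / 8 * (Λ + 1) :=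
      mul_le_mul_of_nonneg_left hsumM (by positivity)
    nlinarith
  -- exchange
  set X := Ioc ⌊xa / 2⌋₊ ⌊2 * xb⌋₊ with hX
  have hex := exch H Gd X G hG0
    (by
      intro m hm x hx
      simp only [hGd, hM, Finset.mem_filter, Finset.mem_Ioc] at hm
      simp only [Finset.mem_Ioc] at hx
      simp only [hX, Finset.mem_Ioc]
      have hfl : ⌊xa / 2⌋₊ ≤ a - L := by
        have h1 : (⌊xa / 2⌋₊ : ℝ) ≤ xa / 2 := Nat.floor_le (by positivity)
        have h2 : (⌊xa / 2⌋₊ : ℝ) ≤ ((a - L : ℕ) : ℝ) := h1.trans haL2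
        exact_mod_cast h2
      refine ⟨by omega, ?_⟩
      apply Nat.le_floor
      have h1 : (x : ℝ) ≤ (b : ℝ) + H := by exact_mod_cast (by omega : x ≤ b + H)
      linarith)
    (by
      intro x hx
      simp only [hX, Finset.mem_Ioc] at hx
      have h1 : 2 * H ≤ ⌊xa / 2⌋₊ := by
        apply Nat.le_floor
        push_cast
        linarith
      omega) (by omega)
  have hlow : c * H * ∑ m ∈ Gd, (1 / (m : ℝ)) ≤
      ∑ m ∈ Gd, (1 / (m : ℝ)) * ∑ x ∈ Ioc m (m + H), G x := by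
    rw [Finset.mul_sum]
    apply Finset.sum_le_sum
    intro m hm
    rw [mul_comm]
    apply mul_le_mul_of_nonneg_left _ (by positivity)
    simp only [hGd, hM, Finset.mem_filter, Finset.mem_Ioc] at hm
    apply hloc m _ _ hm.2.2
    · refine le_trans haL2 ?_
      exact_mod_cast (by omega : a - L ≤ m)
    · intro n hn1 hn2 hn3
      exact hm.2.1 ⟨n, hn1, hn2, hn3⟩
  have h8 : c * H * (ε / 4 * Λ) ≤ 2 * H * ∑ x ∈ X, (1 / (x : ℝ)) * G x :=
    le_trans (le_trans (mul_le_mul_of_nonneg_left hgood (by positivity)) hlow) hex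
  have h9 : 2 * (H : ℝ) * (c * ε / 8 * Λ) ≤ 2 * H * ∑ x ∈ X, (1 / (x : ℝ)) * G x := by
    have : 2 * (H : ℝ) * (c * ε / 8 * Λ) = c * H * (ε / 4 * Λ) := by ring
    rw [this]; exact h8
  exact le_of_mul_le_mul_left h9 (by positivity)

end Pool.Agent.VQ
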