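import Mathlib
import Pool.Agent.Lib.VQ.WDefs

/-!
# Theorem W (MP_663568_nt): row WFIN, the assembly.  (helper95, text by helper19)
-/

set_option autoImplicit false
open Finset MeasureTheory Polynomial Filter

namespace Pool.Agent.VQ

open Pool.Agent.Lib.MP_663568_nt Pool.Agent.Lib.MP_663568_nt.Katai
  Pool.Agent.Lib.MP_663568_nt.Nul Pool.Agent.SV

noncomputable section

namespace WFINx

lemma Wp_nonneg (l m : ℕ) (P : ℝ[X]) : 0 ≤ Wp l m P := by
  unfold Wp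
  positivity

lemma Wp_le_one (l m : ℕ) (P : ℝ[X]) : Wp l m P ≤ 1 := by
  unfold Wp
  apply div_le_one_of_le₀ _ (Nat.cast_nonneg _)
  refine (norm_sum_le_of_le (f := fun h : ℕ => muC (m + h) * ee (P.eval ((m : ℝ) + h)))
    (n := fun _ => (1 : ℝ)) _ fun h _ => ?_).trans (by simp)
  rw [norm_mul, norm_ee, mul_one]
  exact norm_muC _

/-- The family is constant on an interval without changes. -/
lemma const_of_no_change {Q : ℕ → ℝ[X]} {m K : ℕ} (h : ∀ n, m ≤ n → n ≤ m + K → Q (n + 1) = Q n) :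
    ∀ j, j ≤ K → Q (m + j) = Q m := by
  intro j
  induction j with
  | zero => intro _; rfl
  | succ j ih =>
    intro hj
    rw [← ih (by omega), ← h (m + j) (by omega) (by omega)]
    rfl

/-- The degree of the shifted polynomial. -/
lemma deg_add {Q : ℝ[X]} {s : ℕ} (hQ : Q.natDegree ≤ s) (b : ℝ) :
    (Q + C b * X).natDegree ≤ max s 1 := by
  refine (natDegree_add_le _ _).trans (max_le_max hQ ?_)
  exact (natDegree_C_mul_le _ _).trans natDegree_X_le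

/-- The shifted family is slow as well. -/
lemma slow_add {Q : ℕ → ℝ[X]} {K K' : ℝ} (h : SlowP Q K) (hK : K ≤ K') (R : ℝ[X]) :
    SlowP (fun n => Q n + R) K' := by
  intro j
  classical
  refine le_trans ?_ ((h j).trans hK)
  refine Nat.cast_le.2 (card_le_card ?_)
  intro n hn
  simp only [mem_filter] at hn ⊢
  refine ⟨hn.1, fun h2 => hn.2 ?_⟩
  rw [h2]

/-- Sufficiently large `H`. -/
lemma large (A η B κ : ℝ) (n : ℕ) (hA : 0 ≤ A) (hη : 0 < η) : ∃ H₀ : ℕ, 2 ≤ H₀ ∧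
    ∀ H : ℕ, H₀ ≤ H → n ≤ ⌊η * (H : ℝ)⌋₊ ∧
    (H : ℝ) ^ A ≤ (⌊η * (H : ℝ)⌋₊ : ℝ) ^ (A + 1) ∧
    κ ≤ Real.log H ∧ (H : ℝ) ^ B * 2 ≤ (H : ℝ) ^ (B + 1) := by
  obtain ⟨H₁, hH₁⟩ := exists_nat_ge (max (max ((n : ℝ) / η) (2 / η)) ((2 / η) ^ (A + 1)))
  obtain ⟨H₂, hH₂⟩ := exists_nat_ge (Real.exp κ)
  refine ⟨max 2 (max H₁ H₂), le_max_left _ _, fun H hH => ?_⟩
  have h2 : 2 ≤ H := (le_max_left _ _).trans hH
  have h1 : H₁ ≤ H := ((le_max_left _ _).trans (le_max_right _ _)).trans hH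
  have h3 : H₂ ≤ H := ((le_max_right _ _).trans (le_max_right _ _)).trans hH
  have h2' : (2 : ℝ) ≤ H := by exact_mod_cast h2
  have h1' : (H₁ : ℝ) ≤ H := by exact_mod_cast h1
  have h3' : (H₂ : ℝ) ≤ H := by exact_mod_cast h3
  have hH0 : (0 : ℝ) < H := by linarith
  have a1 : (n : ℝ) / η ≤ H := ((le_max_left _ _).trans (le_max_left _ _)).trans (hH₁.trans h1')
  have a2 : 2 / η ≤ H := ((le_max_right _ _).trans (le_max_left _ _)).trans (hH₁.trans h1')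
  have a3 : (2 / η) ^ (A + 1) ≤ H := (le_max_right _ _).trans (hH₁.trans h1')
  rw [div_le_iff₀ hη] at a1 a2
  have b0 : (2 : ℝ) ≤ η * H := by linarith
  have b1 : η * H / 2 ≤ (⌊η * (H : ℝ)⌋₊ : ℝ) := by
    have := Nat.lt_floor_add_one (η * (H : ℝ))
    linarith
  refine ⟨?_, ?_, ?_, ?_⟩
  · exact Nat.le_floor (by linarith)
  · calc (H : ℝ) ^ A = (η / 2) ^ (A + 1) * ((2 / η) ^ (A + 1) * (H : ℝ) ^ A) := by
          rw [← mul_assoc, ← Real.mul_rpow (by positivity) (by positivity)]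
          have : η / 2 * (2 / η) = 1 := by field_simp
          rw [this, Real.one_rpow, one_mul]
      _ ≤ (η / 2) ^ (A + 1) * (H * (H : ℝ) ^ A) := by gcongr
      _ = (η / 2) ^ (A + 1) * (H : ℝ) ^ (A + 1) := by
          rw [Real.rpow_add hH0, Real.rpow_one, mul_comm (H : ℝ)]
      _ = (η * H / 2) ^ (A + 1) := by
          rw [← Real.mul_rpow (by positivity) (by positivity)]
          congr 1
          ring
      _ ≤ (⌊η * (H : ℝ)⌋₊ : ℝ) ^ (A + 1) :=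
          Real.rpow_le_rpow (by positivity) b1 (by linarith)
  · rw [Real.le_log_iff_exp_le hH0]
    exact hH₂.trans h3'
  · rw [Real.rpow_add hH0, Real.rpow_one]
    gcongr

/-- The case `ε ≤ 1`. -/
theorem main (hCLU : CLU') (hSTR : STR') (hSUB : SUBQ_stmt) (hREG : REG_stmt) (s t : ℕ)
    (ht : 1 ≤ t) (hVW : VW (max s 1)) (A ε : ℝ) (hA : 0 ≤ A) (hε : 0 < ε) (hε1 : ε ≤ 1) :
    ∃ (B : ℝ) (H₀ : ℕ), 0 ≤ B ∧
      ∀ H : ℕ, H₀ ≤ H → ∀ xa xb : ℝ, (H : ℝ) ^ B ≤ xa → xa * H ≤ xb → ∀ Q : ℕ → ℝ[X],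
      (∀ n, (Q n).natDegree ≤ s) → SlowP Q ((H : ℝ) ^ A) → ∀ P : ℕ → ℝ[X],
      (∀ n, (P n).natDegree ≤ t) →
      (∀ n : ℕ, (P n).derivative.eval (n : ℝ) = (Q n).derivative.eval (n : ℝ)) →
      ∑ n ∈ Ioc ⌊xa⌋₊ ⌊xb⌋₊, (1 / (n : ℝ)) * Wp H n (P n) ≤
        ε * (Real.log xb - Real.log xa) := by
  classical
  have hT1 : 1 ≤ max s t := ht.trans (le_max_right _ _)
  obtain ⟨c₁, E, qs, H₁, hc₁, hc₁1, hE, hqs, hclu⟩ := hCLU (max s t) ε hT1 hε hε1
  obtain ⟨E', Q₃, L₀, hE', hQ₃, hstr⟩ := hSTR (max s t) qs c₁ E hT1 hqs hc₁ hc₁1 hE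
  obtain ⟨η, H₂, hη, hη1, hsub⟩ := hSUB (max s t) Q₃ ε E' hT1 hQ₃ hε hε1 hE'
  obtain ⟨B₁, H₃, hB₁, hreg⟩ := hREG A ε (ε / 16) hA hε hε1 (by positivity)
  have hQ₃0 : (0 : ℝ) < Q₃ := by exact_mod_cast hQ₃
  obtain ⟨B₂, H₄, hB₂, hvw⟩ := hVW (A + 1) (ε / 16 * ε / (100 * Q₃)) (by linarith)
    (by positivity)
  obtain ⟨H₅, hH₅2, hH₅⟩ := large A η B₂ 1 H₄ hA hη
  obtain ⟨H₆, hH₆2, hH₆⟩ := large A (ε / 16) B₂ 1 L₀ hA (by positivity)
  refine ⟨max B₁ (B₂ + 1), max (max H₁ H₂) (max H₃ (max H₅ H₆)), by positivity, ?_⟩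
  intro H hH xa xb hxa hxb Q hQ hQs P hP hPQ
  have hHa : H₁ ≤ H := by omega
  have hHb : H₂ ≤ H := by omega
  have hHc : H₃ ≤ H := by omega
  have hHd : H₅ ≤ H := by omega
  have hHe : H₆ ≤ H := by omega
  obtain ⟨f1, f2, f3, f4⟩ := hH₅ H hHd
  obtain ⟨g1, -, -, -⟩ := hH₆ H hHe
  have hH2 : (2 : ℝ) ≤ H := by exact_mod_cast hH₅2.trans hHd
  have hH1 : (1 : ℝ) ≤ H := by linarith
  have hH0 : (0 : ℝ) < H := by linarith
  have hxa1 : (H : ℝ) ^ B₁ ≤ xa :=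
    (Real.rpow_le_rpow_of_exponent_le hH1 (le_max_left _ _)).trans hxa
  have hxa2 : (H : ℝ) ^ (B₂ + 1) ≤ xa :=
    (Real.rpow_le_rpow_of_exponent_le hH1 (le_max_right _ _)).trans hxa
  have hxa0 : 0 < xa := lt_of_lt_of_le (Real.rpow_pos_of_pos hH0 _) hxa1
  have hxab : xa ≤ xb := by nlinarith
  have hxb0 : 0 < xb := hxa0.trans_le hxab
  by_contra hcon
  rw [not_le] at hcon
  set l : ℕ := ⌊η * (H : ℝ)⌋₊ with hl
  set L : ℕ := ⌊ε / 16 * (H : ℝ)⌋₊ with hL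
  have hlH : (l : ℝ) ≤ H := by
    refine (Nat.floor_le (by positivity)).trans ?_
    nlinarith
  have hLH : L ≤ H := by
    have h1 : (L : ℝ) ≤ H := by
      refine (Nat.floor_le (by positivity)).trans ?_
      nlinarith
    exact_mod_cast h1
  -- the region statement
  have hG := hreg H hHc xa xb hxa1 hxb {n | Q (n + 1) ≠ Q n} (fun j => by
      have := hQs j
      convert this using 3
      ext n
      simp only [mem_filter, Set.mem_ofPred_eq]) (fun n => Wp H n (P n))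
    (fun x => ∑ b ∈ range Q₃, Wp l x (Q x + C ((b : ℝ) / Q₃) * X))
    (fun n => Wp_nonneg _ _ _) (fun n => Wp_le_one _ _ _)
    (fun n => sum_nonneg fun b _ => Wp_nonneg _ _ _) ?_ hcon
  · -- the sum of the right side
    have hsum : ∑ x ∈ Ioc ⌊xa / 2⌋₊ ⌊2 * xb⌋₊, (1 / (x : ℝ)) *
        ∑ b ∈ range Q₃, Wp l x (Q x + C ((b : ℝ) / Q₃) * X) =
        ∑ b ∈ range Q₃, ∑ x ∈ Ioc ⌊xa / 2⌋₊ ⌊2 * xb⌋₊, (1 / (x : ℝ)) *
          Wp l x (Q x + C ((b : ℝ) / Q₃) * X) := by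
      rw [sum_comm]
      exact sum_congr rfl fun x _ => mul_sum _ _ _
    rw [hsum] at hG
    have hb : ∀ b ∈ range Q₃, ∑ x ∈ Ioc ⌊xa / 2⌋₊ ⌊2 * xb⌋₊, (1 / (x : ℝ)) *
        Wp l x (Q x + C ((b : ℝ) / Q₃) * X) ≤
        ε / 16 * ε / (100 * Q₃) * (Real.log (2 * xb) - Real.log (xa / 2)) := by
      intro b _
      refine hvw l f1 (xa / 2) (2 * xb) ?_ ?_ (fun x => Q x + C ((b : ℝ) / Q₃) * X)
        (fun n => deg_add (hQ n) _) (slow_add hQs f2 _)
      · calc (l : ℝ) ^ B₂ ≤ (H : ℝ) ^ B₂ := Real.rpow_le_rpow (Nat.cast_nonneg _) hlH hB₂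
          _ ≤ xa / 2 := by linarith
      · have : xa * l ≤ xa * H := by gcongr
        nlinarith [mul_nonneg hxa0.le (Nat.cast_nonneg (α := ℝ) l)]
    have hG' := hG.trans (sum_le_sum hb)
    rw [sum_const, card_range, nsmul_eq_mul] at hG'
    have e1 : (Q₃ : ℝ) * (ε / 16 * ε / (100 * Q₃) * (Real.log (2 * xb) - Real.log (xa / 2))) =
        ε / 16 * ε / 100 * (Real.log (2 * xb) - Real.log (xa / 2)) := by
      field_simp
    rw [e1, Real.log_mul (by norm_num) hxb0.ne', Real.log_div hxa0.ne' (by norm_num)] at hG'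
    have e2 : Real.log H ≤ Real.log xb - Real.log xa := by
      rw [← Real.log_div hxb0.ne' hxa0.ne']
      refine Real.log_le_log hH0 ?_
      rw [le_div_iff₀ hxa0]
      linarith
    have e3 : Real.log 2 ≤ 1 := by
      have := Real.log_two_lt_d9
      linarith
    have e4 : 0 < ε / 16 * ε := by positivity
    nlinarith
  · -- one region
    intro m₀ hm₀ hbad hJ
    have hch : ∀ n, m₀ ≤ n → n ≤ m₀ + 2 * H → Q (n + 1) = Q n := by
      intro n h1 h2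
      have := hbad n h1 h2
      simpa using this
    have hcst := const_of_no_change hch
    set J : Finset ℕ := (range L).filter fun j => ε / 2 ≤ Wp H (m₀ + j) (P (m₀ + j)) with hJd
    obtain ⟨R, hR1, hR2, hR3⟩ := hclu H L m₀ hHa hL J (fun j => P (m₀ + j))
      (fun j hj => mem_range.1 (mem_filter.1 hj).1) hJ
      (fun j _ => (hP _).trans (le_max_right _ _)) (fun j hj => (mem_filter.1 hj).2)
    have hD : (R - Q m₀).natDegree ≤ max s t :=
      (natDegree_sub_le _ _).trans (max_le hR1 ((hQ _).trans (le_max_left _ _)))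
    have h4 := hstr H L m₀ g1 hLH (R - Q m₀) hD ?_
    · have h5 := hsub H L m₀ l hHb hL hl R (Q m₀) hD h4 hR2
      refine h5.trans (le_of_eq ?_)
      refine sum_congr rfl fun x hx => sum_congr rfl fun b _ => ?_
      rw [mem_Ioc] at hx
      have h6 := hcst (x - m₀) (by omega)
      rw [show m₀ + (x - m₀) = x by omega] at h6
      rw [h6]
    · refine hR3.trans (Nat.cast_le.2 (card_le_card ?_))
      intro j hj
      rw [mem_filter] at hj ⊢
      have hjL : j < L := mem_range.1 (mem_filter.1 hj.1).1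
      refine ⟨mem_range.2 hjL, ?_⟩
      have h6 := hcst j (by omega)
      have h7 := hj.2
      have h8 : (P (m₀ + j)).derivative.eval ((m₀ : ℝ) + j) =
          (Q m₀).derivative.eval ((m₀ : ℝ) + j) := by
        have := hPQ (m₀ + j)
        push_cast at this
        rw [this, h6]
      rw [h8] at h7
      rw [derivative_sub, eval_sub]
      exact h7

end WFINx

/-- **Row WFIN.** -/
theorem wfin : WFIN_stmt := by
  intro hCLU hSTR hSUB hREG s t ht hVW A ε hA hε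
  obtain ⟨B, H₀, hB, h⟩ := WFINx.main hCLU hSTR hSUB hREG s t ht hVW A (min ε 1) hA
    (lt_min hε one_pos) (min_le_right _ _)
  refine ⟨B, max H₀ 1, hB, fun H hH xa xb hxa hxb Q hQ hQs P hP hPQ => ?_⟩
  refine (h H ((le_max_left _ _).trans hH) xa xb hxa hxb Q hQ hQs P hP hPQ).trans ?_
  have hH1 : (1 : ℝ) ≤ H := by exact_mod_cast (le_max_right _ _).trans hH
  have hxa0 : 0 < xa := lt_of_lt_of_le (Real.rpow_pos_of_pos (by linarith) _) hxa
  have hle : xa ≤ xb := by nlinarith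
  have := Real.log_le_log hxa0 hle
  exact mul_le_mul_of_nonneg_right (min_le_left _ _) (by linarith)

end

end Pool.Agent.VQ
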