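import Mathlib
import Pool.Agent.Lib.VQ.WDefs
import Pool.Agent.Lib.VQ.PREC

/-!
# Theorem W (MP_663568_nt), row CLU: one polynomial of a region is related to many others.

helper19.
-/

set_option autoImplicit false
open Finset MeasureTheory Polynomial Filter

namespace Pool.Agent.VQ

open Pool.Agent.Lib.MP_663568_nt Pool.Agent.Lib.MP_663568_nt.Katai
  Pool.Agent.Lib.MP_663568_nt.Nul Pool.Agent.SV

noncomputable section

namespace CLUx

theorem norm_muC_le (n : ℕ) : ‖muC n‖ ≤ 1 := by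
  unfold muC
  rw [Complex.norm_intCast]
  exact_mod_cast ArithmeticFunction.abs_moebius_le_one (n := n)

theorem norm_tm (P : ℝ[X]) (m : ℕ) : ‖muC m * ee (P.eval (m : ℝ))‖ ≤ 1 := by
  rw [norm_mul, norm_ee, mul_one]
  exact norm_muC_le m

/-- The window mean as a sum over an interval. -/
theorem Wp_eq (l m : ℕ) (P : ℝ[X]) :
    Wp l m P = ‖∑ n ∈ Ioc m (m + l), muC n * ee (P.eval (n : ℝ))‖ / l := by
  unfold Wp
  congr 2
  rw [show Ioc m (m + l) = (Icc 1 l).map (addLeftEmbedding m) by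
      ext n
      simp only [mem_Ioc, Finset.mem_map, mem_Icc, addLeftEmbedding_apply]
      constructor
      · intro h; exact ⟨n - m, by omega, by omega⟩
      · rintro ⟨a, ha, rfl⟩; omega]
  rw [sum_map]
  refine sum_congr rfl fun h _ => ?_
  rw [addLeftEmbedding_apply]
  push_cast
  rfl

theorem norm_sum_Ioc (P : ℝ[X]) (a b : ℕ) (hab : a ≤ b) :
    ‖∑ n ∈ Ioc a b, muC n * ee (P.eval (n : ℝ))‖ ≤ (b : ℝ) - a := by
  refine (norm_sum_le _ _).trans ((sum_le_sum fun n _ => norm_tm P n).trans ?_)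
  rw [sum_const, Nat.card_Ioc, nsmul_eq_mul, mul_one, Nat.cast_sub hab]

/-- The common part of the windows. -/
theorem common {H L m j : ℕ} (hj : j < L) (hL : L ≤ H) (P : ℝ[X]) :
    (H : ℝ) * Wp H (m + j) P - L ≤ ((H - L : ℕ) : ℝ) * Wp (H - L) (m + L) P := by
  have h0 : ∀ l n : ℕ, (l : ℝ) * Wp l n P =
      ‖∑ k ∈ Ioc n (n + l), muC k * ee (P.eval (k : ℝ))‖ := by
    intro l n
    rw [Wp_eq]
    rcases Nat.eq_zero_or_pos l with hl | hl
    · subst hl; simp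
    · have : (l : ℝ) ≠ 0 := by positivity
      field_simp
  rw [h0, h0, show m + L + (H - L) = m + H by omega]
  have h1 : ∑ k ∈ Ioc (m + j) (m + j + H), muC k * ee (P.eval (k : ℝ)) =
      (∑ k ∈ Ioc (m + j) (m + L), muC k * ee (P.eval (k : ℝ)) +
      ∑ k ∈ Ioc (m + L) (m + H), muC k * ee (P.eval (k : ℝ))) +
      ∑ k ∈ Ioc (m + H) (m + j + H), muC k * ee (P.eval (k : ℝ)) := by
    rw [sum_Ioc_consecutive _ (by omega) (by omega), sum_Ioc_consecutive _ (by omega) (by omega)]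
  rw [h1]
  have h2 := norm_sum_Ioc P (m + j) (m + L) (by omega)
  have h3 := norm_sum_Ioc P (m + H) (m + j + H) (by omega)
  have h4 := norm_add_le (∑ k ∈ Ioc (m + j) (m + L), muC k * ee (P.eval (k : ℝ)) +
      ∑ k ∈ Ioc (m + L) (m + H), muC k * ee (P.eval (k : ℝ)))
    (∑ k ∈ Ioc (m + H) (m + j + H), muC k * ee (P.eval (k : ℝ)))
  have h5 := norm_add_le (∑ k ∈ Ioc (m + j) (m + L), muC k * ee (P.eval (k : ℝ)))
    (∑ k ∈ Ioc (m + L) (m + H), muC k * ee (P.eval (k : ℝ)))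
  push_cast at h2 h3
  linarith

theorem nd_sum_le {ι : Type} (s : Finset ι) (f : ι → ℝ) : nd (∑ i ∈ s, f i) ≤ ∑ i ∈ s, nd (f i) := by
  classical
  induction s using Finset.induction_on with
  | empty => simp [show nd 0 = 0 by simpa using nd_int 0]
  | insert a s ha ih =>
    rw [sum_insert ha, sum_insert ha]
    exact (nd_add_le _ _).trans (by linarith)

/-- The derivative in terms of the Taylor coefficients. -/
theorem deriv_eq (D : ℝ[X]) (t : ℕ) (ht : 1 ≤ t) (hD : D.natDegree ≤ t) (a s : ℝ) :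
    D.derivative.eval (a + s) = ∑ i ∈ range t, ((i : ℝ) + 1) * (taylor a D).coeff (i + 1) * s ^ i := by
  have h1 : D.derivative.eval (a + s) = (taylor a D).derivative.eval s := by
    have h2 : (taylor a D).derivative = taylor a D.derivative := by
      rw [taylor_apply, taylor_apply, derivative_comp]
      simp
    rw [h2, taylor_eval, add_comm]
  rw [h1, eval_eq_sum_range' (n := t)]
  · refine sum_congr rfl fun i _ => ?_
    rw [coeff_derivative]
    ring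
  · have h3 : (taylor a D).natDegree ≤ t := by rw [natDegree_taylor]; exact hD
    exact lt_of_le_of_lt (natDegree_derivative_le _) (by omega)

/-- Change of the base point. -/
theorem base {t q H w : ℕ} (ht : 1 ≤ t) {D : ℝ[X]} (hD : D.natDegree ≤ t) (a : ℝ) (s : ℤ) {K : ℝ}
    (hK : 0 ≤ K) (hH : 1 ≤ H) (hw : 1 ≤ w) (hHw : H ≤ 2 * w) (hs : |(s : ℝ)| ≤ H)
    (h : ∀ i, 1 ≤ i → i ≤ t → nd ((q : ℝ) * (taylor a D).coeff i) ≤ K / (w : ℝ) ^ i) :
    nd ((q : ℝ) * D.derivative.eval (a + s)) ≤ t * (t * 2 ^ t * K) / H := by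
  have hH0 : (0 : ℝ) < H := by exact_mod_cast hH
  have hw0 : (0 : ℝ) < w := by exact_mod_cast hw
  have hHw' : (H : ℝ) ≤ 2 * w := by exact_mod_cast hHw
  rw [deriv_eq D t ht hD, mul_sum]
  refine (nd_sum_le _ _).trans ?_
  have h1 : ∀ i ∈ range t, nd ((q : ℝ) * (((i : ℝ) + 1) * (taylor a D).coeff (i + 1) * (s : ℝ) ^ i)) ≤
      t * 2 ^ t * K / H := by
    intro i hi
    rw [mem_range] at hi
    have e1 : (q : ℝ) * (((i : ℝ) + 1) * (taylor a D).coeff (i + 1) * (s : ℝ) ^ i) =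
        ((((i : ℤ) + 1) * s ^ i : ℤ) : ℝ) * ((q : ℝ) * (taylor a D).coeff (i + 1)) := by
      push_cast; ring
    rw [e1]
    refine (nd_int_mul_le _ _).trans ?_
    have e2 := h (i + 1) (by omega) (by omega)
    have e3 : |((((i : ℤ) + 1) * s ^ i : ℤ) : ℝ)| ≤ t * (H : ℝ) ^ i := by
      push_cast
      rw [abs_mul, abs_pow, abs_of_nonneg (by positivity : (0 : ℝ) ≤ (i : ℝ) + 1)]
      have : (i : ℝ) + 1 ≤ t := by exact_mod_cast hi
      gcongr
    have e4 : (H : ℝ) ^ (i + 1) ≤ 2 ^ t * (w : ℝ) ^ (i + 1) := by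
      calc (H : ℝ) ^ (i + 1) ≤ (2 * w) ^ (i + 1) := by gcongr
        _ = 2 ^ (i + 1) * (w : ℝ) ^ (i + 1) := mul_pow _ _ _
        _ ≤ 2 ^ t * (w : ℝ) ^ (i + 1) := by
          have : (2 : ℝ) ^ (i + 1) ≤ 2 ^ t := pow_le_pow_right₀ (by norm_num) hi
          gcongr
    calc |((((i : ℤ) + 1) * s ^ i : ℤ) : ℝ)| * nd ((q : ℝ) * (taylor a D).coeff (i + 1)) ≤
          (t * (H : ℝ) ^ i) * (K / (w : ℝ) ^ (i + 1)) :=
          mul_le_mul e3 e2 (nd_nonneg _) (by positivity)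
      _ ≤ t * 2 ^ t * K / H := by
          rw [le_div_iff₀ hH0]
          have e5 : (t : ℝ) * (H : ℝ) ^ i * (K / (w : ℝ) ^ (i + 1)) * H =
              t * K * ((H : ℝ) ^ (i + 1) / (w : ℝ) ^ (i + 1)) := by
            rw [pow_succ (H : ℝ)]; ring
          rw [e5]
          have e6 : (H : ℝ) ^ (i + 1) / (w : ℝ) ^ (i + 1) ≤ 2 ^ t := by
            rw [div_le_iff₀ (by positivity)]; exact e4
          calc (t : ℝ) * K * ((H : ℝ) ^ (i + 1) / (w : ℝ) ^ (i + 1)) ≤ t * K * 2 ^ t := by gcongr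
            _ = t * 2 ^ t * K := by ring
  refine (sum_le_sum h1).trans (le_of_eq ?_)
  rw [sum_const, card_range, nsmul_eq_mul]
  ring

end CLUx

open CLUx in
/-- Row CLU. -/
theorem clu : CLU_stmt := by
  classical
  intro hP t ε ht hε hε1
  obtain ⟨C₀, hC1, hC⟩ := TU.weyl_all t ht
  obtain ⟨c, hc⟩ : ∃ c : ℝ, c = ε ^ 2 / 32 := ⟨_, rfl⟩
  have hε2 : ε ^ 2 ≤ 1 := pow_le_one₀ hε.le hε1
  have hc0 : 0 < c := by rw [hc]; positivity
  have hc2 : c ≤ 1 / 2 := by rw [hc]; linarith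
  obtain ⟨K₀, hK₀⟩ : ∃ K₀ : ℝ, K₀ = (1 / c) ^ C₀ := ⟨_, rfl⟩
  have hK₀0 : 0 < K₀ := by rw [hK₀]; positivity
  obtain ⟨qs, hqs⟩ : ∃ qs : ℕ, qs = (⌊K₀⌋₊).factorial := ⟨_, rfl⟩
  have hqs1 : 1 ≤ qs := by rw [hqs]; exact Nat.factorial_pos _
  have hqs0 : (0 : ℝ) < qs := by exact_mod_cast hqs1
  refine ⟨ε / 8 * c, t * (t * 2 ^ t * (qs * K₀)), qs, ⌈2 * K₀⌉₊ + ⌈32 / ε⌉₊ + 2, by positivity,
    ?_, by positivity, hqs1, ?_⟩
  · have : ε / 8 * c ≤ 1 * (1 / 2) := mul_le_mul (by linarith) hc2 hc0.le (by norm_num)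
    linarith
  intro H L m₀ hH hL J Q hJ hJc hQd hQ
  have hH1 : 1 ≤ H := by omega
  have hH0 : (0 : ℝ) < H := by exact_mod_cast hH1
  have hHK : 2 * K₀ ≤ H := (Nat.le_ceil _).trans (by exact_mod_cast (by omega : ⌈2 * K₀⌉₊ ≤ H))
  have hHε : 32 / ε ≤ H := (Nat.le_ceil _).trans (by exact_mod_cast (by omega : ⌈32 / ε⌉₊ ≤ H))
  have hLu : (L : ℝ) ≤ ε / 16 * H := by rw [hL]; exact Nat.floor_le (by positivity)
  have hLl : ε / 16 * H - 1 < L := by rw [hL]; exact Nat.sub_one_lt_floor _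
  have hL1 : 1 ≤ L := by
    rw [div_le_iff₀ hε] at hHε
    have : (0 : ℝ) < L := by linarith
    exact_mod_cast this
  have hL0 : (0 : ℝ) < L := by exact_mod_cast hL1
  have hLH2 : 2 * L ≤ H := by
    have : (2 : ℝ) * L ≤ H := by
      have : ε / 16 * H ≤ 1 / 16 * H := by gcongr
      linarith
    exact_mod_cast this
  have hw1 : 1 ≤ H - L := by omega
  have hwc : ((H - L : ℕ) : ℝ) = (H : ℝ) - L := by rw [Nat.cast_sub (by omega)]
  have hw0 : (0 : ℝ) < ((H - L : ℕ) : ℝ) := by exact_mod_cast hw1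
  have hcom : ∀ j ∈ J, ε / 4 ≤ Wp (H - L) (m₀ + L) (Q j) := by
    intro j hj
    have h1 := common (H := H) (m := m₀) (hJ j hj) (by omega) (Q j)
    have h2 := mul_le_mul_of_nonneg_left (hQ j hj) hH0.le
    have h3 : ((H - L : ℕ) : ℝ) * (ε / 4) ≤ ((H - L : ℕ) : ℝ) * Wp (H - L) (m₀ + L) (Q j) := by
      rw [hwc] at h1 ⊢
      have h4 : 0 ≤ ε * L := by positivity
      linarith
    exact le_of_mul_le_mul_left h3 hw0
  -- the pairs
  have h1 := hP (H - L) (m₀ + L) J (fun _ => 1) Q (ε / 4) hw1 (fun _ _ => zero_le_one)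
    (by linarith) hcom
  simp only [one_mul] at h1
  rw [sum_const, nsmul_eq_mul, mul_one] at h1
  have hJ0 : (0 : ℝ) < #J := lt_of_lt_of_le (by positivity) hJc
  obtain ⟨j₀, hj₀, hj₀s⟩ : ∃ j₀ ∈ J, ε ^ 2 / 16 * (#J : ℝ) ≤
      ∑ j ∈ J, Kp (H - L) (m₀ + L) (Q j₀ - Q j) := by
    by_contra hcon
    push Not at hcon
    have hne : J.Nonempty := by
      rw [← card_pos]
      exact_mod_cast hJ0
    have h2 := sum_lt_sum_of_nonempty hne hcon
    rw [sum_const, nsmul_eq_mul] at h2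
    have h3 : (ε / 4) ^ 2 * (#J : ℝ) ^ 2 = (#J : ℝ) * (ε ^ 2 / 16 * (#J : ℝ)) := by ring
    linarith
  have hKp0 : ∀ D : ℝ[X], Kp (H - L) (m₀ + L) D ≤ 1 := by
    intro D
    unfold Kp
    rw [div_le_one hw0]
    refine (norm_sum_le _ _).trans ?_
    simp only [norm_ee]
    rw [sum_const, Nat.card_Icc, nsmul_eq_mul, mul_one]
    simp
  have hmany : c * (#J : ℝ) ≤
      (#(J.filter fun j => c ≤ Kp (H - L) (m₀ + L) (Q j₀ - Q j)) : ℝ) := by
    have h2 : ∑ j ∈ J, Kp (H - L) (m₀ + L) (Q j₀ - Q j) ≤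
        ∑ j ∈ J, ((if c ≤ Kp (H - L) (m₀ + L) (Q j₀ - Q j) then (1 : ℝ) else 0) + c) := by
      refine sum_le_sum fun j _ => ?_
      split_ifs with h3
      · linarith [hKp0 (Q j₀ - Q j)]
      · linarith [lt_of_not_ge h3]
    rw [sum_add_distrib, sum_const, nsmul_eq_mul, ← sum_filter, sum_const, nsmul_eq_mul,
      mul_one] at h2
    have h3 : ε ^ 2 / 16 * (#J : ℝ) = 2 * c * (#J : ℝ) := by rw [hc]; ring
    linarith
  refine ⟨Q j₀, hQd j₀ hj₀, hcom j₀ hj₀, ?_⟩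
  have hsub : (J.filter fun j => c ≤ Kp (H - L) (m₀ + L) (Q j₀ - Q j)) ⊆
      (J.filter fun j : ℕ => nd ((qs : ℝ) * ((Q j₀).derivative.eval ((m₀ : ℝ) + j) -
        (Q j).derivative.eval ((m₀ : ℝ) + j))) ≤ t * (t * 2 ^ t * (qs * K₀)) / H) := by
    intro j hj
    rw [mem_filter] at hj ⊢
    refine ⟨hj.1, ?_⟩
    obtain ⟨D, hD⟩ : ∃ D, D = Q j₀ - Q j := ⟨_, rfl⟩
    have hDd : D.natDegree ≤ t := by
      rw [hD]
      exact (natDegree_sub_le _ _).trans (max_le (hQd j₀ hj₀) (hQd j hj.1))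
    have h2 : c * ((H - L : ℕ) : ℝ) ≤
        ‖∑ h ∈ Icc 1 (H - L), ee ((taylor ((m₀ + L : ℕ) : ℝ) D).eval (h : ℝ))‖ := by
      have h3 := hj.2
      rw [← hD, Kp, le_div_iff₀ hw0] at h3
      refine h3.trans (le_of_eq ?_)
      congr 1
      refine sum_congr rfl fun h _ => ?_
      rw [taylor_eval, add_comm]
    have hwK : (1 / c) ^ C₀ ≤ ((H - L : ℕ) : ℝ) := by
      rw [← hK₀, hwc]
      have : (2 : ℝ) * L ≤ H := by exact_mod_cast hLH2
      linarith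
    obtain ⟨q, hq1, hq2, hq3⟩ := hC c (H - L) (taylor ((m₀ + L : ℕ) : ℝ) D) hc0 hc2 hwK
      (by rw [natDegree_taylor]; exact hDd) h2
    rw [← hK₀] at hq2 hq3
    have hdvd : q ∣ qs := by rw [hqs]; exact PRECx.dvd_fact q hq1 _ hq2
    have h4 : ∀ i, 1 ≤ i → i ≤ t → nd ((qs : ℝ) * (taylor ((m₀ + L : ℕ) : ℝ) D).coeff i) ≤
        (qs * K₀) / ((H - L : ℕ) : ℝ) ^ i := by
      intro i hi1 hi2
      refine (PRECx.nd_dvd q qs hq1 hdvd _).trans ?_
      rw [mul_div_assoc]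
      exact mul_le_mul_of_nonneg_left (hq3 i hi1 hi2) hqs0.le
    have hjL := hJ j hj.1
    have h5 := base (q := qs) (H := H) ht hDd ((m₀ + L : ℕ) : ℝ) ((j : ℤ) - L) (K := qs * K₀)
      (by positivity) hH1 hw1 (by omega) (by
        push_cast
        rw [abs_le]
        have h6 : (j : ℝ) ≤ L := by exact_mod_cast hjL.le
        have h7 : (2 : ℝ) * L ≤ H := by exact_mod_cast hLH2
        have h8 : (0 : ℝ) ≤ j := Nat.cast_nonneg _
        constructor <;> linarith) h4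
    have h6 : D.derivative.eval (((m₀ + L : ℕ) : ℝ) + (((j : ℤ) - L : ℤ) : ℝ)) =
        (Q j₀).derivative.eval ((m₀ : ℝ) + j) - (Q j).derivative.eval ((m₀ : ℝ) + j) := by
      rw [hD, derivative_sub, eval_sub]
      push_cast
      congr 2 <;> ring
    rw [h6] at h5
    exact h5
  have h2 : (#(J.filter fun j => c ≤ Kp (H - L) (m₀ + L) (Q j₀ - Q j)) : ℝ) ≤
      (#(J.filter fun j : ℕ => nd ((qs : ℝ) * ((Q j₀).derivative.eval ((m₀ : ℝ) + j) -
        (Q j).derivative.eval ((m₀ : ℝ) + j))) ≤ t * (t * 2 ^ t * (qs * K₀)) / H) : ℝ) := by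
    exact_mod_cast card_le_card hsub
  have h3 := mul_le_mul_of_nonneg_left hJc hc0.le
  have h4 : ε / 8 * c * (L : ℝ) ≤ c * (#J : ℝ) := by linarith
  refine (h4.trans hmany).trans (h2.trans (le_of_eq ?_))
  congr!

end

end Pool.Agent.VQ
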