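import Mathlib
import Pool.Agent.Lib.VQ.Defs

/-!
# Theorem VQ (MP_663568_nt), row STEP: the induction step.  (helper28)
-/

set_option autoImplicit false
open Finset MeasureTheory Polynomial

namespace Pool.Agent.VQ

open Pool.Agent.Lib.MP_663568_nt Pool.Agent.Lib.MP_663568_nt.Katai
  Pool.Agent.Lib.MP_663568_nt.Nul Pool.Agent.SV

theorem SlowP.mono {Q : ℕ → ℝ[X]} {K₁ K₂ : ℝ} (h : SlowP Q K₁) (hK : K₁ ≤ K₂) : SlowP Q K₂ :=
  fun j => (h j).trans hK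

/-- The conditions on the size of `H`. -/
theorem step_large (η W : ℝ) (hη : 0 < η) : ∃ H₀ : ℕ, ∀ H : ℕ, H₀ ≤ H →
    W ≤ H ∧ 4 ≤ (H : ℝ) ∧ 1 ≤ Real.log H ∧ W ≤ (H : ℝ) ^ (1 / 2 : ℝ) ∧
    (H : ℝ) ^ (1 / 2 : ℝ) + 1 ≤ η * (H : ℝ) ^ (1 - 1 / 8 : ℝ) ∧
    2 * (H : ℝ) ^ (1 / 8 : ℝ) ≤ H := by
  have t := tendsto_natCast_atTop_atTop (R := ℝ)
  have h1 := (tendsto_rpow_atTop (show (0 : ℝ) < 1 / 2 by norm_num)).comp t
  have h2 := (tendsto_rpow_atTop (show (0 : ℝ) < 3 / 8 by norm_num)).comp t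
  have h3 := (tendsto_rpow_atTop (show (0 : ℝ) < 7 / 8 by norm_num)).comp t
  have h4 := Real.tendsto_log_atTop.comp t
  obtain ⟨X₁, hX₁⟩ := Filter.eventually_atTop.1
    ((((((t.eventually_ge_atTop W).and (t.eventually_ge_atTop 4)).and
      (h4.eventually_ge_atTop 1)).and (h1.eventually_ge_atTop W)).and
      (h2.eventually_ge_atTop (2 / η))).and (h3.eventually_ge_atTop 2))
  refine ⟨X₁, fun H hH => ?_⟩
  obtain ⟨⟨⟨⟨⟨a1, a2⟩, a3⟩, a4⟩, a5⟩, a6⟩ := hX₁ H hH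
  simp only [Function.comp_apply] at a1 a2 a3 a4 a5 a6
  have hH0 : (0 : ℝ) < H := by linarith
  have hH1 : (1 : ℝ) ≤ H := by linarith
  refine ⟨a1, a2, a3, a4, ?_, ?_⟩
  · have e1 : (H : ℝ) ^ (1 - 1 / 8 : ℝ) = (H : ℝ) ^ (1 / 2 : ℝ) * (H : ℝ) ^ (3 / 8 : ℝ) := by
      rw [← Real.rpow_add hH0]; norm_num
    have e2 : 1 ≤ (H : ℝ) ^ (1 / 2 : ℝ) := Real.one_le_rpow hH1 (by norm_num)
    rw [div_le_iff₀ hη] at a5
    rw [e1]
    have e3 : (H : ℝ) ^ (1 / 2 : ℝ) * 2 ≤ (H : ℝ) ^ (1 / 2 : ℝ) * ((H : ℝ) ^ (3 / 8 : ℝ) * η) := by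
      gcongr
    linarith
  · have e1 : (H : ℝ) = (H : ℝ) ^ (7 / 8 : ℝ) * (H : ℝ) ^ (1 / 8 : ℝ) := by
      rw [← Real.rpow_add hH0]; norm_num
    calc 2 * (H : ℝ) ^ (1 / 8 : ℝ) ≤ (H : ℝ) ^ (7 / 8 : ℝ) * (H : ℝ) ^ (1 / 8 : ℝ) := by gcongr
      _ = H := e1.symm

theorem step : STEP_stmt := by
  classical
  intro hWIN hTKG hDIL hPAIR hSYA hPREC hSYB hOKQ hRICH hDESC hRED t ht hV A ε₀ hA hε₀
  obtain ⟨ε, hε⟩ : ∃ ε : ℝ, ε = min ε₀ 1 := ⟨_, rfl⟩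
  have hε0 : 0 < ε := by rw [hε]; exact lt_min hε₀ one_pos
  have hε1 : ε ≤ 1 := by rw [hε]; exact min_le_right _ _
  have hεε : ε ≤ ε₀ := by rw [hε]; exact min_le_left _ _
  obtain ⟨κ₁, η, B₁, hκ₁, hκ₁₂, hη, hη1, hB₁, H₁, hD⟩ := hDIL hTKG A ε (1 / 8) hA hε0 hε1
    (by norm_num) (by norm_num)
  obtain ⟨c, B₂, H₂, hc, hc1, hB₂, hSA⟩ := hSYA hPAIR A (ε / 2) κ₁ (1 / 8) hA (by positivity)
    (by linarith) hκ₁ hκ₁₂ (by norm_num)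
  obtain ⟨δ, B₃, Q₂, H₃, hδ, hδ1, hB₃, hQ₂, hSB⟩ := hSYB hPREC t A κ₁ (1 / 8) (ε / 2 / 4) c ht hA
    hκ₁ hκ₁₂ (by norm_num) (by positivity) hc hc1
  obtain ⟨H₄, hOK⟩ := hOKQ A κ₁ (1 / 8) hA hκ₁ hκ₁₂ (by norm_num)
  obtain ⟨c₅, B₅, Q₀, H₅, hc₅, hB₅, hQ₀, hRI⟩ := hRICH t (A + 1) κ₁ (1 / 8) (δ / 2) (by omega)
    (by linarith) hκ₁ hκ₁₂ (by norm_num) (by positivity) (by linarith)
  obtain ⟨Qs, hQs⟩ : ∃ Qs : ℕ, Qs = Q₀ * Q₂ := ⟨_, rfl⟩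
  have hQs1 : 1 ≤ Qs := by rw [hQs]; exact Nat.mul_pos hQ₀ hQ₂
  have hQsR : (1 : ℝ) ≤ Qs := by exact_mod_cast hQs1
  obtain ⟨AR, hAR⟩ : ∃ AR : ℝ, AR = 2 * (A + 2) := ⟨_, rfl⟩
  obtain ⟨BR, hBR⟩ : ∃ BR : ℝ, BR = 2 * (B₅ + 1 + B₃ + 2 * ((t : ℝ) - 1)) := ⟨_, rfl⟩
  have ht1 : (1 : ℝ) ≤ (t : ℝ) - 1 := by
    have : (2 : ℝ) ≤ t := by exact_mod_cast ht
    linarith
  obtain ⟨e, he⟩ : ∃ e : ℝ, e = ε / 2 / 4 := ⟨_, rfl⟩
  have he0 : 0 < e := by rw [he]; positivity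
  obtain ⟨A₆, B₆, l₆, hA₆, hB₆, hRE⟩ := hRED t Qs AR BR (e * c₅ / 16) ht hQs1
    (by rw [hAR]; linarith) (by rw [hBR]; linarith) (by positivity)
  obtain ⟨B₇, H₇, hB₇, hV'⟩ := hV A₆ (e * c₅ / (8 * Qs)) hA₆ (by positivity)
  obtain ⟨W, hW⟩ : ∃ W : ℝ, W = (H₁ + H₂ + H₃ + H₄ + H₇ + l₆ : ℝ) + |H₅| := ⟨_, rfl⟩
  obtain ⟨H₀, hH₀⟩ := step_large η W hη
  refine ⟨B₁ + B₂ + B₃ + B₅ + B₆ + B₇ + 1, H₀, by positivity, ?_⟩
  intro H hH xa xb hxa hxb Q hQ hS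
  obtain ⟨w1, w2, w3, w4, w5, w6⟩ := hH₀ H hH
  have hn : ∀ n : ℕ, (0 : ℝ) ≤ n := fun n => Nat.cast_nonneg n
  have hWn : ∀ n : ℕ, (n : ℝ) ≤ W → n ≤ H := fun n h => by exact_mod_cast h.trans w1
  have h5a := abs_nonneg H₅
  have hH1' : H₁ ≤ H := hWn _ (by rw [hW]; linarith [hn H₂, hn H₃, hn H₄, hn H₇, hn l₆])
  have hH2' : H₂ ≤ H := hWn _ (by rw [hW]; linarith [hn H₁, hn H₃, hn H₄, hn H₇, hn l₆])
  have hH3' : H₃ ≤ H := hWn _ (by rw [hW]; linarith [hn H₁, hn H₂, hn H₄, hn H₇, hn l₆])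
  have hH4' : H₄ ≤ H := hWn _ (by rw [hW]; linarith [hn H₁, hn H₂, hn H₃, hn H₇, hn l₆])
  have hH5' : H₅ ≤ H := by
    refine le_trans ?_ w1
    rw [hW]
    linarith [hn H₁, hn H₂, hn H₃, hn H₄, hn H₇, hn l₆, le_abs_self H₅]
  have hH0 : (0 : ℝ) < H := by linarith
  have hH1 : (1 : ℝ) ≤ H := by linarith
  have hpos : ∀ y : ℝ, 0 < (H : ℝ) ^ y := fun y => Real.rpow_pos_of_pos hH0 y
  have hxa1 : 1 ≤ xa := (Real.one_le_rpow hH1 (by positivity)).trans hxa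
  by_contra hcon
  replace hcon := lt_of_not_ge hcon
  have hxa0 : 0 < xa := by linarith
  have hxab : xa ≤ xb := by
    refine le_trans ?_ hxb
    calc xa = xa * 1 := (mul_one _).symm
      _ ≤ xa * H := by gcongr
  have hlx : 0 ≤ Real.log xb - Real.log xa := by
    have := Real.log_le_log hxa0 hxab
    linarith
  obtain ⟨ya, yb, hya, hyb, hl1, hl2, hyab, hsum⟩ := hWIN ε xa xb (Real.log H)
    (fun n => Wp H n (Q n)) hxa1 (by linarith) (by rw [Real.exp_log hH0]; exact hxb)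
    (lt_of_le_of_lt (mul_le_mul_of_nonneg_right hεε hlx) hcon)
  have hya1 : 1 ≤ ya := hxa1.trans hya
  have hya0 : 0 < ya := by linarith
  have hyb0 : 0 < yb := by linarith
  obtain ⟨Λ, hΛ⟩ : ∃ Λ : ℝ, Λ = Real.log yb - Real.log ya := ⟨_, rfl⟩
  have hΛ1 : 1 ≤ Λ := by rw [hΛ]; linarith
  have hyH : ya * H ≤ yb := by
    rw [← Real.log_le_log_iff (by positivity) hyb0, Real.log_mul hya0.ne' hH0.ne']
    linarith
  have hyH2 : yb ≤ ya * (H : ℝ) ^ 2 := by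
    rw [← Real.log_le_log_iff hyb0 (by positivity), Real.log_mul hya0.ne' (by positivity),
      Real.log_pow]
    push_cast
    linarith
  have hyB : ∀ y : ℝ, y ≤ B₁ + B₂ + B₃ + B₅ + B₆ + B₇ + 1 → (H : ℝ) ^ y ≤ ya := fun y hy =>
    (Real.rpow_le_rpow_of_exponent_le hH1 hy).trans (hxa.trans hya)
  -- the lower level
  obtain ⟨hLs, hD⟩ := hD H hH1'
  have hD := hD ya yb (hyB _ (by linarith)) hyH Q hS hsum.le
  obtain ⟨l, hl⟩ : ∃ l : ℕ, l = ⌊η * (H : ℝ) ^ (1 - 1 / 8 : ℝ)⌋₊ := ⟨_, rfl⟩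
  rw [← hl] at hD
  have hlb : (H : ℝ) ^ (1 / 2 : ℝ) ≤ l := by
    have := Nat.lt_floor_add_one (η * (H : ℝ) ^ (1 - 1 / 8 : ℝ))
    rw [← hl] at this
    linarith
  have hlH : l ≤ H := by
    rw [hl]
    refine Nat.floor_le_of_le ?_
    calc η * (H : ℝ) ^ (1 - 1 / 8 : ℝ) ≤ 1 * (H : ℝ) ^ (1 : ℝ) := by
          gcongr
          norm_num
      _ = (H : ℕ) := by rw [one_mul, Real.rpow_one]
  have hlHR : (l : ℝ) ≤ H := by exact_mod_cast hlH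
  have hl1R : (1 : ℝ) ≤ l := (Real.one_le_rpow hH1 (by norm_num)).trans hlb
  have hl1N : 1 ≤ l := by exact_mod_cast hl1R
  have hlW : ∀ n : ℕ, (n : ℝ) ≤ W → n ≤ l := fun n h => by
    exact_mod_cast h.trans (w4.trans hlb)
  -- powers of `H` and powers of `l`
  have hHl : ∀ y : ℝ, 0 ≤ y → (H : ℝ) ^ y ≤ (l : ℝ) ^ (2 * y) := by
    intro y hy
    calc (H : ℝ) ^ y = ((H : ℝ) ^ (1 / 2 : ℝ)) ^ (2 * y) := by
          rw [← Real.rpow_mul hH0.le]; congr 1; ring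
      _ ≤ (l : ℝ) ^ (2 * y) := Real.rpow_le_rpow (hpos _).le hlb (by positivity)
  have hlHy : ∀ y : ℝ, 0 ≤ y → (l : ℝ) ^ y ≤ (H : ℝ) ^ y := fun y hy =>
    Real.rpow_le_rpow (by positivity) hlHR hy
  -- the pairs
  obtain ⟨K, hK⟩ : ∃ K : ℕ, K = ⌈(H : ℝ) ^ (A + 1)⌉₊ := ⟨_, rfl⟩
  obtain ⟨hNm, hNs⟩ := hSA H hH2' hLs ya yb (hyB _ (by linarith)) hyH hyH2 Q hS l hl1N hlH hD
  rw [← hK] at hNm hNs
  obtain ⟨b, G, hGm, hG, hmass⟩ := hSB H hH3' hLs ya yb (hyB _ (by linarith)) hyH hyH2 Q hQ l K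
    hlb hlH hK hNm hNs
  -- the system
  obtain ⟨tau, htau⟩ : ∃ tau : ℝ, tau = (H : ℝ) ^ B₃ / ya ^ (t - 1) := ⟨_, rfl⟩
  have htau0 : 0 ≤ tau := by rw [htau]; have := hpos B₃; positivity
  rw [← htau] at hG
  have hok := hOK H hH4' hLs t Q₂ Q b G tau ya yb hya1 hyab.le htau0 hS hGm (fun p u hu => by
    obtain ⟨g1, g2, g3, _, _, g6⟩ := hG p u hu
    exact ⟨g1, g2, g3, g6⟩)
  have hyat : ya ≤ ya ^ (t - 1) := by
    obtain ⟨n, hn⟩ : ∃ n, t - 1 = n + 1 := ⟨t - 2, by omega⟩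
    rw [hn, pow_succ]
    have : 1 ≤ ya ^ n := one_le_pow₀ hya1
    have := mul_le_mul_of_nonneg_right this hya0.le
    linarith
  have htauB : tau ≤ (H : ℝ) ^ (-B₅) := by
    rw [htau, div_le_iff₀ (by positivity)]
    have h1 : (H : ℝ) ^ (B₃ + B₅) ≤ ya := hyB _ (by linarith)
    calc (H : ℝ) ^ B₃ = (H : ℝ) ^ (-B₅) * (H : ℝ) ^ (B₃ + B₅) := by
          rw [← Real.rpow_add hH0]; congr 1; ring
      _ ≤ (H : ℝ) ^ (-B₅) * ya ^ (t - 1) := by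
          have := hpos (-B₅)
          gcongr
          exact h1.trans hyat
  have hlog8 : Real.log ((H : ℝ) ^ (1 / 8 : ℝ)) = 1 / 8 * Real.log H := Real.log_rpow hH0 _
  have hRI' := hRI H hH5' _ _ hok le_rfl htauB (by
    show δ / 2 * (Real.log yb - (Real.log ya - Real.log ((H : ℝ) ^ (1 / 8 : ℝ)))) ≤ _
    refine le_trans ?_ hmass
    rw [hlog8]
    have h1 : Real.log yb - (Real.log ya - 1 / 8 * Real.log H) ≤
        2 * (Real.log yb - Real.log ya) := by linarith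
    calc δ / 2 * (Real.log yb - (Real.log ya - 1 / 8 * Real.log H)) ≤
          δ / 2 * (2 * (Real.log yb - Real.log ya)) := by gcongr
      _ = _ := by ring)
  obtain ⟨q, hqP, S, hSm, hSG, hSv, hSb⟩ := hRI'
  have hSG' : S ⊆ G q := hSG
  have hSb' : ∀ u ∈ S, ∃ j : ℤ, |b u - j / Q₀| ≤ (H : ℝ) ^ B₅ * tau := hSb
  have hSv' : c₅ * (Real.log yb - (Real.log ya - Real.log ((H : ℝ) ^ (1 / 8 : ℝ)))) ≤
    (volume S).toReal := hSv
  have hqPP : q ∈ PPs H κ₁ (1 / 8) := hqP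
  have hq : q.Prime ∧ (q : ℝ) ≤ (H : ℝ) ^ (1 / 8 : ℝ) := by
    unfold PPs at hqPP
    rw [mem_filter, mem_Icc] at hqPP
    exact ⟨hqPP.2.1, (Nat.le_floor_iff (hpos _).le).1 hqPP.1.2⟩
  have hq1 : 1 ≤ q := hq.1.one_lt.le
  have hq1R : (1 : ℝ) ≤ q := by exact_mod_cast hq1
  have hq0R : (0 : ℝ) < q := by linarith
  -- the new window
  obtain ⟨za, hza⟩ : ∃ za : ℝ, za = ya / (2 * (H : ℝ) ^ (1 / 8 : ℝ)) := ⟨_, rfl⟩
  have hP8 := hpos (1 / 8)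
  have hzaB : ∀ y : ℝ, y ≤ B₁ + B₂ + B₃ + B₅ + B₆ + B₇ → (H : ℝ) ^ y ≤ za := by
    intro y hy
    rw [hza, le_div_iff₀ (by positivity)]
    calc (H : ℝ) ^ y * (2 * (H : ℝ) ^ (1 / 8 : ℝ)) ≤ (H : ℝ) ^ y * H := by
          have := hpos y
          gcongr
      _ = (H : ℝ) ^ (y + 1) := by rw [Real.rpow_add hH0, Real.rpow_one]
      _ ≤ ya := hyB _ (by linarith)
  have hza1 : 1 ≤ za := by
    have := hzaB 0 (by positivity)
    rwa [Real.rpow_zero] at this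
  have hza0 : 0 < za := by linarith
  have hzaya : za ≤ ya := by
    rw [hza]
    refine div_le_self hya0.le ?_
    have : 1 ≤ (H : ℝ) ^ (1 / 8 : ℝ) := Real.one_le_rpow hH1 (by norm_num)
    linarith
  obtain ⟨τ, hτ⟩ : ∃ τ : ℝ, τ = ((H : ℝ) ^ B₅ + 1) * tau := ⟨_, rfl⟩
  have hτ0 : 0 ≤ τ := by rw [hτ]; have := hpos B₅; positivity
  have hQ₀R : (0 : ℝ) < Q₀ := by exact_mod_cast hQ₀
  have hKb : (K : ℝ) + 2 ≤ (l : ℝ) ^ AR := by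
    have h1 : (K : ℝ) ≤ (H : ℝ) ^ (A + 1) + 1 := by
      rw [hK]
      exact (Nat.ceil_lt_add_one (hpos _).le).le
    have h2 : 1 ≤ (H : ℝ) ^ (A + 1) := Real.one_le_rpow hH1 (by linarith)
    have h3 : (H : ℝ) ^ (A + 2) = H * (H : ℝ) ^ (A + 1) := by
      rw [show A + 2 = 1 + (A + 1) by ring, Real.rpow_add hH0, Real.rpow_one]
    have h4 : 4 * (H : ℝ) ^ (A + 1) ≤ H * (H : ℝ) ^ (A + 1) := by gcongr
    rw [hAR]
    refine le_trans ?_ (hHl (A + 2) (by linarith))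
    rw [h3]
    linarith
  have hK1 : 1 ≤ K := by
    rw [hK]
    exact Nat.ceil_pos.2 (hpos _)
  obtain ⟨Q', hQ'd, hQ's, hQ'c, hQ'm⟩ := hDESC t Q₀ Q₂ q l K za yb e τ Q S (by omega) hQ₀ hQ₂ hq1
    hl1N hK1 hza1 he0.le hτ0 hQ hSm (fun u hu => by
      obtain ⟨_, g2, g3, g4, g5, k, hk⟩ := hG q u (hSG' hu)
      obtain ⟨j, hj⟩ := hSb' u hu
      have h1 : ya / q ≤ Real.exp u := by
        rw [← Real.exp_log hya0, ← Real.exp_log hq0R, ← Real.exp_sub]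
        exact Real.exp_le_exp.2 (by simpa using g2)
      have h2 : Real.exp u ≤ yb / q := by
        rw [← Real.exp_log hyb0, ← Real.exp_log hq0R, ← Real.exp_sub]
        exact Real.exp_le_exp.2 (by simpa using g3)
      refine ⟨?_, ?_, g4, ?_, j + k * Q₀, ?_⟩
      · have h3 : 2 * za ≤ Real.exp u := by
          refine le_trans ?_ h1
          rw [hza]
          rw [mul_div_assoc', div_le_div_iff₀ (by positivity) hq0R]
          calc 2 * ya * q ≤ 2 * ya * (H : ℝ) ^ (1 / 8 : ℝ) := by gcongr; exact hq.2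
            _ = ya * (2 * (H : ℝ) ^ (1 / 8 : ℝ)) := by ring
        have h4 := Nat.lt_floor_add_one (Real.exp u)
        linarith
      · refine (Nat.floor_le (Real.exp_pos u).le).trans (h2.trans (div_le_self hyb0.le hq1R))
      · rw [he]; exact g5
      · have e1 : (q : ℝ) ^ t * ((Q₂ : ℝ) * (Q ⌊(q : ℝ) * Real.exp u⌋₊).coeff t) -
            ((j + k * Q₀ : ℤ) : ℝ) / Q₀ =
            ((q : ℝ) ^ t * ((Q₂ : ℝ) * (Q ⌊(q : ℝ) * Real.exp u⌋₊).coeff t) - b u - k) +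
              (b u - j / Q₀) := by
          push_cast
          field_simp
          ring
        rw [e1, hτ]
        refine (abs_add_le _ _).trans ?_
        linarith)
  -- reduction of the degree
  obtain ⟨R, hRd, hRs, hRm⟩ := hRE l (hlW _ (by
      rw [hW]; linarith [hn H₁, hn H₂, hn H₃, hn H₄, hn H₇])) za yb
    ((hlHy _ hB₆).trans (hzaB _ (by linarith))) (hzaya.trans hyab.le) Q' hQ'd (hQ's.mono hKb)
    (fun m hm1 hm2 => by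
      obtain ⟨j, hj⟩ := hQ'c m
      refine ⟨j, ?_⟩
      rw [← hQs] at hj
      refine hj.trans ?_
      have hm0 : (0 : ℝ) < m := by linarith
      have hmt : (m : ℝ) ^ (t - 1) ≤ (ya * (H : ℝ) ^ 2) ^ (t - 1) :=
        pow_le_pow_left₀ hm0.le (hm2.trans hyH2) _
      rw [le_div_iff₀ (by positivity), hτ, htau]
      have h1 : ((H : ℝ) ^ B₅ + 1) ≤ (H : ℝ) ^ (B₅ + 1) := by
        rw [Real.rpow_add hH0, Real.rpow_one]
        have h2 : 1 ≤ (H : ℝ) ^ B₅ := Real.one_le_rpow hH1 hB₅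
        have h3 : (H : ℝ) ^ B₅ * 2 ≤ (H : ℝ) ^ B₅ * H := by gcongr; linarith
        linarith
      have h3 : ((H : ℝ) ^ 2) ^ (t - 1) = (H : ℝ) ^ (2 * ((t : ℝ) - 1)) := by
        rw [← pow_mul, ← Real.rpow_natCast]
        congr 1
        push_cast [Nat.cast_sub (show 1 ≤ t by omega)]
        ring
      have h4 : (0 : ℝ) < ya ^ (t - 1) := by positivity
      have h5 := hpos B₃
      calc ((H : ℝ) ^ B₅ + 1) * ((H : ℝ) ^ B₃ / ya ^ (t - 1)) * (m : ℝ) ^ (t - 1)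
          ≤ (H : ℝ) ^ (B₅ + 1) * ((H : ℝ) ^ B₃ / ya ^ (t - 1)) *
            (ya * (H : ℝ) ^ 2) ^ (t - 1) := by gcongr
        _ = (H : ℝ) ^ (B₅ + 1) * (H : ℝ) ^ B₃ * ((H : ℝ) ^ 2) ^ (t - 1) := by
            rw [mul_pow]
            field_simp
        _ = (H : ℝ) ^ (B₅ + 1 + B₃ + 2 * ((t : ℝ) - 1)) := by
            rw [h3, ← Real.rpow_add hH0, ← Real.rpow_add hH0]
        _ ≤ (l : ℝ) ^ BR := by
            rw [hBR]
            exact hHl _ (by linarith))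
  have hVR := hV' l (hlW _ (by rw [hW]; linarith [hn H₁, hn H₂, hn H₃, hn H₄, hn l₆])) za yb
    ((hlHy _ hB₇).trans (hzaB _ (by linarith)))
    (by
      calc za * l ≤ ya * H := by gcongr
        _ ≤ yb := hyH) R hRd hRs
  -- the contradiction
  have hlogz : Real.log za = Real.log ya - (Real.log 2 + 1 / 8 * Real.log H) := by
    rw [hza, Real.log_div hya0.ne' (by positivity), Real.log_mul two_ne_zero hP8.ne', hlog8]
  have hlog2 : Real.log 2 ≤ 1 := by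
    have := Real.log_two_lt_d9
    linarith
  have hw : Real.log yb - Real.log za ≤ 3 * Λ := by
    rw [hlogz, hΛ]
    rw [hΛ] at hΛ1
    linarith
  have f1 : e * (c₅ * Λ) ≤ e * (volume S).toReal := by
    gcongr
    refine le_trans ?_ hSv'
    rw [hlog8, hΛ]
    have : 0 ≤ c₅ * (1 / 8 * Real.log H) := by
      have : 0 ≤ Real.log H := by linarith
      positivity
    nlinarith
  have f2 : e * c₅ / (8 * Qs) * (Real.log yb - Real.log za) ≤ e * c₅ / (8 * Qs) * (3 * Λ) := by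
    gcongr
  have f3 : (Qs : ℝ) * ∑ m ∈ Ioc ⌊za⌋₊ ⌊yb⌋₊, (1 / (m : ℝ)) * Wp l m (R m) ≤
      e * c₅ / 8 * (3 * Λ) := by
    calc (Qs : ℝ) * ∑ m ∈ Ioc ⌊za⌋₊ ⌊yb⌋₊, (1 / (m : ℝ)) * Wp l m (R m)
        ≤ Qs * (e * c₅ / (8 * Qs) * (3 * Λ)) := by gcongr; exact hVR.trans f2
      _ = e * c₅ / 8 * (3 * Λ) := by field_simp
  have f4 : e * c₅ / 16 * (Real.log yb - Real.log za + 1) ≤ e * c₅ / 16 * (4 * Λ) := by
    gcongr
    linarith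
  have f5 : 0 < e * (c₅ * Λ) := by positivity
  linarith

end Pool.Agent.VQ
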