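import Mathlib
import Pool.Agent.Lib.VQ.WDefs
import Pool.Agent.Lib.VQ.RED
import Pool.Agent.Lib.SV.RD

/-!
# Row SUBQ of Theorem W (MP_663568_nt): from the phase `P` to the phases `Q + b X / Q₃`.  (helper55)
-/

set_option autoImplicit false
open Finset MeasureTheory Polynomial

namespace Pool.Agent.VQ

open Pool.Agent.Lib.MP_663568_nt Pool.Agent.Lib.MP_663568_nt.Katai
  Pool.Agent.Lib.MP_663568_nt.Nul Pool.Agent.SV

namespace SUBx

theorem Wp_nonneg (l m : ℕ) (P : ℝ[X]) : 0 ≤ Wp l m P := by unfold Wp; positivity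

/-- The long window is an average of short windows. -/
theorem wp_avg (w l a : ℕ) (hl : 1 ≤ l) (P : ℝ[X]) :
    (w : ℝ) * Wp w a P ≤ ∑ m ∈ range w, Wp l (a + m) P + 2 * l := by
  have hf1 : ∀ n : ℕ, ‖muC (a + n) * ee (P.eval ((a : ℝ) + n))‖ ≤ 1 := by
    intro n
    rw [norm_mul, norm_ee, mul_one]
    exact norm_muC _
  have h := RDr.avg (fun n : ℕ => muC (a + n) * ee (P.eval ((a : ℝ) + n))) hf1 w l
  have hl0 : (0 : ℝ) < l := by exact_mod_cast hl
  have h1 : (w : ℝ) * Wp w a P ≤ ‖∑ m ∈ Icc 1 w, muC (a + m) * ee (P.eval ((a : ℝ) + m))‖ := by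
    unfold Wp
    rcases Nat.eq_zero_or_pos w with h0 | h0
    · subst h0; simp
    · have h2 : (w : ℝ) ≠ 0 := by positivity
      rw [mul_div_cancel₀ _ h2]
  have h2 : ∀ m ∈ range w, ‖∑ k ∈ Icc 1 l, muC (a + (m + k)) * ee (P.eval ((a : ℝ) + (m + k : ℕ)))‖ =
      l * Wp l (a + m) P := by
    intro m _
    unfold Wp
    rw [mul_div_cancel₀ _ hl0.ne']
    congr 1
    refine sum_congr rfl fun k _ => ?_
    rw [← add_assoc]
    push_cast
    rw [← add_assoc]
  rw [Finset.sum_congr rfl h2, ← Finset.mul_sum] at h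
  have h3 : ‖∑ m ∈ Icc 1 w, muC (a + m) * ee (P.eval ((a : ℝ) + m))‖ ≤
      ∑ m ∈ range w, Wp l (a + m) P + 2 * l := by
    refine le_of_mul_le_mul_left ?_ hl0
    refine h.trans (le_of_eq ?_)
    ring
  exact h1.trans h3

/-- From the long window to all points of the region. -/
theorem region (H L m₀ l : ℕ) (ε κ : ℝ) (hε : 0 < ε) (hε1 : ε ≤ 1) (hL1 : 1 ≤ L)
    (hL : L = ⌊ε / 16 * (H : ℝ)⌋₊) (hl : 1 ≤ l) (P : ℝ[X]) (F : ℕ → ℝ) (hF : ∀ x, 0 ≤ F x)
    (hW : ε / 4 ≤ Wp (H - L) (m₀ + L) P) (hκ : 0 ≤ κ) (hsm : κ * H + 2 * l ≤ ε / 8 * H)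
    (h : ∀ y, L ≤ y → y < H → Wp l (m₀ + y) P ≤ F (m₀ + y) + κ) :
    ε / 16 * (H : ℝ) ≤ ∑ x ∈ Ioc m₀ (m₀ + H), F x := by
  have hH0 : (0 : ℝ) ≤ H := Nat.cast_nonneg _
  have hLr : (L : ℝ) ≤ ε / 16 * H := by
    rw [hL]
    exact Nat.floor_le (by positivity)
  have hLH : L ≤ H := by
    have h1 : (L : ℝ) ≤ H := by nlinarith
    exact_mod_cast h1
  have hw : ((H - L : ℕ) : ℝ) = H - L := by rw [Nat.cast_sub hLH]
  have h1 := wp_avg (H - L) l (m₀ + L) hl P
  have h2 : ∑ m ∈ range (H - L), Wp l (m₀ + L + m) P ≤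
      ∑ m ∈ range (H - L), (F (m₀ + L + m) + κ) := by
    refine sum_le_sum fun m hm => ?_
    rw [mem_range] at hm
    have h3 := h (L + m) (by omega) (by omega)
    rw [← add_assoc] at h3
    exact h3
  rw [sum_add_distrib, sum_const, card_range, nsmul_eq_mul] at h2
  have h3 : ∑ m ∈ range (H - L), F (m₀ + L + m) ≤ ∑ x ∈ Ioc m₀ (m₀ + H), F x := by
    have h4 : ∑ x ∈ Ico (m₀ + L) (m₀ + H), F x = ∑ m ∈ range (H - L), F (m₀ + L + m) := by
      rw [Finset.sum_Ico_eq_sum_range, show m₀ + H - (m₀ + L) = H - L by omega]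
    rw [← h4]
    refine sum_le_sum_of_subset_of_nonneg (fun x hx => ?_) fun x _ _ => hF x
    rw [mem_Ico] at hx
    rw [mem_Ioc]
    omega
  have h5 : ((H - L : ℕ) : ℝ) * (ε / 4) ≤ ((H - L : ℕ) : ℝ) * Wp (H - L) (m₀ + L) P :=
    mul_le_mul_of_nonneg_left hW (Nat.cast_nonneg _)
  rw [hw] at h1 h2 h5
  have h6 : ((H : ℝ) - L) * κ ≤ κ * H := by
    have : 0 ≤ κ * L := by positivity
    nlinarith
  have h7 : (L : ℝ) * (ε / 4) ≤ ε / 64 * H := by
    have : (L : ℝ) * (ε / 4) ≤ ε / 16 * H * (1 / 4) := by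
      apply mul_le_mul hLr (by linarith) (by positivity) (by positivity)
    linarith
  nlinarith

/-- Twisting by a rational polynomial phase. -/
theorem twist (q l : ℕ) (hq : 1 ≤ q) (u : ℕ → ℂ) (hu : ∀ h, ‖u h‖ ≤ 1) (A : ℕ → ℤ)
    (hA : ∀ h, A (h % q) ≡ A h [ZMOD q]) (φ θ ρ : ℕ → ℝ) (r z δ : ℝ)
    (hφ : ∀ h, 1 ≤ h → h ≤ l → φ h = r + θ h + (A h : ℝ) / q + ρ h)
    (hρ : ∀ h, 1 ≤ h → h ≤ l → |ρ h| ≤ δ) :
    ‖∑ h ∈ Icc 1 l, u h * ee (φ h)‖ ≤
      ∑ b ∈ range q, ‖∑ h ∈ Icc 1 l, u h * ee (θ h + (b : ℝ) / q * (z + h))‖ +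
        l * (2 * Real.pi * δ) := by
  have hq' : (q : ℝ) ≠ 0 := by exact_mod_cast (by omega : q ≠ 0)
  obtain ⟨c, hc, hcf⟩ := REDx.fourier q hq (fun y => ee ((A y : ℝ) / q)) (fun x => by
    obtain ⟨k, hk⟩ := (hA x).dvd
    have h1 : (A x : ℝ) / q = (A (x % q) : ℝ) / q + (k : ℤ) := by
      have h2 : (A x : ℝ) = A (x % q) + q * k := by
        have h3 : A x = A (x % q) + q * k := by linarith
        exact_mod_cast h3
      rw [h2]
      field_simp
    rw [h1, ee_add, ee_int, mul_one]) (fun x => (norm_ee _).le)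
  have h1 : ∀ h ∈ Icc 1 l, u h * ee (φ h) = u h * (ee (φ h) - ee (φ h - ρ h)) +
      ∑ b ∈ range q, (ee r * c b * ee (-((b : ℝ) / q * z))) *
        (u h * ee (θ h + (b : ℝ) / q * (z + h))) := by
    intro h hh
    rw [mem_Icc] at hh
    have h2 : ee (φ h - ρ h) = ee r * ee (θ h) * ∑ b ∈ range q, c b * ee ((b : ℝ) * h / q) := by
      rw [← hcf h, ← ee_add, ← ee_add]
      congr 1
      rw [hφ h hh.1 hh.2]
      ring
    have h3 : ∑ b ∈ range q, (ee r * c b * ee (-((b : ℝ) / q * z))) *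
        (u h * ee (θ h + (b : ℝ) / q * (z + h))) = u h * ee (φ h - ρ h) := by
      rw [h2, mul_sum, mul_sum]
      refine sum_congr rfl fun b _ => ?_
      have h4 : ee (-((b : ℝ) / q * z)) * ee (θ h + (b : ℝ) / q * (z + h)) =
          ee (θ h) * ee ((b : ℝ) * h / q) := by
        rw [← ee_add, ← ee_add]
        congr 1
        ring
      calc ee r * c b * ee (-((b : ℝ) / q * z)) * (u h * ee (θ h + (b : ℝ) / q * (z + h)))
          = ee r * c b * u h * (ee (-((b : ℝ) / q * z)) * ee (θ h + (b : ℝ) / q * (z + h))) := by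
            ring
        _ = _ := by rw [h4]; ring
    rw [h3]
    ring
  rw [sum_congr rfl h1, sum_add_distrib, sum_comm]
  refine (norm_add_le _ _).trans ?_
  rw [add_comm]
  refine add_le_add ?_ ?_
  · refine (norm_sum_le _ _).trans (sum_le_sum fun b _ => ?_)
    rw [← mul_sum, norm_mul, norm_mul, norm_mul, norm_ee, norm_ee, one_mul, mul_one]
    exact mul_le_of_le_one_left (norm_nonneg _) (hc b)
  · refine (norm_sum_le _ _).trans ?_
    refine (sum_le_sum (g := fun _ => 2 * Real.pi * δ) fun h hh => ?_).trans ?_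
    · rw [mem_Icc] at hh
      rw [norm_mul]
      have h2 := norm_ee_sub_ee_le (φ h) (φ h - ρ h)
      rw [sub_sub_cancel] at h2
      have h3 : 2 * Real.pi * |ρ h| ≤ 2 * Real.pi * δ :=
        mul_le_mul_of_nonneg_left (hρ h hh.1 hh.2) (by positivity)
      calc ‖u h‖ * ‖ee (φ h) - ee (φ h - ρ h)‖ ≤ 1 * (2 * Real.pi * δ) :=
            mul_le_mul (hu h) (h2.trans h3) (norm_nonneg _) (by norm_num)
        _ = 2 * Real.pi * δ := one_mul _
    · rw [sum_const, Nat.card_Icc, nsmul_eq_mul, Nat.add_sub_cancel]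

/-- `E'' η`-bound of the errors. -/
theorem term_le {E lam H L l η : ℝ} {t i : ℕ} (hE : 0 < E) (hlam : 0 < lam) (hlam1 : lam ≤ 1)
    (hH : 0 < H) (hL : lam * H ≤ L) (hl : 0 ≤ l) (hlη : l ≤ η * H) (hi : 1 ≤ i) (hit : i ≤ t) :
    E / L ^ i * (l * i * (2 * H) ^ (i - 1)) ≤ η * (E * t * (2 / lam) ^ t) := by
  have hL0 : 0 < L := lt_of_lt_of_le (by positivity) hL
  have h1 : (lam * H) ^ i ≤ L ^ i := pow_le_pow_left₀ (by positivity) hL i
  have h2 : 1 / L ^ i ≤ 1 / (lam * H) ^ i := one_div_le_one_div_of_le (by positivity) h1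
  have hη : 0 ≤ η := by
    by_contra hcon
    have h3 : η * H < 0 := mul_neg_of_neg_of_pos (lt_of_not_ge hcon) hH
    linarith
  have hit' : (i : ℝ) ≤ t := by exact_mod_cast hit
  obtain ⟨j, rfl⟩ : ∃ j, i = j + 1 := ⟨i - 1, by omega⟩
  rw [Nat.add_sub_cancel]
  have h21 : (1 : ℝ) ≤ 2 / lam := by rw [le_div_iff₀ hlam]; linarith
  have h4 : (2 : ℝ) ^ j / lam ^ (j + 1) ≤ (2 / lam) ^ t := by
    calc (2 : ℝ) ^ j / lam ^ (j + 1) ≤ 2 ^ (j + 1) / lam ^ (j + 1) := by
          apply div_le_div_of_nonneg_right _ (by positivity)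
          exact pow_le_pow_right₀ (by norm_num) (by omega)
      _ = (2 / lam) ^ (j + 1) := by rw [div_pow]
      _ ≤ (2 / lam) ^ t := pow_le_pow_right₀ h21 hit
  calc E / L ^ (j + 1) * (l * ((j + 1 : ℕ) : ℝ) * (2 * H) ^ j)
      = E * (1 / L ^ (j + 1)) * (l * ((j + 1 : ℕ) : ℝ) * (2 * H) ^ j) := by ring
    _ ≤ E * (1 / (lam * H) ^ (j + 1)) * ((η * H) * t * (2 * H) ^ j) := by
        apply mul_le_mul
        · exact mul_le_mul_of_nonneg_left h2 hE.le
        · apply mul_le_mul_of_nonneg_right _ (by positivity)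
          exact mul_le_mul hlη hit' (by positivity) (by positivity)
        · positivity
        · positivity
    _ = η * (E * t) * ((2 : ℝ) ^ j / lam ^ (j + 1)) := by
        rw [mul_pow, mul_pow]
        field_simp
        ring
    _ ≤ η * (E * t) * (2 / lam) ^ t := mul_le_mul_of_nonneg_left h4 (by positivity)
    _ = η * (E * t * (2 / lam) ^ t) := by ring

/-- A real number near a multiple of `1 / q`. -/
theorem near_rat (q : ℕ) (hq : 1 ≤ q) (x e : ℝ) (h : nd ((q : ℝ) * x) ≤ e) :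
    ∃ a : ℤ, ∃ r : ℝ, x = a / q + r ∧ |r| ≤ e := by
  have hq' : (0 : ℝ) < q := by exact_mod_cast hq
  have hq1 : (1 : ℝ) ≤ q := by exact_mod_cast hq
  obtain ⟨n, hn⟩ := nd_exists ((q : ℝ) * x)
  refine ⟨n, x - n / q, by ring, ?_⟩
  have h1 : |x - n / q| = |(q : ℝ) * x - n| / q := by
    rw [← abs_of_pos hq', ← abs_div, abs_of_pos hq']
    congr 1
    field_simp
  rw [h1, ← hn]
  exact (div_le_self (nd_nonneg _) hq1).trans h

/-- The evaluation of a polynomial from its expansion at `m`. -/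
theorem eval_taylor_sum (D : ℝ[X]) (t : ℕ) (hD : D.natDegree ≤ t) (m y : ℝ) :
    D.eval (m + y) = ∑ i ∈ range (t + 1), (taylor m D).coeff i * y ^ i := by
  have h1 : (taylor m D).eval y = D.eval (m + y) := by rw [taylor_eval, add_comm]
  rw [← h1]
  apply eval_eq_sum_range'
  rw [natDegree_taylor]
  omega

end SUBx

open SUBx in
/-- Row SUBQ. -/
theorem subq : SUBQ_stmt := by
  intro t Q₃ ε E' ht hQ₃ hε hε1 hE'
  have hQ' : (Q₃ : ℝ) ≠ 0 := by exact_mod_cast (by omega : Q₃ ≠ 0)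
  have htr : (1 : ℝ) ≤ t := by exact_mod_cast ht
  set lam : ℝ := ε / 17 with hlam
  have hlam0 : 0 < lam := by positivity
  have hlam1 : lam ≤ 1 := by rw [hlam]; linarith
  set M : ℝ := t * (E' * t * (2 / lam) ^ t) with hM
  have hM0 : 0 < M := by positivity
  have hden : 0 < 8 * (2 * Real.pi * M + 2) := by positivity
  set η : ℝ := ε / (8 * (2 * Real.pi * M + 2)) with hη
  have hη0 : 0 < η := by positivity
  have hη16 : η ≤ 1 := by
    rw [hη, div_le_one hden]
    have : 0 < 2 * Real.pi * M := by positivity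
    linarith
  refine ⟨η, ⌈272 / ε⌉₊ + ⌈1 / η⌉₊ + 1, hη0, hη16, ?_⟩
  intro H L m₀ l hH hL hl P Q hPQ hnd hW
  have hHr : (0 : ℝ) < H := by exact_mod_cast (by omega : 0 < H)
  have hH1 : 272 / ε ≤ H :=
    (Nat.le_ceil _).trans (by exact_mod_cast (by omega : ⌈272 / ε⌉₊ ≤ H))
  have hH2 : 1 / η ≤ H :=
    (Nat.le_ceil _).trans (by exact_mod_cast (by omega : ⌈1 / η⌉₊ ≤ H))
  have hεH : 272 ≤ ε * H := by rwa [div_le_iff₀' hε] at hH1
  have hLlow : lam * H ≤ L := by
    have h1 : ε / 16 * (H : ℝ) < L + 1 := by rw [hL]; exact Nat.lt_floor_add_one _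
    rw [hlam]
    nlinarith
  have hL1 : 1 ≤ L := by
    have : (0 : ℝ) < L := lt_of_lt_of_le (by positivity) hLlow
    exact_mod_cast this
  have hl1 : 1 ≤ l := by
    rw [hl]
    apply Nat.le_floor
    rw [Nat.cast_one]
    rw [div_le_iff₀' hη0] at hH2
    exact hH2
  have hlη : (l : ℝ) ≤ η * H := by rw [hl]; exact Nat.floor_le (by positivity)
  have hlH : l ≤ H := by
    have : (l : ℝ) ≤ H := by nlinarith
    exact_mod_cast this
  have hl0 : (0 : ℝ) < l := by exact_mod_cast hl1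
  -- the rational approximations
  have hap : ∀ i : ℕ, ∃ a : ℤ, ∃ r : ℝ, (i ≤ t → (taylor (m₀ : ℝ) (P - Q)).coeff i = a / Q₃ + r) ∧
      (1 ≤ i → i ≤ t → |r| ≤ E' / (L : ℝ) ^ i) := by
    intro i
    by_cases h1 : 1 ≤ i ∧ i ≤ t
    · obtain ⟨a, r, h2, h3⟩ := near_rat Q₃ hQ₃ _ _ (hnd i h1.1 h1.2)
      exact ⟨a, r, fun _ => h2, fun _ _ => h3⟩
    · refine ⟨0, (taylor (m₀ : ℝ) (P - Q)).coeff i, fun _ => by simp, fun h2 h3 => ?_⟩
      exact absurd ⟨h2, h3⟩ h1
  choose a r har hr using hap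
  have hmain : ∀ y, L ≤ y → y < H → Wp l (m₀ + y) P ≤
      ∑ b ∈ range Q₃, Wp l (m₀ + y) (Q + C ((b : ℝ) / Q₃) * X) + 2 * Real.pi * (η * M) := by
    intro y hLy hyH
    have h1 := twist Q₃ l hQ₃ (fun h => muC (m₀ + y + h)) (fun h => norm_muC _)
      (fun h => ∑ i ∈ range (t + 1), a i * ((y : ℤ) + h) ^ i)
      (fun h => by
        refine Int.ModEq.sum fun i _ => ?_
        refine Int.ModEq.mul_left _ (Int.ModEq.pow _ (Int.ModEq.add_left _ ?_))
        rw [Int.natCast_mod]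
        exact Int.mod_modEq _ _)
      (fun h => P.eval (((m₀ + y : ℕ) : ℝ) + h)) (fun h => Q.eval (((m₀ + y : ℕ) : ℝ) + h))
      (fun h => ∑ i ∈ range (t + 1), r i * (((y : ℝ) + h) ^ i - (y : ℝ) ^ i))
      (∑ i ∈ range (t + 1), r i * (y : ℝ) ^ i) ((m₀ + y : ℕ) : ℝ) (η * M)
      (fun h _ _ => by
        have h2 : P.eval (((m₀ + y : ℕ) : ℝ) + h) = Q.eval (((m₀ + y : ℕ) : ℝ) + h) +
            (P - Q).eval ((m₀ : ℝ) + ((y : ℝ) + h)) := by
          rw [eval_sub]
          push_cast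
          rw [add_assoc]
          ring
        have h3 : (P - Q).eval ((m₀ : ℝ) + ((y : ℝ) + h)) =
            ∑ i ∈ range (t + 1), ((a i : ℝ) * ((y : ℝ) + h) ^ i / Q₃ +
              r i * (((y : ℝ) + h) ^ i - (y : ℝ) ^ i) + r i * (y : ℝ) ^ i) := by
          rw [eval_taylor_sum _ t hPQ]
          refine sum_congr rfl fun i hi => ?_
          rw [har i (by rw [mem_range] at hi; omega)]
          ring
        rw [h2, h3, sum_add_distrib, sum_add_distrib]
        push_cast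
        rw [sum_div]
        ring)
      (fun h _ hhl => by
        have hy2 : (y : ℝ) + h ≤ 2 * H := by
          have h5 : (y : ℝ) ≤ H := by exact_mod_cast hyH.le
          have h6 : (h : ℝ) ≤ H := by exact_mod_cast hhl.trans hlH
          linarith
        have hterm : ∀ i ∈ range (t + 1), |r i * (((y : ℝ) + h) ^ i - (y : ℝ) ^ i)| ≤
            if i = 0 then 0 else η * (E' * t * (2 / lam) ^ t) := by
          intro i hi
          rw [mem_range] at hi
          split_ifs with h0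
          · rw [h0]; simp
          · have h1 : 1 ≤ i := by omega
            rw [abs_mul]
            have h4 := abs_pow_sub_pow_le ((y : ℝ) + h) (y : ℝ) i
            rw [add_sub_cancel_left, Nat.abs_cast, abs_of_nonneg (by positivity : (0 : ℝ) ≤ y + h),
              Nat.abs_cast, max_eq_left (by linarith [Nat.cast_nonneg (α := ℝ) h])] at h4
            have h5 : (h : ℝ) * i * ((y : ℝ) + h) ^ (i - 1) ≤ l * i * (2 * H) ^ (i - 1) := by
              apply mul_le_mul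
              · apply mul_le_mul_of_nonneg_right _ (by positivity)
                exact_mod_cast hhl
              · exact pow_le_pow_left₀ (by positivity) hy2 _
              · positivity
              · positivity
            refine (mul_le_mul (hr i h1 (by omega)) (h4.trans h5) (abs_nonneg _)
              (by positivity)).trans ?_
            exact term_le hE' hlam0 hlam1 hHr hLlow hl0.le hlη h1 (by omega)
        refine (abs_sum_le_sum_abs _ _).trans ((sum_le_sum hterm).trans ?_)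
        rw [sum_range_succ', if_pos rfl, add_zero]
        simp only [Nat.add_eq_zero_iff, one_ne_zero, and_false, if_false, sum_const, card_range,
          nsmul_eq_mul]
        rw [hM]
        apply le_of_eq
        ring)
    have h2 : Wp l (m₀ + y) P ≤ (∑ b ∈ range Q₃, ‖∑ h ∈ Icc 1 l, muC (m₀ + y + h) *
        ee (Q.eval (((m₀ + y : ℕ) : ℝ) + h) + (b : ℝ) / Q₃ * (((m₀ + y : ℕ) : ℝ) + h))‖ +
          l * (2 * Real.pi * (η * M))) / l := by
      unfold Wp
      exact div_le_div_of_nonneg_right h1 hl0.le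
    refine h2.trans (le_of_eq ?_)
    rw [add_div, sum_div, mul_div_cancel_left₀ _ hl0.ne']
    congr 1
    refine sum_congr rfl fun b _ => ?_
    unfold Wp
    congr 2
    refine sum_congr rfl fun h _ => ?_
    rw [eval_add, eval_mul, eval_C, eval_X]
  refine region H L m₀ l ε (2 * Real.pi * (η * M)) hε hε1 hL1 hL hl1 P
    (fun x => ∑ b ∈ range Q₃, Wp l x (Q + C ((b : ℝ) / Q₃) * X))
    (fun x => sum_nonneg fun b _ => Wp_nonneg _ _ _) hW (by positivity) ?_ hmain
  have h1 : η * (8 * (2 * Real.pi * M + 2)) = ε := by rw [hη]; field_simp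
  have h2 : 2 * Real.pi * (η * M) * H + 2 * (η * H) = ε / 8 * H := by
    rw [← h1]; ring
  linarith

end Pool.Agent.VQ
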