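import Mathlib
import Pool.Agent.Lib.VQ.Defs

/-!
# Theorem VQ, row SYA: many pairs of primes are good and correlate (helper83)
-/

set_option autoImplicit false
open Finset MeasureTheory Polynomial

namespace Pool.Agent.VQ

open Pool.Agent.Lib.MP_663568_nt Pool.Agent.Lib.MP_663568_nt.Katai
  Pool.Agent.Lib.MP_663568_nt.Nul Pool.Agent.SV

namespace SYAx

lemma wt_nonneg (PP : Finset ℕ) (p : ℕ) : 0 ≤ wt PP p := by
  unfold wt Ls
  positivity

lemma sum_wt (PP : Finset ℕ) (h : 1 ≤ Ls PP) : ∑ p ∈ PP, wt PP p = 1 := by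
  have h0 : Ls PP ≠ 0 := by linarith
  calc ∑ p ∈ PP, wt PP p = ∑ p ∈ PP, (1 / (p : ℝ)) * (1 / Ls PP) :=
        sum_congr rfl fun p _ => by rw [wt, one_div_mul_one_div]
    _ = 1 := by
        rw [← sum_mul]
        change Ls PP * (1 / Ls PP) = 1
        field_simp

lemma Wp_nonneg (l m : ℕ) (P : ℝ[X]) : 0 ≤ Wp l m P := by
  unfold Wp
  positivity

lemma Wp_le_one (l m : ℕ) (P : ℝ[X]) : Wp l m P ≤ 1 := by
  unfold Wp
  apply div_le_one_of_le₀ _ (Nat.cast_nonneg _)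
  refine (norm_sum_le_of_le (f := fun h : ℕ => muC (m + h) * ee (P.eval ((m : ℝ) + h)))
    (n := fun _ => (1 : ℝ)) _ fun h _ => ?_).trans (by simp)
  rw [norm_mul, norm_ee, mul_one]
  exact norm_muC _

lemma Kp_le_one (l m : ℕ) (P : ℝ[X]) : Kp l m P ≤ 1 := by
  unfold Kp
  apply div_le_one_of_le₀ _ (Nat.cast_nonneg _)
  refine (norm_sum_le_of_le (f := fun h : ℕ => ee (P.eval ((m : ℝ) + h)))
    (n := fun _ => (1 : ℝ)) _ fun h _ => ?_).trans (by simp)
  rw [norm_ee]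

/-! ### Measurability -/

lemma meas_floor (p : ℕ) : Measurable fun v : ℝ => ⌊(p : ℝ) * Real.exp v⌋₊ :=
  Nat.measurable_floor.comp (Real.measurable_exp.const_mul _)

lemma meas_floor1 : Measurable fun v : ℝ => ⌊Real.exp v⌋₊ :=
  Nat.measurable_floor.comp Real.measurable_exp

lemma meas_cl (K : ℕ) : Measurable (cl K) := by
  have h : Measurable fun n : ℕ => ⌊(K : ℝ) * Real.log (n : ℝ)⌋₊ := measurable_of_countable _
  exact h.comp meas_floor1

lemma meas_Cst (Q : ℕ → ℝ[X]) (K p : ℕ) : MeasurableSet {v | Cst Q K p v} := by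
  have h1 : Measurable fun v : ℝ => (cl K v, ⌊(p : ℝ) * Real.exp v⌋₊) :=
    (meas_cl K).prodMk (meas_floor p)
  have h2 : {v | Cst Q K p v} = (fun v : ℝ => (cl K v, ⌊(p : ℝ) * Real.exp v⌋₊)) ⁻¹'
      {x : ℕ × ℕ | ∀ v' : ℝ, cl K v' = x.1 → Q ⌊(p : ℝ) * Real.exp v'⌋₊ = Q x.2} := rfl
  rw [h2]
  exact h1 (Set.to_countable _).measurableSet

/-- The mean as a function of the two integers. -/
noncomputable def gF (Q : ℕ → ℝ[X]) (l p : ℕ) (x : ℕ × ℕ) : ℝ :=
  Wp l x.1 ((Q x.2).comp (C (p : ℝ) * X))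

lemma meas_F (Q : ℕ → ℝ[X]) (l p : ℕ) :
    Measurable fun v : ℝ => Wp l ⌊Real.exp v⌋₊ (Pp Q p v) := by
  have h1 : Measurable fun v : ℝ => (⌊Real.exp v⌋₊, ⌊(p : ℝ) * Real.exp v⌋₊) :=
    meas_floor1.prodMk (meas_floor p)
  have h2 : Measurable (gF Q l p) := measurable_of_countable _
  have h3 : (fun v : ℝ => Wp l ⌊Real.exp v⌋₊ (Pp Q p v)) =
      (gF Q l p) ∘ fun v : ℝ => (⌊Real.exp v⌋₊, ⌊(p : ℝ) * Real.exp v⌋₊) := by
    funext v
    simp only [Function.comp, Pp, gF]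
  rw [h3]
  exact h2.comp h1

/-- The correlation as a function of the three integers. -/
noncomputable def gK (Q : ℕ → ℝ[X]) (l p p' : ℕ) (x : ℕ × (ℕ × ℕ)) : ℝ :=
  Kp l x.1 ((Q x.2.1).comp (C (p : ℝ) * X) - (Q x.2.2).comp (C (p' : ℝ) * X))

lemma meas_Kp (Q : ℕ → ℝ[X]) (l p p' : ℕ) :
    Measurable fun v : ℝ => Kp l ⌊Real.exp v⌋₊ (Pp Q p v - Pp Q p' v) := by
  have h1 : Measurable fun v : ℝ =>
      (⌊Real.exp v⌋₊, (⌊(p : ℝ) * Real.exp v⌋₊, ⌊(p' : ℝ) * Real.exp v⌋₊)) :=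
    meas_floor1.prodMk ((meas_floor p).prodMk (meas_floor p'))
  have h2 : Measurable (gK Q l p p') := measurable_of_countable _
  have h3 : (fun v : ℝ => Kp l ⌊Real.exp v⌋₊ (Pp Q p v - Pp Q p' v)) =
      (gK Q l p p') ∘ fun v : ℝ =>
        (⌊Real.exp v⌋₊, (⌊(p : ℝ) * Real.exp v⌋₊, ⌊(p' : ℝ) * Real.exp v⌋₊)) := by
    funext v
    simp only [Function.comp, Pp, gK]
  rw [h3]
  exact h2.comp h1

/-- The good `v` for `p`. -/
def gp (Q : ℕ → ℝ[X]) (K l : ℕ) (xa xb e : ℝ) (p : ℕ) : Set ℝ :=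
  {v | Real.log xa - Real.log p ≤ v ∧ v ≤ Real.log xb - Real.log p ∧ Cst Q K p v ∧
      e ≤ Wp l ⌊Real.exp v⌋₊ (Pp Q p v)}

lemma meas_gp (Q : ℕ → ℝ[X]) (K l : ℕ) (xa xb e : ℝ) (p : ℕ) :
    MeasurableSet (gp Q K l xa xb e p) := by
  have h : gp Q K l xa xb e p = Set.Icc (Real.log xa - Real.log p) (Real.log xb - Real.log p) ∩
      ({v | Cst Q K p v} ∩ {v | e ≤ Wp l ⌊Real.exp v⌋₊ (Pp Q p v)}) := by
    ext v
    constructor
    · rintro ⟨h1, h2, h3, h4⟩
      exact ⟨⟨h1, h2⟩, h3, h4⟩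
    · rintro ⟨⟨h1, h2⟩, h3, h4⟩
      exact ⟨h1, h2, h3, h4⟩
  rw [h]
  exact measurableSet_Icc.inter ((meas_Cst Q K p).inter
    (measurableSet_le measurable_const (meas_F Q l p)))

lemma Np_eq (Q : ℕ → ℝ[X]) (K l : ℕ) (xa xb e c : ℝ) (p p' : ℕ) :
    Np Q K l xa xb e c p p' = gp Q K l xa xb e p ∩ (gp Q K l xa xb e p' ∩
      {v | c ≤ Kp l ⌊Real.exp v⌋₊ (Pp Q p v - Pp Q p' v)}) := rfl

lemma meas_Np (Q : ℕ → ℝ[X]) (K l : ℕ) (xa xb e c : ℝ) (p p' : ℕ) :
    MeasurableSet (Np Q K l xa xb e c p p') := by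
  rw [Np_eq]
  exact (meas_gp ..).inter ((meas_gp ..).inter
    (measurableSet_le measurable_const (meas_Kp Q l p p')))

/-! ### Cells -/

lemma exists_change (Q : ℕ → ℝ[X]) {a b : ℕ} (hab : a ≤ b) (h : Q b ≠ Q a) :
    ∃ n, a ≤ n ∧ n < b ∧ Q (n + 1) ≠ Q n := by
  by_contra hc
  push Not at hc
  have key : ∀ b, a ≤ b → (∀ n, a ≤ n → n < b → Q (n + 1) = Q n) → Q b = Q a := by
    intro b hb
    induction b, hb using Nat.le_induction with
    | base => intro _; rfl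
    | succ b hb ih =>
      intro hc
      rw [hc b hb (Nat.lt_succ_self b)]
      exact ih fun n h1 h2 => hc n h1 (by omega)
  exact h (key b hab hc)

lemma floor_near {v : ℝ} {m : ℕ} (hm : m = ⌊Real.exp v⌋₊) (h1 : 1 ≤ m) :
    Real.log m ≤ v ∧ v ≤ Real.log m + 1 / m := by
  have hm0 : (0 : ℝ) < m := by exact_mod_cast h1
  have h2 : (m : ℝ) ≤ Real.exp v := hm ▸ Nat.floor_le (Real.exp_pos v).le
  have h3 : Real.exp v < m + 1 := hm ▸ Nat.lt_floor_add_one _
  refine ⟨(Real.log_le_iff_le_exp hm0).2 h2, ?_⟩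
  have h4 : v ≤ Real.log ((m : ℝ) + 1) :=
    (Real.le_log_iff_exp_le (by linarith)).2 h3.le
  have h5 : Real.log (((m : ℝ) + 1) / m) ≤ ((m : ℝ) + 1) / m - 1 :=
    Real.log_le_sub_one_of_pos (by positivity)
  rw [Real.log_div (by positivity) hm0.ne'] at h5
  have h6 : ((m : ℝ) + 1) / m - 1 = 1 / m := by field_simp; ring
  linarith

lemma cl_near {K : ℕ} (hK : 1 ≤ K) {v v' : ℝ} (hv : 3 * (K : ℝ) + 1 ≤ Real.exp v)
    (h : cl K v' = cl K v) : (K : ℝ) ≤ (⌊Real.exp v'⌋₊ : ℝ) ∧ |v' - v| ≤ 2 / K := by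
  have hK1 : (1 : ℝ) ≤ K := by exact_mod_cast hK
  obtain ⟨m, hm⟩ : ∃ m : ℕ, m = ⌊Real.exp v⌋₊ := ⟨_, rfl⟩
  obtain ⟨m', hm'⟩ : ∃ m' : ℕ, m' = ⌊Real.exp v'⌋₊ := ⟨_, rfl⟩
  rw [cl, cl, ← hm, ← hm'] at h
  rw [← hm']
  have h3 : Real.exp v < m + 1 := hm ▸ Nat.lt_floor_add_one _
  have hm3 : 3 * (K : ℝ) ≤ m := by linarith
  have hm0 : (0 : ℝ) < m := by linarith
  have he : Real.exp 1 < 2.7182818286 := Real.exp_one_lt_d9
  have hlm : 1 ≤ Real.log m := (Real.le_log_iff_exp_le hm0).2 (by linarith)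
  have n1 : (0 : ℝ) ≤ K * Real.log m := by positivity
  have n2 : (0 : ℝ) ≤ K * Real.log m' := mul_nonneg (by linarith) (Real.log_natCast_nonneg _)
  have f1 := Nat.floor_le n1
  have f2 := Nat.floor_le n2
  have f3 := Nat.lt_floor_add_one ((K : ℝ) * Real.log m)
  have f4 := Nat.lt_floor_add_one ((K : ℝ) * Real.log m')
  rw [h] at f2 f4
  have hm'1 : 1 ≤ m' := by
    by_contra h0
    have h0' : m' = 0 := by omega
    rw [h0', Nat.cast_zero, Real.log_zero, mul_zero] at f2 f4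
    nlinarith
  have hm'0 : (0 : ℝ) < m' := by exact_mod_cast hm'1
  have g1 : Real.log m ≤ Real.log m' + 1 / K := by
    rw [← sub_le_iff_le_add', le_div_iff₀ (by linarith)]
    nlinarith
  have g2 : Real.log m' ≤ Real.log m + 1 / K := by
    rw [← sub_le_iff_le_add', le_div_iff₀ (by linarith)]
    nlinarith
  have hK2 : 1 / (K : ℝ) ≤ 1 := by
    rw [div_le_one (by linarith)]
    exact hK1
  have g3 : (m : ℝ) ≤ Real.exp 1 * m' := by
    rw [← Real.log_le_log_iff hm0 (by positivity), Real.log_mul (Real.exp_pos 1).ne' hm'0.ne',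
      Real.log_exp]
    linarith
  have g4 : (K : ℝ) ≤ m' := by nlinarith
  refine ⟨g4, ?_⟩
  obtain ⟨a1, a2⟩ := floor_near hm (by
    have : (1 : ℝ) ≤ m := by linarith
    exact_mod_cast this)
  obtain ⟨b1, b2⟩ := floor_near hm' hm'1
  have c1 : 1 / (m : ℝ) ≤ 1 / K := one_div_le_one_div_of_le (by linarith) (by linarith)
  have c2 : 1 / (m' : ℝ) ≤ 1 / K := one_div_le_one_div_of_le (by linarith) g4
  have c3 : (2 : ℝ) / K = 1 / K + 1 / K := by ring
  rw [abs_le, c3]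
  constructor <;> linarith

lemma nonCst {Q : ℕ → ℝ[X]} {K p : ℕ} (hK : 1 ≤ K) (hp : 1 ≤ p) {v : ℝ}
    (hv : 3 * (K : ℝ) + 1 ≤ Real.exp v) (h : ¬ Cst Q K p v) :
    ∃ n : ℕ, 1 ≤ n ∧ Q (n + 1) ≠ Q n ∧ |Real.log n - Real.log p - v| ≤ 3 / K := by
  rw [Cst] at h
  push Not at h
  obtain ⟨v', h1, h2⟩ := h
  obtain ⟨h3, h4⟩ := cl_near hK hv h1
  have hK1 : (1 : ℝ) ≤ K := by exact_mod_cast hK
  have hp1 : (1 : ℝ) ≤ p := by exact_mod_cast hp
  -- the general step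
  have key : ∀ w w' : ℝ, w ≤ w' → (K : ℝ) ≤ Real.exp w →
      Q ⌊(p : ℝ) * Real.exp w'⌋₊ ≠ Q ⌊(p : ℝ) * Real.exp w⌋₊ →
      ∃ n : ℕ, 1 ≤ n ∧ Q (n + 1) ≠ Q n ∧ w - 1 / K ≤ Real.log n - Real.log p ∧
        Real.log n - Real.log p ≤ w' := by
    intro w w' hw hKw hne
    have hmon : ⌊(p : ℝ) * Real.exp w⌋₊ ≤ ⌊(p : ℝ) * Real.exp w'⌋₊ := by
      apply Nat.floor_le_floor
      gcongr
    obtain ⟨n, n1, n2, n3⟩ := exists_change Q hmon hne
    have hKn : K ≤ n := by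
      refine le_trans (Nat.le_floor ?_) n1
      nlinarith [Real.exp_pos w]
    have hn1 : 1 ≤ n := hK.trans hKn
    have hn0 : (0 : ℝ) < n := by exact_mod_cast hn1
    have hKn' : (K : ℝ) ≤ n := by exact_mod_cast hKn
    refine ⟨n, hn1, n3, ?_, ?_⟩
    · have e1 : (p : ℝ) * Real.exp w < n + 1 := by
        refine (Nat.lt_floor_add_one _).trans_le ?_
        exact_mod_cast Nat.add_le_add_right n1 1
      have e2 : Real.log p + w ≤ Real.log ((n : ℝ) + 1) := by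
        have e0 : Real.log p + w = Real.log ((p : ℝ) * Real.exp w) := by
          rw [Real.log_mul (by positivity) (Real.exp_pos _).ne', Real.log_exp]
        rw [e0]
        exact Real.log_le_log (by positivity) e1.le
      have e3 : Real.log (((n : ℝ) + 1) / n) ≤ ((n : ℝ) + 1) / n - 1 :=
        Real.log_le_sub_one_of_pos (by positivity)
      rw [Real.log_div (by positivity) hn0.ne'] at e3
      have e4 : ((n : ℝ) + 1) / n - 1 = 1 / n := by field_simp; ring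
      have e5 : 1 / (n : ℝ) ≤ 1 / K := one_div_le_one_div_of_le (by linarith) hKn'
      linarith
    · have e1 : (n : ℝ) ≤ (p : ℝ) * Real.exp w' := by
        refine le_trans ?_ (Nat.floor_le (by positivity))
        exact_mod_cast n2.le
      have e2 : Real.log n ≤ Real.log p + w' := by
        refine (Real.log_le_log hn0 e1).trans (le_of_eq ?_)
        rw [Real.log_mul (by positivity) (Real.exp_pos _).ne', Real.log_exp]
      linarith
  have hKv' : (K : ℝ) ≤ Real.exp v' := h3.trans (Nat.floor_le (Real.exp_pos _).le)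
  have hKv : (K : ℝ) ≤ Real.exp v := by linarith
  have c3 : (3 : ℝ) / K = 1 / K + 2 / K := by ring
  have c4 : (0 : ℝ) ≤ 1 / K := by positivity
  rw [abs_le] at h4
  rcases le_total v v' with hvv | hvv
  · obtain ⟨n, n1, n2, n3, n4⟩ := key v v' hvv hKv h2
    refine ⟨n, n1, n2, ?_⟩
    rw [abs_le, c3]
    constructor <;> linarith
  · obtain ⟨n, n1, n2, n3, n4⟩ := key v' v hvv hKv' (Ne.symm h2)
    refine ⟨n, n1, n2, ?_⟩
    rw [abs_le, c3]
    constructor <;> linarith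

lemma count_changes {Q : ℕ → ℝ[X]} {M : ℝ} (hM : 0 ≤ M) (hQ : SlowP Q M) {a b : ℝ}
    (ha : 0 ≤ a) (hab : a ≤ b) (S : Finset ℕ)
    (hS : ∀ n ∈ S, 1 ≤ n ∧ Q (n + 1) ≠ Q n ∧ a ≤ Real.log n ∧ Real.log n ≤ b) :
    (#S : ℝ) ≤ (2 * (b - a) + 2) * M := by
  classical
  have hl2 : (1 / 2 : ℝ) < Real.log 2 := by
    have := Real.log_two_gt_d9
    linarith
  obtain ⟨j0, hj0⟩ : ∃ j : ℕ, j = ⌊a / Real.log 2⌋₊ := ⟨_, rfl⟩
  obtain ⟨j1, hj1⟩ : ∃ j : ℕ, j = ⌊b / Real.log 2⌋₊ := ⟨_, rfl⟩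
  have hj01 : j0 ≤ j1 := by
    rw [hj0, hj1]
    apply Nat.floor_le_floor
    gcongr
  have hsub : S ⊆ (Icc j0 j1).biUnion fun j =>
      (Ico (2 ^ j) (2 ^ (j + 1))).filter fun n => Q (n + 1) ≠ Q n := by
    intro n hn
    obtain ⟨h1, h2, h3, h4⟩ := hS n hn
    have hn0 : (0 : ℝ) < n := by exact_mod_cast h1
    have p1 : 2 ^ Nat.log 2 n ≤ n := Nat.pow_log_le_self 2 (by omega)
    have p2 : n < 2 ^ (Nat.log 2 n + 1) := Nat.lt_pow_succ_log_self (by norm_num) n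
    have q1 : (Nat.log 2 n : ℝ) * Real.log 2 ≤ Real.log n := by
      rw [← Real.log_pow]
      exact Real.log_le_log (by positivity) (by exact_mod_cast p1)
    have q2 : Real.log n < ((Nat.log 2 n : ℝ) + 1) * Real.log 2 := by
      have : Real.log n < Real.log ((2 : ℝ) ^ (Nat.log 2 n + 1)) :=
        Real.log_lt_log hn0 (by exact_mod_cast p2)
      rw [Real.log_pow] at this
      push_cast at this
      exact this
    rw [mem_biUnion]
    refine ⟨Nat.log 2 n, ?_, ?_⟩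
    · rw [mem_Icc]
      constructor
      · have : (j0 : ℝ) < (Nat.log 2 n : ℝ) + 1 := by
          rw [hj0]
          refine lt_of_le_of_lt (Nat.floor_le (by positivity)) ?_
          rw [div_lt_iff₀ (by linarith)]
          linarith
        have : j0 < Nat.log 2 n + 1 := by exact_mod_cast this
        omega
      · rw [hj1]
        apply Nat.le_floor
        rw [le_div_iff₀ (by linarith)]
        linarith
    · rw [mem_filter, mem_Ico]
      exact ⟨⟨p1, p2⟩, h2⟩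
  have hb : ∀ j, (#((Ico (2 ^ j) (2 ^ (j + 1))).filter fun n => Q (n + 1) ≠ Q n) : ℝ) ≤ M := by
    intro j
    have := hQ j
    convert this
  have hcard : ((#(Icc j0 j1) : ℕ) : ℝ) ≤ 2 * (b - a) + 2 := by
    rw [Nat.card_Icc, Nat.cast_sub (by omega)]
    push_cast
    have r1 : (j1 : ℝ) ≤ b / Real.log 2 := hj1 ▸ Nat.floor_le (by
      have : 0 ≤ b := ha.trans hab
      positivity)
    have r2 : a / Real.log 2 < j0 + 1 := hj0 ▸ Nat.lt_floor_add_one _
    have r3 : b / Real.log 2 - a / Real.log 2 ≤ 2 * (b - a) := by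
      rw [← sub_div, div_le_iff₀ (by linarith)]
      nlinarith
    linarith
  calc (#S : ℝ) ≤ (#((Icc j0 j1).biUnion fun j =>
        (Ico (2 ^ j) (2 ^ (j + 1))).filter fun n => Q (n + 1) ≠ Q n) : ℝ) := by
        exact_mod_cast card_le_card hsub
    _ ≤ ∑ j ∈ Icc j0 j1, (#((Ico (2 ^ j) (2 ^ (j + 1))).filter fun n => Q (n + 1) ≠ Q n) : ℝ) := by
        exact_mod_cast card_biUnion_le
    _ ≤ ∑ j ∈ Icc j0 j1, M := sum_le_sum fun j _ => hb j
    _ = #(Icc j0 j1) * M := by rw [sum_const, nsmul_eq_mul]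
    _ ≤ (2 * (b - a) + 2) * M := mul_le_mul_of_nonneg_right hcard hM

/-- The measure of the `v` whose cell contains a change. -/
lemma bad_le {Q : ℕ → ℝ[X]} {M : ℝ} (hM : 0 ≤ M) (hQ : SlowP Q M) {K p : ℕ} (hK : 1 ≤ K)
    (hp : 1 ≤ p) {xa xb : ℝ} (hxa : 3 ≤ Real.log xa) (hab : Real.log xa ≤ Real.log xb)
    (hv : ∀ v, Real.log xa - Real.log p ≤ v → 3 * (K : ℝ) + 1 ≤ Real.exp v) :
    (volume (Set.Icc (Real.log xa - Real.log p) (Real.log xb - Real.log p) \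
      {v | Cst Q K p v})).toReal ≤ (2 * (Real.log xb - Real.log xa) + 14) * M * (6 / K) := by
  classical
  have hK1 : (1 : ℝ) ≤ K := by exact_mod_cast hK
  obtain ⟨S, hS⟩ : ∃ S : Finset ℕ, S = (range (⌊Real.exp (Real.log xb + 3)⌋₊ + 1)).filter
    fun n => 1 ≤ n ∧ Q (n + 1) ≠ Q n ∧ Real.log xa - 3 ≤ Real.log n ∧
      Real.log n ≤ Real.log xb + 3 := ⟨_, rfl⟩
  have hcard : (#S : ℝ) ≤ (2 * (Real.log xb - Real.log xa) + 14) * M := by
    have := count_changes hM hQ (a := Real.log xa - 3) (b := Real.log xb + 3) (by linarith)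
      (by linarith) S fun n hn => by
        rw [hS, mem_filter] at hn
        exact hn.2
    refine this.trans (le_of_eq ?_)
    ring
  have hsub : Set.Icc (Real.log xa - Real.log p) (Real.log xb - Real.log p) \
      {v | Cst Q K p v} ⊆ ⋃ n ∈ S, Set.Icc (Real.log n - Real.log p - 3 / K)
        (Real.log n - Real.log p + 3 / K) := by
    rintro v ⟨⟨h1, h2⟩, h3⟩
    obtain ⟨n, n1, n2, n3⟩ := nonCst hK hp (hv v h1) h3
    have hK3 : (3 : ℝ) / K ≤ 3 := by
      rw [div_le_iff₀ (by linarith)]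
      linarith
    rw [abs_le] at n3
    have l1 : Real.log xa - 3 ≤ Real.log n := by linarith
    have l2 : Real.log n ≤ Real.log xb + 3 := by linarith
    have hn0 : (0 : ℝ) < n := by exact_mod_cast n1
    have hnS : n ∈ S := by
      rw [hS, mem_filter, mem_range]
      refine ⟨?_, n1, n2, l1, l2⟩
      rw [Nat.lt_succ_iff]
      apply Nat.le_floor
      exact (Real.log_le_iff_le_exp hn0).1 l2
    rw [Set.mem_iUnion₂]
    exact ⟨n, hnS, by constructor <;> linarith⟩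
  have hvol : volume (⋃ n ∈ S, Set.Icc (Real.log n - Real.log p - 3 / K)
      (Real.log n - Real.log p + 3 / K)) ≤ ENNReal.ofReal (#S * (6 / K)) := by
    refine (measure_biUnion_finset_le _ _).trans ?_
    have : ∀ n ∈ S, volume (Set.Icc (Real.log n - Real.log p - 3 / K)
        (Real.log n - Real.log p + 3 / K)) = ENNReal.ofReal (6 / K) := by
      intro n _
      rw [Real.volume_Icc]
      congr 1
      ring
    rw [sum_congr rfl this, sum_const, nsmul_eq_mul, ENNReal.ofReal_mul (by positivity),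
      ENNReal.ofReal_natCast]
  have h6 : 0 ≤ (#S : ℝ) * (6 / K) := by positivity
  calc _ ≤ (ENNReal.ofReal (#S * (6 / K))).toReal :=
        ENNReal.toReal_mono ENNReal.ofReal_ne_top ((measure_mono hsub).trans hvol)
    _ = #S * (6 / K) := ENNReal.toReal_ofReal h6
    _ ≤ (2 * (Real.log xb - Real.log xa) + 14) * M * (6 / K) :=
        mul_le_mul_of_nonneg_right hcard (by positivity)

/-! ### Integrals -/

lemma ind_int {S : Set ℝ} (hS : MeasurableSet S) {a b : ℝ}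
    (hSs : S ⊆ Set.Icc a b) :
    ∫ v in Set.Icc a b, S.indicator (fun _ => (1 : ℝ)) v = (volume S).toReal := by
  rw [setIntegral_indicator hS, Set.inter_eq_right.2 hSs, setIntegral_const, smul_eq_mul, mul_one]
  rfl

lemma ind_integrable {S : Set ℝ} (hS : MeasurableSet S) (a b : ℝ) :
    IntegrableOn (S.indicator fun _ => (1 : ℝ)) (Set.Icc a b) := by
  apply Integrable.indicator _ hS
  exact integrableOn_const (by simp) 

lemma int_le {a b : ℝ} (hab : a ≤ b) {f : ℝ → ℝ} (hf : Measurable f) (hf0 : ∀ v, 0 ≤ f v)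
    (hf1 : ∀ v, f v ≤ 1) {S T : Set ℝ} (hS : MeasurableSet S) (hT : MeasurableSet T)
    (hSs : S ⊆ Set.Icc a b) (hTs : T ⊆ Set.Icc a b) {e : ℝ} (he : 0 ≤ e)
    (h : ∀ v ∈ Set.Icc a b, v ∉ S → v ∉ T → f v ≤ e) :
    ∫ v in a..b, f v ≤ (volume S).toReal + (volume T).toReal + e * (b - a) := by
  rw [intervalIntegral.integral_of_le hab, ← integral_Icc_eq_integral_Ioc]
  have hfi : IntegrableOn f (Set.Icc a b) := by
    refine Integrable.mono' (g := fun _ => (1 : ℝ)) (integrableOn_const (by simp))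
      hf.aestronglyMeasurable (Filter.Eventually.of_forall fun v => ?_)
    rw [Real.norm_of_nonneg (hf0 v)]
    exact hf1 v
  have h1 : ∫ v in Set.Icc a b, f v ≤ ∫ v in Set.Icc a b,
      (S.indicator (fun _ => (1 : ℝ)) v + T.indicator (fun _ => (1 : ℝ)) v + e) := by
    apply setIntegral_mono_on hfi _ measurableSet_Icc
    · intro v hv
      by_cases h1 : v ∈ S
      · rw [Set.indicator_of_mem h1]
        have : 0 ≤ T.indicator (fun _ => (1 : ℝ)) v := Set.indicator_nonneg (fun _ _ => by norm_num) v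
        linarith [hf1 v]
      · by_cases h2 : v ∈ T
        · rw [Set.indicator_of_mem h2, Set.indicator_of_notMem h1]
          linarith [hf1 v]
        · rw [Set.indicator_of_notMem h1, Set.indicator_of_notMem h2]
          linarith [h v hv h1 h2]
    · exact ((ind_integrable hS a b).add (ind_integrable hT a b)).add
        (integrableOn_const (by simp))
  refine h1.trans (le_of_eq ?_)
  have e1 : ∫ v in Set.Icc a b,
      (S.indicator (fun _ => (1 : ℝ)) v + T.indicator (fun _ => (1 : ℝ)) v + e) =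
      (∫ v in Set.Icc a b,
        (S.indicator (fun _ => (1 : ℝ)) v + T.indicator (fun _ => (1 : ℝ)) v)) +
      ∫ _ in Set.Icc a b, e :=
    integral_add ((ind_integrable hS a b).add (ind_integrable hT a b))
      (integrableOn_const (by simp))
  have e2 : (∫ v in Set.Icc a b,
        (S.indicator (fun _ => (1 : ℝ)) v + T.indicator (fun _ => (1 : ℝ)) v)) =
      (∫ v in Set.Icc a b, S.indicator (fun _ => (1 : ℝ)) v) +
      ∫ v in Set.Icc a b, T.indicator (fun _ => (1 : ℝ)) v :=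
    integral_add (ind_integrable hS a b) (ind_integrable hT a b)
  rw [e1, e2, ind_int hS hSs, ind_int hT hTs, setIntegral_const, smul_eq_mul]
  congr 1
  rw [mul_comm, Measure.real, Real.volume_Icc, ENNReal.toReal_ofReal (by linarith)]

/-- One `v`: Cauchy's inequality. -/
lemma pointwise (hPair : PAIR_stmt) {PP : Finset ℕ} {Q : ℕ → ℝ[X]} {K l : ℕ} (hl : 1 ≤ l)
    {xa xb ε c : ℝ} (hε : 0 < ε) (hc0 : 0 ≤ c) (hc : c ≤ ε ^ 2 / 32) (mu v : ℝ) :
    ε ^ 2 / 32 * (2 * mu * (∑ p ∈ PP, wt PP p *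
      (gp Q K l xa xb (ε / 4) p).indicator (fun _ => (1 : ℝ)) v) - mu ^ 2) ≤
    ∑ p ∈ PP, ∑ p' ∈ PP, wt PP p * wt PP p' *
      (Np Q K l xa xb (ε / 4) c p p').indicator (fun _ => (1 : ℝ)) v := by
  classical
  obtain ⟨GG, hGG⟩ : ∃ GG : Finset ℕ, GG = PP.filter fun p => v ∈ gp Q K l xa xb (ε / 4) p :=
    ⟨_, rfl⟩
  obtain ⟨W, hW⟩ : ∃ W : ℝ, W = ∑ p ∈ GG, wt PP p := ⟨_, rfl⟩
  have e1 : ∑ p ∈ PP, wt PP p *
      (gp Q K l xa xb (ε / 4) p).indicator (fun _ => (1 : ℝ)) v = W := by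
    rw [hW, hGG, sum_filter]
    refine sum_congr rfl fun p _ => ?_
    by_cases h : v ∈ gp Q K l xa xb (ε / 4) p
    · rw [Set.indicator_of_mem h, if_pos h, mul_one]
    · rw [Set.indicator_of_notMem h, if_neg h, mul_zero]
  rw [e1]
  have h1 := hPair l ⌊Real.exp v⌋₊ GG (wt PP) (fun p => Pp Q p v) (ε / 4) hl
    (fun p _ => wt_nonneg PP p) (by linarith) (fun p hp => by
      rw [hGG, mem_filter] at hp
      exact hp.2.2.2.2)
  rw [← hW] at h1
  have h2 : ∑ p ∈ GG, ∑ p' ∈ GG, wt PP p * wt PP p' *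
      Kp l ⌊Real.exp v⌋₊ (Pp Q p v - Pp Q p' v) ≤
      ∑ p ∈ GG, ∑ p' ∈ GG, (wt PP p * wt PP p' *
        (Np Q K l xa xb (ε / 4) c p p').indicator (fun _ => (1 : ℝ)) v +
        c * (wt PP p * wt PP p')) := by
    refine sum_le_sum fun p hp => sum_le_sum fun p' hp' => ?_
    rw [hGG, mem_filter] at hp hp'
    have w0 : 0 ≤ wt PP p * wt PP p' := mul_nonneg (wt_nonneg _ _) (wt_nonneg _ _)
    by_cases h : v ∈ Np Q K l xa xb (ε / 4) c p p'
    · rw [Set.indicator_of_mem h]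
      have := Kp_le_one l ⌊Real.exp v⌋₊ (Pp Q p v - Pp Q p' v)
      nlinarith
    · rw [Set.indicator_of_notMem h]
      have h3 : Kp l ⌊Real.exp v⌋₊ (Pp Q p v - Pp Q p' v) < c := by
        by_contra h4
        exact h ⟨hp.2, hp'.2, not_lt.1 h4⟩
      nlinarith
  have h3 : ∑ p ∈ GG, ∑ p' ∈ GG, (wt PP p * wt PP p' *
        (Np Q K l xa xb (ε / 4) c p p').indicator (fun _ => (1 : ℝ)) v +
        c * (wt PP p * wt PP p')) = (∑ p ∈ GG, ∑ p' ∈ GG, wt PP p * wt PP p' *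
        (Np Q K l xa xb (ε / 4) c p p').indicator (fun _ => (1 : ℝ)) v) + c * W ^ 2 := by
    rw [hW, sq, sum_mul_sum, mul_sum, ← sum_add_distrib]
    refine sum_congr rfl fun p _ => ?_
    rw [mul_sum, ← sum_add_distrib]
  have hsub : GG ⊆ PP := by
    rw [hGG]
    exact filter_subset _ _
  have nn : ∀ p p', 0 ≤ wt PP p * wt PP p' *
        (Np Q K l xa xb (ε / 4) c p p').indicator (fun _ => (1 : ℝ)) v := fun p p' =>
    mul_nonneg (mul_nonneg (wt_nonneg _ _) (wt_nonneg _ _))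
      (Set.indicator_nonneg (fun _ _ => by norm_num) v)
  have h4 : ∑ p ∈ GG, ∑ p' ∈ GG, wt PP p * wt PP p' *
        (Np Q K l xa xb (ε / 4) c p p').indicator (fun _ => (1 : ℝ)) v ≤
      ∑ p ∈ PP, ∑ p' ∈ PP, wt PP p * wt PP p' *
        (Np Q K l xa xb (ε / 4) c p p').indicator (fun _ => (1 : ℝ)) v := by
    refine (sum_le_sum fun p _ => sum_le_sum_of_subset_of_nonneg hsub
      fun p' _ _ => nn p p').trans ?_
    exact sum_le_sum_of_subset_of_nonneg hsub fun p _ _ => sum_nonneg fun p' _ => nn p p'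
  have h5 : (ε / 4) ^ 2 * W ^ 2 ≤ (∑ p ∈ PP, ∑ p' ∈ PP, wt PP p * wt PP p' *
        (Np Q K l xa xb (ε / 4) c p p').indicator (fun _ => (1 : ℝ)) v) + c * W ^ 2 := by
    refine h1.trans (h2.trans ?_)
    rw [h3]
    linarith
  have h6 : 2 * mu * W - mu ^ 2 ≤ W ^ 2 := by nlinarith [sq_nonneg (W - mu)]
  have h7 : ε ^ 2 / 32 * (2 * mu * W - mu ^ 2) ≤ ε ^ 2 / 32 * W ^ 2 :=
    mul_le_mul_of_nonneg_left h6 (by positivity)
  nlinarith [mul_le_mul_of_nonneg_right hc (sq_nonneg W)]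

end SYAx

open SYAx

theorem sya : SYA_stmt := by
  classical
  intro hPair A ε κ₁ κ₂ hA hε hε1 hκ₁ hκ hκ₂
  obtain ⟨c, hc⟩ : ∃ c : ℝ, c = ε ^ 4 / 160 := ⟨_, rfl⟩
  have hc0 : 0 < c := by
    rw [hc]
    positivity
  have hε2 : ε ^ 2 ≤ 1 := by nlinarith
  have hcε : c ≤ ε ^ 2 / 32 := by
    rw [hc]
    nlinarith [sq_nonneg ε, mul_le_mul_of_nonneg_left hε2 (sq_nonneg ε)]
  refine ⟨c, A + 4, max 100 ⌈384 / ε⌉₊, hc0, by nlinarith, by positivity, ?_⟩
  intro H hH hLs xa xb hxa hxab hxb Q hQ l hl _ hsum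
  refine ⟨fun p p' => meas_Np .., ?_⟩
  obtain ⟨PP, hPP⟩ : ∃ PP : Finset ℕ, PP = PPs H κ₁ κ₂ := ⟨_, rfl⟩
  rw [← hPP] at hsum hLs ⊢
  have hH100 : (100 : ℝ) ≤ H := by exact_mod_cast (le_max_left _ _).trans hH
  have hHε : 384 / ε ≤ H := (Nat.le_ceil _).trans (by exact_mod_cast (le_max_right _ _).trans hH)
  have hH0 : (0 : ℝ) < H := by linarith
  have hlH : 1 ≤ Real.log H := by
    rw [Real.le_log_iff_exp_le hH0]
    have := Real.exp_one_lt_d9
    linarith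
  obtain ⟨K, hK⟩ : ∃ K : ℕ, K = ⌈(H : ℝ) ^ (A + 1)⌉₊ := ⟨_, rfl⟩
  rw [← hK]
  have hHA : (1 : ℝ) ≤ (H : ℝ) ^ A := Real.one_le_rpow (by linarith) hA
  have hHA1 : (H : ℝ) ^ (A + 1) = (H : ℝ) ^ A * H := by rw [Real.rpow_add hH0, Real.rpow_one]
  have hKge : (H : ℝ) ^ A * H ≤ K := by
    rw [← hHA1, hK]
    exact Nat.le_ceil _
  have hKle : (K : ℝ) ≤ (H : ℝ) ^ A * H + 1 := by
    rw [← hHA1, hK]
    exact (Nat.ceil_lt_add_one (by positivity)).le
  have hK1' : (1 : ℝ) ≤ K := by nlinarith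
  have hK1 : 1 ≤ K := by exact_mod_cast hK1'
  have hxa0 : 0 < xa := lt_of_lt_of_le (Real.rpow_pos_of_pos hH0 _) hxa
  have hxb0 : 0 < xb := lt_of_lt_of_le (by positivity) hxab
  have hlxa : (A + 4) * Real.log H ≤ Real.log xa := by
    rw [← Real.log_rpow hH0]
    exact Real.log_le_log (by positivity) hxa
  have hlxa4 : 4 ≤ Real.log xa := by nlinarith
  obtain ⟨Λ, hΛ⟩ : ∃ Λ : ℝ, Λ = Real.log xb - Real.log xa := ⟨_, rfl⟩
  rw [← hΛ] at hsum ⊢
  have hΛ1 : Real.log H ≤ Λ := by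
    have := Real.log_le_log (by positivity) hxab
    rw [Real.log_mul hxa0.ne' hH0.ne'] at this
    linarith
  have hpp : ∀ p ∈ PP, 1 ≤ p ∧ Real.log p ≤ 1 / 4 * Real.log H ∧ (p : ℝ) ≤ H := by
    intro p hp
    rw [hPP, PPs, mem_filter, mem_Icc] at hp
    have h1 : (p : ℝ) ≤ (H : ℝ) ^ κ₂ :=
      (Nat.cast_le.2 hp.1.2).trans (Nat.floor_le (by positivity))
    have hp0 : (0 : ℝ) < p := by exact_mod_cast hp.1.1
    refine ⟨hp.1.1, ?_, ?_⟩
    · have h2 := Real.log_le_log hp0 h1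
      rw [Real.log_rpow hH0] at h2
      nlinarith
    · refine h1.trans ?_
      calc (H : ℝ) ^ κ₂ ≤ (H : ℝ) ^ (1 : ℝ) :=
            Real.rpow_le_rpow_of_exponent_le (by linarith) (by linarith)
        _ = H := Real.rpow_one _
  have hlogp : ∀ p ∈ PP, 0 ≤ Real.log p := fun p _ => Real.log_natCast_nonneg _
  have hbig : ∀ p ∈ PP, ∀ v, Real.log xa - Real.log p ≤ v → 3 * (K : ℝ) + 1 ≤ Real.exp v := by
    intro p hp v hv
    obtain ⟨p1, p2, p3⟩ := hpp p hp
    have hp0 : (0 : ℝ) < p := by exact_mod_cast p1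
    have h1 : xa / p ≤ Real.exp v := by
      refine le_trans (le_of_eq ?_) (Real.exp_le_exp.2 hv)
      rw [Real.exp_sub, Real.exp_log hxa0, Real.exp_log hp0]
    have h2 : (H : ℝ) ^ A * H ^ 3 ≤ xa / p := by
      rw [le_div_iff₀ hp0]
      calc (H : ℝ) ^ A * H ^ 3 * p ≤ (H : ℝ) ^ A * H ^ 3 * H := by gcongr
        _ = (H : ℝ) ^ (A + 4) := by
            rw [Real.rpow_add hH0, show (4 : ℝ) = ((4 : ℕ) : ℝ) by norm_num, Real.rpow_natCast]
            ring
        _ ≤ xa := hxa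
    have h3 : (H : ℝ) ^ A * H * 10000 ≤ (H : ℝ) ^ A * H ^ 3 := by
      have : (10000 : ℝ) ≤ H ^ 2 := by nlinarith
      calc (H : ℝ) ^ A * H * 10000 ≤ (H : ℝ) ^ A * H * H ^ 2 := by gcongr
        _ = _ := by ring
    have h4 : (1 : ℝ) ≤ (H : ℝ) ^ A * H := by nlinarith
    linarith
  have hM0 : (0 : ℝ) ≤ (H : ℝ) ^ A := by positivity
  have hΛ0 : 1 ≤ Λ := by linarith
  -- the measure of the good sets
  have hG : ε / 2 * Λ ≤ ∑ p ∈ PP, wt PP p * (volume (gp Q K l xa xb (ε / 4) p)).toReal := by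
    have h1 : ∀ p ∈ PP, ∫ v in (Real.log xa - Real.log p)..(Real.log xb - Real.log p),
        Wp l ⌊Real.exp v⌋₊ (Pp Q p v) ≤
        (volume (gp Q K l xa xb (ε / 4) p)).toReal + ε / 2 * Λ := by
      intro p hp
      obtain ⟨p1, p2, p3⟩ := hpp p hp
      have h2 := int_le (a := Real.log xa - Real.log p) (b := Real.log xb - Real.log p)
        (by linarith) (meas_F Q l p) (fun v => Wp_nonneg _ _ _) (fun v => Wp_le_one _ _ _)
        (meas_gp Q K l xa xb (ε / 4) p)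
        (measurableSet_Icc.diff (meas_Cst Q K p) :
          MeasurableSet (Set.Icc (Real.log xa - Real.log p) (Real.log xb - Real.log p) \
            {v | Cst Q K p v}))
        (fun v hv => ⟨hv.1, hv.2.1⟩) Set.sdiff_subset (e := ε / 4) (by linarith)
        (fun v hv h3 h4 => by
          by_contra h5
          have h6 : Cst Q K p v := by
            by_contra h7
            exact h4 ⟨hv, h7⟩
          exact h3 ⟨hv.1, hv.2, h6, (not_le.1 h5).le⟩)
      have h3 := bad_le hM0 hQ hK1 p1 (xa := xa) (xb := xb) (by linarith) (by linarith)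
        (hbig p hp)
      have h4 : (2 * (Real.log xb - Real.log xa) + 14) * (H : ℝ) ^ A * (6 / K) ≤ ε / 4 * Λ := by
        rw [← hΛ]
        have h5 : (H : ℝ) ^ A * (6 / K) ≤ 6 / H := by
          rw [mul_div_assoc', div_le_div_iff₀ (by linarith) hH0]
          nlinarith
        have h6 : 6 / (H : ℝ) * 16 ≤ ε / 4 := by
          rw [div_le_iff₀ hε] at hHε
          rw [div_mul_eq_mul_div, div_le_iff₀ hH0]
          nlinarith
        calc (2 * Λ + 14) * (H : ℝ) ^ A * (6 / K) = (2 * Λ + 14) * ((H : ℝ) ^ A * (6 / K)) := by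
              ring
          _ ≤ (2 * Λ + 14) * (6 / H) := mul_le_mul_of_nonneg_left h5 (by linarith)
          _ ≤ (16 * Λ) * (6 / H) := mul_le_mul_of_nonneg_right (by linarith) (by positivity)
          _ = (6 / (H : ℝ) * 16) * Λ := by ring
          _ ≤ ε / 4 * Λ := mul_le_mul_of_nonneg_right h6 (by linarith)
      have h5 : ε / 4 * (Real.log xb - Real.log p - (Real.log xa - Real.log p)) = ε / 4 * Λ := by
        rw [hΛ]
        ring
      rw [h5] at h2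
      linarith
    have h2 : ∑ p ∈ PP, wt PP p * (∫ v in (Real.log xa - Real.log p)..(Real.log xb - Real.log p),
        Wp l ⌊Real.exp v⌋₊ (Pp Q p v)) ≤ ∑ p ∈ PP, wt PP p *
        ((volume (gp Q K l xa xb (ε / 4) p)).toReal + ε / 2 * Λ) :=
      sum_le_sum fun p hp => mul_le_mul_of_nonneg_left (h1 p hp) (wt_nonneg _ _)
    have h3 : ∑ p ∈ PP, wt PP p * ((volume (gp Q K l xa xb (ε / 4) p)).toReal + ε / 2 * Λ) =
        (∑ p ∈ PP, wt PP p * (volume (gp Q K l xa xb (ε / 4) p)).toReal) + ε / 2 * Λ := by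
      simp_rw [mul_add]
      rw [sum_add_distrib, ← sum_mul, sum_wt PP hLs, one_mul]
    rw [h3] at h2
    linarith
  -- integration of the pointwise inequality
  obtain ⟨lo, hlo⟩ : ∃ lo : ℝ, lo = Real.log xa - 1 / 4 * Real.log H := ⟨_, rfl⟩
  obtain ⟨hi, hhi⟩ : ∃ hi : ℝ, hi = Real.log xb := ⟨_, rfl⟩
  have hgs : ∀ p ∈ PP, gp Q K l xa xb (ε / 4) p ⊆ Set.Icc lo hi := by
    intro p hp v hv
    obtain ⟨p1, p2, p3⟩ := hpp p hp
    have := hlogp p hp
    constructor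
    · linarith [hv.1]
    · linarith [hv.2.1]
  have hNs : ∀ p ∈ PP, ∀ p', Np Q K l xa xb (ε / 4) c p p' ⊆ Set.Icc lo hi :=
    fun p hp p' v hv => hgs p hp hv.1
  have hW : ∫ v in Set.Icc lo hi, ∑ p ∈ PP, wt PP p *
      (gp Q K l xa xb (ε / 4) p).indicator (fun _ => (1 : ℝ)) v =
      ∑ p ∈ PP, wt PP p * (volume (gp Q K l xa xb (ε / 4) p)).toReal := by
    rw [integral_finsetSum _ fun p _ => (ind_integrable (meas_gp ..) lo hi).const_mul _]
    refine sum_congr rfl fun p hp => ?_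
    rw [integral_const_mul, ind_int (meas_gp ..) (hgs p hp)]
  have hD : ∫ v in Set.Icc lo hi, ∑ p ∈ PP, ∑ p' ∈ PP, wt PP p * wt PP p' *
      (Np Q K l xa xb (ε / 4) c p p').indicator (fun _ => (1 : ℝ)) v =
      ∑ p ∈ PP, ∑ p' ∈ PP, wt PP p * wt PP p' *
        (volume (Np Q K l xa xb (ε / 4) c p p')).toReal := by
    rw [integral_finsetSum _ fun p _ => integrable_finsetSum _ fun p' _ =>
      (ind_integrable (meas_Np ..) lo hi).const_mul _]
    refine sum_congr rfl fun p hp => ?_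
    rw [integral_finsetSum _ fun p' _ => (ind_integrable (meas_Np ..) lo hi).const_mul _]
    refine sum_congr rfl fun p' _ => ?_
    rw [integral_const_mul, ind_int (meas_Np ..) (hNs p hp p')]
  obtain ⟨mu, hmu⟩ : ∃ mu : ℝ, mu = 2 * ε / 5 := ⟨_, rfl⟩
  have hWi : IntegrableOn (fun v => ∑ p ∈ PP, wt PP p *
      (gp Q K l xa xb (ε / 4) p).indicator (fun _ => (1 : ℝ)) v) (Set.Icc lo hi) :=
    integrable_finsetSum _ fun p _ => (ind_integrable (meas_gp ..) lo hi).const_mul _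
  have hint : ∫ v in Set.Icc lo hi, ε ^ 2 / 32 * (2 * mu * (∑ p ∈ PP, wt PP p *
      (gp Q K l xa xb (ε / 4) p).indicator (fun _ => (1 : ℝ)) v) - mu ^ 2) ≤
      ∫ v in Set.Icc lo hi, ∑ p ∈ PP, ∑ p' ∈ PP, wt PP p * wt PP p' *
        (Np Q K l xa xb (ε / 4) c p p').indicator (fun _ => (1 : ℝ)) v := by
    apply setIntegral_mono
    · exact ((hWi.const_mul _).sub (integrableOn_const (by simp))).const_mul _
    · exact integrable_finsetSum _ fun p _ => integrable_finsetSum _ fun p' _ =>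
        (ind_integrable (meas_Np ..) lo hi).const_mul _
    · intro v
      exact pointwise hPair hl hε hc0.le hcε mu v
  have hlohi : hi - lo ≤ 5 / 4 * Λ := by
    rw [hlo, hhi]
    linarith
  have hlohi0 : 0 ≤ hi - lo := by
    rw [hlo, hhi]
    linarith
  have hL : ∫ v in Set.Icc lo hi, ε ^ 2 / 32 * (2 * mu * (∑ p ∈ PP, wt PP p *
      (gp Q K l xa xb (ε / 4) p).indicator (fun _ => (1 : ℝ)) v) - mu ^ 2) =
      ε ^ 2 / 32 * (2 * mu * (∑ p ∈ PP, wt PP p *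
        (volume (gp Q K l xa xb (ε / 4) p)).toReal) - mu ^ 2 * (hi - lo)) := by
    rw [integral_const_mul]
    congr 1
    have e1 : ∫ v in Set.Icc lo hi, (2 * mu * (∑ p ∈ PP, wt PP p *
      (gp Q K l xa xb (ε / 4) p).indicator (fun _ => (1 : ℝ)) v) - mu ^ 2) =
      (∫ v in Set.Icc lo hi, 2 * mu * (∑ p ∈ PP, wt PP p *
      (gp Q K l xa xb (ε / 4) p).indicator (fun _ => (1 : ℝ)) v)) -
      ∫ _ in Set.Icc lo hi, mu ^ 2 :=
      integral_sub (hWi.const_mul _) (integrableOn_const (by simp))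
    rw [e1, integral_const_mul, hW, setIntegral_const, smul_eq_mul, mul_comm (volume.real _),
      Measure.real, Real.volume_Icc, ENNReal.toReal_ofReal hlohi0]
  rw [hL, hD] at hint
  refine le_trans ?_ hint
  obtain ⟨G, hGd⟩ : ∃ G : ℝ, G = ∑ p ∈ PP, wt PP p *
        (volume (gp Q K l xa xb (ε / 4) p)).toReal := ⟨_, rfl⟩
  rw [← hGd] at hG ⊢
  have h1 : ε ^ 2 / 5 * Λ ≤ 2 * mu * G - mu ^ 2 * (hi - lo) := by
    have h2 : 2 * mu * (ε / 2 * Λ) ≤ 2 * mu * G :=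
      mul_le_mul_of_nonneg_left hG (by rw [hmu]; positivity)
    have h3 : mu ^ 2 * (hi - lo) ≤ mu ^ 2 * (5 / 4 * Λ) :=
      mul_le_mul_of_nonneg_left hlohi (sq_nonneg _)
    have h4 : ε ^ 2 / 5 * Λ = 2 * mu * (ε / 2 * Λ) - mu ^ 2 * (5 / 4 * Λ) := by
      rw [hmu]
      ring
    linarith
  calc c * Λ = ε ^ 2 / 32 * (ε ^ 2 / 5 * Λ) := by
        rw [hc]
        ring
    _ ≤ ε ^ 2 / 32 * (2 * mu * G - mu ^ 2 * (hi - lo)) :=
        mul_le_mul_of_nonneg_left h1 (by positivity)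

end Pool.Agent.VQ
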