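import Mathlib
import Pool.Agent.Lib.VQ.Defs
import Pool.Agent.Lib.SV.Fin

/-!
# Theorem VQ (MP_663568_nt), row BAS: the case of degree 1.

The polynomial part; the rest is the proof of `SV.fin_v` from the row RA on, for one window.
(helper47)
-/

set_option autoImplicit false
open Finset MeasureTheory Filter Polynomial

namespace Pool.Agent.VQ

open Pool.Agent.Lib.MP_663568_nt Pool.Agent.Lib.MP_663568_nt.Katai
  Pool.Agent.Lib.MP_663568_nt.Nul Pool.Agent.SV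

noncomputable section

theorem Wp_deg_one (H n : ℕ) (P : ℝ[X]) (hP : P.natDegree ≤ 1) :
    Wp H n P = ‖∑ h ∈ Icc 1 H, muC (n + h) * ee (Int.fract (P.coeff 1) * h)‖ / H := by
  have hev : ∀ x : ℝ, P.eval x = P.coeff 0 + P.coeff 1 * x := by
    intro x
    rw [Polynomial.eval_eq_sum_range' (show P.natDegree < 2 by omega)]
    simp [Finset.sum_range_succ]
  have hterm : ∀ h : ℕ, ee (P.eval ((n : ℝ) + h)) =
      ee (P.coeff 0 + P.coeff 1 * n) * ee (Int.fract (P.coeff 1) * h) := by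
    intro h
    rw [hev, ← ee_add]
    have e1 : P.coeff 0 + P.coeff 1 * ((n : ℝ) + h) =
        (P.coeff 0 + P.coeff 1 * n + Int.fract (P.coeff 1) * h) +
          ((⌊P.coeff 1⌋ * (h : ℤ) : ℤ) : ℝ) := by
      push_cast
      have := Int.floor_add_fract (P.coeff 1)
      linear_combination (-(h : ℝ)) * this
    rw [e1, ee_add, ee_int, mul_one]
  unfold Wp
  congr 1
  have e2 : ∑ h ∈ Icc 1 H, muC (n + h) * ee (P.eval ((n : ℝ) + h)) =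
      ee (P.coeff 0 + P.coeff 1 * n) *
        ∑ h ∈ Icc 1 H, muC (n + h) * ee (Int.fract (P.coeff 1) * h) := by
    rw [mul_sum]
    refine sum_congr rfl fun h _ => ?_
    rw [hterm]
    ring
  rw [e2, norm_mul]
  have e3 : ‖ee (P.coeff 0 + P.coeff 1 * n)‖ = 1 := norm_ee _
  rw [e3, one_mul]

theorem TV_of_SlowP {Q : ℕ → ℝ[X]} {K : ℝ} (hQ : SlowP Q K) :
    TV (fun n => Int.fract ((Q n).coeff 1)) K := by
  intro j
  refine le_trans ?_ (hQ j)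
  classical
  rw [card_filter]
  push_cast
  refine sum_le_sum fun n _ => ?_
  split_ifs with h
  · have h1 := Int.fract_nonneg ((Q n).coeff 1)
    have h2 := Int.fract_lt_one ((Q n).coeff 1)
    have h3 := Int.fract_nonneg ((Q (n + 1)).coeff 1)
    have h4 := Int.fract_lt_one ((Q (n + 1)).coeff 1)
    rw [abs_le]
    constructor <;> linarith
  · rw [not_not] at h
    rw [h]
    simp

theorem bas : BAS_stmt := by
  intro hRA hRB hRB2 hRC hCORE hMuT hRD A ε₀ hA0 hε₀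
  obtain ⟨ε, hε⟩ : ∃ ε, ε = min ε₀ 1 := ⟨_, rfl⟩
  have hε0 : 0 < ε := by rw [hε]; exact lt_min hε₀ one_pos
  have hε1 : ε ≤ 1 := by rw [hε]; exact min_le_right _ _
  have hεε : ε ≤ ε₀ := by rw [hε]; exact min_le_left _ _
  obtain ⟨κ, hκe⟩ : ∃ κ : ℝ, κ = ε / 64 := ⟨_, rfl⟩
  have hκ : 0 < κ := by rw [hκe]; positivity
  have hκε : κ ≤ ε / 64 := hκe.le
  obtain ⟨η, A', hη, hη1, hA', Hc, hRA⟩ := hRA A ε κ hA0 hε0 hε1 hκ hκε
  have hκ64 : κ ≤ 1 / 64 := by linarith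
  obtain ⟨κ₁, hκ₁, hκ₁₂, η₂, hη₂, hη₂1, Xd, hRB2⟩ := hRB2 hRB (ε / 16) (κ / 4) κ
    (by positivity) (by linarith) (by positivity) (by linarith) hκ
  obtain ⟨δ, η₃, C, hδ, hδ1, hη₃, hη₃1, hC, lc, hRC⟩ := hRC (ε / 16 / 2) (by positivity)
    (by linarith)
  obtain ⟨c, C₄, hc, hC₄, Q₀, hQ₀, He, hCORE⟩ := hCORE A' κ₁ (κ / 4) (1 / 16) (δ / 2) hA' hκ₁
    hκ₁₂ (by linarith) (by norm_num) le_rfl (by positivity) (by linarith)
  obtain ⟨ϑ, hϑ, ld, U₀, hRD⟩ := hRD hMuT (ε / 16 / 2 / 4) c η₃ Q₀ (by positivity) hc hη₃ hη₃1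
    hQ₀
  obtain ⟨W, hW⟩ : ∃ W : ℝ, W = (2 * C + lc + ld + 2) / η₂ + Real.exp 1 / ϑ +
    Real.exp 1 * C₄ * C + Real.exp 1 * C₄ * C / ϑ + C₄ / ϑ := ⟨_, rfl⟩
  have hWa : (2 * C + lc + ld + 2) / η₂ ≤ W := by
    rw [hW]
    have : 0 ≤ Real.exp 1 / ϑ + Real.exp 1 * C₄ * C + Real.exp 1 * C₄ * C / ϑ + C₄ / ϑ := by
      positivity
    linarith
  have hWb : Real.exp 1 / ϑ ≤ W := by
    rw [hW]
    have : 0 ≤ (2 * C + lc + ld + 2) / η₂ + Real.exp 1 * C₄ * C + Real.exp 1 * C₄ * C / ϑ +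
      C₄ / ϑ := by positivity
    linarith
  have hWc : Real.exp 1 * C₄ * C ≤ W := by
    rw [hW]
    have : 0 ≤ (2 * C + lc + ld + 2) / η₂ + Real.exp 1 / ϑ + Real.exp 1 * C₄ * C / ϑ +
      C₄ / ϑ := by positivity
    linarith
  have hWd : Real.exp 1 * C₄ * C / ϑ ≤ W := by
    rw [hW]
    have : 0 ≤ (2 * C + lc + ld + 2) / η₂ + Real.exp 1 / ϑ + Real.exp 1 * C₄ * C +
      C₄ / ϑ := by positivity
    linarith
  have hWe : C₄ / ϑ ≤ W := by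
    rw [hW]
    have : 0 ≤ (2 * C + lc + ld + 2) / η₂ + Real.exp 1 / ϑ + Real.exp 1 * C₄ * C +
      Real.exp 1 * C₄ * C / ϑ := by positivity
    linarith
  obtain ⟨X₁, hX₁⟩ := fin_large κ κ₁ W U₀ He Xd hκ hκ₁
  refine ⟨A + 6, max (max Hc 2) ⌈((X₁ : ℝ) + 1) / η⌉₊, by linarith, ?_⟩
  intro H hH xa xb hxa hxb Q hdeg hslow
  have hHc : Hc ≤ H := ((le_max_left _ _).trans (le_max_left _ _)).trans hH
  have hH2 : 2 ≤ H := ((le_max_right _ _).trans (le_max_left _ _)).trans hH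
  have hH1 : 1 ≤ H := by omega
  have hH1' : (1 : ℝ) ≤ H := by exact_mod_cast hH1
  have hH2' : (2 : ℝ) ≤ H := by exact_mod_cast hH2
  have hHη : ((X₁ : ℝ) + 1) / η ≤ H :=
    (Nat.le_ceil _).trans (by exact_mod_cast (le_max_right _ _).trans hH)
  by_contra hcon
  replace hcon := lt_of_not_ge hcon
  have hxa1 : 1 ≤ xa := (Real.one_le_rpow hH1' (by linarith)).trans hxa
  have hxa0 : 0 < xa := by linarith
  have hxab : xa < xb := by
    have : xa * 2 ≤ xa * H := by gcongr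
    linarith
  have hlogs : Real.log H ≤ Real.log xb - Real.log xa := by
    have h1 : Real.log (xa * H) ≤ Real.log xb := Real.log_le_log (by positivity) hxb
    rw [Real.log_mul hxa0.ne' (by positivity)] at h1
    linarith
  have hlogH : 0 ≤ Real.log H := Real.log_nonneg hH1'
  have hxx1 : (H : ℝ) ^ (1 + κ) ≤ xa :=
    (Real.rpow_le_rpow_of_exponent_le hH1' (by linarith)).trans hxa
  have hHN : H ≤ ⌈xb⌉₊ := by
    have h1 : (H : ℝ) ≤ xb := by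
      refine le_trans ?_ hxb
      exact le_mul_of_one_le_left (by linarith) hxa1
    exact_mod_cast h1.trans (Nat.le_ceil xb)
  have hfin : ε / 4 * (Real.log xb - Real.log xa) ≤ ∑ n ∈ Ioc ⌊xa⌋₊ ⌊xb⌋₊, (1 / (n : ℝ)) *
      (‖∑ h ∈ Icc 1 H, muC (n + h) * ee (Int.fract ((Q n).coeff 1) * h)‖ / H) := by
    have e1 : ∑ n ∈ Ioc ⌊xa⌋₊ ⌊xb⌋₊, (1 / (n : ℝ)) *
        (‖∑ h ∈ Icc 1 H, muC (n + h) * ee (Int.fract ((Q n).coeff 1) * h)‖ / H) =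
        ∑ n ∈ Ioc ⌊xa⌋₊ ⌊xb⌋₊, (1 / (n : ℝ)) * Wp H n (Q n) :=
      sum_congr rfl fun n _ => by rw [Wp_deg_one H n (Q n) (hdeg n)]
    rw [e1]
    refine le_trans ?_ hcon.le
    have : ε / 4 ≤ ε₀ := by linarith
    gcongr
    linarith
  obtain ⟨a, ta, tb, R, ht1, ht2, hR1, hR2, hR3, hj, hint⟩ := hRA H ⌈xb⌉₊ hHc hHN
    (fun n => Int.fract ((Q n).coeff 1)) (TV_of_SlowP hslow) xa xb hxx1 hxab (Nat.le_ceil xb)
    (by nlinarith) (Or.inr hxa) hfin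
  obtain ⟨X, hX⟩ : ∃ X : ℕ, X = ⌊η * H⌋₊ := ⟨_, rfl⟩
  rw [← hX] at ht1 ht2 hR2 hR3 hj hint
  have hXX : X₁ ≤ X := by
    rw [hX]
    apply Nat.le_floor
    rw [div_le_iff₀ hη] at hHη
    linarith
  obtain ⟨b1, b2, b3, b4, b5, b6, b7⟩ := hX₁ X hXX
  have hXpos : 0 < (X : ℝ) := by
    rcases Nat.eq_zero_or_pos X with h | h
    · rw [h] at b3
      simp at b3
      linarith
    · exact_mod_cast h
  have hX1 : (1 : ℝ) ≤ X := by exact_mod_cast Nat.pos_of_ne_zero (fun h => by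
    rw [h] at hXpos; simp at hXpos)
  obtain ⟨hLs, hRB2⟩ := hRB2 X b1
  have h3 := hRB2 a ta tb ht1 ht2 hint
  obtain ⟨l, hl⟩ : ∃ l : ℕ, l = ⌊η₂ * (X : ℝ) ^ (1 - κ / 4)⌋₊ := ⟨_, rfl⟩
  rw [← hl] at h3
  -- the size of `l`
  have hXq : (X : ℝ) ^ (1 / 4 : ℝ) ≤ (X : ℝ) ^ (1 - κ / 4) :=
    Real.rpow_le_rpow_of_exponent_le hX1 (by linarith)
  have hly : 2 * C + lc + ld + 2 ≤ η₂ * (X : ℝ) ^ (1 - κ / 4) := by
    have := hWa.trans (b6.trans hXq)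
    rw [div_le_iff₀ hη₂] at this
    linarith
  have hl1 : η₂ * (X : ℝ) ^ (1 - κ / 4) - 1 < l := by rw [hl]; exact Nat.sub_one_lt_floor _
  have hl2 : (l : ℝ) ≤ η₂ * (X : ℝ) ^ (1 - κ / 4) := by
    rw [hl]; exact Nat.floor_le (by positivity)
  have hlc : lc ≤ l := by
    have : (lc : ℝ) ≤ l := by linarith [Nat.cast_nonneg (α := ℝ) ld]
    exact_mod_cast this
  have hld : ld ≤ l := by
    have : (ld : ℝ) ≤ l := by linarith [Nat.cast_nonneg (α := ℝ) lc]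
    exact_mod_cast this
  have hlone : (1 : ℝ) ≤ l := by
    linarith [Nat.cast_nonneg (α := ℝ) lc, Nat.cast_nonneg (α := ℝ) ld]
  have hlX : (l : ℝ) ≤ X := by
    refine hl2.trans ?_
    calc η₂ * (X : ℝ) ^ (1 - κ / 4) ≤ 1 * (X : ℝ) ^ (1 : ℝ) :=
          mul_le_mul hη₂1 (Real.rpow_le_rpow_of_exponent_le hX1 (by linarith)) (by positivity)
            zero_le_one
      _ = X := by rw [one_mul, Real.rpow_one]
  have hquart : (X : ℝ) ^ (-(1 / 2) : ℝ) * (X : ℝ) ^ (1 / 4 : ℝ) = 1 / (X : ℝ) ^ (1 / 4 : ℝ) := by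
    rw [← Real.rpow_add hXpos, show (-(1 / 2) + 1 / 4 : ℝ) = -(1 / 4) by norm_num,
      Real.rpow_neg hXpos.le, inv_eq_one_div]
  have hq4 : 0 < (X : ℝ) ^ (1 / 4 : ℝ) := Real.rpow_pos_of_pos hXpos _
  have htau : C / (l : ℝ) ≤ (X : ℝ) ^ (-(1 / 2) : ℝ) := by
    rw [div_le_iff₀ (by linarith)]
    have e1 : η₂ * (X : ℝ) ^ (1 - κ / 4) / 2 ≤ l := by
      linarith [Nat.cast_nonneg (α := ℝ) lc, Nat.cast_nonneg (α := ℝ) ld]
    have e2 : (X : ℝ) ^ (-(1 / 2) : ℝ) * (η₂ * (X : ℝ) ^ (1 - κ / 4) / 2) =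
        η₂ / 2 * (X : ℝ) ^ (1 / 2 - κ / 4) := by
      have : (X : ℝ) ^ (1 / 2 - κ / 4) = (X : ℝ) ^ (-(1 / 2) : ℝ) * (X : ℝ) ^ (1 - κ / 4) := by
        rw [← Real.rpow_add hXpos]; congr 1; ring
      rw [this]; ring
    have e3 : (X : ℝ) ^ (1 / 4 : ℝ) ≤ (X : ℝ) ^ (1 / 2 - κ / 4) :=
      Real.rpow_le_rpow_of_exponent_le hX1 (by linarith)
    have e4 : 2 * C / η₂ ≤ (X : ℝ) ^ (1 / 4 : ℝ) := by
      refine le_trans ?_ (hWa.trans b6)
      gcongr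
      linarith [Nat.cast_nonneg (α := ℝ) lc, Nat.cast_nonneg (α := ℝ) ld]
    rw [div_le_iff₀ hη₂] at e4
    have e5 : (X : ℝ) ^ (-(1 / 2) : ℝ) * (η₂ * (X : ℝ) ^ (1 - κ / 4) / 2) ≤
        (X : ℝ) ^ (-(1 / 2) : ℝ) * l := by gcongr
    have e6 : η₂ / 2 * (X : ℝ) ^ (1 / 4 : ℝ) ≤ η₂ / 2 * (X : ℝ) ^ (1 / 2 - κ / 4) := by gcongr
    linarith
  -- the clusters
  have hlX0 : 0 < Real.log X := by linarith
  have hklX : 0 < κ * Real.log X := mul_pos hκ hlX0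
  have htab : ta < tb := by linarith
  have hta : ta ≤ tb := htab.le
  obtain ⟨B, hGm, hmass⟩ := hRC l hlc (PPs X κ₁ (κ / 4)) (by
    intro p hp
    unfold PPs at hp
    exact (mem_filter.1 hp).2.1) hLs (fun u => a ⌊Real.exp u / (X : ℝ)⌋₊)
    (((measurable_from_nat (f := a)).comp Nat.measurable_floor).comp
      (Real.measurable_exp.div_const _)) ta tb htab (by linarith)
  have hok := sysF_ok (e := ε / 16 / 2) b5 hLs hR1 hC.le hta hXpos hj hGm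
  obtain ⟨q, hq, u₀, T₀, S, hSm, hSs, hSv, hT₀, hS⟩ := hCORE X b2 _ R hok hR2 htau (by
    show δ / 2 * (tb - (ta - Real.log ((X : ℝ) ^ (κ / 4)))) ≤ _
    refine le_trans ?_ hmass
    rw [Real.log_rpow hXpos]
    have e1 : κ / 4 * Real.log X ≤ tb - ta := by linarith
    have e2 := mul_le_mul_of_nonneg_left e1 (by positivity : 0 ≤ δ / 2)
    linarith)
  have hT₀ : |T₀| ≤ Real.exp u₀ * (C₄ * R * (C / l) * (X : ℝ) ^ (2 * (1 / 16) + κ / 4)) := hT₀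
  -- a point
  have hne : S.Nonempty := by
    rw [Set.nonempty_iff_ne_empty]
    intro he
    rw [he, measure_empty, ENNReal.toReal_zero] at hSv
    linarith
  obtain ⟨u, hu⟩ := hne
  have hlo : ta - Real.log ((X : ℝ) ^ (κ / 4)) ≤ u := (hok.mem q u (hS u hu).1).2.1
  rw [Real.log_rpow hXpos] at hlo
  have hu0 : ta - κ / 4 * Real.log X - 1 ≤ u₀ := by linarith [(hSs hu).2]
  have hu1 : (1 + κ / 4) * Real.log X - 1 ≤ u₀ := by linarith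
  have hu2 : Real.log X - 1 ≤ u₀ := by linarith
  have hexpX : Real.exp (Real.log X) = X := Real.exp_log hXpos
  have hexp1 : (X : ℝ) * (X : ℝ) ^ (κ / 4) ≤ Real.exp 1 * Real.exp u₀ := by
    rw [← Real.exp_add]
    calc (X : ℝ) * (X : ℝ) ^ (κ / 4) = Real.exp ((1 + κ / 4) * Real.log X) := by
          rw [Real.rpow_def_of_pos hXpos, add_mul, Real.exp_add, one_mul, hexpX, mul_comm
            (Real.log (X : ℝ))]
      _ ≤ _ := Real.exp_le_exp.2 (by linarith)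
  have hexp2 : Real.exp ta ≤ Real.exp 1 * Real.exp u₀ * (X : ℝ) ^ (κ / 4) := by
    rw [Real.rpow_def_of_pos hXpos, ← Real.exp_add, ← Real.exp_add]
    exact Real.exp_le_exp.2 (by linarith)
  have hE2 : Real.exp (2 * u₀) = Real.exp u₀ * Real.exp u₀ := by
    rw [← Real.exp_add]; congr 1; ring
  have hpow : (X : ℝ) ^ (2 * (1 / 16) + κ / 4) ≤ (X : ℝ) ^ (1 / 4 - κ / 4) :=
    Real.rpow_le_rpow_of_exponent_le hX1 (by linarith)
  have hT1 : |T₀| * l ≤ Real.exp (2 * u₀) * (Real.exp 1 * C₄ * C * (1 / (X : ℝ) ^ (1 / 4 : ℝ))) := by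
    have e1 : |T₀| * l ≤ Real.exp u₀ * (C₄ * R * (C / l) * (X : ℝ) ^ (2 * (1 / 16) + κ / 4)) * l := by
      gcongr
    have e2 : Real.exp u₀ * (C₄ * R * (C / l) * (X : ℝ) ^ (2 * (1 / 16) + κ / 4)) * l =
        Real.exp u₀ * (C₄ * C * R * (X : ℝ) ^ (2 * (1 / 16) + κ / 4)) := by
      field_simp
    have e3 : R ≤ Real.exp 1 * Real.exp u₀ * (X : ℝ) ^ (κ / 4) * (X : ℝ) ^ (-(1 / 2) : ℝ) :=
      hR3.trans (by gcongr)
    have e4 : (X : ℝ) ^ (κ / 4) * (X : ℝ) ^ (-(1 / 2) : ℝ) * (X : ℝ) ^ (1 / 4 - κ / 4) =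
        1 / (X : ℝ) ^ (1 / 4 : ℝ) := by
      rw [← hquart, ← Real.rpow_add hXpos, ← Real.rpow_add hXpos, ← Real.rpow_add hXpos]
      congr 1; ring
    rw [e2] at e1
    refine e1.trans ?_
    calc Real.exp u₀ * (C₄ * C * R * (X : ℝ) ^ (2 * (1 / 16) + κ / 4))
        ≤ Real.exp u₀ * (C₄ * C * (Real.exp 1 * Real.exp u₀ * (X : ℝ) ^ (κ / 4) *
          (X : ℝ) ^ (-(1 / 2) : ℝ)) * (X : ℝ) ^ (1 / 4 - κ / 4)) := by gcongr
      _ = Real.exp u₀ * Real.exp u₀ * (Real.exp 1 * C₄ * C * ((X : ℝ) ^ (κ / 4) *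
          (X : ℝ) ^ (-(1 / 2) : ℝ) * (X : ℝ) ^ (1 / 4 - κ / 4))) := by ring
      _ = _ := by rw [e4, hE2]
  have hsmall1 : Real.exp 1 * C₄ * C * (1 / (X : ℝ) ^ (1 / 4 : ℝ)) ≤ 1 := by
    rw [mul_one_div, div_le_one hq4]
    exact hWc.trans b6
  have hsmall2 : Real.exp 1 * C₄ * C * (1 / (X : ℝ) ^ (1 / 4 : ℝ)) ≤ ϑ := by
    rw [mul_one_div, div_le_iff₀ hq4]
    have := hWd.trans b6
    rw [div_le_iff₀ hϑ] at this
    linarith
  refine hRD l hld u₀ T₀ (by linarith) ?_ ?_ ?_ B S hSm hSs hSv ?_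
  · have e1 := hWb.trans b7
    rw [div_le_iff₀ hϑ] at e1
    have e2 : (X : ℝ) * Real.exp 1 ≤ ϑ * (Real.exp 1 * Real.exp u₀) := by
      calc (X : ℝ) * Real.exp 1 ≤ X * ((X : ℝ) ^ (κ / 4) * ϑ) := by gcongr
        _ = ϑ * (X * (X : ℝ) ^ (κ / 4)) := by ring
        _ ≤ _ := by gcongr
    have e3 : (X : ℝ) ≤ ϑ * Real.exp u₀ := by
      have := Real.exp_pos 1
      have e4 : (X : ℝ) * Real.exp 1 ≤ ϑ * Real.exp u₀ * Real.exp 1 := by linarith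
      exact le_of_mul_le_mul_right e4 this
    exact hlX.trans e3
  · calc |T₀| ≤ |T₀| * l := le_mul_of_one_le_right (abs_nonneg _) hlone
      _ ≤ _ := hT1
      _ ≤ Real.exp (2 * u₀) * 1 := by gcongr
      _ = _ := mul_one _
  · calc |T₀| * l ≤ _ := hT1
      _ ≤ Real.exp (2 * u₀) * ϑ := by gcongr
      _ = _ := mul_comm _ _
  · intro u hu
    obtain ⟨⟨_, _, _, h4, _⟩, j, hj⟩ := hS u hu
    refine ⟨h4, j, hj.trans ?_⟩
    show C₄ * (C / l) * (X : ℝ) ^ (2 * (1 / 16) + κ / 4) ≤ ϑ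
    have e1 : (X : ℝ) ^ (2 * (1 / 16) + κ / 4) ≤ (X : ℝ) ^ (1 / 4 : ℝ) :=
      Real.rpow_le_rpow_of_exponent_le hX1 (by linarith)
    calc C₄ * (C / l) * (X : ℝ) ^ (2 * (1 / 16) + κ / 4)
        ≤ C₄ * (X : ℝ) ^ (-(1 / 2) : ℝ) * (X : ℝ) ^ (1 / 4 : ℝ) := by gcongr
      _ = C₄ * ((X : ℝ) ^ (-(1 / 2) : ℝ) * (X : ℝ) ^ (1 / 4 : ℝ)) := by ring
      _ = C₄ / (X : ℝ) ^ (1 / 4 : ℝ) := by rw [hquart]; ring
      _ ≤ ϑ := by
          rw [div_le_iff₀ hq4]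
          have := hWe.trans b6
          rw [div_le_iff₀ hϑ] at this
          linarith

end

end Pool.Agent.VQ
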