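import Pool.Agent.Lib.VQ.Defs

/-!
# Theorem VQ (MP_663568_nt), row DESC: the family at the lower level (helper40)
-/

set_option autoImplicit false
open Finset MeasureTheory Polynomial

namespace Pool.Agent.VQ

open Pool.Agent.Lib.MP_663568_nt Pool.Agent.Lib.MP_663568_nt.Katai
  Pool.Agent.Lib.MP_663568_nt.Nul Pool.Agent.SV

namespace DESCx

lemma jumps (c : ℕ → ℕ) (hc : ∀ n, c n ≤ c (n + 1)) (a b : ℕ) (hab : a ≤ b) :
    ((Ico a b).filter fun n => c (n + 1) ≠ c n).card + c a ≤ c b := by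
  induction b, hab using Nat.le_induction with
  | base => simp
  | succ b hab ih =>
    rw [show Ico a (b + 1) = insert b (Ico a b) from Nat.Ico_succ_right_eq_insert_Ico hab, filter_insert]
    have h1 := hc b
    split_ifs with h
    · rw [card_insert_of_notMem (by simp)]
      omega
    · omega

lemma dyadic (K j : ℕ) :
    ((⌊(K : ℝ) * Real.log ((2 ^ (j + 1) : ℕ) : ℝ)⌋₊ : ℕ) : ℝ) ≤
      (⌊(K : ℝ) * Real.log ((2 ^ j : ℕ) : ℝ)⌋₊ : ℝ) + (K + 2) := by
  have h2 : Real.log 2 ≤ 1 := by linarith [Real.log_two_lt_d9]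
  have h20 : 0 ≤ Real.log 2 := Real.log_nonneg (by norm_num)
  have hK : (0 : ℝ) ≤ K := Nat.cast_nonneg _
  have h1 : (⌊(K : ℝ) * Real.log ((2 ^ (j + 1) : ℕ) : ℝ)⌋₊ : ℝ) ≤
      (K : ℝ) * Real.log ((2 ^ (j + 1) : ℕ) : ℝ) := by
    apply Nat.floor_le
    apply mul_nonneg hK
    apply Real.log_nonneg
    exact_mod_cast Nat.one_le_two_pow
  have h3 := Nat.lt_floor_add_one ((K : ℝ) * Real.log ((2 ^ j : ℕ) : ℝ))
  have e1 : Real.log ((2 ^ (j + 1) : ℕ) : ℝ) = Real.log ((2 ^ j : ℕ) : ℝ) + Real.log 2 := by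
    push_cast
    rw [pow_succ, Real.log_mul (by positivity) (by norm_num)]
  rw [e1] at h1 ⊢
  have h4 : (K : ℝ) * Real.log 2 ≤ K := mul_le_of_le_one_right hK h2
  rw [mul_add] at h1 ⊢
  linarith

end DESCx

theorem desc : DESC_stmt := by
  classical
  intro t Q₀ Q₂ q l K xa xb e τ Q S ht hQ₀ hQ₂ hq hl hK hxa he hτ hdeg hSm hS
  set c : ℕ → ℕ := fun m => ⌊(K : ℝ) * Real.log (m : ℝ)⌋₊ with hc
  have hcl : ∀ u, cl K u = c ⌊Real.exp u⌋₊ := fun u => rfl
  have hcm : ∀ n, c n ≤ c (n + 1) := by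
    intro n
    rw [hc]
    simp only
    apply Nat.floor_mono
    apply mul_le_mul_of_nonneg_left _ (Nat.cast_nonneg _)
    rcases Nat.eq_zero_or_pos n with rfl | hn
    · simp
    · apply Real.log_le_log (by exact_mod_cast hn)
      push_cast
      linarith
  set f : ℕ → ℝ[X] := fun j => if h : ∃ u ∈ S, cl K u = j then Pp Q q h.choose else 0 with hfd
  have hf : ∀ u ∈ S, f (cl K u) = Pp Q q u := by
    intro u hu
    have h : ∃ u' ∈ S, cl K u' = cl K u := ⟨u, hu, rfl⟩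
    have h1 : f (cl K u) = Pp Q q h.choose := dif_pos h
    rw [h1]
    unfold Pp
    rw [(hS u hu).2.2.1 h.choose h.choose_spec.2]
  have hf' : ∀ j, f j = 0 ∨ ∃ u ∈ S, f j = Pp Q q u := by
    intro j
    by_cases h : ∃ u ∈ S, cl K u = j
    · exact Or.inr ⟨h.choose, h.choose_spec.1, dif_pos h⟩
    · exact Or.inl (dif_neg h)
  have hco : ∀ u, (Pp Q q u).coeff t = (q : ℝ) ^ t * (Q ⌊(q : ℝ) * Real.exp u⌋₊).coeff t := by
    intro u
    unfold Pp
    rw [comp_C_mul_X_coeff, mul_comm]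
  have hQ₂0 : (0 : ℝ) < Q₂ := by exact_mod_cast hQ₂
  have hQ₂1 : (1 : ℝ) ≤ Q₂ := by exact_mod_cast hQ₂
  have hQ₀0 : (0 : ℝ) < Q₀ := by exact_mod_cast hQ₀
  refine ⟨fun m => f (c m), ?_, ?_, ?_, ?_⟩
  · intro m
    rcases hf' (c m) with h | ⟨u, hu, h⟩
    · simp only
      rw [h]
      simp
    · simp only
      rw [h]
      unfold Pp
      refine natDegree_comp_le.trans ?_
      have h1 : (C (q : ℝ) * X).natDegree ≤ 1 := (natDegree_C_mul_le _ _).trans natDegree_X_le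
      calc _ ≤ (Q ⌊(q : ℝ) * Real.exp u⌋₊).natDegree * 1 := Nat.mul_le_mul_left _ h1
        _ ≤ t := by rw [mul_one]; exact hdeg _
  · intro j
    have h1 := DESCx.jumps c hcm (2 ^ j) (2 ^ (j + 1)) (Nat.pow_le_pow_right (by norm_num) (by omega))
    have h2 : ((Ico (2 ^ j) (2 ^ (j + 1))).filter fun n => f (c (n + 1)) ≠ f (c n)).card ≤
        ((Ico (2 ^ j) (2 ^ (j + 1))).filter fun n => c (n + 1) ≠ c n).card := by
      apply card_le_card
      intro n hn
      rw [mem_filter] at hn ⊢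
      exact ⟨hn.1, fun h => hn.2 (by rw [h])⟩
    have h3 := DESCx.dyadic K j
    have h4 : ((((Ico (2 ^ j) (2 ^ (j + 1))).filter fun n => f (c (n + 1)) ≠ f (c n)).card : ℕ) : ℝ) +
        (c (2 ^ j) : ℝ) ≤ (c (2 ^ (j + 1)) : ℝ) := by
      exact_mod_cast (by omega : ((Ico (2 ^ j) (2 ^ (j + 1))).filter
        fun n => f (c (n + 1)) ≠ f (c n)).card + c (2 ^ j) ≤ c (2 ^ (j + 1)))
    have h5 : (c (2 ^ (j + 1)) : ℝ) ≤ (c (2 ^ j) : ℝ) + (K + 2) := h3
    have h6 : ((((Ico (2 ^ j) (2 ^ (j + 1))).filter fun n => f (c (n + 1)) ≠ f (c n)).card : ℕ) : ℝ) ≤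
        K + 2 := by linarith
    convert h6
  · intro m
    rcases hf' (c m) with h | ⟨u, hu, h⟩
    · refine ⟨0, ?_⟩
      simp only
      rw [h]
      simpa using hτ
    · obtain ⟨j, hj⟩ := (hS u hu).2.2.2.2
      refine ⟨j, ?_⟩
      simp only
      rw [h, hco]
      have e1 : (q : ℝ) ^ t * (Q ⌊(q : ℝ) * Real.exp u⌋₊).coeff t - j / ((Q₀ * Q₂ : ℕ) : ℝ) =
          ((q : ℝ) ^ t * ((Q₂ : ℝ) * (Q ⌊(q : ℝ) * Real.exp u⌋₊).coeff t) - j / Q₀) / Q₂ := by
        push_cast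
        field_simp
      rw [e1, abs_div, abs_of_pos hQ₂0, div_le_iff₀ hQ₂0]
      exact hj.trans (le_mul_of_one_le_right hτ hQ₂1)
  · set I := Ioc ⌊xa⌋₊ ⌊xb⌋₊ with hI
    set Sm : ℕ → Set ℝ := fun m => {u | u ∈ S ∧ ⌊Real.exp u⌋₊ = m} with hSmd
    have hxa0 : 0 ≤ xa := by linarith
    have hmem : ∀ m, (Sm m).Nonempty → (1 : ℝ) ≤ m ∧ e ≤ Wp l m (f (c m)) := by
      rintro m ⟨u, hu, hum⟩
      obtain ⟨a1, -, -, a4, -⟩ := hS u hu
      rw [← hf u hu, hcl, hum] at a4
      rw [hum] at a1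
      exact ⟨by linarith, a4⟩
    have hcov : S ⊆ ⋃ m ∈ I, Sm m := by
      intro u hu
      obtain ⟨a1, a2, -⟩ := hS u hu
      simp only [Set.mem_iUnion]
      refine ⟨⌊Real.exp u⌋₊, ?_, hu, rfl⟩
      rw [hI, mem_Ioc]
      exact ⟨(Nat.floor_lt hxa0).2 a1, Nat.le_floor a2⟩
    have hvol : ∀ m, volume (Sm m) ≤ ENNReal.ofReal (if (Sm m).Nonempty then 1 / (m : ℝ) else 0) := by
      intro m
      split_ifs with hn
      · obtain ⟨hm, -⟩ := hmem m hn
        have hm0 : (0 : ℝ) < m := by linarith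
        have hsub : Sm m ⊆ Set.Ico (Real.log m) (Real.log (m + 1)) := by
          rintro u ⟨-, hum⟩
          have h0 : 0 ≤ Real.exp u := (Real.exp_pos u).le
          have h1 : (m : ℝ) ≤ Real.exp u := by rw [← hum]; exact Nat.floor_le h0
          have h2 : Real.exp u < m + 1 := by rw [← hum]; exact Nat.lt_floor_add_one _
          constructor
          · rwa [Real.log_le_iff_le_exp hm0]
          · rwa [Real.lt_log_iff_exp_lt (by linarith)]
        refine (measure_mono hsub).trans ?_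
        rw [Real.volume_Ico]
        apply ENNReal.ofReal_le_ofReal
        rw [← Real.log_div (by linarith) hm0.ne']
        have h3 := Real.log_le_sub_one_of_pos (show 0 < ((m : ℝ) + 1) / m by positivity)
        have h4 : ((m : ℝ) + 1) / m - 1 = 1 / m := by field_simp; ring
        linarith
      · rw [Set.not_nonempty_iff_eq_empty] at hn
        rw [hn]
        simp
    have hv0 : ∀ m : ℕ, 0 ≤ (if (Sm m).Nonempty then 1 / (m : ℝ) else 0) := by
      intro m
      split_ifs <;> positivity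
    have htot : (volume S).toReal ≤ ∑ m ∈ I, (if (Sm m).Nonempty then 1 / (m : ℝ) else 0) := by
      have h1 : volume S ≤ ENNReal.ofReal (∑ m ∈ I, (if (Sm m).Nonempty then 1 / (m : ℝ) else 0)) := by
        refine (measure_mono hcov).trans ((measure_biUnion_finset_le I Sm).trans ?_)
        rw [ENNReal.ofReal_sum_of_nonneg fun m _ => hv0 m]
        exact sum_le_sum fun m _ => hvol m
      exact ENNReal.toReal_le_of_le_ofReal (sum_nonneg fun m _ => hv0 m) h1
    calc e * (volume S).toReal ≤ e * ∑ m ∈ I, (if (Sm m).Nonempty then 1 / (m : ℝ) else 0) :=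
          mul_le_mul_of_nonneg_left htot he
      _ = ∑ m ∈ I, e * (if (Sm m).Nonempty then 1 / (m : ℝ) else 0) := by rw [mul_sum]
      _ ≤ ∑ m ∈ I, (1 / (m : ℝ)) * Wp l m (f (c m)) := by
          refine sum_le_sum fun m _ => ?_
          have hW : 0 ≤ Wp l m (f (c m)) := by unfold Wp; positivity
          split_ifs with hn
          · rw [mul_comm]
            exact mul_le_mul_of_nonneg_left (hmem m hn).2 (by positivity)
          · rw [mul_zero]
            positivity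

end Pool.Agent.VQ
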