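import Pool.Agent.Lib.VQ.Defs
import Pool.Agent.Lib.SV.E1

/-!
# Theorem VQ: row E1T (closed paths from a rich point).  Copy of `SV.e1` with the `t`-th powers.
(helper42)
-/

set_option autoImplicit false
open Finset MeasureTheory

namespace Pool.Agent.VQ

open Pool.Agent.SV

noncomputable section

/-- Row E1T. -/
theorem e1t : E1T_stmt := by
  classical
  intro hP3 hP2 hK2 s t P1 P2 R g ht h0 hτ hg m q hm hq hqP β hβ cell hcell k δ v hk hδ hv
  have hs := h0.dm
  have hsmono : Monotone s.st := hs.mono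
  have hsgrow : ∀ u : ℝ, (s.st (u + 1) : ℝ) ≤ s.st u + R := hs.grow
  have hsone : 1 ≤ Ls s.PP := hs.one
  have hsge : ∀ p ∈ s.PP, P1 ≤ p := hs.ge
  have hsle : ∀ p ∈ s.PP, (p : ℝ) ≤ P2 := hs.le
  have hsprime : ∀ p ∈ s.PP, p.Prime := hs.prime
  have hbounds := E1.bounds hs hg cell hcell
  have hP1 : 0 < P1 := by linarith [hs.P1one]
  have hR : 0 < R := by linarith [hs.Rone]
  have hlg : 0 ≤ Real.log g := Real.log_nonneg hg
  set M : ℝ := ((∏ i, q i : ℕ) : ℝ) ^ t with hM
  set E2 : ℝ := k * g ^ (t * k) * (4 * P2 ^ t * s.tau) / P1 ^ t with hE2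
  set K : ℝ := k * Real.log g with hK
  have hK0 : 0 ≤ K := by positivity
  -- the allowed paths
  set L : Finset (List (ℕ × ℕ)) :=
    (paths (Mv s cell) k).filter fun l => OkL sg (Ed s cell q) l v with hL
  set W : List (ℕ × ℕ) → ℝ := fun l => (l.map (om s)).prod with hW
  have hsumW : δ ≤ ∑ l ∈ L, W l := by
    have h1 := hK2 (Mv s cell) (om s) sg (Ed s cell q) k (fun _ => 1) v
    rw [h1] at hv
    rw [hL, sum_filter]
    refine hv.trans (le_of_eq ?_)
    refine sum_congr rfl fun l _ => ?_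
    simp only [hW, mul_ite, mul_one, mul_zero]
  have hLm : ∀ l ∈ L, l ∈ paths (Mv s cell) k ∧ l.length = k ∧ (∀ i ∈ l, i ∈ Mv s cell) ∧
      OkL sg (Ed s cell q) l v := by
    intro l hl
    rw [hL, mem_filter] at hl
    have := (E1.mem_paths (Mv s cell) k l).1 hl.1
    exact ⟨hl.1, this.1, this.2, hl.2⟩
  -- the end points
  set en : List (ℕ × ℕ) → ℝ := fun l => v + (l.map sg).sum with hen
  have hend : ∀ l ∈ L, ∀ i, en l ∈ s.G (q i) := by
    intro l hl i
    obtain ⟨-, h2, -, h4⟩ := hLm l hl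
    refine E1.end_mem s cell q l v ?_ h4 i
    intro h
    rw [h] at h2
    simp at h2
    omega
  have hpath := fun l (hl : l ∈ L) => hP3 s t P1 P2 R g ht h0 hτ hg m q hm hq hqP β hβ cell hcell k l
    (hLm l hl).1 v (hLm l hl).2.2.2
  have hWle : ∀ l ∈ L, 0 ≤ W l ∧ W l ≤ 1 / ((N1 l : ℝ) * N2 l) := by
    intro l hl
    obtain ⟨h1, h2, h3, h4⟩ := hLm l hl
    obtain ⟨i1, i2, i3, i4, i5⟩ := hbounds l h3
    have p1 : (0 : ℝ) < N1 l := lt_of_lt_of_le (by positivity) i1
    have p2 : (0 : ℝ) < N2 l := lt_of_lt_of_le (by positivity) i3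
    have hLs : 1 ≤ Ls s.PP ^ (2 * l.length) := one_le_pow₀ hsone
    rw [hW]
    simp only
    rw [E1.prod_om]
    constructor
    · positivity
    · apply one_div_le_one_div_of_le (by positivity)
      have : (0 : ℝ) < (N1 l : ℝ) * N2 l := by positivity
      nlinarith
  -- the class of a point
  set T : ℝ → ℤ := fun u => ∑ i, s.st (u + Real.log (q i)) + ⌊u * R⌋ with hT
  have hfm : ∀ i : Fin m, Monotone fun u : ℝ => s.st (u + Real.log (q i)) := fun i a b hab =>
    hsmono (by linarith)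
  have hfl : Monotone fun u : ℝ => ⌊u * R⌋ := fun a b hab =>
    Int.floor_le_floor (mul_le_mul_of_nonneg_right hab hR.le)
  have hTm : Monotone T := by
    intro a b hab
    exact add_le_add (Finset.sum_le_sum fun i _ => hfm i hab) (hfl hab)
  have hTeq : ∀ u w : ℝ, T u = T w → (∀ i, s.al (u + Real.log (q i)) = s.al (w + Real.log (q i))) ∧
      |u - w| ≤ 1 / R := by
    have key : ∀ u w : ℝ, u ≤ w → T u = T w →
        (∀ i, s.al (u + Real.log (q i)) = s.al (w + Real.log (q i))) ∧ |u - w| ≤ 1 / R := by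
      intro u w huw he
      obtain ⟨h1, h2⟩ := E1.eq_of_sum hfm hfl huw he
      refine ⟨fun i => h0.const _ _ (h1 i), ?_⟩
      have h3 := Int.floor_le (u * R)
      have h4 := Int.lt_floor_add_one (w * R)
      rw [← h2] at h4
      rw [abs_sub_comm, abs_of_nonneg (by linarith), le_div_iff₀ hR]
      linarith
    intro u w he
    rcases le_total u w with h | h
    · exact key u w h he
    · obtain ⟨h1, h2⟩ := key w u h he.symm
      exact ⟨fun i => (h1 i).symm, by rwa [abs_sub_comm]⟩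
  -- the number of classes
  set B : ℝ := (2 * K + 1) * (m * R) + 2 * K * R + 2 with hB
  have hB0 : 0 < B := by positivity
  have hcard : ((L.image fun l => T (en l)).card : ℝ) ≤ B := by
    have h1 : (L.image fun l => T (en l)) ⊆ Finset.Icc (T (v - K)) (T (v + K)) := by
      intro c hc
      rw [mem_image] at hc
      obtain ⟨l, hl, rfl⟩ := hc
      have := (hpath l hl).1
      rw [abs_le] at this
      rw [Finset.mem_Icc]
      constructor
      · apply hTm
        simp only [hen]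
        linarith [this.1]
      · apply hTm
        simp only [hen]
        linarith [this.2]
    have h2 := Finset.card_le_card h1
    rw [Int.card_Icc] at h2
    have h3 : T (v - K) ≤ T (v + K) := hTm (by linarith)
    have h4 : (((T (v + K) + 1 - T (v - K)).toNat : ℕ) : ℤ) = T (v + K) + 1 - T (v - K) :=
      Int.toNat_of_nonneg (by linarith)
    have h5 : (((T (v + K) + 1 - T (v - K)).toNat : ℕ) : ℝ) = (T (v + K) : ℝ) + 1 - T (v - K) := by
      exact_mod_cast h4
    have h6 : ((L.image fun l => T (en l)).card : ℝ) ≤ ((T (v + K) + 1 - T (v - K)).toNat : ℕ) := by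
      exact_mod_cast h2
    refine h6.trans ?_
    rw [h5]
    have h7 : ∀ i : Fin m, (s.st (v + K + Real.log (q i)) : ℝ) ≤
        s.st (v - K + Real.log (q i)) + R * (2 * K + 1) := by
      intro i
      have := E1.grow hsmono hR.le hsgrow (v - K + Real.log (q i)) (2 * K) (by linarith)
      rwa [show v - K + Real.log (q i) + 2 * K = v + K + Real.log (q i) by ring] at this
    have h8 : (∑ i : Fin m, (s.st (v + K + Real.log (q i)) : ℝ)) ≤
        (∑ i : Fin m, (s.st (v - K + Real.log (q i)) : ℝ)) + m * (R * (2 * K + 1)) := by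
      refine (Finset.sum_le_sum fun i _ => h7 i).trans (le_of_eq ?_)
      rw [Finset.sum_add_distrib]
      simp
    have h9 : (⌊(v + K) * R⌋ : ℝ) ≤ ⌊(v - K) * R⌋ + 2 * K * R + 1 := by
      have a1 := Int.floor_le ((v + K) * R)
      have a2 := Int.lt_floor_add_one ((v - K) * R)
      nlinarith
    simp only [hT]
    push_cast
    rw [hB]
    nlinarith [h8, h9]
  -- Cauchy
  set PR : Finset (List (ℕ × ℕ) × List (ℕ × ℕ)) :=
    (L ×ˢ L).filter fun x => T (en x.1) = T (en x.2) with hPR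
  have hCS : δ ^ 2 / B ≤ ∑ x ∈ PR, W x.1 * W x.2 := by
    set IM := L.image fun l => T (en l) with hIM
    set f : ℤ → ℝ := fun c => ∑ l ∈ L.filter (fun l => T (en l) = c), W l with hf
    have h1 : ∑ c ∈ IM, f c = ∑ l ∈ L, W l :=
      Finset.sum_fiberwise_of_maps_to (fun l hl => mem_image_of_mem _ hl) _
    have h2 : (∑ c ∈ IM, f c) ^ 2 ≤ IM.card * ∑ c ∈ IM, f c ^ 2 := sq_sum_le_card_mul_sum_sq
    have h3 : ∑ c ∈ IM, f c ^ 2 = ∑ x ∈ PR, W x.1 * W x.2 := by
      have h4 : ∀ x ∈ PR, T (en x.1) ∈ IM := by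
        intro x hx
        rw [hPR, mem_filter, mem_product] at hx
        exact mem_image_of_mem _ hx.1.1
      rw [← Finset.sum_fiberwise_of_maps_to h4]
      refine sum_congr rfl fun c _ => ?_
      rw [hf]
      simp only
      rw [sq, Finset.sum_mul_sum, ← Finset.sum_product']
      refine sum_congr ?_ fun _ _ => rfl
      ext x
      simp only [hPR, mem_filter, mem_product]
      constructor
      · rintro ⟨⟨a1, a2⟩, a3, a4⟩
        exact ⟨⟨⟨a1, a3⟩, by rw [a2, a4]⟩, a2⟩
      · rintro ⟨⟨⟨a1, a3⟩, a5⟩, a2⟩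
        exact ⟨⟨a1, a2⟩, a3, by rw [← a5, a2]⟩
    rw [h1] at h2
    rw [← h3, div_le_iff₀ hB0]
    have h5 : δ ^ 2 ≤ (∑ l ∈ L, W l) ^ 2 := pow_le_pow_left₀ hδ.le hsumW 2
    have h6 : 0 ≤ ∑ c ∈ IM, f c ^ 2 := Finset.sum_nonneg fun c _ => sq_nonneg _
    calc δ ^ 2 ≤ IM.card * ∑ c ∈ IM, f c ^ 2 := h5.trans h2
      _ ≤ B * ∑ c ∈ IM, f c ^ 2 := mul_le_mul_of_nonneg_right hcard h6
      _ = _ := mul_comm _ _
  -- the pairs
  set nn : List (ℕ × ℕ) × List (ℕ × ℕ) → ℕ × ℕ := fun x => (N1 x.1 * N2 x.2, N1 x.2 * N2 x.1)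
    with hnn
  have hPRm : ∀ x ∈ PR, x.1 ∈ L ∧ x.2 ∈ L ∧ T (en x.1) = T (en x.2) := by
    intro x hx
    rw [hPR, mem_filter, mem_product] at hx
    exact ⟨hx.1.1, hx.1.2, hx.2⟩
  refine ⟨PR.image nn, ?_, ?_⟩
  · intro x hx
    rw [mem_image] at hx
    obtain ⟨⟨l, l'⟩, hll, rfl⟩ := hx
    obtain ⟨hl, hl', hTT⟩ := hPRm _ hll
    simp only at hl hl' hTT
    obtain ⟨a1, a2, a3, a4⟩ := hLm l hl
    obtain ⟨b1, b2, b3, b4⟩ := hLm l' hl'
    obtain ⟨c1, c2, c3, c4, c5⟩ := hbounds l a3
    obtain ⟨d1, d2, d3, d4, d5⟩ := hbounds l' b3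
    rw [a2] at c1 c2 c3 c4 c5
    rw [b2] at d1 d2 d3 d4 d5
    obtain ⟨e1, e2⟩ := hTeq _ _ hTT
    obtain ⟨f1, f2, j1, f3⟩ := hpath l hl
    obtain ⟨g1, g2, j2, g3⟩ := hpath l' hl'
    obtain ⟨j3, h3⟩ := hP2 s t P1 P2 R ht h0 hτ m q hm hq hqP β hβ _ _ (hend l hl) (hend l' hl') e1
    have p1 : (0 : ℝ) < N1 l := lt_of_lt_of_le (by positivity) c1
    have p2 : (0 : ℝ) < N2 l := lt_of_lt_of_le (by positivity) c3
    have p3 : (0 : ℝ) < N1 l' := lt_of_lt_of_le (by positivity) d1
    have p4 : (0 : ℝ) < N2 l' := lt_of_lt_of_le (by positivity) d3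
    refine ⟨?_, ?_, ?_, ?_, ?_, ?_, ?_⟩
    · intro r hr hdvd
      have hprod : ∀ (l : List (ℕ × ℕ)), (∀ i ∈ l, i ∈ Mv s cell) → r ∣ N1 l ∨ r ∣ N2 l →
          P1 ≤ r := by
        intro l hl h
        have hMv : ∀ i ∈ l, i.1 ∈ s.PP ∧ i.2 ∈ s.PP := by
          intro i hi
          have := hl i hi
          rw [Mv, mem_filter, mem_product] at this
          exact this.1
        rcases h with h | h
        · rw [N1, hr.prime.dvd_prod_iff] at h
          obtain ⟨a, ha, hra⟩ := h
          rw [List.mem_map] at ha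
          obtain ⟨i, hi, rfl⟩ := ha
          have h1 := (hMv i hi).1
          have h2 := (Nat.prime_dvd_prime_iff_eq hr (hsprime _ h1)).1 hra
          rw [h2]
          exact hsge _ h1
        · rw [N2, hr.prime.dvd_prod_iff] at h
          obtain ⟨a, ha, hra⟩ := h
          rw [List.mem_map] at ha
          obtain ⟨i, hi, rfl⟩ := ha
          have h1 := (hMv i hi).2
          have h2 := (Nat.prime_dvd_prime_iff_eq hr (hsprime _ h1)).1 hra
          rw [h2]
          exact hsge _ h1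
      simp only [hnn] at hdvd
      rw [hr.dvd_mul, hr.dvd_mul, hr.dvd_mul] at hdvd
      rcases hdvd with (h | h) | (h | h)
      · exact hprod l a3 (Or.inl h)
      · exact hprod l' b3 (Or.inr h)
      · exact hprod l' b3 (Or.inl h)
      · exact hprod l a3 (Or.inr h)
    · simp only [hnn]
      push_cast
      rw [two_mul, pow_add]
      exact mul_le_mul c1 d3 (by positivity) p1.le
    · simp only [hnn]
      push_cast
      rw [two_mul, pow_add]
      exact mul_le_mul c2 d4 p4.le (p1.le.trans c2)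
    · simp only [hnn]
      push_cast
      rw [two_mul, pow_add]
      exact mul_le_mul d1 c3 (by positivity) p3.le
    · simp only [hnn]
      push_cast
      rw [two_mul, pow_add]
      exact mul_le_mul d2 c4 p2.le (p3.le.trans d2)
    · simp only [hnn]
      push_cast
      rw [Real.log_mul p1.ne' p4.ne', Real.log_mul p3.ne' p2.ne']
      have : Real.log (N1 l) + Real.log (N2 l') - (Real.log (N1 l') + Real.log (N2 l)) =
          en l - en l' := by
        simp only [hen]
        rw [f2, g2]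
        ring
      rw [this]
      exact e2
    · simp only [hnn]
      push_cast
      have hP12 : P1 ≤ P2 := by
        have i0 : Fin m := ⟨0, hm⟩
        exact (hsge _ (hqP i0)).trans (hsle _ (hqP i0))
      have hP12t : P1 ^ t ≤ P2 ^ t := pow_le_pow_left₀ hP1.le hP12 t
      have hP1t : 0 < P1 ^ t := by positivity
      have hgk : 1 ≤ g ^ (t * k) := one_le_pow₀ hg
      have hk1 : (1 : ℝ) ≤ k := by exact_mod_cast hk
      have hτ0 := h0.tau0
      have hE4 : 4 * g ^ (t * k) * s.tau ≤ E2 := by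
        rw [hE2, le_div_iff₀ hP1t]
        have : 4 * g ^ (t * k) * s.tau * P1 ^ t ≤ 4 * g ^ (t * k) * s.tau * P2 ^ t :=
          mul_le_mul_of_nonneg_left hP12t (by positivity)
        have h2 : 0 ≤ 4 * g ^ (t * k) * s.tau * P2 ^ t := by
          have : 0 < P2 ^ t := by linarith
          positivity
        nlinarith
      rw [mul_pow, mul_pow]
      have q1 : (0 : ℝ) < (N1 l : ℝ) ^ t := by positivity
      have q2 : (0 : ℝ) < (N2 l : ℝ) ^ t := by positivity
      have q3 : (0 : ℝ) < (N1 l' : ℝ) ^ t := by positivity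
      have q4 : (0 : ℝ) < (N2 l' : ℝ) ^ t := by positivity
      have d6 : (N1 l' : ℝ) ^ t ≤ g ^ (t * k) * (N2 l' : ℝ) ^ t := by
        refine (pow_le_pow_left₀ p3.le d5 t).trans (le_of_eq ?_)
        rw [mul_pow, ← pow_mul, mul_comm k t]
      refine ⟨(N1 l' : ℤ) ^ t * j1 - (N1 l : ℤ) ^ t * j2 - (N1 l : ℤ) ^ t * (N1 l' : ℤ) ^ t * j3, ?_⟩
      have hid : ((N1 l : ℝ) ^ t * (N2 l' : ℝ) ^ t - (N1 l' : ℝ) ^ t * (N2 l : ℝ) ^ t) * β v -
          (((N1 l' : ℤ) ^ t * j1 - (N1 l : ℤ) ^ t * j2 -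
            (N1 l : ℤ) ^ t * (N1 l' : ℤ) ^ t * j3 : ℤ) : ℝ) * M =
          (N1 l' : ℝ) ^ t * ((N1 l : ℝ) ^ t * β (en l) - (N2 l : ℝ) ^ t * β v - j1 * M) -
          (N1 l : ℝ) ^ t * ((N1 l' : ℝ) ^ t * β (en l') - (N2 l' : ℝ) ^ t * β v - j2 * M) -
          (N1 l : ℝ) ^ t * (N1 l' : ℝ) ^ t * (β (en l) - β (en l') - j3 * M) := by
        push_cast
        ring
      rw [hid]
      have t1 : |(N1 l' : ℝ) ^ t * ((N1 l : ℝ) ^ t * β (en l) - (N2 l : ℝ) ^ t * β v - j1 * M)| ≤
          (N1 l' : ℝ) ^ t * ((N2 l : ℝ) ^ t * E2) := by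
        rw [abs_mul, abs_of_pos q3]
        exact mul_le_mul_of_nonneg_left f3 q3.le
      have t2 : |(N1 l : ℝ) ^ t *
          ((N1 l' : ℝ) ^ t * β (en l') - (N2 l' : ℝ) ^ t * β v - j2 * M)| ≤
          (N1 l : ℝ) ^ t * ((N2 l' : ℝ) ^ t * E2) := by
        rw [abs_mul, abs_of_pos q1]
        exact mul_le_mul_of_nonneg_left g3 q1.le
      have t3 : |(N1 l : ℝ) ^ t * (N1 l' : ℝ) ^ t * (β (en l) - β (en l') - j3 * M)| ≤
          (N1 l : ℝ) ^ t * (N1 l' : ℝ) ^ t * (2 * s.tau) := by
        rw [abs_mul, abs_of_pos (mul_pos q1 q3)]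
        exact mul_le_mul_of_nonneg_left h3 (mul_pos q1 q3).le
      have t4 : (N1 l : ℝ) ^ t * (N1 l' : ℝ) ^ t * (2 * s.tau) ≤
          (N1 l : ℝ) ^ t * (N2 l' : ℝ) ^ t * E2 := by
        have u1 : (N1 l : ℝ) ^ t * (N1 l' : ℝ) ^ t ≤
            (N1 l : ℝ) ^ t * (g ^ (t * k) * (N2 l' : ℝ) ^ t) :=
          mul_le_mul_of_nonneg_left d6 q1.le
        have u2 : (N1 l : ℝ) ^ t * (N1 l' : ℝ) ^ t * (2 * s.tau) ≤
            (N1 l : ℝ) ^ t * (g ^ (t * k) * (N2 l' : ℝ) ^ t) * (2 * s.tau) :=
          mul_le_mul_of_nonneg_right u1 (by linarith)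
        have u3 : (N1 l : ℝ) ^ t * (N2 l' : ℝ) ^ t * (2 * g ^ (t * k) * s.tau) ≤
            (N1 l : ℝ) ^ t * (N2 l' : ℝ) ^ t * E2 := by
          apply mul_le_mul_of_nonneg_left _ (by positivity)
          have : 0 ≤ g ^ (t * k) * s.tau := by positivity
          linarith
        linarith
      have hE20 : 0 ≤ E2 := by
        have : 0 ≤ 4 * g ^ (t * k) * s.tau := by positivity
        linarith
      have t5 : 0 ≤ (N1 l' : ℝ) ^ t * (N2 l : ℝ) ^ t * E2 := by positivity
      calc _ ≤ |(N1 l' : ℝ) ^ t * ((N1 l : ℝ) ^ t * β (en l) - (N2 l : ℝ) ^ t * β v - j1 * M)| +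
            |(N1 l : ℝ) ^ t * ((N1 l' : ℝ) ^ t * β (en l') - (N2 l' : ℝ) ^ t * β v - j2 * M)| +
            |(N1 l : ℝ) ^ t * (N1 l' : ℝ) ^ t * (β (en l) - β (en l') - j3 * M)| := by
              refine (abs_sub _ _).trans ?_
              exact add_le_add (abs_sub _ _) le_rfl
        _ ≤ _ := by nlinarith
  · -- the sum
    have hfac : (0 : ℝ) < ((2 * k).factorial : ℝ) ^ 2 := by positivity
    rw [← div_div, div_le_iff₀ hfac]
    refine hCS.trans ?_
    have h1 : ∑ x ∈ PR, W x.1 * W x.2 ≤ ∑ x ∈ PR, 1 / (((nn x).1 : ℝ) * (nn x).2) := by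
      refine Finset.sum_le_sum fun x hx => ?_
      obtain ⟨hl, hl', -⟩ := hPRm x hx
      obtain ⟨w1, w2⟩ := hWle _ hl
      obtain ⟨w3, w4⟩ := hWle _ hl'
      refine (mul_le_mul w2 w4 w3 (w1.trans w2)).trans (le_of_eq ?_)
      simp only [hnn]
      push_cast
      rw [div_mul_div_comm]
      congr 1 <;> ring
    refine h1.trans ?_
    rw [← Finset.sum_fiberwise_of_maps_to (t := PR.image nn) (g := nn)
      (fun x hx => mem_image_of_mem _ hx), Finset.sum_mul]
    refine Finset.sum_le_sum fun y hy => ?_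
    have h2 : ∑ x ∈ PR.filter (fun x => nn x = y), 1 / (((nn x).1 : ℝ) * (nn x).2) =
        (PR.filter fun x => nn x = y).card * (1 / ((y.1 : ℝ) * y.2)) := by
      rw [Finset.sum_congr rfl (g := fun _ => 1 / ((y.1 : ℝ) * y.2)), Finset.sum_const, nsmul_eq_mul]
      intro x hx
      rw [mem_filter] at hx
      rw [hx.2]
    rw [h2, mul_comm]
    refine mul_le_mul_of_nonneg_left ?_ (by positivity)
    -- the fibres
    set F := PR.filter fun x => nn x = y with hF
    set φ : List (ℕ × ℕ) × List (ℕ × ℕ) → List ℕ × List ℕ := fun x =>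
      (x.1.map Prod.fst ++ x.2.map Prod.snd, x.2.map Prod.fst ++ x.1.map Prod.snd) with hφ
    have hFm : ∀ x ∈ F, x.1 ∈ L ∧ x.2 ∈ L ∧ nn x = y := by
      intro x hx
      rw [hF, mem_filter] at hx
      exact ⟨(hPRm x hx.1).1, (hPRm x hx.1).2.1, hx.2⟩
    have hinj : Set.InjOn φ (F : Set _) := by
      intro x hx x' hx' h
      obtain ⟨a1, a2, -⟩ := hFm x hx
      obtain ⟨b1, b2, -⟩ := hFm x' hx'
      simp only [hφ, Prod.mk.injEq] at h
      have l1 := (hLm _ a1).2.1
      have l2 := (hLm _ a2).2.1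
      have l3 := (hLm _ b1).2.1
      have l4 := (hLm _ b2).2.1
      have e1 := List.append_inj h.1 (by simp [l1, l3])
      have e2 := List.append_inj h.2 (by simp [l2, l4])
      exact Prod.ext (E1.list_ext _ _ e1.1 e2.2) (E1.list_ext _ _ e2.1 e1.2)
    have hprime : ∀ l ∈ L, (∀ p ∈ l.map Prod.fst, Nat.Prime p) ∧ ∀ p ∈ l.map Prod.snd, Nat.Prime p := by
      intro l hl
      have h3 := (hLm l hl).2.2.1
      constructor
      · intro p hp
        rw [List.mem_map] at hp
        obtain ⟨i, hi, rfl⟩ := hp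
        have := h3 i hi
        rw [Mv, mem_filter, mem_product] at this
        exact hsprime _ this.1.1
      · intro p hp
        rw [List.mem_map] at hp
        obtain ⟨i, hi, rfl⟩ := hp
        have := h3 i hi
        rw [Mv, mem_filter, mem_product] at this
        exact hsprime _ this.1.2
    rcases F.eq_empty_or_nonempty with hFe | ⟨x0, hx0⟩
    · rw [hFe]
      simp
    have hperm : ∀ x ∈ F, (φ x).1.Perm y.1.primeFactorsList ∧ (φ x).2.Perm y.2.primeFactorsList ∧
        (φ x).1.length = 2 * k ∧ (φ x).2.length = 2 * k := by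
      intro x hx
      obtain ⟨a1, a2, a3⟩ := hFm x hx
      have l1 := (hLm _ a1).2.1
      have l2 := (hLm _ a2).2.1
      have q1 := hprime _ a1
      have q2 := hprime _ a2
      refine ⟨?_, ?_, ?_, ?_⟩
      · apply Nat.primeFactorsList_unique
        · simp only [hφ]
          rw [List.prod_append, ← a3]
          rfl
        · intro p hp
          simp only [hφ] at hp
          rw [List.mem_append] at hp
          exact hp.elim (q1.1 p) (q2.2 p)
      · apply Nat.primeFactorsList_unique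
        · simp only [hφ]
          rw [List.prod_append, ← a3]
          rfl
        · intro p hp
          simp only [hφ] at hp
          rw [List.mem_append] at hp
          exact hp.elim (q2.1 p) (q1.2 p)
      · simp [hφ, l1, l2]
        omega
      · simp [hφ, l1, l2]
        omega
    have hsub : F.image φ ⊆ (y.1.primeFactorsList.permutations.toFinset) ×ˢ
        (y.2.primeFactorsList.permutations.toFinset) := by
      intro z hz
      rw [mem_image] at hz
      obtain ⟨x, hx, rfl⟩ := hz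
      rw [mem_product, List.mem_toFinset, List.mem_toFinset, List.mem_permutations,
        List.mem_permutations]
      exact ⟨(hperm x hx).1, (hperm x hx).2.1⟩
    have h3 := Finset.card_le_card hsub
    rw [Finset.card_image_of_injOn hinj, card_product] at h3
    have h4 : y.1.primeFactorsList.length = 2 * k := by
      rw [← (hperm x0 hx0).1.length_eq, (hperm x0 hx0).2.2.1]
    have h5 : y.2.primeFactorsList.length = 2 * k := by
      rw [← (hperm x0 hx0).2.1.length_eq, (hperm x0 hx0).2.2.2]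
    have h6 : (y.1.primeFactorsList.permutations.toFinset).card ≤ (2 * k).factorial := by
      refine (List.toFinset_card_le _).trans ?_
      rw [List.length_permutations, h4]
    have h7 : (y.2.primeFactorsList.permutations.toFinset).card ≤ (2 * k).factorial := by
      refine (List.toFinset_card_le _).trans ?_
      rw [List.length_permutations, h5]
    have h8 : F.card ≤ (2 * k).factorial ^ 2 := by
      rw [sq]
      exact h3.trans (Nat.mul_le_mul h6 h7)
    exact_mod_cast h8

end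

end Pool.Agent.VQ
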