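import Mathlib
import Pool.Agent.Lib.VQ.Defs

/-!
# Row NRT of Theorem VQ (helper55)

The number of the solutions of `r ^ t ≡ a` modulo `q`: a Vandermonde determinant.
-/

set_option autoImplicit false
open Finset

namespace Pool.Agent.VQ

/-- The Vandermonde determinant of `t + 1` roots of `x ^ t = a` is zero. -/
theorem nrt_det {R : Type*} [CommRing R] {t : ℕ} (ht : 1 ≤ t) (a : R) (v : Fin (t + 1) → R)
    (hv : ∀ i, v i ^ t = a) : (Matrix.vandermonde v).det = 0 := by
  have h0 : (0 : Fin (t + 1)) ≠ Fin.last t := by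
    intro h
    have := congrArg Fin.val h
    simp at this
    omega
  have h1 : Matrix.vandermonde v =
      (Matrix.vandermonde v).updateCol (Fin.last t) (a • fun _ => (1 : R)) := by
    ext i j
    rw [Matrix.updateCol_apply]
    split_ifs with h
    · subst h
      simp [Matrix.vandermonde_apply, hv]
    · rfl
  rw [h1, Matrix.det_updateCol_smul]
  rw [Matrix.det_zero_of_column_eq h0 _, mul_zero]
  intro k
  rw [Matrix.updateCol_apply, Matrix.updateCol_apply, if_neg h0, if_pos rfl]
  simp [Matrix.vandermonde_apply]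

/-- Few roots in a short interval. -/
theorem nrt_fibre {t q a m j : ℕ} (ht : 1 ≤ t) (hm : 1 ≤ m)
    (hq : (m - 1) ^ (t * (t + 1) / 2) < q)
    (S : Finset ℕ) (hS : ∀ r ∈ S, r ^ t ≡ a [MOD q] ∧ r / m = j) : #S ≤ t := by
  by_contra hcon
  rw [not_le] at hcon
  let f : Fin (t + 1) ↪o ℕ := S.orderEmbOfCardLe hcon
  have hf : ∀ i, f i ∈ S := fun i => S.orderEmbOfCardLe_mem hcon i
  have hdet : (Matrix.vandermonde (fun i => ((f i : ℕ) : ZMod q))).det = 0 := by
    apply nrt_det ht (a : ZMod q)
    intro i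
    have := (ZMod.natCast_eq_natCast_iff _ _ _).mpr (hS _ (hf i)).1
    rw [← Nat.cast_pow]
    exact this
  rw [Matrix.det_vandermonde] at hdet
  have hlt : ∀ i : Fin (t + 1), ∀ k ∈ Ioi i, f i < f k := fun i k hk => by
    exact f.strictMono (mem_Ioi.mp hk)
  have hdvd : q ∣ ∏ i : Fin (t + 1), ∏ k ∈ Ioi i, (f k - f i) := by
    rw [← ZMod.natCast_eq_zero_iff, ← hdet]
    push_cast
    refine Finset.prod_congr rfl fun i _ => Finset.prod_congr rfl fun k hk => ?_
    rw [Nat.cast_sub (hlt i k hk).le]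
  have hpos : 0 < ∏ i : Fin (t + 1), ∏ k ∈ Ioi i, (f k - f i) :=
    Finset.prod_pos fun i _ => Finset.prod_pos fun k hk => Nat.sub_pos_of_lt (hlt i k hk)
  have hle := Nat.le_of_dvd hpos hdvd
  have hup : ∏ i : Fin (t + 1), ∏ k ∈ Ioi i, (f k - f i) ≤ (m - 1) ^ (t * (t + 1) / 2) := by
    calc ∏ i : Fin (t + 1), ∏ k ∈ Ioi i, (f k - f i)
        ≤ ∏ i : Fin (t + 1), ∏ k ∈ Ioi i, (m - 1) := by
          apply Finset.prod_le_prod' fun i _ => Finset.prod_le_prod' fun k hk => ?_
          have h1 := (hS _ (hf k)).2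
          have h2 := (hS _ (hf i)).2
          have h3 := Nat.div_add_mod (f k) m
          have h4 := Nat.div_add_mod (f i) m
          have h5 := Nat.mod_lt (f k) hm
          rw [h1] at h3
          rw [h2] at h4
          omega
      _ = (m - 1) ^ (t * (t + 1) / 2) := by
          simp only [Finset.prod_const]
          rw [Finset.prod_pow_eq_pow_sum]
          congr 1
          simp only [Fin.card_Ioi]
          rw [Fin.sum_univ_eq_sum_range (fun i => t + 1 - 1 - i) (t + 1)]
          rw [Finset.sum_range_reflect (fun i => i) (t + 1), Finset.sum_range_id, mul_comm]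
          simp
  omega

open Classical in
theorem nrt : NRT_stmt := by
  intro t ht
  refine ⟨3 * t, by positivity, fun q a hq => ?_⟩
  have hq0 : (0 : ℝ) < q := by exact_mod_cast hq
  have hq1 : (1 : ℝ) ≤ q := by exact_mod_cast hq
  have htR : (1 : ℝ) ≤ t := by exact_mod_cast ht
  have hT : (0 : ℝ) < (t : ℝ) * (t + 1) := by positivity
  set lam : ℝ := (q : ℝ) ^ (2 / ((t : ℝ) * (t + 1))) with hlam
  have hlam1 : 1 ≤ lam := Real.one_le_rpow hq1 (by positivity)
  have hlampos : 0 < lam := by linarith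
  set m : ℕ := ⌊lam⌋₊ with hmdef
  have hm : 1 ≤ m := Nat.le_floor (by exact_mod_cast hlam1)
  have hmle : (m : ℝ) ≤ lam := Nat.floor_le hlampos.le
  have hmge : lam < (m : ℝ) + 1 := Nat.lt_floor_add_one _
  -- the product of the differences is too small
  have heven : ((t * (t + 1) / 2 : ℕ) : ℝ) = (t : ℝ) * (t + 1) / 2 := by
    have h2 : 2 ∣ t * (t + 1) := (Nat.even_mul_succ_self t).two_dvd
    rw [Nat.cast_div h2 (by norm_num)]
    push_cast
    ring
  have hpow : (m - 1) ^ (t * (t + 1) / 2) < q := by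
    have h1 : ((m - 1 : ℕ) : ℝ) < lam := by
      rw [Nat.cast_sub hm]
      push_cast
      linarith
    have h3 : t * (t + 1) / 2 ≠ 0 := by
      have : 2 ≤ t * (t + 1) := by nlinarith
      omega
    have h2 : ((m - 1 : ℕ) : ℝ) ^ (t * (t + 1) / 2) < lam ^ (t * (t + 1) / 2) :=
      pow_lt_pow_left₀ h1 (by positivity) h3
    have h4 : lam ^ (t * (t + 1) / 2) = q := by
      rw [hlam, ← Real.rpow_natCast, ← Real.rpow_mul hq0.le, heven]
      rw [show 2 / ((t : ℝ) * (t + 1)) * ((t : ℝ) * (t + 1) / 2) = 1 by field_simp]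
      rw [Real.rpow_one]
    rw [h4] at h2
    exact_mod_cast h2
  have hcount : #((range q).filter fun r : ℕ => r ^ t ≡ a [MOD q]) ≤ t * (q / m + 1) := by
    have hmap : ∀ r ∈ ((range q).filter fun r : ℕ => r ^ t ≡ a [MOD q]),
        r / m ∈ range (q / m + 1) := by
      intro r hr
      rw [mem_filter, mem_range] at hr
      rw [mem_range, Nat.lt_succ_iff]
      exact Nat.div_le_div_right hr.1.le
    have := Finset.card_le_mul_card_image_of_maps_to hmap t (fun j _ => by
      apply nrt_fibre (j := j) ht hm hpow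
      intro r hr
      rw [mem_filter, mem_filter] at hr
      exact ⟨hr.1.2, hr.2⟩)
    rwa [card_range] at this
  have hcR : (#((range q).filter fun r : ℕ => r ^ t ≡ a [MOD q]) : ℝ) ≤ t * (q / m + 1) := by
    calc (#((range q).filter fun r : ℕ => r ^ t ≡ a [MOD q]) : ℝ)
        ≤ ((t * (q / m + 1) : ℕ) : ℝ) := by exact_mod_cast hcount
      _ ≤ t * (q / m + 1) := by
          push_cast
          have := @Nat.cast_div_le ℝ _ _ _ q m
          nlinarith
  have hqlam : (q : ℝ) ^ (1 - 2 / ((t : ℝ) * (t + 1))) = q / lam := by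
    rw [Real.rpow_sub hq0, Real.rpow_one]
  rw [hqlam]
  have hlamq : lam ≤ q := by
    calc lam ≤ (q : ℝ) ^ (1 : ℝ) := by
          apply Real.rpow_le_rpow_of_exponent_le hq1
          rw [div_le_one hT]
          nlinarith
      _ = q := Real.rpow_one _
  have hone : 1 ≤ q / lam := by rw [le_div_iff₀ hlampos]; linarith
  have hmpos : (0 : ℝ) < m := by exact_mod_cast hm
  have hqm : (q : ℝ) / m ≤ 2 * (q / lam) := by
    rw [div_le_iff₀ hmpos]
    have : lam ≤ 2 * m := by
      have : (1 : ℝ) ≤ m := by exact_mod_cast hm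
      linarith
    calc (q : ℝ) = q / lam * lam := by field_simp
      _ ≤ q / lam * (2 * m) := mul_le_mul_of_nonneg_left this (by positivity)
      _ = 2 * (q / lam) * m := by ring
  calc (#((range q).filter fun r : ℕ => r ^ t ≡ a [MOD q]) : ℝ) ≤ t * (q / m + 1) := hcR
    _ ≤ t * (2 * (q / lam) + q / lam) := by
        apply mul_le_mul_of_nonneg_left _ (by positivity)
        linarith
    _ = 3 * t * (q / lam) := by ring

end Pool.Agent.VQ
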