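import Pool.Agent.Lib.VQ.Defs

/-!
# Theorem VQ (MP_663568_nt), row NTB: the denominator is bounded (helper40)
-/

set_option autoImplicit false
open Finset MeasureTheory Polynomial

namespace Pool.Agent.VQ

open Pool.Agent.Lib.MP_663568_nt Pool.Agent.Lib.MP_663568_nt.Katai
  Pool.Agent.Lib.MP_663568_nt.Nul Pool.Agent.SV

namespace NTBx

lemma large (κ E : ℝ) (hκ : 0 < κ) : ∃ H₀ : ℝ, 4 ≤ H₀ ∧ ∀ H : ℝ, H₀ ≤ H →
    2 ≤ H ^ κ ∧ (Real.log H) ^ E ≤ H ^ (1 / 2 : ℝ) := by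
  have h1 : ∀ᶠ H : ℝ in Filter.atTop, 2 ≤ H ^ κ :=
    (tendsto_rpow_atTop hκ).eventually_ge_atTop 2
  have h2 := (isLittleO_log_rpow_rpow_atTop E (show (0 : ℝ) < 1 / 2 by norm_num)).bound
    (show (0 : ℝ) < 1 by norm_num)
  obtain ⟨H1, hH⟩ := Filter.eventually_atTop.1 (h1.and h2)
  refine ⟨max 4 H1, le_max_left _ _, fun H hH' => ?_⟩
  obtain ⟨a, b⟩ := hH H ((le_max_right _ _).trans hH')
  have hH4 : 4 ≤ H := (le_max_left _ _).trans hH'
  refine ⟨a, ?_⟩
  rw [one_mul, Real.norm_of_nonneg (Real.rpow_nonneg (Real.log_nonneg (by linarith)) _),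
    Real.norm_of_nonneg (Real.rpow_nonneg (by linarith) _)] at b
  exact b

/-- The `x₁` close to a given `x₂`. -/
lemma near {a b : ℕ} {R : ℝ} (hR : 1 ≤ R) (ha : 1 ≤ a) (hb : 1 ≤ b)
    (h : |Real.log a - Real.log b| ≤ 1 / R) :
    (b : ℝ) * Real.exp (-(1 / R)) ≤ a ∧ (a : ℝ) ≤ b * Real.exp (-(1 / R)) + 3 * b / R := by
  have hR0 : 0 < R := by linarith
  have ha0 : (0 : ℝ) < a := by exact_mod_cast ha
  have hb0 : (0 : ℝ) < b := by exact_mod_cast hb
  rw [abs_le] at h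
  have e1 : (b : ℝ) * Real.exp (-(1 / R)) = Real.exp (Real.log b + -(1 / R)) := by
    rw [Real.exp_add, Real.exp_log hb0]
  have e2 : (a : ℝ) ≤ b * Real.exp (1 / R) := by
    have : (b : ℝ) * Real.exp (1 / R) = Real.exp (Real.log b + 1 / R) := by
      rw [Real.exp_add, Real.exp_log hb0]
    rw [this, ← Real.log_le_iff_le_exp ha0]
    linarith
  constructor
  · rw [e1, ← Real.le_log_iff_exp_le ha0]
    linarith
  · have hu1 : 1 / R ≤ 1 := by rw [div_le_one hR0]; exact hR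
    have hu0 : 0 ≤ 1 / R := by positivity
    have h3 : Real.exp (1 / R) ≤ 1 + 2 * (1 / R) := by
      have h4 := Real.abs_exp_sub_one_le (x := 1 / R) (by rw [abs_of_nonneg hu0]; exact hu1)
      rw [abs_of_nonneg hu0] at h4
      linarith [le_abs_self (Real.exp (1 / R) - 1)]
    have h5 : 1 - 1 / R ≤ Real.exp (-(1 / R)) := by
      have := Real.add_one_le_exp (-(1 / R))
      linarith
    have h6 : Real.exp (1 / R) ≤ Real.exp (-(1 / R)) + 3 * (1 / R) := by linarith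
    calc (a : ℝ) ≤ b * Real.exp (1 / R) := e2
      _ ≤ b * (Real.exp (-(1 / R)) + 3 * (1 / R)) := mul_le_mul_of_nonneg_left h6 hb0.le
      _ = _ := by ring

end NTBx

theorem ntb : NTB_stmt := by
  classical
  rintro ⟨C, hC, hSV⟩ ⟨E1, hE1, hSVQ⟩ hNRT hPHQ t k κ A c E ht hk hκ hκ2 hc hA hAk hE
  obtain ⟨E2, hE2, hN⟩ := hNRT t ht
  obtain ⟨η, hη⟩ : ∃ η : ℝ, η = 1 / ((t : ℝ) * (t + 1)) := ⟨_, rfl⟩
  have ht1 : (1 : ℝ) ≤ t := by exact_mod_cast ht
  have hη0 : 0 < η := by rw [hη]; positivity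
  have hη2 : 2 / ((t : ℝ) * (t + 1)) = η + η := by rw [hη]; ring
  obtain ⟨E3, hE3, hP⟩ := hPHQ η hη0
  obtain ⟨H₀, hH4, hlarge⟩ := NTBx.large κ E hκ
  obtain ⟨D, hD⟩ : ∃ D : ℝ, D = 2 * C * (7 * E1 * E2 * E3) / (c * κ ^ 2) := ⟨_, rfl⟩
  have hD0 : 0 < D := by rw [hD]; positivity
  refine ⟨⌈D ^ (1 / η)⌉₊ + 1, H₀, by omega, fun H hH R Y q N' hR hRA hq hqE hY hN' hcard => ?_⟩
  obtain ⟨hPk, hlogE⟩ := hlarge H hH
  have hH4' : 4 ≤ H := hH4.trans hH
  have hH0 : 0 < H := by linarith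
  have hL : 0 < Real.log H := Real.log_pos (by linarith)
  have hR0 : 0 < R := by linarith
  have hY0 : 0 < Y := by linarith
  have hq0 : (0 : ℝ) < q := by exact_mod_cast hq
  have hpos : 0 < c * Y ^ 2 / (R * (Real.log H) ^ 2) := by positivity
  have hne : N'.Nonempty := by
    rw [nonempty_iff_ne_empty]
    rintro rfl
    rw [card_empty, Nat.cast_zero] at hcard
    linarith
  obtain ⟨x₀, hx₀⟩ := hne
  have hkk : H * H ^ A ≤ (H ^ κ) ^ (2 * k) := by
    have e1 : H ^ (A + 1) ≤ (H ^ κ) ^ (2 * k) := by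
      rw [← Real.rpow_natCast, ← Real.rpow_mul hH0.le]
      apply Real.rpow_le_rpow_of_exponent_le (by linarith)
      push_cast
      linarith
    rwa [Real.rpow_add hH0, Real.rpow_one, mul_comm] at e1
  have hHA : 1 ≤ H ^ A := Real.one_le_rpow (by linarith) hA
  have hHA0 : 0 < H ^ A := by linarith
  have hYH : H * H ^ A / 2 ≤ Y := by
    obtain ⟨-, b1, -, -, -, b2, -⟩ := hN' x₀ hx₀
    linarith
  have hHH : H ≤ H * H ^ A := le_mul_of_one_le_right hH0.le hHA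
  obtain ⟨P, hPd⟩ : ∃ P : ℝ, P = H ^ κ := ⟨_, rfl⟩
  have hP2 : 2 ≤ P := by rw [hPd]; exact hPk
  have hPs : P ≤ H ^ (1 / 2 : ℝ) := by
    rw [hPd]
    exact Real.rpow_le_rpow_of_exponent_le (by linarith) hκ2
  have hss : H ^ (1 / 2 : ℝ) * H ^ (1 / 2 : ℝ) = H := by
    rw [← Real.rpow_add hH0]; norm_num
  have hs2 : 2 ≤ H ^ (1 / 2 : ℝ) := by
    by_contra hcon
    push Not at hcon
    have h0 : 0 ≤ H ^ (1 / 2 : ℝ) := Real.rpow_nonneg hH0.le _
    nlinarith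
  have hPY : P ≤ Y + 1 := by nlinarith
  have hlogP : Real.log P = κ * Real.log H := by rw [hPd, Real.log_rpow hH0]
  have hlogP0 : 0 < Real.log P := by rw [hlogP]; positivity
  rw [← hPd] at hkk
  -- `Y / R` is large
  have hYR : H / 2 ≤ Y / R := by
    rw [le_div_iff₀ hR0]
    calc H / 2 * R ≤ H / 2 * H ^ A := mul_le_mul_of_nonneg_left hRA (by positivity)
      _ = H * H ^ A / 2 := by ring
      _ ≤ Y := hYH
  have hqP : (q : ℝ) * P ≤ 7 * Y / R := by
    have h1 : (q : ℝ) * P ≤ H ^ (1 / 2 : ℝ) * H ^ (1 / 2 : ℝ) :=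
      mul_le_mul (hqE.trans hlogE) hPs (by linarith) (Real.rpow_nonneg hH0.le _)
    rw [hss] at h1
    have h2 : 7 * Y / R = 7 * (Y / R) := by ring
    rw [h2]
    linarith
  -- the second coordinates
  have hX2 := hSV P (Y - 1) (Y + 1) hP2 (by linarith) hPY
  set X2 : Finset ℕ := (Ioc ⌊Y - 1⌋₊ ⌊Y - 1 + (Y + 1)⌋₊).filter
    fun n : ℕ => ∀ r : ℕ, r.Prime → r ∣ n → P ≤ r with hX2d
  have hmaps : ∀ x ∈ N', x.2 ∈ X2 := by
    intro x hx
    obtain ⟨b0, b1, -, -, b4, b5, -⟩ := hN' x hx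
    rw [hX2d, mem_filter, mem_Ioc]
    refine ⟨⟨?_, ?_⟩, fun r hr hrx => ?_⟩
    · rw [Nat.floor_lt (by linarith)]; linarith
    · apply Nat.le_floor; linarith
    · rw [hPd]; exact b0 r hr (hrx.trans (Dvd.intro_left _ rfl))
  obtain ⟨F, hF⟩ : ∃ F : ℝ, F = (E2 * (q : ℝ) ^ (1 - 2 / ((t : ℝ) * (t + 1)))) *
      (E1 * (7 * Y / R) / ((Nat.totient q : ℝ) * Real.log P)) := ⟨_, rfl⟩
  have hφ : (0 : ℝ) < (Nat.totient q : ℝ) := by exact_mod_cast Nat.totient_pos.2 hq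
  have hF0 : 0 ≤ F := by rw [hF]; positivity
  have hfib : ∀ b ∈ X2, ((N'.filter fun x => x.2 = b).card : ℝ) ≤ F := by
    intro b _
    rcases (N'.filter fun x => x.2 = b).eq_empty_or_nonempty with h0 | ⟨x₁, hx₁⟩
    · rw [h0, card_empty, Nat.cast_zero]; exact hF0
    rw [mem_filter] at hx₁
    obtain ⟨hx₁, hx₁b⟩ := hx₁
    obtain ⟨-, b1, -, -, b4, b5, -⟩ := hN' x₁ hx₁
    rw [hx₁b] at b1 b4 b5
    rw [← hPd] at b1
    have hbH : H ≤ b := (hHH.trans hkk).trans b1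
    have hb1 : 1 ≤ b := by
      have : (1 : ℝ) ≤ b := by linarith
      exact_mod_cast this
    have hb0 : (0 : ℝ) < b := by linarith
    obtain ⟨x, hx⟩ : ∃ x : ℝ, x = (b : ℝ) * Real.exp (-(1 / R)) - 1 := ⟨_, rfl⟩
    have hx0 : 0 ≤ x := by
      have h1 : (1 / 3 : ℝ) ≤ Real.exp (-(1 / R)) := by
        have h2 : Real.exp (-1) ≤ Real.exp (-(1 / R)) := by
          apply Real.exp_le_exp.2
          have : 1 / R ≤ 1 := by rw [div_le_one hR0]; exact hR
          linarith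
        have h3 : (1 / 3 : ℝ) ≤ Real.exp (-1) := by
          rw [Real.exp_neg, ← one_div]
          apply one_div_le_one_div_of_le (Real.exp_pos _)
          linarith [Real.exp_one_lt_d9]
        linarith
      rw [hx]
      nlinarith
    set T : ℕ → Finset ℕ := fun r => (Ioc ⌊x⌋₊ ⌊x + 7 * Y / R⌋₊).filter fun n : ℕ =>
      n ≡ r [MOD q] ∧ ∀ s : ℕ, s.Prime → s ∣ n → P ≤ s with hT
    set Rb : Finset ℕ := (range q).filter fun r : ℕ => r ^ t ≡ b ^ t [MOD q] with hRb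
    have hsub : (N'.filter fun x => x.2 = b).image Prod.fst ⊆ Rb.biUnion T := by
      intro a ha
      rw [mem_image] at ha
      obtain ⟨y, hy, rfl⟩ := ha
      rw [mem_filter] at hy
      obtain ⟨hy, hyb⟩ := hy
      obtain ⟨d0, -, d2, d3, -, -, d6⟩ := hN' y hy
      rw [hyb] at d0 d2 d6
      obtain ⟨n1, n2⟩ := NTBx.near hR d3 hb1 d2
      rw [mem_biUnion]
      refine ⟨y.1 % q, ?_, ?_⟩
      · rw [hRb, mem_filter, mem_range]
        refine ⟨Nat.mod_lt _ hq, ?_⟩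
        have h1 : b ^ t ≡ y.1 ^ t [MOD q] := by
          rw [Nat.modEq_iff_dvd]
          push_cast
          exact d6
        exact ((Nat.mod_modEq _ _).pow t).trans h1.symm
      · rw [hT]
        simp only
        rw [mem_filter, mem_Ioc]
        refine ⟨⟨?_, ?_⟩, (Nat.mod_modEq _ _).symm, fun s hs hsy => ?_⟩
        · rw [Nat.floor_lt hx0, hx]; linarith
        · apply Nat.le_floor
          have h1 : 3 * (b : ℝ) / R ≤ 6 * (Y / R) := by
            rw [← mul_div_assoc]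
            apply div_le_div_of_nonneg_right _ hR0.le
            linarith
          have h2 : 7 * Y / R = 7 * (Y / R) := by ring
          rw [hx, h2]
          linarith
        · rw [hPd]; exact d0 s hs (hsy.trans (Dvd.intro _ rfl))
    have hinj : ((N'.filter fun x => x.2 = b).image Prod.fst).card =
        (N'.filter fun x => x.2 = b).card := by
      apply card_image_of_injOn
      intro y hy z hz hyz
      rw [mem_coe, mem_filter] at hy hz
      exact Prod.ext hyz (hy.2.trans hz.2.symm)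
    have hT' : ∀ r ∈ Rb, ((T r).card : ℝ) ≤ E1 * (7 * Y / R) / ((Nat.totient q : ℝ) * Real.log P) :=
      fun r _ => hSVQ P x (7 * Y / R) q r hP2 hx0 hq hqP
    rw [← hinj]
    calc (((N'.filter fun x => x.2 = b).image Prod.fst).card : ℝ)
        ≤ ((Rb.biUnion T).card : ℝ) := by exact_mod_cast card_le_card hsub
      _ ≤ ((∑ r ∈ Rb, (T r).card : ℕ) : ℝ) := by exact_mod_cast card_biUnion_le
      _ = ∑ r ∈ Rb, ((T r).card : ℝ) := by push_cast; rfl
      _ ≤ ∑ r ∈ Rb, E1 * (7 * Y / R) / ((Nat.totient q : ℝ) * Real.log P) := sum_le_sum hT'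
      _ = (Rb.card : ℝ) * (E1 * (7 * Y / R) / ((Nat.totient q : ℝ) * Real.log P)) := by
          rw [sum_const, nsmul_eq_mul]
      _ ≤ F := by
          rw [hF]
          exact mul_le_mul_of_nonneg_right (hN q (b ^ t) hq) (by positivity)
  have htot : (N'.card : ℝ) ≤ C * (Y + 1) / Real.log P * F := by
    rw [card_eq_sum_card_fiberwise hmaps]
    push_cast
    refine (sum_le_sum hfib).trans ?_
    rw [sum_const, nsmul_eq_mul]
    exact mul_le_mul_of_nonneg_right hX2 hF0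
  -- the end
  have hq1 : (q : ℝ) ^ (1 - 2 / ((t : ℝ) * (t + 1))) = (q : ℝ) ^ (1 - η) * (q : ℝ) ^ (-η) := by
    rw [← Real.rpow_add hq0, hη2]
    congr 1
    ring
  have hFle : F ≤ 7 * E1 * E2 * E3 * (q : ℝ) ^ (-η) * Y / (R * Real.log P) := by
    have h1 : (q : ℝ) ^ (1 - 2 / ((t : ℝ) * (t + 1))) ≤ E3 * (Nat.totient q : ℝ) * (q : ℝ) ^ (-η) := by
      rw [hq1]
      exact mul_le_mul_of_nonneg_right (hP q hq) (Real.rpow_nonneg hq0.le _)
    rw [hF]
    calc E2 * (q : ℝ) ^ (1 - 2 / ((t : ℝ) * (t + 1))) *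
          (E1 * (7 * Y / R) / ((Nat.totient q : ℝ) * Real.log P))
        ≤ E2 * (E3 * (Nat.totient q : ℝ) * (q : ℝ) ^ (-η)) *
          (E1 * (7 * Y / R) / ((Nat.totient q : ℝ) * Real.log P)) :=
          mul_le_mul_of_nonneg_right (mul_le_mul_of_nonneg_left h1 hE2.le) (by positivity)
      _ = 7 * E1 * E2 * E3 * (q : ℝ) ^ (-η) * Y / (R * Real.log P) := by
          field_simp
  have hqη : (q : ℝ) ^ η ≤ D := by
    have hqη0 : 0 < (q : ℝ) ^ η := Real.rpow_pos_of_pos hq0 _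
    have h1 : c * Y ^ 2 / (R * (Real.log H) ^ 2) ≤ C * (2 * Y) / Real.log P *
        (7 * E1 * E2 * E3 * (q : ℝ) ^ (-η) * Y / (R * Real.log P)) := by
      refine (hcard.trans htot).trans ?_
      apply mul_le_mul _ hFle hF0 (by positivity)
      apply div_le_div_of_nonneg_right _ hlogP0.le
      exact mul_le_mul_of_nonneg_left (by linarith) hC.le
    have h2 : C * (2 * Y) / Real.log P *
        (7 * E1 * E2 * E3 * (q : ℝ) ^ (-η) * Y / (R * Real.log P)) =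
        (2 * C * (7 * E1 * E2 * E3) / (κ ^ 2 * (q : ℝ) ^ η)) *
          (Y ^ 2 / (R * (Real.log H) ^ 2)) := by
      rw [hlogP, Real.rpow_neg hq0.le]
      field_simp
    rw [h2, mul_div_assoc] at h1
    have h3 : 0 < Y ^ 2 / (R * (Real.log H) ^ 2) := by positivity
    have h4 := le_of_mul_le_mul_right h1 h3
    rw [le_div_iff₀ (by positivity)] at h4
    rw [hD, le_div_iff₀ (by positivity)]
    calc (q : ℝ) ^ η * (c * κ ^ 2) = c * (κ ^ 2 * (q : ℝ) ^ η) := by ring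
      _ ≤ _ := h4
  have hq2 : (q : ℝ) ≤ D ^ (1 / η) := by
    have h1 : (q : ℝ) = ((q : ℝ) ^ η) ^ (1 / η) := by
      rw [← Real.rpow_mul hq0.le, mul_one_div_cancel hη0.ne', Real.rpow_one]
    rw [h1]
    exact Real.rpow_le_rpow (Real.rpow_nonneg hq0.le _) hqη (by positivity)
  have h3 : (q : ℝ) ≤ (⌈D ^ (1 / η)⌉₊ : ℝ) := hq2.trans (Nat.le_ceil _)
  have h4 : q ≤ ⌈D ^ (1 / η)⌉₊ := by exact_mod_cast h3
  omega

end Pool.Agent.VQ
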