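import Mathlib
import Pool.Agent.Lib.VQ.Defs

/-!
# Theorem VQ (MP_663568_nt): the rows NTA and NTB together.  (helper28)
-/

set_option autoImplicit false
open Finset MeasureTheory Polynomial

namespace Pool.Agent.VQ

open Pool.Agent.Lib.MP_663568_nt Pool.Agent.Lib.MP_663568_nt.Katai
  Pool.Agent.Lib.MP_663568_nt.Nul Pool.Agent.SV

theorem ntt (h1 : REC_stmt) (h2 : NTA_stmt) (h3 : SV1_stmt) (h4 : SVQ_stmt) (h5 : NRT_stmt)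
    (h6 : PHQ_stmt) (h7 : NTB_stmt) : NTT' := by
  intro t k κ₁ κ₂ A c ht hk hκ₁ hκ₁₂ hκ₁2 hc hA htA
  obtain ⟨c', E, H₀, hc', hE, hNTA⟩ := h2 h1 t k κ₁ κ₂ A c ht hk hκ₁ hκ₁₂ hc hA htA
  have hA1 : A + 1 ≤ 2 * k * κ₁ := by
    have h : (1 : ℝ) ≤ t := by exact_mod_cast ht
    nlinarith
  obtain ⟨Q₁, H₁, hQ₁, hNTB⟩ := h7 h3 h4 h5 h6 t k κ₁ A c' E ht hk hκ₁ hκ₁2 hc' hA hA1 hE
  refine ⟨Q₁, max (max H₀ H₁) 1, hQ₁, ?_⟩
  intro H hH R β M E2 hR hRA hM hE2 hME Nn hNn hsum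
  have hHa : H₀ ≤ H := (le_max_left _ _).trans ((le_max_left _ _).trans hH)
  have hHb : H₁ ≤ H := (le_max_right _ _).trans ((le_max_left _ _).trans hH)
  have hH0 : 0 < H := lt_of_lt_of_le one_pos ((le_max_right _ _).trans hH)
  obtain ⟨q, a, Y, N', hN', hq1, hq2, hq3, hx, hcard, hY⟩ := hNTA H hHa R β M E2 hR hRA hM hE2 hME
    Nn hNn hsum
  refine ⟨q, hq1, ?_, a, hq3⟩
  refine hNTB H hHb R Y q N' hR hRA hq1 hq2 hY (fun x hxN => ?_) hcard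
  have hcl := hNn x (hN' hxN)
  obtain ⟨g1, g2, g3⟩ := hx x hxN
  refine ⟨hcl.rough, hcl.l2, hcl.near, ?_, g1, g2, g3⟩
  have h8 : (0 : ℝ) < x.1 := lt_of_lt_of_le (by
    have := Real.rpow_pos_of_pos hH0 κ₁
    positivity) hcl.l1
  have h9 : 0 < x.1 := by exact_mod_cast h8
  exact h9

end Pool.Agent.VQ
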