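import Mathlib
import Pool.Agent.Lib.VQ.Defs

/-!
# Row OKQ of Theorem VQ (MP_663568_nt): the system of a family is a system.  (helper93)
-/

set_option autoImplicit false
open Finset MeasureTheory Polynomial

namespace Pool.Agent.VQ

open Pool.Agent.Lib.MP_663568_nt Pool.Agent.Lib.MP_663568_nt.Katai
  Pool.Agent.Lib.MP_663568_nt.Nul Pool.Agent.SV

noncomputable section

namespace OKQx

open Classical in
theorem stq_add (Q : ℕ → ℝ[X]) {u v : ℝ} (h : u ≤ v) :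
    stq Q v = stq Q u + (#((Ico ⌊Real.exp u⌋₊ ⌊Real.exp v⌋₊).filter
      fun i => Q (i + 1) ≠ Q i) : ℕ) := by
  have hle : ⌊Real.exp u⌋₊ ≤ ⌊Real.exp v⌋₊ := by
    apply Nat.floor_mono
    gcongr
  unfold stq
  rw [← Nat.cast_add]
  congr 1
  rw [card_filter, card_filter, card_filter, sum_range_add_sum_Ico _ hle]

open Classical in
theorem stq_const (Q : ℕ → ℝ[X]) {u v : ℝ} (h : u ≤ v) (he : stq Q u = stq Q v) :
    Q ⌊Real.exp u⌋₊ = Q ⌊Real.exp v⌋₊ := by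
  have hle : ⌊Real.exp u⌋₊ ≤ ⌊Real.exp v⌋₊ := by
    apply Nat.floor_mono
    gcongr
  rw [stq_add Q h] at he
  have h0 : (Ico ⌊Real.exp u⌋₊ ⌊Real.exp v⌋₊).filter (fun i => Q (i + 1) ≠ Q i) = ∅ := by
    rw [← card_eq_zero]; omega
  rw [filter_eq_empty_iff] at h0
  have key : ∀ n, ⌊Real.exp u⌋₊ ≤ n → n ≤ ⌊Real.exp v⌋₊ → Q ⌊Real.exp u⌋₊ = Q n := by
    intro n hn
    induction n, hn using Nat.le_induction with
    | base => intro _; rfl
    | succ n hn ih =>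
      intro h1
      rw [ih (by omega)]
      have := h0 (x := n) (by rw [mem_Ico]; omega)
      exact (not_not.1 this).symm
  exact key _ hle le_rfl

open Classical in
/-- The number of the changes in `[n, N)`, `N ≤ 3 (n + 1)`. -/
theorem grow (Q : ℕ → ℝ[X]) {K : ℝ} (hQ : SlowP Q K) {n N : ℕ} (h : N ≤ 4 * (n + 1)) (hK : 0 ≤ K) :
    (#((Ico n N).filter fun i => Q (i + 1) ≠ Q i) : ℝ) ≤ 1 + 4 * K := by
  have hQ' : ∀ j : ℕ, (#((Ico (2 ^ j) (2 ^ (j + 1))).filter fun n => Q (n + 1) ≠ Q n) : ℝ) ≤ K := by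
    intro j
    exact hQ j
  obtain ⟨j, hj⟩ : ∃ j, j = Nat.log 2 (n + 1) := ⟨_, rfl⟩
  have h1 : 2 ^ j ≤ n + 1 := by rw [hj]; exact Nat.pow_log_le_self 2 (by omega)
  have h2 : n + 1 < 2 ^ (j + 1) := by rw [hj]; exact Nat.lt_pow_succ_log_self (by norm_num) _
  have hsub : (Ico n N).filter (fun i => Q (i + 1) ≠ Q i) ⊆ insert n
      ((range 4).biUnion fun i => (Ico (2 ^ (j + i)) (2 ^ (j + i + 1))).filter
        fun n => Q (n + 1) ≠ Q n) := by
    intro x hx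
    rw [mem_filter, mem_Ico] at hx
    rw [mem_insert, mem_biUnion]
    by_cases hxn : x = n
    · exact Or.inl hxn
    · right
      have h3 : 2 ^ j ≤ x := by omega
      have h4 : x < 2 ^ (j + 3) := by
        have : 2 ^ (j + 3) = 4 * 2 ^ (j + 1) := by ring
        omega
      obtain ⟨i, hi⟩ : ∃ i, i = Nat.log 2 x := ⟨_, rfl⟩
      have hx0 : x ≠ 0 := by
        have := Nat.pow_pos (n := j) (show 0 < 2 by norm_num)
        omega
      have h5 : 2 ^ i ≤ x := by rw [hi]; exact Nat.pow_log_le_self 2 hx0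
      have h6 : x < 2 ^ (i + 1) := by rw [hi]; exact Nat.lt_pow_succ_log_self (by norm_num) _
      have h7 : j ≤ i := by
        rw [hi]
        exact Nat.le_log_of_pow_le (by norm_num) h3
      have h8 : i < j + 3 := by
        by_contra hc
        have : 2 ^ (j + 3) ≤ 2 ^ i := Nat.pow_le_pow_right (by norm_num) (by omega)
        omega
      refine ⟨i - j, by rw [mem_range]; omega, ?_⟩
      rw [mem_filter, mem_Ico, show j + (i - j) = i by omega]
      exact ⟨⟨h5, h6⟩, hx.2⟩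
  have h9 := (card_le_card hsub).trans (card_insert_le _ _)
  have h10 : (#((range 4).biUnion fun i => (Ico (2 ^ (j + i)) (2 ^ (j + i + 1))).filter
        fun n => Q (n + 1) ≠ Q n) : ℝ) ≤ 4 * K := by
    calc (#((range 4).biUnion fun i => (Ico (2 ^ (j + i)) (2 ^ (j + i + 1))).filter
        fun n => Q (n + 1) ≠ Q n) : ℝ) ≤ ∑ i ∈ range 4, (#((Ico (2 ^ (j + i))
          (2 ^ (j + i + 1))).filter fun n => Q (n + 1) ≠ Q n) : ℝ) := by
          exact_mod_cast card_biUnion_le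
      _ ≤ ∑ i ∈ range 4, K := sum_le_sum fun i _ => hQ' (j + i)
      _ = 4 * K := by rw [sum_const, card_range]; simp
  have h11 : (#((Ico n N).filter fun i => Q (i + 1) ≠ Q i) : ℝ) ≤
      (#((range 4).biUnion fun i => (Ico (2 ^ (j + i)) (2 ^ (j + i + 1))).filter
        fun n => Q (n + 1) ≠ Q n) : ℝ) + 1 := by exact_mod_cast h9
  linarith

end OKQx

open OKQx in
theorem okq : OKQ_stmt := by
  intro A κ₁ κ₂ hA hκ₁ hκ₁₂ hκ₂
  have t := tendsto_natCast_atTop_atTop (R := ℝ)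
  have h1 := (tendsto_rpow_atTop hκ₁).comp t
  obtain ⟨H₀, hH₀⟩ := Filter.eventually_atTop.1
    ((h1.eventually_ge_atTop 2).and (t.eventually_ge_atTop 5))
  refine ⟨H₀, ?_⟩
  intro H hH hL t Q₂ Q b G tau xa xb hxa hxab htau hQ hG hgood
  obtain ⟨h2, h5⟩ := hH₀ H hH
  replace h2 : 2 ≤ (H : ℝ) ^ κ₁ := h2
  have hH0 : (0 : ℝ) < H := by linarith
  have hPP : ∀ p ∈ PPs H κ₁ κ₂, p.Prime ∧ (H : ℝ) ^ κ₁ ≤ p ∧ (p : ℝ) ≤ (H : ℝ) ^ κ₂ := by
    intro p hp
    unfold PPs at hp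
    rw [mem_filter, mem_Icc] at hp
    exact ⟨hp.2.1, hp.2.2, (Nat.le_floor_iff (Real.rpow_nonneg hH0.le _)).1 hp.1.2⟩
  have hHA : (1 : ℝ) ≤ (H : ℝ) ^ A := Real.one_le_rpow (by linarith) hA
  have hHA1 : (H : ℝ) ^ (A + 1) = (H : ℝ) ^ A * H := by
    rw [Real.rpow_add hH0, Real.rpow_one]
  have hconst : ∀ u v : ℝ, stq Q u = stq Q v → Q ⌊Real.exp u⌋₊ = Q ⌊Real.exp v⌋₊ := by
    intro u v huv
    rcases le_total u v with h | h
    · exact stq_const Q h huv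
    · exact (stq_const Q h huv.symm).symm
  refine ⟨⟨h2, fun p hp => (hPP p hp).1, fun p hp => (hPP p hp).2.1, fun p hp => (hPP p hp).2.2,
    hL, ?_, ?_, ?_, ?_, hG, ?_, ?_, ?_, ?_⟩, ?_, ?_, htau⟩
  · rw [hHA1]
    nlinarith
  · intro u v huv
    show stq Q u ≤ stq Q v
    rw [stq_add Q huv]
    omega
  · intro u
    show (stq Q (u + 1) : ℝ) ≤ stq Q u + (H : ℝ) ^ (A + 1)
    rw [stq_add Q (by linarith : u ≤ u + 1)]
    have h6 : ⌊Real.exp (u + 1)⌋₊ ≤ 4 * (⌊Real.exp u⌋₊ + 1) := by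
      apply Nat.floor_le_of_le
      push_cast
      have e1 := Nat.lt_floor_add_one (Real.exp u)
      have e2 : Real.exp (u + 1) = Real.exp u * Real.exp 1 := Real.exp_add _ _
      have e3 := Real.exp_one_lt_d9
      have e4 := Real.exp_pos u
      rw [e2]
      nlinarith
    have h7 := grow Q hQ h6 (by linarith)
    push_cast
    rw [hHA1]
    nlinarith
  · intro u v huv
    rfl
  · intro p u hu
    obtain ⟨hp, h3, h4, _⟩ := hgood p u hu
    have hp1 : (1 : ℝ) ≤ p := by exact_mod_cast (hPP p hp).1.one_lt.le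
    have e1 : Real.log p ≤ Real.log ((H : ℝ) ^ κ₂) :=
      Real.log_le_log (by linarith) (hPP p hp).2.2
    have e2 : 0 ≤ Real.log p := Real.log_nonneg hp1
    refine ⟨hp, ?_, ?_⟩
    · show Real.log xa - Real.log ((H : ℝ) ^ κ₂) ≤ u
      linarith
    · show u ≤ Real.log xb
      linarith
  · intro p u hu
    refine ⟨0, ?_⟩
    show |(p : ℝ) * 0 - 0 - ((0 : ℤ) : ℝ)| ≤ 0
    simp
  · show Real.log ((H : ℝ) ^ κ₂) ≤ Real.log xb - (Real.log xa - Real.log ((H : ℝ) ^ κ₂))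
    have := Real.log_le_log (by linarith) hxab
    linarith
  · show (0 : ℝ) ≤ 0
    exact le_rfl
  · intro u v huv
    show (Q₂ : ℝ) * (Q ⌊Real.exp u⌋₊).coeff t = (Q₂ : ℝ) * (Q ⌊Real.exp v⌋₊).coeff t
    rw [hconst u v huv]
  · intro p u hu
    obtain ⟨hp, _, _, k, hk⟩ := hgood p u hu
    have hp1 : (1 : ℝ) ≤ p := by exact_mod_cast (hPP p hp).1.one_lt.le
    refine ⟨k, ?_⟩
    show |(p : ℝ) ^ t * ((Q₂ : ℝ) * (Q ⌊Real.exp (u + Real.log p)⌋₊).coeff t) - b u - k| ≤ tau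
    rw [Real.exp_add, Real.exp_log (by linarith), mul_comm (Real.exp u)]
    exact hk

end

end Pool.Agent.VQ
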