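import Pool.Agent.Lib.VQ.Defs
import Pool.Agent.Lib.SV.P0

/-!
# Theorem VQ: row P0T (the lift exists).  Copy of `SV.p0` with the `t`-th powers.  (helper42)
-/

set_option autoImplicit false
open Finset MeasureTheory

namespace Pool.Agent.VQ

open Pool.Agent.SV

theorem OKT.pp_coprime {s : Sys} {t : ℕ} {P1 P2 R : ℝ} (h : OKT s t P1 P2 R) {m : ℕ}
    {q : Fin m → ℕ} (hq : Function.Injective q) (hm : ∀ i, q i ∈ s.PP) :
    ∀ i j, i ≠ j → Nat.Coprime (q i ^ t) (q j ^ t) := by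
  intro i j hij
  exact Nat.Coprime.pow t t (h.dm.pp_coprime hq hm i j hij)

/-- Row P0T. -/
theorem p0t : P0T_stmt := by
  classical
  intro s t P1 P2 R h m q hq hm
  have key : ∀ u : ℝ, ∃ β : ℝ, (∀ i, u ∈ s.G (q i)) → (∃ k : ℤ, β = s.b u + k) ∧
      ∀ i, ∃ k : ℤ, |β - (q i : ℝ) ^ t * s.al (u + Real.log (q i)) - (q i : ℝ) ^ t * k| ≤
        s.tau := by
    intro u
    by_cases hu : ∀ i, u ∈ s.G (q i)
    · have h1 : ∀ i, ∃ k : ℤ,
          |(q i : ℝ) ^ t * s.al (u + Real.log (q i)) - s.b u - k| ≤ s.tau :=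
        fun i => h.good _ _ (hu i)
      choose k hk using h1
      -- Chinese remainder theorem
      have hco : Pairwise (Function.onFun IsCoprime fun i : Fin m =>
          Ideal.span {((q i ^ t : ℕ) : ℤ)}) := by
        intro i j hij
        exact (Ideal.isCoprime_span_singleton_iff _ _).2
          (Nat.isCoprime_iff_coprime.2 (h.pp_coprime hq hm i j hij))
      obtain ⟨K, hK⟩ : ∃ K : ℤ, ∀ i, ((q i ^ t : ℕ) : ℤ) ∣ K - k i := by
        obtain ⟨K, hK⟩ := Ideal.exists_forall_sub_mem_ideal hco k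
        exact ⟨K, fun i => Ideal.mem_span_singleton.1 (hK i)⟩
      refine ⟨s.b u + K, fun _ => ⟨⟨K, rfl⟩, fun i => ?_⟩⟩
      obtain ⟨r, hr⟩ := hK i
      refine ⟨r, ?_⟩
      have h2 : (K : ℝ) = k i + (q i : ℝ) ^ t * r := by
        have h3 : K = k i + ((q i ^ t : ℕ) : ℤ) * r := by linarith
        exact_mod_cast h3
      have h3 : s.b u + (K : ℝ) - (q i : ℝ) ^ t * s.al (u + Real.log (q i)) - (q i : ℝ) ^ t * r
          = -((q i : ℝ) ^ t * s.al (u + Real.log (q i)) - s.b u - k i) := by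
        rw [h2]; ring
      rw [h3, abs_neg]
      exact hk i
    · exact ⟨0, fun h => absurd h hu⟩
  choose β hβ using key
  exact ⟨β, fun u hu => hβ u hu⟩

end Pool.Agent.VQ
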