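import Pool.Agent.Lib.VQ.P0T
import Pool.Agent.Lib.SV.P12

/-!
# Theorem VQ: rows P1T and P2T (the relations along an edge and for equal steps).
Copy of `SV.p1`, `SV.p2` with the `t`-th powers.  (helper42)
-/

set_option autoImplicit false
open Finset MeasureTheory

namespace Pool.Agent.VQ

open Pool.Agent.SV

/-- A number close to a multiple of each of finitely many coprime powers. -/
theorem near_prod_pow {m : ℕ} (hm : 1 ≤ m) (t : ℕ) (q : Fin m → ℕ)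
    (hq : ∀ i j, i ≠ j → Nat.Coprime (q i ^ t) (q j ^ t))
    {D E : ℝ} (hE : E < 1 / 2) (h : ∀ i, ∃ k : ℤ, |D - (q i : ℝ) ^ t * k| ≤ E) :
    ∃ k : ℤ, |D - k * ((∏ i, q i : ℕ) : ℝ) ^ t| ≤ E := by
  have h1 := near_prod hm (fun i => q i ^ t) hq hE (fun i => by
    obtain ⟨k, hk⟩ := h i
    exact ⟨k, by push_cast; exact hk⟩)
  obtain ⟨k, hk⟩ := h1
  refine ⟨k, ?_⟩
  rw [Finset.prod_pow] at hk
  push_cast at hk ⊢
  exact hk

theorem OKT.pow_le {s : Sys} {t : ℕ} {P1 P2 R : ℝ} (h : OKT s t P1 P2 R) {p : ℕ}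
    (hp : p ∈ s.PP) : (p : ℝ) ^ t ≤ P2 ^ t :=
  pow_le_pow_left₀ (Nat.cast_nonneg _) (h.dm.le p hp) t

/-- Row P1T. -/
theorem p1t : P1T_stmt := by
  intro s t P1 P2 R ht h h8 m q hm hq hqm β hβ cell p hp p' hp' z hz
  have hE : 4 * P2 ^ t * s.tau < 1 / 2 := by linarith
  refine near_prod_pow hm t q (h.pp_coprime hq hqm) hE fun i => ?_
  have hz1 : ∀ i, z + Real.log p ∈ s.G (q i) := fun i => (hz.2 i).1.2
  have hz2 : ∀ i, z + Real.log p' ∈ s.G (q i) := fun i => (hz.2 i).2.2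
  obtain ⟨k1, hk1⟩ := (hβ _ hz1).2 i
  obtain ⟨k2, hk2⟩ := (hβ _ hz2).2 i
  obtain ⟨k3, hk3⟩ := h.good _ _ (hz.2 i).1.1
  obtain ⟨k4, hk4⟩ := h.good _ _ (hz.2 i).2.1
  have e1 : z + Real.log (q i) + Real.log p = z + Real.log p + Real.log (q i) := by ring
  have e2 : z + Real.log (q i) + Real.log p' = z + Real.log p' + Real.log (q i) := by ring
  rw [e1] at hk3
  rw [e2] at hk4
  refine ⟨(p : ℤ) ^ t * k1 - (p' : ℤ) ^ t * k2 + (k3 - k4), ?_⟩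
  set A := s.al (z + Real.log p + Real.log (q i)) with hA
  set A' := s.al (z + Real.log p' + Real.log (q i)) with hA'
  set B := s.b (z + Real.log (q i)) with hB
  have hp0 : (0 : ℝ) ≤ (p : ℝ) ^ t := by positivity
  have hp0' : (0 : ℝ) ≤ (p' : ℝ) ^ t := by positivity
  have hq0 : (0 : ℝ) ≤ (q i : ℝ) ^ t := by positivity
  have e3 : (p : ℝ) ^ t * β (z + Real.log p) - (p' : ℝ) ^ t * β (z + Real.log p')
      - (q i : ℝ) ^ t * (((p : ℤ) ^ t * k1 - (p' : ℤ) ^ t * k2 + (k3 - k4) : ℤ) : ℝ)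
      = (p : ℝ) ^ t * (β (z + Real.log p) - (q i : ℝ) ^ t * A - (q i : ℝ) ^ t * k1)
        - (p' : ℝ) ^ t * (β (z + Real.log p') - (q i : ℝ) ^ t * A' - (q i : ℝ) ^ t * k2)
        + (q i : ℝ) ^ t * ((p : ℝ) ^ t * A - B - k3)
        - (q i : ℝ) ^ t * ((p' : ℝ) ^ t * A' - B - k4) := by
    push_cast; ring
  rw [e3]
  have b1 : |(p : ℝ) ^ t * (β (z + Real.log p) - (q i : ℝ) ^ t * A - (q i : ℝ) ^ t * k1)| ≤
      P2 ^ t * s.tau := by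
    rw [abs_mul, abs_of_nonneg hp0]
    exact mul_le_mul (h.pow_le hp) hk1 (abs_nonneg _) (hp0.trans (h.pow_le hp))
  have b2 : |(p' : ℝ) ^ t * (β (z + Real.log p') - (q i : ℝ) ^ t * A' - (q i : ℝ) ^ t * k2)| ≤
      P2 ^ t * s.tau := by
    rw [abs_mul, abs_of_nonneg hp0']
    exact mul_le_mul (h.pow_le hp') hk2 (abs_nonneg _) (hp0'.trans (h.pow_le hp'))
  have b3 : |(q i : ℝ) ^ t * ((p : ℝ) ^ t * A - B - k3)| ≤ P2 ^ t * s.tau := by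
    rw [abs_mul, abs_of_nonneg hq0]
    exact mul_le_mul (h.pow_le (hqm i)) hk3 (abs_nonneg _) (hq0.trans (h.pow_le (hqm i)))
  have b4 : |(q i : ℝ) ^ t * ((p' : ℝ) ^ t * A' - B - k4)| ≤ P2 ^ t * s.tau := by
    rw [abs_mul, abs_of_nonneg hq0]
    exact mul_le_mul (h.pow_le (hqm i)) hk4 (abs_nonneg _) (hq0.trans (h.pow_le (hqm i)))
  rw [abs_le] at b1 b2 b3 b4 ⊢
  constructor <;> linarith [b1.1, b1.2, b2.1, b2.2, b3.1, b3.2, b4.1, b4.2]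

/-- Row P2T. -/
theorem p2t : P2T_stmt := by
  intro s t P1 P2 R ht h h8 m q hm hq hqm β hβ u v hu hv hal
  have hP2 : 2 ≤ P2 :=
    (h.dm.P1one.trans (h.dm.ge _ (hqm ⟨0, hm⟩))).trans (h.dm.le _ (hqm ⟨0, hm⟩))
  have hP2t : 1 ≤ P2 ^ t := one_le_pow₀ (by linarith)
  have hE : 2 * s.tau < 1 / 2 := by nlinarith [h.tau0]
  refine near_prod_pow hm t q (h.pp_coprime hq hqm) hE fun i => ?_
  obtain ⟨k1, hk1⟩ := (hβ _ hu).2 i
  obtain ⟨k2, hk2⟩ := (hβ _ hv).2 i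
  refine ⟨k1 - k2, ?_⟩
  rw [hal i] at hk1
  push_cast
  rw [abs_le] at hk1 hk2 ⊢
  constructor <;> linarith [hk1.1, hk1.2, hk2.1, hk2.2]

end Pool.Agent.VQ
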