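import Pool.Agent.Lib.VQ.P12T
import Pool.Agent.Lib.SV.P3

/-!
# Theorem VQ: row P3T (the relation along a path).  Copy of `SV.p3` with the `t`-th powers.
(helper42)
-/

set_option autoImplicit false
open Finset MeasureTheory

namespace Pool.Agent.VQ

open Pool.Agent.SV

/-- Row P3T. -/
theorem p3t : P3T_stmt := by
  classical
  intro h1 s t P1 P2 R g ht h h8 hg m q hm hq hqm β hβ cell hc k
  set E : ℝ := 4 * P2 ^ t * s.tau with hEd
  set M : ℝ := ((∏ i, q i : ℕ) : ℝ) ^ t with hMd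
  have hP1 : 2 ≤ P1 := h.dm.P1one
  have hP2 : 2 ≤ P2 :=
    (h.dm.P1one.trans (h.dm.ge _ (hqm ⟨0, hm⟩))).trans (h.dm.le _ (hqm ⟨0, hm⟩))
  have hE0 : 0 ≤ E := by
    have := h.tau0
    positivity
  have hlg : 0 ≤ Real.log g := Real.log_nonneg hg
  have hpos : ∀ p ∈ s.PP, (0 : ℝ) < p := fun p hp => lt_of_lt_of_le (by linarith) (h.dm.ge p hp)
  have hstep : ∀ i ∈ Mv s cell, |sg i| ≤ Real.log g := by
    intro i hi
    obtain ⟨h2, h3, h4⟩ := mem_Mv_b hi
    have a1 := hc _ h2 _ h3 h4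
    have a2 := hc _ h3 _ h2 h4.symm
    have b1 := Real.log_le_log (hpos _ h2) a1
    have b2 := Real.log_le_log (hpos _ h3) a2
    rw [Real.log_mul (by positivity) (hpos _ h3).ne'] at b1
    rw [Real.log_mul (by positivity) (hpos _ h2).ne'] at b2
    unfold sg
    rw [abs_le]
    constructor <;> linarith
  induction k with
  | zero =>
    intro l hl v _
    rw [mem_paths_zero hl]
    simp only [List.map_nil, List.sum_nil, abs_zero, Nat.cast_zero, zero_mul, le_refl, N1, N2,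
      List.prod_nil, Nat.cast_one, Real.log_one, sub_self, true_and, add_zero, one_mul, zero_div,
      one_pow]
    exact ⟨0, by simp⟩
  | succ k ih =>
    intro l hl v hv
    obtain ⟨i, l', hi, hl', rfl⟩ := mem_paths_cons hl
    obtain ⟨hp, hp', hcell⟩ := mem_Mv_b hi
    have hv1 : v ∈ Ed s cell q i := hv.1
    obtain ⟨ih1, ih2, j, ih3⟩ := ih l' hl' (v + sg i) hv.2
    have hz : v - Real.log i.2 ∈ Edge s cell q i.1 i.2 := hv1
    obtain ⟨T, hT⟩ := h1 s t P1 P2 R ht h h8 m q hm hq hqm β hβ cell i.1 hp i.2 hp' _ hz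
    have e1 : v - Real.log i.2 + Real.log i.1 = v + sg i := by unfold sg; ring
    have e2 : v - Real.log i.2 + Real.log i.2 = v := by ring
    rw [e1, e2, ← hMd, ← hEd] at hT
    have p1 := hpos _ hp
    have p2 := hpos _ hp'
    have hN2 : (0 : ℝ) ≤ (N2 l' : ℝ) ^ t := by positivity
    have hN1pos : ∀ (k : ℕ) (l : List (ℕ × ℕ)), l ∈ paths (Mv s cell) k →
        (0 : ℝ) < N1 l ∧ (0 : ℝ) < N2 l := by
      intro k
      induction k with
      | zero => intro l hl; rw [mem_paths_zero hl]; simp [N1, N2]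
      | succ k ih' =>
        intro l hl
        obtain ⟨i, l', hi, hl', rfl⟩ := mem_paths_cons hl
        obtain ⟨hp, hp', hcell⟩ := mem_Mv_b hi
        have := ih' l' hl'
        have a1 := hpos _ hp
        have a2 := hpos _ hp'
        simp only [N1, N2, List.map_cons, List.prod_cons, Nat.cast_mul] at this ⊢
        exact ⟨mul_pos a1 this.1, mul_pos a2 this.2⟩
    have hN := hN1pos k l' hl'
    have hN1e : (N1 (i :: l') : ℝ) = i.1 * N1 l' := by simp [N1]
    have hN2e : (N2 (i :: l') : ℝ) = i.2 * N2 l' := by simp [N2]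
    have hsum : ((i :: l').map sg).sum = sg i + (l'.map sg).sum := by simp
    refine ⟨?_, ?_, j * (i.1 : ℤ) ^ t + T * (N2 l' : ℤ) ^ t, ?_⟩
    · rw [hsum]
      have a1 := hstep i hi
      have a2 := abs_add_le (sg i) (l'.map sg).sum
      push_cast
      linarith
    · rw [hsum, hN1e, hN2e, Real.log_mul p1.ne' hN.1.ne', Real.log_mul p2.ne' hN.2.ne', ih2]
      unfold sg
      ring
    · rw [hsum, hN1e, hN2e]
      have e3 : v + (sg i + (l'.map sg).sum) = v + sg i + (l'.map sg).sum := by ring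
      rw [e3]
      have hgk : (0 : ℝ) < g ^ (t * k) := by positivity
      have hgt : (0 : ℝ) < g ^ t := by positivity
      have hi1 : (0 : ℝ) < (i.1 : ℝ) ^ t := by positivity
      have hi2 : (0 : ℝ) < (i.2 : ℝ) ^ t := by positivity
      set F := E / P1 ^ t with hF
      have hF0 : 0 ≤ F := by positivity
      have hEF : E ≤ (i.2 : ℝ) ^ t * F := by
        rw [hF, mul_div_assoc', le_div_iff₀ (by positivity), mul_comm]
        exact mul_le_mul_of_nonneg_right
          (pow_le_pow_left₀ (by linarith) (h.dm.ge _ hp') t) hE0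
      have e4 : (k : ℝ) * g ^ (t * k) * E / P1 ^ t = k * g ^ (t * k) * F := by rw [hF]; ring
      have e5 : (((k + 1 : ℕ) : ℝ)) * g ^ (t * (k + 1)) * E / P1 ^ t =
          (k + 1) * (g ^ t * g ^ (t * k)) * F := by
        rw [hF, ← pow_add, show t + t * k = t * (k + 1) by ring]; push_cast; ring
      rw [e4] at ih3
      rw [e5]
      set X := β (v + sg i + (l'.map sg).sum) with hX
      set Y := β (v + sg i) with hY
      have c1 : |(i.1 : ℝ) ^ t * ((N1 l' : ℝ) ^ t * X - (N2 l' : ℝ) ^ t * Y - j * M)| ≤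
          (i.1 : ℝ) ^ t * ((N2 l' : ℝ) ^ t * (k * g ^ (t * k) * F)) := by
        rw [abs_mul, abs_of_pos hi1]
        exact mul_le_mul_of_nonneg_left ih3 hi1.le
      have c2 : |(N2 l' : ℝ) ^ t * ((i.1 : ℝ) ^ t * Y - (i.2 : ℝ) ^ t * β v - T * M)| ≤
          (N2 l' : ℝ) ^ t * E := by
        rw [abs_mul, abs_of_nonneg hN2]
        exact mul_le_mul_of_nonneg_left hT hN2
      have e6 : ((i.1 : ℝ) * N1 l') ^ t * X - ((i.2 : ℝ) * N2 l') ^ t * β v -
            ((j * (i.1 : ℤ) ^ t + T * (N2 l' : ℤ) ^ t : ℤ) : ℝ) * M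
          = (i.1 : ℝ) ^ t * ((N1 l' : ℝ) ^ t * X - (N2 l' : ℝ) ^ t * Y - j * M)
            + (N2 l' : ℝ) ^ t * ((i.1 : ℝ) ^ t * Y - (i.2 : ℝ) ^ t * β v - T * M) := by
        push_cast; ring
      rw [e6]
      refine (abs_add_le _ _).trans ((add_le_add c1 c2).trans ?_)
      have c3 : (i.1 : ℝ) ^ t ≤ g ^ t * (i.2 : ℝ) ^ t := by
        rw [← mul_pow]
        exact pow_le_pow_left₀ p1.le (hc _ hp _ hp' hcell) t
      have c4 : (i.1 : ℝ) ^ t * ((N2 l' : ℝ) ^ t * (k * g ^ (t * k) * F)) ≤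
          g ^ t * (i.2 : ℝ) ^ t * ((N2 l' : ℝ) ^ t * (k * g ^ (t * k) * F)) :=
        mul_le_mul_of_nonneg_right c3 (by positivity)
      have c5 : (N2 l' : ℝ) ^ t * E ≤ (N2 l' : ℝ) ^ t * ((i.2 : ℝ) ^ t * F) :=
        mul_le_mul_of_nonneg_left hEF hN2
      have c6 : (1 : ℝ) ≤ g ^ t * g ^ (t * k) := by
        rw [← pow_add]
        exact one_le_pow₀ hg
      have c7 : (N2 l' : ℝ) ^ t * ((i.2 : ℝ) ^ t * F) ≤
          (N2 l' : ℝ) ^ t * ((i.2 : ℝ) ^ t * F) * (g ^ t * g ^ (t * k)) :=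
        le_mul_of_one_le_right (by positivity) c6
      have e7 : ((i.2 : ℝ) * N2 l') ^ t * ((k + 1) * (g ^ t * g ^ (t * k)) * F) =
          g ^ t * (i.2 : ℝ) ^ t * ((N2 l' : ℝ) ^ t * (k * g ^ (t * k) * F)) +
            (N2 l' : ℝ) ^ t * ((i.2 : ℝ) ^ t * F) * (g ^ t * g ^ (t * k)) := by
        ring
      rw [e7]
      linarith

end Pool.Agent.VQ
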