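import Mathlib
import Pool.Agent.Lib.VQ.Defs

/-!
# Row PAIR of Theorem VQ (MP_663568_nt): Cauchy's inequality.  (helper93)
-/

set_option autoImplicit false
open Finset MeasureTheory Polynomial

namespace Pool.Agent.VQ

open Pool.Agent.Lib.MP_663568_nt Pool.Agent.Lib.MP_663568_nt.Katai
  Pool.Agent.Lib.MP_663568_nt.Nul Pool.Agent.SV

namespace PAIRx

theorem norm_muC_le (n : ℕ) : ‖muC n‖ ≤ 1 := by
  unfold muC
  rw [Complex.norm_intCast]
  exact_mod_cast ArithmeticFunction.abs_moebius_le_one (n := n)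

theorem norm_ee' (x : ℝ) : ‖ee x‖ = 1 := by
  unfold ee
  rw [show 2 * (Real.pi : ℂ) * Complex.I * (x : ℂ) = ((2 * Real.pi * x : ℝ) : ℂ) * Complex.I by
    push_cast; ring]
  exact Complex.norm_exp_ofReal_mul_I _

end PAIRx

theorem pair : PAIR_stmt := by
  intro l m GG w P ε hl hw hε hP
  have hl0 : (0 : ℝ) < l := by exact_mod_cast hl
  choose u hu1 hu2 using exists_unit
  set F : ℕ → ℕ → ℂ := fun p h => ee ((P p).eval ((m : ℝ) + h)) with hF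
  set v : ℕ → ℂ := fun p => ∑ h ∈ Icc 1 l, muC (m + h) * F p h with hv
  set U : ℕ → ℂ := fun p => (w p : ℂ) * u (v p) with hU
  have h1 : ((∑ p ∈ GG, w p * ‖v p‖ : ℝ) : ℂ) =
      ∑ h ∈ Icc 1 l, muC (m + h) * ∑ p ∈ GG, U p * F p h := by
    push_cast
    have : ∀ p ∈ GG, (w p : ℂ) * (‖v p‖ : ℂ) = (w p : ℂ) * (u (v p) * v p) :=
      fun p _ => by rw [hu2]
    rw [sum_congr rfl this]
    simp only [hv, mul_sum]
    rw [sum_comm]
    apply sum_congr rfl; intro h _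
    apply sum_congr rfl; intro p _
    simp only [hU, hv]; ring
  have h2 : ∑ p ∈ GG, w p * ‖v p‖ ≤ ∑ h ∈ Icc 1 l, ‖∑ p ∈ GG, U p * F p h‖ := by
    have h0 : 0 ≤ ∑ p ∈ GG, w p * ‖v p‖ :=
      sum_nonneg (fun p hp => mul_nonneg (hw p hp) (norm_nonneg _))
    calc ∑ p ∈ GG, w p * ‖v p‖ = ‖((∑ p ∈ GG, w p * ‖v p‖ : ℝ) : ℂ)‖ := by
          rw [Complex.norm_real, Real.norm_of_nonneg h0]
      _ = ‖∑ h ∈ Icc 1 l, muC (m + h) * ∑ p ∈ GG, U p * F p h‖ := by rw [h1]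
      _ ≤ ∑ h ∈ Icc 1 l, ‖muC (m + h) * ∑ p ∈ GG, U p * F p h‖ := norm_sum_le _ _
      _ ≤ ∑ h ∈ Icc 1 l, ‖∑ p ∈ GG, U p * F p h‖ := by
          apply sum_le_sum; intro h _
          rw [norm_mul]
          exact mul_le_of_le_one_left (norm_nonneg _) (PAIRx.norm_muC_le _)
  have h3 : ∑ h ∈ Icc 1 l, ‖∑ p ∈ GG, U p * F p h‖ ^ 2
      ≤ l * ∑ p ∈ GG, ∑ p' ∈ GG, w p * w p' * Kp l m (P p - P p') := by
    have e1 : ((∑ h ∈ Icc 1 l, ‖∑ p ∈ GG, U p * F p h‖ ^ 2 : ℝ) : ℂ)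
        = ∑ p ∈ GG, ∑ q ∈ GG, (U p * (starRingEnd ℂ) (U q)) *
          ∑ h ∈ Icc 1 l, ee ((P p - P q).eval ((m : ℝ) + h)) := by
      push_cast
      have : ∀ h : ℕ, ((‖∑ p ∈ GG, U p * F p h‖ : ℂ)) ^ 2
          = ∑ p ∈ GG, ∑ q ∈ GG, (U p * (starRingEnd ℂ) (U q)) *
            ee ((P p - P q).eval ((m : ℝ) + h)) := by
        intro h
        rw [← Complex.mul_conj', map_sum, sum_mul_sum]
        apply sum_congr rfl; intro p _
        apply sum_congr rfl; intro q _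
        rw [map_mul, eval_sub, ee_sub]
        simp only [hF]; ring
      rw [sum_congr rfl (fun l _ => this l), sum_comm]
      apply sum_congr rfl; intro p _
      rw [sum_comm]
      apply sum_congr rfl; intro q _
      rw [mul_sum]
    have h0 : 0 ≤ ∑ h ∈ Icc 1 l, ‖∑ p ∈ GG, U p * F p h‖ ^ 2 :=
      sum_nonneg (fun _ _ => by positivity)
    have hUn : ∀ p ∈ GG, ‖U p‖ ≤ w p := by
      intro p hp
      simp only [hU]
      rw [norm_mul, Complex.norm_real, Real.norm_of_nonneg (hw p hp)]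
      exact mul_le_of_le_one_right (hw p hp) (hu1 _)
    calc ∑ h ∈ Icc 1 l, ‖∑ p ∈ GG, U p * F p h‖ ^ 2
        = ‖((∑ h ∈ Icc 1 l, ‖∑ p ∈ GG, U p * F p h‖ ^ 2 : ℝ) : ℂ)‖ := by
          rw [Complex.norm_real, Real.norm_of_nonneg h0]
      _ ≤ ∑ p ∈ GG, ∑ q ∈ GG, ‖(U p * (starRingEnd ℂ) (U q)) *
          ∑ h ∈ Icc 1 l, ee ((P p - P q).eval ((m : ℝ) + h))‖ := by
          rw [e1]
          exact (norm_sum_le _ _).trans (sum_le_sum (fun p _ => norm_sum_le _ _))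
      _ ≤ ∑ p ∈ GG, ∑ q ∈ GG, l * (w p * w q * Kp l m (P p - P q)) := by
          apply sum_le_sum; intro p hp
          apply sum_le_sum; intro q hq
          have hUU : ‖U p * (starRingEnd ℂ) (U q)‖ ≤ w p * w q := by
            rw [norm_mul, RCLike.norm_conj]
            exact mul_le_mul (hUn p hp) (hUn q hq) (norm_nonneg _) (hw p hp)
          rw [norm_mul]
          have hK : ‖∑ h ∈ Icc 1 l, ee ((P p - P q).eval ((m : ℝ) + h))‖ =
              l * Kp l m (P p - P q) := by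
            unfold Kp
            field_simp
          rw [hK]
          have hK0 : 0 ≤ Kp l m (P p - P q) := by unfold Kp; positivity
          calc _ ≤ (w p * w q) * (l * Kp l m (P p - P q)) :=
                mul_le_mul_of_nonneg_right hUU (by positivity)
            _ = _ := by ring
      _ = l * ∑ p ∈ GG, ∑ p' ∈ GG, w p * w p' * Kp l m (P p - P p') := by
          rw [mul_sum]
          apply sum_congr rfl; intro p _
          rw [mul_sum]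
  have h4 : (∑ h ∈ Icc 1 l, ‖∑ p ∈ GG, U p * F p h‖) ^ 2
      ≤ (l : ℝ) * ∑ h ∈ Icc 1 l, ‖∑ p ∈ GG, U p * F p h‖ ^ 2 := by
    have := sq_sum_le_card_mul_sum_sq (s := Icc 1 l) (f := fun h => ‖∑ p ∈ GG, U p * F p h‖)
    simpa using this
  have h5 : l * ε * ∑ p ∈ GG, w p ≤ ∑ p ∈ GG, w p * ‖v p‖ := by
    rw [mul_sum]
    apply sum_le_sum
    intro p hp
    have h6 := hP p hp
    unfold Wp at h6
    rw [le_div_iff₀ hl0] at h6
    have h7 : ε * l ≤ ‖v p‖ := h6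
    calc (l : ℝ) * ε * w p = w p * (ε * l) := by ring
      _ ≤ w p * ‖v p‖ := mul_le_mul_of_nonneg_left h7 (hw p hp)
  have h0 : 0 ≤ l * ε * ∑ p ∈ GG, w p :=
    mul_nonneg (mul_nonneg hl0.le hε) (sum_nonneg hw)
  have h8 : (l * ε * ∑ p ∈ GG, w p) ^ 2 ≤
      (l : ℝ) * (l * ∑ p ∈ GG, ∑ p' ∈ GG, w p * w p' * Kp l m (P p - P p')) := by
    calc (l * ε * ∑ p ∈ GG, w p) ^ 2 ≤ (∑ h ∈ Icc 1 l, ‖∑ p ∈ GG, U p * F p h‖) ^ 2 :=
          pow_le_pow_left₀ h0 (h5.trans h2) 2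
      _ ≤ (l : ℝ) * ∑ h ∈ Icc 1 l, ‖∑ p ∈ GG, U p * F p h‖ ^ 2 := h4
      _ ≤ _ := mul_le_mul_of_nonneg_left h3 hl0.le
  have h9 : (l : ℝ) ^ 2 * (ε ^ 2 * (∑ p ∈ GG, w p) ^ 2) ≤
      (l : ℝ) ^ 2 * ∑ p ∈ GG, ∑ p' ∈ GG, w p * w p' * Kp l m (P p - P p') := by
    calc _ = (l * ε * ∑ p ∈ GG, w p) ^ 2 := by ring
      _ ≤ _ := h8
      _ = _ := by ring
  exact le_of_mul_le_mul_left h9 (by positivity)

end Pool.Agent.VQ
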