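import Mathlib
import Pool.Agent.Lib.VQ.Defs

/-!
# Row PHQ of Theorem VQ (helper55)

`q ^ (1 - η) ≤ E φ(q)`.
-/

set_option autoImplicit false
open Finset

namespace Pool.Agent.VQ

theorem phq : PHQ_stmt := by
  intro η hη
  -- the threshold
  obtain ⟨P0, hP0⟩ : ∃ P0 : ℕ, ∀ p : ℕ, P0 ≤ p → (2 : ℝ) ≤ (p : ℝ) ^ η := by
    have h1 : Filter.Tendsto (fun p : ℕ => (p : ℝ) ^ η) Filter.atTop Filter.atTop :=
      (tendsto_rpow_atTop hη).comp tendsto_natCast_atTop_atTop
    have h2 := h1.eventually_ge_atTop 2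
    exact Filter.eventually_atTop.mp h2
  refine ⟨2 ^ P0, by positivity, fun q hq => ?_⟩
  have hq0 : (0 : ℝ) < q := by exact_mod_cast hq
  have htot : ((Nat.totient q : ℕ) : ℝ) = q * ∏ p ∈ q.primeFactors, (1 - (p : ℝ)⁻¹) := by
    have h := Nat.totient_eq_mul_prod_factors q
    have h2 : (((Nat.totient q : ℕ) : ℚ) : ℝ) =
        ((q * ∏ p ∈ q.primeFactors, (1 - (p : ℚ)⁻¹) : ℚ) : ℝ) := by rw [h]
    push_cast at h2
    exact h2
  -- the lower bound with the number of primes
  have hfac : (1 / 2 : ℝ) ^ (#q.primeFactors) ≤ ∏ p ∈ q.primeFactors, (1 - (p : ℝ)⁻¹) := by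
    rw [← Finset.prod_const]
    apply Finset.prod_le_prod
    · intro i _; norm_num
    · intro p hp
      have hp2 : (2 : ℝ) ≤ p := by exact_mod_cast (Nat.prime_of_mem_primeFactors hp).two_le
      have : (p : ℝ)⁻¹ ≤ 2⁻¹ := inv_anti₀ (by norm_num) hp2
      linarith [this]
  -- the number of primes
  have hom : (2 : ℝ) ^ (#q.primeFactors) ≤ 2 ^ P0 * (q : ℝ) ^ η := by
    have hsplit : #q.primeFactors = #(q.primeFactors.filter (fun p => p < P0)) +
        #(q.primeFactors.filter (fun p => ¬ p < P0)) :=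
      (Finset.card_filter_add_card_filter_not _).symm
    have h1 : #(q.primeFactors.filter (fun p => p < P0)) ≤ P0 := by
      calc #(q.primeFactors.filter (fun p => p < P0)) ≤ #(range P0) := by
            apply Finset.card_le_card
            intro p hp
            rw [mem_filter] at hp
            exact mem_range.mpr hp.2
        _ = P0 := card_range _
    have h2 : (2 : ℝ) ^ #(q.primeFactors.filter (fun p => ¬ p < P0)) ≤ (q : ℝ) ^ η := by
      calc (2 : ℝ) ^ #(q.primeFactors.filter (fun p => ¬ p < P0))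
          = ∏ p ∈ q.primeFactors.filter (fun p => ¬ p < P0), (2 : ℝ) := by
            rw [Finset.prod_const]
        _ ≤ ∏ p ∈ q.primeFactors.filter (fun p => ¬ p < P0), ((p : ℝ) ^ η) := by
            apply Finset.prod_le_prod
            · intro i _; norm_num
            · intro p hp
              rw [mem_filter] at hp
              exact hP0 p (not_lt.mp hp.2)
        _ = (∏ p ∈ q.primeFactors.filter (fun p => ¬ p < P0), (p : ℝ)) ^ η := by
            rw [Real.finsetProd_rpow]
            intro i _; positivity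
        _ ≤ (q : ℝ) ^ η := by
            apply Real.rpow_le_rpow (Finset.prod_nonneg fun i _ => by positivity) _ hη.le
            have h3 : (∏ p ∈ q.primeFactors.filter (fun p => ¬ p < P0), p) ∣ q := by
              refine dvd_trans ?_ (Nat.prod_primeFactors_dvd q)
              exact Finset.prod_dvd_prod_of_subset _ _ _ (Finset.filter_subset _ _)
            have h4 := Nat.le_of_dvd hq h3
            have h5 : ((∏ p ∈ q.primeFactors.filter (fun p => ¬ p < P0), p : ℕ) : ℝ) ≤ q :=
              Nat.cast_le.mpr h4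
            rwa [Nat.cast_prod] at h5
    rw [hsplit, pow_add]
    apply mul_le_mul _ h2 (by positivity) (by positivity)
    exact pow_le_pow_right₀ (by norm_num) h1
  rw [htot]
  have h2w : (0 : ℝ) < 2 ^ (#q.primeFactors) := by positivity
  have hqη : (0 : ℝ) < (q : ℝ) ^ η := Real.rpow_pos_of_pos hq0 _
  calc (q : ℝ) ^ (1 - η) = q / (q : ℝ) ^ η := by
        rw [Real.rpow_sub hq0, Real.rpow_one]
    _ = q * (1 / (q : ℝ) ^ η) := by ring
    _ ≤ q * (2 ^ P0 * (1 / 2) ^ (#q.primeFactors)) := by
        apply mul_le_mul_of_nonneg_left _ hq0.le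
        rw [div_pow, one_pow, mul_one_div, div_le_div_iff₀ hqη h2w, one_mul]
        exact hom
    _ ≤ q * (2 ^ P0 * ∏ p ∈ q.primeFactors, (1 - (p : ℝ)⁻¹)) := by
        apply mul_le_mul_of_nonneg_left _ hq0.le
        exact mul_le_mul_of_nonneg_left hfac (by positivity)
    _ = 2 ^ P0 * (q * ∏ p ∈ q.primeFactors, (1 - (p : ℝ)⁻¹)) := by ring

end Pool.Agent.VQ
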