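import Pool.Agent.Lib.VQ.Defs
import Pool.Agent.Lib.SV.T1

/-!
# Theorem VQ (MP_663568_nt), row TKG: Turán–Kubilius for windows with bounded weights
-/

set_option autoImplicit false
open Finset MeasureTheory

namespace Pool.Agent.VQ

open Pool.Agent.Lib.MP_663568_nt Pool.Agent.Lib.MP_663568_nt.Katai
  Pool.Agent.Lib.MP_663568_nt.Nul Pool.Agent.SV

noncomputable section

theorem norm_zg_le (l y : ℕ) (g : ℕ → ℂ) (hg : ∀ m, ‖g m‖ ≤ 1) : ‖zg l y g‖ ≤ 1 := by
  unfold zg
  rw [norm_div, Complex.norm_natCast]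
  apply div_le_one_of_le₀ _ (Nat.cast_nonneg _)
  refine (norm_sum_le _ _).trans ?_
  calc ∑ m ∈ Ioc y (y + l), ‖muC m * g m‖ ≤ ∑ m ∈ Ioc y (y + l), (1 : ℝ) := by
        refine sum_le_sum fun m _ => ?_
        rw [norm_mul]
        exact mul_le_one₀ (norm_muC _) (norm_nonneg _) (hg m)
    _ = l := by simp

/-- One prime. -/
theorem one_primeG (p : ℕ) (hp : p.Prime) (n X l : ℕ) (hl : 0 < l) (g : ℕ → ℂ)
    (hg : ∀ m, ‖g m‖ ≤ 1) :
    ‖∑ m ∈ Ioc (n / p) ((n + X) / p), g (p * m) * muC m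
      - 1 / p * (∫ t in (n : ℝ)..(n + X), zg l ⌊t / p⌋₊ (fun m => g (p * m)))‖ ≤ 2 * l + 2 := by
  have h1 := T1.smoothC (fun m => g (p * m) * muC m) (fun m => by
    rw [norm_mul]; exact mul_le_one₀ (hg _) (norm_nonneg _) (norm_muC m))
    (n / p) ((n + X) / p) l (Nat.div_le_div_right (by omega)) hl
  have h2 : ∀ j : ℕ, (∑ m ∈ Ioc j (j + l), g (p * m) * muC m) / l = zg l j (fun m => g (p * m)) := by
    intro j
    unfold zg
    congr 1
    refine sum_congr rfl fun m _ => ?_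
    rw [mul_comm]
  simp only [h2] at h1
  have h3 := T1.integralC p hp.pos n X (fun j => zg l j (fun m => g (p * m)))
    (fun j => norm_zg_le _ _ _ (fun m => hg _))
  calc _ = ‖(∑ m ∈ Ioc (n / p) ((n + X) / p), g (p * m) * muC m
        - ∑ j ∈ Ico (n / p) ((n + X) / p), zg l j (fun m => g (p * m)))
        + (∑ j ∈ Ico (n / p) ((n + X) / p), zg l j (fun m => g (p * m))
        - 1 / p * (∫ t in (n : ℝ)..(n + X), zg l ⌊t / p⌋₊ (fun m => g (p * m))))‖ := by
          congr 1; ring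
    _ ≤ _ := (norm_add_le _ _).trans (by linarith)

/-- Row TKG. -/
theorem tkg : TKG_stmt := by
  classical
  intro ε hε
  obtain ⟨K, hK⟩ : ∃ K : ℝ, K = max 3 (max (32 / ε ^ 2) (24 / ε)) := ⟨_, rfl⟩
  have hK3 : 3 ≤ K := by rw [hK]; exact le_max_left _ _
  have hK32 : 32 / ε ^ 2 ≤ K := by rw [hK]; exact (le_max_left _ _).trans (le_max_right _ _)
  have hK24 : 24 / ε ≤ K := by rw [hK]; exact (le_max_right _ _).trans (le_max_right _ _)
  obtain ⟨η, hη⟩ : ∃ η : ℝ, η = min 1 (ε / 8) := ⟨_, rfl⟩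
  have hη0 : 0 < η := by rw [hη]; positivity
  have hη1 : η ≤ 1 := by rw [hη]; exact min_le_left _ _
  have hηε : η ≤ ε / 8 := by rw [hη]; exact min_le_right _ _
  refine ⟨K, η, by linarith, hη0, hη1, fun P Z hP hL X l hX hl hlZ n g hg => ?_⟩
  have hprime : ∀ p ∈ P, p.Prime := fun p hp => (hP p hp).1
  have hge : ∀ p ∈ P, K ≤ (p : ℝ) := fun p hp => (hP p hp).2.1
  have hleZ : ∀ p ∈ P, (p : ℝ) ≤ Z := fun p hp => (hP p hp).2.2
  set L := Ls P with hLd
  have hLp : 0 < L := by linarith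
  have hK0 : 0 < K := by linarith
  have hne : P.Nonempty := by
    rw [nonempty_iff_ne_empty]
    rintro rfl
    rw [hLd, Ls, sum_empty] at hLp
    exact lt_irrefl _ hLp
  obtain ⟨p₀, hp₀⟩ := hne
  have hZK : K ≤ Z := (hge p₀ hp₀).trans (hleZ p₀ hp₀)
  have hZ1 : 1 ≤ Z := by linarith
  have hZ0 : 0 ≤ Z := by linarith
  have hcard : (P.card : ℝ) ≤ Z := by
    have h1 : P ⊆ Icc 1 ⌊Z⌋₊ := by
      intro p hp
      rw [mem_Icc]
      exact ⟨(hprime p hp).one_lt.le, Nat.le_floor (hleZ p hp)⟩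
    have h2 : P.card ≤ ⌊Z⌋₊ := by
      have := card_le_card h1
      rwa [Nat.card_Icc, Nat.add_sub_cancel] at this
    exact (Nat.cast_le.2 h2).trans (Nat.floor_le hZ0)
  have hc0 : (0 : ℝ) ≤ P.card := Nat.cast_nonneg _
  have hZZ : Z ≤ Z ^ 2 := by nlinarith
  have hX0 : (0 : ℝ) < X := by
    have : 0 < K * Z ^ 2 := by positivity
    linarith
  have hcond : (1 + 2 * (P.card : ℝ)) * Z ≤ X := by
    calc (1 + 2 * (P.card : ℝ)) * Z ≤ (Z + 2 * Z) * Z :=
          mul_le_mul_of_nonneg_right (by linarith) hZ0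
      _ = 3 * Z ^ 2 := by ring
      _ ≤ K * Z ^ 2 := mul_le_mul_of_nonneg_right hK3 (by positivity)
      _ ≤ X := hX
  have hl0 : 0 < l := hl
  -- the pointwise inequality
  have hpt := T1.pointwiseC P hprime g hg X n
  have htk := RB.tk P hprime n X Z hleZ hcond
  have hWL : WW P = L := rfl
  rw [hWL] at hpt htk
  set S := ∑ m ∈ Ioc n (n + X), g m * muC m with hSd
  set T : ℕ → ℂ := fun p => ∑ m ∈ Ioc (n / p) ((n + X) / p), g (p * m) * muC m with hT
  set I : ℕ → ℂ := fun p => ∫ t in (n : ℝ)..(n + X), zg l ⌊t / p⌋₊ (fun m => g (p * m)) with hI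
  have h1 : ‖(L : ℂ) * S + ∑ p ∈ P, T p‖ ≤ X * Real.sqrt (2 * L) + (2 * (X / K) * L + 2 * Z) := by
    refine hpt.trans (add_le_add htk ?_)
    have : ∀ p ∈ P, (∑ m ∈ Ioc (n / p) ((n + X) / p), if p ∣ m then (2 : ℝ) else 0) ≤
        2 * (X / K) * (1 / p) + 2 := by
      intro p hp
      have h2 := RB.mult_bound p (hprime p hp) n X
      have hp0 : (0 : ℝ) < p := by exact_mod_cast (hprime p hp).pos
      have h3 : (X : ℝ) / (p * p) ≤ X / K * (1 / p) := by
        rw [div_mul_div_comm, mul_one]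
        apply div_le_div_of_nonneg_left hX0.le (by positivity)
        exact mul_le_mul_of_nonneg_right (hge p hp) hp0.le
      linarith
    refine (sum_le_sum this).trans ?_
    rw [sum_add_distrib, sum_const, nsmul_eq_mul, ← mul_sum]
    have : ∑ p ∈ P, 1 / (p : ℝ) = L := rfl
    rw [this]
    linarith
  have h2 : ‖∑ p ∈ P, (T p - 1 / p * I p)‖ ≤ Z * (2 * l + 2) := by
    refine (norm_sum_le _ _).trans ?_
    refine (sum_le_sum fun p hp => one_primeG p (hprime p hp) n X l hl0 g hg).trans ?_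
    rw [sum_const, nsmul_eq_mul]
    exact mul_le_mul_of_nonneg_right hcard (by positivity)
  have h3 : ‖(L : ℂ) * S + ∑ p ∈ P, 1 / p * I p‖ ≤ ε * (L * X) := by
    have e1 : (L : ℂ) * S + ∑ p ∈ P, 1 / p * I p
        = ((L : ℂ) * S + ∑ p ∈ P, T p) - ∑ p ∈ P, (T p - 1 / p * I p) := by
      rw [sum_sub_distrib]; ring
    rw [e1]
    refine (norm_sub_le _ _).trans ((add_le_add h1 h2).trans ?_)
    have f1 : Real.sqrt (2 * L) ≤ ε / 4 * L := by
      rw [Real.sqrt_le_left (by positivity)]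
      have : 32 ≤ L * ε ^ 2 := by
        have := hK32.trans hL
        rwa [div_le_iff₀ (by positivity)] at this
      nlinarith
    have f2 : 6 * (X / K) ≤ ε / 4 * X := by
      have : 24 ≤ K * ε := by rwa [div_le_iff₀ hε] at hK24
      rw [← mul_div_assoc, div_le_iff₀ hK0]
      nlinarith
    have f3 : Z ≤ X / K := by
      rw [le_div_iff₀ hK0]
      nlinarith
    have f4 : Z * l ≤ ε / 8 * X := by
      have : η * X ≤ ε / 8 * X := mul_le_mul_of_nonneg_right hηε hX0.le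
      linarith [mul_comm (l : ℝ) Z]
    have hL1 : 1 ≤ L := by linarith
    have g1 : X * Real.sqrt (2 * L) ≤ X * (ε / 4 * L) := mul_le_mul_of_nonneg_left f1 hX0.le
    have hXL : (X : ℝ) ≤ L * X := by nlinarith
    have hXK : (0 : ℝ) ≤ X / K := by positivity
    have g2 : X / K ≤ X / K * L := by nlinarith
    have g3 : 6 * (X / K) * L ≤ ε / 4 * X * L := mul_le_mul_of_nonneg_right f2 hLp.le
    have g4 : ε / 4 * X ≤ ε / 4 * (L * X) := mul_le_mul_of_nonneg_left hXL (by positivity)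
    have g5 : Z * (2 * l + 2) ≤ ε / 4 * X + 2 * (X / K) := by
      have : Z * (2 * l + 2) = 2 * (Z * l) + 2 * Z := by ring
      rw [this]
      linarith
    have hLX : 0 ≤ L * X := by positivity
    nlinarith
  have hLc : (L : ℂ) ≠ 0 := by exact_mod_cast hLp.ne'
  have hXc : (X : ℂ) ≠ 0 := by exact_mod_cast hX0.ne'
  have e2 : zg X n g + ∑ p ∈ P, (wt P p : ℂ) * (((1 / X : ℝ) : ℂ) * I p)
      = ((L : ℂ) * S + ∑ p ∈ P, 1 / p * I p) / (L * X) := by
    have e3 : zg X n g = S / X := by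
      unfold zg
      rw [hSd]
      congr 1
      exact sum_congr rfl fun m _ => mul_comm _ _
    rw [e3, add_div, sum_div (s := P)]
    congr 1
    · rw [mul_div_mul_left _ _ hLc]
    · refine sum_congr rfl fun p hp => ?_
      have hp0 : (p : ℂ) ≠ 0 := by exact_mod_cast (hprime p hp).ne_zero
      rw [wt, ← hLd]
      push_cast
      field_simp
  have e4 : ‖((L : ℂ) * X)‖ = L * X := by
    rw [norm_mul, Complex.norm_real, Complex.norm_natCast, Real.norm_of_nonneg hLp.le]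
  rw [e2, norm_div, e4, div_le_iff₀ (by positivity)]
  exact h3

end

end Pool.Agent.VQ
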