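import Pool.Agent.Lib.VQ.Defs

/-!
# Theorem VQ (MP_663568_nt), row WIN: choice of a window
-/

set_option autoImplicit false
open Finset

namespace Pool.Agent.VQ

noncomputable section

theorem sum_windows (f : ℕ → ℝ) (y : ℕ → ℕ) (hy : Monotone y) (n : ℕ) :
    ∑ i ∈ range n, ∑ m ∈ Ioc (y i) (y (i + 1)), f m = ∑ m ∈ Ioc (y 0) (y n), f m := by
  induction n with
  | zero => simp
  | succ n ih =>
    rw [sum_range_succ, ih, sum_Ioc_consecutive _ (hy (Nat.zero_le n)) (hy (Nat.le_succ n))]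

/-- Row WIN. -/
theorem win : WIN_stmt := by
  intro ε xa xb Λ f hxa hΛ hxb hsum
  have hxa0 : 0 < xa := by linarith
  have hxb0 : 0 < xb := lt_of_lt_of_le (by positivity) hxb
  obtain ⟨T, hT⟩ : ∃ T : ℝ, T = Real.log xb - Real.log xa := ⟨_, rfl⟩
  have hTΛ : Λ ≤ T := by
    have h1 : Real.log (xa * Real.exp Λ) ≤ Real.log xb := Real.log_le_log (by positivity) hxb
    rw [Real.log_mul hxa0.ne' (Real.exp_ne_zero _), Real.log_exp] at h1
    rw [hT]; linarith
  have hT0 : 0 < T := by linarith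
  obtain ⟨n, hn⟩ : ∃ n : ℕ, n = ⌊T / Λ⌋₊ := ⟨_, rfl⟩
  have hTd : 1 ≤ T / Λ := by rwa [le_div_iff₀ hΛ, one_mul]
  have hn1 : 1 ≤ n := by rw [hn]; exact Nat.le_floor (by exact_mod_cast hTd)
  have hnr1 : (1 : ℝ) ≤ n := by exact_mod_cast hn1
  have hn0 : (0 : ℝ) < n := by linarith
  have hnle : (n : ℝ) ≤ T / Λ := by rw [hn]; exact Nat.floor_le (by positivity)
  have hnlt : T / Λ < n + 1 := by rw [hn]; exact Nat.lt_floor_add_one _
  obtain ⟨w, hw⟩ : ∃ w : ℝ, w = T / n := ⟨_, rfl⟩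
  have hnw : n * w = T := by rw [hw]; field_simp
  have hw1 : Λ ≤ w := by
    rw [hw, le_div_iff₀ hn0]
    rw [le_div_iff₀ hΛ] at hnle
    linarith [mul_comm Λ (n : ℝ)]
  have hw2 : w ≤ 2 * Λ := by
    rw [hw, div_le_iff₀ hn0]
    rw [div_lt_iff₀ hΛ] at hnlt
    nlinarith
  obtain ⟨y, hy⟩ : ∃ y : ℕ → ℝ, ∀ i, y i = xa * Real.exp (i * w) := ⟨_, fun _ => rfl⟩
  have hw0 : 0 < w := by linarith
  have hypos : ∀ i, 0 < y i := fun i => by rw [hy]; positivity
  have hymono : Monotone y := by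
    intro i j hij
    rw [hy, hy]
    have : (i : ℝ) ≤ j := by exact_mod_cast hij
    gcongr
  have hy0 : y 0 = xa := by rw [hy]; simp
  have hyn : y n = xb := by
    rw [hy, hnw, hT, Real.exp_sub, Real.exp_log hxb0, Real.exp_log hxa0]
    field_simp
  have hlog : ∀ i, Real.log (y i) = Real.log xa + i * w := fun i => by
    rw [hy, Real.log_mul hxa0.ne' (Real.exp_ne_zero _), Real.log_exp]
  have hdiff : ∀ i, Real.log (y (i + 1)) - Real.log (y i) = w := fun i => by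
    rw [hlog, hlog]; push_cast; ring
  have hS := sum_windows (fun m => (1 / (m : ℝ)) * f m) (fun i => ⌊y i⌋₊)
    (fun i j hij => Nat.floor_le_floor (hymono hij)) n
  simp only [hy0, hyn] at hS
  rw [← hS, ← hT, ← hnw] at hsum
  have hex : ∃ i ∈ range n, ε * w < ∑ m ∈ Ioc ⌊y i⌋₊ ⌊y (i + 1)⌋₊, (1 / (m : ℝ)) * f m := by
    by_contra hcon
    push Not at hcon
    have h1 := sum_le_sum hcon
    rw [sum_const, card_range, nsmul_eq_mul] at h1
    have h2 : (n : ℝ) * (ε * w) = ε * (n * w) := by ring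
    linarith
  obtain ⟨i, hi, hlt⟩ := hex
  have hin : i + 1 ≤ n := by
    rw [mem_range] at hi; omega
  refine ⟨y i, y (i + 1), ?_, ?_, ?_, ?_, ?_, ?_⟩
  · rw [← hy0]; exact hymono (Nat.zero_le i)
  · rw [← hyn]; exact hymono hin
  · rw [hdiff]; exact hw1
  · rw [hdiff]; exact hw2
  · have h1 := hdiff i
    by_contra hcon
    push Not at hcon
    have h2 := Real.log_le_log (hypos (i + 1)) hcon
    linarith
  · rw [hdiff]; exact hlt

end

end Pool.Agent.VQ
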