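import Mathlib
import Pool.Agent.Lib.SV.V
import Pool.Agent.Lib.VQ.BAS
import Pool.Agent.Lib.VQ.DESC
import Pool.Agent.Lib.VQ.DIL
import Pool.Agent.Lib.VQ.E1T
import Pool.Agent.Lib.VQ.MET
import Pool.Agent.Lib.VQ.NRT
import Pool.Agent.Lib.VQ.NTB
import Pool.Agent.Lib.VQ.NTT
import Pool.Agent.Lib.VQ.OKQ
import Pool.Agent.Lib.VQ.P0T
import Pool.Agent.Lib.VQ.P12T
import Pool.Agent.Lib.VQ.P3T
import Pool.Agent.Lib.VQ.PAIR
import Pool.Agent.Lib.VQ.PHQ
import Pool.Agent.Lib.VQ.PREC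
import Pool.Agent.Lib.VQ.REC
import Pool.Agent.Lib.VQ.RED
import Pool.Agent.Lib.VQ.RICH
import Pool.Agent.Lib.VQ.STEP
import Pool.Agent.Lib.VQ.SVQ
import Pool.Agent.Lib.VQ.SYA
import Pool.Agent.Lib.VQ.TKG
import Pool.Agent.Lib.VQ.TOR
import Pool.Agent.Lib.VQ.WIN

/-!
# Theorem VQ (MP_663568_nt): the assembly from the rows.  (helper28)
-/

set_option autoImplicit false

namespace Pool.Agent.VQ

open Polynomial Pool.Agent.SV

theorem vw_mono {s t : ℕ} (h : s ≤ t) (ht : VW t) : VW s := by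
  intro A ε hA hε
  obtain ⟨B, H₀, hB, hV⟩ := ht A ε hA hε
  exact ⟨B, H₀, hB, fun H hH xa xb hxa hxb Q hQ => hV H hH xa xb hxa hxb Q
    fun n => (hQ n).trans h⟩

theorem vw_one : VW 1 := bas ra rb rb2 rc core_thm muT rd

/-- Theorem VQ from the rows NTA and SYB. -/
theorem vw_of (hNTA : NTA_stmt) (hSYB : SYB_stmt) : ∀ t, VW t := by
  have hNTT : NTT' := ntt vqrec hNTA sv1 svq nrt phq ntb
  have hE1 : E1T' := e1t (p3t p1t) p2t k2
  have hRI : RICH' := rich j1 j2 k1 k3 p0t hE1 hNTT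
  have hstep := step win tkg dil pair sya (prec vqrec) hSYB okq hRI desc red
  intro t
  induction t with
  | zero => exact vw_mono (by norm_num) vw_one
  | succ t ih =>
    rcases Nat.eq_zero_or_pos t with h | h
    · subst h
      exact vw_one
    · exact hstep (t + 1) (by omega) ih

end Pool.Agent.VQ
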