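import Mathlib
import Pool.Agent.Lib.VQ.Defs

/-!
# Row NTA of Theorem VQ (MP_663568_nt): closed paths of one size
-/

set_option autoImplicit false
open Finset MeasureTheory Polynomial

namespace Pool.Agent.VQ

open Pool.Agent.Lib.MP_663568_nt Pool.Agent.Lib.MP_663568_nt.Katai
  Pool.Agent.Lib.MP_663568_nt.Nul Pool.Agent.SV

namespace NTAx

noncomputable section

/-- Sizes. -/
lemma size (x1 x2 : ℕ) (R : ℝ) (hR : 1 ≤ R) (hx1 : 1 ≤ x1) (hx2 : 1 ≤ x2)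
    (h : |Real.log x1 - Real.log x2| ≤ 1 / R) :
    (x2 : ℝ) * Real.exp (-(1 / R)) ≤ x1 ∧ (x1 : ℝ) ≤ x2 * Real.exp (-(1 / R)) + 3 * x2 / R ∧
      |(x1 : ℝ) - x2| ≤ 2 * x2 / R ∧ (x2 : ℝ) / 3 ≤ x1 ∧ (x1 : ℝ) ≤ 3 * x2 ∧
      1 / 3 ≤ Real.exp (-(1 / R)) ∧ Real.exp (-(1 / R)) ≤ 1 := by
  have h1 : (0 : ℝ) < x1 := by exact_mod_cast hx1
  have h2 : (0 : ℝ) < x2 := by exact_mod_cast hx2
  have hR0 : (0 : ℝ) < R := by linarith
  have hu0 : 0 < 1 / R := by positivity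
  have hu1 : 1 / R ≤ 1 := by rw [div_le_one hR0]; exact hR
  set u := 1 / R with hu
  rw [abs_le] at h
  have e1 : (x1 : ℝ) ≤ x2 * Real.exp u := by
    rw [← Real.exp_log h1]
    calc Real.exp (Real.log x1) ≤ Real.exp (Real.log x2 + u) := Real.exp_le_exp.2 (by linarith)
      _ = x2 * Real.exp u := by rw [Real.exp_add, Real.exp_log h2]
  have e2 : (x2 : ℝ) * Real.exp (-u) ≤ x1 := by
    rw [← Real.exp_log h1]
    calc (x2 : ℝ) * Real.exp (-u) = Real.exp (Real.log x2 + -u) := by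
          rw [Real.exp_add, Real.exp_log h2]
      _ ≤ Real.exp (Real.log x1) := Real.exp_le_exp.2 (by linarith)
  have e3 : Real.exp u ≤ 1 + 2 * u := by
    have := Real.abs_exp_sub_one_le (x := u) (by rw [abs_of_pos hu0]; exact hu1)
    rw [abs_of_pos hu0] at this
    linarith [le_abs_self (Real.exp u - 1)]
  have e4 : 1 - u ≤ Real.exp (-u) := Real.one_sub_le_exp_neg u
  have e5 : Real.exp u ≤ 3 := by
    calc Real.exp u ≤ Real.exp 1 := Real.exp_le_exp.2 hu1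
      _ ≤ 3 := by linarith [Real.exp_one_lt_d9]
  have e6 : 1 / 3 ≤ Real.exp (-u) := by
    rw [Real.exp_neg, ← one_div]
    exact one_div_le_one_div_of_le (Real.exp_pos _) e5
  have e7 : Real.exp (-u) ≤ 1 := by rw [Real.exp_le_one_iff]; linarith
  have e8 : ∀ c : ℝ, c * x2 / R = c * u * x2 := by intro c; rw [hu]; ring
  rw [e8, e8]
  refine ⟨e2, ?_, ?_, ?_, ?_, e6, e7⟩
  · nlinarith
  · rw [abs_le]
    constructor
    · nlinarith
    · nlinarith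
  · nlinarith
  · nlinarith

lemma nd_eq_abs (x : ℝ) (h : |x| < 1 / 2) : nd x = |x| := by
  obtain ⟨n, hn⟩ := nd_exists x
  have h1 := nd_le_half x
  by_cases h0 : n = 0
  · rw [hn, h0]; simp
  · exfalso
    have h2 : (1 : ℝ) ≤ |(n : ℝ)| := by
      have := Int.one_le_abs h0
      exact_mod_cast this
    have h3 : |(n : ℝ)| ≤ |x| + |x - n| := by
      have : (n : ℝ) = x - (x - n) := by ring
      rw [this]
      exact (abs_sub _ _).trans (by simp)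
    rw [← hn] at h3
    linarith

/-- The rational number. -/
lemma rat (t E : ℕ) (ht : 1 ≤ t) (δ ρ Y R θ : ℝ)
    (hE : ∀ (L : ℕ) (P : ℝ[X]), (1 / δ) ^ E ≤ (L : ℝ) → P.natDegree ≤ t →
      δ * L ≤ (#((Icc 1 L).filter fun m : ℕ => nd (P.eval (m : ℝ)) ≤ ρ) : ℝ) →
      ∃ q : ℕ, 1 ≤ q ∧ (q : ℝ) ≤ (1 / δ) ^ E ∧
        ∀ j, 1 ≤ j → j ≤ t → nd ((q : ℝ) * P.coeff j) ≤ (1 / δ) ^ E / (L : ℝ) ^ j)
    (hδ : 0 < δ) (hR : 1 ≤ R) (hY : 12 ≤ Y) (h1 : (1 / δ) ^ E ≤ Y / R)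
    (hYR : 1 ≤ Y / R) (h2 : 4 * t * 2 ^ t * (1 / δ) ^ E * R ^ t ≤ Y)
    (x2 : ℕ) (X1 : Finset ℕ) (hX : ∀ x1 ∈ X1, 1 ≤ x1 ∧ |Real.log x1 - Real.log x2| ≤ 1 / R ∧
      nd (((x1 : ℝ) ^ t - (x2 : ℝ) ^ t) * θ) ≤ ρ) (hx2 : Y ≤ x2) (hx2' : (x2 : ℝ) < 2 * Y)
    (hc : 8 * δ * (Y / R) ≤ #X1) :
    ∃ (q : ℕ) (a : ℤ), 1 ≤ q ∧ (q : ℝ) ≤ (1 / δ) ^ E ∧ IsCoprime (q : ℤ) a ∧
      |θ - a / q| ≤ 4 ^ t * (1 / δ) ^ E * R / Y ^ t := by
  set Λ := (1 / δ) ^ E with hΛ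
  have hΛ0 : 0 < Λ := by positivity
  have hR0 : (0 : ℝ) < R := by linarith
  have hY0 : (0 : ℝ) < Y := by linarith
  have hx2n : 1 ≤ x2 := by
    have : (0 : ℝ) < x2 := by linarith
    exact_mod_cast this
  have hx20 : (0 : ℝ) < x2 := by exact_mod_cast hx2n
  -- the interval
  set s := (x2 : ℝ) * Real.exp (-(1 / R)) with hs
  obtain ⟨-, -, -, -, -, g6, g7⟩ := size x2 x2 R hR hx2n hx2n (by simp; positivity)
  have hs0 : 0 < s := by positivity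
  have hsY : Y / 3 ≤ s := by rw [hs]; nlinarith
  have hsx : s ≤ x2 := by rw [hs]; nlinarith
  have hceil : 1 ≤ ⌈s⌉₊ := Nat.one_le_iff_ne_zero.2 (Nat.ceil_pos.2 hs0).ne'
  obtain ⟨a0, ha0⟩ : ∃ a0, ⌈s⌉₊ = a0 + 1 := ⟨⌈s⌉₊ - 1, by omega⟩
  have ha1 : s ≤ (a0 : ℝ) + 1 := by
    have := Nat.le_ceil s; rw [ha0] at this; exact_mod_cast this
  have ha2 : (a0 : ℝ) < s := by
    have := Nat.ceil_lt_add_one hs0.le
    rw [ha0] at this; push_cast at this; linarith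
  have ha4 : Y / 4 ≤ a0 := by linarith
  have ha00 : (0 : ℝ) < a0 := by linarith
  set L : ℕ := ⌈6 * (Y / R) + 1⌉₊ with hL
  have hL1 : 6 * (Y / R) + 1 ≤ L := Nat.le_ceil _
  have hL2 : (L : ℝ) ≤ 8 * (Y / R) := by
    have := (Nat.ceil_lt_add_one (show 0 ≤ 6 * (Y / R) + 1 by positivity)).le
    rw [← hL] at this; linarith
  have hL0 : (0 : ℝ) < L := by linarith
  have hLY : Y / R ≤ L := by linarith
  set P : ℝ[X] := C θ * ((X + C (a0 : ℝ)) ^ t - C ((x2 : ℝ) ^ t)) with hP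
  have hPe : ∀ m : ℝ, P.eval m = θ * ((m + a0) ^ t - (x2 : ℝ) ^ t) := by intro m; simp [hP]
  have hPd : P.natDegree ≤ t := by
    refine (natDegree_C_mul_le _ _).trans ((natDegree_sub_le _ _).trans (max_le ?_ (by simp)))
    refine natDegree_pow_le.trans ?_
    rw [natDegree_X_add_C, mul_one]
  have hPc : ∀ j, 1 ≤ j → P.coeff j = θ * ((a0 : ℝ) ^ (t - j) * (t.choose j : ℝ)) := by
    intro j hj
    rw [hP, coeff_C_mul, coeff_sub, coeff_X_add_C_pow, coeff_C, if_neg (by omega), sub_zero]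
  have hcount : δ * L ≤ (#((Icc 1 L).filter fun m : ℕ => nd (P.eval (m : ℝ)) ≤ ρ) : ℝ) := by
    have hle : #X1 ≤ #((Icc 1 L).filter fun m : ℕ => nd (P.eval (m : ℝ)) ≤ ρ) := by
      have hb : ∀ x1 ∈ X1, a0 + 1 ≤ x1 := by
        intro x1 hx1
        obtain ⟨c1, c2, c3⟩ := hX x1 hx1
        obtain ⟨d1, d2, -, -, -, -, -⟩ := size x1 x2 R hR c1 hx2n c2
        rw [← ha0]
        exact Nat.ceil_le.2 d1
      apply card_le_card_of_injOn (fun x1 => x1 - a0)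
      · intro x1 hx1
        have hx1' : x1 ∈ X1 := hx1
        obtain ⟨c1, c2, c3⟩ := hX x1 hx1'
        obtain ⟨d1, d2, -, -, -, -, -⟩ := size x1 x2 R hR c1 hx2n c2
        have hb1 := hb x1 hx1'
        simp only [coe_filter, Set.mem_ofPred_eq, mem_Icc]
        have hcast : ((x1 - a0 : ℕ) : ℝ) = (x1 : ℝ) - a0 := by
          rw [Nat.cast_sub (by omega)]
        refine ⟨⟨by omega, ?_⟩, ?_⟩
        · have : ((x1 - a0 : ℕ) : ℝ) ≤ L := by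
            rw [hcast]
            have : 3 * (x2 : ℝ) / R ≤ 6 * (Y / R) := by
              rw [show 6 * (Y / R) = (6 * Y) / R by ring]
              exact div_le_div_of_nonneg_right (by linarith) hR0.le
            linarith
          exact_mod_cast this
        · rw [hPe, hcast, show (x1 : ℝ) - a0 + a0 = x1 by ring, mul_comm]
          exact c3
      · intro x hx y hy hxy
        have hx' := hb x hx
        have hy' := hb y hy
        simp only at hxy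
        omega
    have : (#X1 : ℝ) ≤ #((Icc 1 L).filter fun m : ℕ => nd (P.eval (m : ℝ)) ≤ ρ) := by
      exact_mod_cast hle
    nlinarith
  obtain ⟨q0, hq1, hq2, hq3⟩ := hE L P (h1.trans hLY) hPd hcount
  have hq0 : (0 : ℝ) < q0 := by exact_mod_cast hq1
  -- the coefficients
  have c1 := hq3 t ht le_rfl
  have c2 := hq3 1 le_rfl ht
  rw [hPc t ht, Nat.sub_self, pow_zero, Nat.choose_self, Nat.cast_one, mul_one, mul_one] at c1
  rw [hPc 1 le_rfl, Nat.choose_one_right, pow_one] at c2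
  obtain ⟨a', ha'⟩ := nd_exists ((q0 : ℝ) * θ)
  set ε := (q0 : ℝ) * θ - a' with hε
  rw [ha'] at c1
  have c3 : (q0 : ℝ) * (θ * ((a0 : ℝ) ^ (t - 1) * t)) =
      (((a0 : ℤ) ^ (t - 1) * t * a' : ℤ) : ℝ) + (a0 : ℝ) ^ (t - 1) * t * ε := by
    rw [hε]; push_cast; ring
  rw [c3, nd_int_add] at c2
  obtain ⟨s', rfl⟩ : ∃ s', t = s' + 1 := ⟨t - 1, by omega⟩
  rw [Nat.add_sub_cancel] at c2 c3
  have c4 : |(a0 : ℝ) ^ s' * ((s' + 1 : ℕ) : ℝ) * ε| < 1 / 2 := by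
    rw [abs_mul, abs_of_nonneg (by positivity : (0 : ℝ) ≤ (a0 : ℝ) ^ s' * ((s' + 1 : ℕ) : ℝ))]
    have d1 : (a0 : ℝ) ^ s' ≤ (2 * Y) ^ s' := pow_le_pow_left₀ ha00.le (by linarith) _
    have d2 : |ε| ≤ Λ / (Y / R) ^ (s' + 1) :=
      c1.trans (div_le_div_of_nonneg_left hΛ0.le (by positivity)
        (pow_le_pow_left₀ (by positivity) hLY _))
    have d3 : (2 * Y) ^ s' * ((s' + 1 : ℕ) : ℝ) * (Λ / (Y / R) ^ (s' + 1)) =
        ((s' + 1 : ℕ) : ℝ) * 2 ^ s' * Λ * R ^ (s' + 1) / Y := by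
      rw [div_pow, mul_pow, pow_succ Y s']; field_simp
    have d4 : (4 * ((s' + 1 : ℕ) : ℝ) * 2 ^ (s' + 1) * Λ * R ^ (s' + 1)) =
        8 * (((s' + 1 : ℕ) : ℝ) * 2 ^ s' * Λ * R ^ (s' + 1)) := by ring
    rw [d4] at h2
    calc (a0 : ℝ) ^ s' * ((s' + 1 : ℕ) : ℝ) * |ε|
        ≤ (2 * Y) ^ s' * ((s' + 1 : ℕ) : ℝ) * (Λ / (Y / R) ^ (s' + 1)) := by gcongr
      _ = ((s' + 1 : ℕ) : ℝ) * 2 ^ s' * Λ * R ^ (s' + 1) / Y := d3
      _ < 1 / 2 := by rw [div_lt_div_iff₀ hY0 (by norm_num)]; linarith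
  rw [nd_eq_abs _ c4, abs_mul,
    abs_of_nonneg (by positivity : (0 : ℝ) ≤ (a0 : ℝ) ^ s' * ((s' + 1 : ℕ) : ℝ))] at c2
  have c5 : |ε| ≤ 4 ^ (s' + 1) * Λ * R / Y ^ (s' + 1) := by
    have d1 : (Y / 4) ^ s' ≤ (a0 : ℝ) ^ s' * ((s' + 1 : ℕ) : ℝ) := by
      have e1 : (Y / 4) ^ s' ≤ (a0 : ℝ) ^ s' := pow_le_pow_left₀ (by positivity) ha4 _
      have e2 : (1 : ℝ) ≤ ((s' + 1 : ℕ) : ℝ) := by exact_mod_cast (by omega)
      nlinarith [(by positivity : (0 : ℝ) ≤ (a0 : ℝ) ^ s')]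
    have d2 : (Y / 4) ^ s' * |ε| ≤ Λ / (Y / R) := by
      calc (Y / 4) ^ s' * |ε| ≤ (a0 : ℝ) ^ s' * ((s' + 1 : ℕ) : ℝ) * |ε| := by gcongr
        _ ≤ Λ / (L : ℝ) := c2
        _ ≤ Λ / (Y / R) := div_le_div_of_nonneg_left hΛ0.le (by positivity) hLY
    rw [le_div_iff₀ (by positivity)]
    have d3 : (Y / 4) ^ s' * |ε| * (Y / R) ≤ Λ := by
      rwa [le_div_iff₀ (by positivity)] at d2
    have d4 : |ε| * Y ^ (s' + 1) = 4 ^ s' * R * ((Y / 4) ^ s' * |ε| * (Y / R)) := by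
      rw [div_pow, pow_succ Y s']; field_simp
    rw [d4]
    calc 4 ^ s' * R * ((Y / 4) ^ s' * |ε| * (Y / R)) ≤ 4 ^ s' * R * Λ := by gcongr
      _ ≤ 4 ^ (s' + 1) * Λ * R := by
        have e1 : (0 : ℝ) ≤ 4 ^ s' * R * Λ := by positivity
        have e2 : (4 : ℝ) ^ (s' + 1) * Λ * R = 4 * (4 ^ s' * R * Λ) := by ring
        rw [e2]; linarith
  -- lowest terms
  set r : ℚ := (a' : ℚ) / ((q0 : ℤ) : ℚ) with hr
  have hrR : (a' : ℝ) / q0 = (r.num : ℝ) / r.den := by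
    have e1 : ((r : ℚ) : ℝ) = (a' : ℝ) / q0 := by rw [hr]; push_cast; rfl
    rw [← e1]
    exact_mod_cast congrArg (fun z : ℚ => (z : ℝ)) (Rat.num_div_den r).symm
  have hden : (r.den : ℤ) ∣ (q0 : ℤ) := by
    rw [hr, ← Rat.divInt_eq_div]; exact Rat.den_dvd a' (q0 : ℤ)
  have hden' : r.den ≤ q0 := Nat.le_of_dvd hq1 (by exact_mod_cast hden)
  refine ⟨r.den, r.num, r.den_pos, ?_, ?_, ?_⟩
  · exact le_trans (by exact_mod_cast hden') hq2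
  · rw [isCoprime_comm, Int.isCoprime_iff_gcd_eq_one]
    have := r.reduced
    exact this
  · rw [← hrR]
    have e1 : θ - (a' : ℝ) / q0 = ε / q0 := by rw [hε]; field_simp
    rw [e1, abs_div, abs_of_pos hq0]
    refine le_trans (div_le_self (abs_nonneg _) (by exact_mod_cast hq1)) c5

/-- The difference of two powers. -/
lemma diff (t x1 x2 : ℕ) (ht : 1 ≤ t) (Y R : ℝ) (hR : 1 ≤ R) (hx1 : 1 ≤ x1) (hx2 : 1 ≤ x2)
    (h : |Real.log x1 - Real.log x2| ≤ 1 / R) (hx2' : (x2 : ℝ) < 2 * Y) :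
    |(x1 : ℝ) ^ t - (x2 : ℝ) ^ t| ≤ t * 6 ^ t * Y ^ t / R := by
  have hR0 : (0 : ℝ) < R := by linarith
  obtain ⟨-, -, d3, -, d5, -, -⟩ := size x1 x2 R hR hx1 hx2 h
  have h1 : (0 : ℝ) < x1 := by exact_mod_cast hx1
  have h2 : (0 : ℝ) < x2 := by exact_mod_cast hx2
  have hY : 0 < Y := by linarith
  obtain ⟨s, rfl⟩ : ∃ s, t = s + 1 := ⟨t - 1, by omega⟩
  refine (abs_pow_sub_pow_le (x1 : ℝ) x2 (s + 1)).trans ?_
  rw [abs_of_pos h1, abs_of_pos h2, Nat.add_sub_cancel]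
  have e1 : max (x1 : ℝ) x2 ≤ 6 * Y := max_le (by linarith) (by linarith)
  have e2 : |(x1 : ℝ) - x2| ≤ 4 * Y / R := d3.trans (div_le_div_of_nonneg_right (by linarith) hR0.le)
  calc |(x1 : ℝ) - x2| * ((s + 1 : ℕ) : ℝ) * max (x1 : ℝ) x2 ^ s
      ≤ 4 * Y / R * ((s + 1 : ℕ) : ℝ) * (6 * Y) ^ s := by gcongr
    _ = ((s + 1 : ℕ) : ℝ) * (4 * 6 ^ s) * Y ^ (s + 1) / R := by rw [mul_pow]; ring
    _ ≤ ((s + 1 : ℕ) : ℝ) * 6 ^ (s + 1) * Y ^ (s + 1) / R := by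
      have e3 : (4 : ℝ) * 6 ^ s ≤ 6 ^ (s + 1) := by
        have : (0 : ℝ) ≤ 6 ^ s := by positivity
        rw [pow_succ]; linarith
      gcongr

lemma spread (F : Finset ℕ) (h : 2 ≤ #F) : ∃ x ∈ F, ∃ y ∈ F, #F ≤ x - y + 1 ∧ y < x := by
  have hne : F.Nonempty := card_pos.1 (by omega)
  refine ⟨F.max' hne, F.max'_mem hne, F.min' hne, F.min'_mem hne, ?_⟩
  have h1 : F ⊆ Icc (F.min' hne) (F.max' hne) := fun x hx =>
    mem_Icc.2 ⟨F.min'_le x hx, F.le_max' x hx⟩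
  have h2 := card_le_card h1
  rw [Nat.card_Icc] at h2
  have h3 : F.min' hne ≤ F.max' hne := F.min'_le _ (F.max'_mem hne)
  constructor <;> omega

/-- The improved bound. -/
lemma sharp (t q : ℕ) (a : ℤ) (ht : 1 ≤ t) (δ ρ Y R θ Λ V : ℝ)
    (hδ : 0 < δ) (hρ : 0 ≤ ρ) (hρ1 : ρ ≤ 1) (hR : 1 ≤ R) (hY : 12 ≤ Y) (hΛ : 1 ≤ Λ)
    (hV : V = 5 * t * 24 ^ t * Λ ^ 2) (h4 : V * R ≤ 4 * δ * Y)
    (x2 : ℕ) (X1 : Finset ℕ) (hX : ∀ x1 ∈ X1, 1 ≤ x1 ∧ |Real.log x1 - Real.log x2| ≤ 1 / R ∧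
      nd (((x1 : ℝ) ^ t - (x2 : ℝ) ^ t) * θ) ≤ ρ) (hx2 : Y ≤ x2) (hx2' : (x2 : ℝ) < 2 * Y)
    (hc : 8 * δ * (Y / R) ≤ #X1) (hq : 1 ≤ q) (hqΛ : (q : ℝ) ≤ Λ)
    (hb : |θ - a / q| ≤ 4 ^ t * Λ * R / Y ^ t) :
    |θ - a / q| ≤ ρ * R * V * 3 ^ t / (δ * Y ^ t) := by
  have hR0 : (0 : ℝ) < R := by linarith
  have hY0 : (0 : ℝ) < Y := by linarith
  have hΛ0 : (0 : ℝ) < Λ := by linarith
  have hq0 : (0 : ℝ) < q := by exact_mod_cast hq
  have ht0 : (1 : ℝ) ≤ t := by exact_mod_cast ht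
  have hx2n : 1 ≤ x2 := by
    have : (0 : ℝ) < x2 := by linarith
    exact_mod_cast this
  have h24 : (1 : ℝ) ≤ 24 ^ t := one_le_pow₀ (by norm_num)
  have hb0 : (1 : ℝ) ≤ t * 24 ^ t * Λ ^ 2 := by
    have e1 : (1 : ℝ) ≤ Λ ^ 2 := one_le_pow₀ hΛ
    have e2 : (1 : ℝ) ≤ t * 24 ^ t := by nlinarith
    nlinarith
  have hV0 : 0 < V := by rw [hV]; linarith
  set b := θ - a / q with hb'
  -- the integers
  let j : ℕ → ℤ := fun x => round (((x : ℝ) ^ t - (x2 : ℝ) ^ t) * θ)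
  let n : ℕ → ℤ := fun x => q * j x - ((x : ℤ) ^ t - (x2 : ℤ) ^ t) * a
  have hn1 : ∀ x ∈ X1, |((x : ℝ) ^ t - (x2 : ℝ) ^ t) * b - (n x : ℝ) / q| ≤ ρ := by
    intro x hx
    obtain ⟨-, -, c3⟩ := hX x hx
    have : ((x : ℝ) ^ t - (x2 : ℝ) ^ t) * b - (n x : ℝ) / q =
        ((x : ℝ) ^ t - (x2 : ℝ) ^ t) * θ - (j x : ℝ) := by
      simp only [n, hb']; push_cast; field_simp; ring
    rw [this]
    exact c3
  set Nm : ℕ := ⌊2 * (t * 24 ^ t * Λ ^ 2)⌋₊ with hNm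
  have hNm1 : (Nm : ℝ) ≤ 2 * (t * 24 ^ t * Λ ^ 2) := Nat.floor_le (by positivity)
  have hn2 : ∀ x ∈ X1, n x ∈ Icc (-(Nm : ℤ)) Nm := by
    intro x hx
    obtain ⟨c1, c2, c3⟩ := hX x hx
    have d1 := diff t x x2 ht Y R hR c1 hx2n c2 hx2'
    have d2 := hn1 x hx
    have d3 : |((x : ℝ) ^ t - (x2 : ℝ) ^ t) * b| ≤ t * 24 ^ t * Λ := by
      rw [abs_mul]
      calc |(x : ℝ) ^ t - (x2 : ℝ) ^ t| * |b| ≤ (t * 6 ^ t * Y ^ t / R) * (4 ^ t * Λ * R / Y ^ t) := by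
            gcongr
        _ = t * 24 ^ t * Λ := by
            rw [show (24 : ℝ) = 6 * 4 by norm_num, mul_pow]; field_simp
    have d4 : |(n x : ℝ) / q| ≤ t * 24 ^ t * Λ + 1 := by
      have : (n x : ℝ) / q = ((x : ℝ) ^ t - (x2 : ℝ) ^ t) * b -
          (((x : ℝ) ^ t - (x2 : ℝ) ^ t) * b - (n x : ℝ) / q) := by ring
      rw [this]
      refine (abs_sub _ _).trans ?_
      linarith
    rw [abs_div, abs_of_pos hq0, div_le_iff₀ hq0] at d4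
    have d5 : |(n x : ℝ)| ≤ 2 * (t * 24 ^ t * Λ ^ 2) := by
      refine d4.trans ?_
      calc (t * 24 ^ t * Λ + 1) * (q : ℝ) ≤ (t * 24 ^ t * Λ + 1) * Λ := by gcongr
        _ = t * 24 ^ t * Λ ^ 2 + Λ := by ring
        _ ≤ 2 * (t * 24 ^ t * Λ ^ 2) := by
          have e1 : Λ ≤ Λ ^ 2 := by nlinarith
          have e2 : (1 : ℝ) ≤ t * 24 ^ t := by nlinarith
          nlinarith [mul_le_mul e2 e1 hΛ0.le (by positivity)]
    have d6 : (|n x| : ℤ) ≤ Nm := by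
      have e1 : ((n x).natAbs : ℝ) ≤ 2 * (t * 24 ^ t * Λ ^ 2) := by
        rw [Nat.cast_natAbs]; push_cast; exact d5
      have e2 : (n x).natAbs ≤ Nm := Nat.le_floor e1
      rw [Int.abs_eq_natAbs]; exact_mod_cast e2
    rw [mem_Icc]
    exact abs_le.1 d6
  -- pigeonhole
  have hcardI : (#(Icc (-(Nm : ℤ)) Nm) : ℝ) ≤ V := by
    rw [Int.card_Icc]
    have e1 : ((Nm : ℤ) + 1 - -(Nm : ℤ)).toNat = 2 * Nm + 1 := by omega
    rw [e1, hV]; push_cast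
    linarith
  have hbb : (2 : ℝ) ≤ 8 * δ * (Y / R) / V := by
    rw [le_div_iff₀ hV0, ← mul_div_assoc, le_div_iff₀ hR0]
    linarith
  obtain ⟨n0, -, hF⟩ := exists_le_card_fiber_of_nsmul_le_card_of_maps_to (M := ℝ)
    (s := X1) (t := Icc (-(Nm : ℤ)) Nm) (f := n) (b := 8 * δ * (Y / R) / V) hn2
    ⟨0, by rw [mem_Icc]; omega⟩ (by
      rw [nsmul_eq_mul]
      refine le_trans ?_ hc
      calc (#(Icc (-(Nm : ℤ)) Nm) : ℝ) * (8 * δ * (Y / R) / V) ≤ V * (8 * δ * (Y / R) / V) := by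
            gcongr
        _ = 8 * δ * (Y / R) := by field_simp)
  set F := X1.filter fun x => n x = n0 with hFdef
  have hF2 : 2 ≤ #F := by
    have : (2 : ℝ) ≤ #F := hbb.trans hF
    exact_mod_cast this
  obtain ⟨x, hx, y, hy, hxy, hlt⟩ := spread F hF2
  rw [hFdef, mem_filter] at hx hy
  have e1 := hn1 x hx.1
  have e2 := hn1 y hy.1
  rw [hx.2] at e1
  rw [hy.2] at e2
  have e3 : |((x : ℝ) ^ t - (y : ℝ) ^ t) * b| ≤ 2 * ρ := by
    have : ((x : ℝ) ^ t - (y : ℝ) ^ t) * b = (((x : ℝ) ^ t - (x2 : ℝ) ^ t) * b - (n0 : ℝ) / q) -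
        (((y : ℝ) ^ t - (x2 : ℝ) ^ t) * b - (n0 : ℝ) / q) := by ring
    rw [this]
    refine (abs_sub _ _).trans ?_
    linarith
  obtain ⟨c1, c2, -⟩ := hX y hy.1
  obtain ⟨-, -, -, d4, -, -, -⟩ := size y x2 R hR c1 hx2n c2
  have hy3 : Y / 3 ≤ y := by linarith
  have hy0 : (0 : ℝ) < y := by linarith
  have hxy' : (y : ℝ) < x := by exact_mod_cast hlt
  obtain ⟨s, rfl⟩ : ∃ s, t = s + 1 := ⟨t - 1, by omega⟩
  have e4 : ((x : ℝ) - y) * (Y / 3) ^ s ≤ (x : ℝ) ^ (s + 1) - (y : ℝ) ^ (s + 1) := by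
    have f1 : (Y / 3) ^ s ≤ (y : ℝ) ^ s := pow_le_pow_left₀ (by positivity) hy3 s
    have f2 : (y : ℝ) ^ s ≤ (x : ℝ) ^ s := pow_le_pow_left₀ hy0.le hxy'.le s
    have f3 : (x : ℝ) * (y : ℝ) ^ s ≤ (x : ℝ) ^ (s + 1) := by
      rw [pow_succ, mul_comm]; exact mul_le_mul_of_nonneg_right f2 (by linarith)
    have f4 : ((x : ℝ) - y) * (Y / 3) ^ s ≤ ((x : ℝ) - y) * (y : ℝ) ^ s :=
      mul_le_mul_of_nonneg_left f1 (by linarith)
    have f5 : (y : ℝ) ^ (s + 1) = y * (y : ℝ) ^ s := by rw [pow_succ, mul_comm]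
    rw [f5]; linarith
  have e5 : 4 * δ * Y / (R * V) ≤ (x : ℝ) - y := by
    have f1 : (#F : ℝ) ≤ (x : ℝ) - y + 1 := by
      have : ((x - y : ℕ) : ℝ) = (x : ℝ) - y := Nat.cast_sub hlt.le
      rw [← this]; exact_mod_cast hxy
    have f2 : 4 * δ * Y / (R * V) = (8 * δ * (Y / R) / V) / 2 := by field_simp; ring
    rw [f2]; linarith
  have e6 : 4 * δ * Y / (R * V) * (Y / 3) ^ s * |b| ≤ 2 * ρ := by
    rw [abs_mul] at e3
    refine le_trans ?_ e3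
    apply mul_le_mul_of_nonneg_right _ (abs_nonneg _)
    refine le_trans ?_ (le_abs_self _)
    refine le_trans ?_ e4
    exact mul_le_mul_of_nonneg_right e5 (by positivity)
  rw [le_div_iff₀ (by positivity)]
  have e7 : |b| * (δ * Y ^ (s + 1)) =
      (4 * δ * Y / (R * V) * (Y / 3) ^ s * |b|) * (R * V * 3 ^ s / 4) := by
    rw [div_pow, pow_succ]; field_simp
  rw [e7]
  calc (4 * δ * Y / (R * V) * (Y / 3) ^ s * |b|) * (R * V * 3 ^ s / 4)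
      ≤ 2 * ρ * (R * V * 3 ^ s / 4) := mul_le_mul_of_nonneg_right e6 (by positivity)
    _ = ρ * R * V * 3 ^ s / 2 := by ring
    _ ≤ ρ * R * V * 3 ^ (s + 1) := by
      have f1 : (0 : ℝ) ≤ ρ * R * V * 3 ^ s := by positivity
      have f2 : ρ * R * V * 3 ^ (s + 1) = 3 * (ρ * R * V * 3 ^ s) := by ring
      rw [f2]; linarith

lemma core (t E : ℕ) (ht : 1 ≤ t) (δ ρ Y R θ V : ℝ)
    (hE : ∀ (L : ℕ) (P : ℝ[X]), (1 / δ) ^ E ≤ (L : ℝ) → P.natDegree ≤ t →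
      δ * L ≤ (#((Icc 1 L).filter fun m : ℕ => nd (P.eval (m : ℝ)) ≤ ρ) : ℝ) →
      ∃ q : ℕ, 1 ≤ q ∧ (q : ℝ) ≤ (1 / δ) ^ E ∧
        ∀ j, 1 ≤ j → j ≤ t → nd ((q : ℝ) * P.coeff j) ≤ (1 / δ) ^ E / (L : ℝ) ^ j)
    (hδ : 0 < δ) (hδ1 : δ ≤ 1) (hρ : 0 ≤ ρ) (hR : 1 ≤ R) (hY : 12 ≤ Y)
    (h1 : (1 / δ) ^ E ≤ Y / R) (hV : V = 5 * t * 24 ^ t * ((1 / δ) ^ E) ^ 2)
    (h2 : 4 * t * 2 ^ t * (1 / δ) ^ E * R ^ t ≤ Y) (h4 : V * R ≤ 4 * δ * Y)
    (h5 : 4 * (1 / δ) ^ E * (t * 18 ^ t * V * ρ / δ) ≤ 1)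
    (N : Finset (ℕ × ℕ)) (hN : ∀ x ∈ N, Y ≤ x.2 ∧ (x.2 : ℝ) < 2 * Y ∧ 1 ≤ x.1 ∧
      |Real.log x.1 - Real.log x.2| ≤ 1 / R ∧ nd (((x.1 : ℝ) ^ t - (x.2 : ℝ) ^ t) * θ) ≤ ρ)
    (hcard : 16 * δ * Y * (Y / R) ≤ #N) :
    ∃ (q : ℕ) (a : ℤ), 1 ≤ q ∧ (q : ℝ) ≤ (1 / δ) ^ E ∧
      |(q : ℝ) * θ - a| ≤ (1 / δ) ^ E * (ρ * R * V * 3 ^ t / (δ * Y ^ t)) ∧
      ∀ x ∈ N, (q : ℤ) ∣ (x.1 : ℤ) ^ t - (x.2 : ℤ) ^ t := by
  set Λ := (1 / δ) ^ E with hΛ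
  have hΛ1 : 1 ≤ Λ := one_le_pow₀ (by rw [le_div_iff₀ hδ]; linarith)
  have hΛ0 : 0 < Λ := by linarith
  have hR0 : (0 : ℝ) < R := by linarith
  have hY0 : (0 : ℝ) < Y := by linarith
  have ht0 : (1 : ℝ) ≤ t := by exact_mod_cast ht
  have hYR : 1 ≤ Y / R := hΛ1.trans h1
  have hV1 : 1 ≤ V := by
    have e0 : (1 : ℝ) ≤ 24 ^ t := one_le_pow₀ (by norm_num)
    have e1 : (1 : ℝ) ≤ Λ ^ 2 := one_le_pow₀ hΛ1
    have e2 : (1 : ℝ) ≤ t * 24 ^ t := by nlinarith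
    have e3 : (1 : ℝ) ≤ t * 24 ^ t * Λ ^ 2 := by nlinarith
    rw [hV]; linarith
  have h18 : (1 : ℝ) ≤ 18 ^ t := one_le_pow₀ (by norm_num)
  have hρΛ : 4 * Λ * ρ ≤ 1 := by
    refine le_trans ?_ h5
    apply mul_le_mul_of_nonneg_left _ (by positivity)
    rw [le_div_iff₀ hδ]
    have e1 : (1 : ℝ) ≤ t * 18 ^ t := by nlinarith
    have e2 : (1 : ℝ) ≤ t * 18 ^ t * V := by nlinarith
    calc ρ * δ ≤ ρ * 1 := by gcongr
      _ = 1 * ρ := by ring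
      _ ≤ t * 18 ^ t * V * ρ := by gcongr
  have hρ1 : ρ ≤ 1 := by nlinarith
  -- choice of `x2`
  obtain ⟨x2, hx2, hF⟩ := exists_le_card_fiber_of_nsmul_le_card_of_maps_to (M := ℝ)
    (s := N) (t := Ico ⌈Y⌉₊ ⌈2 * Y⌉₊) (f := Prod.snd) (b := 8 * δ * (Y / R))
    (fun x hx => by
      obtain ⟨c1, c2, -⟩ := hN x hx
      rw [mem_Ico]
      exact ⟨Nat.ceil_le.2 c1, Nat.lt_ceil.2 c2⟩)
    ⟨⌈Y⌉₊, by
      rw [mem_Ico]
      refine ⟨le_rfl, Nat.lt_ceil.2 ?_⟩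
      have := (Nat.ceil_lt_add_one hY0.le).le
      linarith⟩
    (by
      rw [nsmul_eq_mul, Nat.card_Ico]
      refine le_trans ?_ hcard
      have e1 : ((⌈2 * Y⌉₊ - ⌈Y⌉₊ : ℕ) : ℝ) ≤ 2 * Y := by
        rw [Nat.cast_sub (Nat.ceil_mono (by linarith))]
        have := (Nat.ceil_lt_add_one (show 0 ≤ 2 * Y by linarith)).le
        have := Nat.le_ceil Y
        linarith
      calc ((⌈2 * Y⌉₊ - ⌈Y⌉₊ : ℕ) : ℝ) * (8 * δ * (Y / R)) ≤ 2 * Y * (8 * δ * (Y / R)) := by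
            gcongr
        _ = 16 * δ * Y * (Y / R) := by ring)
  rw [mem_Ico] at hx2
  have hx2a : Y ≤ x2 := Nat.ceil_le.1 hx2.1
  have hx2b : (x2 : ℝ) < 2 * Y := Nat.lt_ceil.1 hx2.2
  set X1 := (N.filter fun x => x.2 = x2).image Prod.fst with hX1
  have hX1c : #X1 = #(N.filter fun x => x.2 = x2) := by
    apply card_image_of_injOn
    intro x hx y hy hxy
    have hx' := (mem_filter.1 (mem_coe.1 hx)).2
    have hy' := (mem_filter.1 (mem_coe.1 hy)).2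
    exact Prod.ext hxy (hx'.trans hy'.symm)
  have hc : 8 * δ * (Y / R) ≤ #X1 := by rw [hX1c]; exact hF
  have hX : ∀ x1 ∈ X1, 1 ≤ x1 ∧ |Real.log x1 - Real.log x2| ≤ 1 / R ∧
      nd (((x1 : ℝ) ^ t - (x2 : ℝ) ^ t) * θ) ≤ ρ := by
    intro x1 hx1
    rw [hX1, mem_image] at hx1
    obtain ⟨x, hx, rfl⟩ := hx1
    rw [mem_filter] at hx
    obtain ⟨-, -, c3, c4, c5⟩ := hN x hx.1
    rw [← hx.2]
    exact ⟨c3, c4, c5⟩
  obtain ⟨q, a, hq1, hq2, hcop, hb⟩ := rat t E ht δ ρ Y R θ hE hδ hR hY h1 hYR h2 x2 X1 hX hx2a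
    hx2b hc
  have hq0 : (0 : ℝ) < q := by exact_mod_cast hq1
  have hb2 := sharp t q a ht δ ρ Y R θ Λ V hδ hρ hρ1 hR hY hΛ1 hV h4 x2 X1 hX hx2a hx2b hc hq1
    hq2 hb
  refine ⟨q, a, hq1, hq2, ?_, ?_⟩
  · have e1 : (q : ℝ) * θ - a = q * (θ - a / q) := by field_simp
    rw [e1, abs_mul, abs_of_pos hq0]
    gcongr
  · intro x hx
    obtain ⟨c1, c2, c3, c4, c5⟩ := hN x hx
    have hx2n : 1 ≤ x.2 := by
      have : (0 : ℝ) < x.2 := by linarith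
      exact_mod_cast this
    have d1 := diff t x.1 x.2 ht Y R hR c3 hx2n c4 c2
    have d2 : |((x.1 : ℝ) ^ t - (x.2 : ℝ) ^ t) * (θ - a / q)| ≤ t * 18 ^ t * V * ρ / δ := by
      rw [abs_mul]
      calc |(x.1 : ℝ) ^ t - (x.2 : ℝ) ^ t| * |θ - a / q|
          ≤ (t * 6 ^ t * Y ^ t / R) * (ρ * R * V * 3 ^ t / (δ * Y ^ t)) := by gcongr
        _ = t * 18 ^ t * V * ρ / δ := by
            rw [show (18 : ℝ) = 6 * 3 by norm_num, mul_pow]; field_simp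
    obtain ⟨j, hj⟩ := nd_exists (((x.1 : ℝ) ^ t - (x.2 : ℝ) ^ t) * θ)
    rw [hj] at c5
    have d3 : |((x.1 : ℝ) ^ t - (x.2 : ℝ) ^ t) * (a / q) - j| ≤
        ρ + t * 18 ^ t * V * ρ / δ := by
      have e1 : ((x.1 : ℝ) ^ t - (x.2 : ℝ) ^ t) * (a / q) - j =
          (((x.1 : ℝ) ^ t - (x.2 : ℝ) ^ t) * θ - j) -
            ((x.1 : ℝ) ^ t - (x.2 : ℝ) ^ t) * (θ - a / q) := by ring
      rw [e1]
      refine (abs_sub _ _).trans ?_
      linarith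
    have d4 : |((((x.1 : ℤ) ^ t - (x.2 : ℤ) ^ t) * a - j * q : ℤ) : ℝ)| < 1 := by
      have e1 : ((((x.1 : ℤ) ^ t - (x.2 : ℤ) ^ t) * a - j * q : ℤ) : ℝ) =
          q * (((x.1 : ℝ) ^ t - (x.2 : ℝ) ^ t) * (a / q) - j) := by
        push_cast; field_simp
      rw [e1, abs_mul, abs_of_pos hq0]
      calc (q : ℝ) * |((x.1 : ℝ) ^ t - (x.2 : ℝ) ^ t) * (a / q) - j|
          ≤ Λ * (ρ + t * 18 ^ t * V * ρ / δ) := by gcongr
        _ = (4 * Λ * ρ + 4 * Λ * (t * 18 ^ t * V * ρ / δ)) / 4 := by ring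
        _ < 1 := by linarith
    have d5 : ((x.1 : ℤ) ^ t - (x.2 : ℤ) ^ t) * a - j * q = 0 := by
      have e1 : |((x.1 : ℤ) ^ t - (x.2 : ℤ) ^ t) * a - j * q| < 1 := by exact_mod_cast d4
      exact Int.abs_lt_one_iff.1 e1
    have d6 : (q : ℤ) ∣ ((x.1 : ℤ) ^ t - (x.2 : ℤ) ^ t) * a := ⟨j, by linarith⟩
    exact hcop.dvd_of_dvd_mul_right d6

end

end NTAx

open NTAx in
theorem nta : NTA_stmt := by
  intro hREC t k κ₁ κ₂ A c ht hk hκ₁ hκ hc hA hcon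
  obtain ⟨E, hE1, hE⟩ := hREC t ht
  have hκ₂ : 0 < κ₂ := by linarith
  have hk0 : (1 : ℝ) ≤ k := by exact_mod_cast hk
  have ht0 : (1 : ℝ) ≤ t := by exact_mod_cast ht
  set B4 : ℝ := 4 * k * κ₂ + 1 with hB4
  have hB40 : 0 < B4 := by positivity
  set c' : ℝ := min (c / (3 * B4)) 1 with hc'
  have hc'0 : 0 < c' := lt_min (by positivity) one_pos
  have hc'1 : c' ≤ 1 := min_le_right _ _
  have hc'2 : c' ≤ c / (3 * B4) := min_le_left _ _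
  set C1 : ℝ := 1000 * t ^ 2 * 2592 ^ t * (16 / c') ^ (3 * E + 1) with hC1
  have hC10 : 0 < C1 := by positivity
  have hev : ∀ᶠ H : ℝ in Filter.atTop, C1 * Real.log H ^ (2 * (3 * E + 1)) ≤ H := by
    have h1 := (Real.isLittleO_pow_log_id_atTop (n := 2 * (3 * E + 1))).bound
      (show (0 : ℝ) < 1 / C1 by positivity)
    filter_upwards [h1, Filter.eventually_ge_atTop 1] with H h2 h3
    have h4 : 0 ≤ Real.log H := Real.log_nonneg h3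
    rw [Real.norm_of_nonneg (by positivity), id, Real.norm_of_nonneg (by linarith)] at h2
    rw [div_mul_eq_mul_div, one_mul, le_div_iff₀ hC10] at h2
    linarith
  have hev2 : ∀ᶠ H : ℝ in Filter.atTop, 16 / c' ≤ Real.log H :=
    Real.tendsto_log_atTop.eventually_ge_atTop _
  obtain ⟨H₀, hH₀⟩ := Filter.eventually_atTop.1 (hev.and (hev2.and (Filter.eventually_ge_atTop 24)))
  refine ⟨c', ((3 * E : ℕ) : ℝ), H₀, hc'0, Nat.cast_nonneg _, ?_⟩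
  intro H hH R β M E2 hR hRA hM hE2 hME Nn hNn hsum
  obtain ⟨g1, g2, g3⟩ := hH₀ H hH
  set l := Real.log H with hl
  have hH0 : (0 : ℝ) < H := by linarith
  have hH1 : (1 : ℝ) ≤ H := by linarith
  have hR0 : (0 : ℝ) < R := by linarith
  have hl1 : 1 ≤ l := by
    have : 1 ≤ 16 / c' := by rw [le_div_iff₀ hc'0]; linarith
    linarith
  have hl0 : 0 < l := by linarith
  set δ : ℝ := c' / (16 * l ^ 2) with hδ
  have hδ0 : 0 < δ := by positivity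
  have hl2 : 1 ≤ l ^ 2 := one_le_pow₀ hl1
  have hδ2 : δ ≤ 1 / 16 := by
    rw [hδ, div_le_div_iff₀ (by positivity) (by norm_num)]; linarith
  have hδinv : 1 / δ = 16 / c' * l ^ 2 := by rw [hδ]; field_simp
  have hδi1 : 1 ≤ 1 / δ := by rw [le_div_iff₀ hδ0]; linarith
  set Λ : ℝ := (1 / δ) ^ E with hΛ
  have hΛ1 : 1 ≤ Λ := one_le_pow₀ hδi1
  have hΛ0 : 0 < Λ := by linarith
  have hZ : 1000 * t ^ 2 * 2592 ^ t * (Λ ^ 3 * (1 / δ)) ≤ H := by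
    refine le_trans (le_of_eq ?_) g1
    have : Λ ^ 3 * (1 / δ) = (1 / δ) ^ (3 * E + 1) := by
      rw [hΛ, ← pow_mul, ← pow_succ]; congr 1; ring
    rw [this, hδinv, hC1, mul_pow, ← pow_mul]; ring
  set W : ℝ := Λ ^ 3 * (1 / δ) with hW
  have hW1 : 1 ≤ W := by
    have : (1 : ℝ) ≤ Λ ^ 3 := one_le_pow₀ hΛ1
    exact one_le_mul_of_one_le_of_one_le this hδi1
  have ht2 : (1 : ℝ) ≤ (t : ℝ) ^ 2 := one_le_pow₀ ht0
  have htt : (t : ℝ) ≤ (t : ℝ) ^ 2 := le_self_pow₀ ht0 (by norm_num)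
  have hU1 : ∀ b : ℝ, 1 ≤ b → b ≤ 2592 → b ^ t ≤ t ^ 2 * 2592 ^ t := by
    intro b hb1 hb2
    have e1 : b ^ t ≤ 2592 ^ t := pow_le_pow_left₀ (by linarith) hb2 t
    have e2 : (0 : ℝ) ≤ 2592 ^ t := by positivity
    calc b ^ t ≤ 1 * 2592 ^ t := by rw [one_mul]; exact e1
      _ ≤ t ^ 2 * 2592 ^ t := mul_le_mul_of_nonneg_right ht2 e2
  have hU0 : (1 : ℝ) ≤ t ^ 2 * 2592 ^ t := by
    have := hU1 1 le_rfl (by norm_num)
    rwa [one_pow] at this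
  -- `a * b ≤ H` for all factors
  have hbig : ∀ a : ℝ, 0 ≤ a → a ≤ 1000 * t ^ 2 * 2592 ^ t → a * W ≤ H := by
    intro a _ ha
    refine le_trans ?_ hZ
    exact mul_le_mul_of_nonneg_right ha (by linarith)
  have hp : ∀ b : ℝ, 1 ≤ b → b ≤ 2592 → b ^ t ≤ 2592 ^ t ∧ 1 ≤ b ^ t := fun b hb1 hb2 =>
    ⟨pow_le_pow_left₀ (by linarith) hb2 t, one_le_pow₀ hb1⟩
  have h2592 : (1 : ℝ) ≤ 2592 ^ t := one_le_pow₀ (by norm_num)
  have hΛW : Λ ≤ W := by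
    have e1 : Λ ≤ Λ ^ 3 := le_self_pow₀ hΛ1 (by norm_num)
    exact e1.trans (le_mul_of_one_le_right (by positivity) hδi1)
  have hδW : 1 / δ ≤ W := by
    have e1 : (1 : ℝ) ≤ Λ ^ 3 := one_le_pow₀ hΛ1
    rw [hW]; exact le_mul_of_one_le_left (by positivity) e1
  -- elements
  have hxl : ∀ x ∈ Nn, H ^ (t * A + 1 : ℝ) ≤ x.2 ∧ 1 ≤ x.1 ∧ 1 ≤ x.2 ∧
      (x.2 : ℝ) ≤ H ^ (2 * k * κ₂ : ℝ) := by
    intro x hx
    have hx' := hNn x hx
    have e1 : (H ^ κ₁) ^ (2 * k) = H ^ (2 * k * κ₁ : ℝ) := by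
      rw [← Real.rpow_natCast, ← Real.rpow_mul hH0.le]; push_cast; ring_nf
    have e2 : (H ^ κ₂) ^ (2 * k) = H ^ (2 * k * κ₂ : ℝ) := by
      rw [← Real.rpow_natCast, ← Real.rpow_mul hH0.le]; push_cast; ring_nf
    have e3 : H ^ (t * A + 1 : ℝ) ≤ H ^ (2 * k * κ₁ : ℝ) :=
      Real.rpow_le_rpow_of_exponent_le hH1 hcon
    have e4 : 1 ≤ H ^ (t * A + 1 : ℝ) := Real.one_le_rpow hH1 (by positivity)
    have f1 := hx'.l1
    have f2 := hx'.l2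
    have f3 := hx'.u2
    rw [e1] at f1 f2
    rw [e2] at f3
    refine ⟨e3.trans f2, ?_, ?_, f3⟩
    · have : (1 : ℝ) ≤ x.1 := by linarith
      exact_mod_cast this
    · have : (1 : ℝ) ≤ x.2 := by linarith
      exact_mod_cast this
  -- dyadic pigeonhole
  set I : ℕ := ⌊4 * k * κ₂ * l⌋₊ + 1 with hI
  have hI1 : (I : ℝ) ≤ B4 * l := by
    have := Nat.floor_le (show 0 ≤ 4 * k * κ₂ * l by positivity)
    have e1 : (4 * k * κ₂ + 1) * l = 4 * k * κ₂ * l + l := by ring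
    rw [hI, hB4, e1]; push_cast; linarith
  obtain ⟨i0, -, hi0⟩ := exists_le_sum_fiber_of_maps_to_of_nsmul_le_sum
    (s := Nn) (t := range I) (f := fun x : ℕ × ℕ => Nat.log 2 x.2)
    (w := fun x : ℕ × ℕ => 1 / ((x.1 : ℝ) * x.2)) (b := c / (R * l) / (B4 * l))
    (fun x hx => by
      obtain ⟨-, -, c3, c4⟩ := hxl x hx
      rw [mem_range, hI, Nat.lt_succ_iff]
      apply Nat.le_floor
      have e1 : ((2 : ℝ)) ^ (Nat.log 2 x.2) ≤ x.2 := by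
        exact_mod_cast Nat.pow_log_le_self 2 (by omega)
      have e2 := Real.log_le_log (by positivity) (e1.trans c4)
      rw [Real.log_pow, Real.log_rpow hH0] at e2
      have e3 : (1 : ℝ) / 2 ≤ Real.log 2 := by linarith [Real.log_two_gt_d9]
      have e4 : (0 : ℝ) ≤ (Nat.log 2 x.2 : ℝ) := Nat.cast_nonneg _
      have e5 := mul_le_mul_of_nonneg_left e3 e4
      linarith)
    ⟨0, by rw [mem_range]; omega⟩
    (by
      rw [nsmul_eq_mul, card_range]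
      refine le_trans ?_ hsum
      have e1 : 0 < B4 * l := by positivity
      calc (I : ℝ) * (c / (R * l) / (B4 * l)) ≤ B4 * l * (c / (R * l) / (B4 * l)) := by gcongr
        _ = c / (R * l) := by field_simp)
  set N' := Nn.filter fun x => Nat.log 2 x.2 = i0 with hN'
  set Y : ℝ := 2 ^ i0 with hY
  have hY0 : 0 < Y := by positivity
  have hY1 : 1 ≤ Y := one_le_pow₀ (by norm_num)
  have hN'a : ∀ x ∈ N', Y ≤ x.2 ∧ (x.2 : ℝ) < 2 * Y := by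
    intro x hx
    rw [hN', mem_filter] at hx
    obtain ⟨-, -, c3, -⟩ := hxl x hx.1
    constructor
    · have := Nat.pow_log_le_self 2 (show x.2 ≠ 0 by omega)
      rw [hx.2] at this
      rw [hY]; exact_mod_cast this
    · have := Nat.lt_pow_succ_log_self (b := 2) (by norm_num) x.2
      rw [hx.2, pow_succ] at this
      rw [hY, mul_comm]; exact_mod_cast this
  have hw : ∀ x ∈ N', 1 / ((x.1 : ℝ) * x.2) ≤ 3 / Y ^ 2 := by
    intro x hx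
    obtain ⟨d1, d2⟩ := hN'a x hx
    have hx' := (mem_filter.1 hx).1
    obtain ⟨-, c2, c3, -⟩ := hxl x hx'
    obtain ⟨-, -, -, d4, -, -, -⟩ := size x.1 x.2 R hR c2 c3 (hNn x hx').near
    have e1 : Y / 3 ≤ x.1 := by linarith
    have e2 : (0 : ℝ) < x.1 := by linarith
    have e3 : (0 : ℝ) < x.2 := by linarith
    rw [div_le_div_iff₀ (by positivity) (by positivity)]
    have : Y / 3 * Y ≤ (x.1 : ℝ) * x.2 := mul_le_mul e1 d1 hY0.le e2.le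
    linarith [this, show Y ^ 2 = Y * Y by ring]
  have hcount : c' * Y ^ 2 / (R * l ^ 2) ≤ (#N' : ℝ) := by
    have e1 : c / (R * l) / (B4 * l) ≤ #N' * (3 / Y ^ 2) := by
      refine hi0.trans ((sum_le_sum hw).trans (le_of_eq ?_))
      rw [sum_const, nsmul_eq_mul]
    have e2 : c / (R * l) / (B4 * l) * (Y ^ 2 / 3) ≤ (#N' : ℝ) := by
      calc c / (R * l) / (B4 * l) * (Y ^ 2 / 3) ≤ (#N' : ℝ) * (3 / Y ^ 2) * (Y ^ 2 / 3) := by gcongr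
        _ = (#N' : ℝ) := by field_simp
    refine le_trans ?_ e2
    have e3 : c / (R * l) / (B4 * l) * (Y ^ 2 / 3) = (c / (3 * B4)) * Y ^ 2 / (R * l ^ 2) := by
      field_simp
    rw [e3]
    gcongr
  have hN'ne : N'.Nonempty := by
    rw [← card_pos]
    have : (0 : ℝ) < #N' := lt_of_lt_of_le (by positivity) hcount
    exact_mod_cast this
  obtain ⟨x0, hx0⟩ := hN'ne
  have hx0' := (mem_filter.1 hx0).1
  obtain ⟨s1, s2, s3, s4⟩ := hxl x0 hx0'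
  obtain ⟨s5, s6⟩ := hN'a x0 hx0
  have hRt : R ^ t * H ≤ 2 * Y := by
    have e1 : R ^ t ≤ (H ^ A) ^ t := pow_le_pow_left₀ hR0.le hRA t
    have e2 : (H ^ A) ^ t * H = H ^ (t * A + 1 : ℝ) := by
      rw [Real.rpow_add hH0, Real.rpow_one, ← Real.rpow_natCast (H ^ A), ← Real.rpow_mul hH0.le,
        mul_comm A]
    calc R ^ t * H ≤ (H ^ A) ^ t * H := by gcongr
      _ = H ^ (t * A + 1 : ℝ) := e2
      _ ≤ 2 * Y := by linarith
  have hRt1 : R ≤ R ^ t := le_self_pow₀ hR (by omega)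
  have hRH : R * H ≤ 2 * Y := (mul_le_mul_of_nonneg_right hRt1 hH0.le).trans hRt
  have hYR : H / 2 ≤ Y / R := by
    rw [div_le_div_iff₀ (by norm_num) hR0]; linarith
  have hY12 : 12 ≤ Y := by
    have := le_mul_of_one_le_left hH0.le hR
    linarith
  have hYt : Y ^ t * H ^ 2 * E2 ≤ M := by
    refine le_trans ?_ hME
    have e1 : Y ^ t ≤ H ^ (2 * k * κ₂ * t : ℝ) := by
      rw [Real.rpow_mul hH0.le, Real.rpow_natCast]
      exact pow_le_pow_left₀ hY0.le (s5.trans s4) t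
    have e2 : H ^ (2 * k * κ₂ * t + 2 : ℝ) = H ^ (2 * k * κ₂ * t : ℝ) * H ^ 2 := by
      rw [Real.rpow_add hH0]; norm_num
    rw [e2]
    gcongr
  set ρ : ℝ := 4 * 6 ^ t * Y ^ t * E2 / M with hρ
  have hρ0 : 0 ≤ ρ := by positivity
  have hρH : ρ * H ^ 2 ≤ 4 * 6 ^ t := by
    rw [hρ, div_mul_eq_mul_div, div_le_iff₀ hM]
    calc 4 * 6 ^ t * Y ^ t * E2 * H ^ 2 = 4 * 6 ^ t * (Y ^ t * H ^ 2 * E2) := by ring
      _ ≤ 4 * 6 ^ t * M := by gcongr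
  have hρH' : ρ * H ≤ 4 * 6 ^ t := by
    refine le_trans ?_ hρH
    apply mul_le_mul_of_nonneg_left _ hρ0
    exact le_self_pow₀ hH1 (by norm_num)
  set θ : ℝ := β / M with hθ
  set V : ℝ := 5 * t * 24 ^ t * Λ ^ 2 with hV
  have hρδ : ρ ≤ δ / 100 := by
    -- `400 * 6 ^ t / δ ≤ H`
    obtain ⟨p1, p2⟩ := hp 6 (by norm_num) (by norm_num)
    have e1 : 400 * 6 ^ t * W ≤ H := by
      apply hbig _ (by positivity)
      have := hU1 6 (by norm_num) (by norm_num)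
      linarith
    have e2 : 400 * 6 ^ t * (1 / δ) ≤ H := le_trans (by gcongr) e1
    have e3 : 400 * 6 ^ t ≤ H * δ := by
      rw [mul_one_div, div_le_iff₀ hδ0] at e2; exact e2
    have e4 : 100 * (ρ * H) ≤ H * δ := by linarith
    have e5 : 100 * ρ ≤ δ := le_of_mul_le_mul_right (by linarith) hH0
    linarith
  obtain ⟨q, a, hq1, hq2, hq3, hq4⟩ := core t E ht δ ρ Y R θ V
    (fun L P hL hP hcnt => hE δ ρ L P hδ0 (by linarith) hL hρδ hP hcnt)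
    hδ0 (by linarith) hρ0 hR hY12
    (by
      refine le_trans ?_ hYR
      have e1 : 2 * W ≤ H := hbig 2 (by norm_num) (by linarith)
      linarith)
    hV
    (by
      obtain ⟨p1, p2⟩ := hp 2 (by norm_num) (by norm_num)
      have e1 : (8 * t * 2 ^ t) * W ≤ H := by
        apply hbig _ (by positivity)
        calc 8 * (t : ℝ) * 2 ^ t ≤ 8 * t ^ 2 * 2592 ^ t := by gcongr
          _ ≤ 1000 * t ^ 2 * 2592 ^ t := by linarith
      have e2 : (8 * t * 2 ^ t) * Λ ≤ H := le_trans (by gcongr) e1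
      have e3 : 4 * t * 2 ^ t * Λ * R ^ t * H ≤ Y * H := by
        calc 4 * t * 2 ^ t * Λ * R ^ t * H = (4 * t * 2 ^ t * Λ) * (R ^ t * H) := by ring
          _ ≤ (4 * t * 2 ^ t * Λ) * (2 * Y) := by gcongr
          _ = ((8 * t * 2 ^ t) * Λ) * Y := by ring
          _ ≤ H * Y := by gcongr
          _ = Y * H := by ring
      exact le_of_mul_le_mul_right e3 hH0)
    (by
      obtain ⟨p1, p2⟩ := hp 24 (by norm_num) (by norm_num)
      have e1 : (5 * t * 24 ^ t) * W ≤ H := by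
        apply hbig _ (by positivity)
        calc 5 * (t : ℝ) * 24 ^ t ≤ 5 * t ^ 2 * 2592 ^ t := by gcongr
          _ ≤ 1000 * t ^ 2 * 2592 ^ t := by linarith
      have e2 : V * (1 / δ) ≤ H := by
        refine le_trans ?_ e1
        rw [hV, hW]
        have e0 : Λ ^ 2 ≤ Λ ^ 3 := pow_le_pow_right₀ hΛ1 (by norm_num)
        calc 5 * t * 24 ^ t * Λ ^ 2 * (1 / δ) ≤ 5 * t * 24 ^ t * Λ ^ 3 * (1 / δ) :=
              mul_le_mul_of_nonneg_right (mul_le_mul_of_nonneg_left e0 (by positivity))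
                (by positivity)
          _ = 5 * t * 24 ^ t * (Λ ^ 3 * (1 / δ)) := by ring
      have e3 : V ≤ H * δ := by
        rw [mul_one_div, div_le_iff₀ hδ0] at e2; exact e2
      have e4 : V * R * H ≤ 4 * δ * Y * H := by
        calc V * R * H = V * (R * H) := by ring
          _ ≤ (H * δ) * (2 * Y) := by gcongr
          _ ≤ 4 * δ * Y * H := by
            have f1 : 0 ≤ H * δ * Y := by positivity
            have f2 : (H * δ) * (2 * Y) = 2 * (H * δ * Y) := by ring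
            have f3 : 4 * δ * Y * H = 4 * (H * δ * Y) := by ring
            rw [f2, f3]; linarith
      exact le_of_mul_le_mul_right e4 hH0)
    (by
      have e1 : (80 * t ^ 2 * 2592 ^ t) * W ≤ H := by
        apply hbig _ (by positivity)
        linarith
      have e2 : 4 * Λ * (t * 18 ^ t * V * ρ / δ) * H ≤ (80 * t ^ 2 * 2592 ^ t) * W := by
        calc 4 * Λ * (t * 18 ^ t * V * ρ / δ) * H = (4 * Λ * t * 18 ^ t * V / δ) * (ρ * H) := by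
              ring
          _ ≤ (4 * Λ * t * 18 ^ t * V / δ) * (4 * 6 ^ t) := by gcongr
          _ = (80 * t ^ 2 * 2592 ^ t) * W := by
            rw [hV, hW, show (2592 : ℝ) = 18 * 24 * 6 by norm_num, mul_pow, mul_pow]; ring
      have e3 := e2.trans e1
      exact le_of_mul_le_mul_right (by linarith) hH0)
    N'
    (fun x hx => by
      obtain ⟨d1, d2⟩ := hN'a x hx
      have hx' := (mem_filter.1 hx).1
      obtain ⟨-, c2, c3, -⟩ := hxl x hx'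
      have hC := hNn x hx'
      refine ⟨d1, d2, c2, hC.near, ?_⟩
      obtain ⟨j, hj⟩ := hC.rel
      obtain ⟨-, -, -, -, d5, -, -⟩ := size x.1 x.2 R hR c2 c3 hC.near
      refine (nd_le _ j).trans ?_
      have e1 : ((x.1 : ℝ) ^ t - (x.2 : ℝ) ^ t) * θ - j =
          (((x.1 : ℝ) ^ t - (x.2 : ℝ) ^ t) * β - j * M) / M := by
        rw [hθ]; field_simp
      rw [e1, abs_div, abs_of_pos hM, hρ]
      apply div_le_div_of_nonneg_right _ hM.le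
      refine hj.trans ?_
      have e2 : (x.1 : ℝ) ^ t ≤ 6 ^ t * Y ^ t := by
        rw [← mul_pow]; exact pow_le_pow_left₀ (Nat.cast_nonneg _) (by linarith) t
      have e3 : (x.2 : ℝ) ^ t ≤ 6 ^ t * Y ^ t := by
        rw [← mul_pow]; exact pow_le_pow_left₀ (Nat.cast_nonneg _) (by linarith) t
      calc 2 * ((x.1 : ℝ) ^ t + (x.2 : ℝ) ^ t) * E2
          ≤ 2 * (6 ^ t * Y ^ t + 6 ^ t * Y ^ t) * E2 := by gcongr
        _ = 4 * 6 ^ t * Y ^ t * E2 := by ring)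
    (by
      refine le_trans (le_of_eq ?_) hcount
      rw [hδ]; field_simp)
  refine ⟨q, a, Y, N', filter_subset _ _, hq1, ?_, ?_, ?_, hcount, hY1⟩
  · rw [Real.rpow_natCast]
    refine hq2.trans ?_
    rw [pow_mul]
    apply pow_le_pow_left₀ (by positivity)
    rw [hδinv]
    calc 16 / c' * l ^ 2 ≤ l * l ^ 2 := by gcongr
      _ = l ^ 3 := by ring
  · have e1 : (q : ℝ) * β - a * M = M * (q * θ - a) := by rw [hθ]; field_simp
    rw [e1, abs_mul, abs_of_pos hM]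
    have e2 : (20 * t * 432 ^ t) * W ≤ H := by
      apply hbig _ (by positivity)
      obtain ⟨p1, p2⟩ := hp 432 (by norm_num) (by norm_num)
      calc 20 * (t : ℝ) * 432 ^ t ≤ 20 * t ^ 2 * 2592 ^ t := by gcongr
        _ ≤ 1000 * t ^ 2 * 2592 ^ t := by linarith
    calc M * |(q : ℝ) * θ - a| ≤ M * (Λ * (ρ * R * V * 3 ^ t / (δ * Y ^ t))) := by gcongr
      _ = ((20 * t * 432 ^ t) * W) * R * E2 := by
        rw [hρ, hV, hW, show (432 : ℝ) = 6 * 24 * 3 by norm_num, mul_pow, mul_pow]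
        field_simp
        ring
      _ ≤ H * R * E2 := by gcongr
  · intro x hx
    obtain ⟨d1, d2⟩ := hN'a x hx
    exact ⟨d1, d2, hq4 x hx⟩

end Pool.Agent.VQ
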