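import Pool.Agent.Lib.VQ.SYA

/-!
# Theorem VQ, row SYB: choice of a reference prime in each cell (helper60)
-/

set_option autoImplicit false
open Finset MeasureTheory Polynomial

namespace Pool.Agent.VQ

open Pool.Agent.Lib.MP_663568_nt Pool.Agent.Lib.MP_663568_nt.Katai
  Pool.Agent.Lib.MP_663568_nt.Nul Pool.Agent.SV

namespace SYBx

/-- The first integer of the cell `j`. -/
noncomputable def aj (K j : ℕ) : ℕ := ⌈Real.exp ((j : ℝ) / K)⌉₊

/-- The cell `j`. -/
def Ej (K j : ℕ) : Set ℝ := Set.Ico (Real.log (aj K j)) (Real.log (aj K (j + 1)))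

lemma aj_pos (K j : ℕ) : 1 ≤ aj K j := Nat.ceil_pos.2 (Real.exp_pos _)

lemma aj_pos' (K j : ℕ) : (0 : ℝ) < aj K j := by exact_mod_cast aj_pos K j

lemma aj_mono (K : ℕ) {i j : ℕ} (h : i ≤ j) : aj K i ≤ aj K j := by
  unfold aj
  apply Nat.ceil_le_ceil
  gcongr

lemma log_aj_mono (K : ℕ) {i j : ℕ} (h : i ≤ j) : Real.log (aj K i) ≤ Real.log (aj K j) :=
  Real.log_le_log (aj_pos' K i) (by exact_mod_cast aj_mono K h)

lemma Ej_disj (K : ℕ) {i j : ℕ} (h : i ≠ j) : Disjoint (Ej K i) (Ej K j) := by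
  rw [Set.disjoint_left]
  intro v h1 h2
  rcases lt_or_gt_of_ne h with h3 | h3
  · have := log_aj_mono K (Nat.succ_le_of_lt h3)
    exact absurd (h1.2.trans_le this) (not_lt.2 h2.1)
  · have := log_aj_mono K (Nat.succ_le_of_lt h3)
    exact absurd (h2.2.trans_le this) (not_lt.2 h1.1)

lemma mem_Ej_iff {K j : ℕ} {v : ℝ} :
    v ∈ Ej K j ↔ aj K j ≤ ⌊Real.exp v⌋₊ ∧ ⌊Real.exp v⌋₊ < aj K (j + 1) := by
  have h0 : 0 ≤ Real.exp v := (Real.exp_pos v).le
  rw [Ej, Set.mem_Ico, Real.log_le_iff_le_exp (aj_pos' K j), Real.lt_log_iff_exp_lt (aj_pos' K (j + 1)),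
    Nat.le_floor_iff h0, Nat.floor_lt h0]

lemma cl_iff {K j : ℕ} (hK : 1 ≤ K) {v : ℝ} (hv : 0 ≤ v) : cl K v = j ↔ v ∈ Ej K j := by
  have h1 : 1 ≤ Real.exp v := Real.one_le_exp hv
  have hm : 1 ≤ ⌊Real.exp v⌋₊ := Nat.le_floor (by exact_mod_cast h1)
  have hK0 : (0 : ℝ) < K := by exact_mod_cast hK
  have hm0 : (0 : ℝ) < ⌊Real.exp v⌋₊ := by exact_mod_cast hm
  have hl : 0 ≤ Real.log (⌊Real.exp v⌋₊ : ℝ) := Real.log_natCast_nonneg _
  rw [mem_Ej_iff, cl, Nat.floor_eq_iff (by positivity)]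
  unfold aj
  rw [Nat.ceil_le, Nat.lt_ceil, ← Real.le_log_iff_exp_le hm0, ← Real.log_lt_iff_lt_exp hm0,
    div_le_iff₀ hK0, lt_div_iff₀ hK0, mul_comm (Real.log _)]
  push_cast
  rfl

lemma meas_Ej (K j : ℕ) : MeasurableSet (Ej K j) := measurableSet_Ico

lemma vol_Ej (K j : ℕ) : (volume (Ej K j)).toReal = Real.log (aj K (j + 1)) - Real.log (aj K j) := by
  rw [Ej, Real.volume_Ico, ENNReal.toReal_ofReal]
  have := log_aj_mono K (Nat.le_succ j)
  rw [Nat.succ_eq_add_one] at this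
  linarith

/-- Disjoint parts. -/
lemma sum_part (K J : ℕ) (T : ℕ → Set ℝ) (hT : ∀ j, MeasurableSet (T j)) (hTj : ∀ j, T j ⊆ Ej K j)
    (hfin : ∀ j, volume (T j) ≠ ⊤) :
    (volume (⋃ j ∈ range J, T j)).toReal = ∑ j ∈ range J, (volume (T j)).toReal := by
  rw [measure_biUnion_finset, ENNReal.toReal_sum]
  · intro j _; exact hfin j
  · intro i _ j _ hij
    exact (Ej_disj K hij).mono (hTj i) (hTj j)
  · intro j _; exact hT j

lemma sum_le_vol (K J : ℕ) {a b : ℝ} (hab : a ≤ b) :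
    ∑ j ∈ range J, (volume (Ej K j ∩ Set.Icc a b)).toReal ≤ b - a := by
  rw [← sum_part K J (fun j => Ej K j ∩ Set.Icc a b)]
  · have h1 : (volume (Set.Icc a b)).toReal = b - a := by
      rw [Real.volume_Icc, ENNReal.toReal_ofReal (by linarith)]
    rw [← h1]
    refine ENNReal.toReal_mono (by simp) (measure_mono ?_)
    exact Set.iUnion₂_subset fun j _ => Set.inter_subset_right
  · intro j; exact (meas_Ej K j).inter measurableSet_Icc
  · intro j; exact Set.inter_subset_left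
  · intro j
    exact ne_top_of_le_ne_top (by simp) (measure_mono (Set.inter_subset_right (s := Ej K j)))

lemma exp_third {K : ℕ} (hK : 3 ≤ K) : Real.exp (1 / (K : ℝ)) ≤ 3 / 2 := by
  have h3 : (3 : ℝ) ≤ K := by exact_mod_cast hK
  have h1 : (1 : ℝ) / K ≤ 1 / 3 := one_div_le_one_div_of_le (by norm_num) h3
  refine (Real.exp_le_exp.2 h1).trans ?_
  have h4 : Real.exp (1 / 3) ^ 3 ≤ (3 / 2 : ℝ) ^ 3 := by
    rw [← Real.exp_nat_mul]
    have := Real.exp_one_lt_d9
    norm_num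
    linarith
  exact le_of_pow_le_pow_left₀ (by norm_num) (by norm_num) h4

lemma aj_double {K j : ℕ} (hK : 3 ≤ K) (h : 8 ≤ aj K (j + 1)) :
    (aj K (j + 1) : ℝ) ≤ 2 * Real.exp ((j : ℝ) / K) := by
  have h1 : (aj K (j + 1) : ℝ) ≤ Real.exp (((j + 1 : ℕ) : ℝ) / K) + 1 :=
    (Nat.ceil_lt_add_one (Real.exp_pos _).le).le
  have h2 : Real.exp (((j + 1 : ℕ) : ℝ) / K) = Real.exp ((j : ℝ) / K) * Real.exp (1 / K) := by
    rw [← Real.exp_add]; congr 1; push_cast; ring
  have h3 := exp_third hK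
  have h4 : (8 : ℝ) ≤ aj K (j + 1) := by exact_mod_cast h
  have h5 : 0 < Real.exp ((j : ℝ) / K) := Real.exp_pos _
  rw [h2] at h1
  nlinarith

lemma le_aj (K j : ℕ) : Real.exp ((j : ℝ) / K) ≤ aj K j := Nat.le_ceil _

/-- Length of a cell. -/
lemma len_ge (K j : ℕ) :
    Real.exp ((j : ℝ) / K) / K - 1 ≤ (aj K (j + 1) : ℝ) - aj K j := by
  have h1 : (aj K j : ℝ) ≤ Real.exp ((j : ℝ) / K) + 1 :=
    (Nat.ceil_lt_add_one (Real.exp_pos _).le).le
  have h2 := le_aj K (j + 1)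
  have h3 : Real.exp (((j + 1 : ℕ) : ℝ) / K) = Real.exp ((j : ℝ) / K) * Real.exp (1 / K) := by
    rw [← Real.exp_add]; congr 1; push_cast; ring
  have h4 : 1 + 1 / (K : ℝ) ≤ Real.exp (1 / K) := by
    have := Real.add_one_le_exp (1 / (K : ℝ)); linarith
  have h5 : 0 < Real.exp ((j : ℝ) / K) := Real.exp_pos _
  rw [h3] at h2
  have h6 : Real.exp ((j : ℝ) / K) * (1 + 1 / K) ≤ Real.exp ((j : ℝ) / K) * Real.exp (1 / K) := by
    gcongr
  have h7 : Real.exp ((j : ℝ) / K) * (1 + 1 / K) = Real.exp ((j : ℝ) / K) +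
    Real.exp ((j : ℝ) / K) / K := by ring
  linarith


/-- Many integers of a cell. -/
lemma count_cell {K j l : ℕ} {Δ : ℝ[X]} {c c₁ : ℝ} {N : Set ℝ} (hK : 3 ≤ K)
    (h8 : 8 ≤ aj K (j + 1)) (hN : N ⊆ Ej K j) (hc₁ : 0 ≤ c₁)
    (hK1 : ∀ v ∈ N, c ≤ Kp l ⌊Real.exp v⌋₊ Δ)
    (hvol : c₁ * (Real.log (aj K (j + 1)) - Real.log (aj K j)) ≤ (volume N).toReal) :
    c₁ / 2 * ((aj K (j + 1) - aj K j : ℕ) : ℝ) ≤
      (by classical exact (#((Ico (aj K j) (aj K j + (aj K (j + 1) - aj K j))).filter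
        fun m : ℕ => c ≤ Kp l m Δ) : ℝ)) := by
  classical
  set S := (Ico (aj K j) (aj K j + (aj K (j + 1) - aj K j))).filter fun m : ℕ => c ≤ Kp l m Δ with hS
  have hmono : aj K j ≤ aj K (j + 1) := aj_mono K (Nat.le_succ j)
  have ha0 := aj_pos' K j
  have ha1 := aj_pos' K (j + 1)
  have hsub : N ⊆ ⋃ m ∈ S, Set.Ico (Real.log m) (Real.log ((m : ℝ) + 1)) := by
    intro v hv
    have h1 := mem_Ej_iff.1 (hN hv)
    have h2 : 1 ≤ ⌊Real.exp v⌋₊ := (aj_pos K j).trans h1.1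
    have hm0 : (0 : ℝ) < ⌊Real.exp v⌋₊ := by exact_mod_cast h2
    rw [Set.mem_iUnion₂]
    refine ⟨⌊Real.exp v⌋₊, ?_, ?_⟩
    · rw [hS, mem_filter, mem_Ico]
      exact ⟨⟨h1.1, by omega⟩, hK1 v hv⟩
    · rw [Set.mem_Ico, Real.log_le_iff_le_exp hm0, Real.lt_log_iff_exp_lt (by positivity)]
      exact ⟨Nat.floor_le (Real.exp_pos _).le, Nat.lt_floor_add_one _⟩
  have hv1 : (volume N).toReal ≤ #S / (aj K j : ℝ) := by
    have h1 : volume N ≤ ENNReal.ofReal (#S / (aj K j : ℝ)) := by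
      refine (measure_mono hsub).trans ((measure_biUnion_finset_le _ _).trans ?_)
      have h2 : ∀ m ∈ S, volume (Set.Ico (Real.log m) (Real.log ((m : ℝ) + 1))) ≤
          ENNReal.ofReal (1 / (aj K j : ℝ)) := by
        intro m hm
        rw [Real.volume_Ico]
        apply ENNReal.ofReal_le_ofReal
        have h3 : aj K j ≤ m := (mem_Ico.1 (mem_filter.1 hm).1).1
        have h4 : (aj K j : ℝ) ≤ m := by exact_mod_cast h3
        have hm0 : (0 : ℝ) < m := by linarith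
        have h5 : Real.log (((m : ℝ) + 1) / m) ≤ ((m : ℝ) + 1) / m - 1 :=
          Real.log_le_sub_one_of_pos (by positivity)
        rw [Real.log_div (by positivity) hm0.ne'] at h5
        have h6 : ((m : ℝ) + 1) / m - 1 = 1 / m := by field_simp; ring
        rw [h6] at h5
        exact h5.trans (one_div_le_one_div_of_le ha0 h4)
      refine (sum_le_sum h2).trans ?_
      rw [sum_const, nsmul_eq_mul, ← ENNReal.ofReal_natCast, ← ENNReal.ofReal_mul (Nat.cast_nonneg _)]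
      apply ENNReal.ofReal_le_ofReal
      rw [mul_one_div]
    exact ENNReal.toReal_le_of_le_ofReal (by positivity) h1
  have h2 : ((aj K (j + 1) - aj K j : ℕ) : ℝ) = (aj K (j + 1) : ℝ) - aj K j := Nat.cast_sub hmono
  have h3 : (aj K (j + 1) : ℝ) ≤ 2 * aj K j := by
    have := aj_double hK h8
    have := le_aj K j
    linarith
  have h4 : 1 - (aj K j : ℝ) / aj K (j + 1) ≤ Real.log (aj K (j + 1)) - Real.log (aj K j) := by
    have h5 : Real.log ((aj K j : ℝ) / aj K (j + 1)) ≤ (aj K j : ℝ) / aj K (j + 1) - 1 :=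
      Real.log_le_sub_one_of_pos (by positivity)
    rw [Real.log_div ha0.ne' ha1.ne'] at h5
    linarith
  have h5 : ((aj K (j + 1) : ℝ) - aj K j) / (2 * aj K j) ≤ 1 - (aj K j : ℝ) / aj K (j + 1) := by
    rw [one_sub_div ha1.ne', div_le_div_iff₀ (by positivity) ha1]
    have h6 : (0 : ℝ) ≤ (aj K (j + 1) : ℝ) - aj K j := by
      have : (aj K j : ℝ) ≤ aj K (j + 1) := by exact_mod_cast hmono
      linarith
    gcongr
  have h6 : c₁ * (((aj K (j + 1) : ℝ) - aj K j) / (2 * aj K j)) ≤ #S / (aj K j : ℝ) := by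
    refine le_trans ?_ (hvol.trans hv1)
    gcongr
    exact h5.trans h4
  rw [h2]
  have h7 : c₁ / 2 * ((aj K (j + 1) : ℝ) - aj K j) =
      c₁ * (((aj K (j + 1) : ℝ) - aj K j) / (2 * aj K j)) * aj K j := by
    field_simp
  rw [h7]
  calc c₁ * (((aj K (j + 1) : ℝ) - aj K j) / (2 * aj K j)) * aj K j ≤ #S / (aj K j : ℝ) * aj K j := by
        gcongr
    _ = #S := by field_simp

/-- The measure of a set in terms of the cells. -/
lemma vol_le_sum {K J : ℕ} (hK : 1 ≤ K) {N : Set ℝ} (hJ : ∀ v ∈ N, 0 ≤ v ∧ cl K v < J)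
    (hfin : ∀ j, volume (N ∩ Ej K j) ≠ ⊤) :
    (volume N).toReal ≤ ∑ j ∈ range J, (volume (N ∩ Ej K j)).toReal := by
  rw [← ENNReal.toReal_sum fun j _ => hfin j]
  refine ENNReal.toReal_mono ?_ ((measure_mono ?_).trans (measure_biUnion_finset_le _ _))
  · exact ENNReal.sum_ne_top.2 fun j _ => hfin j
  · intro v hv
    rw [Set.mem_iUnion₂]
    obtain ⟨h1, h2⟩ := hJ v hv
    exact ⟨cl K v, mem_range.2 h2, hv, (cl_iff hK h1).1 rfl⟩

/-- The abstract choice of the reference primes. `α j p p'` are the measures, `μ j` the measures of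
the cells, `Rel` the relation. -/
lemma choice (PP : Finset ℕ) (w : ℕ → ℝ) (hw : ∀ p, 0 ≤ w p) (hw1 : ∑ p ∈ PP, w p = 1)
    (J : ℕ) (α : ℕ → ℕ → ℕ → ℝ) (μ : ℕ → ℝ) (Rel : ℕ → ℕ → ℕ → Prop) {c Λ T : ℝ} (hc : 0 ≤ c)
    (h1 : ∀ j, ∀ p ∈ PP, ∀ p' ∈ PP, ¬ Rel j p p' → α j p p' ≤ c / 4 * μ j)
    (h2 : ∑ j ∈ range J, μ j ≤ T) (hT : T ≤ 2 * Λ)
    (h3 : c * Λ ≤ ∑ p ∈ PP, ∑ p' ∈ PP, w p * w p' * ∑ j ∈ range J, α j p p')
    (hμ : ∀ j, 0 ≤ μ j) :
    ∃ p0 : ℕ → ℕ, (∀ j, p0 j ∈ PP) ∧ c / 2 * Λ ≤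
      ∑ p ∈ PP, w p * ∑ j ∈ range J, (by classical exact if Rel j p (p0 j) then α j p (p0 j) else 0) := by
  classical
  have hne : PP.Nonempty := by
    by_contra h
    rw [not_nonempty_iff_eq_empty.1 h, sum_empty] at hw1
    norm_num at hw1
  set f : ℕ → ℕ → ℝ := fun j p' => ∑ p ∈ PP, w p * (if Rel j p p' then α j p p' else 0) with hf
  have hmax : ∀ j, ∃ p0 ∈ PP, ∀ p' ∈ PP, f j p' ≤ f j p0 := fun j => exists_max_image PP (f j) hne
  choose p0 hp0 hp0m using hmax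
  refine ⟨p0, hp0, ?_⟩
  have e1 : ∑ p ∈ PP, w p * ∑ j ∈ range J, (if Rel j p (p0 j) then α j p (p0 j) else 0) =
      ∑ j ∈ range J, f j (p0 j) := by
    simp_rw [hf, mul_sum]
    exact sum_comm
  rw [e1]
  have e2 : ∀ j, ∑ p' ∈ PP, w p' * f j p' ≤ f j (p0 j) := by
    intro j
    calc ∑ p' ∈ PP, w p' * f j p' ≤ ∑ p' ∈ PP, w p' * f j (p0 j) := by
          refine sum_le_sum fun p' hp' => ?_
          have := hp0m j p' hp'
          have := hw p'
          gcongr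
      _ = f j (p0 j) := by rw [← sum_mul, hw1, one_mul]
  set g : ℕ → ℕ → ℕ → ℝ := fun j p p' => if Rel j p p' then α j p p' else 0 with hg
  have e3 : ∑ p ∈ PP, ∑ p' ∈ PP, w p * w p' * ∑ j ∈ range J, g j p p' =
      ∑ j ∈ range J, ∑ p' ∈ PP, w p' * f j p' := by
    calc ∑ p ∈ PP, ∑ p' ∈ PP, w p * w p' * ∑ j ∈ range J, g j p p' =
          ∑ p' ∈ PP, ∑ p ∈ PP, ∑ j ∈ range J, w p * w p' * g j p p' := by
          simp_rw [mul_sum]
          exact sum_comm
      _ = ∑ p' ∈ PP, ∑ j ∈ range J, ∑ p ∈ PP, w p * w p' * g j p p' :=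
          sum_congr rfl fun p' _ => sum_comm
      _ = ∑ j ∈ range J, ∑ p' ∈ PP, ∑ p ∈ PP, w p * w p' * g j p p' := sum_comm
      _ = ∑ j ∈ range J, ∑ p' ∈ PP, w p' * f j p' := by
          refine sum_congr rfl fun j _ => sum_congr rfl fun p' _ => ?_
          rw [hf, mul_sum]
          refine sum_congr rfl fun p _ => ?_
          rw [hg]
          ring
  have e4 : ∑ p ∈ PP, ∑ p' ∈ PP, w p * w p' * ∑ j ∈ range J, α j p p' ≤
      ∑ p ∈ PP, ∑ p' ∈ PP, (w p * w p' * ∑ j ∈ range J, g j p p' + w p * w p' * (c / 4 * T)) := by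
    refine sum_le_sum fun p hp => sum_le_sum fun p' hp' => ?_
    rw [← mul_add]
    have hww : 0 ≤ w p * w p' := mul_nonneg (hw p) (hw p')
    refine mul_le_mul_of_nonneg_left ?_ hww
    have h5 : ∑ j ∈ range J, α j p p' ≤ ∑ j ∈ range J, (g j p p' + c / 4 * μ j) := by
      refine sum_le_sum fun j _ => ?_
      rw [hg]
      by_cases hr : Rel j p p'
      · simp only [hr, if_true]
        have := hμ j
        have : 0 ≤ c / 4 * μ j := by positivity
        linarith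
      · simp only [hr, if_false, zero_add]
        exact h1 j p hp p' hp' hr
    rw [sum_add_distrib, ← mul_sum] at h5
    have h6 : c / 4 * ∑ j ∈ range J, μ j ≤ c / 4 * T := by gcongr
    linarith
  have e5 : ∑ p ∈ PP, ∑ p' ∈ PP, (w p * w p' * ∑ j ∈ range J, g j p p' + w p * w p' * (c / 4 * T)) =
      ∑ p ∈ PP, ∑ p' ∈ PP, w p * w p' * ∑ j ∈ range J, g j p p' + c / 4 * T := by
    simp_rw [sum_add_distrib]
    congr 1
    simp_rw [← sum_mul, ← mul_sum, hw1, mul_one]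
    rw [hw1, one_mul]
  have e6 : ∑ j ∈ range J, ∑ p' ∈ PP, w p' * f j p' ≤ ∑ j ∈ range J, f j (p0 j) :=
    sum_le_sum fun j _ => e2 j
  have e7 : c / 4 * T ≤ c / 4 * (2 * Λ) := by gcongr
  rw [e5, e3] at e4
  linarith

lemma cell_facts {K j : ℕ} (hK : 3 ≤ K) {v : ℝ} (hv : 8 ≤ Real.exp v) (h : v ∈ Ej K j) :
    8 ≤ aj K (j + 1) ∧ Real.exp v ≤ 2 * Real.exp ((j : ℝ) / K) ∧
      Real.log (aj K (j + 1)) ≤ Real.log (aj K j) + 1 := by
  have h1 : Real.exp v < aj K (j + 1) := (Real.lt_log_iff_exp_lt (aj_pos' K (j + 1))).1 h.2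
  have h8 : 8 ≤ aj K (j + 1) := by
    have : (8 : ℝ) ≤ aj K (j + 1) := by linarith
    exact_mod_cast this
  have h2 := aj_double hK h8
  refine ⟨h8, by linarith, ?_⟩
  have h3 := le_aj K j
  have h4 : (aj K (j + 1) : ℝ) ≤ Real.exp 1 * aj K j := by
    have := Real.exp_one_gt_d9
    nlinarith [aj_pos' K j]
  have h5 := Real.log_le_log (aj_pos' K (j + 1)) h4
  rw [Real.log_mul (Real.exp_pos 1).ne' (aj_pos' K j).ne', Real.log_exp] at h5
  linarith

lemma cl_lt {K : ℕ} {v b : ℝ} (hv : 0 ≤ v) (hb : v ≤ b) : cl K v < ⌊(K : ℝ) * b⌋₊ + 1 := by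
  rw [Nat.lt_succ_iff, cl]
  apply Nat.floor_le_floor
  have h1 : 1 ≤ Real.exp v := Real.one_le_exp hv
  have hm : 1 ≤ ⌊Real.exp v⌋₊ := Nat.le_floor (by exact_mod_cast h1)
  have hm0 : (0 : ℝ) < ⌊Real.exp v⌋₊ := by exact_mod_cast hm
  have h2 : Real.log (⌊Real.exp v⌋₊ : ℝ) ≤ v :=
    (Real.log_le_iff_le_exp hm0).2 (Nat.floor_le (Real.exp_pos v).le)
  have h3 := h2.trans hb
  gcongr

lemma deg_Pp {Q : ℕ → ℝ[X]} {t : ℕ} (hQ : ∀ n, (Q n).natDegree ≤ t) (p : ℕ) (v : ℝ) :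
    (Pp Q p v).natDegree ≤ t := by
  unfold Pp
  refine natDegree_comp_le.trans ?_
  have h1 : (C (p : ℝ) * X : ℝ[X]).natDegree ≤ 1 := (natDegree_C_mul_le _ _).trans natDegree_X_le
  calc _ ≤ (Q ⌊(p : ℝ) * Real.exp v⌋₊).natDegree * 1 := Nat.mul_le_mul_left _ h1
    _ ≤ t := by rw [mul_one]; exact hQ _

lemma coeff_Pp (Q : ℕ → ℝ[X]) (t p : ℕ) (v : ℝ) :
    (Pp Q p v).coeff t = (Q ⌊(p : ℝ) * Real.exp v⌋₊).coeff t * (p : ℝ) ^ t := by
  unfold Pp
  rw [comp_C_mul_X_coeff]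

lemma bound_err {t : ℕ} (ht : 2 ≤ t) {A H E L xa : ℝ} (hH : 1 ≤ H) (hA : 0 ≤ A) (hE : E ≤ H)
    (hxa : 0 < xa) (hL0 : 0 < L) (hL : xa ≤ L * (H ^ A * H ^ 2)) :
    E / L ^ (t - 1) ≤ H ^ ((A + 3) * t) / xa ^ (t - 1) := by
  have hH0 : 0 < H := by linarith
  have hX1 : 1 ≤ H ^ A * H ^ 2 := by
    have h1 := Real.one_le_rpow hH hA
    have h2 : (1 : ℝ) ≤ H ^ 2 := one_le_pow₀ hH
    nlinarith
  have e1 : H ^ ((A + 3) * t) = (H ^ A * H ^ 2 * H) ^ t := by
    rw [Real.rpow_mul_natCast hH0.le, Real.rpow_add hH0, show (3 : ℝ) = ((3 : ℕ) : ℝ) by norm_num,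
      Real.rpow_natCast]
    ring
  rw [e1, div_le_div_iff₀ (by positivity) (by positivity)]
  set Z := H ^ A * H ^ 2 with hZ
  calc E * xa ^ (t - 1) ≤ H * (L * Z) ^ (t - 1) := by gcongr
    _ = H * Z ^ (t - 1) * L ^ (t - 1) := by rw [mul_pow L Z]; ring
    _ ≤ (Z * H) ^ t * L ^ (t - 1) := by
        have h3 : H ≤ H ^ t := by
          calc H = H ^ 1 := (pow_one H).symm
            _ ≤ H ^ t := pow_le_pow_right₀ hH (by omega)
        have h4 : Z ^ (t - 1) ≤ Z ^ t := pow_le_pow_right₀ hX1 (by omega)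
        rw [mul_pow Z H]
        calc H * Z ^ (t - 1) * L ^ (t - 1) = (Z ^ (t - 1) * H) * L ^ (t - 1) := by ring
          _ ≤ (Z ^ t * H ^ t) * L ^ (t - 1) := by gcongr

end SYBx

open SYBx SYAx in
/-- **Row SYB.** -/
theorem syb : SYB_stmt := by
  classical
  intro hPREC t A κ₁ κ₂ e c ht hA hκ₁ hκ hκ₂ he hc hc1
  obtain ⟨Q₂, n₀, E, hQ₂, hE, hP⟩ := hPREC t (c / 8) ht (by positivity) (by linarith)
  have ht2 : (2 : ℝ) ≤ t := by exact_mod_cast ht
  refine ⟨c / 2, (A + 3) * t, Q₂, (n₀ + 3) ^ 2 + ⌈E⌉₊ + 3000, by positivity, by linarith,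
    by positivity, hQ₂, ?_⟩
  intro H hH hLs xa xb hxa hxab _ Q hQ l K hl1 _ hK hmeas hsum
  obtain ⟨PP, hPP⟩ : ∃ PP : Finset ℕ, PP = PPs H κ₁ κ₂ := ⟨_, rfl⟩
  rw [← hPP] at hsum hLs ⊢
  -- the size of `H`
  have hHr : (((n₀ + 3) ^ 2 + ⌈E⌉₊ + 3000 : ℕ) : ℝ) ≤ H := by exact_mod_cast hH
  push_cast at hHr
  have hn00 : (0 : ℝ) ≤ n₀ := Nat.cast_nonneg _
  have hE' : E ≤ ⌈E⌉₊ := Nat.le_ceil _
  have hH3000 : (3000 : ℝ) ≤ H := by nlinarith [sq_nonneg ((n₀ : ℝ) + 3)]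
  have hHE : E ≤ H := by nlinarith [sq_nonneg ((n₀ : ℝ) + 3)]
  have hHn : ((n₀ : ℝ) + 3) ^ 2 ≤ H := by linarith
  have hH0 : (0 : ℝ) < H := by linarith
  have hH1 : (1 : ℝ) ≤ H := by linarith
  have hlH : 8 ≤ Real.log H := by
    rw [Real.le_log_iff_exp_le hH0]
    have h1 := Real.exp_one_lt_d9
    have h2 : Real.exp 8 = Real.exp 1 ^ 8 := by rw [← Real.exp_nat_mul]; norm_num
    rw [h2]
    calc Real.exp 1 ^ 8 ≤ (2.7182818286 : ℝ) ^ 8 := by gcongr
      _ ≤ 3000 := by norm_num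
      _ ≤ H := hH3000
  set s : ℝ := Real.sqrt H with hs
  have hs0 : 0 < s := Real.sqrt_pos.2 hH0
  have hss : s * s = H := Real.mul_self_sqrt hH0.le
  have hs50 : 50 ≤ s := by
    rw [hs]; exact Real.le_sqrt_of_sq_le (by linarith)
  have hsn : (n₀ : ℝ) + 3 ≤ s := by rw [hs]; exact Real.le_sqrt_of_sq_le hHn
  have hlr : s ≤ l := by rw [hs, Real.sqrt_eq_rpow]; exact hl1
  have hln : n₀ ≤ l := by
    have : (n₀ : ℝ) ≤ l := by linarith
    exact_mod_cast this
  -- `K`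
  have hHA : (1 : ℝ) ≤ (H : ℝ) ^ A := Real.one_le_rpow hH1 hA
  have hHA1 : (H : ℝ) ^ (A + 1) = (H : ℝ) ^ A * H := by rw [Real.rpow_add hH0, Real.rpow_one]
  have hKge : (H : ℝ) ^ A * H ≤ K := by
    rw [← hHA1, hK]
    exact Nat.le_ceil _
  have hKle : (K : ℝ) ≤ 2 * ((H : ℝ) ^ A * H) := by
    have h1 : (K : ℝ) ≤ (H : ℝ) ^ A * H + 1 := by
      rw [← hHA1, hK]
      exact (Nat.ceil_lt_add_one (by positivity)).le
    nlinarith
  have hK3' : (3 : ℝ) ≤ K := by nlinarith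
  have hK3 : 3 ≤ K := by exact_mod_cast hK3'
  have hK1 : 1 ≤ K := by omega
  -- `xa`, `xb`
  have hxa0 : 0 < xa := lt_of_lt_of_le (Real.rpow_pos_of_pos hH0 _) hxa
  have hxb0 : 0 < xb := lt_of_lt_of_le (by positivity) hxab
  have hxa6 : (H : ℝ) ^ A * H ^ 6 ≤ xa := by
    refine le_trans ?_ hxa
    calc (H : ℝ) ^ A * H ^ 6 = (H : ℝ) ^ (A + 6) := by
          rw [Real.rpow_add hH0, show (6 : ℝ) = ((6 : ℕ) : ℝ) by norm_num, Real.rpow_natCast]
      _ ≤ (H : ℝ) ^ ((A + 3) * t) := by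
          apply Real.rpow_le_rpow_of_exponent_le hH1
          nlinarith
  have hlxa : 6 * Real.log H ≤ Real.log xa := by
    have h1 : (H : ℝ) ^ 6 ≤ xa := by
      refine le_trans ?_ hxa6
      have : (0 : ℝ) ≤ (H : ℝ) ^ 6 := by positivity
      nlinarith
    have h2 := Real.log_le_log (by positivity) h1
    rw [Real.log_pow] at h2
    exact_mod_cast h2
  obtain ⟨Λ, hΛ⟩ : ∃ Λ : ℝ, Λ = Real.log xb - Real.log xa := ⟨_, rfl⟩
  rw [← hΛ] at hsum ⊢
  have hΛ1 : Real.log H ≤ Λ := by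
    have := Real.log_le_log (by positivity) hxab
    rw [Real.log_mul hxa0.ne' hH0.ne'] at this
    linarith
  have hpp : ∀ p ∈ PP, 1 ≤ p ∧ 0 ≤ Real.log p ∧ Real.log p ≤ 1 / 4 * Real.log H := by
    intro p hp
    rw [hPP, PPs, mem_filter, mem_Icc] at hp
    have h1 : (p : ℝ) ≤ (H : ℝ) ^ κ₂ :=
      (Nat.cast_le.2 hp.1.2).trans (Nat.floor_le (by positivity))
    have hp0 : (0 : ℝ) < p := by exact_mod_cast hp.1.1
    refine ⟨hp.1.1, Real.log_natCast_nonneg _, ?_⟩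
    have h2 := Real.log_le_log hp0 h1
    rw [Real.log_rpow hH0] at h2
    nlinarith
  set N : ℕ → ℕ → Set ℝ := fun p p' => Np Q K l xa xb e c p p' with hN
  have hNv : ∀ p ∈ PP, ∀ p' v, v ∈ N p p' → Real.log xa - 1 / 4 * Real.log H ≤ v ∧
      v ≤ Real.log xb ∧ 0 ≤ v ∧ 8 ≤ Real.exp v := by
    intro p hp p' v hv
    obtain ⟨h1, h2, h3⟩ := hpp p hp
    have h4 := hv.1.1
    have h5 := hv.1.2.1
    have h6 : 8 ≤ v := by linarith
    refine ⟨by linarith, by linarith, by linarith, ?_⟩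
    have := Real.add_one_le_exp v
    linarith
  have hfin : ∀ p ∈ PP, ∀ p' j, volume (N p p' ∩ Ej K j) ≠ ⊤ := by
    intro p hp p' j
    refine ne_top_of_le_ne_top (b := volume (Set.Icc 0 (Real.log xb))) (by simp) (measure_mono ?_)
    intro v hv
    have := hNv p hp p' v hv.1
    exact ⟨this.2.2.1, this.2.1⟩
  obtain ⟨J, hJ⟩ : ∃ J : ℕ, J = ⌊(K : ℝ) * Real.log xb⌋₊ + 1 := ⟨_, rfl⟩
  set α : ℕ → ℕ → ℕ → ℝ := fun j p p' => (volume (N p p' ∩ Ej K j)).toReal with hα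
  set I : Set ℝ := Set.Icc (Real.log xa - 1 / 4 * Real.log H - 1) (Real.log xb + 1) with hI
  set μ : ℕ → ℝ := fun j => (volume (Ej K j ∩ I)).toReal with hμ
  set Rel : ℕ → ℕ → ℕ → Prop := fun j p p' =>
    c / 4 * (Real.log (aj K (j + 1)) - Real.log (aj K j)) ≤ α j p p' ∧
      (N p p' ∩ Ej K j).Nonempty with hRel
  obtain ⟨p0, hp0, hbig⟩ := choice PP (wt PP) (wt_nonneg PP) (sum_wt PP hLs) J α μ Rel (c := c)
    (Λ := Λ) (T := Λ + 1 / 4 * Real.log H + 2) hc.le (by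
      intro j p hp p' _ hr
      have hμ0 : 0 ≤ μ j := ENNReal.toReal_nonneg
      by_cases hne : (N p p' ∩ Ej K j).Nonempty
      · have h1 : α j p p' < c / 4 * (Real.log (aj K (j + 1)) - Real.log (aj K j)) := by
          by_contra h2
          exact hr ⟨not_lt.1 h2, hne⟩
        obtain ⟨v, hv1, hv2⟩ := hne
        obtain ⟨h3, h4, h5, h6⟩ := hNv p hp p' v hv1
        obtain ⟨h7, h8, h9⟩ := cell_facts hK3 h6 hv2
        have h10 : Ej K j ⊆ I := by
          intro w hw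
          have := hw.1
          have := hw.2
          have := hv2.1
          have := hv2.2
          exact ⟨by linarith, by linarith⟩
        have h11 : μ j = Real.log (aj K (j + 1)) - Real.log (aj K j) := by
          rw [hμ]
          simp only
          rw [Set.inter_eq_left.2 h10, vol_Ej]
        rw [h11]
        exact h1.le
      · have h1 : α j p p' = 0 := by
          rw [hα]
          simp only
          rw [Set.not_nonempty_iff_eq_empty.1 hne, measure_empty, ENNReal.toReal_zero]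
        rw [h1]
        positivity) (by
      have h1 := sum_le_vol K J (a := Real.log xa - 1 / 4 * Real.log H - 1) (b := Real.log xb + 1)
        (by linarith)
      refine h1.trans (le_of_eq ?_)
      rw [hΛ]; ring) (by linarith) (by
      refine hsum.trans ?_
      refine sum_le_sum fun p hp => sum_le_sum fun p' _ => ?_
      have hww : 0 ≤ wt PP p * wt PP p' := mul_nonneg (wt_nonneg _ _) (wt_nonneg _ _)
      refine mul_le_mul_of_nonneg_left ?_ hww
      refine vol_le_sum hK1 (fun v hv => ?_) (fun j => hfin p hp p' j)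
      obtain ⟨h3, h4, h5, h6⟩ := hNv p hp p' v hv
      rw [hJ]
      exact ⟨h5, cl_lt h5 h4⟩) (fun j => ENNReal.toReal_nonneg)
  -- the sets
  set T : ℕ → ℕ → Set ℝ := fun p j => if Rel j p (p0 j) then N p (p0 j) ∩ Ej K j else ∅ with hT
  have hTm : ∀ p j, MeasurableSet (T p j) := by
    intro p j
    rw [hT]
    simp only
    split_ifs
    · exact (hmeas p (p0 j)).inter (meas_Ej K j)
    · exact MeasurableSet.empty
  have hTs : ∀ p j, T p j ⊆ Ej K j := by
    intro p j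
    rw [hT]
    simp only
    split_ifs
    · exact Set.inter_subset_right
    · exact Set.empty_subset _
  refine ⟨fun u => ((p0 (cl K u) : ℕ) : ℝ) ^ t *
    ((Q₂ : ℝ) * (Q ⌊((p0 (cl K u) : ℕ) : ℝ) * Real.exp u⌋₊).coeff t),
    fun p => if p ∈ PP then ⋃ j ∈ range J, T p j else ∅, ?_, ?_, ?_⟩
  · intro p
    simp only
    split_ifs
    · exact Finset.measurableSet_biUnion _ fun j _ => hTm p j
    · exact MeasurableSet.empty
  · intro p u hu
    simp only at hu
    by_cases hp : p ∈ PP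
    · rw [if_pos hp, Set.mem_iUnion₂] at hu
      obtain ⟨j, _, hj⟩ := hu
      rw [hT] at hj
      simp only at hj
      split_ifs at hj with hr
      · obtain ⟨hu1, hu2⟩ := hj
        obtain ⟨h3, h4, h5, h6⟩ := hNv p hp _ u hu1
        have hcl : cl K u = j := (cl_iff hK1 h5).2 hu2
        obtain ⟨g1, g2, g3⟩ := hu1
        refine ⟨hp, g1.1, g1.2.1, g1.2.2.1, g1.2.2.2, ?_⟩
        obtain ⟨f1, f2, f3⟩ := cell_facts hK3 h6 hu2
        -- the length of the cell
        set L : ℕ := aj K (j + 1) - aj K j with hL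
        have hmono : aj K j ≤ aj K (j + 1) := aj_mono K (Nat.le_succ j)
        have hLr : (L : ℝ) = (aj K (j + 1) : ℝ) - aj K j := by rw [hL, Nat.cast_sub hmono]
        have hK0 : (0 : ℝ) < K := by linarith
        have hLxa : xa ≤ L * ((H : ℝ) ^ A * H ^ 2) := by
          have k1 := len_ge K j
          rw [← hLr] at k1
          have k2 : xa ≤ Real.exp u * s := by
            have k3 : Real.log xa ≤ u + 1 / 2 * Real.log H := by linarith
            have k4 := Real.exp_le_exp.2 k3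
            rw [Real.exp_log hxa0, Real.exp_add] at k4
            have k5 : Real.exp (1 / 2 * Real.log H) = s := by
              rw [hs, Real.sqrt_eq_rpow, Real.rpow_def_of_pos hH0, mul_comm]
            rwa [k5] at k4
          have k6 : Real.exp u / 2 ≤ Real.exp ((j : ℝ) / K) := by linarith
          have k7 : Real.exp u / 2 / (2 * ((H : ℝ) ^ A * H)) ≤ Real.exp ((j : ℝ) / K) / K := by
            gcongr
          have k8 : Real.exp u / 2 / (2 * ((H : ℝ) ^ A * H)) * ((H : ℝ) ^ A * H ^ 2) =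
              Real.exp u * H / 4 := by field_simp; ring
          have k9 : (H : ℝ) ^ A * H ^ 2 ≤ xa := by
            refine le_trans ?_ hxa6
            gcongr
            norm_num
          have k10 : 0 < (H : ℝ) ^ A * H ^ 2 := by positivity
          calc xa ≤ (s / 4) * xa - xa := by nlinarith
            _ ≤ (s / 4) * (Real.exp u * s) - (H : ℝ) ^ A * H ^ 2 := by
                have : s / 4 * xa ≤ s / 4 * (Real.exp u * s) := by gcongr
                linarith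
            _ = Real.exp u * H / 4 - (H : ℝ) ^ A * H ^ 2 := by rw [← hss]; ring
            _ = (Real.exp u / 2 / (2 * ((H : ℝ) ^ A * H)) - 1) * ((H : ℝ) ^ A * H ^ 2) := by
                rw [sub_mul, k8, one_mul]
            _ ≤ L * ((H : ℝ) ^ A * H ^ 2) := by
                refine mul_le_mul_of_nonneg_right ?_ k10.le
                linarith
        have hLH : (H : ℝ) ≤ L := by
          have k1 : (H : ℝ) * ((H : ℝ) ^ A * H ^ 2) ≤ L * ((H : ℝ) ^ A * H ^ 2) := by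
            refine le_trans ?_ hLxa
            refine le_trans ?_ hxa6
            calc (H : ℝ) * ((H : ℝ) ^ A * H ^ 2) = (H : ℝ) ^ A * H ^ 3 := by ring
              _ ≤ (H : ℝ) ^ A * H ^ 6 := by
                  gcongr
                  norm_num
          exact le_of_mul_le_mul_right k1 (by positivity)
        have hLn : n₀ ≤ L := by
          have k1 : (n₀ : ℝ) ≤ H := by nlinarith
          have : (n₀ : ℝ) ≤ L := by linarith
          exact_mod_cast this
        set Δ : ℝ[X] := Pp Q p u - Pp Q (p0 j) u with hΔ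
        have hdeg : Δ.natDegree ≤ t := by
          refine (natDegree_sub_le _ _).trans (max_le (deg_Pp hQ _ _) (deg_Pp hQ _ _))
        have hKv : ∀ v ∈ N p (p0 j) ∩ Ej K j, c ≤ Kp l ⌊Real.exp v⌋₊ Δ := by
          intro v hv
          obtain ⟨q3, q4, q5, q6⟩ := hNv p hp _ v hv.1
          have hclv : cl K v = cl K u := by rw [hcl]; exact (cl_iff hK1 q5).2 hv.2
          have q7 := hv.1.2.2
          have q8 : Pp Q p v = Pp Q p u := by
            unfold Pp
            rw [g1.2.2.1 v hclv]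
          have q9 : Pp Q (p0 j) v = Pp Q (p0 j) u := by
            unfold Pp
            rw [g2.2.2.1 v hclv]
          rw [hΔ, ← q8, ← q9]
          exact q7
        have hcount := count_cell (l := l) (Δ := Δ) (c := c) (c₁ := c / 4) hK3 f1
          (Set.inter_subset_right (s := N p (p0 j)) (t := Ej K j)) (by positivity) hKv hr.1
        rw [← hL] at hcount
        have hnd := hP l L (aj K j) hln hLn Δ hdeg (by
          refine le_trans (le_of_eq ?_) (hcount.trans ?_)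
          · ring
          · norm_cast
            refine card_le_card fun m hm => ?_
            rw [mem_filter] at hm ⊢
            refine ⟨hm.1, le_trans ?_ hm.2⟩
            linarith)
        have hLpos : (0 : ℝ) < L := by linarith
        have herr := hnd.trans (bound_err ht hH1 hA hHE hxa0 hLpos hLxa)
        refine ⟨round ((Q₂ : ℝ) * Δ.coeff t), ?_⟩
        beta_reduce
        rw [hcl]
        have e1 : (p : ℝ) ^ t * ((Q₂ : ℝ) * (Q ⌊(p : ℝ) * Real.exp u⌋₊).coeff t) -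
            ((p0 j : ℕ) : ℝ) ^ t * ((Q₂ : ℝ) * (Q ⌊((p0 j : ℕ) : ℝ) * Real.exp u⌋₊).coeff t) =
            (Q₂ : ℝ) * Δ.coeff t := by
          rw [hΔ, coeff_sub, coeff_Pp, coeff_Pp]
          ring
        rw [e1]
        exact herr
      · exact absurd hj (Set.notMem_empty u)
    · rw [if_neg hp] at hu
      exact absurd hu (Set.notMem_empty u)
  · refine hbig.trans (le_of_eq ?_)
    refine sum_congr rfl fun p hp => ?_
    simp only [if_pos hp]
    rw [sum_part K J (T p) (hTm p) (hTs p) (by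
      intro j
      rw [hT]
      simp only
      split_ifs
      · exact hfin p hp _ _
      · simp)]
    congr 1
    refine sum_congr rfl fun j _ => ?_
    rw [hT]
    simp only
    split_ifs with hr
    · rfl
    · simp

end Pool.Agent.VQ
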