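import Mathlib
import Pool.Agent.Lib.VQ.MainA
import Pool.Agent.Lib.VQ.NTA
import Pool.Agent.Lib.VQ.SYB

/-!
# Theorem VQ (MP_663568_nt).  (helper28)
-/

set_option autoImplicit false

namespace Pool.Agent.VQ

open Polynomial Pool.Agent.SV

/-- **Theorem VQ**, without hypotheses. -/
theorem vw : ∀ t, VW t := vw_of nta syb

/-- Theorem VQ for families of bounded variation. -/
theorem vm : ∀ t, VM t := met vw

/-- Theorem VQ for continuous functions on tori. -/
theorem vt : VT := tor vm

end Pool.Agent.VQ
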