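import Mathlib
import Pool.Agent.Lib.VQ.WMET

/-!
# Theorem W (MP_663568_nt): bounded variation, continuous functions on tori, supremum inside.
(helper28)
-/

set_option autoImplicit false
open Finset MeasureTheory Polynomial

namespace Pool.Agent.VQ

open Pool.Agent.Lib.MP_663568_nt Pool.Agent.Lib.MP_663568_nt.Katai
  Pool.Agent.Lib.MP_663568_nt.Nul Pool.Agent.SV

noncomputable section

/-- Theorem W for continuous functions on tori, for every choice of the polynomials. -/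
def WVT : Prop := ∀ (d s t : ℕ) (F : C(UnitAddTorus (Fin d), ℂ)) (A ε : ℝ), 1 ≤ t → 0 ≤ A →
  0 < ε → ∃ (B : ℝ) (H₀ : ℕ), 0 ≤ B ∧ ∀ H : ℕ, H₀ ≤ H → ∀ xa xb : ℝ, (H : ℝ) ^ B ≤ xa →
  xa * H ≤ xb → ∀ Q : ℕ → Fin d → ℝ[X], (∀ n j, (Q n j).natDegree ≤ s) →
  (∀ j : ℕ, ∑ n ∈ Ico (2 ^ j) (2 ^ (j + 1)), dt s n (Q (n + 1)) (Q n) ≤ (H : ℝ) ^ A) →
  ∀ P : ℕ → Fin d → ℝ[X], (∀ n j, (P n j).natDegree ≤ t) →
  (∀ (n : ℕ) (j : Fin d), (P n j).derivative.eval (n : ℝ) = (Q n j).derivative.eval (n : ℝ)) →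
  ∑ n ∈ Ioc ⌊xa⌋₊ ⌊xb⌋₊, (1 / (n : ℝ)) * WF H n F (P n) ≤ ε * (Real.log xb - Real.log xa)

theorem comb_deriv {d : ℕ} (k : Fin d → ℤ) (P : Fin d → ℝ[X]) (y : ℝ) :
    (comb k P).derivative.eval y = ∑ j, (k j : ℝ) * (P j).derivative.eval y := by
  unfold comb
  rw [derivative_sum, eval_finsetSum]
  refine sum_congr rfl fun j _ => ?_
  rw [derivative_mul, derivative_C, zero_mul, zero_add, eval_mul, eval_C]

theorem wvt (hWV : ∀ s t : ℕ, 1 ≤ t → WV s t) : WVT := by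
  classical
  intro d s t F A ε ht hA hε
  -- approximation
  have hden : F ∈ (Submodule.span ℂ
      (Set.range (UnitAddTorus.mFourier (d := Fin d)))).topologicalClosure := by
    rw [UnitAddTorus.span_mFourier_closure_eq_top]
    trivial
  have hden' : F ∈ closure ((Submodule.span ℂ
      (Set.range (UnitAddTorus.mFourier (d := Fin d)))) : Set C(UnitAddTorus (Fin d), ℂ)) := hden
  obtain ⟨G, hG, hFG⟩ := Metric.mem_closure_iff.1 hden' (ε / 4) (by positivity)
  rw [dist_eq_norm] at hFG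
  obtain ⟨c, hc⟩ := (Finsupp.mem_span_range_iff_exists_finsupp).1 hG
  obtain ⟨cs, hcs⟩ : ∃ cs : ℝ, cs = ∑ k ∈ c.support, ‖c k‖ := ⟨_, rfl⟩
  have hcs0 : 0 ≤ cs := by rw [hcs]; exact sum_nonneg fun _ _ => norm_nonneg _
  have hη : 0 < ε / (4 * (cs + 1)) := by positivity
  choose B H₀ hB hV using fun _k : Fin d → ℤ => hWV s t ht (A + 1) (ε / (4 * (cs + 1)))
    (by linarith) hη
  obtain ⟨H₁, hH₁⟩ : ∃ H₁ : ℕ, ∀ H : ℕ, H₁ ≤ H → 3 ≤ (H : ℝ) ∧
      ∀ k ∈ c.support, 1 + ∑ j, |(k j : ℝ)| ≤ H := by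
    obtain ⟨H₁, hH₁⟩ := exists_nat_ge (max 3 (∑ k ∈ c.support, (1 + ∑ j, |(k j : ℝ)|)))
    refine ⟨H₁, fun H hH => ?_⟩
    have hHH : (H₁ : ℝ) ≤ H := by exact_mod_cast hH
    refine ⟨(le_max_left _ _).trans (hH₁.trans hHH), fun k hk => ?_⟩
    refine le_trans ?_ ((le_max_right _ _).trans (hH₁.trans hHH))
    refine single_le_sum (f := fun k : Fin d → ℤ => (1 : ℝ) + ∑ j, |(k j : ℝ)|) (fun k _ => ?_) hk
    have : 0 ≤ ∑ j, |(k j : ℝ)| := sum_nonneg fun _ _ => abs_nonneg _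
    linarith
  refine ⟨∑ k ∈ c.support, B k + 1, max (∑ k ∈ c.support, H₀ k) H₁,
    add_nonneg (sum_nonneg fun k _ => hB k) zero_le_one, ?_⟩
  intro H hH xa xb hxa hxb Q hQ hvar P hP hPQ
  have hHa : ∑ k ∈ c.support, H₀ k ≤ H := (le_max_left _ _).trans hH
  obtain ⟨hH3, hHk⟩ := hH₁ H ((le_max_right _ _).trans hH)
  have hH0 : (0 : ℝ) < H := by linarith
  have hH1 : (1 : ℝ) ≤ H := by linarith
  have hBs : 0 ≤ ∑ k ∈ c.support, B k := sum_nonneg fun k _ => hB k
  have hxaH : (H : ℝ) ≤ xa := by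
    refine le_trans ?_ hxa
    calc (H : ℝ) = (H : ℝ) ^ (1 : ℝ) := (Real.rpow_one _).symm
      _ ≤ _ := Real.rpow_le_rpow_of_exponent_le hH1 (by linarith)
  have hxa0 : 0 < xa := by linarith
  have hxab : xa ≤ xb := by
    refine le_trans ?_ hxb
    nlinarith
  have hΛ : 1 ≤ Real.log xb - Real.log xa := by
    have h1 := Real.log_le_log (by positivity) hxb
    rw [Real.log_mul hxa0.ne' hH0.ne'] at h1
    have h2 : 1 ≤ Real.log H := by
      rw [Real.le_log_iff_exp_le hH0]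
      have := Real.exp_one_lt_d9
      linarith
    linarith
  have hsum := sum_inv_le xa xb (by linarith) hxab
  have hmono : ∀ k ∈ c.support, ∑ n ∈ Ioc ⌊xa⌋₊ ⌊xb⌋₊, (1 / (n : ℝ)) * Wp H n (comb k (P n)) ≤
      ε / (4 * (cs + 1)) * (Real.log xb - Real.log xa) := by
    intro k hk
    refine hV k H ((single_le_sum (f := H₀) (fun _ _ => Nat.zero_le _) hk).trans hHa) xa xb
      (le_trans (Real.rpow_le_rpow_of_exponent_le hH1 ?_) hxa) hxb (fun n => comb k (Q n))
      (fun n => comb_deg k _ s (hQ n)) (fun j => ?_) (fun n => comb k (P n))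
      (fun n => comb_deg k _ t (hP n)) (fun n => ?_)
    · have := single_le_sum (f := B) (fun k _ => hB k) hk
      linarith
    · calc ∑ n ∈ Ico (2 ^ j) (2 ^ (j + 1)), dn s n (comb k (Q (n + 1))) (comb k (Q n))
          ≤ ∑ n ∈ Ico (2 ^ j) (2 ^ (j + 1)), (1 + ∑ j, |(k j : ℝ)|) * dt s n (Q (n + 1)) (Q n) :=
            sum_le_sum fun n _ => dn_comb s n k _ _
        _ = (1 + ∑ j, |(k j : ℝ)|) * ∑ n ∈ Ico (2 ^ j) (2 ^ (j + 1)), dt s n (Q (n + 1)) (Q n) := by
            rw [mul_sum]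
        _ ≤ H * (H : ℝ) ^ A := by
            refine mul_le_mul (hHk k hk) (hvar j) (sum_nonneg fun n _ => ?_) hH0.le
            exact le_min zero_le_one (sum_nonneg fun _ _ => sum_nonneg fun _ _ => by positivity)
        _ = (H : ℝ) ^ (A + 1) := by
            rw [Real.rpow_add hH0, Real.rpow_one, mul_comm]
    · rw [comb_deriv, comb_deriv]
      exact sum_congr rfl fun j _ => by rw [hPQ n j]
  -- the window
  have hwin : ∀ n, WF H n F (P n) ≤ ε / 4 + ∑ k ∈ c.support, ‖c k‖ * Wp H n (comb k (P n)) := by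
    intro n
    have h1 : WF H n F (P n) ≤ WF H n (F - G) (P n) + WF H n G (P n) := by
      have h2 := WF_add_le H n (⇑(F - G)) (⇑G) (P n)
      have h3 : (fun x => (F - G) x + G x) = ⇑F := by
        funext x
        rw [ContinuousMap.sub_apply, sub_add_cancel]
      rwa [h3] at h2
    have h2 : WF H n (F - G) (P n) ≤ ε / 4 := (WF_norm_le H n (F - G) (P n)).trans hFG.le
    have h3 : ∀ s : Finset (Fin d → ℤ), WF H n
        (fun x => ∑ k ∈ s, c k * UnitAddTorus.mFourier k x) (P n) ≤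
        ∑ k ∈ s, ‖c k‖ * Wp H n (comb k (P n)) := by
      intro s
      induction s using Finset.induction_on with
      | empty =>
        simp [WF]
      | insert k s hk ih =>
        rw [sum_insert hk]
        have h4 : (fun x => ∑ k ∈ insert k s, c k * UnitAddTorus.mFourier k x) =
            fun x => (fun x => c k * UnitAddTorus.mFourier k x) x +
              (fun x => ∑ k ∈ s, c k * UnitAddTorus.mFourier k x) x := by
          funext x
          rw [sum_insert hk]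
        rw [h4]
        refine (WF_add_le H n _ _ (P n)).trans (add_le_add (le_of_eq ?_) ih)
        rw [WF_smul, WF_mFourier]
    have h4 : (⇑G : UnitAddTorus (Fin d) → ℂ) =
        fun x => ∑ k ∈ c.support, c k * UnitAddTorus.mFourier k x := by
      funext x
      rw [← hc, Finsupp.sum, ContinuousMap.sum_apply]
      refine sum_congr rfl fun k _ => ?_
      rw [ContinuousMap.smul_apply, smul_eq_mul]
    have h5 := h3 c.support
    rw [← h4] at h5
    linarith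
  calc ∑ n ∈ Ioc ⌊xa⌋₊ ⌊xb⌋₊, (1 / (n : ℝ)) * WF H n F (P n)
      ≤ ∑ n ∈ Ioc ⌊xa⌋₊ ⌊xb⌋₊, (1 / (n : ℝ)) *
        (ε / 4 + ∑ k ∈ c.support, ‖c k‖ * Wp H n (comb k (P n))) := by
        refine sum_le_sum fun n _ => ?_
        have := hwin n
        gcongr
    _ = (∑ n ∈ Ioc ⌊xa⌋₊ ⌊xb⌋₊, (1 / (n : ℝ))) * (ε / 4) +
        ∑ k ∈ c.support, ‖c k‖ * ∑ n ∈ Ioc ⌊xa⌋₊ ⌊xb⌋₊, (1 / (n : ℝ)) *
          Wp H n (comb k (P n)) := by
        simp only [mul_add, sum_add_distrib, ← sum_mul, mul_sum]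
        congr 1
        rw [sum_comm]
        refine sum_congr rfl fun k _ => sum_congr rfl fun n _ => ?_
        ring
    _ ≤ (2 * (Real.log xb - Real.log xa)) * (ε / 4) +
        ∑ k ∈ c.support, ‖c k‖ * (ε / (4 * (cs + 1)) * (Real.log xb - Real.log xa)) := by
        refine add_le_add ?_ (sum_le_sum fun k hk => ?_)
        · gcongr
          linarith
        · have := hmono k hk
          gcongr
    _ = ε / 2 * (Real.log xb - Real.log xa) +
        cs * (ε / (4 * (cs + 1))) * (Real.log xb - Real.log xa) := by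
        rw [← sum_mul, ← hcs]; ring
    _ ≤ ε / 2 * (Real.log xb - Real.log xa) + ε / 4 * (Real.log xb - Real.log xa) := by
        gcongr
        rw [mul_div_assoc', div_le_div_iff₀ (by positivity) (by norm_num)]
        nlinarith
    _ ≤ ε * (Real.log xb - Real.log xa) := by nlinarith

/-! ### The supremum inside -/

/-- The admissible polynomials: degree at most `t`, linear coefficients `Q_j'(n)`. -/
def Adm {d : ℕ} (t : ℕ) (Q : Fin d → ℝ[X]) (n : ℕ) : Type :=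
  {P : Fin d → ℝ[X] // (∀ j, (P j).natDegree ≤ t) ∧
    ∀ j, (P j).coeff 1 = (Q j).derivative.eval (n : ℝ)}

/-- The sum over the window. -/
def Sm {d : ℕ} (F : UnitAddTorus (Fin d) → ℂ) (H n : ℕ) (P : Fin d → ℝ[X]) : ℝ :=
  ‖∑ h ∈ Icc 1 H, F (fun j => (((P j).eval (h : ℝ) : ℝ) : UnitAddCircle)) *
    ((ArithmeticFunction.moebius (n + h) : ℤ) : ℂ)‖

theorem Sm_eq {d : ℕ} (F : UnitAddTorus (Fin d) → ℂ) (H n : ℕ) (hH : 1 ≤ H)
    (P : Fin d → ℝ[X]) :
    Sm F H n P = H * WF H n F (fun j => (P j).comp (X - C (n : ℝ))) := by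
  have hH0 : (H : ℝ) ≠ 0 := by
    have : 0 < H := hH
    positivity
  unfold Sm WF
  rw [mul_div_cancel₀ _ hH0]
  congr 1
  refine sum_congr rfl fun h _ => ?_
  have h1 : pt (fun j => (P j).comp (X - C (n : ℝ))) ((n : ℝ) + h) =
      fun j => (((P j).eval (h : ℝ) : ℝ) : UnitAddCircle) := by
    funext j
    unfold pt
    rw [eval_comp]
    simp only [eval_sub, eval_X, eval_C, add_sub_cancel_left]
  rw [h1]
  unfold muC
  ring

theorem Sm_le {d : ℕ} (F : C(UnitAddTorus (Fin d), ℂ)) (H n : ℕ) (P : Fin d → ℝ[X]) :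
    Sm F H n P ≤ H * ‖F‖ := by
  unfold Sm
  refine (norm_sum_le _ _).trans ?_
  calc ∑ h ∈ Icc 1 H, ‖F (fun j => (((P j).eval (h : ℝ) : ℝ) : UnitAddCircle)) *
        ((ArithmeticFunction.moebius (n + h) : ℤ) : ℂ)‖ ≤ ∑ _h ∈ Icc 1 H, ‖F‖ := by
        refine sum_le_sum fun h _ => ?_
        rw [norm_mul]
        calc _ ≤ ‖F‖ * 1 := by
              refine mul_le_mul (F.norm_coe_le_norm _) ?_ (norm_nonneg _) (norm_nonneg _)
              exact norm_muC _
          _ = ‖F‖ := mul_one _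
    _ = H * ‖F‖ := by
        rw [sum_const, Nat.card_Icc, nsmul_eq_mul]
        simp

/-- **Theorem W**: bounded variation, continuous functions on tori, supremum inside. -/
theorem w_sup (hW : WVT) (d s t : ℕ) (ht : 1 ≤ t) (F : C(UnitAddTorus (Fin d), ℂ)) (A ε : ℝ)
    (hε : 0 < ε) :
    ∃ (B : ℝ) (H₀ : ℕ), ∀ H : ℕ, H₀ ≤ H → ∀ x y : ℝ, (H : ℝ) ^ B ≤ x → x * H ≤ y →
    ∀ Q : ℕ → Fin d → ℝ[X], (∀ n j, (Q n j).natDegree ≤ s) →
    (∀ j : ℕ, ∑ n ∈ Ico (2 ^ j) (2 ^ (j + 1)), dt s n (Q (n + 1)) (Q n) ≤ (H : ℝ) ^ A) →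
    ∑ n ∈ Ioc ⌊x⌋₊ ⌊y⌋₊, (1 / (n : ℝ)) * ⨆ P : Adm t (Q n) n, Sm F H n P.1 ≤
      ε * H * Real.log (y / x) := by
  obtain ⟨B, H₀, hB, hV⟩ := hW d s t F (max A 0) (ε / 2) ht (le_max_right _ _) (by positivity)
  refine ⟨B + 1, max H₀ 3, ?_⟩
  intro H hH x y hx hxy Q hQ hvar
  have hHa : H₀ ≤ H := (le_max_left _ _).trans hH
  have hH3N : 3 ≤ H := (le_max_right _ _).trans hH
  have hH3 : (3 : ℝ) ≤ H := by exact_mod_cast hH3N
  have hH0 : (0 : ℝ) < H := by linarith
  have hH1 : (1 : ℝ) ≤ H := by linarith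
  have hxaH : (H : ℝ) ≤ x := by
    refine le_trans ?_ hx
    calc (H : ℝ) = (H : ℝ) ^ (1 : ℝ) := (Real.rpow_one _).symm
      _ ≤ _ := Real.rpow_le_rpow_of_exponent_le hH1 (by linarith)
  have hx0 : 0 < x := by linarith
  have hxab : x ≤ y := by
    refine le_trans ?_ hxy
    nlinarith
  have hy0 : 0 < y := by linarith
  have hΛ : 1 ≤ Real.log y - Real.log x := by
    have h1 := Real.log_le_log (by positivity) hxy
    rw [Real.log_mul hx0.ne' hH0.ne'] at h1
    have h2 : 1 ≤ Real.log H := by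
      rw [Real.le_log_iff_exp_le hH0]
      have := Real.exp_one_lt_d9
      linarith
    linarith
  have hsum := sum_inv_le x y (by linarith) hxab
  -- the choice
  have hne : ∀ n, Nonempty (Adm t (Q n) n) := fun n =>
    ⟨⟨fun j => C ((Q n j).derivative.eval (n : ℝ)) * X, fun j =>
      (natDegree_C_mul_le _ _).trans (natDegree_X_le.trans ht), fun j => by simp⟩⟩
  have hbdd : ∀ n, BddAbove (Set.range fun P : Adm t (Q n) n => Sm F H n P.1) := fun n =>
    ⟨H * ‖F‖, by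
      rintro _ ⟨P, rfl⟩
      exact Sm_le F H n P.1⟩
  have hex : ∀ n : ℕ, ∃ P : Adm t (Q n) n,
      (⨆ P : Adm t (Q n) n, Sm F H n P.1) - ε / 4 < Sm F H n P.1 := by
    intro n
    have := hne n
    exact exists_lt_of_lt_ciSup (by linarith)
  choose P hP using hex
  have hmain := hV H hHa x y ((Real.rpow_le_rpow_of_exponent_le hH1 (by linarith)).trans hx) hxy Q
    hQ (fun j => (hvar j).trans (Real.rpow_le_rpow_of_exponent_le hH1 (le_max_left _ _)))
    (fun n j => ((P n).1 j).comp (X - C (n : ℝ))) (fun n j => by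
      rw [natDegree_comp, natDegree_X_sub_C, mul_one]
      exact (P n).2.1 j) (fun n j => by
      rw [← (P n).2.2 j, derivative_comp, eval_mul, eval_comp]
      simp only [derivative_sub, derivative_X, derivative_C, sub_zero, eval_one, eval_sub,
        eval_X, eval_C, sub_self]
      rw [← coeff_zero_eq_eval_zero, coeff_derivative]
      simp)
  rw [Real.log_div hy0.ne' hx0.ne']
  calc ∑ n ∈ Ioc ⌊x⌋₊ ⌊y⌋₊, (1 / (n : ℝ)) * ⨆ P : Adm t (Q n) n, Sm F H n P.1
      ≤ ∑ n ∈ Ioc ⌊x⌋₊ ⌊y⌋₊, (1 / (n : ℝ)) * (H * WF H n F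
        (fun j => ((P n).1 j).comp (X - C (n : ℝ))) + ε / 4) := by
        refine sum_le_sum fun n _ => ?_
        have h1 := hP n
        rw [Sm_eq _ H n (by omega)] at h1
        gcongr
        linarith
    _ = H * ∑ n ∈ Ioc ⌊x⌋₊ ⌊y⌋₊, (1 / (n : ℝ)) * WF H n F
        (fun j => ((P n).1 j).comp (X - C (n : ℝ))) +
        (∑ n ∈ Ioc ⌊x⌋₊ ⌊y⌋₊, (1 / (n : ℝ))) * (ε / 4) := by
        rw [mul_sum, sum_mul, ← sum_add_distrib]
        refine sum_congr rfl fun n _ => ?_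
        ring
    _ ≤ H * (ε / 2 * (Real.log y - Real.log x)) +
        (2 * (Real.log y - Real.log x)) * (ε / 4) := by
        gcongr
        linarith
    _ = (H / 2 + 1 / 2) * (ε * (Real.log y - Real.log x)) := by ring
    _ ≤ H * (ε * (Real.log y - Real.log x)) := by
        gcongr
        linarith
    _ = ε * H * (Real.log y - Real.log x) := by ring

end

end Pool.Agent.VQ
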