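import Mathlib
import Pool.Agent.Lib.VQ.Main
import Pool.Agent.Lib.VQ.CLU
import Pool.Agent.Lib.VQ.LAG
import Pool.Agent.Lib.VQ.STR
import Pool.Agent.Lib.VQ.SUBQ
import Pool.Agent.Lib.VQ.REG
import Pool.Agent.Lib.VQ.WFIN
import Pool.Agent.Lib.VQ.WTOR

/-!
# Theorem W (MP_663568_nt): assembly.  (helper19, helper28)
-/

set_option autoImplicit false

namespace Pool.Agent.VQ

open Polynomial Pool.Agent.SV

/-- **Theorem W** in one window. -/
theorem w_one (s t : ℕ) (ht : 1 ≤ t) : WW s t :=
  wfin (clu pair) (str vqrec lag) subq reg s t ht (vw (max s 1))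

/-- **Theorem W** for continuous functions on tori. -/
theorem w_vt : WVT := wvt fun s t ht => wv s t ht (w_one s t ht)

end Pool.Agent.VQ
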