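import Mathlib
import Pool.Agent.Lib.VQ.WDefs
import Pool.Agent.Lib.VQ.PREC

/-!
# Theorem W (MP_663568_nt), row EQP: polynomials which are often in a small periodic set

helper64.
-/

set_option autoImplicit false
open Finset Polynomial MeasureTheory

namespace Pool.Agent.VQ

open Pool.Agent.Lib.MP_663568_nt Pool.Agent.Lib.MP_663568_nt.Katai
  Pool.Agent.Lib.MP_663568_nt.Nul Pool.Agent.SV

namespace EQPx

theorem sum_Icc_one (f : ℕ → ℂ) (L : ℕ) : ∑ m ∈ Icc 1 L, f m = ∑ j ∈ range L, f (j + 1) := by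
  induction L with
  | zero => simp
  | succ L ih => rw [sum_Icc_succ_top (by omega), sum_range_succ, ih]

end EQPx

open Classical in
/-- Row EQP. -/
theorem eqp : EQP_stmt := by
  intro h15 t c₁ R₁ ht hc hc1 hR
  obtain ⟨K, hK⟩ := h15 R₁ (1 / 4) hR (by norm_num)
  obtain ⟨C₀, hC1, hC⟩ := TU.weyl_all t ht
  have hK0 : (0 : ℝ) < 8 * ((K : ℝ) + 1) := by positivity
  set ρ : ℝ := c₁ / (8 * ((K : ℝ) + 1)) with hρd
  have hρ : 0 < ρ := by positivity
  have hρK : ρ * (8 * ((K : ℝ) + 1)) = c₁ := div_mul_cancel₀ _ hK0.ne'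
  have hρ2 : ρ ≤ 1 / 2 := by
    have h1 : (0 : ℝ) ≤ K := Nat.cast_nonneg K
    nlinarith
  set Z : ℝ := (1 / ρ) ^ C₀ with hZ
  have hZ0 : 0 < Z := by positivity
  refine ⟨(⌊Z⌋₊.factorial * K.factorial : ℕ) * Z, ⌊Z⌋₊.factorial * K.factorial,
    ⌈Z⌉₊ + ⌈2 / ρ⌉₊ + 1, ?_, ?_, ?_⟩
  · have h1 : 0 < ⌊Z⌋₊.factorial * K.factorial :=
      Nat.mul_pos (Nat.factorial_pos _) (Nat.factorial_pos _)
    have h2 : (0 : ℝ) < (⌊Z⌋₊.factorial * K.factorial : ℕ) := by exact_mod_cast h1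
    positivity
  · exact Nat.mul_pos (Nat.factorial_pos _) (Nat.factorial_pos _)
  intro L hL M p hM hper hvol hp hcount i hi1 hi2
  have hLn : 1 ≤ L := by omega
  have hL0 : (0 : ℝ) < L := by exact_mod_cast hLn
  have hLZ : Z ≤ L := by
    refine (Nat.le_ceil Z).trans ?_
    exact_mod_cast (show ⌈Z⌉₊ ≤ L by omega)
  have hLρ : 2 ≤ ρ * L := by
    have h1 : 2 / ρ ≤ L := by
      refine (Nat.le_ceil _).trans ?_
      exact_mod_cast (show ⌈2 / ρ⌉₊ ≤ L by omega)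
    rw [div_le_iff₀ hρ] at h1
    linarith
  obtain ⟨c, c1, c2, c3⟩ := hK M hM hper
  -- the lower bound for the sum of the smoothed indicator
  have hlow : 3 / 4 * c₁ * L ≤
      ∑ j ∈ range L, (∑ k ∈ Icc (-(K : ℤ)) K, c k * ee (k * p.eval (j : ℝ))).re := by
    have h1 : ∑ j ∈ (range L).filter (fun j : ℕ => ∀ z : ℝ, |z - p.eval (j : ℝ)| ≤ 1 / R₁ → z ∈ M),
        (3 / 4 : ℝ) ≤ ∑ j ∈ (range L).filter
          (fun j : ℕ => ∀ z : ℝ, |z - p.eval (j : ℝ)| ≤ 1 / R₁ → z ∈ M),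
        (∑ k ∈ Icc (-(K : ℤ)) K, c k * ee (k * p.eval (j : ℝ))).re := by
      refine sum_le_sum fun j hj => ?_
      have h2 := (c3 (p.eval (j : ℝ))).2.2.1 (mem_filter.1 hj).2
      linarith
    have h2 : ∑ j ∈ (range L).filter
          (fun j : ℕ => ∀ z : ℝ, |z - p.eval (j : ℝ)| ≤ 1 / R₁ → z ∈ M),
        (∑ k ∈ Icc (-(K : ℤ)) K, c k * ee (k * p.eval (j : ℝ))).re ≤
        ∑ j ∈ range L, (∑ k ∈ Icc (-(K : ℤ)) K, c k * ee (k * p.eval (j : ℝ))).re :=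
      sum_le_sum_of_subset_of_nonneg (filter_subset _ _) fun j _ _ => (c3 _).1
    rw [sum_const, nsmul_eq_mul] at h1
    nlinarith
  -- a large exponential sum
  have hex : ∃ k ∈ Icc (-(K : ℤ)) K, k ≠ 0 ∧
      2 * ρ * L ≤ ‖∑ j ∈ range L, ee ((k : ℝ) * p.eval (j : ℝ))‖ := by
    by_contra hcon
    push Not at hcon
    have h1 : ∑ j ∈ range L, (∑ k ∈ Icc (-(K : ℤ)) K, c k * ee (k * p.eval (j : ℝ))).re =
        (∑ k ∈ Icc (-(K : ℤ)) K, c k * ∑ j ∈ range L, ee (k * p.eval (j : ℝ))).re := by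
      rw [← Complex.re_sum, sum_comm]
      congr 1
      exact sum_congr rfl fun k _ => by rw [mul_sum]
    have h2 : (∑ k ∈ Icc (-(K : ℤ)) K, c k * ∑ j ∈ range L, ee (k * p.eval (j : ℝ))).re ≤
        ∑ k ∈ Icc (-(K : ℤ)) K, ‖c k * ∑ j ∈ range L, ee (k * p.eval (j : ℝ))‖ :=
      (Complex.re_le_norm _).trans (norm_sum_le _ _)
    have h3 : ∀ k ∈ Icc (-(K : ℤ)) K, ‖c k * ∑ j ∈ range L, ee (k * p.eval (j : ℝ))‖ ≤
        (if k = 0 then c₁ / 4 * L else 0) + 2 * ρ * L := by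
      intro k hk
      by_cases hk0 : k = 0
      · rw [if_pos hk0, norm_mul]
        have h4 : ‖c k‖ ≤ c₁ / 4 := by
          rw [hk0, c2, Complex.norm_real, Real.norm_eq_abs, abs_of_nonneg ENNReal.toReal_nonneg]
          exact hvol
        have h5 : ‖∑ j ∈ range L, ee ((k : ℝ) * p.eval (j : ℝ))‖ ≤ L := by
          refine (norm_sum_le _ _).trans ?_
          have h6 : ∀ j ∈ range L, ‖ee ((k : ℝ) * p.eval (j : ℝ))‖ ≤ 1 := fun j _ => by
            rw [norm_ee]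
          refine (sum_le_sum h6).trans ?_
          simp
        have h6 : ‖c k‖ * ‖∑ j ∈ range L, ee ((k : ℝ) * p.eval (j : ℝ))‖ ≤ c₁ / 4 * L :=
          mul_le_mul h4 h5 (norm_nonneg _) (by positivity)
        have h7 : 0 ≤ 2 * ρ * L := by positivity
        linarith
      · rw [if_neg hk0, norm_mul, zero_add]
        have h4 := (hcon k hk hk0).le
        have h5 := c1 k
        have h6 : ‖c k‖ * ‖∑ j ∈ range L, ee ((k : ℝ) * p.eval (j : ℝ))‖ ≤
            1 * (2 * ρ * L) := mul_le_mul h5 h4 (norm_nonneg _) zero_le_one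
        linarith
    have h4 := sum_le_sum h3
    rw [sum_add_distrib, sum_ite_eq' , if_pos (mem_Icc.2 ⟨by omega, by omega⟩), sum_const,
      nsmul_eq_mul, Int.card_Icc] at h4
    have h5 : (((K : ℤ) + 1 - -(K : ℤ)).toNat : ℝ) = 2 * K + 1 := by
      have h6 : ((K : ℤ) + 1 - -(K : ℤ)).toNat = 2 * K + 1 := by omega
      rw [h6]
      push_cast
      ring
    rw [h5] at h4
    have h6 : (2 * (K : ℝ) + 1) * (2 * ρ * L) ≤ c₁ / 2 * L - 2 * ρ * L := by
      have h7 : c₁ / 2 * L = 4 * (K + 1) * ρ * L := by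
        rw [← hρK]
        ring
      rw [h7]
      nlinarith
    have h7 : 0 < ρ * L := by positivity
    rw [h1] at hlow
    nlinarith
  obtain ⟨k, hk, hk0, hbig⟩ := hex
  rw [mem_Icc] at hk
  -- the sum from 1 to L
  have hbig2 : ρ * L ≤ ‖∑ m ∈ Icc 1 L, ee ((C (k : ℝ) * p).eval (m : ℝ))‖ := by
    have h1 : ∑ m ∈ Icc 1 L, ee ((C (k : ℝ) * p).eval (m : ℝ)) =
        ∑ j ∈ range L, ee ((k : ℝ) * p.eval (j : ℝ)) +
        (ee ((k : ℝ) * p.eval (L : ℝ)) - ee ((k : ℝ) * p.eval 0)) := by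
      have h2 : ∑ m ∈ range (L + 1), ee ((k : ℝ) * p.eval (m : ℝ)) =
          ∑ m ∈ Icc 1 L, ee ((C (k : ℝ) * p).eval (m : ℝ)) + ee ((k : ℝ) * p.eval 0) := by
        rw [sum_range_succ', Nat.cast_zero, EQPx.sum_Icc_one]
        congr 1
        exact sum_congr rfl fun j _ => by rw [eval_mul, eval_C]
      rw [sum_range_succ] at h2
      linear_combination -h2
    rw [h1]
    have h3 : ‖ee ((k : ℝ) * p.eval (L : ℝ)) - ee ((k : ℝ) * p.eval 0)‖ ≤ 2 := by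
      refine (norm_sub_le _ _).trans ?_
      rw [norm_ee, norm_ee]
      norm_num
    have h4 := norm_sub_le_norm_add (∑ j ∈ range L, ee ((k : ℝ) * p.eval (j : ℝ)))
      (ee ((k : ℝ) * p.eval (L : ℝ)) - ee ((k : ℝ) * p.eval 0))
    linarith
  obtain ⟨q, hq1, hq2, hq3⟩ := hC ρ L (C (k : ℝ) * p) hρ hρ2 hLZ
    ((natDegree_C_mul_le _ _).trans hp) hbig2
  have h1 := hq3 i hi1 hi2
  rw [coeff_C_mul, ← mul_assoc] at h1
  have hkn : 1 ≤ k.natAbs := by omega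
  have hkK : k.natAbs ≤ K := by omega
  have h2 : nd (((q * k.natAbs : ℕ) : ℝ) * p.coeff i) ≤ Z / (L : ℝ) ^ i := by
    rcases Int.natAbs_eq k with h3 | h3
    · have h4 : ((q * k.natAbs : ℕ) : ℝ) = (q : ℝ) * k := by
        push_cast
        congr 1
        conv_rhs => rw [h3]
        simp
      rw [h4]
      exact h1
    · have h4 : ((q * k.natAbs : ℕ) : ℝ) * p.coeff i = -((q : ℝ) * k * p.coeff i) := by
        have h5 : (k : ℝ) = -(k.natAbs : ℝ) := by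
          conv_lhs => rw [h3]
          push_cast
          simp
        rw [h5]
        push_cast
        ring
      rw [h4, nd_neg]
      exact h1
  have h3 : q * k.natAbs ∣ ⌊Z⌋₊.factorial * K.factorial :=
    Nat.mul_dvd_mul (PRECx.dvd_fact q hq1 Z hq2) (Nat.dvd_factorial hkn hkK)
  have h4 := PRECx.nd_dvd (q * k.natAbs) (⌊Z⌋₊.factorial * K.factorial)
    (Nat.mul_pos hq1 hkn) h3 (p.coeff i)
  refine h4.trans ?_
  rw [mul_div_assoc]
  exact mul_le_mul_of_nonneg_left h2 (Nat.cast_nonneg _)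

end Pool.Agent.VQ
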