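import Mathlib
import Pool.Agent.Lib.VQ.WDefs

/-!
# Theorem W, row LOCS: one region (helper83)
-/

set_option autoImplicit false
open Finset MeasureTheory Polynomial Filter

namespace Pool.Agent.VQ

open Pool.Agent.Lib.MP_663568_nt Pool.Agent.Lib.MP_663568_nt.Katai
  Pool.Agent.Lib.MP_663568_nt.Nul Pool.Agent.SV

namespace LOCSx

lemma outer_fin (A : Set ℝ) (R : ℝ) : volume {x : ℝ | x ∈ Set.Icc (0 : ℝ) 1 ∧ ∃ y ∈ A, ∃ b : ℤ,
    |y - x - b| ≤ 1 / R} ≠ ⊤ := by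
  apply ne_top_of_le_ne_top _ (measure_mono (fun x hx => hx.1 :
    {x : ℝ | x ∈ Set.Icc (0 : ℝ) 1 ∧ ∃ y ∈ A, ∃ b : ℤ, |y - x - b| ≤ 1 / R} ⊆ Set.Icc (0 : ℝ) 1))
  simp

lemma outer_mono {A B : Set ℝ} (h : A ⊆ B) (R : ℝ) : TFx.outer A R ≤ TFx.outer B R := by
  unfold TFx.outer
  apply ENNReal.toReal_mono (outer_fin B R)
  apply measure_mono
  rintro x ⟨hx, y, hy, b, hb⟩
  exact ⟨hx, y, h hy, b, hb⟩

lemma sub_Sym (A : Set ℝ) : A ⊆ TFx.Sym A := fun _ h => Or.inl h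

/-- The measure of a small neighbourhood. -/
lemma vol_le (hM : MEAS_stmt) {S : Set ℝ} {ω : ℝ → ℝ} (hS : ∀ R : ℝ, 1 ≤ R → TFx.outer S R ≤ ω R)
    {Q : ℕ} (hQ : 1 ≤ Q) {r : ℝ} (hr0 : 0 < r) (hr : 2 * r ≤ 1) :
    TFx.outer (Nr S Q r) (1 / r) ≤ 2 * Q * ω (1 / (2 * r)) := by
  have h1 := hM S Q (1 / r) r hQ (by
    rw [le_div_iff₀ hr0]
    linarith) hr0.le (by
    rw [one_div_one_div]
    linarith)
  rw [one_div_one_div] at h1
  have h2 := hS (1 / (2 * r)) (by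
    rw [le_div_iff₀ (by linarith)]
    linarith)
  have h3 := outer_mono (sub_Sym (Nr S Q r)) (1 / r)
  have e : r + r = 2 * r := by ring
  rw [e] at h1
  have hQ0 : (0 : ℝ) ≤ 2 * Q := by positivity
  exact h3.trans (h1.trans (mul_le_mul_of_nonneg_left h2 hQ0))

open Classical in
/-- The cells which meet a set. -/
noncomputable def cells (A : Set ℝ) (R₂ : ℕ) : Finset ℕ :=
  (range R₂).filter fun i => ∃ x ∈ A, ⌊(R₂ : ℝ) * Int.fract x⌋₊ = i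

lemma cells_card (A : Set ℝ) {R₂ : ℕ} (hR : 1 ≤ R₂) :
    (#(cells A R₂) : ℝ) ≤ TFx.outer A R₂ * R₂ := by
  classical
  have hR0 : (0 : ℝ) < R₂ := by exact_mod_cast hR
  have hsub : (⋃ i ∈ cells A R₂, Set.Ico ((i : ℝ) / R₂) (((i : ℝ) + 1) / R₂)) ⊆
      {x : ℝ | x ∈ Set.Icc (0 : ℝ) 1 ∧ ∃ y ∈ A, ∃ b : ℤ, |y - x - b| ≤ 1 / (R₂ : ℝ)} := by
    intro x hx
    rw [Set.mem_iUnion₂] at hx
    obtain ⟨i, hi, h1, h2⟩ := hx
    rw [cells, mem_filter, mem_range] at hi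
    obtain ⟨hiR, y, hy, hyi⟩ := hi
    have hiR' : (i : ℝ) + 1 ≤ R₂ := by exact_mod_cast hiR
    rw [div_le_iff₀ hR0] at h1
    rw [lt_div_iff₀ hR0] at h2
    have hf0 : 0 ≤ (R₂ : ℝ) * Int.fract y := mul_nonneg hR0.le (Int.fract_nonneg y)
    have f1 := Nat.floor_le hf0
    have f2 := Nat.lt_floor_add_one ((R₂ : ℝ) * Int.fract y)
    rw [hyi] at f1 f2
    refine ⟨⟨?_, ?_⟩, y, hy, ⌊y⌋, ?_⟩
    · have : (0 : ℝ) ≤ i := Nat.cast_nonneg _
      nlinarith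
    · nlinarith
    · have e : y - x - (⌊y⌋ : ℤ) = Int.fract y - x := by
        rw [Int.fract]
        ring
      rw [e, le_div_iff₀ hR0]
      have e2 : |Int.fract y - x| * (R₂ : ℝ) = |(Int.fract y - x) * R₂| := by
        rw [abs_mul, abs_of_pos hR0]
      rw [e2, abs_le]
      constructor <;> nlinarith
  have hdis : (↑(cells A R₂) : Set ℕ).PairwiseDisjoint
      fun i : ℕ => Set.Ico ((i : ℝ) / R₂) (((i : ℝ) + 1) / R₂) := by
    intro i _ j _ hij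
    rw [Function.onFun, Set.disjoint_left]
    rintro x ⟨h1, h2⟩ ⟨h3, h4⟩
    rw [div_le_iff₀ hR0] at h1 h3
    rw [lt_div_iff₀ hR0] at h2 h4
    have a1 : (i : ℝ) < j + 1 := by linarith
    have a2 : (j : ℝ) < i + 1 := by linarith
    have b1 : i < j + 1 := by exact_mod_cast a1
    have b2 : j < i + 1 := by exact_mod_cast a2
    omega
  have hvol : volume (⋃ i ∈ cells A R₂, Set.Ico ((i : ℝ) / R₂) (((i : ℝ) + 1) / R₂)) =
      ENNReal.ofReal (#(cells A R₂) / R₂) := by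
    rw [measure_biUnion_finset hdis fun i _ => measurableSet_Ico]
    have : ∀ i ∈ cells A R₂, volume (Set.Ico ((i : ℝ) / R₂) (((i : ℝ) + 1) / R₂)) =
        ENNReal.ofReal (1 / R₂) := by
      intro i _
      rw [Real.volume_Ico]
      congr 1
      ring
    rw [sum_congr rfl this, sum_const, nsmul_eq_mul, div_eq_mul_one_div (#(cells A R₂) : ℝ),
      ENNReal.ofReal_mul (by positivity), ENNReal.ofReal_natCast]
  have h1 : (#(cells A R₂) : ℝ) / R₂ ≤ TFx.outer A R₂ := by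
    have h2 := ENNReal.toReal_mono (outer_fin A R₂) (measure_mono (μ := volume) hsub)
    rw [hvol, ENNReal.toReal_ofReal (by positivity)] at h2
    exact h2
  rw [div_le_iff₀ hR0] at h1
  exact h1

lemma nd_exists {x r : ℝ} (h : nd x ≤ r) : ∃ k : ℤ, |x - k| ≤ r := ⟨round x, h⟩

lemma small_of_tendsto {ω : ℝ → ℝ} (hω : Tendsto ω atTop (nhds 0)) {e : ℝ} (he : 0 < e) :
    ∃ X : ℝ, 1 ≤ X ∧ ∀ x, X ≤ x → ω x ≤ e := by
  obtain ⟨X, hX⟩ := Filter.eventually_atTop.1 (hω.eventually (Iio_mem_nhds he))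
  exact ⟨max X 1, le_max_right _ _, fun x hx => (hX x ((le_max_left _ _).trans hx)).le⟩

/-- The variation of a polynomial with small coefficients. -/
lemma var_le {t : ℕ} {f : ℝ[X]} (hf : f.natDegree ≤ t) {ρ₁ C L H : ℝ} (hL : 0 < L)
    (hC1 : 1 ≤ C) (hρ : 0 ≤ ρ₁) (hHL : H ≤ C * L)
    (hc : ∀ i, 1 ≤ i → i ≤ t → |f.coeff i| * L ^ i ≤ ρ₁) {x y : ℝ} (hx0 : 0 ≤ x) (hxH : x ≤ H)
    (hy0 : 0 ≤ y) (hyH : y ≤ H) : |f.eval x - f.eval y| ≤ ((t : ℝ) + 1) * (ρ₁ * C ^ t) := by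
  have hH0 : 0 ≤ H := hx0.trans hxH
  rw [eval_eq_sum_range' (Nat.lt_succ_of_le hf), eval_eq_sum_range' (Nat.lt_succ_of_le hf),
    ← sum_sub_distrib]
  refine (abs_sum_le_sum_abs _ _).trans ?_
  have h1 : ∀ i ∈ range (t + 1), |f.coeff i * x ^ i - f.coeff i * y ^ i| ≤ ρ₁ * C ^ t := by
    intro i hi
    rw [mem_range, Nat.lt_succ_iff] at hi
    have hCt : (0 : ℝ) ≤ ρ₁ * C ^ t := by positivity
    rcases Nat.eq_zero_or_pos i with h0 | h0
    · rw [h0]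
      simpa using hCt
    · have h2 : |x ^ i - y ^ i| ≤ H ^ i := by
        have a1 : x ^ i ≤ H ^ i := pow_le_pow_left₀ hx0 hxH i
        have a2 : y ^ i ≤ H ^ i := pow_le_pow_left₀ hy0 hyH i
        have a3 : 0 ≤ x ^ i := pow_nonneg hx0 i
        have a4 : 0 ≤ y ^ i := pow_nonneg hy0 i
        rw [abs_le]
        constructor <;> linarith
      have h3 : H ^ i ≤ C ^ t * L ^ i := by
        calc H ^ i ≤ (C * L) ^ i := pow_le_pow_left₀ hH0 hHL i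
          _ = C ^ i * L ^ i := mul_pow _ _ _
          _ ≤ C ^ t * L ^ i := by
              gcongr
      rw [← mul_sub, abs_mul]
      calc |f.coeff i| * |x ^ i - y ^ i| ≤ |f.coeff i| * (C ^ t * L ^ i) :=
            mul_le_mul_of_nonneg_left (h2.trans h3) (abs_nonneg _)
        _ = (|f.coeff i| * L ^ i) * C ^ t := by ring
        _ ≤ ρ₁ * C ^ t := mul_le_mul_of_nonneg_right (hc i h0 hi) (by positivity)
  refine (sum_le_sum h1).trans (le_of_eq ?_)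
  rw [sum_const, card_range, nsmul_eq_mul]
  push_cast
  ring

end LOCSx

open LOCSx

theorem locs : LOCS_stmt := by
  classical
  intro hC hE hR hSU hM t ε ω ht hε hε1 hω
  obtain ⟨c₁, E, qs, HC, hc0, hc1, hE0, hqs, hC⟩ := hC t ε ht hε hε1
  have hqs0 : (0 : ℝ) < qs := by exact_mod_cast hqs
  have hqs1 : (1 : ℝ) ≤ qs := by exact_mod_cast hqs
  obtain ⟨X₁, hX1, hX₁⟩ := small_of_tendsto hω (e := c₁ / (8 * qs)) (by positivity)
  have hX0 : 0 < X₁ := by linarith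
  obtain ⟨r₁, hr₁⟩ : ∃ r : ℝ, r = 1 / (2 * X₁) := ⟨_, rfl⟩
  have hr0 : 0 < r₁ := by
    rw [hr₁]
    positivity
  have hr2 : 2 * r₁ ≤ 1 := by
    have : 2 * r₁ = 1 / X₁ := by
      rw [hr₁]
      field_simp
    rw [this, div_le_one hX0]
    exact hX1
  have hrX : 1 / (2 * r₁) = X₁ := by
    rw [hr₁]
    field_simp
  obtain ⟨Eq, q₁, Lq, hEq0, hq₁, hEQ⟩ := hE t c₁ (2 / r₁) ht hc0 hc1 (by
    rw [le_div_iff₀ hr0]
    linarith)
  have hq10 : (0 : ℝ) < q₁ := by exact_mod_cast hq₁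
  have hq11 : (1 : ℝ) ≤ q₁ := by exact_mod_cast hq₁
  obtain ⟨Q₃, HS, hQ₃, hSU⟩ := hSU t q₁ ε Eq ht hq₁ hε hε1 hEq0
  have hQ30 : (0 : ℝ) < Q₃ := by exact_mod_cast hQ₃
  have hQ5 : 1 ≤ qs * q₁ * Q₃ := Nat.succ_le_of_lt (by positivity)
  refine ⟨ε / (16 * Q₃), qs * q₁ * Q₃, by positivity, hQ5, fun ρ hρ => ?_⟩
  obtain ⟨Q₅, hQ₅⟩ : ∃ Q : ℕ, Q = qs * q₁ * Q₃ := ⟨_, rfl⟩
  rw [← hQ₅] at hQ5 ⊢
  have hQ50 : (0 : ℝ) < Q₅ := by exact_mod_cast hQ5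
  have hQ5c : (Q₅ : ℝ) = qs * q₁ * Q₃ := by
    rw [hQ₅]
    push_cast
    ring
  obtain ⟨C, hCd⟩ : ∃ C : ℝ, C = 17 / ε := ⟨_, rfl⟩
  have hC1 : 1 ≤ C := by
    rw [hCd, le_div_iff₀ hε]
    linarith
  obtain ⟨ρ₁, hρ₁⟩ : ∃ r : ℝ, r = ρ / (2 * (((t : ℝ) + 1) * C ^ t)) := ⟨_, rfl⟩
  have hρ10 : 0 < ρ₁ := by
    rw [hρ₁]
    positivity
  obtain ⟨v, hv, hRN⟩ := hR t c₁ (max Eq 1) ρ₁ ht hc0 hc1 (le_max_right _ _) hρ10
  obtain ⟨X₂, hX2, hX₂⟩ := small_of_tendsto hω (e := v / (2 * Q₅)) (by positivity)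
  obtain ⟨R₂, hR₂⟩ : ∃ R : ℕ, R = 2 * ⌈X₂⌉₊ := ⟨_, rfl⟩
  have hR2X : 2 * X₂ ≤ R₂ := by
    rw [hR₂]
    push_cast
    linarith [Nat.le_ceil X₂]
  have hR20 : (0 : ℝ) < R₂ := by linarith
  have hR21 : 1 ≤ R₂ := by
    have : (1 : ℝ) ≤ R₂ := by linarith
    exact_mod_cast this
  obtain ⟨LR, hRN⟩ := hRN R₂ hR21
  obtain ⟨Lm, hLm⟩ : ∃ Lm : ℕ, Lm = max Lq (max LR 1) := ⟨_, rfl⟩
  refine ⟨max HC (max HS ⌈272 / ε + C * Lm + E * (4 / r₁) + E * R₂ + E * (2 / ρ) + 1⌉₊), ?_⟩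
  intro H m₀ hH S hS F hF hcount
  have hHC : HC ≤ H := (le_max_left _ _).trans hH
  have hHS : HS ≤ H := ((le_max_left _ _).trans (le_max_right _ _)).trans hH
  have hHb : 272 / ε + C * Lm + E * (4 / r₁) + E * R₂ + E * (2 / ρ) + 1 ≤ (H : ℝ) :=
    (Nat.le_ceil _).trans (by
      exact_mod_cast ((le_max_right _ _).trans (le_max_right _ _)).trans hH)
  have n1 : 0 ≤ 272 / ε := by positivity
  have n2 : 0 ≤ C * Lm := by positivity
  have n3 : 0 ≤ E * (4 / r₁) := by positivity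
  have n4 : 0 ≤ E * R₂ := by positivity
  have n5 : 0 ≤ E * (2 / ρ) := by positivity
  have hH0 : (0 : ℝ) < H := by linarith
  have hEH0 : 0 < E / H := by positivity
  have hEr : E / H ≤ r₁ / 4 := by
    rw [div_le_div_iff₀ hH0 (by norm_num)]
    have : E * (4 / r₁) ≤ H := by linarith
    rw [mul_div_assoc', div_le_iff₀ hr0] at this
    linarith
  have hER : E / H ≤ 1 / R₂ := by
    rw [div_le_div_iff₀ hH0 hR20]
    linarith
  have hEρ : E / H ≤ ρ / 2 := by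
    rw [div_le_div_iff₀ hH0 (by norm_num)]
    have : E * (2 / ρ) ≤ H := by linarith
    rw [mul_div_assoc', div_le_iff₀ hρ] at this
    linarith
  obtain ⟨L, hL⟩ : ∃ L : ℕ, L = ⌊ε / 16 * (H : ℝ)⌋₊ := ⟨_, rfl⟩
  rw [← hL] at hcount
  have hHCL : (H : ℝ) ≤ C * L := by
    have h1 : ε / 16 * (H : ℝ) < L + 1 := by
      rw [hL]
      exact Nat.lt_floor_add_one _
    have h2 : 272 ≤ ε * H := by
      have : 272 / ε ≤ H := by linarith
      rw [div_le_iff₀ hε] at this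
      linarith
    rw [hCd, div_mul_eq_mul_div, le_div_iff₀ hε]
    nlinarith
  have hLLm : Lm ≤ L := by
    have h1 : C * Lm ≤ C * L := by linarith
    have h2 : (Lm : ℝ) ≤ L := le_of_mul_le_mul_left h1 (by linarith)
    exact_mod_cast h2
  have hLq : Lq ≤ L := by
    rw [hLm] at hLLm
    exact (le_max_left _ _).trans hLLm
  have hLR : LR ≤ L := by
    rw [hLm] at hLLm
    exact ((le_max_left _ _).trans (le_max_right _ _)).trans hLLm
  have hL1 : 1 ≤ L := by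
    rw [hLm] at hLLm
    exact ((le_max_right _ _).trans (le_max_right _ _)).trans hLLm
  have hL0 : (0 : ℝ) < L := by exact_mod_cast hL1
  have hLH : (L : ℝ) ≤ H := by
    have : (L : ℝ) ≤ ε / 16 * H := hL ▸ Nat.floor_le (by positivity)
    nlinarith
  -- the polynomials
  have hch : ∀ n : ℕ, ∃ P : ℝ[X], ε / 2 ≤ F n → P.natDegree ≤ t ∧
      P.derivative.eval (n : ℝ) ∈ S ∧ ε / 2 ≤ Wp H n P := by
    intro n
    by_cases h : ε / 2 ≤ F n
    · obtain ⟨P, hP⟩ := hF n h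
      exact ⟨P, fun _ => hP⟩
    · exact ⟨0, fun h' => absurd h' h⟩
  choose Qf hQf using hch
  obtain ⟨J, hJ⟩ : ∃ J : Finset ℕ, J = (range L).filter fun j => ε / 2 ≤ F (m₀ + j) := ⟨_, rfl⟩
  rw [← hJ] at hcount
  have hJm : ∀ j ∈ J, j < L ∧ ε / 2 ≤ F (m₀ + j) := by
    intro j hj
    rw [hJ, mem_filter, mem_range] at hj
    exact hj
  obtain ⟨P, hPd, hPW, hPc⟩ := hC H L m₀ hHC hL J (fun j => Qf (m₀ + j))
    (fun j hj => (hJm j hj).1) hcount (fun j hj => (hQf _ (hJm j hj).2).1)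
    (fun j hj => (hQf _ (hJm j hj).2).2.2)
  obtain ⟨Gd, hGd⟩ : ∃ Gd : Finset ℕ, Gd = J.filter fun j : ℕ => nd ((qs : ℝ) *
      (P.derivative.eval ((m₀ : ℝ) + j) - (Qf (m₀ + j)).derivative.eval ((m₀ : ℝ) + j))) ≤ E / H :=
    ⟨_, rfl⟩
  rw [← hGd] at hPc
  obtain ⟨p, hp⟩ : ∃ p : ℝ[X], p = taylor (m₀ : ℝ) P.derivative := ⟨_, rfl⟩
  have hpe : ∀ x : ℝ, p.eval x = P.derivative.eval ((m₀ : ℝ) + x) := by
    intro x
    rw [hp, taylor_eval, add_comm]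
  have hpd : p.natDegree ≤ t := by
    rw [hp, natDegree_taylor]
    exact (natDegree_derivative_le _).trans (by omega)
  have hgood : ∀ j ∈ Gd, j < L ∧ ∃ z ∈ S, ∃ k : ℤ, |p.eval (j : ℝ) - z - k / qs| ≤ E / H := by
    intro j hj
    rw [hGd, mem_filter] at hj
    obtain ⟨hjL, hjF⟩ := hJm j hj.1
    refine ⟨hjL, (Qf (m₀ + j)).derivative.eval ((m₀ : ℝ) + j), ?_, ?_⟩
    · have := (hQf _ hjF).2.1
      push_cast at this
      exact this
    · obtain ⟨k, hk⟩ := nd_exists hj.2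
      refine ⟨k, ?_⟩
      rw [hpe]
      have e : P.derivative.eval ((m₀ : ℝ) + j) - (Qf (m₀ + j)).derivative.eval ((m₀ : ℝ) + j) -
          k / qs = ((qs : ℝ) * (P.derivative.eval ((m₀ : ℝ) + j) -
            (Qf (m₀ + j)).derivative.eval ((m₀ : ℝ) + j)) - k) / qs := by
        field_simp
      rw [e, abs_div, abs_of_pos hqs0, div_le_iff₀ hqs0]
      exact hk.trans (le_mul_of_one_le_right hEH0.le hqs1)
  have hGsub : Gd ⊆ range L := fun j hj => mem_range.2 (hgood j hj).1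
  -- the set M
  obtain ⟨M, hMd⟩ : ∃ M : Set ℝ, M = ⋃ z ∈ S, ⋃ k : ℤ, Metric.ball (z + (k : ℝ) / qs) r₁ := ⟨_, rfl⟩
  have hMmem : ∀ x, x ∈ M ↔ ∃ z ∈ S, ∃ k : ℤ, |x - z - k / qs| < r₁ := by
    intro x
    rw [hMd]
    simp only [Set.mem_iUnion, Metric.mem_ball, Real.dist_eq, exists_prop]
    constructor
    · rintro ⟨z, hz, k, hk⟩
      exact ⟨z, hz, k, by rw [show x - z - k / qs = x - (z + (k : ℝ) / qs) by ring]; exact hk⟩
    · rintro ⟨z, hz, k, hk⟩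
      exact ⟨z, hz, k, by rw [show x - (z + (k : ℝ) / qs) = x - z - k / qs by ring]; exact hk⟩
  have hMmeas : MeasurableSet M := by
    rw [hMd]
    exact (isOpen_biUnion fun z _ => isOpen_iUnion fun k => Metric.isOpen_ball).measurableSet
  have hMper : ∀ x : ℝ, x + 1 ∈ M ↔ x ∈ M := by
    intro x
    rw [hMmem, hMmem]
    constructor
    · rintro ⟨z, hz, k, hk⟩
      refine ⟨z, hz, k - qs, ?_⟩
      rw [show x - z - ((k - qs : ℤ) : ℝ) / qs = x + 1 - z - k / qs by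
        push_cast
        field_simp
        ring]
      exact hk
    · rintro ⟨z, hz, k, hk⟩
      refine ⟨z, hz, k + qs, ?_⟩
      rw [show x + 1 - z - ((k + qs : ℤ) : ℝ) / qs = x - z - k / qs by
        push_cast
        field_simp
        ring]
      exact hk
  have hMvol : (volume (M ∩ Set.Icc 0 1)).toReal ≤ c₁ / 4 := by
    have h1 : (volume (M ∩ Set.Icc 0 1)).toReal ≤ TFx.outer (Nr S qs r₁) (1 / r₁) := by
      unfold TFx.outer
      apply ENNReal.toReal_mono (outer_fin _ _)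
      apply measure_mono
      rintro x ⟨hx1, hx2⟩
      obtain ⟨z, hz, k, hk⟩ := (hMmem x).1 hx1
      refine ⟨hx2, x, ⟨z, hz, k, hk.le⟩, 0, ?_⟩
      rw [one_div_one_div, sub_self, Int.cast_zero, sub_zero, abs_zero]
      exact hr0.le
    have h2 := vol_le hM hS hqs hr0 hr2
    rw [hrX] at h2
    have h3 := hX₁ X₁ le_rfl
    have h4 : 2 * (qs : ℝ) * ω X₁ ≤ c₁ / 4 := by
      calc 2 * (qs : ℝ) * ω X₁ ≤ 2 * (qs : ℝ) * (c₁ / (8 * qs)) := by gcongr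
        _ = c₁ / 4 := by
            field_simp
            norm_num
    linarith
  have hcount2 : c₁ * (L : ℝ) ≤ (#((range L).filter fun j : ℕ =>
      ∀ z : ℝ, |z - p.eval (j : ℝ)| ≤ 1 / (2 / r₁) → z ∈ M) : ℝ) := by
    refine hPc.trans ?_
    norm_cast
    apply card_le_card
    intro j hj
    rw [mem_filter]
    refine ⟨hGsub hj, fun y hy => ?_⟩
    obtain ⟨-, z, hz, k, hk⟩ := hgood j hj
    rw [hMmem]
    refine ⟨z, hz, k, ?_⟩
    have e : y - z - k / qs = (y - p.eval (j : ℝ)) + (p.eval (j : ℝ) - z - k / qs) := by ring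
    rw [e]
    refine lt_of_le_of_lt (abs_add_le _ _) ?_
    rw [one_div_div] at hy
    linarith
  have hEQ' := hEQ L hLq M p hMmeas hMper hMvol hpd hcount2
  have hsum := hSU H L m₀ ⌊(H : ℝ) ^ (1 / 3 : ℝ)⌋₊ hHS hL rfl P hPd (by
    rw [← hp]
    exact hEQ') hPW
  -- the bounded part
  obtain ⟨a, ha⟩ : ∃ a : ℕ → ℤ, a = fun i => round ((q₁ : ℝ) * p.coeff i) := ⟨_, rfl⟩
  obtain ⟨f, hf⟩ : ∃ f : ℝ[X], f = p - ∑ i ∈ Icc 1 t, Polynomial.C ((a i : ℝ) / q₁) * X ^ i :=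
    ⟨_, rfl⟩
  have hfe : ∀ s : ℕ, ∃ A : ℤ, f.eval (s : ℝ) = p.eval (s : ℝ) - A / q₁ := by
    intro s
    refine ⟨∑ i ∈ Icc 1 t, a i * (s : ℤ) ^ i, ?_⟩
    rw [hf, eval_sub, eval_finsetSum]
    congr 1
    push_cast
    rw [sum_div]
    refine sum_congr rfl fun i _ => ?_
    simp only [eval_mul, eval_C, eval_pow, eval_X]
    ring
  have hfd : f.natDegree ≤ t := by
    rw [hf]
    refine (natDegree_sub_le _ _).trans (max_le hpd ?_)
    refine natDegree_sum_le_of_forall_le _ _ fun i hi => ?_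
    exact (natDegree_C_mul_X_pow_le _ _).trans (mem_Icc.1 hi).2
  have hfc : ∀ i, 1 ≤ i → i ≤ t → |f.coeff i| * (L : ℝ) ^ i ≤ max Eq 1 := by
    intro i hi1 hit
    have e1 : f.coeff i = p.coeff i - (a i : ℝ) / q₁ := by
      rw [hf, coeff_sub, finsetSum_coeff]
      congr 1
      rw [sum_eq_single_of_mem i (mem_Icc.2 ⟨hi1, hit⟩)]
      · rw [coeff_C_mul_X_pow, if_pos rfl]
      · intro j _ hj
        rw [coeff_C_mul_X_pow, if_neg (Ne.symm hj)]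
    have e2 : p.coeff i - (a i : ℝ) / q₁ = ((q₁ : ℝ) * p.coeff i - a i) / q₁ := by
      field_simp
    have h1 : |(q₁ : ℝ) * p.coeff i - a i| ≤ Eq / (L : ℝ) ^ i := by
      rw [ha]
      exact hEQ' i hi1 hit
    have h2 : |f.coeff i| ≤ Eq / (L : ℝ) ^ i := by
      rw [e1, e2, abs_div, abs_of_pos hq10, div_le_iff₀ hq10]
      refine h1.trans (le_mul_of_one_le_right (by positivity) hq11)
    calc |f.coeff i| * (L : ℝ) ^ i ≤ Eq / (L : ℝ) ^ i * (L : ℝ) ^ i :=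
          mul_le_mul_of_nonneg_right h2 (by positivity)
      _ = Eq := by field_simp
      _ ≤ max Eq 1 := le_max_left _ _
  have hnr : ∀ j ∈ Gd, f.eval (j : ℝ) ∈ Nr S Q₅ (1 / R₂) := by
    intro j hj
    obtain ⟨-, z, hz, k, hk⟩ := hgood j hj
    obtain ⟨A, hA⟩ := hfe j
    refine ⟨z, hz, k * q₁ * Q₃ - A * qs * Q₃, ?_⟩
    have e : f.eval (j : ℝ) - z - ((k * q₁ * Q₃ - A * qs * Q₃ : ℤ) : ℝ) / Q₅ =
        p.eval (j : ℝ) - z - k / qs := by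
      rw [hA, hQ5c]
      push_cast
      field_simp
      ring
    rw [e]
    exact hk.trans hER
  have hIc : (#(cells (Nr S Q₅ (1 / R₂)) R₂) : ℝ) ≤ v * R₂ := by
    refine (cells_card _ hR21).trans ?_
    apply mul_le_mul_of_nonneg_right _ hR20.le
    have h1 := vol_le hM hS hQ5 (r := 1 / (R₂ : ℝ)) (by positivity) (by
      rw [mul_one_div, div_le_one hR20]
      linarith)
    rw [one_div_one_div] at h1
    have e1 : 1 / (2 * (1 / (R₂ : ℝ))) = R₂ / 2 := by field_simp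
    rw [e1] at h1
    have h2 := hX₂ ((R₂ : ℝ) / 2) (by linarith)
    have h3 : 2 * (Q₅ : ℝ) * ω ((R₂ : ℝ) / 2) ≤ v := by
      calc 2 * (Q₅ : ℝ) * ω ((R₂ : ℝ) / 2) ≤ 2 * (Q₅ : ℝ) * (v / (2 * Q₅)) := by gcongr
        _ = v := by field_simp
    linarith
  have hIs : cells (Nr S Q₅ (1 / R₂)) R₂ ⊆ range R₂ := by
    unfold cells
    exact filter_subset _ _
  have hcount3 : c₁ * (L : ℝ) ≤ (#((range L).filter fun j : ℕ =>
      ⌊(R₂ : ℝ) * Int.fract (f.eval (j : ℝ))⌋₊ ∈ cells (Nr S Q₅ (1 / R₂)) R₂) : ℝ) := by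
    refine hPc.trans ?_
    norm_cast
    apply card_le_card
    intro j hj
    rw [mem_filter]
    refine ⟨hGsub hj, ?_⟩
    unfold cells
    rw [mem_filter, mem_range]
    refine ⟨?_, f.eval (j : ℝ), hnr j hj, rfl⟩
    rw [Nat.floor_lt (mul_nonneg hR20.le (Int.fract_nonneg _))]
    nlinarith [Int.fract_lt_one (f.eval (j : ℝ))]
  have hsmall := hRN L hLR (cells (Nr S Q₅ (1 / R₂)) R₂) f hIs hIc hfd hfc hcount3
  -- a good point
  have hne : Gd.Nonempty := by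
    rw [nonempty_iff_ne_empty]
    intro h0
    rw [h0, card_empty, Nat.cast_zero] at hPc
    have : 0 < c₁ * L := by positivity
    linarith
  obtain ⟨j₁, hj₁⟩ := hne
  obtain ⟨hj1L, z, hz, k, hk⟩ := hgood j₁ hj₁
  obtain ⟨A₁, hA₁⟩ := hfe j₁
  have hmem : ∀ x ∈ Ioc m₀ (m₀ + H), ∀ b : ℕ,
      P.derivative.eval (x : ℝ) + (b : ℝ) / Q₃ ∈ Nr S Q₅ ρ := by
    intro x hx b
    rw [mem_Ioc] at hx
    obtain ⟨s, hs⟩ : ∃ s : ℕ, x = m₀ + s := ⟨x - m₀, by omega⟩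
    obtain ⟨A, hA⟩ := hfe s
    have hsH : (s : ℝ) ≤ H := by
      have : s ≤ H := by omega
      exact_mod_cast this
    have hj1H : (j₁ : ℝ) ≤ H := by
      have : (j₁ : ℝ) < L := by exact_mod_cast hj1L
      linarith
    have h1 := var_le hfd hL0 hC1 hρ10.le hHCL hsmall (Nat.cast_nonneg s) hsH
      (Nat.cast_nonneg j₁) hj1H
    have h2 : ((t : ℝ) + 1) * (ρ₁ * C ^ t) = ρ / 2 := by
      rw [hρ₁]
      field_simp
    rw [h2] at h1
    refine ⟨z, hz, k * q₁ * Q₃ + (A - A₁) * qs * Q₃ + b * qs * q₁, ?_⟩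
    have e : P.derivative.eval (x : ℝ) + (b : ℝ) / Q₃ - z -
        ((k * q₁ * Q₃ + (A - A₁) * qs * Q₃ + b * qs * q₁ : ℤ) : ℝ) / Q₅ =
        (f.eval (s : ℝ) - f.eval (j₁ : ℝ)) + (p.eval (j₁ : ℝ) - z - k / qs) := by
      rw [hA, hA₁, hs]
      push_cast
      rw [← hpe, hQ5c]
      field_simp
      ring
    rw [e]
    refine (abs_add_le _ _).trans ?_
    linarith
  have hfin : ∑ x ∈ Ioc m₀ (m₀ + H), ∑ b ∈ range Q₃,
      vv ⌊(H : ℝ) ^ (1 / 3 : ℝ)⌋₊ x (P.derivative.eval (x : ℝ) + (b : ℝ) / Q₃) ≤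
      Q₃ * ∑ x ∈ Ioc m₀ (m₀ + H), TFx.sB (Nr S Q₅ ρ) ⌊(H : ℝ) ^ (1 / 3 : ℝ)⌋₊ x := by
    rw [mul_sum]
    refine sum_le_sum fun x hx => ?_
    calc _ ≤ ∑ b ∈ range Q₃, TFx.sB (Nr S Q₅ ρ) ⌊(H : ℝ) ^ (1 / 3 : ℝ)⌋₊ x :=
          sum_le_sum fun b _ => TFx.le_sB _ _ (hmem x hx b)
      _ = _ := by rw [sum_const, card_range, nsmul_eq_mul]
  have h9 := hsum.trans hfin
  have e9 : ε / (16 * Q₃) * (H : ℝ) = (ε / 16 * H) / Q₃ := by field_simp
  rw [e9, div_le_iff₀ hQ30]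
  linarith

end Pool.Agent.VQ
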