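import Mathlib
import Pool.Agent.Lib.VQ.WDefs

/-!
# Theorem W, row MEAS: the measure of the neighbourhood of `S + ℤ / Q` (helper83)
-/

set_option autoImplicit false
open Finset MeasureTheory Polynomial Filter

namespace Pool.Agent.VQ

open Pool.Agent.Lib.MP_663568_nt Pool.Agent.Lib.MP_663568_nt.Katai
  Pool.Agent.Lib.MP_663568_nt.Nul Pool.Agent.SV

namespace MEASx

/-- Translates of periodic sets (not necessarily measurable). -/
lemma per_le01 (P : Set ℝ) (hP : ∀ x : ℝ, x + 1 ∈ P ↔ x ∈ P) {c : ℝ} (hc0 : 0 ≤ c) (hc1 : c ≤ 1) :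
    volume {x : ℝ | x ∈ Set.Icc (0 : ℝ) 1 ∧ x - c ∈ P} ≤ volume (Set.Icc (0 : ℝ) 1 ∩ P) := by
  have hsub : {x : ℝ | x ∈ Set.Icc (0 : ℝ) 1 ∧ x - c ∈ P} ⊆
      (fun x => x - c) ⁻¹' (Set.Icc 0 (1 - c) ∩ P) ∪
        (fun x => x + (1 - c)) ⁻¹' ((Set.Icc (0 : ℝ) 1 \ Set.Iio (1 - c)) ∩ P) := by
    rintro x ⟨⟨h0, h1⟩, h2⟩
    rcases le_total c x with h | h
    · left
      exact ⟨⟨by linarith, by linarith⟩, h2⟩
    · right
      refine ⟨⟨⟨by linarith, by linarith⟩, ?_⟩, ?_⟩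
      · rw [Set.mem_Iio]
        push Not
        linarith
      · have : x + (1 - c) = x - c + 1 := by ring
        show x + (1 - c) ∈ P
        rw [this, hP]
        exact h2
  have e1 : volume ((fun x => x - c) ⁻¹' (Set.Icc 0 (1 - c) ∩ P)) =
      volume (Set.Icc 0 (1 - c) ∩ P) := by
    simp_rw [sub_eq_add_neg]
    rw [measure_preimage_add_right]
  have e2 : volume ((fun x => x + (1 - c)) ⁻¹' ((Set.Icc (0 : ℝ) 1 \ Set.Iio (1 - c)) ∩ P)) =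
      volume ((Set.Icc (0 : ℝ) 1 \ Set.Iio (1 - c)) ∩ P) := measure_preimage_add_right _ _ _
  have e3 : volume (Set.Icc 0 (1 - c) ∩ P) = volume (Set.Ico 0 (1 - c) ∩ P) := by
    apply le_antisymm _ (measure_mono (Set.inter_subset_inter_left _ Set.Ico_subset_Icc_self))
    have h : Set.Icc 0 (1 - c) ∩ P ⊆ (Set.Ico 0 (1 - c) ∩ P) ∪ {1 - c} := by
      rintro x ⟨⟨h0, h1⟩, h2⟩
      rcases h1.lt_or_eq with h3 | h3
      · exact Or.inl ⟨⟨h0, h3⟩, h2⟩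
      · exact Or.inr h3
    refine (measure_mono h).trans ((measure_union_le _ _).trans ?_)
    simp
  calc volume {x : ℝ | x ∈ Set.Icc (0 : ℝ) 1 ∧ x - c ∈ P}
      ≤ volume (Set.Icc 0 (1 - c) ∩ P) +
          volume ((Set.Icc (0 : ℝ) 1 \ Set.Iio (1 - c)) ∩ P) := by
        rw [← e1, ← e2]
        exact (measure_mono hsub).trans (measure_union_le _ _)
    _ = volume ((Set.Icc (0 : ℝ) 1 ∩ P) ∩ Set.Iio (1 - c)) +
          volume ((Set.Icc (0 : ℝ) 1 ∩ P) \ Set.Iio (1 - c)) := by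
        rw [e3]
        congr 2
        · ext x
          simp only [Set.mem_inter_iff, Set.mem_Ico, Set.mem_Icc, Set.mem_Iio]
          constructor
          · rintro ⟨⟨h0, h1⟩, h2⟩
            exact ⟨⟨⟨h0, by linarith⟩, h2⟩, h1⟩
          · rintro ⟨⟨⟨h0, h1⟩, h2⟩, h3⟩
            exact ⟨⟨h0, h3⟩, h2⟩
        · ext x
          simp only [Set.mem_inter_iff, Set.mem_sdiff]
          tauto
    _ = volume (Set.Icc (0 : ℝ) 1 ∩ P) := measure_inter_add_sdiff _ measurableSet_Iio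

lemma per_int (P : Set ℝ) (hP : ∀ x : ℝ, x + 1 ∈ P ↔ x ∈ P) (x : ℝ) (n : ℤ) :
    x + n ∈ P ↔ x ∈ P := by
  induction n using Int.induction_on with
  | zero => simp
  | succ i ih =>
    rw [show x + (((i : ℤ) + 1 : ℤ) : ℝ) = x + ((i : ℤ) : ℝ) + 1 by push_cast; ring, hP]
    exact ih
  | pred i ih =>
    rw [← hP, show x + ((-(i : ℤ) - 1 : ℤ) : ℝ) + 1 = x + ((-(i : ℤ) : ℤ) : ℝ) by
      push_cast; ring]
    exact ih

lemma per_le (P : Set ℝ) (hP : ∀ x : ℝ, x + 1 ∈ P ↔ x ∈ P) (c : ℝ) :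
    volume {x : ℝ | x ∈ Set.Icc (0 : ℝ) 1 ∧ x - c ∈ P} ≤ volume (Set.Icc (0 : ℝ) 1 ∩ P) := by
  have h : {x : ℝ | x ∈ Set.Icc (0 : ℝ) 1 ∧ x - c ∈ P} =
      {x : ℝ | x ∈ Set.Icc (0 : ℝ) 1 ∧ x - Int.fract c ∈ P} := by
    ext x
    have e : x - Int.fract c = x - c + (⌊c⌋ : ℤ) := by
      rw [Int.fract]
      ring
    simp only [Set.mem_ofPred_eq, e, per_int P hP]
  rw [h]
  exact per_le01 P hP (Int.fract_nonneg c) (Int.fract_lt_one c).le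

lemma per_neg_le (P : Set ℝ) (hP : ∀ x : ℝ, x + 1 ∈ P ↔ x ∈ P) (c : ℝ) :
    volume {x : ℝ | x ∈ Set.Icc (0 : ℝ) 1 ∧ -x - c ∈ P} ≤ volume (Set.Icc (0 : ℝ) 1 ∩ P) := by
  have h : {x : ℝ | x ∈ Set.Icc (0 : ℝ) 1 ∧ -x - c ∈ P} =
      (fun x => 1 - x) ⁻¹' {x : ℝ | x ∈ Set.Icc (0 : ℝ) 1 ∧ x - (1 + c) ∈ P} := by
    ext x
    simp only [Set.mem_ofPred_eq, Set.mem_preimage, Set.mem_Icc]
    rw [show 1 - x - (1 + c) = -x - c by ring]
    constructor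
    · rintro ⟨⟨h0, h1⟩, h2⟩
      exact ⟨⟨by linarith, by linarith⟩, h2⟩
    · rintro ⟨⟨h0, h1⟩, h2⟩
      exact ⟨⟨by linarith, by linarith⟩, h2⟩
  have hmp : MeasurePreserving (MeasurableEquiv.subLeft (1 : ℝ)) volume volume :=
    Measure.measurePreserving_sub_left volume 1
  have e : volume ((fun x : ℝ => 1 - x) ⁻¹' {x : ℝ | x ∈ Set.Icc (0 : ℝ) 1 ∧ x - (1 + c) ∈ P}) =
      volume {x : ℝ | x ∈ Set.Icc (0 : ℝ) 1 ∧ x - (1 + c) ∈ P} := hmp.measure_preimage_equiv _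
  rw [h, e]
  exact per_le P hP _

end MEASx

open MEASx

theorem meas : MEAS_stmt := by
  intro S Q R ρ hQ hR hρ hσ
  obtain ⟨σ, hσd⟩ : ∃ σ : ℝ, σ = ρ + 1 / R := ⟨_, rfl⟩
  rw [← hσd] at hσ ⊢
  have hQ0 : (0 : ℝ) < Q := by exact_mod_cast hQ
  obtain ⟨P, hPd⟩ : ∃ P : Set ℝ, P = {x : ℝ | ∃ z ∈ S, ∃ b : ℤ, |z - x - b| ≤ σ} := ⟨_, rfl⟩
  have hP : ∀ x : ℝ, x + 1 ∈ P ↔ x ∈ P := by
    intro x
    rw [hPd]
    constructor
    · rintro ⟨z, hz, b, hb⟩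
      refine ⟨z, hz, b + 1, ?_⟩
      rw [show z - x - ((b + 1 : ℤ) : ℝ) = z - (x + 1) - b by push_cast; ring]
      exact hb
    · rintro ⟨z, hz, b, hb⟩
      refine ⟨z, hz, b - 1, ?_⟩
      rw [show z - (x + 1) - ((b - 1 : ℤ) : ℝ) = z - x - b by push_cast; ring]
      exact hb
  have hfin : volume (Set.Icc (0 : ℝ) 1 ∩ P) ≠ ⊤ := by
    apply ne_top_of_le_ne_top _ (measure_mono Set.inter_subset_left)
    simp
  have hout : TFx.outer S (1 / σ) = (volume (Set.Icc (0 : ℝ) 1 ∩ P)).toReal := by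
    rw [TFx.outer, one_div_one_div, hPd]
    rfl
  -- the key point
  have key : ∀ x w : ℝ, ∀ b : ℤ, w ∈ Nr S Q ρ → |w - x - b| ≤ 1 / R →
      ∃ r ∈ range Q, x - (r : ℝ) / Q ∈ P := by
    rintro x w b ⟨z, hz, k, hk⟩ hb
    have hm0 : 0 ≤ k % (Q : ℤ) := Int.emod_nonneg _ (by omega)
    have hm1 : k % (Q : ℤ) < Q := Int.emod_lt_of_pos _ (by omega)
    refine ⟨(k % (Q : ℤ)).toNat, ?_, ?_⟩
    · rw [mem_range]
      omega
    · rw [hPd]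
      refine ⟨z, hz, b - k / (Q : ℤ), ?_⟩
      have e1 : (((k % (Q : ℤ)).toNat : ℕ) : ℝ) = k - Q * ((k / (Q : ℤ) : ℤ) : ℝ) := by
        have h1 : (((k % (Q : ℤ)).toNat : ℕ) : ℤ) = k - Q * (k / (Q : ℤ)) := by
          rw [Int.toNat_of_nonneg hm0, Int.emod_def]
        exact_mod_cast h1
      have e2 : z - (x - (((k % (Q : ℤ)).toNat : ℕ) : ℝ) / Q) - ((b - k / (Q : ℤ) : ℤ) : ℝ) =
          (w - x - b) - (w - z - k / Q) := by
        rw [e1]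
        push_cast
        field_simp
        ring
      rw [e2, hσd]
      refine (abs_sub _ _).trans ?_
      linarith
  have hsub : {x : ℝ | x ∈ Set.Icc 0 1 ∧ ∃ y ∈ TFx.Sym (Nr S Q ρ), ∃ b : ℤ,
      |y - x - b| ≤ 1 / R} ⊆ ⋃ r ∈ range Q,
      ({x : ℝ | x ∈ Set.Icc (0 : ℝ) 1 ∧ x - (r : ℝ) / Q ∈ P} ∪
        {x : ℝ | x ∈ Set.Icc (0 : ℝ) 1 ∧ -x - (r : ℝ) / Q ∈ P}) := by
    rintro x ⟨hx, y, hy, b, hb⟩
    rw [Set.mem_iUnion₂]
    rcases hy with hy | hy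
    · obtain ⟨r, hr, h⟩ := key x y b hy hb
      exact ⟨r, hr, Or.inl ⟨hx, h⟩⟩
    · obtain ⟨r, hr, h⟩ := key (-x) (-y) (-b) hy (by
        rw [show -y - -x - ((-b : ℤ) : ℝ) = -(y - x - b) by push_cast; ring, abs_neg]
        exact hb)
      exact ⟨r, hr, Or.inr ⟨hx, h⟩⟩
  have hvol : volume {x : ℝ | x ∈ Set.Icc 0 1 ∧ ∃ y ∈ TFx.Sym (Nr S Q ρ), ∃ b : ℤ,
      |y - x - b| ≤ 1 / R} ≤ ((2 * Q : ℕ) : ENNReal) * volume (Set.Icc (0 : ℝ) 1 ∩ P) := by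
    refine (measure_mono hsub).trans ((measure_biUnion_finset_le _ _).trans ?_)
    calc _ ≤ ∑ r ∈ range Q, (volume (Set.Icc (0 : ℝ) 1 ∩ P) + volume (Set.Icc (0 : ℝ) 1 ∩ P)) :=
          sum_le_sum fun r _ => (measure_union_le _ _).trans
            (add_le_add (per_le P hP _) (per_neg_le P hP _))
      _ = ((2 * Q : ℕ) : ENNReal) * volume (Set.Icc (0 : ℝ) 1 ∩ P) := by
          rw [sum_const, card_range, nsmul_eq_mul]
          push_cast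
          ring
  rw [hout, TFx.outer]
  refine (ENNReal.toReal_mono (ENNReal.mul_ne_top (ENNReal.natCast_ne_top _) hfin) hvol).trans (le_of_eq ?_)
  rw [ENNReal.toReal_mul, ENNReal.toReal_natCast]
  push_cast
  ring

end Pool.Agent.VQ
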