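import Mathlib
import Pool.Agent.Lib.VQ.WDefs

/-!
# Theorems W and WS (MP_663568_nt): from one window to the sum over `n ≤ N`, supremum inside.

helper19.
-/

set_option autoImplicit false
open Finset MeasureTheory Polynomial Filter

namespace Pool.Agent.VQ

open Pool.Agent.Lib.MP_663568_nt Pool.Agent.Lib.MP_663568_nt.Katai
  Pool.Agent.Lib.MP_663568_nt.Nul Pool.Agent.SV

noncomputable section

namespace PAvgx

/-- The logarithmic average of the supremum over the polynomials of degree at most `t` with linear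
coefficient in `B n`. -/
def PAvg (t : ℕ) (B : ℕ → Set ℝ) (N H : ℕ) : ℝ :=
  ∑ n ∈ Finset.Icc 1 N, (1 / (n : ℝ)) *
    ⨆ P : {P : Polynomial ℝ // P.natDegree ≤ t ∧ P.coeff 1 ∈ B n},
      ‖∑ h ∈ Finset.Icc 1 H,
        Complex.exp (2 * Real.pi * Complex.I * (((P : Polynomial ℝ).eval (h : ℝ) : ℝ) : ℂ)) *
          ((ArithmeticFunction.moebius (n + h) : ℤ) : ℂ)‖

/-- The absolute polynomial of a centred one. -/
theorem abs_poly (P : ℝ[X]) (H n : ℕ) :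
    (P.comp (X - C (n : ℝ))).natDegree ≤ P.natDegree ∧
    (P.comp (X - C (n : ℝ))).derivative.eval (n : ℝ) = P.coeff 1 ∧
    ‖∑ h ∈ Finset.Icc 1 H,
        Complex.exp (2 * Real.pi * Complex.I * ((P.eval (h : ℝ) : ℝ) : ℂ)) *
          ((ArithmeticFunction.moebius (n + h) : ℤ) : ℂ)‖ =
      H * Wp H n (P.comp (X - C (n : ℝ))) := by
  refine ⟨?_, ?_, ?_⟩
  · rw [natDegree_comp, natDegree_X_sub_C, mul_one]
  · rw [derivative_comp, eval_mul, eval_comp]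
    simp only [derivative_sub, derivative_X, derivative_C, sub_zero, eval_one, eval_sub,
      eval_X, eval_C, sub_self]
    rw [← coeff_zero_eq_eval_zero, coeff_derivative]
    simp
  · unfold Wp
    have h1 : ∑ h ∈ Finset.Icc 1 H,
        Complex.exp (2 * Real.pi * Complex.I * ((P.eval (h : ℝ) : ℝ) : ℂ)) *
          ((ArithmeticFunction.moebius (n + h) : ℤ) : ℂ) =
        ∑ h ∈ Icc 1 H, muC (n + h) * ee ((P.comp (X - C (n : ℝ))).eval ((n : ℝ) + h)) := by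
      refine sum_congr rfl fun h _ => ?_
      rw [eval_comp]
      simp only [eval_sub, eval_X, eval_C, add_sub_cancel_left]
      unfold muC ee
      ring
    rw [h1]
    rcases Nat.eq_zero_or_pos H with h0 | h0
    · subst h0; simp
    · have : (H : ℝ) ≠ 0 := by positivity
      field_simp

theorem Wp_le (H n : ℕ) (P : ℝ[X]) : 0 ≤ Wp H n P ∧ Wp H n P ≤ 1 := by
  unfold Wp
  refine ⟨by positivity, div_le_one_of_le₀ ?_ (Nat.cast_nonneg _)⟩
  refine (norm_sum_le _ _).trans ?_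
  have h1 : ∀ m ∈ Icc 1 H, ‖muC (n + m) * ee (P.eval ((n : ℝ) + m))‖ ≤ 1 := by
    intro m _
    rw [norm_mul, norm_ee, mul_one]
    unfold muC
    rw [Complex.norm_intCast]
    exact_mod_cast ArithmeticFunction.abs_moebius_le_one (n := n + m)
  refine (sum_le_sum h1).trans ?_
  simp

/-- Choice of almost optimal polynomials. -/
theorem choice {t : ℕ} (ht : 1 ≤ t) {B : ℕ → Set ℝ} (hB : ∀ n, (B n).Nonempty) (N H : ℕ)
    {e : ℝ} (he : 0 < e) : ∃ P : ℕ → ℝ[X], (∀ n, (P n).natDegree ≤ t) ∧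
    (∀ n : ℕ, (P n).derivative.eval (n : ℝ) ∈ B n) ∧
    PAvg t B N H ≤ ∑ n ∈ Icc 1 N, (1 / (n : ℝ)) * (H * Wp H n (P n) + e) := by
  have hne : ∀ n, Nonempty {P : Polynomial ℝ // P.natDegree ≤ t ∧ P.coeff 1 ∈ B n} := by
    intro n
    obtain ⟨y, hy⟩ := hB n
    refine ⟨⟨C y * X, ((natDegree_C_mul_le y X).trans natDegree_X_le).trans ht, ?_⟩⟩
    simpa using hy
  have hex : ∀ n : ℕ, ∃ P : {P : Polynomial ℝ // P.natDegree ≤ t ∧ P.coeff 1 ∈ B n},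
      (⨆ P : {P : Polynomial ℝ // P.natDegree ≤ t ∧ P.coeff 1 ∈ B n},
      ‖∑ h ∈ Finset.Icc 1 H,
        Complex.exp (2 * Real.pi * Complex.I * (((P : Polynomial ℝ).eval (h : ℝ) : ℝ) : ℂ)) *
          ((ArithmeticFunction.moebius (n + h) : ℤ) : ℂ)‖) - e <
      ‖∑ h ∈ Finset.Icc 1 H,
        Complex.exp (2 * Real.pi * Complex.I * (((P : Polynomial ℝ).eval (h : ℝ) : ℝ) : ℂ)) *
          ((ArithmeticFunction.moebius (n + h) : ℤ) : ℂ)‖ := by
    intro n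
    have := hne n
    exact exists_lt_of_lt_ciSup (by linarith)
  choose P hP using hex
  refine ⟨fun n => (P n : ℝ[X]).comp (X - C (n : ℝ)), fun n => ?_, fun n => ?_, ?_⟩
  · exact (abs_poly (P n) H n).1.trans (P n).2.1
  · rw [(abs_poly (P n) H n).2.1]; exact (P n).2.2
  · unfold PAvg
    refine sum_le_sum fun n _ => ?_
    refine mul_le_mul_of_nonneg_left ?_ (by positivity)
    have h1 := hP n
    rw [(abs_poly (P n) H n).2.2] at h1
    linarith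

theorem harm' {N : ℕ} (hN : 3 ≤ N) : 1 ≤ Real.log N ∧
    ∑ n ∈ Icc 1 N, 1 / (n : ℝ) ≤ 2 * Real.log N := TFx.harm hN

theorem sum_small (n₁ : ℕ) : ∑ n ∈ Icc 1 n₁, 1 / (n : ℝ) ≤ 1 + Real.log n₁ := by
  have := harmonic_le_one_add_log n₁
  rw [harmonic_eq_sum_Icc] at this
  push_cast at this
  simpa only [one_div] using this

/-- **From one window to `n ≤ N`.** -/
theorem whole {t : ℕ} (ht : 1 ≤ t) {ε B : ℝ} (hε : 0 < ε) (hB0 : 0 ≤ B) :
    ∃ (C : ℝ) (H₀ : ℕ), B ^ 2 + B + 1 ≤ C ∧ ∀ H N : ℕ, H₀ ≤ H → (H : ℝ) ^ C ≤ N →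
    ∀ S : ℕ → Set ℝ, (∀ n, (S n).Nonempty) →
    (∀ P : ℕ → ℝ[X], (∀ n, (P n).natDegree ≤ t) →
      (∀ n : ℕ, (P n).derivative.eval (n : ℝ) ∈ S n) →
      ∑ n ∈ Ioc ⌊(H : ℝ) ^ B⌋₊ ⌊(N : ℝ)⌋₊, (1 / (n : ℝ)) * Wp H n (P n) ≤
        ε / 4 * (Real.log N - Real.log ((H : ℝ) ^ B))) →
    PAvg t S N H ≤ ε * H * Real.log N := by
  refine ⟨B ^ 2 + B + 1 + 4 * (B + 1) / ε, ⌈Real.exp 1⌉₊ + 3, ?_, ?_⟩
  · have : 0 ≤ 4 * (B + 1) / ε := by positivity
    linarith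
  intro H N hH hN S hS hW
  have hH3 : 3 ≤ H := by omega
  have hHe : Real.exp 1 ≤ H := (Nat.le_ceil _).trans (by exact_mod_cast (by omega : ⌈Real.exp 1⌉₊ ≤ H))
  have hH1 : (1 : ℝ) ≤ H := by exact_mod_cast (by omega : 1 ≤ H)
  have hH0 : (0 : ℝ) < H := by linarith
  have hh1 : 1 ≤ Real.log H := by rw [Real.le_log_iff_exp_le hH0]; exact hHe
  obtain ⟨C, hC⟩ : ∃ C : ℝ, C = B ^ 2 + B + 1 + 4 * (B + 1) / ε := ⟨_, rfl⟩
  rw [← hC] at hN
  have hC1 : B + 1 ≤ C := by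
    have : 0 ≤ 4 * (B + 1) / ε := by positivity
    have := sq_nonneg B
    linarith
  have hC2 : 4 * (B + 1) / ε ≤ C := by
    have := sq_nonneg B
    linarith
  have hHN : (H : ℝ) ≤ N := by
    calc (H : ℝ) = (H : ℝ) ^ (1 : ℝ) := (Real.rpow_one _).symm
      _ ≤ (H : ℝ) ^ C := Real.rpow_le_rpow_of_exponent_le hH1 (by linarith)
      _ ≤ N := hN
  have hHN' : H ≤ N := by exact_mod_cast hHN
  have hN0 : (0 : ℝ) < N := by linarith
  obtain ⟨hl1, hharm⟩ := harm' (by omega : 3 ≤ N)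
  obtain ⟨Λ, hΛ⟩ : ∃ Λ, Λ = Real.log N := ⟨_, rfl⟩
  rw [← hΛ] at hl1 hharm hW ⊢
  have hΛ0 : 0 < Λ := by linarith
  have hCΛ : C * Real.log H ≤ Λ := by
    rw [hΛ, ← Real.log_rpow hH0]
    exact Real.log_le_log (Real.rpow_pos_of_pos hH0 _) hN
  obtain ⟨P, hPd, hPS, hP⟩ := choice ht hS N H (e := ε / 8 * H) (by positivity)
  refine hP.trans ?_
  have h1 := hW P hPd hPS
  rw [Nat.floor_natCast] at h1
  obtain ⟨n₁, hn₁⟩ : ∃ n₁ : ℕ, n₁ = ⌊(H : ℝ) ^ B⌋₊ := ⟨_, rfl⟩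
  have hHB1 : 1 ≤ (H : ℝ) ^ B := Real.one_le_rpow hH1 hB0
  have hn₁1 : 1 ≤ n₁ := by rw [hn₁]; exact Nat.le_floor (by exact_mod_cast hHB1)
  have hn₁u : (n₁ : ℝ) ≤ (H : ℝ) ^ B := by rw [hn₁]; exact Nat.floor_le (by positivity)
  have hn₁N : n₁ ≤ N := by
    have : (n₁ : ℝ) ≤ N := by
      refine hn₁u.trans (le_trans ?_ hN)
      exact Real.rpow_le_rpow_of_exponent_le hH1 (by linarith)
    exact_mod_cast this
  rw [← hn₁] at h1
  have h2 : ∑ n ∈ Icc 1 N, (1 / (n : ℝ)) * (H * Wp H n (P n) + ε / 8 * H) =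
      H * (∑ n ∈ Icc 1 N, (1 / (n : ℝ)) * Wp H n (P n)) + ε / 8 * H * ∑ n ∈ Icc 1 N, 1 / (n : ℝ) := by
    rw [mul_sum, mul_sum, ← sum_add_distrib]
    refine sum_congr rfl fun n _ => ?_
    ring
  rw [h2]
  have h3 : ∑ n ∈ Icc 1 N, (1 / (n : ℝ)) * Wp H n (P n) =
      ∑ n ∈ Icc 1 n₁, (1 / (n : ℝ)) * Wp H n (P n) + ∑ n ∈ Ioc n₁ N, (1 / (n : ℝ)) * Wp H n (P n) := by
    have e1 : Icc 1 N = Ioc 0 N := by ext n; rw [mem_Icc, mem_Ioc]; omega
    have e2 : Icc 1 n₁ = Ioc 0 n₁ := by ext n; rw [mem_Icc, mem_Ioc]; omega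
    rw [e1, e2, sum_Ioc_consecutive _ (Nat.zero_le _) hn₁N]
  have h4 : ∑ n ∈ Icc 1 n₁, (1 / (n : ℝ)) * Wp H n (P n) ≤ ε / 4 * Λ := by
    have e1 : ∑ n ∈ Icc 1 n₁, (1 / (n : ℝ)) * Wp H n (P n) ≤ ∑ n ∈ Icc 1 n₁, 1 / (n : ℝ) :=
      sum_le_sum fun n _ => mul_le_of_le_one_right (by positivity) (Wp_le _ _ _).2
    have e2 := sum_small n₁
    have e3 : Real.log n₁ ≤ B * Real.log H := by
      rw [← Real.log_rpow hH0]
      exact Real.log_le_log (by exact_mod_cast hn₁1) hn₁u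
    have e4 : 4 * (B + 1) / ε * Real.log H ≤ Λ :=
      (mul_le_mul_of_nonneg_right hC2 (by linarith)).trans hCΛ
    have e5 : (B + 1) * Real.log H ≤ ε / 4 * Λ := by
      have e6 := mul_le_mul_of_nonneg_left e4 (show 0 ≤ ε / 4 by positivity)
      have e7 : ε / 4 * (4 * (B + 1) / ε * Real.log H) = (B + 1) * Real.log H := by field_simp
      linarith
    linarith
  have h5 : Real.log ((H : ℝ) ^ B) = B * Real.log H := Real.log_rpow hH0 _
  have h6 : ε / 4 * (Λ - Real.log ((H : ℝ) ^ B)) ≤ ε / 4 * Λ := by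
    refine mul_le_mul_of_nonneg_left ?_ (by positivity)
    rw [h5]
    have : 0 ≤ B * Real.log H := by positivity
    linarith
  have h7 : ∑ n ∈ Icc 1 N, (1 / (n : ℝ)) * Wp H n (P n) ≤ ε / 2 * Λ := by
    rw [h3]; linarith
  have h8 := mul_le_mul_of_nonneg_left h7 hH0.le
  have h9 := mul_le_mul_of_nonneg_left hharm (show 0 ≤ ε / 8 * H by positivity)
  have h10 : 0 ≤ ε * H * Λ := by positivity
  linarith

/-- **Theorem W**, supremum inside. -/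
theorem w_final {s t : ℕ} (ht : 1 ≤ t) (hW : WW s t) (A ε : ℝ) (hε : 0 < ε) :
    ∃ (C : ℝ) (H₀ : ℕ), ∀ H N : ℕ, H₀ ≤ H → (H : ℝ) ^ C ≤ N → ∀ Q : ℕ → ℝ[X],
    (∀ n, (Q n).natDegree ≤ s) → SlowP Q ((H : ℝ) ^ A) →
    PAvg t (fun n => {(Q n).derivative.eval (n : ℝ)}) N H ≤ ε * H * Real.log N := by
  obtain ⟨B, H₁, hB0, hW⟩ := hW (max A 0) (ε / 4) (le_max_right _ _) (by linarith)
  obtain ⟨C, H₂, hC, hwh⟩ := whole ht hε hB0
  refine ⟨C, max (max H₁ H₂) 1, fun H N hH hN Q hQd hQ => ?_⟩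
  have hH1 : H₁ ≤ H := ((le_max_left _ _).trans (le_max_left _ _)).trans hH
  have hH2 : H₂ ≤ H := ((le_max_right _ _).trans (le_max_left _ _)).trans hH
  have hHn : 1 ≤ H := (le_max_right _ _).trans hH
  have hHone : (1 : ℝ) ≤ H := by exact_mod_cast hHn
  have hH0 : (0 : ℝ) < H := by linarith
  have hB2 := sq_nonneg B
  refine hwh H N hH2 hN _ (fun n => Set.singleton_nonempty _) fun P hPd hPS => ?_
  refine hW H hH1 ((H : ℝ) ^ B) N le_rfl ?_ Q hQd (fun j => (hQ j).trans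
    (Real.rpow_le_rpow_of_exponent_le hHone (le_max_left _ _))) P hPd
    fun n => Set.mem_singleton_iff.1 (hPS n)
  calc (H : ℝ) ^ B * H = (H : ℝ) ^ (B + 1) := by rw [Real.rpow_add hH0, Real.rpow_one]
    _ ≤ (H : ℝ) ^ C := Real.rpow_le_rpow_of_exponent_le hHone (by linarith)
    _ ≤ N := hN

/-- **Theorem WS**, supremum inside. -/
theorem ws_final {t : ℕ} (ht : 1 ≤ t) (hW : WS t) (A ε : ℝ) (hε : 0 < ε) (ω : ℝ → ℝ)
    (hω : Tendsto ω atTop (nhds 0)) :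
    ∃ (C : ℝ) (H₀ : ℕ), ∀ H N : ℕ, H₀ ≤ H → (H : ℝ) ^ C ≤ N → ∀ S : ℕ → Set ℝ,
    TFx.SlowR S ((H : ℝ) ^ A) → (∀ (n : ℕ) (R : ℝ), 1 ≤ R → TFx.outer (S n) R ≤ ω R) →
    PAvg t S N H ≤ ε * H * Real.log N := by
  obtain ⟨ω', hω'⟩ : ∃ ω' : ℝ → ℝ, ω' = fun R => ω R + 2 / R := ⟨_, rfl⟩
  have hω'0 : Tendsto ω' atTop (nhds 0) := by
    rw [hω']
    have h1 : Tendsto (fun R : ℝ => 2 / R) atTop (nhds 0) :=
      tendsto_const_nhds.div_atTop tendsto_id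
    simpa using hω.add h1
  obtain ⟨B, H₁, hB0, hW⟩ := hW (max A 0) (ε / 4) ω' (le_max_right _ _) (by linarith) hω'0
  obtain ⟨C, H₂, hC, hwh⟩ := whole ht hε hB0
  refine ⟨C, max (max H₁ H₂) 1, fun H N hH hN S hS hSω => ?_⟩
  have hH1 : H₁ ≤ H := ((le_max_left _ _).trans (le_max_left _ _)).trans hH
  have hH2 : H₂ ≤ H := ((le_max_right _ _).trans (le_max_left _ _)).trans hH
  have hHn : 1 ≤ H := (le_max_right _ _).trans hH
  have hHone : (1 : ℝ) ≤ H := by exact_mod_cast hHn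
  have hH0 : (0 : ℝ) < H := by linarith
  have hB2 := sq_nonneg B
  -- the family with the point `0`
  have hmono : PAvg t S N H ≤ PAvg t (fun n => S n ∪ {0}) N H := by
    unfold PAvg
    refine sum_le_sum fun n _ => mul_le_mul_of_nonneg_left ?_ (by positivity)
    have hbd : BddAbove (Set.range fun P : {P : Polynomial ℝ // P.natDegree ≤ t ∧
        P.coeff 1 ∈ S n ∪ {0}} => ‖∑ h ∈ Finset.Icc 1 H,
        Complex.exp (2 * Real.pi * Complex.I * (((P : Polynomial ℝ).eval (h : ℝ) : ℝ) : ℂ)) *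
          ((ArithmeticFunction.moebius (n + h) : ℤ) : ℂ)‖) := by
      refine ⟨H, ?_⟩
      rintro _ ⟨P, rfl⟩
      show ‖_‖ ≤ _
      rw [(abs_poly (P : ℝ[X]) H n).2.2]
      exact mul_le_of_le_one_right hH0.le (Wp_le _ _ _).2
    refine Real.iSup_le (fun P => ?_) (Real.iSup_nonneg fun _ => norm_nonneg _)
    exact le_ciSup hbd ⟨P.1, P.2.1, Or.inl P.2.2⟩
  refine hmono.trans (hwh H N hH2 hN _ (fun n => ⟨0, Or.inr rfl⟩) fun P hPd hPS => ?_)
  refine hW H hH1 ((H : ℝ) ^ B) N le_rfl ?_ (fun n => S n ∪ {0}) ?_ ?_ P hPd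
    fun n => Or.inl (hPS n)
  · rw [← Real.rpow_mul hH0.le]
    refine le_trans ?_ hN
    refine Real.rpow_le_rpow_of_exponent_le hHone ?_
    nlinarith
  · intro j
    refine le_trans ?_ ((hS j).trans (Real.rpow_le_rpow_of_exponent_le hHone (le_max_left _ _)))
    have hfin : {n : ℕ | 2 ^ j ≤ n ∧ n < 2 ^ (j + 1) ∧ S (n + 1) ≠ S n}.Finite :=
      (Set.finite_Ico (2 ^ j) (2 ^ (j + 1))).subset fun n hn => ⟨hn.1, hn.2.1⟩
    have hs1 : {n : ℕ | 2 ^ j ≤ n ∧ n < 2 ^ (j + 1) ∧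
      (fun n => S n ∪ {0}) (n + 1) ≠ (fun n => S n ∪ {0}) n} ⊆
        {n : ℕ | 2 ^ j ≤ n ∧ n < 2 ^ (j + 1) ∧ S (n + 1) ≠ S n} := fun n hn =>
      ⟨hn.1, hn.2.1, fun h => hn.2.2 (by show S (n + 1) ∪ {0} = S n ∪ {0}; rw [h])⟩
    exact_mod_cast Set.ncard_le_ncard hs1 hfin
  · intro n R hR
    have hR0 : 0 < R := by linarith
    have hRinv1 : 1 / R ≤ 1 := by rw [div_le_one hR0]; linarith
    have hpos : 0 < 1 / R := by positivity
    have hsub : {x : ℝ | x ∈ Set.Icc 0 1 ∧ ∃ y ∈ S n ∪ {0}, ∃ b : ℤ, |y - x - b| ≤ 1 / R} ⊆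
        {x : ℝ | x ∈ Set.Icc 0 1 ∧ ∃ y ∈ S n, ∃ b : ℤ, |y - x - b| ≤ 1 / R} ∪
          (Set.Icc 0 (1 / R) ∪ Set.Icc (1 - 1 / R) 1) := by
      rintro x ⟨hx, y, hy | hy, b, hb⟩
      · exact Or.inl ⟨hx, y, hy, b, hb⟩
      · right
        rw [Set.mem_singleton_iff.1 hy, abs_le] at hb
        have b0 : (-2 : ℝ) ≤ b := by linarith [hx.2]
        have b1 : (b : ℝ) ≤ 1 := by linarith [hx.1]
        have b0' : -2 ≤ b := by exact_mod_cast b0
        have b1' : b ≤ 1 := by exact_mod_cast b1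
        have : b = -2 ∨ b = -1 ∨ b = 0 ∨ b = 1 := by omega
        rcases this with rfl | rfl | rfl | rfl
        · push_cast at hb
          exact Or.inr ⟨by linarith [hx.2], hx.2⟩
        · push_cast at hb
          exact Or.inr ⟨by linarith, hx.2⟩
        · push_cast at hb
          exact Or.inl ⟨hx.1, by linarith⟩
        · push_cast at hb
          exact Or.inl ⟨hx.1, by linarith [hx.1]⟩
    have hfin : ∀ s : Set ℝ, s ⊆ Set.Icc 0 1 → volume s ≠ ⊤ := fun s hs =>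
      ne_top_of_le_ne_top (by rw [Real.volume_Icc]; exact ENNReal.ofReal_ne_top) (measure_mono hs)
    have h1 : volume {x : ℝ | x ∈ Set.Icc 0 1 ∧ ∃ y ∈ S n ∪ {0}, ∃ b : ℤ, |y - x - b| ≤ 1 / R} ≤
        volume {x : ℝ | x ∈ Set.Icc 0 1 ∧ ∃ y ∈ S n, ∃ b : ℤ, |y - x - b| ≤ 1 / R} +
          ENNReal.ofReal (2 / R) := by
      refine (measure_mono hsub).trans ((measure_union_le _ _).trans ?_)
      gcongr
      refine (measure_union_le _ _).trans ?_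
      rw [Real.volume_Icc, Real.volume_Icc, ← ENNReal.ofReal_add (by linarith) (by linarith)]
      refine ENNReal.ofReal_le_ofReal (le_of_eq ?_)
      ring
    have h2 := ENNReal.toReal_mono (ENNReal.add_ne_top.2
      ⟨hfin _ fun x hx => hx.1, ENNReal.ofReal_ne_top⟩) h1
    rw [ENNReal.toReal_add (hfin _ fun x hx => hx.1) ENNReal.ofReal_ne_top,
      ENNReal.toReal_ofReal (by positivity)] at h2
    have h3 := hSω n R hR
    have h4 : TFx.outer (S n ∪ {0}) R ≤ TFx.outer (S n) R + 2 / R := h2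
    rw [hω']
    show _ ≤ ω R + 2 / R
    linarith

end PAvgx

end

end Pool.Agent.VQ
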