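import Pool.Agent.Lib.VQ.WDefs

/-!
# Theorem W (MP_663568_nt), row RNG: a bounded polynomial which is often in few cells of the circle
-/

set_option autoImplicit false
open Finset Polynomial

namespace Pool.Agent.VQ

noncomputable section

namespace RNGx

/-- A bound for the values of a polynomial on `[0, L]`. -/
theorem eval_le (g : ℝ[X]) (t : ℕ) (L K x : ℝ) (hg : g.natDegree ≤ t) (hx0 : 0 ≤ x) (hxL : x ≤ L)
    (hc : ∀ i ≤ t, |g.coeff i| * L ^ i ≤ K) : |g.eval x| ≤ (t + 1) * K := by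
  rw [eval_eq_sum_range' (Nat.lt_succ_of_le hg)]
  refine (abs_sum_le_sum_abs _ _).trans ?_
  have h1 : ∀ i ∈ range t.succ, |g.coeff i * x ^ i| ≤ K := by
    intro i hi
    rw [mem_range] at hi
    rw [abs_mul, abs_of_nonneg (pow_nonneg hx0 i)]
    refine le_trans ?_ (hc i (by omega))
    gcongr
  refine (sum_le_sum h1).trans ?_
  rw [sum_const, card_range, nsmul_eq_mul]
  push_cast
  exact le_rfl

theorem card_le (T : Finset ℕ) (M : ℝ) (hM : 0 ≤ M)
    (h : ∀ i ∈ T, ∀ j ∈ T, i < j → ((j : ℝ) - i) ≤ M) : (#T : ℝ) ≤ M + 1 := by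
  rcases T.eq_empty_or_nonempty with rfl | hne
  · simp; linarith
  · have h1 : T ⊆ Icc (T.min' hne) (T.max' hne) := by
      intro x hx
      rw [mem_Icc]
      exact ⟨T.min'_le x hx, T.le_max' x hx⟩
    have h2 := card_le_card h1
    rw [Nat.card_Icc] at h2
    have h3 : T.min' hne ≤ T.max' hne := T.min'_le _ (T.max'_mem hne)
    have h4 : (#T : ℝ) ≤ ((T.max' hne : ℕ) : ℝ) - ((T.min' hne : ℕ) : ℝ) + 1 := by
      have h5 : #T + T.min' hne ≤ T.max' hne + 1 := by omega
      have h6 : ((#T + T.min' hne : ℕ) : ℝ) ≤ ((T.max' hne + 1 : ℕ) : ℝ) := by exact_mod_cast h5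
      push_cast at h6
      linarith
    rcases h3.eq_or_lt with heq | hlt
    · rw [heq] at h4
      linarith
    · have h7 := h _ (T.min'_mem hne) _ (T.max'_mem hne) hlt
      linarith

/-- The mean value theorem for a polynomial. -/
theorem mvt (f : ℝ[X]) (a b : ℝ) (hab : a < b) :
    ∃ ξ, a < ξ ∧ ξ < b ∧ f.eval b - f.eval a = f.derivative.eval ξ * (b - a) := by
  obtain ⟨ξ, hξ, h⟩ := exists_deriv_eq_slope (fun x => f.eval x) hab f.continuous.continuousOn
    f.differentiable.differentiableOn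
  refine ⟨ξ, hξ.1, hξ.2, ?_⟩
  rw [Polynomial.deriv] at h
  rw [h]
  field_simp [sub_ne_zero.2 hab.ne']

/-- A Lipschitz bound. -/
theorem lip (f : ℝ[X]) (L K a b : ℝ) (ha : 0 ≤ a) (haL : a ≤ L) (hb : 0 ≤ b) (hbL : b ≤ L)
    (hK : ∀ x, 0 ≤ x → x ≤ L → |f.derivative.eval x| ≤ K) :
    |f.eval b - f.eval a| ≤ K * |b - a| := by
  have key : ∀ a b : ℝ, 0 ≤ a → b ≤ L → a < b → |f.eval b - f.eval a| ≤ K * |b - a| := by
    intro a b ha hb hab
    obtain ⟨ξ, h1, h2, h3⟩ := mvt f a b hab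
    rw [h3, abs_mul]
    exact mul_le_mul_of_nonneg_right (hK ξ (by linarith) (by linarith)) (abs_nonneg _)
  rcases lt_trichotomy a b with h | h | h
  · exact key a b ha hbL h
  · rw [h]; simp
  · rw [abs_sub_comm, abs_sub_comm b a]
    exact key b a hb haL h

end RNGx

open RNGx

/-- Row RNG. -/
theorem rng : RNG_stmt := by
  classical
  intro hLAG t c₁ E ρ ht hc0 hc1 hE hρ
  obtain ⟨E₃, L₁, hE₃, hlag⟩ := hLAG t (c₁ / 2) (by positivity) (by linarith)
  have hE₃0 : 0 < E₃ := by linarith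
  obtain ⟨lam, hlam⟩ : ∃ lam : ℝ, lam = ρ / E₃ := ⟨_, rfl⟩
  have hlam0 : 0 < lam := by rw [hlam]; positivity
  have htr : (1 : ℝ) ≤ t := by exact_mod_cast ht
  -- bounds for the derivatives
  obtain ⟨E₁, hE₁⟩ : ∃ E₁ : ℝ, E₁ = (t + 1) * (t * E) := ⟨_, rfl⟩
  obtain ⟨E₂, hE₂⟩ : ∃ E₂ : ℝ, E₂ = (t + 1) * (t * (t * E)) := ⟨_, rfl⟩
  have hE₁0 : 0 < E₁ := by rw [hE₁]; positivity
  have hE₂0 : 0 < E₂ := by rw [hE₂]; positivity
  obtain ⟨N, hN⟩ : ∃ N : ℕ, max (2 * E₁) (2 * E₂ / lam) ≤ N := exists_nat_ge _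
  have hN1 : 2 * E₁ ≤ N := (le_max_left _ _).trans hN
  have hN2 : 2 * E₂ / lam ≤ N := (le_max_right _ _).trans hN
  have hN0 : (0 : ℝ) < N := by linarith
  have hNpos : 0 < N := by exact_mod_cast hN0
  refine ⟨c₁ * lam / (24 * N), by positivity, fun R₂ hR₂ => ?_⟩
  have hR0 : (0 : ℝ) < R₂ := by exact_mod_cast hR₂
  obtain ⟨L₂, hL₂⟩ : ∃ L₂ : ℕ, 12 * N * R₂ / c₁ ≤ (L₂ : ℝ) := exists_nat_ge _
  refine ⟨max (max L₁ L₂) 1, fun L hL I f hI hIv hf hfc hcount => ?_⟩
  have hLL₁ : L₁ ≤ L := ((le_max_left _ _).trans (le_max_left _ _)).trans hL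
  have hLL₂ : L₂ ≤ L := ((le_max_right _ _).trans (le_max_left _ _)).trans hL
  have hL1 : 1 ≤ L := (le_max_right _ _).trans hL
  have hLr1 : (1 : ℝ) ≤ L := by exact_mod_cast hL1
  have hLr0 : (0 : ℝ) < L := by linarith
  have hLR : 3 * N * R₂ ≤ c₁ / 4 * L := by
    have h1 : 12 * N * R₂ / c₁ ≤ (L : ℝ) := hL₂.trans (by exact_mod_cast hLL₂)
    rw [div_le_iff₀ hc0] at h1
    linarith
  -- the coefficients of the derivatives
  have hd1 : ∀ i ≤ t, |f.derivative.coeff i| * (L : ℝ) ^ i ≤ t * E / L := by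
    intro i hi
    rw [coeff_derivative, le_div_iff₀ hLr0]
    by_cases hit : i + 1 ≤ t
    · have h1 := hfc (i + 1) (by omega) hit
      have h2 : ((i : ℝ) + 1) ≤ t := by exact_mod_cast hit
      rw [abs_mul, abs_of_pos (by positivity : (0 : ℝ) < (i : ℝ) + 1)]
      calc |f.coeff (i + 1)| * ((i : ℝ) + 1) * (L : ℝ) ^ i * L
          = ((i : ℝ) + 1) * (|f.coeff (i + 1)| * (L : ℝ) ^ (i + 1)) := by ring
        _ ≤ t * E := mul_le_mul h2 h1 (by positivity) (by positivity)
    · have h1 : f.coeff (i + 1) = 0 := coeff_eq_zero_of_natDegree_lt (by omega)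
      rw [h1, zero_mul, abs_zero, zero_mul, zero_mul]
      positivity
  have hd2 : ∀ i ≤ t, |f.derivative.derivative.coeff i| * (L : ℝ) ^ i ≤ t * (t * E) / L ^ 2 := by
    intro i hi
    rw [coeff_derivative, le_div_iff₀ (by positivity)]
    by_cases hit : i + 1 ≤ t
    · have h1 := hd1 (i + 1) hit
      rw [le_div_iff₀ hLr0] at h1
      have h2 : ((i : ℝ) + 1) ≤ t := by exact_mod_cast hit
      rw [abs_mul, abs_of_pos (by positivity : (0 : ℝ) < (i : ℝ) + 1)]
      calc |f.derivative.coeff (i + 1)| * ((i : ℝ) + 1) * (L : ℝ) ^ i * L ^ 2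
          = ((i : ℝ) + 1) * (|f.derivative.coeff (i + 1)| * (L : ℝ) ^ (i + 1) * L) := by ring
        _ ≤ t * (t * E) := mul_le_mul h2 h1 (by positivity) (by positivity)
    · have hdeg : f.derivative.natDegree ≤ t := (natDegree_derivative_le f).trans (by omega)
      have h1 : f.derivative.coeff (i + 1) = 0 := coeff_eq_zero_of_natDegree_lt (by omega)
      rw [h1, zero_mul, abs_zero, zero_mul, zero_mul]
      positivity
  have hdeg1 : f.derivative.natDegree ≤ t := (natDegree_derivative_le f).trans (by omega)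
  have hdeg2 : f.derivative.derivative.natDegree ≤ t :=
    (natDegree_derivative_le _).trans (by omega)
  have hb1 : ∀ x : ℝ, 0 ≤ x → x ≤ L → |f.derivative.eval x| ≤ E₁ / L := by
    intro x hx0 hxL
    have := eval_le f.derivative t L (t * E / L) x hdeg1 hx0 hxL hd1
    rw [hE₁]
    calc _ ≤ ((t : ℝ) + 1) * (t * E / L) := this
      _ = _ := by ring
  have hb2 : ∀ x : ℝ, 0 ≤ x → x ≤ L → |f.derivative.derivative.eval x| ≤ E₂ / L ^ 2 := by
    intro x hx0 hxL
    have := eval_le f.derivative.derivative t L (t * (t * E) / L ^ 2) x hdeg2 hx0 hxL hd2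
    rw [hE₂]
    calc _ ≤ ((t : ℝ) + 1) * (t * (t * E) / L ^ 2) := this
      _ = _ := by ring
  -- the exceptional points
  set cell : ℕ → ℕ := fun j => ⌊(R₂ : ℝ) * Int.fract (f.eval (j : ℝ))⌋₊ with hcell
  set T := (range L).filter fun j : ℕ => cell j ∈ I ∧ lam / L < |f.derivative.eval (j : ℝ)| with hT
  set M : ℝ := 2 * L / (lam * R₂) with hM
  have hM0 : 0 ≤ M := by rw [hM]; positivity
  -- one block
  have hblock : ∀ b ∈ range N, (#(T.filter fun j => j * N / L = b) : ℝ) ≤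
      #I * 3 * (M + 1) := by
    intro b _
    set Tb := T.filter fun j => j * N / L = b with hTb
    rcases Tb.eq_empty_or_nonempty with hemp | ⟨j0, hj0⟩
    · rw [hemp]; simp; positivity
    have hmem : ∀ j ∈ Tb, j < L ∧ cell j ∈ I ∧ lam / L < |f.derivative.eval (j : ℝ)| ∧
        (b : ℝ) * L ≤ j * N ∧ (j : ℝ) * N < (b + 1) * L := by
      intro j hj
      rw [hTb, mem_filter, hT, mem_filter, mem_range] at hj
      obtain ⟨⟨h1, h2, h3⟩, h4⟩ := hj
      refine ⟨h1, h2, h3, ?_, ?_⟩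
      · have := Nat.div_mul_le_self (j * N) L
        rw [h4] at this
        exact_mod_cast this
      · have := Nat.lt_mul_div_succ (j * N) (by omega : 0 < L)
        rw [h4] at this
        have h5 : j * N < (b + 1) * L := by rw [mul_comm (b + 1) L]; exact this
        exact_mod_cast h5
    obtain ⟨a1, a2, a3, a4, a5⟩ := hmem j0 hj0
    have hj0L : (j0 : ℝ) ≤ L := by exact_mod_cast a1.le
    -- the distance in a block
    have hdist : ∀ j ∈ Tb, |(j : ℝ) - j0| ≤ L / N := by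
      intro j hj
      obtain ⟨b1, b2, b3, b4, b5⟩ := hmem j hj
      rw [le_div_iff₀ hN0, ← abs_of_pos hN0, ← abs_mul, sub_mul, abs_le]
      constructor <;> linarith
    -- a lower bound for the derivative
    have hlow : ∀ x : ℝ, 0 ≤ x → x ≤ L → |x - j0| ≤ L / N →
        lam / (2 * L) ≤ |f.derivative.eval x| := by
      intro x hx0 hxL hx
      have h1 := lip f.derivative L (E₂ / L ^ 2) j0 x (Nat.cast_nonneg _) hj0L hx0 hxL hb2
      have h2 : E₂ / L ^ 2 * |x - j0| ≤ lam / (2 * L) := by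
        calc E₂ / L ^ 2 * |x - j0| ≤ E₂ / L ^ 2 * (L / N) := by gcongr
          _ = (2 * E₂ / N) / (2 * L) := by field_simp
          _ ≤ lam / (2 * L) := by
              gcongr
              rw [div_le_iff₀ hlam0] at hN2
              rw [div_le_iff₀ hN0]
              linarith
      have h3 := abs_sub_abs_le_abs_sub (f.derivative.eval (j0 : ℝ)) (f.derivative.eval x)
      rw [abs_sub_comm] at h3
      have h4 : lam / L = lam / (2 * L) + lam / (2 * L) := by field_simp; ring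
      linarith
    -- the values
    have hval : ∀ j ∈ Tb, |f.eval (j : ℝ) - f.eval (j0 : ℝ)| ≤ 1 / 2 := by
      intro j hj
      obtain ⟨b1, b2, b3, b4, b5⟩ := hmem j hj
      have h1 := lip f L (E₁ / L) j0 j (Nat.cast_nonneg _) hj0L (Nat.cast_nonneg _)
        (by exact_mod_cast b1.le) hb1
      have h2 : E₁ / L * |(j : ℝ) - j0| ≤ 1 / 2 := by
        calc E₁ / L * |(j : ℝ) - j0| ≤ E₁ / L * (L / N) := by
              gcongr
              exact hdist j hj
          _ = E₁ / N := by field_simp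
          _ ≤ 1 / 2 := by
              rw [div_le_iff₀ hN0]
              linarith
      linarith
    set k0 : ℤ := ⌊f.eval (j0 : ℝ)⌋ with hk0
    set cls : ℕ → ℕ × ℤ := fun j => (cell j, ⌊f.eval (j : ℝ)⌋) with hcls
    have hmaps : ∀ j ∈ Tb, cls j ∈ I ×ˢ Icc (k0 - 1) (k0 + 1) := by
      intro j hj
      obtain ⟨b1, b2, b3, b4, b5⟩ := hmem j hj
      have h1 := abs_le.1 (hval j hj)
      rw [mem_product, mem_Icc]
      refine ⟨b2, ?_, ?_⟩
      · show k0 - 1 ≤ ⌊f.eval (j : ℝ)⌋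
        rw [Int.le_floor]
        push_cast
        have := Int.floor_le (f.eval (j0 : ℝ))
        rw [← hk0] at this
        linarith
      · show ⌊f.eval (j : ℝ)⌋ ≤ k0 + 1
        have h2 : f.eval (j : ℝ) < k0 + 2 := by
          have := Int.lt_floor_add_one (f.eval (j0 : ℝ))
          rw [← hk0] at this
          linarith
        have h3 : ⌊f.eval (j : ℝ)⌋ < k0 + 2 := by
          rw [Int.floor_lt]
          push_cast
          exact h2
        omega
    have hfib : ∀ y ∈ I ×ˢ Icc (k0 - 1) (k0 + 1),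
        (#(Tb.filter fun j => cls j = y) : ℝ) ≤ M + 1 := by
      rintro ⟨i, k⟩ _
      refine card_le _ M hM0 ?_
      intro j hj j' hj' hlt
      rw [mem_filter] at hj hj'
      obtain ⟨b1, b2, b3, b4, b5⟩ := hmem j hj.1
      obtain ⟨b1', b2', b3', b4', b5'⟩ := hmem j' hj'.1
      have hjj : (j : ℝ) < j' := by exact_mod_cast hlt
      obtain ⟨ξ, h1, h2, h3⟩ := mvt f j j' hjj
      have hj'L : (j' : ℝ) ≤ L := by exact_mod_cast b1'.le
      have hξ0 : 0 ≤ ξ := le_trans (Nat.cast_nonneg _) h1.le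
      have hξ : |ξ - j0| ≤ L / N := by
        have e1 := abs_le.1 (hdist j hj.1)
        have e2 := abs_le.1 (hdist j' hj'.1)
        rw [abs_le]
        constructor <;> linarith
      have h4 := hlow ξ hξ0 (by linarith) hξ
      -- the values are in one cell
      have hcl : cls j = (i, k) := hj.2
      have hcl' : cls j' = (i, k) := hj'.2
      rw [hcls] at hcl hcl'
      simp only [Prod.mk.injEq] at hcl hcl'
      have g1 : ∀ j : ℕ, cell j = i → ⌊f.eval (j : ℝ)⌋ = k →
          (i : ℝ) ≤ R₂ * (f.eval (j : ℝ) - k) ∧ R₂ * (f.eval (j : ℝ) - k) < i + 1 := by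
        intro j e1 e2
        have e3 : Int.fract (f.eval (j : ℝ)) = f.eval (j : ℝ) - k := by
          rw [Int.fract, e2]
        have e4 : 0 ≤ (R₂ : ℝ) * Int.fract (f.eval (j : ℝ)) :=
          mul_nonneg hR0.le (Int.fract_nonneg _)
        have e5 := Nat.floor_le e4
        have e6 := Nat.lt_floor_add_one ((R₂ : ℝ) * Int.fract (f.eval (j : ℝ)))
        have e7 : ⌊(R₂ : ℝ) * Int.fract (f.eval (j : ℝ))⌋₊ = i := e1
        rw [e7, e3] at e5 e6
        exact ⟨e5, e6⟩
      obtain ⟨g2, g3⟩ := g1 j hcl.1 hcl.2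
      obtain ⟨g4, g5⟩ := g1 j' hcl'.1 hcl'.2
      have h5 : |f.eval (j' : ℝ) - f.eval (j : ℝ)| ≤ 1 / R₂ := by
        rw [le_div_iff₀ hR0, ← abs_of_pos hR0, ← abs_mul, sub_mul, abs_le]
        rw [mul_sub] at g2 g3 g4 g5
        rw [mul_comm (f.eval (j : ℝ)) (R₂ : ℝ), mul_comm (f.eval (j' : ℝ)) (R₂ : ℝ)]
        constructor <;> linarith
      rw [h3, abs_mul, abs_of_pos (sub_pos.2 hjj)] at h5
      have h6 : lam / (2 * L) * ((j' : ℝ) - j) ≤ 1 / R₂ :=
        (mul_le_mul_of_nonneg_right h4 (sub_pos.2 hjj).le).trans h5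
      rw [hM, le_div_iff₀ (by positivity)]
      rw [div_mul_eq_mul_div, div_le_div_iff₀ (by positivity) hR0] at h6
      calc ((j' : ℝ) - j) * (lam * R₂) = lam * ((j' : ℝ) - j) * R₂ := by ring
        _ ≤ 1 * (2 * L) := h6
        _ = 2 * L := one_mul _
    have hcard := card_eq_sum_card_fiberwise hmaps
    have hcard' : (#Tb : ℝ) = ∑ y ∈ I ×ˢ Icc (k0 - 1) (k0 + 1),
        (#(Tb.filter fun j => cls j = y) : ℝ) := by exact_mod_cast hcard
    rw [hcard']
    refine (sum_le_sum hfib).trans ?_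
    rw [sum_const, card_product, nsmul_eq_mul, Int.card_Icc]
    have : (k0 + 1 + 1 - (k0 - 1)).toNat = 3 := by
      have : k0 + 1 + 1 - (k0 - 1) = 3 := by ring
      rw [this]; rfl
    rw [this]
    push_cast
    exact le_rfl
  -- all blocks
  have hTcard : (#T : ℝ) ≤ c₁ / 2 * L := by
    have hmaps : ∀ j ∈ T, j * N / L ∈ range N := by
      intro j hj
      rw [hT, mem_filter, mem_range] at hj
      rw [mem_range]
      rw [Nat.div_lt_iff_lt_mul (by omega), mul_comm N L]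
      exact Nat.mul_lt_mul_of_pos_right hj.1 hNpos
    have hcard := card_eq_sum_card_fiberwise hmaps
    have hcard' : (#T : ℝ) = ∑ b ∈ range N, (#(T.filter fun j => j * N / L = b) : ℝ) := by
      exact_mod_cast hcard
    rw [hcard']
    refine (sum_le_sum hblock).trans ?_
    rw [sum_const, card_range, nsmul_eq_mul]
    have hIR : (#I : ℝ) ≤ R₂ := by
      have := card_le_card hI
      rw [card_range] at this
      exact_mod_cast this
    have h1 : (N : ℝ) * (#I * 3 * M) ≤ c₁ / 4 * L := by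
      calc (N : ℝ) * (#I * 3 * M) ≤ N * (c₁ * lam / (24 * N) * R₂ * 3 * M) := by gcongr
        _ = c₁ / 4 * L := by rw [hM]; field_simp; ring
    have h2 : (N : ℝ) * (#I * 3) ≤ c₁ / 4 * L := by
      calc (N : ℝ) * (#I * 3) ≤ N * (R₂ * 3) := by gcongr
        _ = 3 * N * R₂ := by ring
        _ ≤ _ := hLR
    calc (N : ℝ) * (#I * 3 * (M + 1)) = N * (#I * 3 * M) + N * (#I * 3) := by ring
      _ ≤ c₁ / 2 * L := by linarith
  -- the remaining points
  have hgood : c₁ / 2 * (L : ℝ) ≤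
      (#((range L).filter fun j : ℕ => |f.derivative.eval (j : ℝ)| ≤ lam / L) : ℝ) := by
    have h1 : ((range L).filter fun j : ℕ => cell j ∈ I) ⊆
        T ∪ (range L).filter fun j : ℕ => |f.derivative.eval (j : ℝ)| ≤ lam / L := by
      intro j hj
      rw [mem_filter] at hj
      rw [mem_union, hT, mem_filter, mem_filter]
      rcases le_or_gt (|f.derivative.eval (j : ℝ)|) (lam / L) with h | h
      · exact Or.inr ⟨hj.1, h⟩
      · exact Or.inl ⟨hj.1, hj.2, h⟩
    have h2 := (card_le_card h1).trans (card_union_le _ _)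
    have h3 : (#((range L).filter fun j : ℕ => cell j ∈ I) : ℝ) ≤
        #T + #((range L).filter fun j : ℕ => |f.derivative.eval (j : ℝ)| ≤ lam / L) := by
      exact_mod_cast h2
    have h4 : c₁ * (L : ℝ) ≤ (#((range L).filter fun j : ℕ => cell j ∈ I) : ℝ) := by
      refine hcount.trans (le_of_eq ?_)
      congr 2
    linarith
  have hfin := hlag L f.derivative (lam / L) hLL₁ hdeg1 (by positivity) (by
    refine hgood.trans (le_of_eq ?_)
    congr 2)
  intro i hi1 hit
  obtain ⟨k, rfl⟩ : ∃ k, i = k + 1 := ⟨i - 1, by omega⟩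
  have h1 := hfin k (by omega)
  rw [coeff_derivative, abs_mul, abs_of_pos (by positivity : (0 : ℝ) < (k : ℝ) + 1)] at h1
  have h2 : E₃ * (lam / L) = ρ / L := by rw [hlam]; field_simp
  rw [h2, le_div_iff₀ hLr0] at h1
  have h3 : |f.coeff (k + 1)| * (L : ℝ) ^ (k + 1) ≤
      |f.coeff (k + 1)| * ((k : ℝ) + 1) * (L : ℝ) ^ k * L := by
    have h4 : 0 ≤ |f.coeff (k + 1)| * (L : ℝ) ^ (k + 1) := by positivity
    have h5 : (1 : ℝ) ≤ (k : ℝ) + 1 := by linarith [(Nat.cast_nonneg k : (0 : ℝ) ≤ k)]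
    calc |f.coeff (k + 1)| * (L : ℝ) ^ (k + 1) = 1 * (|f.coeff (k + 1)| * (L : ℝ) ^ (k + 1)) := by
          ring
      _ ≤ ((k : ℝ) + 1) * (|f.coeff (k + 1)| * (L : ℝ) ^ (k + 1)) :=
          mul_le_mul_of_nonneg_right h5 h4
      _ = _ := by ring
  linarith

end

end Pool.Agent.VQ
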