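import Mathlib
import Pool.Agent.Lib.VQ.SUBQ

/-!
# Row SUBS of Theorem W (MP_663568_nt): from the phase `P` to linear phases on short windows.
(helper55)
-/

set_option autoImplicit false
open Finset MeasureTheory Polynomial

namespace Pool.Agent.VQ

open Pool.Agent.Lib.MP_663568_nt Pool.Agent.Lib.MP_663568_nt.Katai
  Pool.Agent.Lib.MP_663568_nt.Nul Pool.Agent.SV

namespace SUBy

open SUBx

/-- The second order remainder of a power. -/
theorem rem_le (i : ℕ) (y h : ℝ) (hy : 0 ≤ y) (hh : 0 ≤ h) :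
    0 ≤ (y + h) ^ (i + 2) - y ^ (i + 2) - (i + 2) * y ^ (i + 1) * h ∧
      (y + h) ^ (i + 2) - y ^ (i + 2) - (i + 2) * y ^ (i + 1) * h ≤
        (i + 2) ^ 2 * (h ^ 2 * (y + h) ^ i) := by
  induction i with
  | zero =>
    constructor
    · norm_num
      nlinarith [sq_nonneg h]
    · norm_num
      nlinarith [sq_nonneg h]
  | succ i ih =>
    have e : (y + h) ^ (i + 1 + 2) - y ^ (i + 1 + 2) - ((i + 1 : ℕ) + 2) * y ^ (i + 1 + 1) * h =
        (y + h) * ((y + h) ^ (i + 2) - y ^ (i + 2) - (i + 2) * y ^ (i + 1) * h) +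
          (i + 2) * (y ^ (i + 1) * h ^ 2) := by
      push_cast
      ring
    rw [e]
    obtain ⟨h1, h2⟩ := ih
    constructor
    · positivity
    · have h3 : (y + h) * ((y + h) ^ (i + 2) - y ^ (i + 2) - (i + 2) * y ^ (i + 1) * h) ≤
          (y + h) * ((i + 2) ^ 2 * (h ^ 2 * (y + h) ^ i)) :=
        mul_le_mul_of_nonneg_left h2 (by positivity)
      have h4 : y ^ (i + 1) ≤ (y + h) ^ (i + 1) := pow_le_pow_left₀ hy (by linarith) _
      have h5 : ((i : ℝ) + 2) * (y ^ (i + 1) * h ^ 2) ≤ (i + 2) * ((y + h) ^ (i + 1) * h ^ 2) := by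
        gcongr
      have h6 : (y + h) * (((i : ℝ) + 2) ^ 2 * (h ^ 2 * (y + h) ^ i)) +
          (i + 2) * ((y + h) ^ (i + 1) * h ^ 2) =
          ((i + 2) ^ 2 + (i + 2)) * (h ^ 2 * (y + h) ^ (i + 1)) := by ring
      have h7 : ((i : ℝ) + 2) ^ 2 + (i + 2) ≤ ((i + 1 : ℕ) + 2) ^ 2 := by
        push_cast
        nlinarith [Nat.cast_nonneg (α := ℝ) i]
      calc _ ≤ (y + h) * (((i : ℝ) + 2) ^ 2 * (h ^ 2 * (y + h) ^ i)) +
            (i + 2) * ((y + h) ^ (i + 1) * h ^ 2) := add_le_add h3 h5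
        _ = ((i + 2) ^ 2 + (i + 2)) * (h ^ 2 * (y + h) ^ (i + 1)) := h6
        _ ≤ _ := mul_le_mul_of_nonneg_right h7 (by positivity)

/-- The bound of one error term. -/
theorem term_le' {E lam H L l : ℝ} {t i : ℕ} (hE : 0 < E) (hlam : 0 < lam) (hlam1 : lam ≤ 1)
    (hH : 0 < H) (hL : lam * H ≤ L) (hi : i + 2 ≤ t) :
    E / L ^ (i + 1) * ((i + 2) ^ 2 * (l ^ 2 * (2 * H) ^ i)) ≤
      l ^ 2 / H * (E * t ^ 2 * (2 / lam) ^ t) := by
  have hL0 : 0 < L := lt_of_lt_of_le (by positivity) hL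
  have h1 : (lam * H) ^ (i + 1) ≤ L ^ (i + 1) := pow_le_pow_left₀ (by positivity) hL _
  have h2 : 1 / L ^ (i + 1) ≤ 1 / (lam * H) ^ (i + 1) :=
    one_div_le_one_div_of_le (by positivity) h1
  have hit' : (i : ℝ) + 2 ≤ t := by exact_mod_cast hi
  have h21 : (1 : ℝ) ≤ 2 / lam := by rw [le_div_iff₀ hlam]; linarith
  have h4 : (2 : ℝ) ^ i / lam ^ (i + 1) ≤ (2 / lam) ^ t := by
    calc (2 : ℝ) ^ i / lam ^ (i + 1) ≤ 2 ^ (i + 1) / lam ^ (i + 1) := by
          apply div_le_div_of_nonneg_right _ (by positivity)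
          exact pow_le_pow_right₀ (by norm_num) (by omega)
      _ = (2 / lam) ^ (i + 1) := by rw [div_pow]
      _ ≤ (2 / lam) ^ t := pow_le_pow_right₀ h21 (by omega)
  have h5 : ((i : ℝ) + 2) ^ 2 ≤ (t : ℝ) ^ 2 := pow_le_pow_left₀ (by positivity) hit' 2
  calc E / L ^ (i + 1) * ((i + 2) ^ 2 * (l ^ 2 * (2 * H) ^ i))
      = E * (1 / L ^ (i + 1)) * ((i + 2) ^ 2 * (l ^ 2 * (2 * H) ^ i)) := by ring
    _ ≤ E * (1 / (lam * H) ^ (i + 1)) * (t ^ 2 * (l ^ 2 * (2 * H) ^ i)) := by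
        apply mul_le_mul
        · exact mul_le_mul_of_nonneg_left h2 hE.le
        · exact mul_le_mul_of_nonneg_right h5 (by positivity)
        · positivity
        · positivity
    _ = l ^ 2 / H * (E * t ^ 2) * ((2 : ℝ) ^ i / lam ^ (i + 1)) := by
        rw [mul_pow, mul_pow]
        field_simp
        ring
    _ ≤ l ^ 2 / H * (E * t ^ 2) * (2 / lam) ^ t := mul_le_mul_of_nonneg_left h4 (by positivity)
    _ = l ^ 2 / H * (E * t ^ 2 * (2 / lam) ^ t) := by ring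

theorem der_taylor (D : ℝ[X]) (m : ℝ) : (taylor m D).derivative = taylor m D.derivative := by
  rw [taylor_apply, taylor_apply, derivative_comp]
  simp

/-- The derivative from the expansion at `m`. -/
theorem deriv_taylor_sum (D : ℝ[X]) (t : ℕ) (hD : D.natDegree ≤ t) (m y : ℝ) :
    D.derivative.eval (m + y) =
      ∑ i ∈ range (t + 1), (taylor m D).coeff i * (i * y ^ (i - 1)) := by
  have h1 : (derivative (taylor m D)).eval y = D.derivative.eval (m + y) := by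
    rw [der_taylor, taylor_eval, add_comm]
  rw [← h1, derivative_eval, sum_over_range' _ (fun n => by simp) (t + 1)
    (by rw [natDegree_taylor]; omega)]
  refine sum_congr rfl fun i _ => ?_
  ring

/-- The coefficients of the derivative. -/
theorem coeff_taylor_deriv (D : ℝ[X]) (m : ℝ) (i : ℕ) :
    (taylor m D.derivative).coeff i = (taylor m D).coeff (i + 1) * (i + 1) := by
  rw [← der_taylor, coeff_derivative]

end SUBy

open SUBx SUBy in
/-- Row SUBS. -/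
theorem subs : SUBS_stmt := by
  intro t q₁ ε E ht hq₁ hε hε1 hE
  have hq₁' : (q₁ : ℝ) ≠ 0 := by exact_mod_cast (by omega : q₁ ≠ 0)
  have htr : (1 : ℝ) ≤ t := by exact_mod_cast ht
  set Q₃ : ℕ := t.factorial * q₁ with hQ₃d
  have hQ₃ : 1 ≤ Q₃ := Nat.mul_pos (Nat.factorial_pos _) hq₁
  have hQ' : (Q₃ : ℝ) ≠ 0 := by exact_mod_cast (by omega : Q₃ ≠ 0)
  set lam : ℝ := ε / 17 with hlam
  have hlam0 : 0 < lam := by positivity
  have hlam1 : lam ≤ 1 := by rw [hlam]; linarith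
  set M : ℝ := t * (E * t ^ 2 * (2 / lam) ^ t) with hM
  have hM0 : 0 < M := by positivity
  -- `l ^ 2 / H` is small
  obtain ⟨H₁, hH₁⟩ : ∃ H₁ : ℕ, ∀ H : ℕ, H₁ ≤ H →
      2 * Real.pi * (((H : ℝ) ^ (1 / 3 : ℝ)) ^ 2 / H * M) * H + 2 * (H : ℝ) ^ (1 / 3 : ℝ) ≤
        ε / 8 * H := by
    have h1 : Filter.Tendsto (fun H : ℕ => (H : ℝ) ^ (-(1 / 3) : ℝ)) Filter.atTop (nhds 0) :=
      (tendsto_rpow_neg_atTop (by norm_num)).comp tendsto_natCast_atTop_atTop
    have h2 : Filter.Tendsto (fun H : ℕ => (2 * Real.pi * M + 2) * (H : ℝ) ^ (-(1 / 3) : ℝ))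
        Filter.atTop (nhds ((2 * Real.pi * M + 2) * 0)) := h1.const_mul _
    rw [mul_zero] at h2
    have h3 := (h2.eventually (gt_mem_nhds (by positivity : (0 : ℝ) < ε / 8))).and
      (Filter.eventually_ge_atTop 1)
    obtain ⟨H₁, hH₁⟩ := Filter.eventually_atTop.mp h3
    refine ⟨H₁, fun H hH => ?_⟩
    obtain ⟨h4, h5⟩ := hH₁ H hH
    have hH1 : (1 : ℝ) ≤ H := by exact_mod_cast h5
    have hH0 : (0 : ℝ) < H := by linarith
    have e1 : ((H : ℝ) ^ (1 / 3 : ℝ)) ^ 2 = (H : ℝ) ^ (-(1 / 3) : ℝ) * H := by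
      rw [← Real.rpow_natCast, ← Real.rpow_mul hH0.le]
      nth_rewrite 3 [← Real.rpow_one (H : ℝ)]
      rw [← Real.rpow_add hH0]
      norm_num
    have e2 : (H : ℝ) ^ (1 / 3 : ℝ) ≤ (H : ℝ) ^ (-(1 / 3) : ℝ) * H := by
      nth_rewrite 3 [← Real.rpow_one (H : ℝ)]
      rw [← Real.rpow_add hH0]
      exact Real.rpow_le_rpow_of_exponent_le hH1 (by norm_num)
    have e3 : 2 * Real.pi * (((H : ℝ) ^ (1 / 3 : ℝ)) ^ 2 / H * M) * H =
        2 * Real.pi * M * ((H : ℝ) ^ (-(1 / 3) : ℝ) * H) := by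
      rw [e1]
      field_simp
    rw [e3]
    have h6 : (2 * Real.pi * M + 2) * (H : ℝ) ^ (-(1 / 3) : ℝ) * H ≤ ε / 8 * H :=
      mul_le_mul_of_nonneg_right h4.le hH0.le
    linarith
  refine ⟨Q₃, H₁ + ⌈272 / ε⌉₊ + 1, hQ₃, ?_⟩
  intro H L m₀ l hH hL hl P hP hnd hW
  have hHn : 1 ≤ H := by omega
  have hHr : (0 : ℝ) < H := by exact_mod_cast (by omega : 0 < H)
  have hHr1 : (1 : ℝ) ≤ H := by exact_mod_cast hHn
  have hH1 : 272 / ε ≤ H :=
    (Nat.le_ceil _).trans (by exact_mod_cast (by omega : ⌈272 / ε⌉₊ ≤ H))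
  have hεH : 272 ≤ ε * H := by rwa [div_le_iff₀' hε] at hH1
  have hLlow : lam * H ≤ L := by
    have h1 : ε / 16 * (H : ℝ) < L + 1 := by rw [hL]; exact Nat.lt_floor_add_one _
    rw [hlam]
    nlinarith
  have hL1 : 1 ≤ L := by
    have : (0 : ℝ) < L := lt_of_lt_of_le (by positivity) hLlow
    exact_mod_cast this
  have hlle : (l : ℝ) ≤ (H : ℝ) ^ (1 / 3 : ℝ) := by rw [hl]; exact Nat.floor_le (by positivity)
  have hl1 : 1 ≤ l := by
    rw [hl]
    apply Nat.le_floor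
    rw [Nat.cast_one]
    exact Real.one_le_rpow hHr1 (by norm_num)
  have hlH : l ≤ H := by
    have h1 : (H : ℝ) ^ (1 / 3 : ℝ) ≤ (H : ℝ) ^ (1 : ℝ) :=
      Real.rpow_le_rpow_of_exponent_le hHr1 (by norm_num)
    rw [Real.rpow_one] at h1
    exact_mod_cast hlle.trans h1
  have hl0 : (0 : ℝ) < l := by exact_mod_cast hl1
  -- the rational approximations
  have hap : ∀ i : ℕ, ∃ a : ℤ, ∃ r : ℝ,
      (i + 2 ≤ t → (taylor (m₀ : ℝ) P).coeff (i + 2) = a / Q₃ + r) ∧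
      (i + 2 ≤ t → |r| ≤ E / (L : ℝ) ^ (i + 1)) := by
    intro i
    by_cases h1 : i + 2 ≤ t
    · obtain ⟨a, r, h2, h3⟩ := near_rat q₁ hq₁ _ _ (hnd (i + 1) (by omega) (by omega))
      rw [coeff_taylor_deriv] at h2
      have hi2 : ((i + 1 : ℕ) : ℝ) + 1 ≠ 0 := by positivity
      obtain ⟨k, hk⟩ : (i + 2) ∣ t.factorial := Nat.dvd_factorial (by omega) h1
      have hk' : (t.factorial : ℝ) = ((i + 1 : ℕ) + 1) * k := by
        have h5 : (t.factorial : ℝ) = (((i + 2) * k : ℕ) : ℝ) := by rw [← hk]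
        rw [h5]
        push_cast
        ring
      have hk0 : (k : ℝ) ≠ 0 := by
        intro h0
        rw [h0, mul_zero] at hk'
        have : (t.factorial : ℝ) ≠ 0 := by exact_mod_cast (Nat.factorial_ne_zero t)
        exact this hk'
      refine ⟨a * k, r / ((i + 1 : ℕ) + 1), fun _ => ?_, fun _ => ?_⟩
      · have h4 : (taylor (m₀ : ℝ) P).coeff (i + 2) = (a / q₁ + r) / ((i + 1 : ℕ) + 1) := by
          rw [← h2]
          rw [mul_div_cancel_right₀ _ hi2]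
        rw [h4, hQ₃d]
        push_cast at hk' hi2 ⊢
        rw [hk']
        field_simp
      · rw [abs_div, abs_of_pos (by positivity : (0 : ℝ) < ((i + 1 : ℕ) : ℝ) + 1)]
        refine (div_le_self (abs_nonneg _) ?_).trans h3
        push_cast
        linarith [Nat.cast_nonneg (α := ℝ) i]
    · exact ⟨0, 0, fun h => absurd h h1, fun h => absurd h h1⟩
  choose a r har hr using hap
  -- the expansion
  have hexp : ∀ y h : ℝ, P.eval (m₀ + (y + h)) = P.eval (m₀ + y) +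
      P.derivative.eval (m₀ + y) * h + ∑ i ∈ range (t - 1), (taylor (m₀ : ℝ) P).coeff (i + 2) *
        ((y + h) ^ (i + 2) - y ^ (i + 2) - (i + 2) * y ^ (i + 1) * h) := by
    intro y h
    rw [eval_taylor_sum P t hP m₀ (y + h), eval_taylor_sum P t hP m₀ y,
      deriv_taylor_sum P t hP m₀ y]
    obtain ⟨s, rfl⟩ : ∃ s, t = s + 1 := ⟨t - 1, by omega⟩
    rw [Nat.add_sub_cancel, sum_range_succ', sum_range_succ', sum_range_succ', sum_range_succ',
      sum_range_succ', sum_range_succ']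
    have h1 : ∑ i ∈ range s, (taylor (m₀ : ℝ) P).coeff (i + 2) *
        ((y + h) ^ (i + 2) - y ^ (i + 2) - (i + 2) * y ^ (i + 1) * h) =
        ∑ i ∈ range s, (taylor (m₀ : ℝ) P).coeff (i + 1 + 1) * (y + h) ^ (i + 1 + 1) -
        ∑ i ∈ range s, (taylor (m₀ : ℝ) P).coeff (i + 1 + 1) * y ^ (i + 1 + 1) -
        (∑ i ∈ range s, (taylor (m₀ : ℝ) P).coeff (i + 1 + 1) *
          (((i + 1 + 1 : ℕ) : ℝ) * y ^ (i + 1 + 1 - 1))) * h := by
      rw [sum_mul, ← sum_sub_distrib, ← sum_sub_distrib]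
      refine sum_congr rfl fun i _ => ?_
      rw [Nat.add_sub_cancel]
      push_cast
      ring
    rw [h1]
    simp only [zero_add, pow_zero, mul_one, pow_one, Nat.cast_zero, zero_mul, mul_zero, add_zero,
      Nat.cast_one, Nat.sub_self]
    ring
  have hmain : ∀ y, L ≤ y → y < H → Wp l (m₀ + y) P ≤
      ∑ b ∈ range Q₃, vv l (m₀ + y) (P.derivative.eval ((m₀ + y : ℕ) : ℝ) + (b : ℝ) / Q₃) +
        2 * Real.pi * (((H : ℝ) ^ (1 / 3 : ℝ)) ^ 2 / H * M) := by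
    intro y hLy hyH
    have h1 := twist Q₃ l hQ₃ (fun h => muC (m₀ + y + h)) (fun h => norm_muC _)
      (fun h => ∑ i ∈ range (t - 1), a i *
        (((y : ℤ) + h) ^ (i + 2) - (y : ℤ) ^ (i + 2) - (i + 2) * (y : ℤ) ^ (i + 1) * h))
      (fun h => by
        have h0 : ((h % Q₃ : ℕ) : ℤ) ≡ (h : ℤ) [ZMOD Q₃] := by
          rw [Int.natCast_mod]
          exact Int.mod_modEq _ _
        refine Int.ModEq.sum fun i _ => ?_
        refine Int.ModEq.mul_left _ (Int.ModEq.sub (Int.ModEq.sub ?_ rfl) ?_)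
        · exact Int.ModEq.pow _ (Int.ModEq.add_left _ h0)
        · exact Int.ModEq.mul_left _ h0)
      (fun h => P.eval (((m₀ + y : ℕ) : ℝ) + h))
      (fun h => P.derivative.eval (((m₀ + y : ℕ) : ℝ)) * h)
      (fun h => ∑ i ∈ range (t - 1), r i *
        (((y : ℝ) + h) ^ (i + 2) - (y : ℝ) ^ (i + 2) - (i + 2) * (y : ℝ) ^ (i + 1) * h))
      (P.eval ((m₀ : ℝ) + y)) 0 (((H : ℝ) ^ (1 / 3 : ℝ)) ^ 2 / H * M)
      (fun h _ _ => by
        have h2 : P.eval (((m₀ + y : ℕ) : ℝ) + h) = P.eval ((m₀ : ℝ) + ((y : ℝ) + h)) := by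
          push_cast
          rw [add_assoc]
        have h3 : ∑ i ∈ range (t - 1), (taylor (m₀ : ℝ) P).coeff (i + 2) *
            (((y : ℝ) + h) ^ (i + 2) - (y : ℝ) ^ (i + 2) - (i + 2) * (y : ℝ) ^ (i + 1) * h) =
            ∑ i ∈ range (t - 1), ((a i : ℝ) *
              (((y : ℝ) + h) ^ (i + 2) - (y : ℝ) ^ (i + 2) - (i + 2) * (y : ℝ) ^ (i + 1) * h) /
                Q₃ + r i *
              (((y : ℝ) + h) ^ (i + 2) - (y : ℝ) ^ (i + 2) -
                (i + 2) * (y : ℝ) ^ (i + 1) * h)) := by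
          refine sum_congr rfl fun i hi => ?_
          rw [har i (by rw [mem_range] at hi; omega)]
          ring
        rw [h2, hexp, h3, sum_add_distrib]
        push_cast
        rw [sum_div]
        ring)
      (fun h _ hhl => by
        have hy2 : (y : ℝ) + h ≤ 2 * H := by
          have h5 : (y : ℝ) ≤ H := by exact_mod_cast hyH.le
          have h6 : (h : ℝ) ≤ H := by exact_mod_cast hhl.trans hlH
          linarith
        have hhl' : (h : ℝ) ≤ (H : ℝ) ^ (1 / 3 : ℝ) := le_trans (by exact_mod_cast hhl) hlle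
        have hterm : ∀ i ∈ range (t - 1), |r i *
            (((y : ℝ) + h) ^ (i + 2) - (y : ℝ) ^ (i + 2) - (i + 2) * (y : ℝ) ^ (i + 1) * h)| ≤
            ((H : ℝ) ^ (1 / 3 : ℝ)) ^ 2 / H * (E * t ^ 2 * (2 / lam) ^ t) := by
          intro i hi
          rw [mem_range] at hi
          rw [abs_mul]
          obtain ⟨h3, h4⟩ := rem_le i (y : ℝ) (h : ℝ) (Nat.cast_nonneg _) (Nat.cast_nonneg _)
          have h5 : ((i : ℝ) + 2) ^ 2 * ((h : ℝ) ^ 2 * ((y : ℝ) + h) ^ i) ≤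
              (i + 2) ^ 2 * (((H : ℝ) ^ (1 / 3 : ℝ)) ^ 2 * (2 * H) ^ i) := by
            gcongr
          rw [abs_of_nonneg h3]
          refine (mul_le_mul (hr i (by omega)) (h4.trans h5) h3 (by positivity)).trans ?_
          exact term_le' hE hlam0 hlam1 hHr hLlow (by omega)
        refine (abs_sum_le_sum_abs _ _).trans ((sum_le_sum hterm).trans ?_)
        rw [sum_const, card_range, nsmul_eq_mul, hM]
        have h6 : ((t - 1 : ℕ) : ℝ) ≤ t := by exact_mod_cast Nat.sub_le _ _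
        have h7 : 0 ≤ ((H : ℝ) ^ (1 / 3 : ℝ)) ^ 2 / H * (E * t ^ 2 * (2 / lam) ^ t) := by
          positivity
        calc ((t - 1 : ℕ) : ℝ) * (((H : ℝ) ^ (1 / 3 : ℝ)) ^ 2 / H * (E * t ^ 2 * (2 / lam) ^ t))
            ≤ t * (((H : ℝ) ^ (1 / 3 : ℝ)) ^ 2 / H * (E * t ^ 2 * (2 / lam) ^ t)) :=
              mul_le_mul_of_nonneg_right h6 h7
          _ = _ := by ring)
    have h2 : Wp l (m₀ + y) P ≤ (∑ b ∈ range Q₃, ‖∑ h ∈ Icc 1 l, muC (m₀ + y + h) *
        ee (P.derivative.eval (((m₀ + y : ℕ) : ℝ)) * h + (b : ℝ) / Q₃ * (0 + h))‖ +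
          l * (2 * Real.pi * (((H : ℝ) ^ (1 / 3 : ℝ)) ^ 2 / H * M))) / l := by
      unfold Wp
      exact div_le_div_of_nonneg_right h1 hl0.le
    refine h2.trans (le_of_eq ?_)
    rw [add_div, sum_div, mul_div_cancel_left₀ _ hl0.ne']
    congr 1
    refine sum_congr rfl fun b _ => ?_
    unfold vv
    congr 2
    refine sum_congr rfl fun h _ => ?_
    congr 2
    ring
  refine region H L m₀ l ε (2 * Real.pi * (((H : ℝ) ^ (1 / 3 : ℝ)) ^ 2 / H * M)) hε hε1 hL1 hL hl1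
    P (fun x => ∑ b ∈ range Q₃, vv l x (P.derivative.eval (x : ℝ) + (b : ℝ) / Q₃))
    (fun x => sum_nonneg fun b _ => by unfold vv; positivity) hW (by positivity) ?_ hmain
  have h1 := hH₁ H (by omega)
  linarith

end Pool.Agent.VQ
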