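import Mathlib
import Pool.Agent.Lib.VQ.WDefs
import Pool.Agent.Lib.SV.RB2

/-!
# Theorem W (MP_663568_nt), row WSFIN: assembly of the set version.  (helper26)
-/

set_option autoImplicit false
open Finset MeasureTheory Polynomial Filter

namespace Pool.Agent.VQ

open Pool.Agent.Lib.MP_663568_nt Pool.Agent.Lib.MP_663568_nt.Katai
  Pool.Agent.Lib.MP_663568_nt.Nul Pool.Agent.SV

noncomputable section

namespace Wsf

theorem Wp_nonneg (l m : ℕ) (P : ℝ[X]) : 0 ≤ Wp l m P := by unfold Wp; positivity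

theorem Wp_le_one (l m : ℕ) (P : ℝ[X]) : Wp l m P ≤ 1 := by
  unfold Wp
  refine div_le_one_of_le₀ ?_ (Nat.cast_nonneg _)
  refine (rb2_sum_le (Icc 1 l) (fun h => m + h) fun h => P.eval ((m : ℝ) + h)).trans ?_
  simp

/-- The length `H ^ (1 / 3)`. -/
theorem len (A : ℝ) (hA : 0 ≤ A) (l₀ : ℕ) : ∃ H₀ : ℕ, ∀ H : ℕ, H₀ ≤ H →
    l₀ ≤ ⌊(H : ℝ) ^ (1 / 3 : ℝ)⌋₊ ∧ (H : ℝ) ^ A ≤ (⌊(H : ℝ) ^ (1 / 3 : ℝ)⌋₊ : ℝ) ^ (3 * A + 1) := by
  obtain ⟨y, hy⟩ : ∃ y : ℝ, y = max ((2 : ℝ) ^ (3 * A + 1)) (l₀ + 2) := ⟨_, rfl⟩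
  have hy1 : (2 : ℝ) ^ (3 * A + 1) ≤ y := by rw [hy]; exact le_max_left _ _
  have hy2 : (l₀ : ℝ) + 2 ≤ y := by rw [hy]; exact le_max_right _ _
  have hl0 : (0 : ℝ) ≤ l₀ := Nat.cast_nonneg _
  have hy0 : 0 ≤ y := by linarith
  refine ⟨⌈y ^ 3⌉₊, fun H hH => ?_⟩
  have hH' : y ^ 3 ≤ H := (Nat.le_ceil _).trans (by exact_mod_cast hH)
  have hH0 : (0 : ℝ) ≤ H := Nat.cast_nonneg _
  obtain ⟨x, hx⟩ : ∃ x : ℝ, x = (H : ℝ) ^ (1 / 3 : ℝ) := ⟨_, rfl⟩
  have hxy : y ≤ x := by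
    have h1 : (y ^ 3) ^ (1 / 3 : ℝ) = y := by
      rw [← Real.rpow_natCast, ← Real.rpow_mul hy0]
      norm_num
    rw [← h1, hx]
    exact Real.rpow_le_rpow (by positivity) hH' (by norm_num)
  have hx0 : 0 < x := by linarith
  have hxA : (H : ℝ) ^ A = x ^ (3 * A) := by
    rw [hx, ← Real.rpow_mul hH0]
    congr 1
    ring
  rw [← hx, hxA]
  have hfl : x - 1 < ⌊x⌋₊ := by
    have := Nat.lt_floor_add_one x
    linarith
  have hfl2 : x / 2 ≤ ⌊x⌋₊ := by linarith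
  constructor
  · rw [Nat.le_floor_iff hx0.le]
    linarith
  · have h1 : (x / 2) ^ (3 * A + 1) ≤ (⌊x⌋₊ : ℝ) ^ (3 * A + 1) :=
      Real.rpow_le_rpow (by positivity) hfl2 (by positivity)
    refine le_trans ?_ h1
    rw [Real.div_rpow hx0.le (by norm_num), le_div_iff₀ (by positivity), Real.rpow_add_one hx0.ne']
    exact mul_le_mul_of_nonneg_left (hy1.trans hxy) (by positivity)

theorem slow_mono {S T : ℕ → Set ℝ} {K K' : ℝ} (h : TFx.SlowR S K) (hK : K ≤ K')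
    (hST : ∀ n, S (n + 1) = S n → T (n + 1) = T n) : TFx.SlowR T K' := by
  intro j
  refine le_trans ?_ ((h j).trans hK)
  have hfin : {n : ℕ | 2 ^ j ≤ n ∧ n < 2 ^ (j + 1) ∧ S (n + 1) ≠ S n}.Finite :=
    (Set.finite_Iio (2 ^ (j + 1))).subset fun n hn => hn.2.1
  have hsub : {n : ℕ | 2 ^ j ≤ n ∧ n < 2 ^ (j + 1) ∧ T (n + 1) ≠ T n} ⊆
      {n : ℕ | 2 ^ j ≤ n ∧ n < 2 ^ (j + 1) ∧ S (n + 1) ≠ S n} :=
    fun n hn => ⟨hn.1, hn.2.1, fun h' => hn.2.2 (hST n h')⟩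
  exact_mod_cast Set.ncard_le_ncard hsub hfin

end Wsf

open Wsf in
theorem wsfin : WSFIN_stmt := by
  classical
  intro hL hReg hMeas hI hV t ht A ε ω hA hε hω
  obtain ⟨e, he⟩ : ∃ e, e = min ε 1 := ⟨_, rfl⟩
  have he0 : 0 < e := by rw [he]; exact lt_min hε one_pos
  have he1 : e ≤ 1 := by rw [he]; exact min_le_right _ _
  have heε : e ≤ ε := by rw [he]; exact min_le_left _ _
  obtain ⟨c, Q5, hc, hQ5, hL⟩ := hL t e ω ht he0 he1 hω
  have hQ5' : (1 : ℝ) ≤ Q5 := by exact_mod_cast hQ5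
  obtain ⟨δ, hδ⟩ : ∃ δ, δ = c * e / 128 := ⟨_, rfl⟩
  have hδ0 : 0 < δ := by rw [hδ]; positivity
  obtain ⟨R0, hR0⟩ := (hω.eventually (gt_mem_nhds (show (0 : ℝ) < δ ^ 2 / (12 * Q5) by
    positivity))).exists_forall_of_atTop
  obtain ⟨R, hR⟩ : ∃ R, R = 2 * max R0 2 := ⟨_, rfl⟩
  have hR4 : 4 ≤ R := by rw [hR]; linarith [le_max_right R0 2]
  have hR2 : R0 ≤ R / 2 := by rw [hR]; linarith [le_max_left R0 2]
  have hωR : ω (R / 2) < δ ^ 2 / (12 * Q5) := hR0 _ hR2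
  have hRpos : 0 < R := by linarith
  obtain ⟨H1, hL⟩ := hL (1 / R) (by positivity)
  obtain ⟨B1, H2, hB1, hReg⟩ := hReg A e c hA he0 he1 hc
  obtain ⟨l0, hF⟩ := TFx.fin_i hI hV (3 * A + 1) δ R hδ0 (by linarith)
  obtain ⟨H3, hlen⟩ := len A hA (max l0 1)
  refine ⟨max B1 4, max (max H1 H2) (max H3 3), (hB1.trans (le_max_left _ _)), ?_⟩
  intro H hH xa xb hxa hxb S hS hSω P hP hPS
  have hH1 : H1 ≤ H := ((le_max_left _ _).trans (le_max_left _ _)).trans hH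
  have hH2 : H2 ≤ H := ((le_max_right _ _).trans (le_max_left _ _)).trans hH
  have hH3 : H3 ≤ H := ((le_max_left _ _).trans (le_max_right _ _)).trans hH
  have hH4 : 3 ≤ H := ((le_max_right _ _).trans (le_max_right _ _)).trans hH
  have hH3' : (3 : ℝ) ≤ H := by exact_mod_cast hH4
  have hHone : (1 : ℝ) ≤ H := by linarith
  obtain ⟨B, hB⟩ : ∃ B, B = max B1 4 := ⟨_, rfl⟩
  rw [← hB] at hxa hxb
  have hBB1 : B1 ≤ B := by rw [hB]; exact le_max_left _ _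
  have hB4 : 4 ≤ B := by rw [hB]; exact le_max_right _ _
  have hHxa : (H : ℝ) ≤ xa := by
    refine le_trans ?_ hxa
    calc (H : ℝ) = (H : ℝ) ^ (1 : ℝ) := (Real.rpow_one _).symm
      _ ≤ (H : ℝ) ^ B := Real.rpow_le_rpow_of_exponent_le hHone (by linarith)
  have hxa1 : 1 ≤ xa := by linarith
  have hxa0 : 0 < xa := by linarith
  have hxa4 : xa ^ (4 : ℕ) ≤ xb := by
    refine le_trans ?_ hxb
    rw [← Real.rpow_natCast]
    exact Real.rpow_le_rpow_of_exponent_le hxa1 (by push_cast; linarith)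
  have hxaH : xa * H ≤ xb := by
    refine le_trans ?_ hxa4
    calc xa * H ≤ xa * xa := mul_le_mul_of_nonneg_left hHxa hxa0.le
      _ = xa ^ 2 := by ring
      _ ≤ xa ^ 4 := pow_le_pow_right₀ hxa1 (by norm_num)
  have hxb4 : 4 ≤ xb := by
    have : xa * H ≥ 3 * 3 := mul_le_mul (by linarith) hH3' (by norm_num) hxa0.le
    linarith
  have hxb0 : 0 < xb := by linarith
  have hlogxb : 4 * Real.log xa ≤ Real.log xb := by
    have h1 := Real.log_le_log (by positivity) hxa4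
    rw [Real.log_pow] at h1
    push_cast at h1
    exact h1
  have hlog2 : 2 * Real.log 2 ≤ Real.log xb := by
    have h1 := Real.log_le_log (by norm_num) hxb4
    rw [show (4 : ℝ) = 2 ^ 2 by norm_num, Real.log_pow] at h1
    push_cast at h1
    exact h1
  have hlog2' : 0 < Real.log 2 := Real.log_pos (by norm_num)
  obtain ⟨Λ, hΛ⟩ : ∃ Λ, Λ = Real.log xb - Real.log xa := ⟨_, rfl⟩
  have hΛ0 : 0 < Λ := by linarith
  rw [← hΛ]
  by_contra hcon
  rw [not_le] at hcon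
  obtain ⟨l, hl⟩ : ∃ l, l = ⌊(H : ℝ) ^ (1 / 3 : ℝ)⌋₊ := ⟨_, rfl⟩
  obtain ⟨hlen1, hlen2⟩ := hlen H hH3
  rw [← hl] at hlen1 hlen2
  have hL' := fun m₀ => hL H m₀ hH1
  rw [← hl] at hL'
  have hl1 : 1 ≤ l := (le_max_right _ _).trans hlen1
  have hl0 : l0 ≤ l := (le_max_left _ _).trans hlen1
  have hlpos : (0 : ℝ) < l := by exact_mod_cast hl1
  have hlH : l ≤ H := by
    have h1 : (H : ℝ) ^ (1 / 3 : ℝ) ≤ (H : ℝ) ^ (1 : ℝ) :=
      Real.rpow_le_rpow_of_exponent_le hHone (by norm_num)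
    rw [Real.rpow_one] at h1
    rw [hl]
    exact Nat.floor_le_of_le h1
  obtain ⟨N, hN⟩ : ∃ N, N = ⌊2 * xb⌋₊ := ⟨_, rfl⟩
  have hN8 : 3 ≤ N := by
    rw [hN, Nat.le_floor_iff (by positivity)]
    push_cast
    linarith
  have hNle : (N : ℝ) ≤ 2 * xb := by rw [hN]; exact Nat.floor_le (by positivity)
  have hHN : l ≤ N := by
    refine hlH.trans ?_
    rw [hN, Nat.le_floor_iff (by positivity)]
    have : xa * 3 ≤ xa * H := mul_le_mul_of_nonneg_left hH3' hxa0.le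
    linarith
  -- the lower bound
  have hbad : ∀ j : ℕ, (#((Ico (2 ^ j) (2 ^ (j + 1))).filter fun n =>
      n ∈ {n : ℕ | S (n + 1) ≠ S n}) : ℝ) ≤ (H : ℝ) ^ A := by
    intro j
    have h1 : {n : ℕ | 2 ^ j ≤ n ∧ n < 2 ^ (j + 1) ∧ S (n + 1) ≠ S n} =
        (((Ico (2 ^ j) (2 ^ (j + 1))).filter fun n => n ∈ {n : ℕ | S (n + 1) ≠ S n} :
          Finset ℕ) : Set ℕ) := by
      ext n
      simp [and_assoc]
    have h2 := hS j
    rw [h1, Set.ncard_coe_finset] at h2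
    exact h2
  have hregion : ∀ m₀ : ℕ, xa / 2 ≤ m₀ →
      (∀ n, m₀ ≤ n → n ≤ m₀ + 2 * H → n ∉ {n : ℕ | S (n + 1) ≠ S n}) →
      e / 8 * (⌊e / 16 * (H : ℝ)⌋₊ : ℝ) ≤
        (#((range ⌊e / 16 * (H : ℝ)⌋₊).filter fun j => e / 2 ≤ Wp H (m₀ + j) (P (m₀ + j))) : ℝ) →
      c * H ≤ ∑ x ∈ Ioc m₀ (m₀ + H), TFx.sB (Nr (S x) Q5 (1 / R)) l x := by
    intro m₀ _ hb hcount
    have hconst : ∀ k : ℕ, k ≤ 2 * H + 1 → S (m₀ + k) = S m₀ := by
      intro k
      induction k with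
      | zero => intro _; rfl
      | succ k ih =>
        intro hk
        have h1 := hb (m₀ + k) (by omega) (by omega)
        rw [Set.mem_ofPred_eq, not_not] at h1
        rw [← add_assoc, h1]
        exact ih (by omega)
    have hfl : ⌊e / 16 * (H : ℝ)⌋₊ ≤ H := by
      refine Nat.floor_le_of_le ?_
      have : e / 16 * (H : ℝ) ≤ 1 * H := mul_le_mul_of_nonneg_right (by linarith) (by linarith)
      linarith
    have h2 := hL' m₀ (S m₀) (fun R hR => hSω m₀ R hR)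
      (fun n => if m₀ ≤ n ∧ n < m₀ + H then Wp H n (P n) else 0) (by
        intro n hn
        split_ifs at hn with hcase
        · refine ⟨P n, hP n, ?_, hn⟩
          have h3 := hconst (n - m₀) (by omega)
          rw [show m₀ + (n - m₀) = n by omega] at h3
          rw [← h3]
          refine (hPS n).resolve_right fun h4 => ?_
          rw [h4] at hn
          linarith
        · linarith) (by
        refine hcount.trans (le_of_eq ?_)
        congr 2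
        refine filter_congr fun j hj => ?_
        rw [mem_range] at hj
        rw [if_pos ⟨by omega, by omega⟩])
    refine h2.trans (le_of_eq (sum_congr rfl fun x hx => ?_))
    rw [mem_Ioc] at hx
    have h3 := hconst (x - m₀) (by omega)
    rw [show m₀ + (x - m₀) = x by omega] at h3
    rw [h3]
  have hlow := hReg H hH2 xa xb
    ((Real.rpow_le_rpow_of_exponent_le hHone hBB1).trans hxa) hxaH
    {n : ℕ | S (n + 1) ≠ S n} (fun j => by convert hbad j) (fun n => Wp H n (P n))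
    (fun x => TFx.sB (Nr (S x) Q5 (1 / R)) l x) (fun n => Wp_nonneg _ _ _)
    (fun n => Wp_le_one _ _ _) (fun n => TFx.sB_nonneg _ _ _) hregion (by
      rw [← hΛ]
      exact lt_of_le_of_lt (mul_le_mul_of_nonneg_right heε hΛ0.le) hcon)
  rw [← hΛ, ← hN] at hlow
  -- the upper bound
  have hup := hF l N hl0 hHN (fun n => Nr (S n) Q5 (1 / R))
    (slow_mono hS hlen2 fun n hn => by rw [hn])
  rw [TFx.avg_eq] at hup
  obtain ⟨hl1', hharm⟩ := TFx.harm hN8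
  obtain ⟨LN, hLN⟩ : ∃ LN, LN = Real.log N := ⟨_, rfl⟩
  rw [← hLN] at hup hl1' hharm
  have hLN0 : 0 < LN := by linarith
  have hLNΛ : LN ≤ 2 * Λ := by
    have h1 : LN ≤ Real.log 2 + Real.log xb := by
      rw [hLN, ← Real.log_mul (by norm_num) hxb0.ne']
      exact Real.log_le_log (by exact_mod_cast (show 0 < N by omega)) hNle
    linarith
  have hout : ∀ n : ℕ, TFx.outer (TFx.Sym (Nr (S n) Q5 (1 / R))) R ≤ δ ^ 2 / 6 := by
    intro n
    have h1 := hMeas (S n) Q5 R (1 / R) hQ5 (by linarith) (by positivity) (by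
      have : 1 / R ≤ 1 / 4 := one_div_le_one_div_of_le (by norm_num) hR4
      linarith)
    have h2 : 1 / (1 / R + 1 / R) = R / 2 := by field_simp; norm_num
    rw [h2] at h1
    have h3 := hSω n (R / 2) (by linarith)
    refine h1.trans ?_
    have h4 : 2 * (Q5 : ℝ) * TFx.outer (S n) (R / 2) ≤ 2 * Q5 * (δ ^ 2 / (12 * Q5)) :=
      mul_le_mul_of_nonneg_left (h3.trans hωR.le) (by positivity)
    refine h4.trans (le_of_eq ?_)
    field_simp
    norm_num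
  have hVn : ∑ n ∈ Icc 1 N, (1 / (n : ℝ)) *
      TFx.outer (TFx.Sym (Nr (S n) Q5 (1 / R))) R ≤ δ ^ 2 / 3 * LN := by
    have h1 : ∑ n ∈ Icc 1 N, (1 / (n : ℝ)) * TFx.outer (TFx.Sym (Nr (S n) Q5 (1 / R))) R ≤
        ∑ n ∈ Icc 1 N, δ ^ 2 / 6 * (1 / (n : ℝ)) := by
      refine sum_le_sum fun n _ => ?_
      rw [mul_comm]
      exact mul_le_mul_of_nonneg_right (hout n) (by positivity)
    rw [← mul_sum] at h1
    have h2 := mul_le_mul_of_nonneg_left hharm (show 0 ≤ δ ^ 2 / 6 by positivity)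
    linarith
  have hsq : √(3 * ((∑ n ∈ Icc 1 N, (1 / (n : ℝ)) *
      TFx.outer (TFx.Sym (Nr (S n) Q5 (1 / R))) R) / LN)) ≤ δ := by
    rw [Real.sqrt_le_left hδ0.le]
    have : (∑ n ∈ Icc 1 N, (1 / (n : ℝ)) *
      TFx.outer (TFx.Sym (Nr (S n) Q5 (1 / R))) R) / LN ≤ δ ^ 2 / 3 := by
      rw [div_le_iff₀ hLN0]; exact hVn
    linarith
  have hpi : √(3 * ((∑ n ∈ Icc 1 N, (1 / (n : ℝ)) *
      TFx.outer (TFx.Sym (Nr (S n) Q5 (1 / R))) R) / LN)) / Real.pi ≤ δ := by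
    refine le_trans ?_ hsq
    exact div_le_self (Real.sqrt_nonneg _) (by linarith [Real.pi_gt_three])
  have hup2 : ∑ n ∈ Icc 1 N, (1 / (n : ℝ)) * TFx.sB (Nr (S n) Q5 (1 / R)) l n ≤
      2 * δ * LN := by
    have h1 : (l : ℝ) * ∑ n ∈ Icc 1 N, (1 / (n : ℝ)) * TFx.sB (Nr (S n) Q5 (1 / R)) l n ≤
        l * (2 * δ * LN) := by
      refine hup.trans ?_
      have h2 := mul_le_mul_of_nonneg_right (mul_le_mul_of_nonneg_right
        (add_le_add_left hpi δ) hlpos.le) hLN0.le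
      linarith
    exact le_of_mul_le_mul_left h1 hlpos
  have hsub : ∑ x ∈ Ioc ⌊xa / 2⌋₊ N, (1 / (x : ℝ)) * TFx.sB (Nr (S x) Q5 (1 / R)) l x ≤
      ∑ n ∈ Icc 1 N, (1 / (n : ℝ)) * TFx.sB (Nr (S n) Q5 (1 / R)) l n := by
    refine sum_le_sum_of_subset_of_nonneg (fun x hx => ?_) fun x _ _ =>
      mul_nonneg (by positivity) (TFx.sB_nonneg _ _ _)
    rw [mem_Ioc] at hx
    rw [mem_Icc]
    omega
  have h1 : 2 * δ * LN ≤ 2 * δ * (2 * Λ) := mul_le_mul_of_nonneg_left hLNΛ (by positivity)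
  have h2 : c * e / 8 * Λ ≤ 4 * δ * Λ := by linarith
  rw [hδ] at h2
  have h3 : 0 < c * e * Λ := by positivity
  linarith

end

end Pool.Agent.VQ
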