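import Mathlib
import Pool.Agent.Lib.SV.T15
import Pool.Agent.Lib.SV.TF
import Pool.Agent.Lib.SV.V
import Pool.Agent.Lib.VQ.CLU
import Pool.Agent.Lib.VQ.EQP
import Pool.Agent.Lib.VQ.LAG
import Pool.Agent.Lib.VQ.LOCS
import Pool.Agent.Lib.VQ.MEAS
import Pool.Agent.Lib.VQ.PAIR
import Pool.Agent.Lib.VQ.PAvg
import Pool.Agent.Lib.VQ.REG
import Pool.Agent.Lib.VQ.RNG
import Pool.Agent.Lib.VQ.SUBS
import Pool.Agent.Lib.VQ.WSFIN

/-!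
# Theorem WS (MP_663568_nt): the assembly.  (helper19)
-/

set_option autoImplicit false

namespace Pool.Agent.VQ

open Polynomial Pool.Agent.SV

/-- **Theorem WS**, without hypotheses. -/
theorem ws_thm : ∀ t : ℕ, 1 ≤ t → WS t :=
  wsfin (locs (clu pair) (eqp t15) (rng lag) subs meas) reg meas TFasm.part_i v_thm

/-- Theorem WS, logarithmic averages, supremum inside. -/
theorem ws_avg {t : ℕ} (ht : 1 ≤ t) (A ε : ℝ) (hε : 0 < ε) (ω : ℝ → ℝ)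
    (hω : Filter.Tendsto ω Filter.atTop (nhds 0)) :
    ∃ (C : ℝ) (H₀ : ℕ), ∀ H N : ℕ, H₀ ≤ H → (H : ℝ) ^ C ≤ N → ∀ S : ℕ → Set ℝ,
    TFx.SlowR S ((H : ℝ) ^ A) → (∀ (n : ℕ) (R : ℝ), 1 ≤ R → TFx.outer (S n) R ≤ ω R) →
    PAvgx.PAvg t S N H ≤ ε * H * Real.log N :=
  PAvgx.ws_final ht (ws_thm t ht) A ε hε ω hω

end Pool.Agent.VQ
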