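import Mathlib
import Pool.Agent.Lib.VQ.WSTop

/-!
# Theorem WS (MP_663568_nt) with a condition on average.  (helper19)
-/

set_option autoImplicit false

namespace Pool.Agent.VQ

open Finset Polynomial Filter Pool.Agent.SV

namespace WSAvx

/-- The logarithmic average of the outer measures of the symmetrised sets. -/
noncomputable def vbar (S : ℕ → Set ℝ) (N : ℕ) (R : ℝ) : ℝ :=
  (∑ n ∈ Finset.Icc 1 N, (1 / (n : ℝ)) * TFx.outer (TFx.Sym (S n)) R) / Real.log N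

theorem outer_anti (A : Set ℝ) {R R' : ℝ} (h0 : 0 < R) (h : R ≤ R') :
    TFx.outer A R' ≤ TFx.outer A R := by
  unfold TFx.outer
  refine ENNReal.toReal_mono ?_ (MeasureTheory.measure_mono ?_)
  · refine ((MeasureTheory.measure_mono (fun x hx => hx.1)).trans_lt
      (b := MeasureTheory.volume (Set.Icc (0 : ℝ) 1)) ?_).ne
    simp
  · rintro x ⟨hx, y, hy, b, hb⟩
    exact ⟨hx, y, hy, b, hb.trans (one_div_le_one_div_of_le h0 h)⟩

theorem outer_nonneg (A : Set ℝ) (R : ℝ) : 0 ≤ TFx.outer A R := ENNReal.toReal_nonneg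

/-- A common modulus. -/
theorem modulus (r : ℕ → ℝ) :
    ∃ ω : ℝ → ℝ, Tendsto ω atTop (nhds 0) ∧ ∀ (R : ℝ) (x : ℝ), x ≤ 1 → 0 ≤ x →
      (∀ i : ℕ, r i ≤ R → x ≤ (1 / 2 : ℝ) ^ i) → x ≤ ω R := by
  refine ⟨fun R => sInf {y : ℝ | y = 1 ∨ ∃ i : ℕ, r i ≤ R ∧ y = (1 / 2 : ℝ) ^ i}, ?_, ?_⟩
  · rw [Metric.tendsto_atTop]
    intro ε hε
    obtain ⟨i, hi⟩ := exists_pow_lt_of_lt_one hε (by norm_num : (1 / 2 : ℝ) < 1)
    refine ⟨r i, fun R hR => ?_⟩
    have hbdd : BddBelow {y : ℝ | y = 1 ∨ ∃ i : ℕ, r i ≤ R ∧ y = (1 / 2 : ℝ) ^ i} := by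
      refine ⟨0, ?_⟩
      rintro y (rfl | ⟨i, -, rfl⟩)
      · exact zero_le_one
      · positivity
    have h1 : sInf {y : ℝ | y = 1 ∨ ∃ i : ℕ, r i ≤ R ∧ y = (1 / 2 : ℝ) ^ i} ≤ (1 / 2 : ℝ) ^ i :=
      csInf_le hbdd (Or.inr ⟨i, hR, rfl⟩)
    have h0 : 0 ≤ sInf {y : ℝ | y = 1 ∨ ∃ i : ℕ, r i ≤ R ∧ y = (1 / 2 : ℝ) ^ i} := by
      refine le_csInf ⟨1, Or.inl rfl⟩ ?_
      rintro y (rfl | ⟨i, -, rfl⟩)
      · exact zero_le_one
      · positivity
    rw [Real.dist_eq, sub_zero, abs_of_nonneg h0]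
    linarith
  · intro R x hx1 _ hx
    refine le_csInf ⟨1, Or.inl rfl⟩ ?_
    rintro y (rfl | ⟨i, hi, rfl⟩)
    · exact hx1
    · exact hx i hi

theorem term_bd (t : ℕ) (S : Set ℝ) (n H : ℕ) :
    0 ≤ (⨆ P : {P : Polynomial ℝ // P.natDegree ≤ t ∧ P.coeff 1 ∈ S},
      ‖∑ h ∈ Finset.Icc 1 H,
        Complex.exp (2 * Real.pi * Complex.I * (((P : Polynomial ℝ).eval (h : ℝ) : ℝ) : ℂ)) *
          ((ArithmeticFunction.moebius (n + h) : ℤ) : ℂ)‖) ∧
    (⨆ P : {P : Polynomial ℝ // P.natDegree ≤ t ∧ P.coeff 1 ∈ S},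
      ‖∑ h ∈ Finset.Icc 1 H,
        Complex.exp (2 * Real.pi * Complex.I * (((P : Polynomial ℝ).eval (h : ℝ) : ℝ) : ℂ)) *
          ((ArithmeticFunction.moebius (n + h) : ℤ) : ℂ)‖) ≤ H := by
  refine ⟨Real.iSup_nonneg fun _ => norm_nonneg _, Real.iSup_le (fun P => ?_) (Nat.cast_nonneg _)⟩
  rw [(PAvgx.abs_poly (P : ℝ[X]) H n).2.2]
  exact mul_le_of_le_one_right (Nat.cast_nonneg _) (PAvgx.Wp_le _ _ _).2

/-- **Theorem WS** with the condition on average. -/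
theorem ws_av {t : ℕ} (ht : 1 ≤ t) (A ε : ℝ) (hε : 0 < ε) (ω : ℝ → ℝ)
    (hω : Tendsto ω atTop (nhds 0)) :
    ∃ (C : ℝ) (H₀ : ℕ), ∀ H N : ℕ, H₀ ≤ H → (H : ℝ) ^ C ≤ N → ∀ S : ℕ → Set ℝ,
    TFx.SlowR S ((H : ℝ) ^ A) → (∀ R : ℝ, 1 ≤ R → vbar S N R ≤ ω R) →
    PAvgx.PAvg t S N H ≤ ε * H * Real.log N := by
  classical
  -- the scales
  have hr : ∀ i : ℕ, ∃ r : ℝ, 1 ≤ r ∧ ω r ≤ ε / 2 * (1 / 2 : ℝ) ^ (i + 1) * (1 / 2 : ℝ) ^ i := by
    intro i
    have hpos : 0 < ε / 2 * (1 / 2 : ℝ) ^ (i + 1) * (1 / 2 : ℝ) ^ i := by positivity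
    obtain ⟨r, hr⟩ := (hω.eventually (gt_mem_nhds hpos)).exists_forall_of_atTop
    exact ⟨max r 1, le_max_right _ _, (hr _ (le_max_left _ _)).le⟩
  choose r hr1 hr2 using hr
  obtain ⟨ω', hω'0, hω'⟩ := modulus r
  obtain ⟨C, H₀, hC⟩ := ws_avg ht A (ε / 2) (by linarith) ω' hω'0
  refine ⟨max C 1, max H₀ 3, fun H N hH hN S hS hv => ?_⟩
  have hHa : H₀ ≤ H := (le_max_left _ _).trans hH
  have hH3 : 3 ≤ H := (le_max_right _ _).trans hH
  have hHone : (1 : ℝ) ≤ H := by exact_mod_cast (by omega : 1 ≤ H)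
  have hH0 : (0 : ℝ) < H := by linarith
  have hHN : (H : ℝ) ≤ N := by
    refine le_trans ?_ hN
    calc (H : ℝ) = (H : ℝ) ^ (1 : ℝ) := (Real.rpow_one _).symm
      _ ≤ _ := Real.rpow_le_rpow_of_exponent_le hHone (le_max_right _ _)
  have hN3 : (3 : ℝ) ≤ N := by
    have : (3 : ℝ) ≤ H := by exact_mod_cast hH3
    linarith
  have hL : 0 < Real.log N := Real.log_pos (by linarith)
  -- the good sets
  obtain ⟨G, hG⟩ : ∃ G : Set ℝ → Prop, G = fun A => ∀ i : ℕ,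
      TFx.outer (TFx.Sym A) (r i) ≤ (1 / 2 : ℝ) ^ i := ⟨_, rfl⟩
  obtain ⟨S', hS'⟩ : ∃ S' : ℕ → Set ℝ, S' = fun n => if G (S n) then S n else ∅ := ⟨_, rfl⟩
  have hslow : TFx.SlowR S' ((H : ℝ) ^ A) := by
    intro j
    refine le_trans ?_ (hS j)
    have hfin : {n : ℕ | 2 ^ j ≤ n ∧ n < 2 ^ (j + 1) ∧ S (n + 1) ≠ S n}.Finite :=
      (Set.finite_Ico (2 ^ j) (2 ^ (j + 1))).subset fun n hn => ⟨hn.1, hn.2.1⟩
    have hs1 : {n : ℕ | 2 ^ j ≤ n ∧ n < 2 ^ (j + 1) ∧ S' (n + 1) ≠ S' n} ⊆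
        {n : ℕ | 2 ^ j ≤ n ∧ n < 2 ^ (j + 1) ∧ S (n + 1) ≠ S n} := fun n hn =>
      ⟨hn.1, hn.2.1, fun h => hn.2.2 (by rw [hS']; simp only [h])⟩
    exact_mod_cast Set.ncard_le_ncard hs1 hfin
  have hout : ∀ (n : ℕ) (R : ℝ), 1 ≤ R → TFx.outer (S' n) R ≤ ω' R := by
    intro n R hR
    refine hω' R _ (TFx.outer_bd _ _).2 (outer_nonneg _ _) fun i hi => ?_
    by_cases hg : G (S n)
    · have h1 : S' n = S n := by rw [hS']; simp only [if_pos hg]
      rw [h1]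
      have h2 := hg
      rw [hG] at h2
      refine le_trans (outer_anti _ (by linarith [hr1 i]) hi) (le_trans (LOCSx.outer_mono ?_ _) (h2 i))
      exact fun y hy => Or.inl hy
    · have h1 : S' n = ∅ := by rw [hS']; simp only [if_neg hg]
      rw [h1]
      have h3 : TFx.outer ∅ R = 0 := by
        unfold TFx.outer
        have : {x : ℝ | x ∈ Set.Icc (0 : ℝ) 1 ∧ ∃ y ∈ (∅ : Set ℝ), ∃ b : ℤ,
            |y - x - b| ≤ 1 / R} = ∅ := by
          ext x
          simp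
        rw [this]
        simp
      rw [h3]
      positivity
  have hmain := hC H N hHa (le_trans (Real.rpow_le_rpow_of_exponent_le hHone (le_max_left _ _)) hN)
    S' hslow hout
  -- the bad set
  obtain ⟨bad, hbad⟩ : ∃ bad : Finset ℕ, bad = (Finset.Icc 1 N).filter fun n => ¬ G (S n) :=
    ⟨_, rfl⟩
  have hex : ∀ n : ℕ, ∃ i : ℕ, ¬ G (S n) → (1 / 2 : ℝ) ^ i < TFx.outer (TFx.Sym (S n)) (r i) := by
    intro n
    by_cases hg : G (S n)
    · exact ⟨0, fun h => absurd hg h⟩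
    · rw [hG] at hg
      push Not at hg
      obtain ⟨i, hi⟩ := hg
      exact ⟨i, fun _ => hi⟩
  choose ix hix using hex
  have hbadsum : ∑ n ∈ bad, (1 / (n : ℝ)) ≤ ε / 2 * Real.log N := by
    have h1 : ∑ n ∈ bad, (1 / (n : ℝ)) =
        ∑ i ∈ bad.image ix, ∑ n ∈ bad.filter fun n => ix n = i, (1 / (n : ℝ)) :=
      (Finset.sum_fiberwise_of_maps_to (fun n hn => Finset.mem_image_of_mem ix hn) _).symm
    have h2 : ∀ i : ℕ, ∑ n ∈ bad.filter (fun n => ix n = i), (1 / (n : ℝ)) ≤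
        ε / 2 * (1 / 2 : ℝ) ^ (i + 1) * Real.log N := by
      intro i
      have h3 := hv (r i) (hr1 i)
      unfold vbar at h3
      rw [div_le_iff₀ hL] at h3
      have h4 : (1 / 2 : ℝ) ^ i * ∑ n ∈ bad.filter (fun n => ix n = i), (1 / (n : ℝ)) ≤
          ∑ n ∈ Finset.Icc 1 N, (1 / (n : ℝ)) * TFx.outer (TFx.Sym (S n)) (r i) := by
        rw [Finset.mul_sum]
        calc ∑ n ∈ bad.filter (fun n => ix n = i), (1 / 2 : ℝ) ^ i * (1 / (n : ℝ))
            ≤ ∑ n ∈ bad.filter (fun n => ix n = i),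
              (1 / (n : ℝ)) * TFx.outer (TFx.Sym (S n)) (r i) := by
              refine Finset.sum_le_sum fun n hn => ?_
              rw [Finset.mem_filter] at hn
              have hb : ¬ G (S n) := by
                have := hn.1
                rw [hbad, Finset.mem_filter] at this
                exact this.2
              have := hix n hb
              rw [hn.2] at this
              rw [mul_comm]
              exact mul_le_mul_of_nonneg_left this.le (by positivity)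
          _ ≤ _ := by
              refine Finset.sum_le_sum_of_subset_of_nonneg ?_ fun n _ _ =>
                mul_nonneg (by positivity) (outer_nonneg _ _)
              intro n hn
              rw [Finset.mem_filter] at hn
              have := hn.1
              rw [hbad, Finset.mem_filter] at this
              exact this.1
      have h5 : ω (r i) * Real.log N ≤
          ε / 2 * (1 / 2 : ℝ) ^ (i + 1) * (1 / 2 : ℝ) ^ i * Real.log N :=
        mul_le_mul_of_nonneg_right (hr2 i) hL.le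
      have h6 : (1 / 2 : ℝ) ^ i * ∑ n ∈ bad.filter (fun n => ix n = i), (1 / (n : ℝ)) ≤
          (1 / 2 : ℝ) ^ i * (ε / 2 * (1 / 2 : ℝ) ^ (i + 1) * Real.log N) := by
        refine (h4.trans (h3.trans h5)).trans (le_of_eq ?_)
        ring
      exact le_of_mul_le_mul_left h6 (by positivity)
    rw [h1]
    calc ∑ i ∈ bad.image ix, ∑ n ∈ bad.filter (fun n => ix n = i), (1 / (n : ℝ))
        ≤ ∑ i ∈ bad.image ix, ε / 2 * (1 / 2 : ℝ) ^ (i + 1) * Real.log N :=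
          Finset.sum_le_sum fun i _ => h2 i
      _ = ε / 2 * Real.log N * ∑ i ∈ bad.image ix, (1 / 2 : ℝ) ^ (i + 1) := by
          rw [Finset.mul_sum]
          refine Finset.sum_congr rfl fun i _ => by ring
      _ ≤ ε / 2 * Real.log N * 1 := by
          refine mul_le_mul_of_nonneg_left ?_ (by positivity)
          have hs : HasSum (fun i : ℕ => (1 / 2 : ℝ) ^ (i + 1)) 1 := by
            have h8 := hasSum_geometric_two.mul_left (1 / 2 : ℝ)
            have h9 : (fun i : ℕ => (1 / 2 : ℝ) ^ (i + 1)) = fun i : ℕ => 1 / 2 * (1 / 2 : ℝ) ^ i := by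
              funext i
              rw [pow_succ, mul_comm]
            have h10 : (1 / 2 : ℝ) * 2 = 1 := by norm_num
            rw [h9]
            rw [h10] at h8
            exact h8
          exact sum_le_hasSum _ (fun i _ => by positivity) hs
      _ = ε / 2 * Real.log N := by ring
  -- conclusion
  have hsplit : PAvgx.PAvg t S N H ≤ PAvgx.PAvg t S' N H + H * ∑ n ∈ bad, (1 / (n : ℝ)) := by
    unfold PAvgx.PAvg
    rw [hbad, Finset.mul_sum, Finset.sum_filter, ← Finset.sum_add_distrib]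
    refine Finset.sum_le_sum fun n _ => ?_
    by_cases hg : G (S n)
    · have h1 : S' n = S n := by rw [hS']; simp only [if_pos hg]
      rw [h1, if_neg (not_not.2 hg), add_zero]
    · rw [if_pos hg]
      have h1 := (term_bd t (S n) n H).2
      have h2 := (term_bd t (S' n) n H).1
      have h3 : 0 ≤ 1 / (n : ℝ) := by positivity
      have h4 := mul_le_mul_of_nonneg_left h1 h3
      have h5 := mul_nonneg h3 h2
      linarith [mul_comm (1 / (n : ℝ)) (H : ℝ)]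
  have h7 : (H : ℝ) * ∑ n ∈ bad, (1 / (n : ℝ)) ≤ H * (ε / 2 * Real.log N) :=
    mul_le_mul_of_nonneg_left hbadsum hH0.le
  calc PAvgx.PAvg t S N H ≤ _ := hsplit
    _ ≤ ε / 2 * H * Real.log N + H * (ε / 2 * Real.log N) := add_le_add hmain h7
    _ = ε * H * Real.log N := by ring

end WSAvx

end Pool.Agent.VQ
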